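import Mathlib

/-! Basic set-up for the affine case: plane metrics whose segments are geodesics. -/

set_option autoImplicit false

namespace Pool.Agent.P.MP_ec5bc9_gt.H13

open Set Filter Topology

attribute [-simp] Complex.real_smul

def cr (a b : ℂ) : ℝ := a.re * b.im - a.im * b.re
def dot (a b : ℂ) : ℝ := a.re * b.re + a.im * b.im

@[simp] lemma cr_add_r (a b c : ℂ) : cr a (b + c) = cr a b + cr a c := by simp [cr]; ring
@[simp] lemma cr_add_l (a b c : ℂ) : cr (a + b) c = cr a c + cr b c := by simp [cr]; ring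
@[simp] lemma cr_sub_r (a b c : ℂ) : cr a (b - c) = cr a b - cr a c := by simp [cr]; ring
@[simp] lemma cr_sub_l (a b c : ℂ) : cr (a - b) c = cr a c - cr b c := by simp [cr]; ring
@[simp] lemma cr_neg_r (a b : ℂ) : cr a (-b) = -cr a b := by simp [cr]; ring
@[simp] lemma cr_neg_l (a b : ℂ) : cr (-a) b = -cr a b := by simp [cr]; ring
@[simp] lemma cr_smul_r (a b : ℂ) (t : ℝ) : cr a (t • b) = t * cr a b := by
  simp [cr, Complex.smul_re, Complex.smul_im]; ring
@[simp] lemma cr_smul_l (a b : ℂ) (t : ℝ) : cr (t • a) b = t * cr a b := by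
  simp [cr, Complex.smul_re, Complex.smul_im]; ring
@[simp] lemma cr_self (a : ℂ) : cr a a = 0 := by simp [cr]; ring
@[simp] lemma cr_zero_r (a : ℂ) : cr a 0 = 0 := by simp [cr]
@[simp] lemma cr_zero_l (a : ℂ) : cr 0 a = 0 := by simp [cr]
lemma cr_comm (a b : ℂ) : cr a b = -cr b a := by simp [cr]; ring

@[simp] lemma dot_add_r (a b c : ℂ) : dot a (b + c) = dot a b + dot a c := by simp [dot]; ring
@[simp] lemma dot_add_l (a b c : ℂ) : dot (a + b) c = dot a c + dot b c := by simp [dot]; ring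
@[simp] lemma dot_sub_r (a b c : ℂ) : dot a (b - c) = dot a b - dot a c := by simp [dot]; ring
@[simp] lemma dot_sub_l (a b c : ℂ) : dot (a - b) c = dot a c - dot b c := by simp [dot]; ring
@[simp] lemma dot_neg_r (a b : ℂ) : dot a (-b) = -dot a b := by simp [dot]; ring
@[simp] lemma dot_neg_l (a b : ℂ) : dot (-a) b = -dot a b := by simp [dot]; ring
@[simp] lemma dot_smul_r (a b : ℂ) (t : ℝ) : dot a (t • b) = t * dot a b := by
  simp [dot, Complex.smul_re, Complex.smul_im]; ring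
@[simp] lemma dot_smul_l (a b : ℂ) (t : ℝ) : dot (t • a) b = t * dot a b := by
  simp [dot, Complex.smul_re, Complex.smul_im]; ring
@[simp] lemma dot_zero_r (a : ℂ) : dot a 0 = 0 := by simp [dot]
@[simp] lemma dot_zero_l (a : ℂ) : dot 0 a = 0 := by simp [dot]
lemma dot_comm (a b : ℂ) : dot a b = dot b a := by simp [dot]; ring

lemma dot_self (a : ℂ) : dot a a = ‖a‖ ^ 2 := by
  rw [Complex.sq_norm, Complex.normSq_apply]; simp [dot]

lemma cr_sq_add_dot_sq (a b : ℂ) : cr a b ^ 2 + dot a b ^ 2 = ‖a‖ ^ 2 * ‖b‖ ^ 2 := by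
  rw [Complex.sq_norm, Complex.normSq_apply, Complex.sq_norm, Complex.normSq_apply]
  simp [dot, cr]; ring

lemma abs_cr_le (a b : ℂ) : |cr a b| ≤ ‖a‖ * ‖b‖ := by
  have h := cr_sq_add_dot_sq a b
  apply abs_le_of_sq_le_sq' _ (by positivity) |> fun h => abs_le.2 h
  nlinarith [sq_nonneg (dot a b)]

lemma abs_dot_le (a b : ℂ) : |dot a b| ≤ ‖a‖ * ‖b‖ := by
  have h := cr_sq_add_dot_sq a b
  apply abs_le_of_sq_le_sq' _ (by positivity) |> fun h => abs_le.2 h
  nlinarith [sq_nonneg (cr a b)]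

lemma continuous_cr : Continuous (fun p : ℂ × ℂ => cr p.1 p.2) := by
  unfold cr; fun_prop
lemma continuous_dot : Continuous (fun p : ℂ × ℂ => dot p.1 p.2) := by
  unfold dot; fun_prop

@[fun_prop] lemma Continuous.cr' {X : Type*} [TopologicalSpace X] {f g : X → ℂ}
    (hf : Continuous f) (hg : Continuous g) : Continuous fun x => cr (f x) (g x) :=
  continuous_cr.comp (hf.prodMk hg)
@[fun_prop] lemma Continuous.dot' {X : Type*} [TopologicalSpace X] {f g : X → ℂ}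
    (hf : Continuous f) (hg : Continuous g) : Continuous fun x => dot (f x) (g x) :=
  continuous_dot.comp (hf.prodMk hg)

lemma tendsto_cr {ι : Type*} {l : Filter ι} {f g : ι → ℂ} {a b : ℂ}
    (hf : Tendsto f l (𝓝 a)) (hg : Tendsto g l (𝓝 b)) :
    Tendsto (fun i => cr (f i) (g i)) l (𝓝 (cr a b)) :=
  (continuous_cr.tendsto (a, b)).comp (hf.prodMk_nhds hg)
lemma tendsto_dot {ι : Type*} {l : Filter ι} {f g : ι → ℂ} {a b : ℂ}
    (hf : Tendsto f l (𝓝 a)) (hg : Tendsto g l (𝓝 b)) :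
    Tendsto (fun i => dot (f i) (g i)) l (𝓝 (dot a b)) :=
  (continuous_dot.tendsto (a, b)).comp (hf.prodMk_nhds hg)

/-- A vector with zero cross product with a nonzero vector is a multiple of it. -/
lemma exists_smul_of_cr {w v : ℂ} (hw : w ≠ 0) (h : cr w v = 0) : ∃ s : ℝ, v = s • w := by
  have hn : ‖w‖ ^ 2 ≠ 0 := pow_ne_zero _ (norm_ne_zero_iff.2 hw)
  refine ⟨dot w v / ‖w‖ ^ 2, ?_⟩
  rw [Complex.sq_norm, Complex.normSq_apply] at *
  simp only [cr, dot] at *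
  apply Complex.ext
  · simp only [Complex.smul_re, smul_eq_mul]; rw [div_mul_eq_mul_div, eq_div_iff hn]
    linear_combination (-w.im) * h
  · simp only [Complex.smul_im, smul_eq_mul]; rw [div_mul_eq_mul_div, eq_div_iff hn]
    linear_combination (w.re) * h

/-- Decomposition of a vector in a basis. -/
lemma decomp {w u : ℂ} (h : cr w u ≠ 0) (v : ℂ) :
    v = (cr v u / cr w u) • w + (cr w v / cr w u) • u := by
  apply Complex.ext
  · simp only [Complex.add_re, Complex.smul_re, smul_eq_mul]; field_simp; simp only [cr]; ring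
  · simp only [Complex.add_im, Complex.smul_im, smul_eq_mul]; field_simp; simp only [cr]; ring

lemma eq_zero_of_dot {w u v : ℂ} (h : cr w u ≠ 0) (h1 : dot v w = 0) (h2 : dot v u = 0) : v = 0 := by
  have : dot v v = 0 := by
    conv_lhs => arg 2; rw [decomp h v]
    simp [h1, h2]
  rw [dot_self] at this
  exact norm_eq_zero.1 (pow_eq_zero_iff (by norm_num) |>.1 this)

structure PM0 (M : Set ℂ) (d : ℂ → ℂ → ℝ) : Prop where
  isOpen : IsOpen M
  convex : Convex ℝ M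
  refl : ∀ x ∈ M, d x x = 0
  pos : ∀ x ∈ M, ∀ y ∈ M, x ≠ y → 0 < d x y
  symm : ∀ x ∈ M, ∀ y ∈ M, d x y = d y x
  tri : ∀ x ∈ M, ∀ y ∈ M, ∀ z ∈ M, d x z ≤ d x y + d y z
  add : ∀ x ∈ M, ∀ z ∈ M, ∀ t ∈ Icc (0 : ℝ) 1,
    d x z = d x (x + t • (z - x)) + d (x + t • (z - x)) z
  cont : ContinuousOn (fun p : ℂ × ℂ => d p.1 p.2) (M ×ˢ M)

namespace PM0
variable {M : Set ℂ} {d : ℂ → ℂ → ℝ} (H : PM0 M d)
include H

lemma nonneg {x y : ℂ} (hx : x ∈ M) (hy : y ∈ M) : 0 ≤ d x y := by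
  by_cases h : x = y
  · subst h; rw [H.refl x hx]
  · exact (H.pos x hx y hy h).le

lemma seg_mem {x z : ℂ} (hx : x ∈ M) (hz : z ∈ M) {t : ℝ} (h0 : 0 ≤ t) (h1 : t ≤ 1) :
    x + t • (z - x) ∈ M := H.convex.add_smul_sub_mem hx hz ⟨h0, h1⟩

lemma ray_mem {x v : ℂ} {s t : ℝ} (hx : x ∈ M) (ht : x + t • v ∈ M) (h0 : 0 ≤ s) (hst : s ≤ t) :
    x + s • v ∈ M := by
  rcases eq_or_lt_of_le (h0.trans hst) with h | h
  · have : s = 0 := le_antisymm (h ▸ hst) h0
    simp [this, hx]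
  · have := H.seg_mem hx ht (div_nonneg h0 h.le) ((div_le_one h).2 hst)
    have e : x + (s / t) • (x + t • v - x) = x + s • v := by
      rw [add_sub_cancel_left, smul_smul, div_mul_cancel₀ _ h.ne']
    rwa [e] at this

lemma ray_add {x v : ℂ} {s t : ℝ} (hx : x ∈ M) (ht : x + t • v ∈ M) (h0 : 0 ≤ s) (hst : s ≤ t) :
    d x (x + t • v) = d x (x + s • v) + d (x + s • v) (x + t • v) := by
  rcases eq_or_lt_of_le (h0.trans hst) with h | h
  · have hs : s = 0 := le_antisymm (h ▸ hst) h0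
    subst h; simp [hs, H.refl x hx]
  · have := H.add x hx _ ht (s / t) ⟨div_nonneg h0 h.le, (div_le_one h).2 hst⟩
    have e : x + (s / t) • (x + t • v - x) = x + s • v := by
      rw [add_sub_cancel_left, smul_smul, div_mul_cancel₀ _ h.ne']
    rwa [e] at this

/-- additivity for three points on a line -/
lemma line_add {x v : ℂ} {r s t : ℝ} (hr : x + r • v ∈ M) (ht : x + t • v ∈ M) (hrs : r ≤ s)
    (hst : s ≤ t) :
    d (x + r • v) (x + t • v) = d (x + r • v) (x + s • v) + d (x + s • v) (x + t • v) := by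
  have e1 : x + t • v = (x + r • v) + (t - r) • v := by rw [add_assoc, ← add_smul]; ring_nf
  have e2 : x + s • v = (x + r • v) + (s - r) • v := by rw [add_assoc, ← add_smul]; ring_nf
  rw [e1] at ht ⊢; rw [e2]
  exact H.ray_add hr ht (by linarith) (by linarith)

lemma line_mem {x v : ℂ} {r s t : ℝ} (hr : x + r • v ∈ M) (ht : x + t • v ∈ M) (hrs : r ≤ s)
    (hst : s ≤ t) : x + s • v ∈ M := by
  have e1 : x + t • v = (x + r • v) + (t - r) • v := by rw [add_assoc, ← add_smul]; ring_nf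
  have e2 : x + s • v = (x + r • v) + (s - r) • v := by rw [add_assoc, ← add_smul]; ring_nf
  rw [e1] at ht; rw [e2]
  exact H.ray_mem hr ht (by linarith) (by linarith)

lemma ray_mono {x v : ℂ} {s t : ℝ} (hx : x ∈ M) (ht : x + t • v ∈ M) (h0 : 0 ≤ s) (hst : s ≤ t) :
    d x (x + s • v) ≤ d x (x + t • v) := by
  rw [H.ray_add hx ht h0 hst]
  linarith [H.nonneg (H.ray_mem hx ht h0 hst) ht]

lemma ray_strict {x v : ℂ} {s t : ℝ} (hx : x ∈ M) (ht : x + t • v ∈ M) (h0 : 0 ≤ s) (hst : s < t)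
    (hv : v ≠ 0) : d x (x + s • v) < d x (x + t • v) := by
  rw [H.ray_add hx ht h0 hst.le]
  have : x + s • v ≠ x + t • v := by
    intro h
    have h2 : (t - s) • v = 0 := by rw [sub_smul]; exact sub_eq_zero.2 (add_left_cancel h).symm
    rcases smul_eq_zero.1 h2 with h3 | h3
    · linarith
    · exact hv h3
  linarith [H.pos _ (H.ray_mem hx ht h0 hst.le) _ ht this]

lemma tendsto {ι : Type*} {l : Filter ι} {f g : ι → ℂ} {a b : ℂ} (ha : a ∈ M) (hb : b ∈ M)
    (hf : Tendsto f l (𝓝 a)) (hg : Tendsto g l (𝓝 b)) :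
    Tendsto (fun i => d (f i) (g i)) l (𝓝 (d a b)) := by
  have : ContinuousAt (fun p : ℂ × ℂ => d p.1 p.2) (a, b) :=
    H.cont.continuousAt ((H.isOpen.prod H.isOpen).mem_nhds ⟨ha, hb⟩)
  exact this.tendsto.comp (hf.prodMk_nhds hg)

lemma eventually_mem {ι : Type*} {l : Filter ι} {f : ι → ℂ} {a : ℂ} (ha : a ∈ M)
    (hf : Tendsto f l (𝓝 a)) : ∀ᶠ i in l, f i ∈ M := hf (H.isOpen.mem_nhds ha)

lemma continuousOn {X : Type*} [TopologicalSpace X] {s : Set X} {f g : X → ℂ}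
    (hf : ContinuousOn f s) (hg : ContinuousOn g s) (hfm : ∀ x ∈ s, f x ∈ M)
    (hgm : ∀ x ∈ s, g x ∈ M) : ContinuousOn (fun x => d (f x) (g x)) s :=
  H.cont.comp (hf.prodMk hg) (fun x hx => ⟨hfm x hx, hgm x hx⟩)

/-- points that are far in the plane are far for `d` -/
lemma far {F : ℂ} (hF : F ∈ M) {r : ℝ} (hr : 0 < r) :
    ∃ m : ℝ, 0 < m ∧ ∀ X ∈ M, r ≤ ‖X - F‖ → m ≤ d F X := by
  obtain ⟨ε, hε, hb⟩ := Metric.isOpen_iff.1 H.isOpen F hF
  set ρ := min r (ε / 2) with hρ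
  have hρ0 : 0 < ρ := lt_min hr (by linarith)
  have hs : Metric.sphere F ρ ⊆ M := fun y hy => hb (by
    rw [Metric.mem_ball, Metric.mem_sphere.1 hy]; exact lt_of_le_of_lt (min_le_right _ _) (by linarith))
  obtain ⟨y, hy, hmin⟩ := (isCompact_sphere F ρ).exists_isMinOn (f := fun y => d F y)
    (NormedSpace.sphere_nonempty.2 hρ0.le)
    (H.continuousOn continuousOn_const continuousOn_id (fun _ _ => hF) hs)
  have hyF : F ≠ y := by
    intro h; rw [← h, Metric.mem_sphere, dist_self] at hy; linarith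
  refine ⟨d F y, H.pos F hF y (hs hy) hyF, fun X hX hXr => ?_⟩
  have hn : 0 < ‖X - F‖ := lt_of_lt_of_le hr hXr
  have h1 : F + (1 : ℝ) • (X - F) ∈ M := by simpa using hX
  have hle : ρ / ‖X - F‖ ≤ 1 := (div_le_one hn).2 ((min_le_left _ _).trans hXr)
  have h2 := H.ray_mono hF h1 (div_nonneg hρ0.le hn.le) hle
  have h3 : F + (ρ / ‖X - F‖) • (X - F) ∈ Metric.sphere F ρ := by
    rw [mem_sphere_iff_norm, add_sub_cancel_left, norm_smul, Real.norm_eq_abs,
      abs_of_pos (div_pos hρ0 hn), div_mul_cancel₀ _ hn.ne']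
  have h4 : d F y ≤ d F (F + (ρ / ‖X - F‖) • (X - F)) := hmin h3
  simp only [one_smul, add_sub_cancel] at h2
  exact h4.trans h2

lemma tendsto_of_d {ι : Type*} {l : Filter ι} {f : ι → ℂ} {a : ℂ} (ha : a ∈ M)
    (hf : ∀ᶠ i in l, f i ∈ M) (h : Tendsto (fun i => d a (f i)) l (𝓝 0)) : Tendsto f l (𝓝 a) := by
  rw [Metric.tendsto_nhds]
  intro r hr
  obtain ⟨m, hm, hfar⟩ := H.far ha hr
  filter_upwards [hf, h (gt_mem_nhds hm)] with i hi1 hi2
  by_contra hc
  rw [dist_eq_norm] at hc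
  exact absurd (hfar _ hi1 (not_lt.1 hc)) (not_le.2 hi2)

end PM0

/-- distance from `X` to the part in `M` of the line through `Y` with direction `w` -/
noncomputable def dl (M : Set ℂ) (d : ℂ → ℂ → ℝ) (Y w X : ℂ) : ℝ :=
  sInf ((fun s : ℝ => d X (Y + s • w)) '' {s | Y + s • w ∈ M})

namespace PM0
variable {M : Set ℂ} {d : ℂ → ℂ → ℝ} (H : PM0 M d)
include H

lemma dl_le {Y w X : ℂ} (hX : X ∈ M) {s : ℝ} (hs : Y + s • w ∈ M) :
    dl M d Y w X ≤ d X (Y + s • w) := by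
  apply csInf_le
  · exact ⟨0, by rintro _ ⟨t, ht, rfl⟩; exact H.nonneg hX ht⟩
  · exact ⟨s, hs, rfl⟩

omit H in
lemma le_dl {Y w X : ℂ} (hY : Y ∈ M) {c : ℝ} (h : ∀ s : ℝ, Y + s • w ∈ M → c ≤ d X (Y + s • w)) :
    c ≤ dl M d Y w X := by
  apply le_csInf
  · exact ⟨_, 0, by simpa using hY, rfl⟩
  · rintro _ ⟨t, ht, rfl⟩; exact h t ht

lemma dl_lip {Y w X X' : ℂ} (hY : Y ∈ M) (hX : X ∈ M) (hX' : X' ∈ M) :
    dl M d Y w X ≤ d X X' + dl M d Y w X' := by
  have : dl M d Y w X - d X X' ≤ dl M d Y w X' := by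
    apply le_dl hY
    intro s hs
    linarith [H.dl_le (Y := Y) (w := w) hX hs, H.tri X hX X' hX' _ hs]
  linarith

lemma dl_continuousOn {Y w : ℂ} (hY : Y ∈ M) : ContinuousOn (dl M d Y w) M := by
  intro X hX
  have h0 : Tendsto (fun X' => d X X') (𝓝[M] X) (𝓝 0) := by
    have := H.tendsto (l := 𝓝[M] X) hX hX tendsto_const_nhds (tendsto_id.mono_left nhdsWithin_le_nhds)
    rwa [H.refl X hX] at this
  rw [ContinuousWithinAt, tendsto_iff_dist_tendsto_zero]
  refine squeeze_zero' (Eventually.of_forall fun _ => dist_nonneg) ?_ h0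
  filter_upwards [self_mem_nhdsWithin] with X' hX'
  rw [Real.dist_eq, abs_le]
  have h1 := H.dl_lip (w := w) hY hX hX'
  have h2 := H.dl_lip (w := w) hY hX' hX
  rw [H.symm X' hX' X hX] at h2
  constructor <;> linarith

lemma dl_pos {Y w F : ℂ} (hY : Y ∈ M) (hF : F ∈ M) (h : cr w (F - Y) ≠ 0) : 0 < dl M d Y w F := by
  have hw : w ≠ 0 := by rintro rfl; simp at h
  have hwn : 0 < ‖w‖ := norm_pos_iff.2 hw
  obtain ⟨m, hm, hfar⟩ := H.far hF (r := |cr w (F - Y)| / ‖w‖) (div_pos (abs_pos.2 h) hwn)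
  refine lt_of_lt_of_le hm (le_dl hY fun s hs => hfar _ hs ?_)
  rw [div_le_iff₀ hwn, mul_comm]
  have := abs_cr_le w (Y + s • w - F)
  have e : cr w (Y + s • w - F) = -cr w (F - Y) := by simp
  rwa [e, abs_neg] at this

end PM0

structure Par where
  l : ℂ
  m : ℂ
  a : ℝ
  b : ℝ
  nd : cr l m ≠ 0

namespace Par
variable (P : Par)

def q (X : ℂ) : ℝ := (dot P.l X + P.a) ^ 2 - (dot P.m X + P.b)
noncomputable def grad (X : ℂ) : ℂ := (2 * (dot P.l X + P.a)) • P.l - P.m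
noncomputable def axis : ℂ := (cr P.l P.m)⁻¹ • (Complex.I * P.l)

lemma q_add (X v : ℂ) : P.q (X + v) = P.q X + dot (P.grad X) v + (dot P.l v) ^ 2 := by
  simp [q, grad]; ring

lemma q_ray (X v : ℂ) (t : ℝ) :
    P.q (X + t • v) = P.q X + t * dot (P.grad X) v + t ^ 2 * (dot P.l v) ^ 2 := by
  rw [q_add]; simp; ring

lemma dot_l_axis : dot P.l P.axis = 0 := by
  simp only [axis, dot_smul_r]; simp [dot]; right; ring

lemma dot_m_axis : dot P.m P.axis = 1 := by
  have : dot P.m (Complex.I * P.l) = cr P.l P.m := by simp [dot, cr]; ring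
  simp only [axis, dot_smul_r, this]; exact inv_mul_cancel₀ P.nd

lemma axis_ne : P.axis ≠ 0 := by
  intro h; have := P.dot_m_axis; rw [h] at this; simp at this

lemma dot_grad_axis (X : ℂ) : dot (P.grad X) P.axis = -1 := by
  simp [grad, dot_l_axis, dot_m_axis]

lemma q_axis (X : ℂ) (t : ℝ) : P.q (X + t • P.axis) = P.q X - t := by
  rw [q_ray, dot_grad_axis, dot_l_axis]; ring

lemma continuous_q : Continuous P.q := by unfold q; fun_prop

lemma q_convex (X Z : ℂ) {t : ℝ} (h0 : 0 ≤ t) (h1 : t ≤ 1) :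
    P.q (X + t • (Z - X)) ≤ (1 - t) * P.q X + t * P.q Z := by
  have e : P.q Z = P.q (X + (1 : ℝ) • (Z - X)) := by simp
  rw [e, q_ray, q_ray]
  have : 0 ≤ t * (1 - t) * (dot P.l (Z - X)) ^ 2 := by
    apply mul_nonneg (mul_nonneg h0 (by linarith)) (sq_nonneg _)
  nlinarith

end Par

end Pool.Agent.P.MP_ec5bc9_gt.H13
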