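import Pool.Agent.P.MP_ec5bc9_gt.A0

/-! The side of the parabola on which the focus is nearer than the line. -/

set_option autoImplicit false

namespace Pool.Agent.P.MP_ec5bc9_gt.H13

open Set Filter Topology

attribute [-simp] Complex.real_smul

def Cut (M : Set ℂ) (d : ℂ → ℂ → ℝ) (Y w F : ℂ) (P : Par) : Prop :=
  ∀ X ∈ M, (d X F = dl M d Y w X ↔ P.q X = 0)

structure PM (M : Set ℂ) (d : ℂ → ℂ → ℝ) : Prop extends PM0 M d where
  strict : ∀ x ∈ M, ∀ y ∈ M, ∀ z ∈ M, cr (y - x) (z - x) ≠ 0 → d x z < d x y + d y z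
  par : ∀ Y ∈ M, ∀ w F : ℂ, F ∈ M → cr w (F - Y) ≠ 0 → ∃ P : Par, Cut M d Y w F P

noncomputable def ff (M : Set ℂ) (d : ℂ → ℂ → ℝ) (Y w F X : ℂ) : ℝ := d X F - dl M d Y w X

namespace PM0
variable {M : Set ℂ} {d : ℂ → ℂ → ℝ} (H : PM0 M d) {Y w F : ℂ} {P : Par}
include H

lemma ff_mono (hY : Y ∈ M) (hF : F ∈ M) {v : ℂ} {s t : ℝ} (ht : F + t • v ∈ M) (h0 : 0 ≤ s)
    (hst : s ≤ t) : ff M d Y w F (F + s • v) ≤ ff M d Y w F (F + t • v) := by
  have hs := H.ray_mem hF ht h0 hst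
  have h1 := H.ray_add hF ht h0 hst
  have h2 := H.dl_lip (w := w) hY ht hs
  simp only [ff]
  rw [H.symm _ hs F hF, H.symm _ ht F hF]
  rw [H.symm _ ht _ hs] at h2
  linarith

lemma ff_focus (hY : Y ∈ M) (hF : F ∈ M) (h : cr w (F - Y) ≠ 0) : ff M d Y w F F < 0 := by
  simp only [ff, H.refl F hF]; linarith [H.dl_pos hY hF h]

lemma ff_continuousOn (hY : Y ∈ M) (hF : F ∈ M) : ContinuousOn (ff M d Y w F) M :=
  (H.continuousOn continuousOn_id continuousOn_const (fun _ h => h) (fun _ _ => hF)).sub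
    (H.dl_continuousOn hY)

lemma ff_pos_of_lt {X : ℂ} (hX : X ∈ M) {s : ℝ} (hs : Y + s • w ∈ M)
    (h : d X (Y + s • w) < d X F) : 0 < ff M d Y w F X := by
  simp only [ff]; linarith [H.dl_le (Y := Y) (w := w) hX hs]

lemma ff_line (hF : F ∈ M) (h : cr w (F - Y) ≠ 0) {s : ℝ} (hs : Y + s • w ∈ M) :
    0 < ff M d Y w F (Y + s • w) := by
  apply H.ff_pos_of_lt hs hs
  rw [H.refl _ hs]
  apply H.pos _ hs _ hF
  intro e; apply h; rw [← e]; simp

lemma ff_exists_zero (hY : Y ∈ M) (hF : F ∈ M) (h : cr w (F - Y) ≠ 0) {X : ℂ} (hX : X ∈ M)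
    (hpos : 0 ≤ ff M d Y w F X) :
    ∃ τ ∈ Icc (0 : ℝ) 1, ff M d Y w F (F + τ • (X - F)) = 0 := by
  have hc : ContinuousOn (fun τ : ℝ => ff M d Y w F (F + τ • (X - F))) (Icc 0 1) :=
    (H.ff_continuousOn hY hF).comp (by fun_prop) (fun τ hτ => H.seg_mem hF hX hτ.1 hτ.2)
  have := intermediate_value_Icc (zero_le_one' ℝ) hc
  have h0 : (0 : ℝ) ∈ Icc (ff M d Y w F (F + (0 : ℝ) • (X - F))) (ff M d Y w F (F + (1 : ℝ) • (X - F))) := by
    simp only [zero_smul, add_zero, one_smul, add_sub_cancel]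
    exact ⟨(H.ff_focus hY hF h).le, hpos⟩
  obtain ⟨τ, hτ, e⟩ := this h0
  exact ⟨τ, hτ, e⟩

omit H in
lemma cut_iff (hP : Cut M d Y w F P) {X : ℂ} (hX : X ∈ M) : ff M d Y w F X = 0 ↔ P.q X = 0 := by
  rw [← hP X hX, ff, sub_eq_zero]

lemma q_focus_ne (hY : Y ∈ M) (hF : F ∈ M) (h : cr w (F - Y) ≠ 0) (hP : Cut M d Y w F P) :
    P.q F ≠ 0 := fun e => (H.ff_focus hY hF h).ne ((cut_iff hP hF).2 e)

lemma two_zero (hY : Y ∈ M) (hF : F ∈ M) (h : cr w (F - Y) ≠ 0) (hP : Cut M d Y w F P)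
    {v : ℂ} {s t : ℝ} (ht : F + t • v ∈ M) (h0 : 0 ≤ s) (hst : s < t)
    (hs0 : P.q (F + s • v) = 0) (ht0 : P.q (F + t • v) = 0) : False := by
  have hs := H.ray_mem hF ht h0 hst.le
  have hm := H.ray_mem hF ht (s := (s + t) / 2) (by linarith) (by linarith)
  have a1 := H.ff_mono (w := w) hY hF ht (s := (s + t) / 2) (by linarith) (by linarith)
  have a2 := H.ff_mono (w := w) hY hF hm (s := s) h0 (by linarith)
  rw [(cut_iff hP ht).2 ht0] at a1
  rw [(cut_iff hP hs).2 hs0] at a2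
  have hm0 := (cut_iff hP hm).1 (le_antisymm a1 a2)
  rw [P.q_ray] at hs0 ht0 hm0
  apply H.q_focus_ne hY hF h hP
  set A := (dot P.l v) ^ 2
  set B := dot (P.grad F) v
  have hd : t - s ≠ 0 := by linarith
  have e1 : B + (s + t) * A = 0 := by
    have : (t - s) * (B + (s + t) * A) = 0 := by linear_combination ht0 - hs0
    exact (mul_eq_zero.1 this).resolve_left hd
  have e2 : B + (s + (s + t) / 2) * A = 0 := by
    have : (t - s) * (B + (s + (s + t) / 2) * A) = 0 := by linear_combination 2 * hm0 - 2 * hs0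
    exact (mul_eq_zero.1 this).resolve_left hd
  have e3 : A = 0 := by
    have : (t - s) * A = 0 := by linear_combination 2 * e1 - 2 * e2
    exact (mul_eq_zero.1 this).resolve_left hd
  have e4 : B = 0 := by rw [e3] at e1; linarith
  rw [e3, e4] at hs0; linarith

lemma sign_neg (hY : Y ∈ M) (hF : F ∈ M) (h : cr w (F - Y) ≠ 0) (hP : Cut M d Y w F P)
    {X : ℂ} (hX : X ∈ M) (hneg : ff M d Y w F X < 0) : 0 < P.q X * P.q F := by
  by_contra hc
  rw [not_lt] at hc
  have hcont : ContinuousOn (fun τ : ℝ => P.q (F + τ • (X - F)) * P.q F) (Icc 0 1) := by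
    have := P.continuous_q
    fun_prop
  have := intermediate_value_Icc' (zero_le_one' ℝ) hcont
  have h0 : (0 : ℝ) ∈ Icc (P.q (F + (1 : ℝ) • (X - F)) * P.q F) (P.q (F + (0 : ℝ) • (X - F)) * P.q F) := by
    simp only [zero_smul, add_zero, one_smul, add_sub_cancel]
    exact ⟨hc, mul_self_nonneg _⟩
  obtain ⟨τ, hτ, e⟩ := this h0
  have e' : P.q (F + τ • (X - F)) = 0 := (mul_eq_zero.1 e).resolve_right (H.q_focus_ne hY hF h hP)
  have h1 : F + (1 : ℝ) • (X - F) ∈ M := by simpa using hX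
  have := H.ff_mono (w := w) hY hF h1 hτ.1 hτ.2
  rw [(cut_iff hP (H.seg_mem hF hX hτ.1 hτ.2)).2 e'] at this
  simp only [one_smul, add_sub_cancel] at this
  linarith

lemma sign_pos (hY : Y ∈ M) (hF : F ∈ M) (h : cr w (F - Y) ≠ 0) (hP : Cut M d Y w F P)
    {X : ℂ} (hX : X ∈ M) (hpos : 0 < ff M d Y w F X) : P.q X * P.q F < 0 := by
  have hqF := H.q_focus_ne hY hF h hP
  have hqX : P.q X ≠ 0 := fun e => hpos.ne' ((cut_iff hP hX).2 e)
  have h1 : F + (1 : ℝ) • (X - F) ∈ M := by simpa using hX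
  rcases lt_or_gt_of_ne hqF with hF' | hF'
  · rcases lt_or_gt_of_ne hqX with hX' | hX'
    · exfalso
      obtain ⟨τ, hτ, e⟩ := H.ff_exists_zero hY hF h hX hpos.le
      have e' := (cut_iff hP (H.seg_mem hF hX hτ.1 hτ.2)).1 e
      have := P.q_convex F X hτ.1 hτ.2
      rw [e'] at this
      rcases eq_or_lt_of_le hτ.1 with h0 | h0
      · rw [← h0] at this; linarith
      · nlinarith [hτ.2]
    · exact mul_neg_of_pos_of_neg hX' hF'
  · rcases lt_or_gt_of_ne hqX with hX' | hX'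
    · exact mul_neg_of_neg_of_pos hX' hF'
    · exfalso
      have hcont : Continuous (fun τ : ℝ => P.q (F + τ • (X - F))) := by
        have := P.continuous_q
        fun_prop
      have hnn : ∀ τ ∈ Icc (0 : ℝ) 1, 0 ≤ P.q (F + τ • (X - F)) := by
        intro τ hτ
        by_contra hc
        rw [not_le] at hc
        obtain ⟨s, hs, es⟩ := intermediate_value_Icc' hτ.1 hcont.continuousOn
          (show (0 : ℝ) ∈ Icc _ _ from ⟨hc.le, by simpa using hF'.le⟩)
        obtain ⟨t, ht, et⟩ := intermediate_value_Icc hτ.2 hcont.continuousOn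
          (show (0 : ℝ) ∈ Icc _ _ from ⟨hc.le, by simpa using hX'.le⟩)
        have hsτ : s ≠ τ := by rintro rfl; exact hc.ne es
        have hst : s < t := lt_of_lt_of_le (lt_of_le_of_ne hs.2 hsτ) ht.1
        exact H.two_zero hY hF h hP (H.ray_mem hF h1 (hτ.1.trans ht.1) ht.2) hs.1 hst es et
      have hT : Tendsto (fun ε : ℝ => X + (-ε) • P.axis) (𝓝[>] 0) (𝓝 X) := by
        have : Continuous (fun ε : ℝ => X + (-ε) • P.axis) := by fun_prop
        have := (this.tendsto 0).mono_left (nhdsWithin_le_nhds (s := Ioi 0))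
        simpa using this
      have hT2 : Tendsto (fun ε : ℝ => ff M d Y w F (X + (-ε) • P.axis)) (𝓝[>] 0)
          (𝓝 (ff M d Y w F X)) :=
        ((H.ff_continuousOn hY hF).continuousAt (H.isOpen.mem_nhds hX)).tendsto.comp hT
      obtain ⟨ε, hε1, hε2, hε3⟩ := ((H.eventually_mem hX hT).and
        ((hT2.eventually (lt_mem_nhds hpos)).and self_mem_nhdsWithin)).exists
      obtain ⟨τ, hτ, e⟩ := H.ff_exists_zero hY hF h hε1 hε2.le
      have e' := (cut_iff hP (H.seg_mem hF hε1 hτ.1 hτ.2)).1 e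
      have e2 : F + τ • (X + (-ε) • P.axis - F) = (F + τ • (X - F)) + (-(τ * ε)) • P.axis := by
        module
      rw [e2, P.q_axis] at e'
      have hε : 0 < ε := hε3
      have := hnn τ hτ
      have hτ0 : τ = 0 := by nlinarith [hτ.1, mul_nonneg hτ.1 hε.le]
      rw [hτ0] at e'
      simp at e'
      exact hqF e'

lemma inside_lt (hY : Y ∈ M) (hF : F ∈ M) (h : cr w (F - Y) ≠ 0) (hP : Cut M d Y w F P)
    (hin : P.q F < 0) {X : ℂ} (hX : X ∈ M) : ff M d Y w F X < 0 ↔ P.q X < 0 := by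
  constructor
  · intro hn
    have := H.sign_neg hY hF h hP hX hn
    by_contra hc; rw [not_lt] at hc; nlinarith
  · intro hq
    rcases lt_trichotomy (ff M d Y w F X) 0 with h1 | h1 | h1
    · exact h1
    · exact absurd ((cut_iff hP hX).1 h1) hq.ne
    · have := H.sign_pos hY hF h hP hX h1; nlinarith

lemma inside_le (hY : Y ∈ M) (hF : F ∈ M) (h : cr w (F - Y) ≠ 0) (hP : Cut M d Y w F P)
    (hin : P.q F < 0) {X : ℂ} (hX : X ∈ M) : ff M d Y w F X ≤ 0 ↔ P.q X ≤ 0 := by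
  rw [le_iff_lt_or_eq, le_iff_lt_or_eq, H.inside_lt hY hF h hP hin hX, cut_iff hP hX]

lemma inside_pos (hY : Y ∈ M) (hF : F ∈ M) (h : cr w (F - Y) ≠ 0) (hP : Cut M d Y w F P)
    (hin : P.q F < 0) {X : ℂ} (hX : X ∈ M) : 0 < ff M d Y w F X ↔ 0 < P.q X := by
  rw [← not_le, ← not_le, H.inside_le hY hF h hP hin hX]

/-- The focus is inside as soon as it lies between a point outside and a point outside or on the curve. -/
lemma inside_of_between (hY : Y ∈ M) (hF : F ∈ M) (h : cr w (F - Y) ≠ 0) (hP : Cut M d Y w F P)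
    {W1 W2 : ℂ} (h1 : W1 ∈ M) (h2 : W2 ∈ M) (p1 : 0 < ff M d Y w F W1) (p2 : 0 ≤ ff M d Y w F W2)
    {t : ℝ} (t0 : 0 ≤ t) (t1 : t < 1) (e : F = W1 + t • (W2 - W1)) : P.q F < 0 := by
  by_contra hc
  have hF' : 0 < P.q F := lt_of_le_of_ne (not_lt.1 hc) (H.q_focus_ne hY hF h hP).symm
  have a1 : P.q W1 < 0 := by have := H.sign_pos hY hF h hP h1 p1; nlinarith
  have a2 : P.q W2 ≤ 0 := by
    rcases eq_or_lt_of_le p2 with p | p
    · exact ((cut_iff hP h2).1 p.symm).le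
    · have := H.sign_pos hY hF h hP h2 p; nlinarith
  have := P.q_convex W1 W2 t0 t1.le
  rw [← e] at this
  nlinarith

/-- For lines parallel to a line through the focus and close to it, the focus is inside. -/
lemma inside_close {u : ℂ} (hF : F ∈ M) (hu : cr w u ≠ 0) :
    ∀ᶠ ε in 𝓝[>] (0 : ℝ), F + (-ε) • u ∈ M ∧ cr w (F - (F + (-ε) • u)) ≠ 0 ∧
      ∀ P : Par, Cut M d (F + (-ε) • u) w F P → P.q F < 0 := by
  have hw : w ≠ 0 := by rintro rfl; simp at hu
  have small : ∀ (A v : ℂ), Tendsto (fun ε : ℝ => A + ε • v) (𝓝[>] 0) (𝓝 A) := by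
    intro A v
    have : Continuous (fun ε : ℝ => A + ε • v) := by fun_prop
    have := (this.tendsto 0).mono_left (nhdsWithin_le_nhds (s := Ioi 0))
    simpa using this
  obtain ⟨s, hs1, hs2⟩ := ((H.eventually_mem hF (small F w)).and self_mem_nhdsWithin).exists
  have hs : 0 < s := hs2
  set p := F + s • w with hp
  have hpF : p ≠ F := by
    intro e
    have : s • w = 0 := by rw [hp] at e; simpa using e
    rcases smul_eq_zero.1 this with h | h
    · linarith
    · exact hw h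
  have T1 := H.tendsto hs1 hs1 (small p u) tendsto_const_nhds
  have T2 := H.tendsto hs1 hF (small p u) tendsto_const_nhds
  rw [H.refl p hs1] at T1
  obtain ⟨η, hη1, hη2, hη3⟩ := ((H.eventually_mem hs1 (small p u)).and
    ((T1.eventually_lt T2 (H.pos p hs1 F hF hpF)).and self_mem_nhdsWithin)).exists
  have hη : 0 < η := hη3
  set p' := p + η • u with hp'
  have T3 := H.tendsto hη1 hs1 tendsto_const_nhds (small p (-u))
  filter_upwards [H.eventually_mem hF (small F (-u)), H.eventually_mem hs1 (small p (-u)),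
    T3.eventually (gt_mem_nhds hη2), H.eventually_mem hF (small F (-(η⁻¹ • (p' - F)))),
    self_mem_nhdsWithin] with ε e1 e2 e3 e4 e5
  have hε : 0 < ε := e5
  have e1' : F + (-ε) • u ∈ M := by simpa using e1
  have hc : cr w (F - (F + (-ε) • u)) ≠ 0 := by simp [hu, hε.ne']
  refine ⟨e1', hc, fun P hP => ?_⟩
  have k1 : p + ε • (-u) = (F + (-ε) • u) + s • w := by rw [hp]; module
  have k2 : F + ε • (-(η⁻¹ • (p' - F))) = (F + (-ε) • u) + (-(ε * η⁻¹ * s)) • w := by
    have : η⁻¹ • (p' - F) = (η⁻¹ * s) • w + u := by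
      rw [hp', hp]
      have : F + s • w + η • u - F = s • w + η • u := by abel
      rw [this, smul_add, smul_smul, smul_smul, inv_mul_cancel₀ hη.ne', one_smul]
    rw [this]; module
  have f2 : 0 < ff M d (F + (-ε) • u) w F p' := by
    apply H.ff_pos_of_lt hη1 (s := s) (k1 ▸ e2)
    rw [← k1]; exact e3
  have f1 : 0 < ff M d (F + (-ε) • u) w F (F + ε • (-(η⁻¹ • (p' - F)))) := by
    rw [k2] at e4 ⊢; exact H.ff_line hF hc e4
  have hr : 0 < ε * η⁻¹ := mul_pos hε (inv_pos.2 hη)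
  refine H.inside_of_between e1' hF hc hP e4 hη1 f1 f2.le
    (t := ε * η⁻¹ / (1 + ε * η⁻¹)) (by positivity) ((div_lt_one (by linarith)).2 (by linarith)) ?_
  have : p' - (F + ε • (-(η⁻¹ • (p' - F)))) = (1 + ε * η⁻¹) • (p' - F) := by module
  rw [this, smul_smul, div_mul_cancel₀ _ (by linarith)]
  module

end PM0

end Pool.Agent.P.MP_ec5bc9_gt.H13
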