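import Pool.Agent.P.MP_ec5bc9_gt.A1

/-! Perpendiculars: existence, uniqueness, continuity. -/

set_option autoImplicit false

namespace Pool.Agent.P.MP_ec5bc9_gt.H13

open Set Filter Topology

attribute [-simp] Complex.real_smul

lemma small_r (A v : ℂ) : Tendsto (fun ε : ℝ => A + ε • v) (𝓝[>] 0) (𝓝 A) := by
  have : Continuous (fun ε : ℝ => A + ε • v) := by fun_prop
  have := (this.tendsto 0).mono_left (nhdsWithin_le_nhds (s := Ioi 0))
  simpa using this

lemma ultra_lim {ι X : Type*} [TopologicalSpace X] (U : Ultrafilter ι) {s : Set X} (hs : IsCompact s)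
    {f : ι → X} (hf : ∀ᶠ i in (U : Filter ι), f i ∈ s) : ∃ x ∈ s, Tendsto f U (𝓝 x) := by
  obtain ⟨x, hx, h⟩ := hs.ultrafilter_le_nhds' (U.map f) hf
  exact ⟨x, hx, h⟩

def qf (L O : ℂ) (K : ℝ) (W : ℂ) : ℝ := (dot L W) ^ 2 + dot O W + K

lemma quad_limit {ι : Type*} (U : Ultrafilter ι) (l o : ι → ℂ) (k : ι → ℝ)
    (h : ∀ᶠ i in (U : Filter ι), k i ≠ 0) :
    ∃ (L O : ℂ) (K : ℝ), ¬ (L = 0 ∧ O = 0 ∧ K = 0) ∧ ∀ (W : ℂ) (Wi : ι → ℂ), Tendsto Wi U (𝓝 W) →
      ((∀ᶠ i in (U : Filter ι), qf (l i) (o i) (k i) (Wi i) ≤ 0) → qf L O K W ≤ 0) ∧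
      ((∀ᶠ i in (U : Filter ι), 0 ≤ qf (l i) (o i) (k i) (Wi i)) → 0 ≤ qf L O K W) := by
  set n : ι → ℝ := fun i => ‖l i‖ ^ 2 + ‖o i‖ + |k i| with hn
  have hpos : ∀ᶠ i in (U : Filter ι), 0 < n i := by
    filter_upwards [h] with i hi
    have := abs_pos.2 hi
    simp only [hn]; positivity
  set f : ι → ℂ × ℂ × ℝ := fun i => ((√(n i))⁻¹ • l i, (n i)⁻¹ • o i, (n i)⁻¹ * k i) with hf
  set s : Set (ℂ × ℂ × ℝ) := {p | ‖p.1‖ ^ 2 + ‖p.2.1‖ + |p.2.2| = 1} with hs
  have hsc : IsCompact s := by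
    apply Metric.isCompact_of_isClosed_isBounded
    · exact isClosed_eq (by fun_prop) continuous_const
    · rw [Metric.isBounded_iff_subset_closedBall 0]
      refine ⟨1, fun p hp => ?_⟩
      have hp' : ‖p.1‖ ^ 2 + ‖p.2.1‖ + |p.2.2| = 1 := hp
      rw [mem_closedBall_zero_iff, Prod.norm_def, Prod.norm_def, max_le_iff, max_le_iff,
        Real.norm_eq_abs]
      refine ⟨?_, ?_, ?_⟩
      · nlinarith [norm_nonneg p.1, norm_nonneg p.2.1, abs_nonneg p.2.2]
      · nlinarith [norm_nonneg p.1, norm_nonneg p.2.1, abs_nonneg p.2.2]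
      · nlinarith [norm_nonneg p.1, norm_nonneg p.2.1, abs_nonneg p.2.2]
  have hmem : ∀ᶠ i in (U : Filter ι), f i ∈ s := by
    filter_upwards [hpos] with i hi
    show ‖(√(n i))⁻¹ • l i‖ ^ 2 + ‖(n i)⁻¹ • o i‖ + |(n i)⁻¹ * k i| = 1
    rw [norm_smul, norm_smul, abs_mul, mul_pow, Real.norm_eq_abs, Real.norm_eq_abs, sq_abs, inv_pow,
      Real.sq_sqrt hi.le, abs_of_pos (inv_pos.2 hi), ← mul_add, ← mul_add]
    exact inv_mul_cancel₀ hi.ne'
  obtain ⟨⟨L, O, K⟩, hp, hT⟩ := ultra_lim U hsc hmem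
  refine ⟨L, O, K, ?_, fun W Wi hW => ?_⟩
  · rintro ⟨rfl, rfl, rfl⟩
    have : ‖(0 : ℂ)‖ ^ 2 + ‖(0 : ℂ)‖ + |(0 : ℝ)| = 1 := hp
    simp at this
  have T1 : Tendsto (fun i => (f i).1) U (𝓝 L) := (continuous_fst.tendsto _).comp hT
  have T2 : Tendsto (fun i => (f i).2.1) U (𝓝 O) := (continuous_snd.fst.tendsto _).comp hT
  have T3 : Tendsto (fun i => (f i).2.2) U (𝓝 K) := (continuous_snd.snd.tendsto _).comp hT
  have T : Tendsto (fun i => qf (f i).1 (f i).2.1 (f i).2.2 (Wi i)) U (𝓝 (qf L O K W)) :=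
    (((tendsto_dot T1 hW).pow 2).add (tendsto_dot T2 hW)).add T3
  have E : ∀ᶠ i in (U : Filter ι), qf (f i).1 (f i).2.1 (f i).2.2 (Wi i) =
      (n i)⁻¹ * qf (l i) (o i) (k i) (Wi i) := by
    filter_upwards [hpos] with i hi
    simp only [hf, qf, dot_smul_l, mul_pow, inv_pow, Real.sq_sqrt hi.le]; ring
  constructor
  · intro h1
    apply le_of_tendsto T
    filter_upwards [E, h1, hpos] with i e1 e2 e3
    rw [e1]; exact mul_nonpos_of_nonneg_of_nonpos (inv_pos.2 e3).le e2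
  · intro h1
    apply ge_of_tendsto T
    filter_upwards [E, h1, hpos] with i e1 e2 e3
    rw [e1]; exact mul_nonneg (inv_pos.2 e3).le e2

lemma par_limit {ι : Type*} (U : Ultrafilter ι) (P : ι → Par) (F : ℂ) (ρ : ι → ℝ)
    (h : ∀ᶠ i in (U : Filter ι), (P i).q F ≠ 0) :
    ∃ (L O : ℂ) (K : ℝ), ¬ (L = 0 ∧ O = 0 ∧ K = 0) ∧ ∀ (W : ℂ) (Wi : ι → ℂ), Tendsto Wi U (𝓝 W) →
      ((∀ᶠ i in (U : Filter ι), (P i).q (F + ρ i • Wi i) ≤ 0) → qf L O K W ≤ 0) ∧
      ((∀ᶠ i in (U : Filter ι), 0 ≤ (P i).q (F + ρ i • Wi i)) → 0 ≤ qf L O K W) := by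
  obtain ⟨L, O, K, h0, h1⟩ := quad_limit U (fun i => ρ i • (P i).l) (fun i => ρ i • (P i).grad F)
    (fun i => (P i).q F) h
  refine ⟨L, O, K, h0, fun W Wi hW => ?_⟩
  have e : ∀ i, (P i).q (F + ρ i • Wi i) =
      qf (ρ i • (P i).l) (ρ i • (P i).grad F) ((P i).q F) (Wi i) := by
    intro i; rw [Par.q_ray]; simp [qf]; ring
  simp only [e]
  exact h1 W Wi hW

def Foot (M : Set ℂ) (d : ℂ → ℂ → ℝ) (X Y w : ℂ) : Prop :=
  ∀ s : ℝ, Y + s • w ∈ M → d X Y ≤ d X (Y + s • w)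

def Perp (M : Set ℂ) (d : ℂ → ℂ → ℝ) (Y w u : ℂ) : Prop :=
  ∀ t : ℝ, 0 ≤ t → Y + t • u ∈ M → Foot M d (Y + t • u) Y w

instance : Nonempty Par := ⟨⟨1, Complex.I, 0, 0, by simp [cr]⟩⟩

namespace PM0
variable {M : Set ℂ} {d : ℂ → ℂ → ℝ} (H : PM0 M d)
include H

lemma foot_limit {ι : Type*} {l : Filter ι} [l.NeBot] {X Y w : ℂ} {Xi Yi Zi wi : ι → ℂ}
    (hX : X ∈ M) (hY : Y ∈ M) (TX : Tendsto Xi l (𝓝 X)) (TY : Tendsto Yi l (𝓝 Y))
    (TZ : Tendsto Zi l (𝓝 Y)) (Tw : Tendsto wi l (𝓝 w))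
    (h : ∀ᶠ i in l, ∀ s : ℝ, Zi i + s • wi i ∈ M → d (Xi i) (Yi i) ≤ d (Xi i) (Zi i + s • wi i)) :
    Foot M d X Y w := by
  intro s hs
  have T : Tendsto (fun i => Zi i + s • wi i) l (𝓝 (Y + s • w)) := TZ.add (Tw.const_smul s)
  apply le_of_tendsto_of_tendsto (H.tendsto hX hY TX TY) (H.tendsto hX hs TX T)
  filter_upwards [h, H.eventually_mem hs T] with i h1 h2
  exact h1 s h2

lemma perp_limit {ι : Type*} {l : Filter ι} [l.NeBot] {Y w u : ℂ} {Yi wi ui : ι → ℂ}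
    (hY : Y ∈ M) (TY : Tendsto Yi l (𝓝 Y)) (Tw : Tendsto wi l (𝓝 w)) (Tu : Tendsto ui l (𝓝 u))
    (h : ∀ᶠ i in l, Perp M d (Yi i) (wi i) (ui i)) : Perp M d Y w u := by
  intro t ht hX
  have T : Tendsto (fun i => Yi i + t • ui i) l (𝓝 (Y + t • u)) := TY.add (Tu.const_smul t)
  apply H.foot_limit hX hY T TY TY Tw
  filter_upwards [h, H.eventually_mem hX T] with i h1 h2
  exact h1 t ht h2

lemma perp_cr_ne {Y w u : ℂ} (hY : Y ∈ M) (hw : w ≠ 0) (hu : u ≠ 0) (h : Perp M d Y w u) :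
    cr w u ≠ 0 := by
  intro e
  obtain ⟨s, hs⟩ := exists_smul_of_cr hw e
  obtain ⟨t, ht1, ht2⟩ := ((H.eventually_mem hY (small_r Y u)).and self_mem_nhdsWithin).exists
  have ht : 0 < t := ht2
  have e2 : Y + t • u = Y + (t * s) • w := by rw [hs, smul_smul]
  have := h t ht.le ht1 (t * s) (e2 ▸ ht1)
  rw [← e2, H.refl _ ht1] at this
  have hne : Y + t • u ≠ Y := by
    intro e3
    have : t • u = 0 := by simpa using e3
    rcases smul_eq_zero.1 this with h | h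
    · linarith
    · exact hu h
  linarith [H.pos _ ht1 _ hY hne]

lemma foot_dl {X Y w : ℂ} (hX : X ∈ M) (hY : Y ∈ M) (h : Foot M d X Y w) :
    dl M d Y w X = d X Y := by
  apply le_antisymm
  · have := H.dl_le (Y := Y) (w := w) hX (s := 0) (by simpa using hY)
    simpa using this
  · exact le_dl hY h

end PM0

namespace PM
variable {M : Set ℂ} {d : ℂ → ℂ → ℝ} (H : PM M d)
include H

lemma foot_strict {Y w u : ℂ} (hY : Y ∈ M) (hc : cr w u ≠ 0) (h : Perp M d Y w u) {t s : ℝ}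
    (ht : 0 ≤ t) (hX : Y + t • u ∈ M) (hs : s ≠ 0) (hs' : Y + s • w ∈ M) :
    d (Y + t • u) Y < d (Y + t • u) (Y + s • w) := by
  obtain ⟨η, h1, h2⟩ := ((H.eventually_mem hX (small_r _ u)).and self_mem_nhdsWithin).exists
  have hη : 0 < η := h2
  have e : Y + t • u + η • u = Y + (t + η) • u := by module
  rw [e] at h1
  have a1 := h (t + η) (by linarith) h1 s hs'
  have a2 := H.ray_add hY h1 ht (by linarith : t ≤ t + η)
  have a3 := H.strict _ h1 _ hX _ hs' (by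
    have e1 : Y + t • u - (Y + (t + η) • u) = (-η) • u := by module
    have e2 : Y + s • w - (Y + (t + η) • u) = s • w - (t + η) • u := by module
    rw [e1, e2]; simp [hη.ne', hs]
    rw [cr_comm]; simpa using hc)
  rw [H.symm _ h1 _ hY] at a1
  rw [H.symm _ h1 _ hX] at a3
  rw [H.symm _ hX _ hY]
  linarith

lemma choose_par (Y w u : ℂ) (hY : Y ∈ M) (hu : cr w u ≠ 0) : ∃ P : ℝ → Par,
    ∀ᶠ ε in 𝓝[>] (0 : ℝ), Y + (-ε) • u ∈ M ∧ cr w (Y - (Y + (-ε) • u)) ≠ 0 ∧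
      Cut M d (Y + (-ε) • u) w Y (P ε) ∧ (P ε).q Y < 0 := by
  have : ∀ ε : ℝ, ∃ P : Par, Y + (-ε) • u ∈ M → cr w (Y - (Y + (-ε) • u)) ≠ 0 →
      Cut M d (Y + (-ε) • u) w Y P := by
    intro ε
    by_cases h : Y + (-ε) • u ∈ M ∧ cr w (Y - (Y + (-ε) • u)) ≠ 0
    · obtain ⟨P, hP⟩ := H.par _ h.1 w Y hY h.2
      exact ⟨P, fun _ _ => hP⟩
    · exact ⟨Classical.arbitrary _, fun h1 h2 => absurd ⟨h1, h2⟩ h⟩
  choose P hP using this
  refine ⟨P, ?_⟩
  filter_upwards [H.inside_close hY hu] with ε ⟨h1, h2, h3⟩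
  exact ⟨h1, h2, hP ε h1 h2, h3 _ (hP ε h1 h2)⟩

lemma exists_perp {Y w : ℂ} (hY : Y ∈ M) (hw : w ≠ 0) :
    ∃ u : ℂ, ‖u‖ = 1 ∧ 0 < cr w u ∧ Perp M d Y w u := by
  set u0 := Complex.I * w with hu0
  have hc0 : 0 < cr w u0 := by
    have : cr w u0 = ‖w‖ ^ 2 := by rw [← dot_self]; simp [cr, dot, hu0]
    rw [this]; exact pow_pos (norm_pos_iff.2 hw) 2
  obtain ⟨P, hP⟩ := H.choose_par Y w u0 hY hc0.ne'
  set U := Ultrafilter.of (𝓝[>] (0 : ℝ)) with hU
  have hle : (U : Filter ℝ) ≤ 𝓝[>] 0 := Ultrafilter.of_le _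
  set ui : ℝ → ℂ := fun ε => ‖(P ε).axis‖⁻¹ • (P ε).axis with hui
  have hn : ∀ ε, ‖ui ε‖ = 1 := fun ε => by
    rw [hui]; simp only [norm_smul, norm_inv, norm_norm]
    exact inv_mul_cancel₀ (norm_ne_zero_iff.2 (P ε).axis_ne)
  obtain ⟨u, hu, T⟩ := ultra_lim U (isCompact_sphere (0 : ℂ) 1) (f := ui)
    (Eventually.of_forall fun ε => by simpa using hn ε)
  have hu1 : ‖u‖ = 1 := by simpa using hu
  have hu0' : u ≠ 0 := by rintro rfl; simp at hu1
  have key : ∀ t : ℝ, 0 ≤ t → Y + t • u ∈ M → ∀ᶠ ε in (U : Filter ℝ), Y + t • ui ε ∈ M ∧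
      ff M d (Y + (-ε) • u0) w Y (Y + t • ui ε) < 0 := by
    intro t ht hX
    have T' : Tendsto (fun ε => Y + t • ui ε) U (𝓝 (Y + t • u)) := (T.const_smul t).const_add Y
    filter_upwards [hle hP, H.eventually_mem hX T'] with ε ⟨h1, h2, h3, h4⟩ h5
    refine ⟨h5, (H.inside_lt h1 hY h2 h3 h4 h5).2 ?_⟩
    simp only [hui, smul_smul, Par.q_axis]
    have : 0 ≤ t * ‖(P ε).axis‖⁻¹ := by positivity
    linarith
  have TZ : Tendsto (fun ε : ℝ => Y + (-ε) • u0) U (𝓝 Y) := by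
    have := (small_r Y (-u0)).mono_left hle
    simpa using this
  have hperp : Perp M d Y w u := by
    intro t ht hX
    have T' : Tendsto (fun ε => Y + t • ui ε) U (𝓝 (Y + t • u)) := (T.const_smul t).const_add Y
    apply H.foot_limit hX hY T' tendsto_const_nhds TZ tendsto_const_nhds
    filter_upwards [key t ht hX] with ε ⟨h1, h2⟩ s hs
    have := H.dl_le (Y := Y + (-ε) • u0) (w := w) h1 hs
    simp only [ff] at h2; linarith
  refine ⟨u, hu1, ?_, hperp⟩
  by_contra hc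
  have hneg : cr w u < 0 := lt_of_le_of_ne (not_lt.1 hc) (H.perp_cr_ne hY hw hu0' hperp)
  obtain ⟨t, ht1, ht2⟩ := ((H.eventually_mem hY (small_r Y u)).and self_mem_nhdsWithin).exists
  have ht : 0 < t := ht2
  have T1 : Tendsto (fun ε => cr w (ui ε)) U (𝓝 (cr w u)) := tendsto_cr tendsto_const_nhds T
  have T2 : Tendsto (fun ε : ℝ => ε * cr w u0 + t * cr w (ui ε)) U (𝓝 (0 * cr w u0 + t * cr w u)) :=
    (((tendsto_id.mono_left (hle.trans nhdsWithin_le_nhds)).mul_const _)).add (T1.const_mul t)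
  obtain ⟨ε, ⟨h1, h2⟩, ⟨h3, h4, -, -⟩, h5, h6, h7⟩ := ((key t ht.le ht1).and ((hP.filter_mono hle).and
    ((T1.eventually (gt_mem_nhds hneg)).and ((T2.eventually (gt_mem_nhds
      (show 0 * cr w u0 + t * cr w u < 0 by nlinarith))).and
      ((eventually_mem_nhdsWithin (s := Ioi (0 : ℝ)) (a := 0)).filter_mono hle))))).exists
  have hε : 0 < ε := h7
  set τ := ε * cr w u0 / (-cr w (ui ε)) with hτ
  have hτ0 : 0 ≤ τ := div_nonneg (by positivity) (by linarith)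
  have hτt : τ ≤ t := by rw [hτ, div_le_iff₀ (by linarith)]; linarith
  obtain ⟨s, hs⟩ := exists_smul_of_cr (v := Y + τ • ui ε - (Y + (-ε) • u0)) hw (by
    have : Y + τ • ui ε - (Y + (-ε) • u0) = τ • ui ε + ε • u0 := by module
    rw [this, cr_add_r, cr_smul_r w (ui ε), cr_smul_r w u0, hτ]; field_simp [h5.ne]; ring)
  have e : Y + τ • ui ε = Y + (-ε) • u0 + s • w := by rw [← hs]; abel
  have a1 := H.ff_mono (w := w) h3 hY h1 hτ0 hτt
  have a2 := H.ff_line hY h4 (s := s) (e ▸ H.ray_mem hY h1 hτ0 hτt)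
  rw [← e] at a2
  linarith

lemma perp_unique {Y w u X : ℂ} (hY : Y ∈ M) (hu : 0 < cr w u) (hp : Perp M d Y w u)
    (hX : X ∈ M) (hc : 0 < cr w (X - Y)) (hf : Foot M d X Y w) : cr u (X - Y) = 0 := by
  have hw : w ≠ 0 := by rintro rfl; simp at hu
  obtain ⟨P, hP⟩ := H.choose_par Y w u hY hu.ne'
  set U := Ultrafilter.of (𝓝[>] (0 : ℝ)) with hU
  have hle : (U : Filter ℝ) ≤ 𝓝[>] 0 := Ultrafilter.of_le _
  have hP' := hP.filter_mono hle
  have hpos : ∀ᶠ ε in (U : Filter ℝ), 0 < ε :=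
    (eventually_mem_nhdsWithin (s := Ioi (0 : ℝ)) (a := 0)).filter_mono hle
  obtain ⟨L, O, K, h0, hQ⟩ := par_limit U P Y (fun _ => 1)
    (hP'.mono fun ε h => h.2.2.2.ne)
  simp only [one_smul] at hQ
  have TZ : Tendsto (fun ε : ℝ => Y + (-ε) • u) U (𝓝 Y) := by
    have := (small_r Y (-u)).mono_left hle
    simpa using this
  -- (a)
  have fa : ∀ W : ℂ, Y + W ∈ M → 0 ≤ cr w W → Foot M d (Y + W) Y w → qf L O K W ≤ 0 := by
    intro W hW hcW hfW
    apply (hQ W (fun _ => W) tendsto_const_nhds).1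
    filter_upwards [hP', hpos] with ε ⟨h1, h2, h3, h4⟩ hε
    rw [← H.inside_le h1 hY h2 h3 h4 hW, ff, sub_nonpos]
    apply PM0.le_dl h1
    intro s hs
    have hden : 0 < cr w W + ε * cr w u := by positivity
    set τ := cr w W / (cr w W + ε * cr w u) with hτ
    have hτ0 : 0 ≤ τ := div_nonneg hcW hden.le
    have hτ1 : τ ≤ 1 := (div_le_one hden).2 (by nlinarith)
    obtain ⟨r, hr⟩ := exists_smul_of_cr
      (v := Y + W + τ • (Y + (-ε) • u + s • w - (Y + W)) - Y) hw (by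
        have : Y + W + τ • (Y + (-ε) • u + s • w - (Y + W)) - Y =
          W + τ • ((-ε) • u + s • w - W) := by module
        rw [this]; simp only [cr_add_r, cr_smul_r, cr_sub_r, cr_self, hτ]
        field_simp; ring)
    have e : Y + W + τ • (Y + (-ε) • u + s • w - (Y + W)) = Y + r • w := by rw [← hr]; abel
    have hm := H.seg_mem hW hs hτ0 hτ1
    have a1 := H.add _ hW _ hs τ ⟨hτ0, hτ1⟩
    have a2 := H.nonneg hm hs
    rw [e] at hm a1 a2
    linarith [hfW r hm]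
  -- (b)
  have fb : ∀ s : ℝ, Y + s • w ∈ M → 0 ≤ qf L O K (s • w) := by
    intro s hs
    have T : Tendsto (fun ε : ℝ => (-ε) • u + s • w) U (𝓝 (s • w)) := by
      have := (TZ.add_const (s • w - Y))
      have e1 : Y + (s • w - Y) = s • w := by abel
      rw [e1] at this
      refine this.congr fun ε => by abel
    apply (hQ _ _ T).2
    filter_upwards [hP', H.eventually_mem hs (TZ.add_const (s • w))] with ε ⟨h1, h2, h3, h4⟩ h5
    rw [← add_assoc]
    exact ((H.inside_pos h1 hY h2 h3 h4 h5).1 (H.ff_line hY h2 h5)).le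
  have hK : K = 0 := by
    have a1 := fa 0 (by simpa using hY) (by simp) (by
      intro s hs; simp only [add_zero]; rw [H.refl Y hY]; exact H.nonneg hY hs)
    have a2 := fb 0 (by simpa using hY)
    simp [qf] at a1 a2; linarith
  subst hK
  have slope : ∀ v : ℂ, (∀ᶠ t in 𝓝[>] (0 : ℝ), 0 ≤ qf L O 0 (t • v)) → 0 ≤ dot O v := by
    intro v hv
    have T : Tendsto (fun t : ℝ => t * (dot L v) ^ 2 + dot O v) (𝓝[>] 0) (𝓝 (0 * (dot L v) ^ 2 + dot O v)) :=
      (((tendsto_id.mono_left nhdsWithin_le_nhds)).mul_const _).add_const _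
    rw [zero_mul, zero_add] at T
    apply ge_of_tendsto T
    filter_upwards [hv, self_mem_nhdsWithin] with t h1 h2
    have ht : 0 < t := h2
    simp only [qf, dot_smul_r, add_zero] at h1
    have : 0 ≤ t * (t * (dot L v) ^ 2 + dot O v) := by nlinarith
    exact nonneg_of_mul_nonneg_right this ht |> fun h => by
      by_contra hc; rw [not_le] at hc; nlinarith
  have hOw : dot O w = 0 := by
    have a1 := slope w ((H.eventually_mem hY (small_r Y w)).mono fun t ht => fb t ht)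
    have a2 := slope (-w) ((H.eventually_mem hY (small_r Y (-w))).mono fun t ht => by
      have := fb (-t) (by simpa using ht); simpa using this)
    simp at a2; linarith
  have hOu : dot O u ≤ 0 := by
    have := slope (-u) (by
      filter_upwards [H.eventually_mem hY (small_r Y (-u)), self_mem_nhdsWithin] with t h1 h2
      have ht : 0 < t := h2
      apply (hQ _ (fun _ => t • (-u)) tendsto_const_nhds).2
      filter_upwards [hP', hpos, hle (mem_nhdsWithin_of_mem_nhds (gt_mem_nhds ht))] with ε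
        ⟨a1, a2, a3, a4⟩ hε hεt
      have b1 := H.ff_mono (w := w) a1 hY h1 hε.le (le_of_lt hεt)
      have b2 := H.ff_line hY a2 (s := 0) (by simpa using a1)
      have e : Y + ε • (-u) = Y + (-ε) • u + (0 : ℝ) • w := by module
      rw [← e] at b2
      exact ((H.inside_pos a1 hY a2 a3 a4 h1).1 (by linarith)).le)
    simpa using this
  rcases eq_or_lt_of_le hOu with hOu | hOu
  · have hO : O = 0 := eq_zero_of_dot hu.ne' hOw hOu
    subst hO
    by_contra hne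
    apply h0
    refine ⟨eq_zero_of_dot hne ?_ ?_, rfl, rfl⟩
    · obtain ⟨t, ht1, ht2⟩ := ((H.eventually_mem hY (small_r Y u)).and self_mem_nhdsWithin).exists
      have ht : 0 < t := ht2
      have := fa (t • u) ht1 (by simp; positivity) (hp t ht.le ht1)
      simp only [qf, dot_smul_r, dot_zero_l, mul_zero, add_zero] at this
      have h2 : t * dot L u = 0 := pow_eq_zero_iff (two_ne_zero) |>.1 (le_antisymm this (sq_nonneg _))
      exact (mul_eq_zero.1 h2).resolve_left ht.ne'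
    · have := fa (X - Y) (by simpa using hX) hc.le (by simpa using hf)
      simp only [qf, dot_zero_l, add_zero] at this
      exact pow_eq_zero_iff (two_ne_zero) |>.1 (le_antisymm this (sq_nonneg _))
  · exfalso
    have fc : ∀ W : ℂ, Y + W ∈ M → qf L O 0 W < 0 → Foot M d (Y + W) Y w := by
      intro W hW hq
      have hev : ∀ᶠ ε in (U : Filter ℝ), (P ε).q (Y + W) < 0 := by
        rcases U.em (fun ε => (P ε).q (Y + W) < 0) with h | h
        · exact h
        · exact absurd ((hQ W (fun _ => W) tendsto_const_nhds).2 (h.mono fun ε h => not_lt.1 h))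
            (not_le.2 hq)
      apply H.foot_limit hW hY tendsto_const_nhds tendsto_const_nhds TZ tendsto_const_nhds
      filter_upwards [hP', hev] with ε ⟨h1, h2, h3, h4⟩ h5 s hs
      have b1 := (H.inside_lt h1 hY h2 h3 h4 hW).2 h5
      have b2 := H.dl_le (Y := Y + (-ε) • u) (w := w) hW hs
      simp only [ff] at b1; linarith
    have hex : ∀ σ : ℝ, ∃ v : ℂ, ‖v‖ = 1 ∧ (Y + σ • w ∈ M → 0 < cr w v ∧ Perp M d (Y + σ • w) w v) := by
      intro σ
      by_cases h : Y + σ • w ∈ M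
      · obtain ⟨v, h1, h2, h3⟩ := H.exists_perp h hw
        exact ⟨v, h1, fun _ => ⟨h2, h3⟩⟩
      · exact ⟨1, by simp, fun h' => absurd h' h⟩
    choose v hv1 hv2 using hex
    obtain ⟨z, hz, T⟩ := ultra_lim U (isCompact_sphere (0 : ℂ) 1) (f := v)
      (Eventually.of_forall fun ε => by simpa using hv1 ε)
    have hz1 : ‖z‖ = 1 := by simpa using hz
    have hz0 : z ≠ 0 := by rintro rfl; simp at hz1
    have TY : Tendsto (fun σ : ℝ => Y + σ • w) U (𝓝 Y) := (small_r Y w).mono_left hle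
    have hm := H.eventually_mem hY TY
    have hzp : Perp M d Y w z :=
      H.perp_limit hY TY tendsto_const_nhds T (hm.mono fun σ h => (hv2 σ h).2)
    have hzc : 0 < cr w z := by
      refine lt_of_le_of_ne ?_ (H.perp_cr_ne hY hw hz0 hzp).symm
      exact ge_of_tendsto (tendsto_cr tendsto_const_nhds T) (hm.mono fun σ h => (hv2 σ h).1.le)
    have hOz : dot O z < 0 := by
      rw [decomp hu.ne' z]; simp only [dot_add_r, dot_smul_r, hOw, mul_zero, zero_add]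
      exact mul_neg_of_pos_of_neg (div_pos hzc hu) hOu
    have T0 : Tendsto (fun t : ℝ => t * (dot L z) ^ 2 + dot O z) (𝓝[>] 0) (𝓝 (0 * (dot L z) ^ 2 + dot O z)) :=
      (((tendsto_id.mono_left nhdsWithin_le_nhds)).mul_const _).add_const _
    rw [zero_mul, zero_add] at T0
    obtain ⟨t, ht1, ht2, ht3⟩ := ((H.eventually_mem hY (small_r Y z)).and
      ((T0.eventually (gt_mem_nhds hOz)).and self_mem_nhdsWithin)).exists
    have ht : 0 < t := ht3
    have hq : qf L O 0 (t • z) < 0 := by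
      simp only [qf, dot_smul_r, add_zero]; nlinarith
    have TW : Tendsto (fun σ : ℝ => σ • w + t • v σ) U (𝓝 (t • z)) := by
      have := ((small_r 0 w).mono_left hle).add (T.const_smul t)
      simpa using this
    have Tq : Tendsto (fun σ : ℝ => qf L O 0 (σ • w + t • v σ)) U (𝓝 (qf L O 0 (t • z))) :=
      (((tendsto_dot tendsto_const_nhds TW).pow 2).add (tendsto_dot tendsto_const_nhds TW)).add_const _
    obtain ⟨σ, s1, s2, s3, s4⟩ := (hm.and ((H.eventually_mem ht1 (TW.const_add Y)).and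
      ((Tq.eventually (gt_mem_nhds hq)).and hpos))).exists
    have b1 := fc _ s2 s3 σ s1
    rw [← add_assoc] at s2 b1
    have b2 := H.foot_strict s1 (hv2 σ s1).1.ne' (hv2 σ s1).2 ht.le s2 (s := -σ) (by linarith)
      (by simpa using hY)
    have e : Y + σ • w + (-σ) • w = Y := by module
    rw [e] at b2
    linarith

end PM

open Classical in
/-- the unit perpendicular to the left of `w` at `Y` -/
noncomputable def nu (M : Set ℂ) (d : ℂ → ℂ → ℝ) (Y w : ℂ) : ℂ :=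
  if h : ∃ u : ℂ, ‖u‖ = 1 ∧ 0 < cr w u ∧ Perp M d Y w u then h.choose else 1

lemma nu_norm (M : Set ℂ) (d : ℂ → ℂ → ℝ) (Y w : ℂ) : ‖nu M d Y w‖ = 1 := by
  unfold nu; split_ifs with h
  · exact h.choose_spec.1
  · simp

lemma Perp.smul_u {M : Set ℂ} {d : ℂ → ℂ → ℝ} {Y w u : ℂ} (h : Perp M d Y w u) {c : ℝ} (hc : 0 ≤ c) :
    Perp M d Y w (c • u) := by
  intro t ht hX
  rw [smul_smul] at hX ⊢
  exact h _ (mul_nonneg ht hc) hX

lemma Perp.smul_w {M : Set ℂ} {d : ℂ → ℂ → ℝ} {Y w u : ℂ} (h : Perp M d Y w u) (c : ℝ) :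
    Perp M d Y (c • w) u := by
  intro t ht hX s hs
  rw [smul_smul] at hs ⊢
  exact h t ht hX _ hs

namespace PM
variable {M : Set ℂ} {d : ℂ → ℂ → ℝ} (H : PM M d)
include H

lemma nu_cr {Y w : ℂ} (hY : Y ∈ M) (hw : w ≠ 0) : 0 < cr w (nu M d Y w) := by
  have h := H.exists_perp hY hw
  unfold nu; rw [dif_pos h]; exact h.choose_spec.2.1

lemma nu_perp {Y w : ℂ} (hY : Y ∈ M) (hw : w ≠ 0) : Perp M d Y w (nu M d Y w) := by
  have h := H.exists_perp hY hw
  unfold nu; rw [dif_pos h]; exact h.choose_spec.2.2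

/-- a point with foot `Y` lies on the perpendicular ray -/
lemma foot_eq {Y w X : ℂ} (hY : Y ∈ M) (hX : X ∈ M) (hc : 0 < cr w (X - Y)) (hf : Foot M d X Y w) :
    X = Y + ‖X - Y‖ • nu M d Y w := by
  have hw : w ≠ 0 := by rintro rfl; simp at hc
  have h1 := H.perp_unique hY (H.nu_cr hY hw) (H.nu_perp hY hw) hX hc hf
  have hn := nu_norm M d Y w
  obtain ⟨s, hs⟩ := exists_smul_of_cr (by rintro h; rw [h] at hn; simp at hn) h1
  have hs0 : 0 < s := by
    rw [hs, cr_smul_r] at hc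
    exact (mul_pos_iff_of_pos_right (H.nu_cr hY hw)).1 hc
  rw [hs, norm_smul, hn, mul_one, Real.norm_eq_abs, abs_of_pos hs0, ← hs]; abel

lemma nu_unique {Y w u : ℂ} (hY : Y ∈ M) (h1 : ‖u‖ = 1) (hc : 0 < cr w u) (hp : Perp M d Y w u) :
    u = nu M d Y w := by
  obtain ⟨t, ht1, ht2⟩ := ((H.eventually_mem hY (small_r Y u)).and self_mem_nhdsWithin).exists
  have ht : 0 < t := ht2
  have := H.foot_eq hY ht1 (by simp; positivity) (hp t ht.le ht1)
  rw [add_sub_cancel_left, norm_smul, h1, mul_one, Real.norm_eq_abs, abs_of_pos ht] at this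
  exact smul_right_injective ℂ ht.ne' (add_left_cancel this)

lemma tendsto_nu {ι : Type*} {l : Filter ι} {Y w : ℂ} {Yi wi : ι → ℂ} (hY : Y ∈ M) (hw : w ≠ 0)
    (TY : Tendsto Yi l (𝓝 Y)) (Tw : Tendsto wi l (𝓝 w)) :
    Tendsto (fun i => nu M d (Yi i) (wi i)) l (𝓝 (nu M d Y w)) := by
  rw [tendsto_iff_ultrafilter]
  intro U hU
  obtain ⟨z, hz, T⟩ := ultra_lim U (isCompact_sphere (0 : ℂ) 1) (f := fun i => nu M d (Yi i) (wi i))
    (Eventually.of_forall fun i => by simpa using nu_norm M d _ _)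
  have hz1 : ‖z‖ = 1 := by simpa using hz
  have hz0 : z ≠ 0 := by rintro rfl; simp at hz1
  have hm := (H.eventually_mem hY TY).filter_mono hU
  have hw' := (Tw.eventually_ne hw).filter_mono hU
  have hzp : Perp M d Y w z := H.perp_limit hY (TY.mono_left hU) (Tw.mono_left hU) T
    ((hm.and hw').mono fun i h => H.nu_perp h.1 h.2)
  have hzc : 0 < cr w z := by
    refine lt_of_le_of_ne ?_ (H.perp_cr_ne hY hw hz0 hzp).symm
    exact ge_of_tendsto (tendsto_cr (Tw.mono_left hU) T) ((hm.and hw').mono fun i h => (H.nu_cr h.1 h.2).le)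
  rwa [← H.nu_unique hY hz1 hzc hzp]

lemma nu_smul {Y w : ℂ} (hY : Y ∈ M) (hw : w ≠ 0) {c : ℝ} (hc : 0 < c) :
    nu M d Y (c • w) = nu M d Y w := by
  symm
  apply H.nu_unique hY (nu_norm _ _ _ _)
  · rw [cr_smul_l]; exact mul_pos hc (H.nu_cr hY hw)
  · exact (H.nu_perp hY hw).smul_w c

lemma nu_transversal {S : Set ℂ} (hS : IsCompact S) (hSM : S ⊆ M) :
    ∃ α : ℝ, 0 < α ∧ α ≤ 1 ∧ ∀ Y ∈ S, ∀ w : ℂ, w ≠ 0 → α * ‖w‖ ≤ cr w (nu M d Y w) := by
  rcases S.eq_empty_or_nonempty with rfl | hne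
  · exact ⟨1, one_pos, le_rfl, fun Y hY => absurd hY (notMem_empty Y)⟩
  have hc : ContinuousOn (fun p : ℂ × ℂ => cr p.2 (nu M d p.1 p.2)) (S ×ˢ Metric.sphere (0 : ℂ) 1) := by
    intro p hp
    have hw : p.2 ≠ 0 := by
      intro h; have := hp.2; rw [h] at this; simp at this
    have T2 : Tendsto (fun x : ℂ × ℂ => x.2) (𝓝 p) (𝓝 p.2) := continuous_snd.tendsto p
    exact (tendsto_cr T2 (H.tendsto_nu (hSM hp.1) hw (continuous_fst.tendsto p) T2)).mono_left
      nhdsWithin_le_nhds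
  obtain ⟨p, hp, hmin⟩ := (hS.prod (isCompact_sphere (0 : ℂ) 1)).exists_isMinOn
    (hne.prod (NormedSpace.sphere_nonempty.2 zero_le_one)) hc
  have hw : p.2 ≠ 0 := by
    intro h; have := hp.2; rw [h] at this; simp at this
  have hpos := H.nu_cr (hSM hp.1) hw
  refine ⟨min (cr p.2 (nu M d p.1 p.2)) 1, lt_min hpos one_pos, min_le_right _ _, fun Y hY w hw0 => ?_⟩
  have hn : 0 < ‖w‖ := norm_pos_iff.2 hw0
  have h1 : cr p.2 (nu M d p.1 p.2) ≤ cr (‖w‖⁻¹ • w) (nu M d Y (‖w‖⁻¹ • w)) :=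
    hmin (a := (Y, ‖w‖⁻¹ • w)) ⟨hY, by simp [norm_smul, hn.ne']⟩
  rw [H.nu_smul (hSM hY) hw0 (inv_pos.2 hn), cr_smul_l, ← div_eq_inv_mul, le_div_iff₀ hn] at h1
  exact (mul_le_mul_of_nonneg_right (min_le_left _ _) hn.le).trans h1

lemma nu_surj {Y e : ℂ} (hY : Y ∈ M) (he : ‖e‖ = 1) : ∃ w : ℂ, w ≠ 0 ∧ nu M d Y w = e := by
  obtain ⟨α, hα, -, hb⟩ := H.nu_transversal (isCompact_singleton (x := Y)) (by simpa using hY)
  set w : ℝ → ℂ := fun s => -(Complex.I * e) + s • e with hw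
  have hee : dot e e = 1 := by rw [dot_self, he]; norm_num
  have hcr : ∀ s, cr (w s) e = 1 := fun s => by
    have : cr (Complex.I * e) e = -dot e e := by simp [cr, dot]; ring
    simp [hw, this, hee]
  have hw0 : ∀ s, w s ≠ 0 := fun s h => by have := hcr s; rw [h] at this; simp at this
  have hdot : ∀ s, dot e (w s) = s := fun s => by
    have : dot e (Complex.I * e) = 0 := by simp [dot]; ring
    simp [hw, this, hee]
  have hbig : ∀ s, α * |s| ≤ 1 + s * cr e (nu M d Y (w s)) := fun s => by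
    have a1 := hb Y rfl (w s) (hw0 s)
    have a2 := abs_dot_le e (w s)
    rw [hdot, he, one_mul] at a2
    have a3 := abs_cr_le (Complex.I * e) (nu M d Y (w s))
    rw [norm_mul, he, nu_norm, Complex.norm_I] at a3
    have a4 : cr (w s) (nu M d Y (w s)) =
        -cr (Complex.I * e) (nu M d Y (w s)) + s * cr e (nu M d Y (w s)) := by
      conv_lhs => arg 1; rw [hw]
      simp
    have a5 := (abs_le.1 a3).1
    nlinarith
  have hcont : Continuous fun s => cr e (nu M d Y (w s)) := by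
    rw [continuous_iff_continuousAt]; intro s
    have : Continuous w := by rw [hw]; fun_prop
    exact tendsto_cr tendsto_const_nhds (H.tendsto_nu hY (hw0 s) tendsto_const_nhds (this.tendsto s))
  have hα2 : 0 < 2 / α := by positivity
  have b1 := hbig (2 / α)
  have b2 := hbig (-(2 / α))
  rw [abs_neg] at b2
  rw [abs_of_pos hα2, mul_div_cancel₀ _ hα.ne'] at b1 b2
  obtain ⟨s, -, hs⟩ := intermediate_value_Icc (show -(2 / α) ≤ 2 / α by linarith) hcont.continuousOn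
    (show (0 : ℝ) ∈ Icc _ _ from ⟨by nlinarith, by nlinarith⟩)
  refine ⟨w s, hw0 s, ?_⟩
  obtain ⟨c, hc⟩ := exists_smul_of_cr (by rintro h; rw [h] at he; simp at he) hs
  have c1 := H.nu_cr hY (hw0 s)
  have c2 := nu_norm M d Y (w s)
  rw [hc, cr_smul_r, hcr, mul_one] at c1
  rw [hc, norm_smul, he, mul_one, Real.norm_eq_abs, abs_of_pos c1] at c2
  rw [hc, c2, one_smul]

end PM

end Pool.Agent.P.MP_ec5bc9_gt.H13
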