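import Pool.Agent.P.MP_ec5bc9_gt.A2

/-! If supporting directions of balls depend only on the radial direction, the metric is a norm. -/

set_option autoImplicit false

namespace Pool.Agent.P.MP_ec5bc9_gt.H13

open Set Filter Topology

attribute [-simp] Complex.real_smul

lemma foot_step {M : Set ℂ} {d : ℂ → ℂ → ℝ} {Z x y w : ℂ} (hf : Foot M d Z (Z + x) w) (hw : w ≠ 0)
    (h : cr w y = cr w x) (hm : Z + y ∈ M) : d Z (Z + x) ≤ d Z (Z + y) := by
  obtain ⟨s, hs⟩ := exists_smul_of_cr (v := y - x) hw (by simp [h])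
  have e : Z + y = Z + x + s • w := by rw [← hs]; abel
  rw [e] at hm ⊢
  exact hf s hm

lemma chord_lower {p p' : ℂ} (hp : ‖p‖ = 1) (hp' : ‖p'‖ = 1) (hd : 0 ≤ dot p p') {t : ℝ}
    (h0 : 0 ≤ t) (h1 : t ≤ 1) : 1 / 2 ≤ ‖p + t • (p' - p)‖ := by
  have e : ‖p + t • (p' - p)‖ ^ 2 = (1 - t) ^ 2 + t ^ 2 + 2 * t * (1 - t) * dot p p' := by
    have a1 : dot p p = 1 := by rw [dot_self, hp]; norm_num
    have a2 : dot p' p' = 1 := by rw [dot_self, hp']; norm_num
    rw [← dot_self]; simp [a1, a2, dot_comm p' p]; ring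
  have : 0 ≤ 2 * t * (1 - t) * dot p p' := by
    apply mul_nonneg (mul_nonneg (by linarith) (by linarith)) hd
  by_contra hc
  rw [not_le] at hc
  nlinarith [norm_nonneg (p + t • (p' - p)), sq_nonneg (2 * t - 1)]

lemma chord_upper {p p' : ℂ} (hp : ‖p‖ = 1) (hp' : ‖p'‖ = 1) {t : ℝ}
    (h0 : 0 ≤ t) (h1 : t ≤ 1) : ‖p + t • (p' - p)‖ ≤ 1 := by
  have e : p + t • (p' - p) = (1 - t) • p + t • p' := by module
  rw [e]
  refine (norm_add_le _ _).trans ?_
  rw [norm_smul, norm_smul, hp, hp', Real.norm_eq_abs, Real.norm_eq_abs, abs_of_nonneg h0,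
    abs_of_nonneg (by linarith)]
  linarith

lemma chord_k {p p' w : ℂ} {α t : ℝ} (hα : 0 < α) (hp : ‖p‖ = 1) (hp' : ‖p'‖ = 1) (hd : 0 ≤ dot p p')
    (h0 : 0 ≤ t) (h1 : t ≤ 1) (hw : w ≠ 0)
    (h : α * ‖w‖ * ‖p + t • (p' - p)‖ ≤ |cr w (p + t • (p' - p))|) :
    cr w (p + t • (p' - p)) ≠ 0 ∧ |cr w (p' - p) / cr w (p + t • (p' - p))| ≤ 4 / α := by
  have a1 := chord_lower hp hp' hd h0 h1
  have hwn : 0 < ‖w‖ := norm_pos_iff.2 hw
  have a2 : α * ‖w‖ * (1 / 2) ≤ |cr w (p + t • (p' - p))| :=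
    (mul_le_mul_of_nonneg_left a1 (by positivity)).trans h
  have a3 : 0 < |cr w (p + t • (p' - p))| := lt_of_lt_of_le (by positivity) a2
  refine ⟨abs_pos.1 a3, ?_⟩
  have a4 := abs_cr_le w (p' - p)
  have a5 : ‖p' - p‖ ≤ 2 := (norm_sub_le _ _).trans (by rw [hp, hp']; norm_num)
  rw [abs_div, div_le_div_iff₀ a3 hα]
  have a6 : |cr w (p' - p)| ≤ ‖w‖ * 2 := a4.trans (mul_le_mul_of_nonneg_left a5 hwn.le)
  nlinarith [mul_le_mul_of_nonneg_right a6 hα.le]

lemma exists_mid {p p' : ℂ} (hp : ‖p‖ = 1) : ∃ m : ℂ, ‖m‖ = 1 ∧ 0 ≤ dot p m ∧ 0 ≤ dot m p' := by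
  have h0 : dot p (Complex.I * p) = 0 := by simp [dot]; ring
  rcases le_total 0 (dot (Complex.I * p) p') with h | h
  · exact ⟨Complex.I * p, by simp [hp], h0.ge, h⟩
  · exact ⟨-(Complex.I * p), by simp [hp], by simp [h0], by simpa using h⟩

lemma inv_one_add_le {x : ℝ} (h : |x| ≤ 1 / 2) : (1 + x)⁻¹ ≤ Real.exp (-x + 2 * x ^ 2) := by
  obtain ⟨h1, h2⟩ := abs_le.1 h
  have a := Real.add_one_le_exp (-x + 2 * x ^ 2)
  refine le_trans ?_ a
  rw [inv_le_iff_one_le_mul₀ (by linarith)]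
  nlinarith [sq_nonneg x]

lemma exp_le_inv_one_add {x : ℝ} (h : |x| ≤ 1 / 2) : Real.exp (-x) ≤ (1 + x)⁻¹ := by
  obtain ⟨h1, h2⟩ := abs_le.1 h
  rw [Real.exp_neg]
  apply inv_anti₀ (by linarith)
  linarith [Real.add_one_le_exp x]

def Rat' (M : Set ℂ) (d : ℂ → ℂ → ℝ) (v v' : ℂ) (lam R : ℝ) : Prop :=
  ∀ (Z : ℂ) (c : ℝ), 0 < c → Metric.ball Z (c * R) ⊆ M → d Z (Z + c • v) = d Z (Z + (c * lam) • v')

structure Dir (M : Set ℂ) (d : ℂ → ℂ → ℝ) (α : ℝ) (W : ℂ → ℂ) : Prop where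
  pos : 0 < α
  ne : ∀ v, v ≠ 0 → W v ≠ 0
  tr : ∀ v, v ≠ 0 → α * ‖W v‖ * ‖v‖ ≤ |cr (W v) v|
  foot : ∀ Z ∈ M, ∀ v, v ≠ 0 → ∀ c : ℝ, 0 < c → Z + c • v ∈ M → Foot M d Z (Z + c • v) (W v)

noncomputable def kk (W : ℂ → ℂ) (p p' : ℂ) (t : ℝ) : ℝ :=
  cr (W (p + t • (p' - p))) (p' - p) / cr (W (p + t • (p' - p))) (p + t • (p' - p))

noncomputable def AA (W : ℂ → ℂ) (p p' : ℂ) (n i : ℕ) : ℝ :=
  ∏ j ∈ Finset.range i, (1 + kk W p p' (j / n) / n)⁻¹

lemma kk_rev (W : ℂ → ℂ) (p p' : ℂ) (t : ℝ) : kk W p' p t = -kk W p p' (1 - t) := by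
  have e : p' + t • (p - p') = p + (1 - t) • (p' - p) := by module
  have e2 : p - p' = -(p' - p) := by abel
  unfold kk; rw [e, e2, cr_neg_r, neg_div]

namespace Dir
variable {M : Set ℂ} {d : ℂ → ℂ → ℝ} {α : ℝ} {W : ℂ → ℂ} (D : Dir M d α W)
  {p p' : ℂ} (hp : ‖p‖ = 1) (hp' : ‖p'‖ = 1) (hd : 0 ≤ dot p p')
include D hp hp' hd

lemma kk_spec {t : ℝ} (h0 : 0 ≤ t) (h1 : t ≤ 1) : p + t • (p' - p) ≠ 0 ∧
    cr (W (p + t • (p' - p))) (p + t • (p' - p)) ≠ 0 ∧ |kk W p p' t| ≤ 4 / α := by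
  have hne : p + t • (p' - p) ≠ 0 := by
    intro h; have := chord_lower hp hp' hd h0 h1; rw [h] at this; simp at this; linarith
  exact ⟨hne, chord_k D.pos hp hp' hd h0 h1 (D.ne _ hne) (D.tr _ hne)⟩

lemma kk_small {n j : ℕ} (hn : 8 / α ≤ n) (hj : j ≤ n) :
    |kk W p p' (j / n) / n| ≤ 4 / α / n ∧ 4 / α / n ≤ 1 / 2 := by
  have hα := D.pos
  have hn0 : (0 : ℝ) < n := lt_of_lt_of_le (by positivity) hn
  have := (D.kk_spec hp hp' hd (t := j / n) (by positivity)
    ((div_le_one hn0).2 (by exact_mod_cast hj))).2.2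
  constructor
  · rw [abs_div, abs_of_pos hn0]; exact div_le_div_of_nonneg_right this hn0.le
  · rw [div_le_iff₀ hn0]
    have : 8 / α = 2 * (4 / α) := by ring
    linarith

lemma AA_bounds {n i : ℕ} (hn : 8 / α ≤ n) (hi : i ≤ n) :
    Real.exp (-(4 / α)) ≤ AA W p p' n i ∧ AA W p p' n i ≤ Real.exp (8 / α) := by
  have hα := D.pos
  have hn0 : (0 : ℝ) < n := lt_of_lt_of_le (by positivity) hn
  have hin : (i : ℝ) ≤ n := by exact_mod_cast hi
  have hK : 0 ≤ 4 / α / n := by positivity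
  constructor
  · calc Real.exp (-(4 / α)) ≤ Real.exp (∑ _j ∈ Finset.range i, -(4 / α / n)) := by
          apply Real.exp_le_exp.2
          rw [Finset.sum_const, Finset.card_range, nsmul_eq_mul]
          have : (i : ℝ) * (4 / α / n) ≤ n * (4 / α / n) := mul_le_mul_of_nonneg_right hin hK
          rw [mul_div_cancel₀ _ hn0.ne'] at this
          linarith
      _ ≤ AA W p p' n i := by
          rw [Real.exp_sum]
          apply Finset.prod_le_prod (fun _ _ => (Real.exp_pos _).le)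
          intro j hj
          obtain ⟨a1, a2⟩ := D.kk_small hp hp' hd hn ((Finset.mem_range.1 hj).le.trans hi)
          refine le_trans (Real.exp_le_exp.2 ?_) (exp_le_inv_one_add (a1.trans a2))
          linarith [(abs_le.1 a1).2]
  · calc AA W p p' n i ≤ Real.exp (∑ _j ∈ Finset.range i, 2 * (4 / α / n)) := by
          rw [Real.exp_sum]
          apply Finset.prod_le_prod
          · intro j hj
            obtain ⟨a1, a2⟩ := D.kk_small hp hp' hd hn ((Finset.mem_range.1 hj).le.trans hi)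
            exact (inv_pos.2 (by linarith [(abs_le.1 (a1.trans a2)).1])).le
          intro j hj
          obtain ⟨a1, a2⟩ := D.kk_small hp hp' hd hn ((Finset.mem_range.1 hj).le.trans hi)
          refine le_trans (inv_one_add_le (a1.trans a2)) (Real.exp_le_exp.2 ?_)
          set x := kk W p p' (j / n) / n
          have b1 : x ^ 2 = |x| * |x| := by rw [← sq, sq_abs]
          nlinarith [neg_abs_le x, abs_nonneg x]
      _ ≤ Real.exp (8 / α) := by
          apply Real.exp_le_exp.2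
          rw [Finset.sum_const, Finset.card_range, nsmul_eq_mul]
          have : (i : ℝ) * (4 / α / n) ≤ n * (4 / α / n) := mul_le_mul_of_nonneg_right hin hK
          rw [mul_div_cancel₀ _ hn0.ne'] at this
          have e : 8 / α = 2 * (4 / α) := by ring
          linarith

lemma forward {n : ℕ} (hn : 8 / α ≤ n) {Z : ℂ} {c : ℝ} (hc : 0 < c)
    (hb : Metric.ball Z (c * (Real.exp (8 / α) + 1)) ⊆ M) (i : ℕ) (hi : i ≤ n) :
    d Z (Z + c • p) ≤ d Z (Z + (c * AA W p p' n i) • (p + ((i : ℝ) / n) • (p' - p))) := by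
  have hα := D.pos
  have hn0 : (0 : ℝ) < n := lt_of_lt_of_le (by positivity) hn
  have hZ : Z ∈ M := hb (Metric.mem_ball_self (by positivity))
  have mem : ∀ j : ℕ, j ≤ n → Z + (c * AA W p p' n j) • (p + ((j : ℝ) / n) • (p' - p)) ∈ M := by
    intro j hj
    apply hb
    obtain ⟨a1, a2⟩ := D.AA_bounds hp hp' hd hn hj
    have a0 : 0 < AA W p p' n j := lt_of_lt_of_le (Real.exp_pos _) a1
    have a3 := chord_upper hp hp' (t := (j : ℝ) / n) (by positivity)
      ((div_le_one hn0).2 (by exact_mod_cast hj))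
    rw [mem_ball_iff_norm, add_sub_cancel_left, norm_smul, Real.norm_eq_abs, abs_of_pos (by positivity)]
    calc _ ≤ c * AA W p p' n j * 1 := mul_le_mul_of_nonneg_left a3 (by positivity)
      _ < _ := by rw [mul_one]; exact mul_lt_mul_of_pos_left (by linarith) hc
  induction i with
  | zero => simp [AA]
  | succ i ih =>
    refine (ih (by omega)).trans ?_
    obtain ⟨b1, b2, -⟩ := D.kk_spec hp hp' hd (t := (i : ℝ) / n) (by positivity)
      ((div_le_one hn0).2 (by exact_mod_cast (by omega : i ≤ n)))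
    have a0 : 0 < AA W p p' n i := lt_of_lt_of_le (Real.exp_pos _) (D.AA_bounds hp hp' hd hn (by omega)).1
    obtain ⟨a1, a2⟩ := D.kk_small hp hp' hd hn (j := i) (by omega)
    have a3 : 1 + kk W p p' (i / n) / n ≠ 0 := by linarith [(abs_le.1 (a1.trans a2)).1]
    apply foot_step (D.foot Z hZ _ b1 _ (by positivity) (mem i (by omega))) (D.ne _ b1) _ (mem _ hi)
    have e : p + (((i + 1 : ℕ) : ℝ) / n) • (p' - p) =
        (p + ((i : ℝ) / n) • (p' - p)) + ((1 : ℝ) / n) • (p' - p) := by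
      push_cast; rw [add_div]; module
    rw [e, AA, Finset.prod_range_succ, ← AA]
    have e2 : cr (W (p + ((i : ℝ) / n) • (p' - p))) (p' - p) =
        kk W p p' (i / n) * cr (W (p + ((i : ℝ) / n) • (p' - p))) (p + ((i : ℝ) / n) • (p' - p)) := by
      rw [kk, div_mul_cancel₀ _ b2]
    set x := p + ((i : ℝ) / n) • (p' - p)
    rw [cr_smul_r, cr_smul_r, cr_add_r, cr_smul_r, e2]
    have e4 : cr (W x) x + 1 / n * (kk W p p' (i / n) * cr (W x) x) =
        (1 + kk W p p' (i / n) / n) * cr (W x) x := by ring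
    rw [e4, mul_assoc, mul_assoc, inv_mul_cancel_left₀ a3, mul_assoc]

lemma AA_prod {n : ℕ} (hn : 8 / α ≤ n) :
    AA W p p' n n * AA W p' p n n ≤ Real.exp ((8 / α + 4 * (4 / α) ^ 2) / n) := by
  have hα := D.pos
  have hn0 : (0 : ℝ) < n := lt_of_lt_of_le (by positivity) hn
  have hd' : 0 ≤ dot p' p := by rwa [dot_comm]
  have up : ∀ {q q' : ℂ}, ‖q‖ = 1 → ‖q'‖ = 1 → 0 ≤ dot q q' → AA W q q' n n ≤
      Real.exp (∑ j ∈ Finset.range n, (-(kk W q q' (j / n) / n) + 2 * (4 / α / n) ^ 2)) := by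
    intro q q' hq hq' hqd
    rw [Real.exp_sum]
    apply Finset.prod_le_prod
    · intro j hj
      obtain ⟨a1, a2⟩ := D.kk_small hq hq' hqd hn (Finset.mem_range.1 hj).le
      exact (inv_pos.2 (by linarith [(abs_le.1 (a1.trans a2)).1])).le
    intro j hj
    obtain ⟨a1, a2⟩ := D.kk_small hq hq' hqd hn (Finset.mem_range.1 hj).le
    refine le_trans (inv_one_add_le (a1.trans a2)) (Real.exp_le_exp.2 ?_)
    have := sq_le_sq' (abs_le.1 a1).1 (abs_le.1 a1).2
    linarith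
  have pos' : 0 ≤ AA W p' p n n := (Real.exp_pos _).le.trans (D.AA_bounds hp' hp hd' hn le_rfl).1
  refine (mul_le_mul (up hp hp' hd) (up hp' hp hd') pos' (Real.exp_pos _).le).trans ?_
  rw [← Real.exp_add]
  apply Real.exp_le_exp.2
  set g : ℕ → ℝ := fun j => kk W p p' (j / n) / n with hg
  have s1 : ∑ j ∈ Finset.range n, -(kk W p' p (j / n) / n) = ∑ j ∈ Finset.range n, g (j + 1) := by
    rw [← Finset.sum_range_reflect (fun j => g (j + 1)) n]
    apply Finset.sum_congr rfl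
    intro j hj
    have hj' := Finset.mem_range.1 hj
    have : ((n - 1 - j + 1 : ℕ) : ℝ) = n - j := by
      rw [show n - 1 - j + 1 = n - j by omega, Nat.cast_sub hj'.le]
    simp only [hg, kk_rev W p p', this]
    rw [sub_div, div_self hn0.ne']; ring
  rw [Finset.sum_add_distrib, Finset.sum_add_distrib, s1, Finset.sum_neg_distrib]
  have s2 := Finset.sum_range_sub g n
  rw [Finset.sum_sub_distrib] at s2
  rw [Finset.sum_const, Finset.card_range, nsmul_eq_mul]
  have a1 := (D.kk_small hp hp' hd hn (j := n) le_rfl).1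
  have a2 := (D.kk_small hp hp' hd hn (j := 0) (Nat.zero_le _)).1
  have e1 : (n : ℝ) * (2 * (4 / α / n) ^ 2) = 2 * (4 / α) ^ 2 / n := by field_simp
  have e2 : (8 / α + 4 * (4 / α) ^ 2) / n = 2 * (4 / α / n) + 2 * (2 * (4 / α) ^ 2 / n) := by ring
  have b1 : g n ≤ 4 / α / n := (abs_le.1 a1).2
  have b2 : -(4 / α / n) ≤ g 0 := (abs_le.1 a2).1
  have e3 : ∑ j ∈ Finset.range n, kk W p p' (j / n) / n = ∑ j ∈ Finset.range n, g j := rfl
  rw [e1, e2, e3]
  linarith

lemma chord_ratio (H : PM0 M d) : ∃ lam R : ℝ, 0 < lam ∧ 0 < R ∧ Rat' M d p p' lam R := by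
  have hα := D.pos
  have hd' : 0 ≤ dot p' p := by rwa [dot_comm]
  set U := Ultrafilter.of (atTop : Filter ℕ)
  have hle : (U : Filter ℕ) ≤ atTop := Ultrafilter.of_le _
  have hn : ∀ᶠ n : ℕ in (U : Filter ℕ), 8 / α ≤ n :=
    (tendsto_natCast_atTop_atTop.eventually_ge_atTop (8 / α)).filter_mono hle
  set E := Real.exp (8 / α) with hE
  have hE1 : 1 ≤ E := Real.one_le_exp (by positivity)
  obtain ⟨lam, hl, Tl⟩ := ultra_lim U (isCompact_Icc (a := Real.exp (-(4 / α))) (b := E))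
    (f := fun n => AA W p p' n n) (hn.mono fun n h => D.AA_bounds hp hp' hd h le_rfl)
  obtain ⟨mu, hm, Tm⟩ := ultra_lim U (isCompact_Icc (a := Real.exp (-(4 / α))) (b := E))
    (f := fun n => AA W p' p n n) (hn.mono fun n h => D.AA_bounds hp' hp hd' h le_rfl)
  have hl0 : 0 < lam := lt_of_lt_of_le (Real.exp_pos _) hl.1
  have hm0 : 0 < mu := lt_of_lt_of_le (Real.exp_pos _) hm.1
  have hprod : lam * mu ≤ 1 := by
    have T : Tendsto (fun n : ℕ => Real.exp ((8 / α + 4 * (4 / α) ^ 2) / n)) U (𝓝 (Real.exp 0)) :=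
      (Real.continuous_exp.tendsto 0).comp ((tendsto_const_div_atTop_nhds_zero_nat _).mono_left hle)
    rw [Real.exp_zero] at T
    exact le_of_tendsto_of_tendsto (Tl.mul Tm) T (hn.mono fun n h => D.AA_prod hp hp' hd h)
  have lim : ∀ {q q' : ℂ} {l : ℝ}, ‖q‖ = 1 → ‖q'‖ = 1 → 0 ≤ dot q q' → 0 < l → l ≤ E →
      Tendsto (fun n => AA W q q' n n) U (𝓝 l) → ∀ (Z : ℂ) (c : ℝ), 0 < c →
      Metric.ball Z (c * (E + 1)) ⊆ M → d Z (Z + c • q) ≤ d Z (Z + (c * l) • q') := by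
    intro q q' l hq hq' hqd hl0 hlE T Z c hc hb
    have hZ : Z ∈ M := hb (Metric.mem_ball_self (by positivity))
    have hm : Z + (c * l) • q' ∈ M := by
      apply hb
      rw [mem_ball_iff_norm, add_sub_cancel_left, norm_smul, Real.norm_eq_abs, abs_of_pos (by positivity),
        hq', mul_one]
      exact mul_lt_mul_of_pos_left (by linarith) hc
    apply ge_of_tendsto (H.tendsto hZ hm tendsto_const_nhds
      (((T.const_mul c).smul_const q').const_add Z))
    filter_upwards [hn] with n h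
    have := D.forward hq hq' hqd h hc hb n le_rfl
    have hn0 : (0 : ℝ) < n := lt_of_lt_of_le (by positivity) h
    rwa [div_self hn0.ne', one_smul, add_sub_cancel] at this
  refine ⟨lam, E * (E + 1), hl0, by positivity, fun Z c hc hb => ?_⟩
  have hb1 : Metric.ball Z (c * (E + 1)) ⊆ M := (Metric.ball_subset_ball (by
    apply mul_le_mul_of_nonneg_left _ hc.le; nlinarith)).trans hb
  have hb2 : Metric.ball Z (c * lam * (E + 1)) ⊆ M := (Metric.ball_subset_ball (by
    rw [mul_assoc]; apply mul_le_mul_of_nonneg_left _ hc.le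
    exact mul_le_mul_of_nonneg_right hl.2 (by linarith))).trans hb
  have hZ : Z ∈ M := hb1 (Metric.mem_ball_self (by positivity))
  have a1 := lim hp hp' hd hl0 hl.2 Tl Z c hc hb1
  have a2 := lim hp' hp hd' hm0 hm.2 Tm Z (c * lam) (by positivity) hb2
  have hm1 : Z + c • p ∈ M := by
    apply hb1
    rw [mem_ball_iff_norm, add_sub_cancel_left, norm_smul, Real.norm_eq_abs, abs_of_pos hc, hp]
    exact mul_lt_mul_of_pos_left (by linarith) hc
  have a3 := H.ray_mono hZ hm1 (s := c * lam * mu) (by positivity) (by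
    rw [mul_assoc]; exact mul_le_of_le_one_right hc.le hprod)
  linarith

end Dir

lemma Rat'.comp {M : Set ℂ} {d : ℂ → ℂ → ℝ} {v v' v'' : ℂ} {l l' R R' : ℝ} (hl : 0 < l)
    (h : Rat' M d v v' l R) (h' : Rat' M d v' v'' l' R') : Rat' M d v v'' (l * l') (max R (l * R')) := by
  intro Z c hc hb
  rw [h Z c hc ((Metric.ball_subset_ball (mul_le_mul_of_nonneg_left (le_max_left _ _) hc.le)).trans hb),
    h' Z (c * l) (by positivity) ((Metric.ball_subset_ball (by
      rw [mul_assoc]; exact mul_le_mul_of_nonneg_left (le_max_right _ _) hc.le)).trans hb), mul_assoc]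

namespace Dir
variable {M : Set ℂ} {d : ℂ → ℂ → ℝ} {α : ℝ} {W : ℂ → ℂ} (D : Dir M d α W) (H : PM0 M d)
include D H

lemma ratio {v v' : ℂ} (hv : v ≠ 0) (hv' : v' ≠ 0) :
    ∃ lam R : ℝ, 0 < lam ∧ 0 < R ∧ Rat' M d v v' lam R := by
  have hn : 0 < ‖v‖ := norm_pos_iff.2 hv
  have hn' : 0 < ‖v'‖ := norm_pos_iff.2 hv'
  have h1 : ‖‖v‖⁻¹ • v‖ = 1 := by simp [norm_smul, hn.ne']
  have h1' : ‖‖v'‖⁻¹ • v'‖ = 1 := by simp [norm_smul, hn'.ne']
  obtain ⟨m, hm, d1, d2⟩ := exists_mid (p' := ‖v'‖⁻¹ • v') h1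
  obtain ⟨l1, R1, a1, b1, c1⟩ := D.chord_ratio h1 hm d1 H
  obtain ⟨l2, R2, a2, b2, c2⟩ := D.chord_ratio hm h1' d2 H
  have c3 := c1.comp a1 c2
  refine ⟨‖v‖ * (l1 * l2) * ‖v'‖⁻¹, ‖v‖ * max R1 (l1 * R2), by positivity,
    mul_pos hn (lt_max_of_lt_left b1), fun Z c hc hb => ?_⟩
  have := c3 Z (c * ‖v‖) (by positivity) (by rwa [mul_assoc])
  rw [smul_smul, smul_smul, mul_assoc c, mul_inv_cancel₀ hn.ne', mul_one] at this
  rw [this]; congr 3; ring

omit D in
lemma not_lt_one (hM : M.Nonempty) {v : ℂ} (hv : v ≠ 0) {l R : ℝ} (hl : 0 < l) (hR : 0 < R)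
    (h : Rat' M d v (-v) l R) : ¬ l < 1 := by
  intro hl1
  obtain ⟨Z, hZ⟩ := hM
  obtain ⟨r, hr, hb⟩ := Metric.isOpen_iff.1 H.isOpen Z hZ
  have hn : 0 < ‖v‖ := norm_pos_iff.2 hv
  have h1l : 0 < 1 - l := by linarith
  set c := r / (2 * (R + ‖v‖ * (1 + (1 - l)⁻¹))) with hc
  have hden : 0 < R + ‖v‖ * (1 + (1 - l)⁻¹) := by positivity
  have hc0 : 0 < c := by positivity
  have hcr : c * (R + ‖v‖ * (1 + (1 - l)⁻¹)) < r := by
    rw [hc, div_mul_eq_mul_div, div_lt_iff₀ (by positivity)]; nlinarith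
  set s : ℕ → ℝ := fun k => ∑ j ∈ Finset.range k, l ^ j with hs
  have hsum := hasSum_geometric_of_lt_one hl.le hl1
  have Ts : Tendsto s atTop (𝓝 (1 - l)⁻¹) := hsum.tendsto_sum_nat
  have hs0 : ∀ k, 0 ≤ s k := fun k => Finset.sum_nonneg fun _ _ => by positivity
  have hs1 : ∀ k, s k ≤ (1 - l)⁻¹ := fun k => sum_le_hasSum _ (fun _ _ => by positivity) hsum
  set y : ℝ → ℂ := fun x => Z + (c * (1 - x)) • v with hy
  have hball : ∀ x, 0 ≤ x → x ≤ (1 - l)⁻¹ → Metric.ball (y x) (c * R) ⊆ M := by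
    intro x h0 h1 z hz
    apply hb
    rw [mem_ball_iff_norm] at hz ⊢
    have e : z - Z = (z - y x) + (c * (1 - x)) • v := by simp only [hy]; abel
    rw [e]
    refine (norm_add_le _ _).trans_lt ?_
    rw [norm_smul, Real.norm_eq_abs, abs_mul, abs_of_pos hc0]
    have : |1 - x| ≤ 1 + (1 - l)⁻¹ := abs_le.2 ⟨by linarith, by linarith⟩
    have : c * |1 - x| * ‖v‖ ≤ c * (1 + (1 - l)⁻¹) * ‖v‖ := by gcongr
    nlinarith
  have hmem : ∀ x, 0 ≤ x → x ≤ (1 - l)⁻¹ → y x ∈ M := fun x h0 h1 =>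
    hball x h0 h1 (Metric.mem_ball_self (by positivity))
  have hconst : ∀ k, d (y (s (k + 1))) (y (s k)) = d Z (Z + c • v) := by
    intro k
    induction k with
    | zero => simp [hs, hy]
    | succ k ih =>
      rw [← ih, H.symm _ (hmem _ (hs0 _) (hs1 _)) _ (hmem _ (hs0 _) (hs1 _))]
      have := h (y (s (k + 1))) (c * l ^ k) (by positivity) ((Metric.ball_subset_ball (by
        apply mul_le_mul_of_nonneg_right _ hR.le
        exact mul_le_of_le_one_right hc0.le (pow_le_one₀ hl.le hl1.le))).trans (hball _ (hs0 _) (hs1 _)))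
      have e1 : y (s (k + 1)) + (c * l ^ k) • v = y (s k) := by
        simp only [hy, hs, Finset.sum_range_succ]; module
      have e2 : y (s (k + 1)) + (c * l ^ k * l) • (-v) = y (s (k + 1 + 1)) := by
        simp only [hy, hs, Finset.sum_range_succ, pow_succ]; module
      rw [e1, e2] at this
      exact this.symm
  have Ty : Tendsto (fun k => y (s k)) atTop (𝓝 (y (1 - l)⁻¹)) := by
    have : Continuous y := by rw [hy]; fun_prop
    exact (this.tendsto _).comp Ts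
  have hinf := hmem (1 - l)⁻¹ (by positivity) le_rfl
  have T := H.tendsto hinf hinf (Ty.comp (tendsto_add_atTop_nat 1)) Ty
  rw [H.refl _ hinf] at T
  have T' : Tendsto (fun _ : ℕ => d Z (Z + c • v)) atTop (𝓝 0) := T.congr fun k => hconst k
  have e0 := tendsto_nhds_unique T' tendsto_const_nhds
  have hm0 : Z + c • v ∈ M := by simpa [hy] using hmem 0 le_rfl (by positivity)
  have := H.ray_strict hZ hm0 le_rfl hc0 hv
  simp only [zero_smul, add_zero, H.refl Z hZ] at this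
  linarith

lemma ratio_neg (hM : M.Nonempty) {v : ℂ} (hv : v ≠ 0) : ∃ R : ℝ, 0 < R ∧ Rat' M d v (-v) 1 R := by
  obtain ⟨l, R, hl, hR, h⟩ := D.ratio H hv (neg_ne_zero.2 hv)
  have a1 := not_lt_one H hM hv hl hR h
  have a2 : ¬ l⁻¹ < 1 := by
    apply not_lt_one H hM (neg_ne_zero.2 hv) (inv_pos.2 hl) hR
    intro Z c hc hb
    have := h Z (c * l⁻¹) (by positivity) ((Metric.ball_subset_ball (by
      apply mul_le_mul_of_nonneg_right _ hR.le
      exact mul_le_of_le_one_right hc.le (inv_le_one_of_one_le₀ (not_lt.1 a1)))).trans hb)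
    rw [neg_neg, this, mul_assoc, inv_mul_cancel₀ hl.ne', mul_one]
  have : l = 1 := by
    apply le_antisymm _ (not_lt.1 a1)
    by_contra hc
    exact a2 (inv_lt_one_of_one_lt₀ (not_le.1 hc))
  exact ⟨R, hR, this ▸ h⟩

lemma linear {a b : ℂ} (ha : a ∈ M) (hb : b ∈ M) {θ : ℝ} (h0 : 0 ≤ θ) (h1 : θ ≤ 1) :
    d a (a + θ • (b - a)) = θ * d a b := by
  by_cases hab : b - a = 0
  · rw [hab, sub_eq_zero.1 hab]; simp [H.refl a ha]
  set v := b - a with hv
  obtain ⟨R, hR, hr⟩ := D.ratio_neg H ⟨a, ha⟩ hab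
  have hb1 : a + (1 : ℝ) • v ∈ M := by simpa [hv] using hb
  have hcomp : IsCompact ((fun t : ℝ => a + t • v) '' Icc 0 1) := isCompact_Icc.image (by fun_prop)
  obtain ⟨δ, hδ, hth⟩ := hcomp.exists_thickening_subset_open H.isOpen (by
    rintro _ ⟨t, ht, rfl⟩; exact H.ray_mem ha hb1 ht.1 ht.2)
  have key : ∀ n : ℕ, R / δ < n → ∀ k : ℕ, k ≤ n → d a (a + ((k : ℝ) / n) • v) = k / n * d a b := by
    intro n hn
    have hn0 : (0 : ℝ) < n := lt_of_le_of_lt (by positivity) hn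
    have mem : ∀ k : ℕ, k ≤ n → a + ((k : ℝ) / n) • v ∈ M := fun k hk =>
      H.ray_mem ha hb1 (by positivity) ((div_le_one hn0).2 (by exact_mod_cast hk))
    have piece : ∀ k : ℕ, k + 1 ≤ n → d (a + ((k : ℝ) / n) • v) (a + (((k + 1 : ℕ) : ℝ) / n) • v) =
        d a (a + ((1 : ℝ) / n) • v) := by
      intro k
      induction k with
      | zero => simp
      | succ k ih =>
        intro hk
        rw [← ih (by omega), H.symm _ (mem k (by omega)) _ (mem (k + 1) (by omega))]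
        have := hr (a + (((k + 1 : ℕ) : ℝ) / n) • v) (1 / n) (by positivity) (by
          refine Subset.trans ?_ hth
          refine (Metric.ball_subset_ball (show 1 / n * R ≤ δ from ?_)).trans
            (Metric.ball_subset_thickening (mem_image_of_mem (fun t : ℝ => a + t • v)
              (mem_Icc.2 ⟨by positivity, (div_le_one hn0).2
                (by exact_mod_cast (by omega : k + 1 ≤ n))⟩)) δ)
          rw [div_lt_iff₀ hδ] at hn
          rw [div_mul_eq_mul_div, one_mul, div_le_iff₀ hn0]; linarith)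
        have e1 : a + (((k + 1 : ℕ) : ℝ) / n) • v + ((1 : ℝ) / n) • v =
            a + (((k + 1 + 1 : ℕ) : ℝ) / n) • v := by push_cast; simp only [add_div]; module
        have e2 : a + (((k + 1 : ℕ) : ℝ) / n) • v + ((1 : ℝ) / n * 1) • (-v) = a + ((k : ℝ) / n) • v := by
          push_cast; simp only [add_div]; module
        rw [e1, e2] at this
        exact this
    have tot : ∀ k : ℕ, k ≤ n → d a (a + ((k : ℝ) / n) • v) = k * d a (a + ((1 : ℝ) / n) • v) := by
      intro k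
      induction k with
      | zero => intro _; simp [H.refl a ha]
      | succ k ih =>
        intro hk
        rw [H.ray_add ha (mem _ hk) (s := (k : ℝ) / n) (by positivity)
          (div_le_div_of_nonneg_right (by push_cast; linarith) hn0.le), ih (by omega), piece k hk]
        push_cast; ring
    intro k hk
    have e := tot n le_rfl
    have e' : a + v = b := by rw [hv]; abel
    rw [div_self hn0.ne', one_smul, e'] at e
    rw [tot k hk, e]; field_simp
  have T : Tendsto (fun n : ℕ => (⌊θ * n⌋₊ : ℝ) / n) atTop (𝓝 θ) :=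
    (tendsto_nat_floor_mul_div_atTop h0).comp tendsto_natCast_atTop_atTop
  have T1 := H.tendsto ha (H.ray_mem ha hb1 h0 h1) (tendsto_const_nhds (x := a) (f := atTop))
    ((T.smul_const v).const_add a)
  refine tendsto_nhds_unique T1 ((T.mul_const (d a b)).congr' ?_)
  filter_upwards [tendsto_natCast_atTop_atTop.eventually_gt_atTop (R / δ)] with n hn
  refine (key n hn _ ?_).symm
  apply Nat.floor_le_of_le
  exact mul_le_of_le_one_left (Nat.cast_nonneg n) h1

lemma ray_linear {a v : ℂ} (ha : a ∈ M) {s t : ℝ} (hs : 0 < s) (ht : 0 < t) (h1 : a + s • v ∈ M)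
    (h2 : a + t • v ∈ M) : d a (a + s • v) / s = d a (a + t • v) / t := by
  wlog hst : s ≤ t generalizing s t
  · exact (this ht hs h2 h1 (le_of_not_ge hst)).symm
  have := D.linear H ha h2 (θ := s / t) (by positivity) ((div_le_one ht).2 hst)
  rw [add_sub_cancel_left, smul_smul, div_mul_cancel₀ _ ht.ne'] at this
  rw [this]; field_simp

/-- the metric is translation invariant and homogeneous -/
theorem minkowski (hM : M.Nonempty) : ∃ N : ℂ → ℝ, (∀ (c : ℝ) (v : ℂ), 0 ≤ c → N (c • v) = c * N v) ∧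
    ∀ a ∈ M, ∀ b ∈ M, d a b = N (b - a) := by
  have hex : ∀ a v : ℂ, ∃ c : ℝ, 0 < c ∧ (a ∈ M → a + c • v ∈ M) := by
    intro a v
    by_cases ha : a ∈ M
    · obtain ⟨c, h1, h2⟩ := ((H.eventually_mem ha (small_r a v)).and self_mem_nhdsWithin).exists
      exact ⟨c, h2, fun _ => h1⟩
    · exact ⟨1, one_pos, fun h => absurd h ha⟩
  choose c hc0 hc using hex
  set N : ℂ → ℂ → ℝ := fun a v => d a (a + c a v • v) / c a v with hN
  have N1 : ∀ a ∈ M, ∀ v, ∀ t : ℝ, 0 < t → a + t • v ∈ M → d a (a + t • v) = t * N a v := by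
    intro a ha v t ht hm
    have := D.ray_linear H ha ht (hc0 a v) hm (hc a v ha)
    simp only [hN]; rw [← this]; field_simp
  have N2 : ∀ v v' : ℂ, ∀ l R : ℝ, 0 < l → 0 < R → Rat' M d v v' l R → ∀ a ∈ M, N a v = l * N a v' := by
    intro v v' l R hl hR h a ha
    obtain ⟨r, hr, hb⟩ := Metric.isOpen_iff.1 H.isOpen a ha
    have T : Tendsto (fun t : ℝ => t * R) (𝓝[>] 0) (𝓝 (0 * R)) :=
      (tendsto_id.mono_left nhdsWithin_le_nhds).mul_const R
    rw [zero_mul] at T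
    obtain ⟨t, t1, t2, t3, t4⟩ := ((H.eventually_mem ha (small_r a v)).and
      ((H.eventually_mem ha (small_r a (l • v'))).and ((T.eventually (gt_mem_nhds hr)).and
        self_mem_nhdsWithin))).exists
    have ht : 0 < t := t4
    rw [smul_smul] at t2
    have := h a t ht ((Metric.ball_subset_ball t3.le).trans hb)
    rw [N1 a ha v t ht t1, N1 a ha v' _ (by positivity) t2, mul_assoc] at this
    exact mul_left_cancel₀ ht.ne' this
  have N0 : ∀ a ∈ M, N a 0 = 0 := fun a ha => by simp [hN, H.refl a ha]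
  have N3 : ∀ a ∈ M, ∀ b ∈ M, d a b = N a (b - a) := by
    intro a ha b hb
    have := N1 a ha (b - a) 1 one_pos (by simpa using hb)
    simpa using this
  obtain ⟨Z, hZ⟩ := hM
  have N4 : ∀ a ∈ M, ∀ v, N a v = N Z v := by
    intro a ha v
    by_cases haZ : Z - a = 0
    · rw [sub_eq_zero.1 haZ]
    by_cases hv : v = 0
    · rw [hv, N0 a ha, N0 Z hZ]
    obtain ⟨l, R, hl, hR, h⟩ := D.ratio H hv haZ
    obtain ⟨R', hR', h'⟩ := D.ratio_neg H ⟨Z, hZ⟩ haZ
    rw [N2 _ _ _ _ hl hR h a ha, N2 _ _ _ _ hl hR h Z hZ, N2 _ _ _ _ one_pos hR' h' Z hZ, neg_sub,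
      ← N3 a ha Z hZ, ← N3 Z hZ a ha, H.symm a ha Z hZ, one_mul]
  refine ⟨N Z, fun t v ht => ?_, fun a ha b hb => by rw [N3 a ha b hb, N4 a ha]⟩
  rcases eq_or_lt_of_le ht with rfl | ht
  · simp [N0 Z hZ]
  have a1 := N1 Z hZ (t • v) _ (hc0 Z (t • v)) (hc Z (t • v) hZ)
  have a2 := hc Z (t • v) hZ
  rw [smul_smul] at a1 a2
  rw [N1 Z hZ v _ (mul_pos (hc0 _ _) ht) a2, mul_assoc] at a1
  exact (mul_left_cancel₀ (hc0 _ _).ne' a1).symm

end Dir

end Pool.Agent.P.MP_ec5bc9_gt.H13
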