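import Pool.Agent.P.MP_ec5bc9_gt.A3

/-! Bounded eccentricity of small balls and the blow-up metric. -/

set_option autoImplicit false

namespace Pool.Agent.P.MP_ec5bc9_gt.H13

open Set Filter Topology

attribute [-simp] Complex.real_smul

structure Ecc (M : Set ℂ) (d : ℂ → ℂ → ℝ) (X : ℂ) (r Λ : ℝ) : Prop where
  rpos : 0 < r
  one_le : 1 ≤ Λ
  sub : Metric.closedBall X (2 * r) ⊆ M
  le : ∀ Z ∈ Metric.closedBall X r, ∀ v v' : ℂ, Λ * ‖v‖ ≤ ‖v'‖ → ‖v'‖ ≤ r → d Z (Z + v) ≤ d Z (Z + v')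

namespace PM
variable {M : Set ℂ} {d : ℂ → ℂ → ℝ} (H : PM M d)
include H

lemma support {S : Set ℂ} (hS : IsCompact S) (hSM : S ⊆ M) : ∃ α : ℝ, 0 < α ∧ ∀ Z ∈ M, ∀ x : ℂ,
    x ≠ 0 → Z + x ∈ S → ∃ w : ℂ, w ≠ 0 ∧ α * ‖w‖ * ‖x‖ ≤ |cr w x| ∧ Foot M d Z (Z + x) w := by
  obtain ⟨α, hα, -, h⟩ := H.nu_transversal hS hSM
  refine ⟨α, hα, fun Z hZ x hx hW => ?_⟩
  have hn : 0 < ‖x‖ := norm_pos_iff.2 hx
  obtain ⟨w, hw, e⟩ := H.nu_surj (hSM hW) (e := -(‖x‖⁻¹ • x)) (by simp [norm_smul, hn.ne'])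
  refine ⟨w, hw, ?_, ?_⟩
  · have := h _ hW w hw
    rw [e, cr_neg_r, cr_smul_r, ← mul_neg, ← div_eq_inv_mul, le_div_iff₀ hn] at this
    exact this.trans (neg_le_abs _)
  · have e2 : Z + x + ‖x‖ • nu M d (Z + x) w = Z := by
      rw [e, smul_neg, smul_smul, mul_inv_cancel₀ hn.ne', one_smul]; abel
    have := H.nu_perp (hSM hW) hw ‖x‖ hn.le (by rwa [e2])
    rwa [e2] at this

lemma exists_ecc {X : ℂ} {r : ℝ} (hr : 0 < r) (hb : Metric.closedBall X (2 * r) ⊆ M) :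
    ∃ Λ : ℝ, Ecc M d X r Λ := by
  obtain ⟨α, hα, hs⟩ := H.support (isCompact_closedBall X (2 * r)) hb
  obtain ⟨n, hn⟩ := exists_nat_ge (8 / α)
  have hn0 : (0 : ℝ) < n := lt_of_lt_of_le (by positivity) hn
  have memb : ∀ Z ∈ Metric.closedBall X r, ∀ x : ℂ, ‖x‖ ≤ r → Z + x ∈ Metric.closedBall X (2 * r) := by
    intro Z hZ x hx
    rw [mem_closedBall_iff_norm] at hZ ⊢
    have : Z + x - X = (Z - X) + x := by abel
    rw [this]; linarith [norm_add_le (Z - X) x]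
  have chord : ∀ Z ∈ Metric.closedBall X r, ∀ p p' : ℂ, ‖p‖ = 1 → ‖p'‖ = 1 → 0 ≤ dot p p' →
      ∀ a : ℝ, 0 < a → 2 ^ n * a ≤ r → d Z (Z + a • p) ≤ d Z (Z + (2 ^ n * a) • p') := by
    intro Z hZ p p' hp hp' hd a ha har
    have hZM : Z ∈ M := by simpa using hb (memb Z hZ 0 (by simpa using hr.le))
    have mem : ∀ (i j : ℕ), i ≤ n → j ≤ n →
        Z + (2 ^ i * a) • (p + ((j : ℝ) / n) • (p' - p)) ∈ Metric.closedBall X (2 * r) := by
      intro i j hi hj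
      apply memb Z hZ
      have a3 := chord_upper hp hp' (t := (j : ℝ) / n) (by positivity)
        ((div_le_one hn0).2 (by exact_mod_cast hj))
      rw [norm_smul, Real.norm_eq_abs, abs_of_pos (by positivity)]
      have : (2 : ℝ) ^ i ≤ 2 ^ n := pow_le_pow_right₀ (by norm_num) hi
      calc _ ≤ 2 ^ i * a * 1 := mul_le_mul_of_nonneg_left a3 (by positivity)
        _ ≤ r := by nlinarith
    have ind : ∀ i : ℕ, i ≤ n →
        d Z (Z + a • p) ≤ d Z (Z + (2 ^ i * a) • (p + ((i : ℝ) / n) • (p' - p))) := by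
      intro i
      induction i with
      | zero => intro _; simp
      | succ i ih =>
        intro hi
        refine (ih (by omega)).trans ?_
        have t0 : (0 : ℝ) ≤ (i : ℝ) / n := by positivity
        have t1 : (i : ℝ) / n ≤ 1 := (div_le_one hn0).2 (by exact_mod_cast (by omega : i ≤ n))
        have hx0 : p + ((i : ℝ) / n) • (p' - p) ≠ 0 := by
          intro h; have := chord_lower hp hp' hd t0 t1; rw [h] at this; simp at this; linarith
        have hc : (0 : ℝ) < 2 ^ i * a := by positivity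
        obtain ⟨w, hw, h1, h2⟩ := hs Z hZM _ (smul_ne_zero hc.ne' hx0) (mem i i (by omega) (by omega))
        rw [norm_smul, cr_smul_r, abs_mul, Real.norm_eq_abs, abs_of_pos hc, mul_left_comm] at h1
        obtain ⟨b1, b2⟩ := chord_k hα hp hp' hd t0 t1 hw (le_of_mul_le_mul_left h1 hc)
        have e : p + (((i + 1 : ℕ) : ℝ) / n) • (p' - p) =
            (p + ((i : ℝ) / n) • (p' - p)) + ((1 : ℝ) / n) • (p' - p) := by
          push_cast; rw [add_div]; module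
        have hm := hb (mem (i + 1) (i + 1) hi hi)
        set x := p + ((i : ℝ) / n) • (p' - p)
        set k := cr w (p' - p) / cr w x with hk
        have e2 : cr w (p' - p) = k * cr w x := by rw [hk, div_mul_cancel₀ _ b1]
        have hkn : |k / n| ≤ 1 / 2 := by
          rw [abs_div, abs_of_pos hn0, div_le_iff₀ hn0]
          have : 8 / α = 2 * (4 / α) := by ring
          linarith
        obtain ⟨c1, c2⟩ := abs_le.1 hkn
        have c3 : 0 < 1 + k / n := by linarith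
        have c4 : (1 + k / n)⁻¹ ≤ 2 := by rw [inv_le_comm₀ c3 (by norm_num)]; linarith
        have c5 : 2 ^ i * a * (1 + k / n)⁻¹ ≤ 2 ^ (i + 1) * a := by rw [pow_succ]; nlinarith
        have c6 : 0 ≤ 2 ^ i * a * (1 + k / n)⁻¹ := by positivity
        refine le_trans (foot_step h2 hw ?_ (H.ray_mem hZM hm c6 c5)) (H.ray_mono hZM hm c6 c5)
        rw [e, cr_smul_r, cr_smul_r, cr_add_r, cr_smul_r, e2]
        have e4 : cr w x + 1 / n * (k * cr w x) = (1 + k / n) * cr w x := by ring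
        rw [e4, mul_assoc, inv_mul_cancel_left₀ c3.ne']
    have := ind n le_rfl
    rwa [div_self hn0.ne', one_smul, add_sub_cancel] at this
  have h2n : (1 : ℝ) ≤ 2 ^ n := one_le_pow₀ (by norm_num)
  refine ⟨2 ^ n * 2 ^ n, hr, by nlinarith, hb, fun Z hZ v v' h1 h2 => ?_⟩
  have hZM : Z ∈ M := by simpa using hb (memb Z hZ 0 (by simpa using hr.le))
  have hm' : Z + v' ∈ M := hb (memb Z hZ v' h2)
  by_cases hv : v = 0
  · rw [hv, add_zero, H.refl Z hZM]; exact H.nonneg hZM hm'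
  have hvn : 0 < ‖v‖ := norm_pos_iff.2 hv
  have hvn' : 0 < ‖v'‖ := lt_of_lt_of_le (by positivity) h1
  have u1 : ‖‖v‖⁻¹ • v‖ = 1 := by simp [norm_smul, hvn.ne']
  have u1' : ‖‖v'‖⁻¹ • v'‖ = 1 := by simp [norm_smul, hvn'.ne']
  obtain ⟨m, hm, d1, d2⟩ := exists_mid (p' := ‖v'‖⁻¹ • v') u1
  have a1 := chord Z hZ _ _ u1 hm d1 ‖v‖ hvn (by nlinarith)
  have a2 := chord Z hZ _ _ hm u1' d2 (2 ^ n * ‖v‖) (by positivity) (by nlinarith)
  rw [smul_smul, mul_inv_cancel₀ hvn.ne', one_smul] at a1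
  have e : Z + v' = Z + ‖v'‖ • (‖v'‖⁻¹ • v') := by rw [smul_smul, mul_inv_cancel₀ hvn'.ne', one_smul]
  have a3 := H.ray_mono hZM (e ▸ hm') (s := 2 ^ n * (2 ^ n * ‖v‖)) (by positivity) (by linarith)
  rw [← e] at a3
  linarith

end PM

lemma Ecc.shift {M : Set ℂ} {d : ℂ → ℂ → ℝ} {X X' : ℂ} {r Λ : ℝ} (E : Ecc M d X r Λ)
    (h : ‖X' - X‖ ≤ r / 2) : Ecc M d X' (r / 2) Λ := by
  have hr := E.rpos
  refine ⟨by linarith, E.one_le, fun z hz => E.sub ?_, fun Z hZ v v' h1 h2 => E.le Z ?_ v v' h1 (by linarith)⟩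
  · rw [mem_closedBall_iff_norm] at hz ⊢
    have : z - X = (z - X') + (X' - X) := by abel
    rw [this]; linarith [norm_add_le (z - X') (X' - X)]
  · rw [mem_closedBall_iff_norm] at hZ ⊢
    have : Z - X = (Z - X') + (X' - X) := by abel
    rw [this]; linarith [norm_add_le (Z - X') (X' - X)]

namespace Ecc
variable {M : Set ℂ} {d : ℂ → ℂ → ℝ} {X : ℂ} {r Λ : ℝ} (E : Ecc M d X r Λ) (H : PM0 M d)
include E

lemma mem_of_le {Z : ℂ} (h : ‖Z - X‖ ≤ r) : Z ∈ M :=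
  E.sub (by rw [mem_closedBall_iff_norm]; linarith [E.rpos])

lemma center_mem : X ∈ M := E.mem_of_le (by simpa using E.rpos.le)

omit E in
lemma norm_ray_le {Z e : ℂ} (he : ‖e‖ = 1) {t : ℝ} (ht : 0 ≤ t) : ‖Z + t • e - X‖ ≤ ‖Z - X‖ + t := by
  have : Z + t • e - X = (Z - X) + t • e := by abel
  rw [this]
  refine (norm_add_le _ _).trans ?_
  rw [norm_smul, he, Real.norm_eq_abs, abs_of_nonneg ht, mul_one]

include H

lemma grow_up {Z e : ℂ} (he : ‖e‖ = 1) {l : ℝ} (hl : 0 < l) (k : ℕ)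
    (h : ‖Z - X‖ + l * (1 + Λ⁻¹) ^ k ≤ r) :
    d Z (Z + (l * (1 + Λ⁻¹) ^ k) • e) ≤ 2 ^ k * d Z (Z + l • e) := by
  have hΛ : 0 < Λ := lt_of_lt_of_le one_pos E.one_le
  have hΛ' : 0 < Λ⁻¹ := inv_pos.2 hΛ
  induction k with
  | zero => simp
  | succ k ih =>
    set t := l * (1 + Λ⁻¹) ^ k with ht
    have ht0 : 0 < t := by positivity
    have e1 : l * (1 + Λ⁻¹) ^ (k + 1) = t + t * Λ⁻¹ := by rw [pow_succ, ht]; ring
    rw [e1] at h ⊢
    have hp : 0 < t * Λ⁻¹ := by positivity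
    have hZ : Z ∈ M := E.mem_of_le (by linarith)
    have hB := (norm_ray_le (X := X) (Z := Z) he ht0.le)
    have hC := E.mem_of_le ((norm_ray_le (X := X) (Z := Z) he (t := t + t * Λ⁻¹) (by linarith)).trans h)
    have a1 := E.le (Z + t • e) (by rw [mem_closedBall_iff_norm]; linarith) ((t * Λ⁻¹) • e) (-(t • e))
      (by rw [norm_neg, norm_smul, norm_smul, he, Real.norm_eq_abs, Real.norm_eq_abs, abs_of_pos hp,
            abs_of_pos ht0]; field_simp; rfl)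
      (by rw [norm_neg, norm_smul, he, Real.norm_eq_abs, abs_of_pos ht0]; linarith [norm_nonneg (Z - X)])
    rw [add_neg_cancel_right, add_assoc, ← add_smul, H.symm _ (E.mem_of_le (by linarith)) Z hZ] at a1
    rw [H.ray_add hZ hC ht0.le (by linarith), pow_succ]
    linarith [ih (by linarith)]

lemma grow_down {Z e : ℂ} (he : ‖e‖ = 1) {l : ℝ} (hl : 0 < l) (k : ℕ)
    (h : ‖Z - X‖ + l * (1 + Λ) ^ k ≤ r) :
    2 ^ k * d Z (Z + l • e) ≤ d Z (Z + (l * (1 + Λ) ^ k) • e) := by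
  have hΛ : 0 < Λ := lt_of_lt_of_le one_pos E.one_le
  induction k with
  | zero => simp
  | succ k ih =>
    set t := l * (1 + Λ) ^ k with ht
    have ht0 : 0 < t := by positivity
    have e1 : l * (1 + Λ) ^ (k + 1) = t + t * Λ := by rw [pow_succ, ht]; ring
    rw [e1] at h ⊢
    have hp : 0 < t * Λ := by positivity
    have hZ : Z ∈ M := E.mem_of_le (by linarith)
    have hB := (norm_ray_le (X := X) (Z := Z) he ht0.le)
    have hC := E.mem_of_le ((norm_ray_le (X := X) (Z := Z) he (t := t + t * Λ) (by linarith)).trans h)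
    have a1 := E.le (Z + t • e) (by rw [mem_closedBall_iff_norm]; linarith) (-(t • e)) ((t * Λ) • e)
      (by rw [norm_neg, norm_smul, norm_smul, he, Real.norm_eq_abs, Real.norm_eq_abs, abs_of_pos hp,
            abs_of_pos ht0]; linarith)
      (by rw [norm_smul, he, Real.norm_eq_abs, abs_of_pos hp]; linarith [norm_nonneg (Z - X)])
    rw [add_neg_cancel_right, add_assoc, ← add_smul, H.symm _ (E.mem_of_le (by linarith)) Z hZ] at a1
    rw [H.ray_add hZ hC ht0.le (by linarith), pow_succ]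
    linarith [ih (by linarith)]

omit E H in
lemma ev_small (C : ℝ) (hr : 0 < r) : ∀ᶠ ρ in 𝓝[>] (0 : ℝ), 0 < ρ ∧ ρ * C ≤ r := by
  have T : Tendsto (fun t : ℝ => t * C) (𝓝[>] 0) (𝓝 (0 * C)) :=
    (tendsto_id.mono_left nhdsWithin_le_nhds).mul_const C
  rw [zero_mul] at T
  filter_upwards [T.eventually (ge_mem_nhds hr), self_mem_nhdsWithin] with ρ h1 h2
  exact ⟨h2, h1⟩

omit E H in
lemma norm_scaled {ρ R : ℝ} (hρ : 0 < ρ) {a : ℂ} (ha : ‖a‖ ≤ R) : ‖X + ρ • a - X‖ ≤ ρ * R := by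
  rw [add_sub_cancel_left, norm_smul, Real.norm_eq_abs, abs_of_pos hρ]
  exact mul_le_mul_of_nonneg_left ha hρ.le

lemma cmp {R s : ℝ} (hR : 0 < R) (hs : 0 < s) : ∃ C : ℝ, 0 < C ∧ ∀ᶠ ρ in 𝓝[>] (0 : ℝ),
    ∀ a b a' b' : ℂ, ‖a‖ ≤ R → ‖b‖ ≤ R → ‖a'‖ ≤ R → ‖b'‖ ≤ R → s ≤ ‖b' - a'‖ →
      d (X + ρ • a) (X + ρ • b) ≤ C * d (X + ρ • a') (X + ρ • b') := by
  have hΛ : 0 < Λ := lt_of_lt_of_le one_pos E.one_le
  have hΛ' : 0 < Λ⁻¹ := inv_pos.2 hΛ
  obtain ⟨k, hk⟩ := pow_unbounded_of_one_lt (Λ * (2 * R) / s) (show 1 < 1 + Λ⁻¹ by linarith)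
  rw [div_lt_iff₀ hs] at hk
  refine ⟨2 * 2 ^ k, by positivity, ?_⟩
  filter_upwards [ev_small (R + 2 * R * (1 + Λ⁻¹) ^ k) E.rpos] with ρ ⟨hρ, hρr⟩ a b a' b' ha hb ha' hb' hab
  have hpk : 0 < (1 + Λ⁻¹) ^ k := by positivity
  have hn : 0 < ‖b' - a'‖ := lt_of_lt_of_le hs hab
  have hn2 : ‖b' - a'‖ ≤ 2 * R := (norm_sub_le _ _).trans (by linarith)
  set e := ‖b' - a'‖⁻¹ • (b' - a') with he
  have he1 : ‖e‖ = 1 := by simp [he, norm_smul, hn.ne']
  have z1 := norm_scaled (X := X) hρ ha'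
  have l1 : ρ * ‖b' - a'‖ * (1 + Λ⁻¹) ^ k ≤ ρ * (2 * R * (1 + Λ⁻¹) ^ k) := by
    rw [mul_assoc]; gcongr
  have hρR : 0 < ρ * R := by positivity
  have g := E.grow_up H (Z := X + ρ • a') he1 (l := ρ * ‖b' - a'‖) (by positivity) k (by linarith)
  have e1 : X + ρ • a' + (ρ * ‖b' - a'‖) • e = X + ρ • b' := by
    rw [he, smul_smul, mul_assoc, mul_inv_cancel₀ hn.ne', mul_one]; module
  rw [e1] at g
  have l0 : 0 < ρ * (2 * R * (1 + Λ⁻¹) ^ k) := by positivity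
  have key : ∀ c : ℂ, ‖c‖ ≤ R → d (X + ρ • a') (X + ρ • c) ≤ 2 ^ k * d (X + ρ • a') (X + ρ • b') := by
    intro c hc
    refine le_trans ?_ g
    have e2 : X + ρ • c = X + ρ • a' + ρ • (c - a') := by module
    rw [e2]
    have hl : 0 < ρ * ‖b' - a'‖ * (1 + Λ⁻¹) ^ k := by positivity
    apply E.le _ (by rw [mem_closedBall_iff_norm]; linarith)
    · rw [norm_smul, norm_smul, he1, Real.norm_eq_abs, Real.norm_eq_abs, abs_of_pos hρ, abs_of_pos hl,
        mul_one]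
      have : ‖c - a'‖ ≤ 2 * R := (norm_sub_le _ _).trans (by linarith)
      calc Λ * (ρ * ‖c - a'‖) ≤ Λ * (ρ * (2 * R)) := by gcongr
        _ = ρ * (Λ * (2 * R)) := by ring
        _ ≤ ρ * ((1 + Λ⁻¹) ^ k * s) := by gcongr
        _ ≤ ρ * ((1 + Λ⁻¹) ^ k * ‖b' - a'‖) := by gcongr
        _ = _ := by ring
    · rw [norm_smul, he1, Real.norm_eq_abs, abs_of_pos hl, mul_one]; linarith
  have m1 := E.mem_of_le ((norm_scaled (X := X) hρ ha).trans (by linarith))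
  have m2 := E.mem_of_le ((norm_scaled (X := X) hρ hb).trans (by linarith))
  have m3 := E.mem_of_le (z1.trans (by linarith))
  have t := H.tri _ m1 _ m3 _ m2
  rw [H.symm _ m1 _ m3] at t
  linarith [key a ha, key b hb]

lemma equi {R ε : ℝ} (hR : 0 < R) (hε : 0 < ε) : ∃ s : ℝ, 0 < s ∧ ∀ᶠ ρ in 𝓝[>] (0 : ℝ),
    ∀ a b : ℂ, ‖a‖ ≤ R → ‖b - a‖ ≤ s → d (X + ρ • a) (X + ρ • b) ≤ ε * d X (X + ρ • (1 : ℂ)) := by
  have hΛ : 0 < Λ := lt_of_lt_of_le one_pos E.one_le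
  obtain ⟨C, hC, hc⟩ := E.cmp H (R := R + 1) (s := 1) (by linarith) one_pos
  obtain ⟨k, hk⟩ := pow_unbounded_of_one_lt (C / ε) (show (1 : ℝ) < 2 by norm_num)
  rw [div_lt_iff₀ hε] at hk
  have hpk : 1 ≤ (1 + Λ) ^ k := one_le_pow₀ (by linarith)
  refine ⟨(Λ * (1 + Λ) ^ k)⁻¹, by positivity, ?_⟩
  filter_upwards [hc, ev_small (R + 1) E.rpos] with ρ h1 ⟨hρ, hρr⟩ a b ha hab
  have z1 := norm_scaled (X := X) hρ ha
  set l := ρ * ((1 + Λ) ^ k)⁻¹ with hl
  have hl0 : 0 < l := by positivity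
  have e0 : l * (1 + Λ) ^ k = ρ := by rw [hl]; field_simp
  have hlρ : l ≤ ρ := by nlinarith
  have hρR : 0 < ρ * R := by positivity
  have g := E.grow_down H (Z := X + ρ • a) (e := 1) (by simp) hl0 k (by rw [e0]; linarith)
  rw [e0] at g
  have a1 := h1 a (a + 1) 0 1 (by linarith) ((norm_add_le _ _).trans (by simp; linarith))
    (by simp; linarith) (by simp; linarith) (by simp)
  rw [smul_add, ← add_assoc, smul_zero, add_zero] at a1
  have a2 := E.le (X + ρ • a) (by rw [mem_closedBall_iff_norm]; linarith) (ρ • (b - a)) (l • (1 : ℂ))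
    (by rw [norm_smul, norm_smul, Real.norm_eq_abs, Real.norm_eq_abs, abs_of_pos hρ, abs_of_pos hl0,
          norm_one, mul_one]
        calc Λ * (ρ * ‖b - a‖) ≤ Λ * (ρ * (Λ * (1 + Λ) ^ k)⁻¹) := by gcongr
          _ = l := by rw [hl]; field_simp)
    (by rw [norm_smul, Real.norm_eq_abs, abs_of_pos hl0, norm_one]; linarith)
  have e2 : X + ρ • a + ρ • (b - a) = X + ρ • b := by module
  rw [e2] at a2
  have m0 : 0 ≤ d X (X + ρ • (1 : ℂ)) := H.nonneg E.center_mem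
    (E.mem_of_le ((norm_scaled (X := X) hρ (R := 1) (by simp)).trans (by linarith)))
  have a3 : 2 ^ k * d (X + ρ • a) (X + ρ • b) ≤ 2 ^ k * (ε * d X (X + ρ • (1 : ℂ))) := by
    have : (0 : ℝ) < 2 ^ k := by positivity
    nlinarith
  exact le_of_mul_le_mul_left a3 (by positivity)

end Ecc

end Pool.Agent.P.MP_ec5bc9_gt.H13
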