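import Pool.Agent.P.MP_ec5bc9_gt.A4

/-! The blow-up of the metric at a point is a norm. -/

set_option autoImplicit false

namespace Pool.Agent.P.MP_ec5bc9_gt.H13

open Set Filter Topology

attribute [-simp] Complex.real_smul

/-- the ultrafilter along which all blow-ups are taken -/
noncomputable def UU : Ultrafilter ℝ := Ultrafilter.of (𝓝[>] (0 : ℝ))

lemma UU_le : (UU : Filter ℝ) ≤ 𝓝[>] 0 := Ultrafilter.of_le _

lemma UU_pos : ∀ᶠ ρ in (UU : Filter ℝ), 0 < ρ :=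
  (eventually_mem_nhdsWithin (s := Ioi (0 : ℝ)) (a := 0)).filter_mono UU_le

lemma UU_tendsto {f : ℝ → ℂ} {a : ℂ} (X : ℂ) (hf : Tendsto f UU (𝓝 a)) :
    Tendsto (fun ρ : ℝ => X + ρ • f ρ) UU (𝓝 X) := by
  have T : Tendsto (fun ρ : ℝ => ρ) UU (𝓝 0) := tendsto_id.mono_left (UU_le.trans nhdsWithin_le_nhds)
  have := (T.smul hf).const_add X
  simpa using this

noncomputable def sc (d : ℂ → ℂ → ℝ) (X : ℂ) (ρ : ℝ) (a b : ℂ) : ℝ :=
  d (X + ρ • a) (X + ρ • b) / d X (X + ρ • (1 : ℂ))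

noncomputable def bl (d : ℂ → ℂ → ℝ) (X a b : ℂ) : ℝ := limUnder (UU : Filter ℝ) fun ρ => sc d X ρ a b

namespace Ecc
variable {M : Set ℂ} {d : ℂ → ℂ → ℝ} {X : ℂ} {r Λ : ℝ} (E : Ecc M d X r Λ) (H : PM0 M d)
include E H

lemma ev_mem {f : ℝ → ℂ} {a : ℂ} (hf : Tendsto f UU (𝓝 a)) : ∀ᶠ ρ in (UU : Filter ℝ), X + ρ • f ρ ∈ M :=
  H.eventually_mem E.center_mem (UU_tendsto X hf)

lemma ev_mem' (a : ℂ) : ∀ᶠ ρ in (UU : Filter ℝ), X + ρ • a ∈ M := E.ev_mem H tendsto_const_nhds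

lemma m_pos : ∀ᶠ ρ in (UU : Filter ℝ), 0 < d X (X + ρ • (1 : ℂ)) := by
  filter_upwards [E.ev_mem' H 1, UU_pos] with ρ h1 h2
  have := H.ray_strict E.center_mem h1 le_rfl h2 one_ne_zero
  simpa [H.refl X E.center_mem] using this

lemma tendsto_sc (a b : ℂ) : Tendsto (fun ρ => sc d X ρ a b) UU (𝓝 (bl d X a b)) := by
  obtain ⟨C, hC, hc⟩ := E.cmp H (R := ‖a‖ + ‖b‖ + 1) (s := 1) (by positivity) one_pos
  apply tendsto_nhds_limUnder
  obtain ⟨x, -, hx⟩ := ultra_lim UU (isCompact_Icc (a := 0) (b := C)) (f := fun ρ => sc d X ρ a b) (by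
    filter_upwards [hc.filter_mono UU_le, E.m_pos H, E.ev_mem' H a, E.ev_mem' H b] with ρ h1 h2 h3 h4
    have := h1 a b 0 1 (by linarith [norm_nonneg b]) (by linarith [norm_nonneg a])
      (by simp; positivity) (by simp; positivity) (by simp)
    rw [smul_zero, add_zero] at this
    exact ⟨div_nonneg (H.nonneg h3 h4) h2.le, (div_le_iff₀ h2).2 this⟩)
  exact ⟨x, hx⟩

lemma sc_small {f : ℝ → ℂ} {a : ℂ} (hf : Tendsto f UU (𝓝 a)) :
    Tendsto (fun ρ => sc d X ρ a (f ρ)) UU (𝓝 0) := by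
  rw [Metric.tendsto_nhds]
  intro ε hε
  obtain ⟨s, hs, h⟩ := E.equi H (R := ‖a‖ + 1) (ε := ε / 2) (by positivity) (by linarith)
  filter_upwards [h.filter_mono UU_le, E.m_pos H, E.ev_mem' H a, E.ev_mem H hf,
    (Metric.tendsto_nhds.1 hf) s hs] with ρ h1 h2 h3 h4 h5
  rw [dist_eq_norm] at h5
  have := h1 a (f ρ) (by linarith) h5.le
  rw [Real.dist_eq, sub_zero, sc, abs_of_nonneg (div_nonneg (H.nonneg h3 h4) h2.le), div_lt_iff₀ h2]
  nlinarith

lemma tendsto_sc' {f g : ℝ → ℂ} {a b : ℂ} (hf : Tendsto f UU (𝓝 a)) (hg : Tendsto g UU (𝓝 b)) :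
    Tendsto (fun ρ => sc d X ρ (f ρ) (g ρ)) UU (𝓝 (bl d X a b)) := by
  have T1 := ((E.tendsto_sc H a b).add (E.sc_small H hf)).add (E.sc_small H hg)
  have T2 := ((E.tendsto_sc H a b).sub (E.sc_small H hf)).sub (E.sc_small H hg)
  simp only [add_zero, sub_zero] at T1 T2
  apply tendsto_of_tendsto_of_tendsto_of_le_of_le' T2 T1
  · filter_upwards [E.m_pos H, E.ev_mem' H a, E.ev_mem' H b, E.ev_mem H hf, E.ev_mem H hg]
      with ρ h1 h2 h3 h4 h5
    simp only [sc]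
    rw [← sub_div, ← sub_div]
    apply div_le_div_of_nonneg_right _ h1.le
    linarith [H.tri _ h2 _ h4 _ h3, H.tri _ h4 _ h5 _ h3, H.symm _ h5 _ h3]
  · filter_upwards [E.m_pos H, E.ev_mem' H a, E.ev_mem' H b, E.ev_mem H hf, E.ev_mem H hg]
      with ρ h1 h2 h3 h4 h5
    simp only [sc]
    rw [← add_div, ← add_div]
    apply div_le_div_of_nonneg_right _ h1.le
    linarith [H.tri _ h4 _ h2 _ h5, H.tri _ h2 _ h3 _ h5, H.symm _ h4 _ h2]

lemma bl_le {f g f' g' : ℝ → ℂ} {a b a' b' : ℂ} (hf : Tendsto f UU (𝓝 a)) (hg : Tendsto g UU (𝓝 b))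
    (hf' : Tendsto f' UU (𝓝 a')) (hg' : Tendsto g' UU (𝓝 b'))
    (h : ∀ᶠ ρ in (UU : Filter ℝ), d (X + ρ • f ρ) (X + ρ • g ρ) ≤ d (X + ρ • f' ρ) (X + ρ • g' ρ)) :
    bl d X a b ≤ bl d X a' b' := by
  apply le_of_tendsto_of_tendsto (E.tendsto_sc' H hf hg) (E.tendsto_sc' H hf' hg')
  filter_upwards [h, E.m_pos H] with ρ h1 h2
  exact div_le_div_of_nonneg_right h1 h2.le

lemma lt_of_bl {f g f' g' : ℝ → ℂ} {a b a' b' : ℂ} (hf : Tendsto f UU (𝓝 a)) (hg : Tendsto g UU (𝓝 b))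
    (hf' : Tendsto f' UU (𝓝 a')) (hg' : Tendsto g' UU (𝓝 b')) (h : bl d X a b < bl d X a' b') :
    ∀ᶠ ρ in (UU : Filter ℝ), d (X + ρ • f ρ) (X + ρ • g ρ) < d (X + ρ • f' ρ) (X + ρ • g' ρ) := by
  filter_upwards [(E.tendsto_sc' H hf hg).eventually_lt (E.tendsto_sc' H hf' hg') h, E.m_pos H]
    with ρ h1 h2
  exact (div_lt_div_iff_of_pos_right h2).1 h1

lemma bl_pm0 : PM0 univ (bl d X) := by
  have hrefl : ∀ a, bl d X a a = 0 := fun a =>
    tendsto_nhds_unique (E.tendsto_sc H a a) (E.sc_small H tendsto_const_nhds)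
  have hsymm : ∀ a b, bl d X a b = bl d X b a := by
    intro a b
    apply tendsto_nhds_unique (E.tendsto_sc H a b) ((E.tendsto_sc H b a).congr' _)
    filter_upwards [E.ev_mem' H a, E.ev_mem' H b] with ρ h1 h2
    simp only [sc, H.symm _ h1 _ h2]
  have htri : ∀ a b c, bl d X a c ≤ bl d X a b + bl d X b c := by
    intro a b c
    apply le_of_tendsto_of_tendsto (E.tendsto_sc H a c) ((E.tendsto_sc H a b).add (E.tendsto_sc H b c))
    filter_upwards [E.ev_mem' H a, E.ev_mem' H b, E.ev_mem' H c, E.m_pos H] with ρ h1 h2 h3 h4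
    simp only [sc]; rw [← add_div]
    exact div_le_div_of_nonneg_right (H.tri _ h1 _ h2 _ h3) h4.le
  have hsmall : ∀ a : ℂ, ∀ ε : ℝ, 0 < ε → ∀ᶠ b in 𝓝 a, bl d X a b ≤ ε := by
    intro a ε hε
    obtain ⟨s, hs, h⟩ := E.equi H (R := ‖a‖ + 1) (ε := ε) (by positivity) hε
    filter_upwards [Metric.closedBall_mem_nhds a hs] with b hb
    apply le_of_tendsto (E.tendsto_sc H a b)
    filter_upwards [h.filter_mono UU_le, E.m_pos H] with ρ h1 h2
    exact (div_le_iff₀ h2).2 (h1 a b (by linarith) (mem_closedBall_iff_norm.1 hb))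
  refine ⟨isOpen_univ, convex_univ, fun a _ => hrefl a, ?_, fun a _ b _ => hsymm a b,
    fun a _ b _ c _ => htri a b c, ?_, ?_⟩
  · intro a _ b _ hab
    obtain ⟨C, hC, hc⟩ := E.cmp H (R := ‖a‖ + ‖b‖ + 1) (s := ‖b - a‖) (by positivity)
      (norm_pos_iff.2 (sub_ne_zero.2 hab.symm))
    refine lt_of_lt_of_le (inv_pos.2 hC) (ge_of_tendsto (E.tendsto_sc H a b) ?_)
    filter_upwards [hc.filter_mono UU_le, E.m_pos H] with ρ h1 h2
    have := h1 0 1 a b (by simp; positivity) (by simp; positivity) (by linarith [norm_nonneg b])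
      (by linarith [norm_nonneg a]) le_rfl
    rw [smul_zero, add_zero] at this
    rw [sc, le_div_iff₀ h2, inv_mul_le_iff₀ hC]; exact this
  · intro a _ c _ t ht
    apply tendsto_nhds_unique (E.tendsto_sc H a c)
      (((E.tendsto_sc H a (a + t • (c - a))).add (E.tendsto_sc H (a + t • (c - a)) c)).congr' _)
    filter_upwards [E.ev_mem' H a, E.ev_mem' H c] with ρ h1 h2
    have e : X + ρ • (a + t • (c - a)) = X + ρ • a + t • (X + ρ • c - (X + ρ • a)) := by module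
    simp only [sc]; rw [← add_div, e, ← H.add _ h1 _ h2 t ht]
  · apply Continuous.continuousOn
    rw [continuous_iff_continuousAt]
    rintro ⟨a, b⟩
    rw [ContinuousAt, Metric.tendsto_nhds]
    intro ε hε
    have h1 := (continuous_fst.tendsto (a, b)).eventually (hsmall a (ε / 3) (by linarith))
    have h2 := (continuous_snd.tendsto (a, b)).eventually (hsmall b (ε / 3) (by linarith))
    filter_upwards [h1, h2] with p p1 p2
    rw [Real.dist_eq, abs_lt]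
    constructor
    · linarith [htri a p.1 b, htri p.1 p.2 b, hsymm p.2 b]
    · linarith [htri p.1 a p.2, htri a b p.2, hsymm p.1 a]

end Ecc

namespace PM
variable {M : Set ℂ} {d : ℂ → ℂ → ℝ} (H : PM M d) {X : ℂ} {r Λ : ℝ} (E : Ecc M d X r Λ)
include H E

lemma tendsto_nu_bl (Y : ℂ) {w : ℂ} (hw : w ≠ 0) :
    Tendsto (fun ρ : ℝ => nu M d (X + ρ • Y) w) UU (𝓝 (nu M d X w)) :=
  H.tendsto_nu E.center_mem hw (UU_tendsto X tendsto_const_nhds) tendsto_const_nhds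

lemma ev_foot (Y : ℂ) {w : ℂ} (hw : w ≠ 0) {t : ℝ} (ht : 0 ≤ t) : ∀ᶠ ρ in (UU : Filter ℝ),
    Foot M d (X + ρ • (Y + t • nu M d (X + ρ • Y) w)) (X + ρ • Y) w := by
  filter_upwards [E.ev_mem H.toPM0 (((H.tendsto_nu_bl E Y hw).const_smul t).const_add Y),
    E.ev_mem' H.toPM0 Y, UU_pos] with ρ h1 h2 h3
  have e : X + ρ • (Y + t • nu M d (X + ρ • Y) w) = X + ρ • Y + (ρ * t) • nu M d (X + ρ • Y) w := by
    module
  rw [e] at h1 ⊢
  exact H.nu_perp h2 hw _ (by positivity) h1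

lemma bl_foot (Y : ℂ) {w : ℂ} (hw : w ≠ 0) {t : ℝ} (ht : 0 ≤ t) (s : ℝ) :
    bl d X (Y + t • nu M d X w) Y ≤ bl d X (Y + t • nu M d X w) (Y + s • w) := by
  have T := ((H.tendsto_nu_bl E Y hw).const_smul t).const_add Y
  apply E.bl_le H.toPM0 T tendsto_const_nhds T tendsto_const_nhds
  filter_upwards [H.ev_foot E Y hw ht, E.ev_mem' H.toPM0 (Y + s • w)] with ρ h1 h2
  have e : X + ρ • (Y + s • w) = X + ρ • Y + (ρ * s) • w := by module
  rw [e] at h2 ⊢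
  exact h1 _ h2

lemma bl_norm : ∃ N : ℂ → ℝ, (∀ (c : ℝ) (v : ℂ), 0 ≤ c → N (c • v) = c * N v) ∧
    ∀ a b, bl d X a b = N (b - a) := by
  obtain ⟨α, hα, -, h⟩ := H.nu_transversal (isCompact_singleton (x := X)) (by simpa using E.center_mem)
  have hex : ∀ v : ℂ, ∃ w : ℂ, v ≠ 0 → w ≠ 0 ∧ nu M d X w = -(‖v‖⁻¹ • v) := by
    intro v
    by_cases hv : v = 0
    · exact ⟨0, fun h => absurd hv h⟩
    · obtain ⟨w, h1, h2⟩ := H.nu_surj E.center_mem (e := -(‖v‖⁻¹ • v))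
        (by simp [norm_smul, norm_ne_zero_iff.2 hv])
      exact ⟨w, fun _ => ⟨h1, h2⟩⟩
  choose W hW using hex
  have D : Dir univ (bl d X) α W := by
    refine ⟨hα, fun v hv => (hW v hv).1, fun v hv => ?_, fun Z _ v hv c hc _ s _ => ?_⟩
    · have hn : 0 < ‖v‖ := norm_pos_iff.2 hv
      have := h X rfl (W v) (hW v hv).1
      rw [(hW v hv).2, cr_neg_r, cr_smul_r, ← mul_neg, ← div_eq_inv_mul, le_div_iff₀ hn] at this
      exact this.trans (neg_le_abs _)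
    · have hn : 0 < ‖v‖ := norm_pos_iff.2 hv
      have := H.bl_foot E (Z + c • v) (hW v hv).1 (t := c * ‖v‖) (by positivity) s
      have e : Z + c • v + (c * ‖v‖) • nu M d X (W v) = Z := by
        rw [(hW v hv).2, smul_neg, smul_smul, mul_assoc, mul_inv_cancel₀ hn.ne', mul_one]; abel
      rwa [e] at this
  obtain ⟨N, h1, h2⟩ := D.minkowski (E.bl_pm0 H.toPM0) univ_nonempty
  exact ⟨N, h1, fun a b => h2 a trivial b trivial⟩

end PM

end Pool.Agent.P.MP_ec5bc9_gt.H13
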