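import Pool.Agent.P.MP_ec5bc9_gt.A5

/-! The blow-up norm is Euclidean, and the reflection law for the parabolas. -/

set_option autoImplicit false

namespace Pool.Agent.P.MP_ec5bc9_gt.H13

open Set Filter Topology

attribute [-simp] Complex.real_smul

def Tm (A B v : ℂ) : ℂ := ⟨dot A v, dot B v⟩

@[simp] lemma Tm_add (A B v v' : ℂ) : Tm A B (v + v') = Tm A B v + Tm A B v' := by
  apply Complex.ext <;> simp [Tm]
@[simp] lemma Tm_sub (A B v v' : ℂ) : Tm A B (v - v') = Tm A B v - Tm A B v' := by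
  apply Complex.ext <;> simp [Tm]
@[simp] lemma Tm_neg (A B v : ℂ) : Tm A B (-v) = -Tm A B v := by
  apply Complex.ext <;> simp [Tm]
@[simp] lemma Tm_smul (A B v : ℂ) (t : ℝ) : Tm A B (t • v) = t • Tm A B v := by
  apply Complex.ext <;> simp [Tm, Complex.smul_re, Complex.smul_im]
@[simp] lemma Tm_zero (A B : ℂ) : Tm A B 0 = 0 := by
  apply Complex.ext <;> simp [Tm]
lemma Tm_sq (A B v : ℂ) : ‖Tm A B v‖ ^ 2 = (dot A v) ^ 2 + (dot B v) ^ 2 := by
  rw [← dot_self]; simp only [Tm, dot]; ring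

lemma norm_sq_add (a b : ℂ) : ‖a + b‖ ^ 2 = ‖a‖ ^ 2 + 2 * dot a b + ‖b‖ ^ 2 := by
  simp only [← dot_self, dot_add_l, dot_add_r, dot_comm b a]; ring

/-- algebra: a norm whose parabolic conic lies on a limit of parabolas is Euclidean -/
lemma euclid_of_quad {N : ℂ → ℝ} (hN : ∀ (c : ℝ) (v : ℂ), 0 ≤ c → N (c • v) = c * N v)
    (hneg : ∀ v, N (-v) = N v) (hpos : ∀ v, v ≠ 0 → 0 < N v) (htri : ∀ a b, N (a + b) ≤ N a + N b)
    {B w u L O : ℂ} {K : ℝ} (hc : cr w u ≠ 0) (hBw : dot B w = 0) (hBu : dot B u = N u)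
    (h0 : ¬ (L = 0 ∧ O = 0 ∧ K = 0))
    (h1 : ∀ z, N z < dot B z + 1 → qf L O K z ≤ 0)
    (h2 : ∀ z, 0 ≤ dot B z + 1 → dot B z + 1 < N z → 0 ≤ qf L O K z) :
    ∃ A : ℂ, ∀ v, N v = ‖Tm A B v‖ := by
  have hN0 : N 0 = 0 := by simpa using hN 0 0 le_rfl
  have hw : w ≠ 0 := by rintro rfl; simp at hc
  have hu : u ≠ 0 := by rintro rfl; simp at hc
  have hK : K < 0 := by
    have a := h1 0 (by simp [hN0])
    simp only [qf, dot_zero_r, ne_eq, OfNat.ofNat_ne_zero, not_false_eq_true, zero_pow, zero_add] at a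
    refine lt_of_le_of_ne a fun hK => h0 ?_
    have key : ∀ z, dot L z = 0 ∧ dot O z = 0 := by
      intro z
      have T : Tendsto (fun t : ℝ => t * (N z + |dot B z|)) (𝓝[>] 0) (𝓝 (0 * (N z + |dot B z|))) :=
        (tendsto_id.mono_left nhdsWithin_le_nhds).mul_const _
      rw [zero_mul] at T
      obtain ⟨t, t1, t2⟩ := ((T.eventually (gt_mem_nhds one_pos)).and self_mem_nhdsWithin).exists
      have ht : 0 < t := t2
      have b1 := h1 (t • z) (by
        rw [hN t z ht.le, dot_smul_r]; nlinarith [neg_abs_le (dot B z)])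
      have b2 := h1 (t • (-z)) (by
        rw [hN t _ ht.le, hneg, dot_smul_r, dot_neg_r]; nlinarith [le_abs_self (dot B z)])
      simp only [qf, dot_smul_r, dot_neg_r, hK] at b1 b2
      have c1 : (t * dot L z) ^ 2 = 0 := by nlinarith [sq_nonneg (t * dot L z)]
      have c2 : dot L z = 0 :=
        (mul_eq_zero.1 (pow_eq_zero_iff two_ne_zero |>.1 c1)).resolve_left ht.ne'
      refine ⟨c2, ?_⟩
      rw [c2] at b1 b2
      have : t * dot O z = 0 := by nlinarith
      exact (mul_eq_zero.1 this).resolve_left ht.ne'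
    exact ⟨eq_zero_of_dot hc (key w).1 (key u).1, eq_zero_of_dot hc (key w).2 (key u).2, hK⟩
  have curve : ∀ z, z ≠ 0 → 0 < N z - dot B z →
      (dot L z) ^ 2 + dot O z * (N z - dot B z) + K * (N z - dot B z) ^ 2 = 0 := by
    intro z hz hn
    set n := N z - dot B z with hnd
    have hc' : Continuous fun t : ℝ => qf L O K (t • z) := by unfold qf; fun_prop
    have a1 : qf L O K (n⁻¹ • z) ≤ 0 := by
      apply le_of_tendsto ((hc'.tendsto n⁻¹).mono_left (nhdsWithin_le_nhds (s := Iio n⁻¹)))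
      filter_upwards [self_mem_nhdsWithin, mem_nhdsWithin_of_mem_nhds (lt_mem_nhds (inv_pos.2 hn))]
        with t t1 t2
      apply h1
      have t3 : t * n < 1 := by
        have := mul_lt_mul_of_pos_right (show t < n⁻¹ from t1) hn
        rwa [inv_mul_cancel₀ hn.ne'] at this
      rw [hN t z (le_of_lt t2), dot_smul_r]; rw [hnd] at t3; linarith
    have a2 : 0 ≤ qf L O K (n⁻¹ • z) := by
      apply ge_of_tendsto ((hc'.tendsto n⁻¹).mono_left (nhdsWithin_le_nhds (s := Ioi n⁻¹)))
      have hc2 : Continuous fun t : ℝ => t * dot B z + 1 := by fun_prop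
      have e : 0 < n⁻¹ * dot B z + 1 := by
        have : n⁻¹ * dot B z + 1 = n⁻¹ * N z := by
          have : N z = n + dot B z := by rw [hnd]; ring
          rw [this]; field_simp; ring
        rw [this]; exact mul_pos (inv_pos.2 hn) (hpos z hz)
      filter_upwards [self_mem_nhdsWithin, mem_nhdsWithin_of_mem_nhds
        ((hc2.tendsto n⁻¹).eventually (lt_mem_nhds e))] with t t1 t2
      have t0 : 0 < t := (inv_pos.2 hn).trans t1
      have t3 : 1 < t * n := by
        have := mul_lt_mul_of_pos_right (show n⁻¹ < t from t1) hn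
        rwa [inv_mul_cancel₀ hn.ne'] at this
      apply h2
      · rw [dot_smul_r]; exact le_of_lt t2
      · rw [hN t z t0.le, dot_smul_r]; rw [hnd] at t3; linarith
    have a3 := le_antisymm a1 a2
    simp only [qf, dot_smul_r] at a3
    have : (dot L z) ^ 2 + dot O z * n + K * n ^ 2 =
        n ^ 2 * ((n⁻¹ * dot L z) ^ 2 + n⁻¹ * dot O z + K) := by field_simp
    rw [this, a3, mul_zero]
  have both : ∀ z, z ≠ 0 → |dot B z| < N z → dot O z = 2 * K * dot B z := by
    intro z hz hb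
    obtain ⟨b1, b2⟩ := abs_lt.1 hb
    have c1 := curve z hz (by linarith)
    have c2 := curve (-z) (neg_ne_zero.2 hz) (by rw [hneg, dot_neg_r]; linarith)
    simp only [hneg, dot_neg_r] at c2
    have : N z * (dot O z - 2 * K * dot B z) = 0 := by linear_combination (c1 - c2) / 2
    have := (mul_eq_zero.1 this).resolve_left (hpos z hz).ne'
    linarith
  have hOw : dot O w = 0 := by
    have := both w hw (by rw [hBw]; simpa using hpos w hw)
    rw [this, hBw, mul_zero]
  have hOu : dot O u = 2 * K * N u := by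
    have hNu := hpos u hu
    have hNw := hpos w hw
    set η := N w / (4 * N u) with hη
    have hη0 : 0 < η := by positivity
    have e : η * N u = N w / 4 := by rw [hη]; field_simp
    have hz : w + η • u ≠ 0 := by
      intro h
      have : cr w (w + η • u) = 0 := by rw [h]; simp
      simp [hη0.ne', hc] at this
    have t := htri (w + η • u) (η • (-u))
    have e2 : w + η • u + η • (-u) = w := by module
    rw [e2, hN η _ hη0.le, hneg] at t
    have := both _ hz (by
      rw [dot_add_r, dot_smul_r, hBw, hBu, zero_add, abs_of_pos (by positivity)]; linarith)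
    simp only [dot_add_r, dot_smul_r, hBw, hBu, hOw, zero_add] at this
    apply mul_left_cancel₀ hη0.ne'
    linarith
  have hO : ∀ z, dot O z = 2 * K * dot B z := by
    intro z
    rw [decomp hc z]
    simp only [dot_add_r, dot_smul_r, hOw, hOu, hBw, hBu]; ring
  have half : ∀ z, dot B z ≤ 0 → N z ^ 2 = ((√(-K))⁻¹ * dot L z) ^ 2 + (dot B z) ^ 2 := by
    intro z hz
    by_cases h : z = 0
    · simp [h, hN0]
    have c := curve z h (by linarith [hpos z h])
    rw [hO] at c
    rw [mul_pow, inv_pow, Real.sq_sqrt (by linarith)]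
    have : K ≠ 0 := hK.ne
    field_simp
    linear_combination c
  refine ⟨(√(-K))⁻¹ • L, fun v => ?_⟩
  have hnn : 0 ≤ N v := by
    by_cases h : v = 0
    · rw [h, hN0]
    · exact (hpos v h).le
  rw [← sq_eq_sq₀ hnn (norm_nonneg _), Tm_sq, dot_smul_l]
  rcases le_total (dot B v) 0 with h | h
  · exact half v h
  · have := half (-v) (by simpa using h)
    simp only [hneg, dot_neg_r] at this
    rw [this]; ring

namespace PM
variable {M : Set ℂ} {d : ℂ → ℂ → ℝ} (H : PM M d) {X : ℂ} {r Λ : ℝ} (E : Ecc M d X r Λ)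
include H E

lemma bl_euclid : ∃ A B : ℂ, ∀ a b, bl d X a b = ‖Tm A B (b - a)‖ := by
  obtain ⟨N, hN, hb⟩ := H.bl_norm E
  have D := E.bl_pm0 H.toPM0
  have hX := E.center_mem
  have hneg : ∀ v, N (-v) = N v := fun v => by
    have := D.symm 0 trivial v trivial
    rw [hb, hb] at this; simpa using this.symm
  have hpos : ∀ v, v ≠ 0 → 0 < N v := fun v hv => by
    have := D.pos 0 trivial v trivial hv.symm
    rwa [hb, sub_zero] at this
  have htri : ∀ a b, N (a + b) ≤ N a + N b := fun a b => by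
    have := D.tri 0 trivial a trivial (a + b) trivial
    simpa [hb] using this
  set ν := nu M d X 1 with hν
  have hc : 0 < cr 1 ν := H.nu_cr hX one_ne_zero
  have hν0 : ν ≠ 0 := by rintro h; rw [h] at hc; simp at hc
  have hn0 := hpos ν hν0
  set B : ℂ := (N ν / cr 1 ν) • Complex.I with hB
  have hBz : ∀ z, dot B z = N ν / cr 1 ν * cr 1 z := fun z => by
    rw [hB, dot_smul_l]; simp [dot, cr]
  set u := (N ν)⁻¹ • ν with hu
  have hcu : cr 1 u ≠ 0 := by rw [hu, cr_smul_r]; positivity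
  obtain ⟨P, hP⟩ := H.choose_par X 1 u hX hcu
  have hP' := hP.filter_mono UU_le
  obtain ⟨L, O, K, h0, hQ⟩ := par_limit UU P X (fun ρ => ρ) (hP'.mono fun ε h => h.2.2.2.ne)
  have foot : ∀ z, ∃ s : ℝ, z - ((dot B z + 1) / N ν) • ν = -u + s • (1 : ℂ) := by
    intro z
    obtain ⟨s, hs⟩ := exists_smul_of_cr (w := 1) (v := z - ((dot B z + 1) / N ν) • ν + u) one_ne_zero (by
      rw [hu, hBz]; simp only [cr_add_r, cr_sub_r, cr_smul_r]; field_simp; ring)
    exact ⟨s, by rw [← hs]; abel⟩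
  obtain ⟨A, hA⟩ := euclid_of_quad hN hneg hpos htri (B := B) (w := 1) (u := ν) hc.ne'
    (by rw [hBz]; simp) (by rw [hBz]; field_simp) h0 (by
      intro z hz
      have hnn : 0 ≤ N z := by
        by_cases h : z = 0
        · rw [h]; simpa using (hN 0 0 le_rfl).ge
        · exact (hpos z h).le
      obtain ⟨s, hs⟩ := foot z
      set t := (dot B z + 1) / N ν with ht
      have ht0 : 0 ≤ t := div_nonneg (by linarith) hn0.le
      set Y := z - t • ν with hY
      have T := ((H.tendsto_nu_bl E Y one_ne_zero).const_smul t).const_add Y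
      have ez : Y + t • nu M d X 1 = z := by rw [hY, ← hν]; abel
      rw [ez] at T
      apply (hQ z _ T).1
      have hlt : bl d X z 0 < bl d X z Y := by
        rw [hb, hb, zero_sub, hneg, hY, sub_sub_cancel_left, hneg, hN t ν ht0, ht,
          div_mul_cancel₀ _ hn0.ne']
        exact hz
      filter_upwards [hP', H.ev_foot E Y one_ne_zero ht0, E.ev_mem H.toPM0 T,
        E.lt_of_bl H.toPM0 T tendsto_const_nhds T tendsto_const_nhds hlt] with ρ ⟨a1, a2, a3, a4⟩ b1 b2 b3
      rw [← H.inside_le a1 hX a2 a3 a4 b2, ff, sub_nonpos]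
      rw [smul_zero, add_zero] at b3
      refine b3.le.trans (PM0.le_dl a1 fun s' hs' => ?_)
      have e : X + (-ρ) • u + s' • (1 : ℂ) = X + ρ • Y + (s' - ρ * s) • (1 : ℂ) := by
        rw [hs]; module
      rw [e] at hs' ⊢
      exact b1 _ hs') (by
      intro z hz0 hz
      obtain ⟨s, hs⟩ := foot z
      set t := (dot B z + 1) / N ν with ht
      have ht0 : 0 ≤ t := div_nonneg hz0 hn0.le
      set Y := z - t • ν with hY
      apply (hQ z (fun _ => z) tendsto_const_nhds).2
      have hlt : bl d X z Y < bl d X z 0 := by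
        rw [hb, hb, zero_sub, hneg, hY, sub_sub_cancel_left, hneg, hN t ν ht0, ht,
          div_mul_cancel₀ _ hn0.ne']
        exact hz
      filter_upwards [hP', E.ev_mem' H.toPM0 z, E.ev_mem' H.toPM0 Y,
        E.lt_of_bl H.toPM0 tendsto_const_nhds tendsto_const_nhds tendsto_const_nhds
          tendsto_const_nhds hlt] with ρ ⟨a1, a2, a3, a4⟩ b1 b2 b3
      apply le_of_lt
      rw [← H.inside_pos a1 hX a2 a3 a4 b1]
      rw [smul_zero, add_zero] at b3
      have e : X + ρ • Y = X + (-ρ) • u + (ρ * s) • (1 : ℂ) := by rw [hs]; module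
      rw [e] at b2 b3
      exact H.ff_pos_of_lt b1 b2 b3)
  exact ⟨A, B, fun a b => by rw [hb, hA]⟩

end PM

lemma big_R {a z : ℂ} (ha : ‖a‖ = 1) {η : ℝ} (hη : 0 < η) :
    ∀ᶠ R in atTop, ‖R • a + z‖ ≤ R + dot a z + η := by
  filter_upwards [eventually_ge_atTop (‖z‖ ^ 2 / (2 * η)), eventually_ge_atTop (|dot a z|),
    eventually_ge_atTop 0] with R h1 h2 h3
  rw [div_le_iff₀ (by positivity)] at h1
  refine (abs_le_of_sq_le_sq' ?_ (by linarith [neg_abs_le (dot a z)])).2
  rw [norm_sq_add, norm_smul, ha, Real.norm_eq_abs, mul_one, sq_abs, dot_smul_l]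
  nlinarith [sq_nonneg (dot a z + η)]

structure Blow (M : Set ℂ) (d : ℂ → ℂ → ℝ) (X : ℂ) (Λ : ℝ) (A B : ℂ) : Prop where
  inj : ∀ v, v ≠ 0 → Tm A B v ≠ 0
  ecc : ∀ v v' : ℂ, Λ * ‖v‖ ≤ ‖v'‖ → ‖Tm A B v‖ ≤ ‖Tm A B v'‖
  perp : ∀ w, w ≠ 0 → dot (Tm A B w) (Tm A B (nu M d X w)) = 0
  refl : ∀ (Y w F : ℂ) (P : Par), Y ∈ M → F ∈ M → cr w (F - Y) ≠ 0 → Cut M d Y w F P → P.q F < 0 →
    ∀ s : ℝ, Y + s • w ∈ M → 0 < cr w (X - (Y + s • w)) → Foot M d X (Y + s • w) w →
    d X F = d X (Y + s • w) →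
    ‖Tm A B (Y + s • w - X)‖ * dot (P.grad X) (F - X) +
      ‖Tm A B (F - X)‖ * dot (P.grad X) (Y + s • w - X) = 0
  lim : ∀ v, Tendsto (fun ρ : ℝ => d X (X + ρ • v) / d X (X + ρ • (1 : ℂ))) UU (𝓝 ‖Tm A B v‖)

lemma dl_shift (M : Set ℂ) (d : ℂ → ℂ → ℝ) (Y w X : ℂ) (s : ℝ) :
    dl M d (Y + s • w) w X = dl M d Y w X := by
  unfold dl
  congr 1
  ext x
  constructor
  · rintro ⟨t, ht, rfl⟩
    have e : Y + s • w + t • w = Y + (s + t) • w := by module
    exact ⟨s + t, by simpa only [mem_ofPred_eq, e] using ht, by simp only [e]⟩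
  · rintro ⟨t, ht, rfl⟩
    have e : Y + s • w + (t - s) • w = Y + t • w := by module
    exact ⟨t - s, by simpa only [mem_ofPred_eq, e] using ht, by simp only [e]⟩

namespace PM
variable {M : Set ℂ} {d : ℂ → ℂ → ℝ} (H : PM M d) {X : ℂ} {r Λ : ℝ} (E : Ecc M d X r Λ)
include H E

theorem blowup : ∃ A B : ℂ, Blow M d X Λ A B := by
  obtain ⟨A, B, hb⟩ := H.bl_euclid E
  have D := E.bl_pm0 H.toPM0
  have hX := E.center_mem
  have hinj : ∀ v, v ≠ 0 → Tm A B v ≠ 0 := fun v hv => by
    have := D.pos 0 trivial v trivial hv.symm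
    rw [hb, sub_zero] at this
    exact norm_pos_iff.1 this
  refine ⟨A, B, hinj, fun v v' h => ?_, fun w hw => ?_, ?_, fun v => ?_⟩
  · have := E.bl_le H.toPM0 (a := 0) (b := v) (a' := 0) (b' := v') tendsto_const_nhds tendsto_const_nhds
      tendsto_const_nhds tendsto_const_nhds (by
        filter_upwards [(Ecc.ev_small ‖v'‖ E.rpos).filter_mono UU_le] with ρ ⟨h1, h2⟩
        rw [smul_zero, add_zero]
        apply E.le X (Metric.mem_closedBall_self E.rpos.le)
        · rw [norm_smul, norm_smul, mul_left_comm]; gcongr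
        · rwa [norm_smul, Real.norm_eq_abs, abs_of_pos h1])
    simpa [hb] using this
  · set a := Tm A B w
    set b := Tm A B (nu M d X w) with hbd
    have ha : 0 < ‖a‖ := norm_pos_iff.2 (hinj w hw)
    have h := H.bl_foot E 0 hw zero_le_one (dot a b / ‖a‖ ^ 2)
    rw [hb, hb] at h
    simp only [one_smul, zero_add, zero_sub, Tm_neg, norm_neg, Tm_sub, Tm_smul] at h
    have h2 := pow_le_pow_left₀ (norm_nonneg _) h 2
    rw [sub_eq_add_neg, norm_sq_add, norm_neg, norm_smul, mul_pow, Real.norm_eq_abs, sq_abs, dot_neg_r,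
      dot_smul_l] at h2
    have e : (dot a b / ‖a‖ ^ 2) ^ 2 * ‖a‖ ^ 2 + 2 * -(dot a b / ‖a‖ ^ 2 * dot a b) =
        -((dot a b) ^ 2 / ‖a‖ ^ 2) := by field_simp; ring
    have h3 : (dot a b) ^ 2 / ‖a‖ ^ 2 ≤ 0 := by linarith
    rw [div_nonpos_iff] at h3
    rcases h3 with ⟨-, h4⟩ | ⟨h4, -⟩
    · exact absurd h4 (not_le.2 (by positivity))
    · exact pow_eq_zero_iff two_ne_zero |>.1 (le_antisymm h4 (sq_nonneg _))
  · intro Y0 w F P hY0 hF hc hP hin s hY hcX hfoot heq
    set Y := Y0 + s • w with hYd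
    have hw : w ≠ 0 := by rintro rfl; simp at hc
    have hYX : Y - X ≠ 0 := by
      intro h; rw [← neg_sub, h] at hcX; simp at hcX
    have hFX : F - X ≠ 0 := by
      intro h
      rw [sub_eq_zero.1 h, H.refl X hX] at heq
      exact (H.pos X hX Y hY (fun e => hYX (sub_eq_zero.2 e.symm))).ne heq
    have hA0 : 0 < ‖Tm A B (F - X)‖ := norm_pos_iff.2 (hinj _ hFX)
    have hB0 : 0 < ‖Tm A B (Y - X)‖ := norm_pos_iff.2 (hinj _ hYX)
    set a := ‖Tm A B (F - X)‖
    set b := ‖Tm A B (Y - X)‖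
    set u := a⁻¹ • (F - X) with hu
    set v := b⁻¹ • (Y - X) with hv
    have hu1 : ‖Tm A B u‖ = 1 := by
      rw [hu, Tm_smul, norm_smul, Real.norm_eq_abs, abs_of_pos (inv_pos.2 hA0)]
      exact inv_mul_cancel₀ hA0.ne'
    have hv1 : ‖Tm A B v‖ = 1 := by
      rw [hv, Tm_smul, norm_smul, Real.norm_eq_abs, abs_of_pos (inv_pos.2 hB0)]
      exact inv_mul_cancel₀ hB0.ne'
    have eF : F = X + a • u := by rw [hu, smul_smul, mul_inv_cancel₀ hA0.ne', one_smul]; abel
    have eY : Y = X + b • v := by rw [hv, smul_smul, mul_inv_cancel₀ hB0.ne', one_smul]; abel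
    have hdl : dl M d Y0 w X = d X Y := by rw [← dl_shift M d Y0 w X s]; exact H.foot_dl hX hY hfoot
    have hq0 : P.q X = 0 := (hP X hX).1 (by rw [hdl, heq])
    have hXe := H.foot_eq hY hX hcX hfoot
    have huv : u - v ≠ 0 := by
      intro h
      have h' : u = v := sub_eq_zero.1 h
      have hu0 : u ≠ 0 := by rintro h; rw [h] at hu1; simp at hu1
      have hab : a = b := by
        rcases lt_trichotomy a b with h1 | h1 | h1
        · have := H.ray_strict hX (v := u) (by rw [h', ← eY]; exact hY) hA0.le h1 hu0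
          rw [← eF, h', ← eY] at this; linarith
        · exact h1
        · have := H.ray_strict hX (v := u) (by rw [← eF]; exact hF) hB0.le h1 hu0
          rw [← eF, h', ← eY] at this; linarith
      apply hc
      rw [eF, hab, h', ← eY, hYd]; simp
    have key : ∀ z, 0 < dot (Tm A B u - Tm A B v) (Tm A B z) → dot (P.grad X) z ≤ 0 := by
      intro z hz
      set η := dot (Tm A B u - Tm A B v) (Tm A B z) / 4 with hη
      have hη0 : 0 < η := by positivity
      obtain ⟨R, R1, R2, R3⟩ := ((big_R (z := -Tm A B z) hu1 hη0).and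
        ((big_R (z := Tm A B z) hv1 hη0).and (eventually_gt_atTop 0))).exists
      have T := (((E.tendsto_sc H.toPM0 z (R • u)).sub (E.tendsto_sc H.toPM0 0 (R • u))).add
        (E.tendsto_sc H.toPM0 (-(R • v)) z)).sub (E.tendsto_sc H.toPM0 0 (-(R • v)))
      have hlt : bl d X z (R • u) - bl d X 0 (R • u) + bl d X (-(R • v)) z - bl d X 0 (-(R • v)) < 0 := by
        rw [hb, hb, hb, hb]
        simp only [sub_zero, Tm_sub, Tm_neg, Tm_smul, norm_neg, norm_smul, hu1, hv1, Real.norm_eq_abs,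
          abs_of_pos R3, sub_neg_eq_add, Tm_add, mul_one]
        rw [add_comm (Tm A B z), sub_eq_add_neg (R • Tm A B u)]
        rw [dot_sub_l] at hη
        rw [dot_neg_r] at R1
        linarith
      obtain ⟨ρ, c1, c2, c3, c4, ⟨c5, c6⟩⟩ := ((T.eventually (gt_mem_nhds hlt)).and ((E.m_pos H.toPM0).and
        ((E.ev_mem' H.toPM0 z).and ((E.ev_mem' H.toPM0 (-(R • v))).and
          ((Ecc.ev_small R hA0).filter_mono UU_le))))).exists
      simp only [sc, smul_zero, add_zero] at c1
      rw [← sub_div, ← add_div, ← sub_div, div_neg_iff] at c1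
      have c7 := (c1.resolve_left fun h => absurd h.2 (not_lt.2 c2.le)).1
      rw [smul_smul] at c7
      have f1 := H.ray_add hX (v := u) (eF ▸ hF) (s := ρ * R) (by positivity) c6
      rw [← eF] at f1
      have m1 := H.ray_mem hX (v := u) (eF ▸ hF) (s := ρ * R) (by positivity) c6
      have f2 := H.tri _ c3 _ m1 _ hF
      have f3 := H.dl_lip (w := w) hY0 c4 c3
      have e1 : X + ρ • (-(R • v)) = Y + (1 + ρ * R * b⁻¹) • (X - Y) := by rw [hv]; module
      have e2 : X + ρ • (-(R • v)) = Y + ((1 + ρ * R * b⁻¹) * ‖X - Y‖) • nu M d Y w := by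
        rw [e1, ← smul_smul]; congr 2; rw [sub_eq_iff_eq_add']; exact hXe
      have f4 : dl M d Y0 w (X + ρ • (-(R • v))) = d (X + ρ • (-(R • v))) Y := by
        rw [← dl_shift M d Y0 w _ s]
        apply H.foot_dl c4 hY
        rw [e2] at c4 ⊢
        exact H.nu_perp hY hw _ (by positivity) c4
      have f5 := H.ray_add hY (e1 ▸ c4) zero_le_one (le_add_of_nonneg_right (by positivity))
      rw [← e1, one_smul, add_sub_cancel, H.symm Y hY _ c4, H.symm Y hY X hX] at f5
      have f6 : ff M d Y0 w F (X + ρ • z) < 0 := by simp only [ff]; linarith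
      have f7 := (H.inside_lt hY0 hF hc hP hin c3).1 f6
      rw [P.q_ray, hq0] at f7
      by_contra hcon
      rw [not_le] at hcon
      nlinarith [mul_pos c5 hcon, sq_nonneg (ρ * dot P.l z)]
    have hpos : 0 < dot (Tm A B u - Tm A B v) (Tm A B (u - v)) := by
      rw [← Tm_sub, dot_self]; exact pow_pos (norm_pos_iff.2 (hinj _ huv)) 2
    have hzero : dot (Tm A B u - Tm A B v) (Tm A B (u + v)) = 0 := by
      simp only [Tm_add, dot_sub_l, dot_add_r, dot_self, hu1, hv1, dot_comm (Tm A B v) (Tm A B u)]; ring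
    have lim : ∀ z, dot (Tm A B u - Tm A B v) (Tm A B z) = 0 → dot (P.grad X) z ≤ 0 := by
      intro z hz
      apply le_of_tendsto (tendsto_dot tendsto_const_nhds (small_r z (u - v)))
      filter_upwards [self_mem_nhdsWithin] with t ht
      apply key
      rw [Tm_add, Tm_smul A B (u - v), dot_add_r, dot_smul_r _ (Tm A B (u - v)), hz, zero_add]
      exact mul_pos ht hpos
    have g1 := lim _ hzero
    have g2 := lim (-(u + v)) (by rw [Tm_neg, dot_neg_r, hzero, neg_zero])
    rw [dot_neg_r] at g2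
    have g3 : dot (P.grad X) (u + v) = 0 := by linarith
    rw [hu, hv, dot_add_r, dot_smul_r, dot_smul_r] at g3
    field_simp at g3
    linarith
  · have := E.tendsto_sc H.toPM0 0 v
    simpa [hb, sc] using this

end PM

end Pool.Agent.P.MP_ec5bc9_gt.H13
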