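import Pool.Agent.P.MP_ec5bc9_gt.A6

/-! Thin parabolas: the perpendiculars to a line are parallel. -/

set_option autoImplicit false

namespace Pool.Agent.P.MP_ec5bc9_gt.H13

open Set Filter Topology

attribute [-simp] Complex.real_smul

lemma thin_alg {σ h η a1 a2 c1 c2 f W x s : ℝ} (hσ : 0 < σ) (h0 : 0 < h) (hh : h ≤ η * σ)
    (hη : η ≤ 1 / 20) (ha1 : |a1 - 1| ≤ η) (ha2 : |a2 - 1| ≤ η) (hW : W = x + σ * s) (hW0 : 0 < W)
    (hx : 0 < x) (hf0 : 0 ≤ f) (hf : f ≤ x + h * s)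
    (e1 : c1 * (σ - h + a1 * σ) = -f) (e2 : c2 * (σ - h + a2 * σ) = f - W - a2 * σ * s)
    (e3 : W + 2 * σ * (c1 + c2) ≤ 0) (e4 : 0 < W + 2 * (σ - h) * (c1 + c2)) :
    σ * |s| ≤ 20 * η * x := by
  obtain ⟨a11, a12⟩ := abs_le.1 ha1
  obtain ⟨a21, a22⟩ := abs_le.1 ha2
  have hη0 : 0 < η := by
    by_contra hc; rw [not_lt] at hc; nlinarith
  have hD1 : σ ≤ σ - h + a1 * σ := by nlinarith
  have hc1 : c1 ≤ 0 := by
    by_contra hc; rw [not_le] at hc; nlinarith
  have hc1' : -c1 * σ ≤ f := by nlinarith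
  set k := -(c1 + c2) with hk
  have hk0 : 0 < k := by
    by_contra hc; rw [not_lt] at hc; nlinarith
  have k1 : W ≤ 2 * (σ * k) := by rw [hk]; linarith
  have k2 : 2 * (σ * k) - 2 * (h * k) < W := by rw [hk]; linarith
  have k3 : h * k ≤ η * (σ * k) := by nlinarith
  have hσk : 0 < σ * k := by positivity
  have k4 : σ * k ≤ 2 / 3 * W := by nlinarith
  have main : a2 * (σ * s) = (-c1 * σ) * (a1 - a2) - W + (σ * k) * (1 + a2) - h * k := by
    rw [hk]; linear_combination e1 + e2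
  have b0 : 0 ≤ -c1 * σ := mul_nonneg (by linarith) hσ.le
  have hηf : 0 ≤ η * f := by positivity
  have b00 : η * (-c1 * σ) ≤ η * f := mul_le_mul_of_nonneg_left hc1' hη0.le
  have b1 : (-c1 * σ) * (a1 - a2) ≤ 2 * η * f := by
    have := mul_le_mul_of_nonneg_left (show a1 - a2 ≤ 2 * η by linarith) b0
    linarith
  have b2 : -(2 * η * f) ≤ (-c1 * σ) * (a1 - a2) := by
    have := mul_le_mul_of_nonneg_left (show -(2 * η) ≤ a1 - a2 by linarith) b0
    linarith
  have hk' : 0 < h * k := by positivity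
  have k5 : η * (σ * k) ≤ η * (2 / 3 * W) := mul_le_mul_of_nonneg_left k4 hη0.le
  have b3 : -W + (σ * k) * (1 + a2) - h * k ≤ 2 * η * W := by
    have := mul_le_mul_of_nonneg_left (show 1 + a2 ≤ 2 + η by linarith) hσk.le
    linarith
  have b4 : -(2 * η * W) ≤ -W + (σ * k) * (1 + a2) - h * k := by
    have := mul_le_mul_of_nonneg_left (show 2 - η ≤ 1 + a2 by linarith) hσk.le
    linarith
  have hs1 : σ * s ≤ σ * |s| := mul_le_mul_of_nonneg_left (le_abs_self s) hσ.le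
  have hs2 : h * s ≤ σ * |s| := by
    have : h * s ≤ h * |s| := mul_le_mul_of_nonneg_left (le_abs_self s) h0.le
    have h2 : h ≤ σ := by
      have := mul_le_mul_of_nonneg_right hη hσ.le
      linarith
    exact this.trans (mul_le_mul_of_nonneg_right h2 (abs_nonneg s))
  have u1 : η * f ≤ η * (x + σ * |s|) := mul_le_mul_of_nonneg_left (by linarith) hη0.le
  have u2 : η * W ≤ η * (x + σ * |s|) := mul_le_mul_of_nonneg_left (by linarith) hη0.le
  have b5 : |a2 * (σ * s)| ≤ 4 * η * (x + σ * |s|) := by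
    rw [abs_le]; constructor <;> linarith
  rw [abs_mul, abs_mul, abs_of_pos hσ, abs_of_pos (show 0 < a2 by linarith)] at b5
  have u0 : 0 ≤ σ * |s| := by positivity
  have u3 := mul_le_mul_of_nonneg_right (show 1 / 2 ≤ a2 by linarith) u0
  have u4 := mul_le_mul_of_nonneg_right hη u0
  have u5 : 0 < η * x := by positivity
  linarith

lemma thin_alg2 {σ h η A1 B1 A2 B2 f W x s lam mu al g1 : ℝ} (hσ : 0 < σ) (h0 : 0 < h)
    (hh : h ≤ η * σ) (hη : η ≤ 1 / 20) (hB1 : 0 < B1) (hB2 : 0 < B2) (ha1 : |A1 - B1| ≤ η * B1)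
    (ha2 : |A2 - B2| ≤ η * B2) (hW : W = x + σ * s) (hW0 : 0 < W)
    (hx : 0 < x) (hf0 : 0 ≤ f) (hf : f ≤ x + h * s) (hl : lam ≠ 0)
    (r1 : B1 * (f * al - (σ - h) * g1) + A1 * (-(σ * g1)) = 0)
    (r2 : B2 * ((f - W) * (al + 2 * W * lam * lam) - (σ - h) * (g1 + 2 * W * lam * mu)) +
      A2 * (-(σ * ((g1 + 2 * W * lam * mu) + s * (al + 2 * W * lam * lam)))) = 0)
    (q2 : W * al + (W * lam) ^ 2 = 0)
    (hL : ∀ z, 0 ≤ z * al - σ * g1 + (z * lam - σ * mu) ^ 2)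
    (hF : f * al - (σ - h) * g1 + (f * lam - (σ - h) * mu) ^ 2 < 0) :
    σ * |s| ≤ 20 * η * x := by
  have hal : al = -(W * lam ^ 2) := by
    apply mul_left_cancel₀ hW0.ne'; linear_combination q2
  have hl2 : 0 < lam ^ 2 := by positivity
  have hK : 0 < W * lam ^ 2 := by positivity
  have d3 := discrim_le_zero (a := lam ^ 2) (b := al - 2 * σ * lam * mu) (c := σ ^ 2 * mu ^ 2 - σ * g1)
    (fun z => by have := hL z; nlinarith)
  rw [discrim, hal] at d3
  have d4 : 0 < (al - 2 * (σ - h) * lam * mu) ^ 2 - 4 * lam ^ 2 * ((σ - h) ^ 2 * mu ^ 2 - (σ - h) * g1) := by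
    have := mul_neg_of_pos_of_neg hl2 hF
    nlinarith [sq_nonneg (2 * lam ^ 2 * f + (al - 2 * (σ - h) * lam * mu))]
  rw [hal] at d4 r1 r2
  have ab : ∀ {A B : ℝ}, 0 < B → |A - B| ≤ η * B → |A / B - 1| ≤ η := by
    intro A B hB hAB
    rw [div_sub_one hB.ne', abs_div, abs_of_pos hB, div_le_iff₀ hB]; exact hAB
  apply thin_alg (c1 := g1 / (W * lam ^ 2)) (c2 := (g1 + 2 * W * lam * mu) / (W * lam ^ 2)) hσ h0 hh hη
    (ab hB1 ha1) (ab hB2 ha2) hW hW0 hx hf0 hf
  · field_simp; linear_combination -r1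
  · field_simp; linear_combination -r2
  · have e : W + 2 * σ * (g1 / (W * lam ^ 2) + (g1 + 2 * W * lam * mu) / (W * lam ^ 2)) =
        ((-(W * lam ^ 2) - 2 * σ * lam * mu) ^ 2 - 4 * lam ^ 2 * (σ ^ 2 * mu ^ 2 - σ * g1)) /
          (W * lam ^ 2 * lam ^ 2) := by field_simp; ring
    rw [e]; exact div_nonpos_of_nonpos_of_nonneg d3 (by positivity)
  · have e : W + 2 * (σ - h) * (g1 / (W * lam ^ 2) + (g1 + 2 * W * lam * mu) / (W * lam ^ 2)) =
        ((-(W * lam ^ 2) - 2 * (σ - h) * lam * mu) ^ 2 -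
          4 * lam ^ 2 * ((σ - h) ^ 2 * mu ^ 2 - (σ - h) * g1)) / (W * lam ^ 2 * lam ^ 2) := by
      field_simp; ring
    rw [e]; exact div_pos d4 (by positivity)

lemma Par.grad_add (P : Par) (X v : ℂ) : P.grad (X + v) = P.grad X + (2 * dot P.l v) • P.l := by
  simp only [Par.grad, dot_add_r]; module

lemma Blow.close {M : Set ℂ} {d : ℂ → ℂ → ℝ} {X A B : ℂ} {Λ η : ℝ} (b : Blow M d X Λ A B) (hη : 0 < η)
    {F Y : ℂ} (h : Λ * ‖F - Y‖ ≤ η * ‖Y - X‖) :
    |‖Tm A B (F - X)‖ - ‖Tm A B (Y - X)‖| ≤ η * ‖Tm A B (Y - X)‖ := by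
  have a1 := b.ecc (F - Y) (η • (Y - X)) (by rwa [norm_smul, Real.norm_eq_abs, abs_of_pos hη])
  rw [Tm_smul, norm_smul, Real.norm_eq_abs, abs_of_pos hη] at a1
  refine (abs_norm_sub_norm_le _ _).trans ?_
  rw [← Tm_sub, sub_sub_sub_cancel_right]; exact a1

namespace PM
variable {M : Set ℂ} {d : ℂ → ℂ → ℝ} (H : PM M d)
include H

lemma nocross {Y w n : ℂ} (hn : cr w n = 1) {a b sa sb y : ℝ} (ha : Y + a • w ∈ M) (hb : Y + b • w ∈ M)
    (hab : a < b) (pa : Perp M d (Y + a • w) w (n + sa • w)) (pb : Perp M d (Y + b • w) w (n + sb • w))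
    (hy : 0 ≤ y) (hm : Y + a • w + y • (n + sa • w) ∈ M) : a + y * sa < b + y * sb := by
  by_contra hc
  rw [not_lt] at hc
  have h1 : 0 < sa - sb := by
    by_contra h2; rw [not_lt] at h2; nlinarith
  set y' := (b - a) / (sa - sb) with hy'
  have hy0 : 0 ≤ y' := div_nonneg (by linarith) h1.le
  have hy1 : y' ≤ y := by rw [hy', div_le_iff₀ h1]; linarith
  have e0 : y' * (sa - sb) = b - a := by rw [hy']; field_simp
  have m1 := H.ray_mem ha hm hy0 hy1
  have e : Y + a • w + y' • (n + sa • w) = Y + b • w + y' • (n + sb • w) := by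
    have : b = a + y' * (sa - sb) := by linarith
    rw [this]; module
  have e1 : Y + a • w + (b - a) • w = Y + b • w := by module
  have e2 : Y + b • w + (a - b) • w = Y + a • w := by module
  have f1 := H.foot_strict ha (by simp [hn]) pa hy0 m1 (s := b - a) (by linarith) (e1 ▸ hb)
  have f2 := H.foot_strict hb (by simp [hn]) pb hy0 (e ▸ m1) (s := a - b) (by linarith) (e2 ▸ ha)
  rw [e1] at f1
  rw [e2, ← e] at f2
  linarith

lemma thin_step {Y w n A1 B1 A2 B2 : ℂ} {σ h η ρ f x s Λ : ℝ} (hn : cr w n = 1) (hσ : 0 < σ) (h0 : 0 < h)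
    (hh : h ≤ η * σ) (hη : η ≤ 1 / 20) (hρ : ∀ z : ℝ, |z| ≤ ρ → Y + z • w ∈ M) (hx : 0 < x)
    (hxρ : x ≤ ρ) (hW0 : 0 < x + σ * s) (hf0 : 0 ≤ f) (hf : f ≤ x + h * s) (hfρ : f < ρ / 2)
    (hF : Y + f • w + h • n ∈ M) (hX1 : Y + σ • n ∈ M) (hX2 : Y + x • w + σ • (n + s • w) ∈ M)
    (b1 : Blow M d (Y + σ • n) Λ A1 B1) (b2 : Blow M d (Y + x • w + σ • (n + s • w)) Λ A2 B2)
    (p1 : Perp M d Y w n) (p2 : Perp M d (Y + x • w) w (n + s • w))
    (e1 : d (Y + σ • n) (Y + f • w + h • n) = d (Y + σ • n) Y)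
    (e2 : d (Y + x • w + σ • (n + s • w)) (Y + f • w + h • n) =
      d (Y + x • w + σ • (n + s • w)) (Y + x • w))
    (c1 : Λ * ‖Y + f • w + h • n - Y‖ ≤ η * ‖Y - (Y + σ • n)‖)
    (c2 : Λ * ‖Y + f • w + h • n - (Y + x • w)‖ ≤ η * ‖Y + x • w - (Y + x • w + σ • (n + s • w))‖)
    (side : ∀ u : ℝ, |u| = ρ / 2 → Y + u • w + h • n ∈ M ∧
      d (Y + u • w + h • n) (Y + u • w) < d (Y + u • w + h • n) (Y + f • w + h • n)) :
    σ * |s| ≤ 20 * η * x := by
  have hη0 : 0 < η := by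
    by_contra hc; rw [not_lt] at hc; nlinarith
  have hhσ : h ≤ σ / 20 := by nlinarith
  have hY : Y ∈ M := by simpa using hρ 0 (by simp; linarith)
  have hY2 : Y + x • w ∈ M := hρ x (by rw [abs_of_pos hx]; exact hxρ)
  have hw : w ≠ 0 := by rintro rfl; simp at hn
  have hn0 : n ≠ 0 := by rintro rfl; simp at hn
  set F := Y + f • w + h • n with hFd
  set X1 := Y + σ • n with hX1d
  set X2 := Y + x • w + σ • (n + s • w) with hX2d
  have hc : cr w (F - Y) ≠ 0 := by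
    have : F - Y = f • w + h • n := by rw [hFd]; abel
    rw [this]; simp [hn, h0.ne']
  obtain ⟨P, hP⟩ := H.par Y hY w F hF hc
  have f1 : Foot M d X1 Y w := p1 σ hσ.le hX1
  have f2 : Foot M d X2 (Y + x • w) w := p2 σ hσ.le hX2
  have z1 : ff M d Y w F X1 = 0 := by rw [ff, H.foot_dl hX1 hY f1, e1, sub_self]
  have z2 : ff M d Y w F X2 = 0 := by
    rw [ff, ← dl_shift M d Y w X2 x, H.foot_dl hX2 hY2 f2, e2, sub_self]
  have q1 := (PM0.cut_iff hP hX1).1 z1
  have q2 := (PM0.cut_iff hP hX2).1 z2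
  have hτ0 : 0 ≤ h / σ := by positivity
  have hτ1 : h / σ ≤ 1 / 20 := by rw [div_le_iff₀ hσ]; linarith
  have hin : P.q F < 0 := by
    have m : Y + (f / (1 - h / σ)) • w ∈ M := by
      apply hρ
      rw [abs_of_nonneg (div_nonneg hf0 (by linarith)), div_le_iff₀ (by linarith)]
      nlinarith
    refine H.inside_of_between hY hF hc hP m hX1 (H.ff_line hF hc m) z1.ge hτ0 (by linarith) ?_
    have k1 : (1 - h / σ) * (f / (1 - h / σ)) = f := mul_div_cancel₀ _ (by linarith)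
    have k2 : h / σ * σ = h := div_mul_cancel₀ _ hσ.ne'
    have : Y + (f / (1 - h / σ)) • w + (h / σ) • (X1 - (Y + (f / (1 - h / σ)) • w)) =
        Y + ((1 - h / σ) * (f / (1 - h / σ))) • w + (h / σ * σ) • n := by rw [hX1d]; module
    rw [this, k1, k2]
  have hL : ∀ z : ℝ, 0 ≤ P.q (Y + z • w) := by
    intro z
    by_cases hz : |z| ≤ ρ
    · exact ((H.inside_pos hY hF hc hP hin (hρ z hz)).1 (H.ff_line hF hc (hρ z hz))).le
    by_contra hneg
    rw [not_le] at hz hneg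
    have g1 := P.q_convex (Y + z • w) X1 hτ0 (by linarith)
    have k2 : h / σ * σ = h := div_mul_cancel₀ _ hσ.ne'
    have e3 : Y + z • w + (h / σ) • (X1 - (Y + z • w)) = Y + ((1 - h / σ) * z) • w + (h / σ * σ) • n := by
      rw [hX1d]; module
    rw [e3, k2, q1] at g1
    have g2 : P.q (Y + ((1 - h / σ) * z) • w + h • n) ≤ 0 := by nlinarith
    have fin : ∀ u : ℝ, |u| = ρ / 2 → u ∈ segment ℝ f ((1 - h / σ) * z) → False := by
      intro u hu hs
      rw [segment_eq_image'] at hs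
      obtain ⟨κ, hκ, rfl⟩ := hs
      obtain ⟨m1, m2⟩ := side _ hu
      have g3 := P.q_convex F (Y + ((1 - h / σ) * z) • w + h • n) hκ.1 hκ.2
      have e4 : F + κ • (Y + ((1 - h / σ) * z) • w + h • n - F) =
          Y + (f + κ • ((1 - h / σ) * z - f)) • w + h • n := by
        rw [hFd, smul_eq_mul]; module
      rw [e4] at g3
      have g4 := (H.inside_pos hY hF hc hP hin m1).1
        (H.ff_pos_of_lt m1 (hρ _ (by rw [hu]; linarith)) m2)
      nlinarith [hκ.1, hκ.2]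
    rcases lt_abs.1 hz with hz' | hz'
    · apply fin (ρ / 2) (abs_of_pos (by linarith))
      rw [segment_eq_uIcc, mem_uIcc]
      exact Or.inl ⟨hfρ.le, by nlinarith⟩
    · apply fin (-(ρ / 2)) (by rw [abs_neg]; exact abs_of_pos (by linarith))
      rw [segment_eq_uIcc, mem_uIcc]
      exact Or.inr ⟨by nlinarith, by linarith⟩
  have r1 := b1.refl Y w F P hY hF hc hP hin 0 (by simpa using hY)
    (by simp [hX1d, hn, hσ]) (by simpa using f1) (by simpa using e1)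
  have r2 := b2.refl Y w F P hY hF hc hP hin x hY2
    (by
      have : X2 - (Y + x • w) = σ • (n + s • w) := by rw [hX2d]; abel
      rw [this]; simp [hn, hσ]) f2 e2
  rw [zero_smul, add_zero] at r1
  have eX2 : X2 = X1 + (x + σ * s) • w := by rw [hX2d, hX1d]; module
  have v1 : F - X1 = f • w - (σ - h) • n := by rw [hFd, hX1d]; module
  have v2 : Y - X1 = -(σ • n) := by rw [hX1d]; abel
  have v3 : F - X2 = (f - (x + σ * s)) • w - (σ - h) • n := by rw [hFd, hX2d]; module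
  have v4 : Y + x • w - X2 = -(σ • (n + s • w)) := by rw [hX2d]; abel
  have hB1 : 0 < ‖Tm A1 B1 (Y - X1)‖ := norm_pos_iff.2 (b1.inj _ (by
    rw [v2]; exact neg_ne_zero.2 (smul_ne_zero hσ.ne' hn0)))
  have hB2 : 0 < ‖Tm A2 B2 (Y + x • w - X2)‖ := norm_pos_iff.2 (b2.inj _ (by
    rw [v4]; refine neg_ne_zero.2 (smul_ne_zero hσ.ne' fun h => ?_)
    have : cr w (n + s • w) = 0 := by rw [h]; simp
    simp [hn] at this))
  have t1 := b1.close hη0 c1
  have t2 := b2.close hη0 c2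
  have q2' := q2
  rw [eX2, P.q_ray, q1] at q2'
  have hl : dot P.l w ≠ 0 := by
    intro hl
    rw [hl] at q2'
    have a1 : dot (P.grad X1) w = 0 := by
      apply mul_left_cancel₀ hW0.ne'; linarith
    simp only [Par.grad, dot_sub_l, dot_smul_l, hl] at a1
    exact hw (eq_zero_of_dot P.nd (by rw [dot_comm]; exact hl) (by rw [dot_comm]; linarith))
  refine thin_alg2 (mu := dot P.l n) (al := dot (P.grad X1) w) (g1 := dot (P.grad X1) n) hσ h0 hh hη
    hB1 hB2 t1 t2 rfl hW0 hx hf0 hf hl ?_ ?_ (by linarith) (fun z => ?_) ?_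
  · generalize ‖Tm A1 B1 (Y - X1)‖ = a at r1 ⊢
    generalize ‖Tm A1 B1 (F - X1)‖ = b at r1 ⊢
    rw [v1, v2] at r1
    simpa only [dot_sub_r, dot_smul_r, dot_neg_r] using r1
  · generalize ‖Tm A2 B2 (Y + x • w - X2)‖ = a at r2 ⊢
    generalize ‖Tm A2 B2 (F - X2)‖ = b at r2 ⊢
    rw [v3, v4, eX2, P.grad_add] at r2
    simp only [dot_sub_r, dot_smul_r, dot_neg_r, dot_add_r, dot_add_l, dot_smul_l] at r2
    linear_combination r2
  · have := hL z
    have e5 : Y + z • w = X1 + (z • w - σ • n) := by rw [hX1d]; module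
    rw [e5, P.q_add, q1] at this
    simp only [dot_sub_r, dot_smul_r] at this
    linarith
  · have e5 : F = X1 + (f • w - (σ - h) • n) := by rw [← v1]; abel
    rw [e5, P.q_add, q1] at hin
    simp only [dot_sub_r, dot_smul_r] at hin
    linarith

end PM

end Pool.Agent.P.MP_ec5bc9_gt.H13
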