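import Pool.Agent.P.MP_ec5bc9_gt.A7

/-! The perpendicular direction does not depend on the point. -/

set_option autoImplicit false

namespace Pool.Agent.P.MP_ec5bc9_gt.H13

open Set Filter Topology

attribute [-simp] Complex.real_smul

/-- the perpendicular of height one -/
noncomputable def nt (M : Set ℂ) (d : ℂ → ℂ → ℝ) (Y w : ℂ) : ℂ := (cr w (nu M d Y w))⁻¹ • nu M d Y w

namespace PM
variable {M : Set ℂ} {d : ℂ → ℂ → ℝ} (H : PM M d)
include H

lemma nt_cr {Y w : ℂ} (hY : Y ∈ M) (hw : w ≠ 0) : cr w (nt M d Y w) = 1 := by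
  rw [nt, cr_smul_r, inv_mul_cancel₀ (H.nu_cr hY hw).ne']

lemma nt_perp {Y w : ℂ} (hY : Y ∈ M) (hw : w ≠ 0) : Perp M d Y w (nt M d Y w) :=
  (H.nu_perp hY hw).smul_u (inv_pos.2 (H.nu_cr hY hw)).le

lemma tendsto_nt {ι : Type*} {l : Filter ι} {Y w : ℂ} {Yi : ι → ℂ} (hY : Y ∈ M) (hw : w ≠ 0)
    (TY : Tendsto Yi l (𝓝 Y)) : Tendsto (fun i => nt M d (Yi i) w) l (𝓝 (nt M d Y w)) := by
  have T := H.tendsto_nu hY hw TY tendsto_const_nhds
  exact ((tendsto_cr tendsto_const_nhds T).inv₀ (H.nu_cr hY hw).ne').smul T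

lemma nt_diff {Y Y' w : ℂ} (hY : Y ∈ M) (hY' : Y' ∈ M) (hw : w ≠ 0) :
    nt M d Y' w = nt M d Y w + cr (nt M d Y' w) (nt M d Y w) • w := by
  obtain ⟨s, hs⟩ := exists_smul_of_cr (v := nt M d Y' w - nt M d Y w) hw
    (by rw [cr_sub_r, H.nt_cr hY hw, H.nt_cr hY' hw, sub_self])
  have e : nt M d Y' w = nt M d Y w + s • w := by rw [← hs]; abel
  have : cr (nt M d Y' w) (nt M d Y w) = s := by
    conv_lhs => rw [e]
    simp [H.nt_cr hY hw]
  rw [this]; exact e

lemma thin_exists {Y w : ℂ} (hY : Y ∈ M) (hw : w ≠ 0) {σ δ : ℝ} (hσ : 0 < σ) (hδ : 0 < δ)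
    (hX1 : Y + σ • nt M d Y w ∈ M) : ∃ t h z : ℝ, 0 < t ∧ t < z ∧ z < δ ∧ 0 < h ∧ h < δ ∧
      d (Y + σ • nt M d Y w) (Y + t • w + h • nt M d (Y + t • w) w) = d (Y + σ • nt M d Y w) Y ∧
      d (Y + z • w + σ • nt M d (Y + z • w) w) (Y + t • w + h • nt M d (Y + t • w) w) =
        d (Y + z • w + σ • nt M d (Y + z • w) w) (Y + z • w) := by
  set n := nt M d Y w with hn
  set N : ℝ → ℂ := fun x => nt M d (Y + x • w) w with hN
  have hn0 : n ≠ 0 := by
    intro h; have := H.nt_cr hY hw; rw [← hn, h] at this; simp at this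
  have TY : Tendsto (fun x : ℝ => Y + x • w) (𝓝 0) (𝓝 Y) := by
    have : Continuous fun x : ℝ => Y + x • w := by fun_prop
    simpa using this.tendsto 0
  have TN : Tendsto N (𝓝 0) (𝓝 n) := H.tendsto_nt hY hw TY
  have TX : Tendsto (fun x : ℝ => Y + x • w + σ • N x) (𝓝 0) (𝓝 (Y + σ • n)) := TY.add (TN.const_smul σ)
  obtain ⟨ρ, hρ, hρm⟩ := Metric.eventually_nhds_iff.1
    ((H.eventually_mem hY TY).and (H.eventually_mem hX1 TX))
  set z0 := min δ ρ / 2 with hz0
  have hz00 : 0 < z0 := by have := lt_min hδ hρ; positivity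
  have hz0δ : z0 < δ := by have := min_le_left δ ρ; linarith
  have hz0ρ : z0 < ρ := by have := min_le_right δ ρ; linarith
  have mem : ∀ x : ℝ, 0 ≤ x → x ≤ z0 → Y + x • w ∈ M ∧ Y + x • w + σ • N x ∈ M := fun x h0 h1 =>
    hρm (by rw [Real.dist_eq, sub_zero, abs_of_nonneg h0]; linarith)
  have m0 := mem z0 hz00.le le_rfl
  have s0 := H.foot_strict m0.1 (by rw [H.nt_cr m0.1 hw]; exact one_ne_zero) (H.nt_perp m0.1 hw) hσ.le
    m0.2 (s := -z0) (by linarith) (by simpa using hY)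
  have e0 : Y + z0 • w + (-z0) • w = Y := by module
  rw [e0] at s0
  have TF : Tendsto (fun p : ℝ × ℝ => Y + p.1 • w + p.2 • N p.1) (𝓝 (0, 0)) (𝓝 Y) := by
    have T1 : Tendsto (fun p : ℝ × ℝ => p.1) (𝓝 (0, 0)) (𝓝 0) := continuous_fst.tendsto _
    have T2 : Tendsto (fun p : ℝ × ℝ => p.2) (𝓝 (0, 0)) (𝓝 0) := continuous_snd.tendsto _
    have := (TY.comp T1).add (T2.smul (TN.comp T1))
    simpa using this
  obtain ⟨δ2, hδ2, h2⟩ := Metric.eventually_nhds_iff.1
    ((H.tendsto m0.2 hY tendsto_const_nhds TF).eventually (lt_mem_nhds s0))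
  set h0 := min (min δ σ) δ2 / 2 with hh0
  have h00 : 0 < h0 := by have := lt_min (lt_min hδ hσ) hδ2; positivity
  have h01 : h0 < δ := by have := (min_le_left (min δ σ) δ2).trans (min_le_left δ σ); linarith
  have h02 : h0 < σ := by have := (min_le_left (min δ σ) δ2).trans (min_le_right δ σ); linarith
  have h03 : h0 < δ2 := by have := min_le_right (min δ σ) δ2; linarith
  have down : ∀ {Z v : ℂ} {y : ℝ}, Z ∈ M → v ≠ 0 → Z + σ • v ∈ M → 0 < y → y ≤ σ →
      d (Z + σ • v) (Z + y • v) < d (Z + σ • v) Z := by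
    intro Z v y hZ hv hm hy hyσ
    have a1 := H.ray_add hZ hm hy.le hyσ
    have a2 := H.ray_strict hZ (H.ray_mem hZ hm hy.le hyσ) le_rfl hy hv
    rw [zero_smul, add_zero, H.refl Z hZ] at a2
    rw [H.symm _ hm _ hZ, H.symm _ hm _ (H.ray_mem hZ hm hy.le hyσ)]
    linarith
  have TA := (H.tendsto hX1 (H.ray_mem hY hX1 h00.le h02.le) tendsto_const_nhds
    (TY.add (TN.const_smul h0))).eventually (gt_mem_nhds (down hY hn0 hX1 h00 h02.le))
  obtain ⟨t, t1, t2, t3⟩ := ((TA.filter_mono (nhdsWithin_le_nhds (s := Ioi 0))).and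
    (((gt_mem_nhds (lt_min hz00 hδ2)).filter_mono nhdsWithin_le_nhds).and self_mem_nhdsWithin)).exists
  have ht : 0 < t := t3
  have htz : t < z0 := lt_of_lt_of_le t2 (min_le_left _ _)
  have htδ : t < δ2 := lt_of_lt_of_le t2 (min_le_right _ _)
  have mt := mem t ht.le htz.le
  have c1 : ContinuousOn (fun h : ℝ => d (Y + σ • n) (Y + t • w + h • N t)) (Icc 0 h0) :=
    H.continuousOn continuousOn_const (by fun_prop) (fun _ _ => hX1)
      (fun h hh => H.ray_mem mt.1 mt.2 hh.1 (by linarith [hh.2]))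
  have s1 := H.foot_strict hY (by rw [H.nt_cr hY hw]; exact one_ne_zero) (H.nt_perp hY hw) hσ.le
    hX1 ht.ne' mt.1
  obtain ⟨h, hh, eh⟩ := intermediate_value_Ioo' h00.le c1
    (show d (Y + σ • n) Y ∈ Ioo _ _ from ⟨t1, by simpa using s1⟩)
  have mF : Y + t • w + h • N t ∈ M := H.ray_mem mt.1 mt.2 hh.1.le (by linarith [hh.2])
  have cN : ContinuousOn N (Icc t z0) := fun x hx => by
    have : Continuous fun x : ℝ => Y + x • w := by fun_prop
    exact (H.tendsto_nt (mem x (ht.le.trans hx.1) hx.2).1 hw (this.tendsto x)).mono_left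
      nhdsWithin_le_nhds
  have cX : ContinuousOn (fun x : ℝ => Y + x • w + σ • N x) (Icc t z0) := by fun_prop
  have c2 : ContinuousOn (fun x : ℝ => d (Y + x • w + σ • N x) (Y + t • w + h • N t) -
      d (Y + x • w + σ • N x) (Y + x • w)) (Icc t z0) :=
    (H.continuousOn cX continuousOn_const (fun x hx => (mem x (ht.le.trans hx.1) hx.2).2)
      (fun _ _ => mF)).sub (H.continuousOn cX (by fun_prop)
      (fun x hx => (mem x (ht.le.trans hx.1) hx.2).2) (fun x hx => (mem x (ht.le.trans hx.1) hx.2).1))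
  have hNt : N t ≠ 0 := by
    intro h; have := H.nt_cr mt.1 hw; rw [show nt M d (Y + t • w) w = N t from rfl, h] at this
    simp at this
  obtain ⟨z, hz, ez⟩ := intermediate_value_Ioo htz.le c2 (show (0 : ℝ) ∈ Ioo _ _ from
    ⟨sub_neg.2 (down mt.1 hNt mt.2 hh.1 (by linarith [hh.2])), sub_pos.2 (h2 (y := (t, h)) (by
      rw [Prod.dist_eq, Real.dist_eq, Real.dist_eq, sub_zero, sub_zero, abs_of_pos ht, abs_of_pos hh.1]
      exact max_lt htδ (by linarith [hh.2])))⟩)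
  exact ⟨t, h, z, ht, hz.1, by linarith [hz.2], hh.1, by linarith [hh.2], eh, sub_eq_zero.1 ez⟩

theorem thin {Y w : ℂ} (hY : Y ∈ M) (hw : w ≠ 0) {ε : ℝ} (hε : 0 < ε) :
    ∃ᶠ z in 𝓝[>] (0 : ℝ), ‖nt M d (Y + z • w) w - nt M d Y w‖ ≤ ε * z := by
  set n := nt M d Y w with hn
  set N : ℝ → ℂ := fun x => nt M d (Y + x • w) w with hN
  have hn1 : cr w n = 1 := H.nt_cr hY hw
  have hn0 : n ≠ 0 := by intro h; rw [h] at hn1; simp at hn1
  have hwn : 0 < ‖w‖ := norm_pos_iff.2 hw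
  obtain ⟨σ, hX1, hσ'⟩ := ((H.eventually_mem hY (small_r Y n)).and self_mem_nhdsWithin).exists
  have hσ : 0 < σ := hσ'
  obtain ⟨r, hr, hb⟩ := Metric.nhds_basis_closedBall.mem_iff.1 (H.isOpen.mem_nhds hX1)
  obtain ⟨Λ, E⟩ := H.exists_ecc (X := Y + σ • n) (r := r / 2) (by linarith) (by
    rwa [mul_div_cancel₀ _ two_ne_zero])
  have TY : Tendsto (fun x : ℝ => Y + x • w) (𝓝 0) (𝓝 Y) := by
    have : Continuous fun x : ℝ => Y + x • w := by fun_prop
    simpa using this.tendsto 0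
  obtain ⟨ρ', hρ', hρm⟩ := Metric.eventually_nhds_iff.1 (H.eventually_mem hY TY)
  set ρ := ρ' / 2 with hρd
  have hρ0 : 0 < ρ := by positivity
  have hρ : ∀ z : ℝ, |z| ≤ ρ → Y + z • w ∈ M := fun z hz =>
    hρm (by rw [Real.dist_eq, sub_zero]; linarith)
  set η := min (1 / 20) (ε * σ / (20 * ‖w‖)) with hηd
  have hη0 : 0 < η := lt_min (by norm_num) (by positivity)
  have TN : Tendsto N (𝓝 0) (𝓝 n) := H.tendsto_nt hY hw TY
  have T1 : Tendsto (fun p : ℝ × ℝ × ℝ => p.1) (𝓝 (0, 0, 0)) (𝓝 0) := continuous_fst.tendsto _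
  have T2 : Tendsto (fun p : ℝ × ℝ × ℝ => p.2.1) (𝓝 (0, 0, 0)) (𝓝 0) := continuous_snd.fst.tendsto _
  have T3 : Tendsto (fun p : ℝ × ℝ × ℝ => p.2.2) (𝓝 (0, 0, 0)) (𝓝 0) := continuous_snd.snd.tendsto _
  have TF : Tendsto (fun p : ℝ × ℝ × ℝ => Y + p.1 • w + p.2.1 • N p.1) (𝓝 (0, 0, 0)) (𝓝 Y) := by
    simpa using (TY.comp T1).add (T2.smul (TN.comp T1))
  have TX : Tendsto (fun x : ℝ => Y + x • w + σ • N x) (𝓝 0) (𝓝 (Y + σ • n)) := TY.add (TN.const_smul σ)
  have hpos : 0 < η * ‖Y - (Y + σ • n)‖ := by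
    apply mul_pos hη0 (norm_pos_iff.2 _)
    simp [hσ.ne', hn0]
  have hpos' : Λ * ‖Y - Y‖ < η * ‖Y - (Y + σ • n)‖ := by rw [sub_self, norm_zero, mul_zero]; exact hpos
  have v1 := (((TF.sub_const Y).norm.const_mul Λ)).eventually (ge_mem_nhds hpos')
  have v2 := (((TF.sub (TY.comp T3)).norm.const_mul Λ).eventually_lt
    (((TY.comp T3).sub (TX.comp T3)).norm.const_mul η) hpos').mono fun _ h => h.le
  have v3 := ((TX.comp T3).sub_const (Y + σ • n)).norm.eventually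
    (ge_mem_nhds (show ‖Y + σ • n - (Y + σ • n)‖ < r / 2 / 2 by simp; linarith))
  have v4 : ∀ᶠ p : ℝ × ℝ × ℝ in 𝓝 (0, 0, 0), p.1 + p.2.1 * cr (N p.1) n < ρ / 2 := by
    have := T1.add (T2.mul (tendsto_cr (TN.comp T1) (tendsto_const_nhds (x := n))))
    exact this.eventually (gt_mem_nhds (by simp; linarith))
  have v5 : ∀ u : ℝ, |u| = ρ / 2 → ∀ᶠ p : ℝ × ℝ × ℝ in 𝓝 (0, 0, 0), Y + u • w + p.2.1 • n ∈ M ∧
      d (Y + u • w + p.2.1 • n) (Y + u • w) <
        d (Y + u • w + p.2.1 • n) (Y + p.1 • w + p.2.1 • N p.1) := by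
    intro u hu
    have m := hρ u (by linarith)
    have T : Tendsto (fun p : ℝ × ℝ × ℝ => Y + u • w + p.2.1 • n) (𝓝 (0, 0, 0)) (𝓝 (Y + u • w)) := by
      simpa using (T2.smul_const n).const_add (Y + u • w)
    refine (H.eventually_mem m T).and ((H.tendsto m m T tendsto_const_nhds).eventually_lt
      (H.tendsto m hY T TF) ?_)
    rw [H.refl _ m]
    apply H.pos _ m _ hY
    have : u ≠ 0 := by rintro rfl; simp at hu; linarith
    simp [this, hw]
  have key : ∀ᶠ p : ℝ × ℝ × ℝ in 𝓝 (0, 0, 0), 0 < p.1 → p.1 < p.2.2 → 0 < p.2.1 →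
      d (Y + σ • n) (Y + p.1 • w + p.2.1 • N p.1) = d (Y + σ • n) Y →
      d (Y + p.2.2 • w + σ • N p.2.2) (Y + p.1 • w + p.2.1 • N p.1) =
        d (Y + p.2.2 • w + σ • N p.2.2) (Y + p.2.2 • w) → ‖N p.2.2 - n‖ ≤ ε * p.2.2 := by
    filter_upwards [v1, v2, v3, v4, v5 (ρ / 2) (abs_of_pos (by linarith)),
      v5 (-(ρ / 2)) (by rw [abs_neg]; exact abs_of_pos (by linarith)),
      T2.eventually (ge_mem_nhds (show 0 < η * σ by positivity)), T3.eventually (ge_mem_nhds hρ0),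
      H.eventually_mem hY TF, H.eventually_mem hX1 (TX.comp T3)]
    rintro ⟨t, h, z⟩ a1 a2 a3 a4 a5 a6 a7 a8 a9 a10 ht htz hh e1 e2
    simp only [Function.comp] at *
    have hz : 0 < z := ht.trans htz
    have mt := hρ t (by rw [abs_of_pos ht]; linarith)
    have mz := hρ z (by rw [abs_of_pos hz]; linarith)
    have et : N t = n + cr (N t) n • w := H.nt_diff hY mt hw
    have ez : N z = n + cr (N z) n • w := H.nt_diff hY mz hw
    have pt : Perp M d (Y + t • w) w (N t) := H.nt_perp mt hw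
    have pz : Perp M d (Y + z • w) w (N z) := H.nt_perp mz hw
    have p0 : Perp M d Y w n := H.nt_perp hY hw
    generalize cr (N t) n = st at et a4
    generalize cr (N z) n = s at ez
    generalize N t = Nt at *
    generalize N z = Nz at *
    subst et ez
    have hη1 : η ≤ 1 / 20 := min_le_left _ _
    have hhσ : h ≤ σ := by nlinarith
    have n1 := H.nocross (Y := Y) hn1 (a := 0) (sa := 0) (by simpa using hY) mz hz (by simpa using p0) pz
      hσ.le (by simpa using hX1)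
    have n2 := H.nocross (Y := Y) hn1 (a := 0) (sa := 0) (by simpa using hY) mt ht (by simpa using p0) pt
      hh.le (by simpa using H.ray_mem hY hX1 hh.le hhσ)
    have n3 := H.nocross hn1 mt mz htz pt pz hh.le a9
    have eF : Y + t • w + h • (n + st • w) = Y + (t + h * st) • w + h • n := by module
    rw [eF] at a1 a2 a5 a6 a9 e1 e2
    obtain ⟨A1, B1, b1⟩ := H.blowup E
    obtain ⟨A2, B2, b2⟩ := H.blowup (E.shift a3)
    have := H.thin_step hn1 hσ hh a7 hη1 hρ hz a8 (by linarith) (by linarith) n3.le a4 a9 hX1 a10 b1 b2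
      p0 pz e1 e2 a1 a2 (by
        intro u hu
        rcases (abs_eq (by linarith)).1 hu with rfl | rfl
        · exact a5
        · exact a6)
    rw [add_sub_cancel_left, norm_smul, Real.norm_eq_abs]
    have hη2 : η ≤ ε * σ / (20 * ‖w‖) := min_le_right _ _
    rw [le_div_iff₀ (by positivity)] at hη2
    apply le_of_mul_le_mul_left _ hσ
    nlinarith [mul_le_mul_of_nonneg_right this hwn.le, mul_le_mul_of_nonneg_right hη2 hz.le]
  obtain ⟨δ0, hδ0, hk⟩ := Metric.eventually_nhds_iff.1 key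
  rw [frequently_iff]
  intro U hU
  obtain ⟨δ1, hδ1, hU'⟩ := mem_nhdsGT_iff_exists_Ioo_subset.1 hU
  obtain ⟨t, h, z, a1, a2, a3, a4, a5, a6, a7⟩ := H.thin_exists hY hw hσ (lt_min hδ0 hδ1) hX1
  have b1 := min_le_left δ0 δ1
  refine ⟨z, hU' ⟨a1.trans a2, lt_of_lt_of_le a3 (min_le_right _ _)⟩, hk (y := (t, h, z)) ?_ a1 a2 a4 a6 a7⟩
  simp only [Prod.dist_eq, Real.dist_eq, sub_zero, abs_of_pos a1, abs_of_pos a4, abs_of_pos (a1.trans a2)]
  exact max_lt (by linarith) (max_lt (by linarith) (by linarith))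

lemma nt_par {Y w : ℂ} (hY : Y ∈ M) (hw : w ≠ 0) {b : ℝ} (hb : 0 ≤ b) (hY' : Y + b • w ∈ M) :
    nt M d (Y + b • w) w = nt M d Y w := by
  have c : ContinuousOn (fun x : ℝ => ‖nt M d (Y + x • w) w - nt M d Y w‖) (Icc 0 b) := fun x hx => by
    have : Continuous fun x : ℝ => Y + x • w := by fun_prop
    exact (((H.tendsto_nt (H.ray_mem hY hY' hx.1 hx.2) hw (this.tendsto x)).sub_const _).norm).mono_left
      nhdsWithin_le_nhds
  have := image_le_of_liminf_slope_right_le_deriv_boundary c (B := fun _ => 0) (B' := fun _ => 0)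
    (by simp) continuousOn_const (fun x _ => hasDerivWithinAt_const _ _ _) (fun x hx r hr => by
      have h := H.thin (H.ray_mem hY hY' hx.1 hx.2.le) hw (ε := r / 2) (by linarith)
      have T : Tendsto (fun z : ℝ => x + z) (𝓝[>] 0) (𝓝[>] x) := by
        apply tendsto_nhdsWithin_of_tendsto_nhds_of_eventually_within
        · have : Continuous fun z : ℝ => x + z := by fun_prop
          simpa using (this.tendsto 0).mono_left nhdsWithin_le_nhds
        · filter_upwards [self_mem_nhdsWithin] with z hz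
          simpa using hz
      apply T.frequently
      refine (h.and_eventually self_mem_nhdsWithin).mono fun z ⟨h1, h2⟩ => ?_
      have hz : 0 < z := h2
      rw [slope_def_field, add_sub_cancel_left, div_lt_iff₀ hz]
      have e : Y + x • w + z • w = Y + (x + z) • w := by module
      rw [e] at h1
      have := norm_sub_norm_le (nt M d (Y + (x + z) • w) w - nt M d Y w) (nt M d (Y + x • w) w - nt M d Y w)
      rw [sub_sub_sub_cancel_right] at this
      nlinarith) (x := b) ⟨hb, le_rfl⟩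
  exact sub_eq_zero.1 (norm_le_zero_iff.1 this)

lemma nu_par {Y w : ℂ} (hY : Y ∈ M) (hw : w ≠ 0) {b : ℝ} (hY' : Y + b • w ∈ M) :
    nu M d (Y + b • w) w = nu M d Y w := by
  have h : nt M d (Y + b • w) w = nt M d Y w := by
    rcases le_total 0 b with hb | hb
    · exact H.nt_par hY hw hb hY'
    · have := H.nt_par hY' hw (b := -b) (by linarith) (by simpa using hY)
      simpa using this.symm
  have e : ∀ Z ∈ M, nu M d Z w = ‖nt M d Z w‖⁻¹ • nt M d Z w := by
    intro Z hZ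
    have hc := H.nu_cr hZ hw
    rw [nt, norm_smul, nu_norm, mul_one, Real.norm_eq_abs, abs_of_pos (inv_pos.2 hc), inv_inv, smul_smul,
      mul_inv_cancel₀ hc.ne', one_smul]
  rw [e _ hY', e _ hY, h]

lemma exists_blow {X : ℂ} (hX : X ∈ M) : ∃ (Λ : ℝ) (A B : ℂ), 1 ≤ Λ ∧ Blow M d X Λ A B := by
  obtain ⟨r, hr, hb⟩ := Metric.nhds_basis_closedBall.mem_iff.1 (H.isOpen.mem_nhds hX)
  obtain ⟨Λ, E⟩ := H.exists_ecc (X := X) (r := r / 2) (by linarith) (by
    rwa [mul_div_cancel₀ _ two_ne_zero])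
  obtain ⟨A, B, b⟩ := H.blowup E
  exact ⟨Λ, A, B, E.one_le, b⟩

lemma perp_symm {X w u : ℂ} (hX : X ∈ M) (hw : w ≠ 0) (hu : u ≠ 0) (h : cr (nu M d X w) u = 0) :
    cr (nu M d X u) w = 0 := by
  obtain ⟨Λ, A, B, -, b⟩ := H.exists_blow hX
  have hν : nu M d X w ≠ 0 := by
    intro e; have := nu_norm M d X w; rw [e] at this; simp at this
  obtain ⟨s, hs⟩ := exists_smul_of_cr hν h
  have h1 : dot (Tm A B u) (Tm A B w) = 0 := by
    rw [hs, Tm_smul, dot_smul_l, dot_comm, b.perp w hw, mul_zero]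
  have hc := (H.nu_cr hX hu).ne'
  have h2 := b.perp u hu
  have h3 : 0 < dot (Tm A B u) (Tm A B u) := by
    rw [dot_self]; exact pow_pos (norm_pos_iff.2 (b.inj u hu)) 2
  rw [decomp hc w, Tm_add, Tm_smul, Tm_smul, dot_add_r, dot_smul_r, dot_smul_r, h2, mul_zero,
    add_zero] at h1
  have h4 := (mul_eq_zero.1 h1).resolve_right h3.ne'
  rw [cr_comm, neg_eq_zero]
  exact (div_eq_zero_iff.1 h4).resolve_right hc

lemma nu_const {X Y w : ℂ} (hX : X ∈ M) (hY : Y ∈ M) (hw : w ≠ 0) : nu M d X w = nu M d Y w := by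
  refine H.convex.isPreconnected.induction₂ (fun X Y => nu M d X w = nu M d Y w) ?_
    (fun _ _ _ _ _ _ h1 h2 => h1.trans h2) (fun _ _ _ _ h => h.symm) hX hY
  intro Z hZ
  set u := nu M d Z w with hu
  have hc : 0 < cr w u := H.nu_cr hZ hw
  have hu0 : u ≠ 0 := by rintro h; rw [h] at hc; simp at hc
  have T : Tendsto (fun Y : ℂ => Z + (cr (Y - Z) u / cr w u) • w) (𝓝 Z) (𝓝 Z) := by
    have : Continuous fun Y : ℂ => Z + (cr (Y - Z) u / cr w u) • w := by fun_prop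
    simpa using this.tendsto Z
  filter_upwards [mem_nhdsWithin_of_mem_nhds (H.eventually_mem hZ T), self_mem_nhdsWithin] with Y h1 h2
  have e : Z + (cr (Y - Z) u / cr w u) • w + (cr w (Y - Z) / cr w u) • u = Y := by
    rw [add_assoc, ← decomp hc.ne']; abel
  have a1 := H.nu_par hZ hw h1
  have a2 := H.perp_symm h1 hw hu0 (by rw [a1]; exact cr_self _)
  rw [← H.nu_par h1 hu0 (e.symm ▸ h2), e] at a2
  have a3 := H.perp_symm h2 hu0 hw a2
  have hν : nu M d Y w ≠ 0 := by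
    intro e; have := nu_norm M d Y w; rw [e] at this; simp at this
  obtain ⟨s, hs⟩ := exists_smul_of_cr hν a3
  have c1 := hc
  have c2 : ‖u‖ = 1 := nu_norm M d Z w
  rw [hs, cr_smul_r] at c1
  have hs0 : 0 < s := (mul_pos_iff_of_pos_right (H.nu_cr h2 hw)).1 c1
  rw [hs, norm_smul, nu_norm, mul_one, Real.norm_eq_abs, abs_of_pos hs0] at c2
  rw [hs, c2, one_smul]

end PM

end Pool.Agent.P.MP_ec5bc9_gt.H13
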