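import Pool.Agent.P.MP_ec5bc9_gt.A8

/-! The metric is Euclidean and the domain is the whole plane. -/

set_option autoImplicit false

namespace Pool.Agent.P.MP_ec5bc9_gt.H13

open Set Filter Topology

attribute [-simp] Complex.real_smul

lemma Par.no_line (P : Par) {X v : ℂ} (hv : v ≠ 0) (h : ∀ᶠ s in 𝓝 (0 : ℝ), P.q (X + s • v) = 0) : False := by
  obtain ⟨δ, hδ, hb⟩ := Metric.eventually_nhds_iff.1 h
  have a0 := hb (y := 0) (by simpa using hδ)
  have a1 := hb (y := δ / 2) (by rw [Real.dist_eq, sub_zero, abs_of_pos (by linarith)]; linarith)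
  have a2 := hb (y := -(δ / 2)) (by rw [Real.dist_eq, sub_zero, abs_neg, abs_of_pos (by linarith)]; linarith)
  rw [P.q_ray] at a0 a1 a2
  have b1 : (δ / 2) ^ 2 * (dot P.l v) ^ 2 = 0 := by linear_combination (a1 + a2) / 2 - a0
  have b2 : dot P.l v = 0 :=
    pow_eq_zero_iff two_ne_zero |>.1 ((mul_eq_zero.1 b1).resolve_left (by positivity))
  have b3 : δ * dot (P.grad X) v = 0 := by linear_combination a1 - a2
  have b4 := (mul_eq_zero.1 b3).resolve_left hδ.ne'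
  simp only [Par.grad, dot_sub_l, dot_smul_l, b2] at b4
  exact hv (eq_zero_of_dot P.nd (by rw [dot_comm]; exact b2) (by rw [dot_comm]; linarith))

lemma continuous_Tm (A B : ℂ) : Continuous (Tm A B) := by
  have : Tm A B = fun v => (dot A v : ℂ) + (dot B v : ℂ) * Complex.I := by
    funext v; apply Complex.ext <;> simp [Tm]
  rw [this]; fun_prop

namespace PM
variable {M : Set ℂ} {d : ℂ → ℂ → ℝ} (H : PM M d)
include H

theorem euclid {O : ℂ} (hO : O ∈ M) : ∃ (c Λ : ℝ) (A B : ℂ), 0 < c ∧ 1 ≤ Λ ∧ Blow M d O Λ A B ∧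
    ∀ a ∈ M, ∀ b ∈ M, d a b = c * ‖Tm A B (b - a)‖ := by
  obtain ⟨α, hα, -, h⟩ := H.nu_transversal (isCompact_singleton (x := O)) (by simpa using hO)
  have hex : ∀ v : ℂ, ∃ w : ℂ, v ≠ 0 → w ≠ 0 ∧ nu M d O w = -(‖v‖⁻¹ • v) := by
    intro v
    by_cases hv : v = 0
    · exact ⟨0, fun h => absurd hv h⟩
    · obtain ⟨w, h1, h2⟩ := H.nu_surj hO (e := -(‖v‖⁻¹ • v)) (by simp [norm_smul, norm_ne_zero_iff.2 hv])
      exact ⟨w, fun _ => ⟨h1, h2⟩⟩
  choose W hW using hex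
  have D : Dir M d α W := by
    refine ⟨hα, fun v hv => (hW v hv).1, fun v hv => ?_, fun Z hZ v hv c hc hm => ?_⟩
    · have hn : 0 < ‖v‖ := norm_pos_iff.2 hv
      have := h O rfl (W v) (hW v hv).1
      rw [(hW v hv).2, cr_neg_r, cr_smul_r, ← mul_neg, ← div_eq_inv_mul, le_div_iff₀ hn] at this
      exact this.trans (neg_le_abs _)
    · have hn : 0 < ‖v‖ := norm_pos_iff.2 hv
      have e : Z + c • v + (c * ‖v‖) • nu M d (Z + c • v) (W v) = Z := by
        rw [H.nu_const hm hO (hW v hv).1, (hW v hv).2, smul_neg, smul_smul, mul_assoc,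
          mul_inv_cancel₀ hn.ne', mul_one]; abel
      have := H.nu_perp hm (hW v hv).1 (c * ‖v‖) (by positivity) (by rwa [e])
      rwa [e] at this
  obtain ⟨N, h1, h2⟩ := D.minkowski H.toPM0 ⟨O, hO⟩
  obtain ⟨Λ, A, B, hΛ, b⟩ := H.exists_blow hO
  have ev : ∀ v : ℂ, ∀ᶠ ρ in (UU : Filter ℝ), d O (O + ρ • v) = ρ * N v := by
    intro v
    filter_upwards [H.eventually_mem hO (UU_tendsto O (tendsto_const_nhds (x := v))), UU_pos] with ρ a1 a2
    rw [h2 O hO _ a1, add_sub_cancel_left, h1 ρ v a2.le]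
  have hN1 : 0 < N 1 := by
    obtain ⟨ρ, a1, a2, a3⟩ := ((ev 1).and ((H.eventually_mem hO (UU_tendsto O
      (tendsto_const_nhds (x := (1 : ℂ))))).and UU_pos)).exists
    have := H.ray_strict hO a2 le_rfl a3 one_ne_zero
    rw [zero_smul, add_zero, H.refl O hO, a1] at this
    exact (mul_pos_iff_of_pos_left a3).1 this
  have key : ∀ v, N v / N 1 = ‖Tm A B v‖ := by
    intro v
    refine tendsto_nhds_unique (tendsto_const_nhds.congr' ?_) (b.lim v)
    filter_upwards [ev v, ev 1, UU_pos] with ρ a1 a2 a3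
    rw [a1, a2, mul_div_mul_left _ _ a3.ne']
  refine ⟨N 1, Λ, A, B, hN1, hΛ, b, fun x hx y hy => ?_⟩
  rw [h2 x hx y hy, ← key, mul_div_cancel₀ _ hN1.ne']

theorem eq_univ {O : ℂ} (hO : O ∈ M) : M = univ := by
  obtain ⟨c, Λ, A, B, hc, hΛ, bl, hd⟩ := H.euclid hO
  by_contra hne
  obtain ⟨Z0, hZ0⟩ := (ne_univ_iff_exists_notMem M).1 hne
  have cT := continuous_Tm A B
  obtain ⟨E, ⟨hE, -⟩, hmin⟩ := ((isCompact_closedBall O (Λ * ‖Z0 - O‖)).inter_left
    H.isOpen.isClosed_compl).exists_isMinOn (f := fun Z => ‖Tm A B (Z - O)‖)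
    ⟨Z0, hZ0, by rw [mem_closedBall_iff_norm]; nlinarith [norm_nonneg (Z0 - O)]⟩ (by fun_prop)
  have inM : ∀ Z, ‖Tm A B (Z - O)‖ < ‖Tm A B (E - O)‖ → Z ∈ M := by
    intro Z hZ
    by_contra hZM
    have a1 : ‖Tm A B (E - O)‖ ≤ ‖Tm A B (Z0 - O)‖ :=
      hmin ⟨hZ0, by rw [mem_closedBall_iff_norm]; nlinarith [norm_nonneg (Z0 - O)]⟩
    rcases le_total ‖Z - O‖ (Λ * ‖Z0 - O‖) with h | h
    · have a2 : ‖Tm A B (E - O)‖ ≤ ‖Tm A B (Z - O)‖ := hmin ⟨hZM, by rwa [mem_closedBall_iff_norm]⟩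
      linarith
    · linarith [bl.ecc _ _ h]
  set e := E - O with he
  have he0 : e ≠ 0 := fun h => hE (by rw [sub_eq_zero.1 h]; exact hO)
  have hR : 0 < ‖Tm A B e‖ := norm_pos_iff.2 (bl.inj e he0)
  have hν : ∀ w, nu M d O w ≠ 0 := fun w h => by
    have := nu_norm M d O w; rw [h] at this; simp at this
  have hV : 0 < ‖Tm A B (nu M d O e)‖ := norm_pos_iff.2 (bl.inj _ (hν e))
  set v := (2 * ‖Tm A B e‖ / ‖Tm A B (nu M d O e)‖) • nu M d O e with hv
  have hv1 : dot (Tm A B e) (Tm A B v) = 0 := by rw [hv, Tm_smul, dot_smul_r, bl.perp e he0, mul_zero]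
  have hv2 : ‖Tm A B v‖ = 2 * ‖Tm A B e‖ := by
    rw [hv, Tm_smul, norm_smul, Real.norm_eq_abs, abs_of_pos (by positivity), div_mul_cancel₀ _ hV.ne']
  have hv3 : cr e v ≠ 0 := by
    rw [hv, cr_smul_r]; exact mul_ne_zero (by positivity) (H.nu_cr hO he0).ne'
  have hee : dot (Tm A B e) (Tm A B e) = ‖Tm A B e‖ ^ 2 := dot_self _
  have hvv : dot (Tm A B v) (Tm A B v) = 4 * ‖Tm A B e‖ ^ 2 := by rw [dot_self, hv2]; ring
  have hv1' : dot (Tm A B v) (Tm A B e) = 0 := by rw [dot_comm, hv1]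
  have cone : ∀ τ k : ℝ, 0 < τ → τ ≤ 1 / 4 → k ^ 2 = 1 → E + (-τ) • (e + k • v) ∈ M := by
    intro τ k h0 h1 hk
    apply inM
    apply lt_of_pow_lt_pow_left₀ 2 hR.le
    have : E + (-τ) • (e + k • v) - O = (1 - τ) • e + (-(τ * k)) • v := by rw [he]; module
    rw [this, ← dot_self]
    simp only [Tm_add, Tm_smul, dot_add_l, dot_add_r, dot_smul_l, dot_smul_r, hee, hvv, hv1, hv1']
    have : 0 < τ * (2 - 5 * τ) * ‖Tm A B e‖ ^ 2 := by
      apply mul_pos (mul_pos h0 (by linarith)) (by positivity)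
    have e2 : -(τ * k) * (-(τ * k) * (4 * ‖Tm A B e‖ ^ 2)) = τ ^ 2 * k ^ 2 * (4 * ‖Tm A B e‖ ^ 2) := by ring
    rw [hk] at e2
    nlinarith
  set a := e + (1 : ℝ) • v with ha
  set b := e + (-1 : ℝ) • v with hb
  have hab : dot (Tm A B b) (Tm A B a) < 0 := by
    simp only [ha, hb, Tm_add, Tm_smul, dot_add_l, dot_add_r, dot_smul_l, dot_smul_r, hee, hvv, hv1, hv1']
    nlinarith
  have hcab : cr a b ≠ 0 := by
    have : cr a b = -2 * cr e v := by
      simp only [ha, hb, cr_add_l, cr_add_r, cr_smul_l, cr_smul_r, cr_self, cr_comm v e]; ring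
    rw [this]; exact mul_ne_zero (by norm_num) hv3
  have hb0 : b ≠ 0 := by rintro h; rw [h] at hcab; simp at hcab
  have mY := cone (1 / 4) 1 (by norm_num) le_rfl (by norm_num)
  have mF := cone (1 / 4) (-1) (by norm_num) le_rfl (by norm_num)
  have mX := cone (1 / 8) (-1) (by norm_num) (by norm_num) (by norm_num)
  rw [← ha] at mY
  rw [← hb] at mF mX
  obtain ⟨P, hP⟩ := H.par _ mY a _ mF (by
    have : E + (-(1 / 4 : ℝ)) • b - (E + (-(1 / 4 : ℝ)) • a) = (1 / 4 : ℝ) • a - (1 / 4 : ℝ) • b := by module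
    rw [this]; simp [hcab])
  set u := nu M d O b with hu
  have hub := bl.perp b hb0
  rw [← hu] at hub
  apply P.no_line (X := E + (-(1 / 8 : ℝ)) • b) (hν b)
  rw [← hu]
  have T : Tendsto (fun s : ℝ => E + (-(1 / 8 : ℝ)) • b + s • u) (𝓝 0) (𝓝 (E + (-(1 / 8 : ℝ)) • b)) := by
    have : Continuous fun s : ℝ => E + (-(1 / 8 : ℝ)) • b + s • u := by fun_prop
    simpa using this.tendsto 0
  have T2 : Tendsto (fun s : ℝ => -(1 / 8 : ℝ) * dot (Tm A B b) (Tm A B a) + s * dot (Tm A B u) (Tm A B a))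
      (𝓝 0) (𝓝 (-(1 / 8 : ℝ) * dot (Tm A B b) (Tm A B a) + 0 * dot (Tm A B u) (Tm A B a))) :=
    (tendsto_id.mul_const _).const_add _
  filter_upwards [H.eventually_mem mX T, T2.eventually (le_mem_nhds (show 0 < _ by linarith))] with s s1 s2
  apply (hP _ s1).1
  set X := E + (-(1 / 8 : ℝ)) • b + s • u with hX
  have n1 : ‖Tm A B (E + (-(1 / 4 : ℝ)) • b - X)‖ = ‖Tm A B (E - X)‖ := by
    rw [← sq_eq_sq₀ (norm_nonneg _) (norm_nonneg _), ← dot_self, ← dot_self]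
    have e1 : E + (-(1 / 4 : ℝ)) • b - X = (-(1 / 8 : ℝ)) • b - s • u := by rw [hX]; module
    have e2 : E - X = (1 / 8 : ℝ) • b - s • u := by rw [hX]; module
    rw [e1, e2]
    simp only [Tm_sub, Tm_smul, dot_sub_l, dot_sub_r, dot_smul_l, dot_smul_r, hub,
      dot_comm (Tm A B u) (Tm A B b)]
    ring
  rw [hd _ s1 _ mF, n1]
  apply le_antisymm
  · apply PM0.le_dl mY
    intro t ht
    rw [hd _ s1 _ ht]
    apply mul_le_mul_of_nonneg_left _ hc.le
    have ht1 : t < 1 / 4 := by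
      by_contra h; rw [not_lt] at h
      apply hE
      have := H.ray_mem mY ht (s := 1 / 4) (by norm_num) h
      have e1 : E + (-(1 / 4 : ℝ)) • a + (1 / 4 : ℝ) • a = E := by module
      rwa [e1] at this
    refine (abs_le_of_sq_le_sq' ?_ (norm_nonneg _)).2
    have e1 : E + (-(1 / 4 : ℝ)) • a + t • a - X = (E - X) + (t - 1 / 4) • a := by module
    have e2 : dot (Tm A B (E - X)) (Tm A B a) =
        -(-(1 / 8 : ℝ) * dot (Tm A B b) (Tm A B a) + s * dot (Tm A B u) (Tm A B a)) := by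
      have e2 : E - X = (1 / 8 : ℝ) • b - s • u := by rw [hX]; module
      rw [e2]; simp only [Tm_sub, Tm_smul, dot_sub_l, dot_smul_l]; ring
    rw [e1, Tm_add, norm_sq_add, Tm_smul A B a, dot_smul_r, e2]
    nlinarith [sq_nonneg ‖(t - 1 / 4) • Tm A B a‖]
  · have T3 : Tendsto (fun τ : ℝ => c * ‖Tm A B (E + (-τ) • a - X)‖) (𝓝[>] 0) (𝓝 (c * ‖Tm A B (E - X)‖)) := by
      have : Continuous fun τ : ℝ => c * ‖Tm A B (E + (-τ) • a - X)‖ := by fun_prop
      simpa using (this.tendsto 0).mono_left nhdsWithin_le_nhds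
    apply ge_of_tendsto T3
    filter_upwards [self_mem_nhdsWithin, mem_nhdsWithin_of_mem_nhds
      (ge_mem_nhds (show (0 : ℝ) < 1 / 4 by norm_num))] with τ t1 t2
    have m := cone τ 1 t1 t2 (by norm_num)
    rw [← ha] at m
    have e1 : E + (-τ) • a = E + (-(1 / 4 : ℝ)) • a + (1 / 4 - τ) • a := by module
    rw [← hd _ s1 _ m]
    rw [e1] at m ⊢
    exact H.dl_le s1 m

end PM

end Pool.Agent.P.MP_ec5bc9_gt.H13
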