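import Pool.Agent.P.MP_ec5bc9_gt.A9

/-! Transfer to the Euclidean plane of the statement: the affine case. -/

set_option autoImplicit false

namespace Pool.Agent.P.MP_ec5bc9_gt.H13

open Set Filter Topology

attribute [-simp] Complex.real_smul

noncomputable def ph : ℂ ≃ₗᵢ[ℝ] EuclideanSpace ℝ (Fin 2) := Complex.orthonormalBasisOneI.repr

lemma par_of {a b c : ℂ} (h : cr b c ≠ 0) : ∃ P : Par, ∀ X, P.q X = 0 ↔ ∃ t : ℝ, a + t • b + (t ^ 2) • c = X := by
  have e1 : ∀ X, dot (-(Complex.I * c)) X = cr X c := fun X => by simp [dot, cr]; ring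
  have e2 : ∀ X, dot (Complex.I * b) X = cr b X := fun X => by simp [dot, cr]; ring
  refine ⟨⟨(cr b c)⁻¹ • (-(Complex.I * c)), (cr b c)⁻¹ • (Complex.I * b), -(cr a c / cr b c),
    -(cr b a / cr b c), ?_⟩, fun X => ?_⟩
  · have : cr (-(Complex.I * c)) (Complex.I * b) = cr b c := by simp [cr]; ring
    rw [cr_smul_l, cr_smul_r, this]
    simp [h]
  · have e : ∀ X, ((cr b c)⁻¹ * cr X c + -(cr a c / cr b c)) ^ 2 - ((cr b c)⁻¹ * cr b X + -(cr b a / cr b c)) =
        (cr (X - a) c / cr b c) ^ 2 - cr b (X - a) / cr b c := fun X => by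
      rw [cr_sub_l, cr_sub_r]; ring
    simp only [Par.q, dot_smul_l, e1, e2, e, sub_eq_zero]
    constructor
    · intro hq
      refine ⟨cr (X - a) c / cr b c, ?_⟩
      rw [hq, add_assoc, ← decomp h]; abel
    · rintro ⟨t, rfl⟩
      have : a + t • b + (t ^ 2) • c - a = t • b + (t ^ 2) • c := by abel
      rw [this]
      simp [h]

theorem affine_case (M : Set (EuclideanSpace ℝ (Fin 2)))
    (d : EuclideanSpace ℝ (Fin 2) → EuclideanSpace ℝ (Fin 2) → ℝ)
    (hO : IsOpen M) (hC : Convex ℝ M) (hne : M.Nonempty)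
    (h0 : ∀ x ∈ M, ∀ y ∈ M, (d x y = 0 ↔ x = y))
    (hs : ∀ x ∈ M, ∀ y ∈ M, d x y = d y x)
    (ht : ∀ x ∈ M, ∀ y ∈ M, ∀ z ∈ M, d x z ≤ d x y + d y z)
    (hb : ∀ x ∈ M, Filter.HasBasis (nhdsWithin x M) (fun r : ℝ => 0 < r)
          (fun r => {y | y ∈ M ∧ d x y < r}))
    (ha : ∀ x ∈ M, ∀ y ∈ M, ∀ z ∈ M, y ∈ segment ℝ x z → d x z = d x y + d y z)
    (hst : ∀ x ∈ M, ∀ y ∈ M, ∀ z ∈ M,
          ¬ Collinear ℝ ({x, y, z} : Set (EuclideanSpace ℝ (Fin 2))) →
          d x z < d x y + d y z)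
    (hp : ∀ p ∈ M, ∀ q ∈ M, p ≠ q → ∀ F ∈ M, F ∉ affineSpan ℝ {p, q} →
          ∃ a b c : EuclideanSpace ℝ (Fin 2), LinearIndependent ℝ ![b, c] ∧
            {X | X ∈ M ∧ d X F = sInf ((fun Y => d X Y) ''
                ((affineSpan ℝ {p, q} : Set (EuclideanSpace ℝ (Fin 2))) ∩ M))}
              = M ∩ Set.range (fun t : ℝ => a + t • b + (t ^ 2) • c)) :
    ∃ c : ℝ, 0 < c ∧ ∃ f : EuclideanSpace ℝ (Fin 2) → EuclideanSpace ℝ (Fin 2),
        (Set.BijOn f M Set.univ ∧ ∀ x ∈ M, ∀ y ∈ M, c * d x y = dist (f x) (f y)) := by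
  have hnn : ∀ x ∈ M, ∀ y ∈ M, 0 ≤ d x y := by
    intro x hx y hy
    have := ht x hx y hy x hx
    rw [(h0 x hx x hx).2 rfl, hs y hy x hx] at this
    linarith
  have hcont : ContinuousOn (fun p : EuclideanSpace ℝ (Fin 2) × EuclideanSpace ℝ (Fin 2) => d p.1 p.2)
      (M ×ˢ M) := by
    rintro ⟨x, y⟩ ⟨hx, hy⟩
    rw [ContinuousWithinAt, nhdsWithin_prod_eq, Metric.tendsto_nhds]
    intro ε hε
    have a1 := (hb x hx).mem_of_mem (show 0 < ε / 2 by linarith)
    have a2 := (hb y hy).mem_of_mem (show 0 < ε / 2 by linarith)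
    filter_upwards [prod_mem_prod a1 a2]
    rintro ⟨x', y'⟩ ⟨⟨b1, b2⟩, ⟨b3, b4⟩⟩
    simp only at *
    rw [Real.dist_eq, abs_lt]
    constructor
    · linarith [ht x hx x' b1 y hy, ht x' b1 y' b3 y hy, hs y' b3 y hy]
    · linarith [ht x' b1 x hx y' b3, ht x hx y hy y' b3, hs x' b1 x hx]
  have H : PM (ph ⁻¹' M) (fun a b => d (ph a) (ph b)) := by
    refine ⟨⟨hO.preimage ph.continuous, hC.linear_preimage ph.toLinearEquiv.toLinearMap,
      fun x hx => (h0 _ hx _ hx).2 rfl, fun x hx y hy hxy => ?_, fun x hx y hy => hs _ hx _ hy,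
      fun x hx y hy z hz => ht _ hx _ hy _ hz, fun x hx z hz t ht' => ?_, ?_⟩, fun x hx y hy z hz hc => ?_,
      fun Y hY w F hF hc => ?_⟩
    · exact lt_of_le_of_ne (hnn _ hx _ hy) fun e => hxy (ph.injective ((h0 _ hx _ hy).1 e.symm))
    · have hm : ph (x + t • (z - x)) ∈ segment ℝ (ph x) (ph z) := by
        rw [segment_eq_image']
        exact ⟨t, ht', by simp⟩
      exact ha _ hx _ (hC.segment_subset hx hz hm) _ hz hm
    · exact hcont.comp (f := fun p : ℂ × ℂ => (ph p.1, ph p.2)) (by fun_prop) (fun p hp => hp)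
    · apply hst _ hx _ hy _ hz
      rw [collinear_iff_of_mem (p₀ := ph x) (by simp)]
      rintro ⟨v, hv⟩
      obtain ⟨r1, e1⟩ := hv (ph y) (by simp)
      obtain ⟨r2, e2⟩ := hv (ph z) (by simp)
      apply hc
      have f1 : y - x = r1 • ph.symm v := by
        apply ph.injective; rw [map_sub, e1]; simp
      have f2 : z - x = r2 • ph.symm v := by
        apply ph.injective; rw [map_sub, e2]; simp
      rw [f1, f2]; simp
    · have hw : w ≠ 0 := by rintro rfl; simp at hc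
      obtain ⟨ε, e1, e2⟩ := (((small_r Y w).eventually ((hO.preimage ph.continuous).mem_nhds hY)).and
        self_mem_nhdsWithin).exists
      have hε : 0 < ε := e2
      have span : ∀ Z, Z ∈ affineSpan ℝ {ph Y, ph (Y + ε • w)} ↔ ∃ s : ℝ, ph (Y + s • w) = Z := by
        intro Z
        rw [mem_affineSpan_pair_iff_exists_lineMap_eq]
        constructor
        · rintro ⟨r, rfl⟩
          exact ⟨r * ε, by simp [AffineMap.lineMap_apply, smul_smul, add_comm]⟩
        · rintro ⟨s, rfl⟩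
          exact ⟨s / ε, by simp [AffineMap.lineMap_apply, smul_smul, add_comm, hε.ne']⟩
      obtain ⟨a, b, c, hbc, hset⟩ := hp _ hY _ e1 (fun e => by
        have := ph.injective e
        simp [hε.ne', hw] at this) _ hF (by
        rw [span]
        rintro ⟨s, e⟩
        apply hc
        rw [← ph.injective e]; simp)
      obtain ⟨P, hP⟩ := par_of (a := ph.symm a) (b := ph.symm b) (c := ph.symm c) (by
        intro e
        rw [LinearIndependent.pair_iff] at hbc
        by_cases hb0 : ph.symm b = 0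
        · have := (hbc 1 0 (by simpa using hb0)).1
          simp at this
        · obtain ⟨s, hs'⟩ := exists_smul_of_cr hb0 e
          have : c = s • b := by simpa using congrArg ph hs'
          have := (hbc s (-1) (by rw [this]; simp)).2
          simp at this)
      refine ⟨P, fun X hX => ?_⟩
      have e3 : dl (ph ⁻¹' M) (fun a b => d (ph a) (ph b)) Y w X = sInf ((fun Z => d (ph X) Z) ''
          ((affineSpan ℝ {ph Y, ph (Y + ε • w)} : Set (EuclideanSpace ℝ (Fin 2))) ∩ M)) := by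
        unfold dl
        congr 1
        ext r
        constructor
        · rintro ⟨s, hs', rfl⟩
          exact ⟨ph (Y + s • w), ⟨(span _).2 ⟨s, rfl⟩, hs'⟩, rfl⟩
        · rintro ⟨Z, ⟨z1, z2⟩, rfl⟩
          obtain ⟨s, rfl⟩ := (span Z).1 z1
          exact ⟨s, z2, rfl⟩
      have e4 := Set.ext_iff.1 hset (ph X)
      rw [e3, hP]
      constructor
      · intro h
        obtain ⟨-, t, ht'⟩ := e4.1 ⟨hX, h⟩
        exact ⟨t, ph.injective (by simpa using ht')⟩
      · rintro ⟨t, ht'⟩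
        exact (e4.2 ⟨hX, t, by simpa using congrArg ph ht'⟩).2
  obtain ⟨x0, hx0⟩ := hne
  have hO' : ph.symm x0 ∈ ph ⁻¹' M := by simpa using hx0
  have hU := H.eq_univ hO'
  obtain ⟨c, Λ, A, B, hc, -, bl, hd⟩ := H.euclid hO'
  have hM : ∀ x, x ∈ M := fun x => by
    have : ph.symm x ∈ ph ⁻¹' M := by rw [hU]; trivial
    simpa using this
  let T : ℂ →ₗ[ℝ] ℂ := ⟨⟨Tm A B, Tm_add A B⟩, fun t v => Tm_smul A B v t⟩
  have hinj : Function.Injective T := (injective_iff_map_eq_zero T).2 fun v hv => by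
    by_contra h; exact bl.inj v h hv
  have hsurj : Function.Surjective T := LinearMap.injective_iff_surjective.1 hinj
  refine ⟨c⁻¹, inv_pos.2 hc, fun x => ph (T (ph.symm x)), ⟨fun _ _ => trivial, fun x _ y _ h => ?_,
    fun z _ => ?_⟩, fun x hx y hy => ?_⟩
  · exact ph.symm.injective (hinj (ph.injective h))
  · obtain ⟨v, hv⟩ := hsurj (ph.symm z)
    exact ⟨ph v, hM _, by simp [hv]⟩
  · have := hd (ph.symm x) (by rw [hU]; trivial) (ph.symm y) (by rw [hU]; trivial)
    simp only [LinearIsometryEquiv.apply_symm_apply] at this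
    rw [this, inv_mul_cancel_left₀ hc.ne', ph.dist_map, dist_comm, dist_eq_norm, ← map_sub T]
    rfl

end Pool.Agent.P.MP_ec5bc9_gt.H13
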