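import Pool.Agent.P.MP_ec5bc9_gt.A6

/-! General conics in the plane and their limits. -/

set_option autoImplicit false

namespace Pool.Agent.P.MP_ec5bc9_gt.H13

open Set Filter Topology

attribute [-simp] Complex.real_smul

/-- A binary quadratic form. -/
structure QF where
  a : ℝ
  b : ℝ
  c : ℝ

namespace QF
variable (A : QF)

def ev (v : ℂ) : ℝ := A.a * v.re ^ 2 + 2 * A.b * (v.re * v.im) + A.c * v.im ^ 2
def ap (v : ℂ) : ℂ := ⟨A.a * v.re + A.b * v.im, A.b * v.re + A.c * v.im⟩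
def det : ℝ := A.a * A.c - A.b ^ 2

@[simp] lemma ev_smul (t : ℝ) (v : ℂ) : A.ev (t • v) = t ^ 2 * A.ev v := by
  simp [ev, Complex.smul_re, Complex.smul_im]; ring
@[simp] lemma ev_neg (v : ℂ) : A.ev (-v) = A.ev v := by simp [ev]
@[simp] lemma ev_zero : A.ev 0 = 0 := by simp [ev]
lemma ev_add (u v : ℂ) : A.ev (u + v) = A.ev u + 2 * dot (A.ap u) v + A.ev v := by
  simp [ev, ap, dot]; ring
lemma continuous_ev : Continuous A.ev := by unfold ev; fun_prop

lemma eq_zero_of_ev (h : ∀ v, A.ev v = 0) : A.a = 0 ∧ A.b = 0 ∧ A.c = 0 := by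
  have h1 := h 1
  have h2 := h Complex.I
  have h3 := h (1 + Complex.I)
  simp [ev] at h1 h2 h3
  exact ⟨h1, by linarith, h2⟩

/-- A form with three pairwise independent zeros vanishes. -/
lemma zero_of_three {u v w : ℂ} (huv : cr u v ≠ 0) (huw : cr u w ≠ 0) (hvw : cr v w ≠ 0)
    (hu : A.ev u = 0) (hv : A.ev v = 0) (hw : A.ev w = 0) (z : ℂ) : A.ev z = 0 := by
  have key : ∀ s t : ℝ, A.ev (s • u + t • v) = 2 * s * t * dot (A.ap u) v := by
    intro s t
    have : dot (A.ap (s • u)) (t • v) = s * t * dot (A.ap u) v := by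
      simp [ap, dot, Complex.smul_re, Complex.smul_im]; ring
    rw [ev_add, ev_smul, ev_smul, hu, hv, this]; ring
  have h0 : dot (A.ap u) v = 0 := by
    rw [decomp huv w, key] at hw
    have h1 : cr w v / cr u v ≠ 0 := div_ne_zero (by rw [cr_comm]; simpa using hvw) huv
    have h2 : cr u w / cr u v ≠ 0 := div_ne_zero huw huv
    simpa [h1, h2] using hw
  rw [decomp huv z, key, h0, mul_zero]

/-- A semidefinite form with two independent zeros vanishes. -/
lemma zero_of_psd {u v : ℂ} (huv : cr u v ≠ 0) (h : ∀ z, 0 ≤ A.ev z) (hu : A.ev u = 0)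
    (hv : A.ev v = 0) (z : ℂ) : A.ev z = 0 := by
  have h1 := h (u + v)
  have h2 := h (u + -v)
  rw [ev_add, hu, hv] at h1
  rw [ev_add, hu, ev_neg, hv, dot_neg_r] at h2
  refine A.zero_of_three (w := u + v) huv (by simpa using huv) ?_ hu hv ?_ z
  · simp only [cr_add_r, cr_self, add_zero]; rw [cr_comm]; simpa using huv
  · rw [ev_add, hu, hv]; linarith

end QF

/-- A quadratic polynomial in the plane. -/
structure Con where
  A : QF
  l : ℂ
  k : ℝ

namespace Con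
variable (C : Con)

def q (X : ℂ) : ℝ := C.A.ev X + dot C.l X + C.k
noncomputable def grad (X : ℂ) : ℂ := C.l + (2 : ℝ) • C.A.ap X
/-- Four times the determinant of the symmetric matrix of the conic is not zero. -/
def ND : Prop :=
  4 * C.k * C.A.det - (C.A.c * C.l.re ^ 2 - 2 * C.A.b * (C.l.re * C.l.im) + C.A.a * C.l.im ^ 2) ≠ 0
def neg : Con := ⟨⟨-C.A.a, -C.A.b, -C.A.c⟩, -C.l, -C.k⟩

lemma q_add (X v : ℂ) : C.q (X + v) = C.q X + dot (C.grad X) v + C.A.ev v := by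
  simp only [q, grad, QF.ev_add, dot_add_r, dot_add_l, dot_smul_l]; ring

lemma q_ray (X v : ℂ) (t : ℝ) :
    C.q (X + t • v) = C.q X + t * dot (C.grad X) v + t ^ 2 * C.A.ev v := by
  rw [q_add]; simp

lemma continuous_q : Continuous C.q := by
  have := C.A.continuous_ev
  unfold q; fun_prop

lemma neg_q (X : ℂ) : C.neg.q X = -C.q X := by simp [q, neg, QF.ev]; ring

lemma ND.neg {C : Con} (h : C.ND) : C.neg.ND := by
  intro e; apply h
  simp only [Con.neg, QF.det, Complex.neg_re, Complex.neg_im] at e ⊢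
  linear_combination -e

lemma ND.shift {C : Con} (h : C.ND) (P : ℂ) : 4 * C.q P * C.A.det - (C.A.c * (C.grad P).re ^ 2
    - 2 * C.A.b * ((C.grad P).re * (C.grad P).im) + C.A.a * (C.grad P).im ^ 2) ≠ 0 := by
  intro e; apply h
  simp only [q, grad, QF.det, QF.ev, QF.ap, dot, Complex.add_re, Complex.add_im, Complex.smul_re,
    Complex.smul_im, smul_eq_mul] at e ⊢
  linear_combination e

/-- A nondegenerate conic has no singular point. -/
lemma ND.grad_ne {C : Con} (h : C.ND) {P : ℂ} (hP : C.q P = 0) : C.grad P ≠ 0 := by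
  intro e
  apply h.shift P
  rw [hP, e]; simp

/-- A nondegenerate conic has no three collinear points. -/
lemma ND.no_three {C : Con} (h : C.ND) {P v : ℂ} {s t : ℝ} (hv : v ≠ 0) (hs : 0 < s) (hst : s < t)
    (h0 : C.q P = 0) (h1 : C.q (P + s • v) = 0) (h2 : C.q (P + t • v) = 0) : False := by
  rw [q_ray, h0] at h1 h2
  have e1 : C.A.ev v = 0 := by
    have : s * t * (t - s) * C.A.ev v = 0 := by linear_combination s * h2 - t * h1
    exact (mul_eq_zero.1 this).resolve_left (by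
      have : 0 < t := hs.trans hst
      have : 0 < t - s := by linarith
      positivity)
  have e2 : dot (C.grad P) v = 0 := by
    rw [e1] at h1
    have : s * dot (C.grad P) v = 0 := by linarith
    exact (mul_eq_zero.1 this).resolve_left hs.ne'
  obtain ⟨r, hr⟩ := exists_smul_of_cr (w := Complex.I * v) (v := C.grad P)
    (mul_ne_zero Complex.I_ne_zero hv) (by
      simp only [cr, dot, Complex.mul_re, Complex.mul_im, Complex.I_re, Complex.I_im] at e2 ⊢
      linear_combination -e2)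
  apply h.shift P
  rw [h0, hr]
  simp only [QF.ev, Complex.smul_re, Complex.smul_im, smul_eq_mul, Complex.mul_re, Complex.mul_im,
    Complex.I_re, Complex.I_im] at e1 ⊢
  linear_combination (-r ^ 2) * e1

/-- first order behaviour along a ray -/
lemma slope_nonneg {X v : ℂ} (h0 : C.q X = 0) (h : ∀ᶠ t in 𝓝[>] (0 : ℝ), 0 ≤ C.q (X + t • v)) :
    0 ≤ dot (C.grad X) v := by
  have T : Tendsto (fun t : ℝ => dot (C.grad X) v + t * C.A.ev v) (𝓝[>] 0)
      (𝓝 (dot (C.grad X) v + 0 * C.A.ev v)) :=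
    (((tendsto_id.mono_left nhdsWithin_le_nhds)).mul_const _).const_add _
  rw [zero_mul, add_zero] at T
  apply ge_of_tendsto T
  filter_upwards [h, self_mem_nhdsWithin] with t h1 h2
  have ht : 0 < t := h2
  rw [q_ray, h0] at h1
  by_contra hc
  rw [not_le] at hc
  nlinarith [mul_neg_of_pos_of_neg ht hc]

lemma ev_neg_of_slope {X v : ℂ} (h0 : C.q X = 0) (h : dot (C.grad X) v < 0) :
    ∀ᶠ t in 𝓝[>] (0 : ℝ), C.q (X + t • v) < 0 := by
  have T : Tendsto (fun t : ℝ => dot (C.grad X) v + t * C.A.ev v) (𝓝[>] 0)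
      (𝓝 (dot (C.grad X) v + 0 * C.A.ev v)) :=
    (((tendsto_id.mono_left nhdsWithin_le_nhds)).mul_const _).const_add _
  rw [zero_mul, add_zero] at T
  filter_upwards [T.eventually (gt_mem_nhds h), self_mem_nhdsWithin] with t h1 h2
  have ht : 0 < t := h2
  rw [q_ray, h0]
  nlinarith [mul_neg_of_pos_of_neg ht h1]

lemma slope_nonpos {X v : ℂ} (h0 : C.q X = 0) (h : ∀ᶠ t in 𝓝[>] (0 : ℝ), C.q (X + t • v) ≤ 0) :
    dot (C.grad X) v ≤ 0 := by
  by_contra hc
  rw [not_le] at hc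
  have T : Tendsto (fun t : ℝ => dot (C.grad X) v + t * C.A.ev v) (𝓝[>] 0)
      (𝓝 (dot (C.grad X) v + 0 * C.A.ev v)) :=
    (((tendsto_id.mono_left nhdsWithin_le_nhds)).mul_const _).const_add _
  rw [zero_mul, add_zero] at T
  obtain ⟨t, h1, h2, h3⟩ := (h.and ((T.eventually (lt_mem_nhds hc)).and self_mem_nhdsWithin)).exists
  have ht : 0 < t := h3
  rw [q_ray, h0] at h1
  nlinarith [mul_pos ht h2]

@[simp] lemma q_zero : C.q 0 = C.k := by simp [q]
@[simp] lemma grad_zero : C.grad 0 = C.l := by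
  apply Complex.ext <;> simp [grad, QF.ap, Complex.smul_re, Complex.smul_im]

end Con

/-- the quadratic polynomial with a given vector of coefficients -/
def conOf (x : ℝ × ℝ × ℝ × ℂ × ℝ) : Con := ⟨⟨x.1, x.2.1, x.2.2.1⟩, x.2.2.2.1, x.2.2.2.2⟩

lemma conOf_smul (t : ℝ) (x : ℝ × ℝ × ℝ × ℂ × ℝ) (W : ℂ) :
    (conOf (t • x)).q W = t * (conOf x).q W := by
  simp [conOf, Con.q, QF.ev]; ring

lemma continuous_conOf : Continuous fun p : (ℝ × ℝ × ℝ × ℂ × ℝ) × ℂ => (conOf p.1).q p.2 := by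
  simp only [conOf, Con.q, QF.ev]; fun_prop

lemma tendsto_conOf {ι : Type*} {l : Filter ι} {x : ι → ℝ × ℝ × ℝ × ℂ × ℝ} {Wi : ι → ℂ}
    {y : ℝ × ℝ × ℝ × ℂ × ℝ} {W : ℂ} (hx : Tendsto x l (𝓝 y)) (hW : Tendsto Wi l (𝓝 W)) :
    Tendsto (fun i => (conOf (x i)).q (Wi i)) l (𝓝 ((conOf y).q W)) := by
  have h := (continuous_conOf.tendsto (y, W)).comp (hx.prodMk_nhds hW)
  simpa only [Function.comp_def] using h

/-- Rescaled conics have a nonzero limit after normalisation. -/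
lemma con_limit {ι : Type*} (U : Ultrafilter ι) (C : ι → Con) (F : ℂ) (ρ : ι → ℝ)
    (h : ∀ᶠ i in (U : Filter ι), (C i).q F ≠ 0) :
    ∃ C0 : Con, ¬ ((∀ v, C0.A.ev v = 0) ∧ C0.l = 0 ∧ C0.k = 0) ∧
      ∀ (W : ℂ) (Wi : ι → ℂ), Tendsto Wi U (𝓝 W) →
      ((∀ᶠ i in (U : Filter ι), (C i).q (F + ρ i • Wi i) ≤ 0) → C0.q W ≤ 0) ∧
      ((∀ᶠ i in (U : Filter ι), 0 ≤ (C i).q (F + ρ i • Wi i)) → 0 ≤ C0.q W) := by
  obtain ⟨x, hx⟩ : ∃ x : ι → ℝ × ℝ × ℝ × ℂ × ℝ, ∀ i, x i = (ρ i ^ 2 * (C i).A.a,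
    ρ i ^ 2 * (C i).A.b, ρ i ^ 2 * (C i).A.c, ρ i • (C i).grad F, (C i).q F) := ⟨_, fun _ => rfl⟩
  have e : ∀ i W, (C i).q (F + ρ i • W) = (conOf (x i)).q W := by
    intro i W
    rw [Con.q_ray]
    simp only [hx, conOf, Con.q, QF.ev, dot_smul_l]; ring
  have hpos : ∀ᶠ i in (U : Filter ι), 0 < ‖x i‖ := by
    filter_upwards [h] with i hi
    refine norm_pos_iff.2 fun e0 => hi ?_
    rw [hx] at e0
    exact congrArg (fun y : ℝ × ℝ × ℝ × ℂ × ℝ => y.2.2.2.2) e0
  obtain ⟨y, hy, hT⟩ := ultra_lim U (isCompact_sphere (0 : ℝ × ℝ × ℝ × ℂ × ℝ) 1)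
    (f := fun i => ‖x i‖⁻¹ • x i) (by
      filter_upwards [hpos] with i hi
      rw [mem_sphere_zero_iff_norm, norm_smul, norm_inv, norm_norm, inv_mul_cancel₀ hi.ne'])
  refine ⟨conOf y, ?_, fun W Wi hW => ?_⟩
  · rintro ⟨h1, h2, h3⟩
    obtain ⟨a1, a2, a3⟩ := QF.eq_zero_of_ev _ h1
    have : y = 0 := Prod.ext a1 (Prod.ext a2 (Prod.ext a3 (Prod.ext h2 h3)))
    rw [this] at hy; simp at hy
  have T := tendsto_conOf hT hW
  simp only [conOf_smul] at T
  simp only [e]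
  constructor
  · intro h1
    apply le_of_tendsto T
    filter_upwards [h1, hpos] with i e2 e3
    exact mul_nonpos_of_nonneg_of_nonpos (inv_pos.2 e3).le e2
  · intro h1
    apply ge_of_tendsto T
    filter_upwards [h1, hpos] with i e2 e3
    exact mul_nonneg (inv_pos.2 e3).le e2

end Pool.Agent.P.MP_ec5bc9_gt.H13
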