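import Pool.Agent.P.MP_ec5bc9_gt.G0

/-! The two sides of a parabolic conic, and convexity of compact balls. -/

set_option autoImplicit false

namespace Pool.Agent.P.MP_ec5bc9_gt.H13

open Set Filter Topology

attribute [-simp] Complex.real_smul

/-- A projective metric all of whose parabolic conics are cut out by nondegenerate conics. -/
structure PG (M : Set ℂ) (d : ℂ → ℂ → ℝ) : Prop extends PM0 M d where
  strict : ∀ x ∈ M, ∀ y ∈ M, ∀ z ∈ M, cr (y - x) (z - x) ≠ 0 → d x z < d x y + d y z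
  con : ∀ Y ∈ M, ∀ w F : ℂ, F ∈ M → cr w (F - Y) ≠ 0 →
    ∃ C : Con, C.ND ∧ ∀ X ∈ M, (d X F = dl M d Y w X ↔ C.q X = 0)

structure Side (M : Set ℂ) (d : ℂ → ℂ → ℝ) (Y w F : ℂ) (C : Con) : Prop where
  nd : C.ND
  le : ∀ X ∈ M, ff M d Y w F X ≤ 0 ↔ C.q X ≤ 0
  ge : ∀ X ∈ M, 0 ≤ ff M d Y w F X ↔ 0 ≤ C.q X

lemma Side.lt {M : Set ℂ} {d : ℂ → ℂ → ℝ} {Y w F : ℂ} {C : Con} (S : Side M d Y w F C) {X : ℂ}
    (hX : X ∈ M) : ff M d Y w F X < 0 ↔ C.q X < 0 := by
  rw [← not_le, ← not_le, S.ge X hX]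

namespace PM0
variable {M : Set ℂ} {d : ℂ → ℂ → ℝ} (H : PM0 M d) {Y w F : ℂ}
include H

lemma side_of {C : Con} (hY : Y ∈ M) (hF : F ∈ M) (h : cr w (F - Y) ≠ 0) (nd : C.ND)
    (hC : ∀ X ∈ M, (d X F = dl M d Y w X ↔ C.q X = 0)) (hin : C.q F < 0) : Side M d Y w F C := by
  have cut : ∀ X ∈ M, ff M d Y w F X = 0 ↔ C.q X = 0 := fun X hX => by
    rw [← hC X hX, ff, sub_eq_zero]
  have hcont : ∀ v : ℂ, Continuous fun τ : ℝ => C.q (F + τ • v) := fun v => by
    have := C.continuous_q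
    fun_prop
  have two : ∀ {v : ℂ} {s t : ℝ}, F + t • v ∈ M → 0 ≤ s → s < t → C.q (F + s • v) = 0 →
      C.q (F + t • v) = 0 → False := by
    intro v s t ht h0 hst hs0 ht0
    have hs := H.ray_mem hF ht h0 hst.le
    have hm := H.ray_mem hF ht (s := (s + t) / 2) (by linarith) (by linarith)
    have a1 := H.ff_mono (w := w) hY hF ht (s := (s + t) / 2) (by linarith) (by linarith)
    have a2 := H.ff_mono (w := w) hY hF hm (s := s) h0 (by linarith)
    rw [(cut _ ht).2 ht0] at a1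
    rw [(cut _ hs).2 hs0] at a2
    have hm0 := (cut _ hm).1 (le_antisymm a1 a2)
    have hv : v ≠ 0 := by
      rintro rfl
      rw [smul_zero, add_zero] at hs0
      exact hin.ne hs0
    refine nd.no_three (s := (t - s) / 2) (t := t - s) hv (by linarith) (by linarith) hs0 ?_ ?_
    · rw [← hm0]; congr 1; module
    · rw [← ht0]; congr 1; module
  have neg : ∀ X ∈ M, ff M d Y w F X < 0 → C.q X < 0 := by
    intro X hX hn
    by_contra hc
    rw [not_lt] at hc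
    obtain ⟨τ, hτ, e⟩ := intermediate_value_Icc (zero_le_one' ℝ) (hcont (X - F)).continuousOn
      (show (0 : ℝ) ∈ Icc _ _ from ⟨by simpa using hin.le, by simpa using hc⟩)
    have h1 : F + (1 : ℝ) • (X - F) ∈ M := by simpa using hX
    have := H.ff_mono (w := w) hY hF h1 hτ.1 hτ.2
    rw [(cut _ (H.seg_mem hF hX hτ.1 hτ.2)).2 e] at this
    simp only [one_smul, add_sub_cancel] at this
    linarith
  have hnn : ∀ X ∈ M, C.q X < 0 → ∀ τ ∈ Icc (0 : ℝ) 1, C.q (F + τ • (X - F)) ≤ 0 := by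
    intro X hX hX' τ hτ
    have h1 : F + (1 : ℝ) • (X - F) ∈ M := by simpa using hX
    by_contra hc
    rw [not_le] at hc
    obtain ⟨s, hs, es⟩ := intermediate_value_Icc hτ.1 (hcont (X - F)).continuousOn
      (show (0 : ℝ) ∈ Icc _ _ from ⟨by simpa using hin.le, hc.le⟩)
    obtain ⟨t, ht, et⟩ := intermediate_value_Icc' hτ.2 (hcont (X - F)).continuousOn
      (show (0 : ℝ) ∈ Icc _ _ from ⟨by simpa using hX'.le, hc.le⟩)
    have hsτ : s ≠ τ := by rintro rfl; exact hc.ne' es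
    exact two (H.ray_mem hF h1 (hτ.1.trans ht.1) ht.2) hs.1
      (lt_of_lt_of_le (lt_of_le_of_ne hs.2 hsτ) ht.1) es et
  have pos : ∀ X ∈ M, 0 < ff M d Y w F X → 0 < C.q X := by
    intro X hX hp
    by_contra hc
    have hq : C.q X < 0 := lt_of_le_of_ne (not_lt.1 hc) fun e => hp.ne' ((cut X hX).2 e)
    obtain ⟨τ, hτ, e⟩ := H.ff_exists_zero hY hF h hX hp.le
    have e' := (cut _ (H.seg_mem hF hX hτ.1 hτ.2)).1 e
    have hτ0 : 0 < τ := lt_of_le_of_ne hτ.1 (by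
      rintro rfl
      rw [zero_smul, add_zero] at e'
      exact hin.ne e')
    obtain ⟨g, hg⟩ : ∃ g, g = C.grad (F + τ • (X - F)) := ⟨_, rfl⟩
    have hg0 : g ≠ 0 := hg ▸ nd.grad_ne e'
    have := C.slope_nonpos (v := τ • g) e' (by
      filter_upwards [H.eventually_mem hX (small_r X g),
        ((C.continuous_q.tendsto X).comp (small_r X g)).eventually (gt_mem_nhds hq)] with ε h1 h2
      have := hnn _ h1 h2 τ hτ
      rwa [show F + τ • (X + ε • g - F) = F + τ • (X - F) + ε • τ • g by module] at this)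
    rw [← hg, dot_smul_r, dot_self] at this
    have := mul_pos hτ0 (pow_pos (norm_pos_iff.2 hg0) 2)
    linarith
  refine ⟨nd, fun X hX => ⟨fun h1 => ?_, fun h1 => ?_⟩, fun X hX => ⟨fun h1 => ?_, fun h1 => ?_⟩⟩
  · rcases h1.eq_or_lt with h2 | h2
    · exact ((cut X hX).1 h2).le
    · exact (neg X hX h2).le
  · exact not_lt.1 fun h2 => absurd (pos X hX h2) (not_lt.2 h1)
  · rcases h1.eq_or_lt with h2 | h2
    · exact ((cut X hX).1 h2.symm).ge
    · exact (pos X hX h2).le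
  · exact not_lt.1 fun h2 => absurd (neg X hX h2) (not_lt.2 h1)

/-- Points on the other side of the line are nearer to the line than to the focus. -/
lemma ff_below (hY : Y ∈ M) (hF : F ∈ M) (h : 0 < cr w (F - Y)) {X : ℂ} (hX : X ∈ M)
    (hc : cr w (X - Y) ≤ 0) : 0 < ff M d Y w F X := by
  have hw : w ≠ 0 := by rintro rfl; simp at h
  have hden : 0 < cr w (F - Y) - cr w (X - Y) := by linarith
  set τ := cr w (F - Y) / (cr w (F - Y) - cr w (X - Y)) with hτ
  have hτ0 : 0 ≤ τ := div_nonneg h.le hden.le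
  have hτ1 : τ ≤ 1 := (div_le_one hden).2 (by linarith)
  obtain ⟨s, hs⟩ := exists_smul_of_cr (v := F + τ • (X - F) - Y) hw (by
    have : F + τ • (X - F) - Y = (F - Y) + τ • ((X - Y) - (F - Y)) := by module
    rw [this, cr_add_r, cr_smul_r, cr_sub_r w (X - Y), hτ]; field_simp; ring)
  have e : F + τ • (X - F) = Y + s • w := by rw [← hs]; abel
  have h1 : F + (1 : ℝ) • (X - F) ∈ M := by simpa using hX
  have a1 := H.ff_mono (w := w) hY hF h1 hτ0 hτ1
  have a2 := H.ff_line hF h.ne' (s := s) (e ▸ H.seg_mem hF hX hτ0 hτ1)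
  rw [e] at a1
  simp only [one_smul, add_sub_cancel] at a1
  linarith

end PM0

namespace PG
variable {M : Set ℂ} {d : ℂ → ℂ → ℝ} (H : PG M d)
include H

lemma side {Y w F : ℂ} (hY : Y ∈ M) (hF : F ∈ M) (h : cr w (F - Y) ≠ 0) :
    ∃ C : Con, Side M d Y w F C := by
  obtain ⟨C, nd, hC⟩ := H.con Y hY w F hF h
  have hne : C.q F ≠ 0 := fun e => by
    have := H.ff_focus hY hF h
    rw [ff, (hC F hF).2 e] at this
    simp at this
  rcases lt_or_gt_of_ne hne with h1 | h1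
  · exact ⟨C, H.side_of hY hF h nd hC h1⟩
  · exact ⟨C.neg, H.side_of hY hF h nd.neg (fun X hX => by rw [hC X hX, C.neg_q, neg_eq_zero])
      (by rw [C.neg_q]; linarith)⟩

/-- Between two nearest points of a line there is no farther point. -/
lemma two_feet {X Y w : ℂ} {r s1 s2 : ℝ} (hX : X ∈ M) (hY : Y ∈ M) (hc : cr w (X - Y) ≠ 0)
    (hr : 0 < r) (h1 : s1 < 0) (h2 : 0 < s2) (m1 : Y + s1 • w ∈ M) (m2 : Y + s2 • w ∈ M)
    (hge : ∀ s : ℝ, Y + s • w ∈ M → r ≤ d X (Y + s • w)) (d1 : d X (Y + s1 • w) ≤ r)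
    (d2 : d X (Y + s2 • w) ≤ r) (hlt : r < d X Y) : False := by
  have hcont : ContinuousOn (fun τ : ℝ => d X (X + τ • (Y - X))) (Icc 0 1) :=
    H.continuousOn continuousOn_const (by fun_prop) (fun _ _ => hX)
      (fun τ hτ => H.seg_mem hX hY hτ.1 hτ.2)
  obtain ⟨τ, hτ, e⟩ := intermediate_value_Icc (zero_le_one' ℝ) hcont
    (show r ∈ Icc _ _ from ⟨by simpa [H.refl X hX] using hr.le, by simpa using hlt.le⟩)
  simp only at e
  have hτ0 : 0 < τ := lt_of_le_of_ne hτ.1 (by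
    rintro rfl; simp [H.refl X hX] at e; linarith)
  have hτ1 : τ < 1 := lt_of_le_of_ne hτ.2 (by rintro rfl; simp at e; linarith)
  obtain ⟨F, hFd⟩ : ∃ F, F = X + τ • (Y - X) := ⟨_, rfl⟩
  have hF : F ∈ M := hFd ▸ H.seg_mem hX hY hτ.1 hτ.2
  rw [← hFd] at e
  obtain ⟨C, S⟩ := H.side (w := w) hY hF (by
    rw [show F - Y = (1 - τ) • (X - Y) by rw [hFd]; module, cr_smul_r]
    exact mul_ne_zero (by linarith) hc)
  have hdl : dl M d Y w X = r :=
    le_antisymm ((H.dl_le hX m1).trans d1) (PM0.le_dl hY hge)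
  have f0 : ff M d Y w F X = 0 := by rw [ff, hdl, e, sub_self]
  have q0 : C.q X = 0 := le_antisymm ((S.le X hX).1 f0.le) ((S.ge X hX).1 f0.ge)
  have up : ∀ s : ℝ, Y + s • w ∈ M → d X (Y + s • w) ≤ r →
      0 ≤ dot (C.grad X) (Y + s • w - X) := by
    intro s hs hd
    refine C.slope_nonneg q0 ?_
    filter_upwards [Ioo_mem_nhdsGT (zero_lt_one' ℝ)] with t ht
    have hm := H.seg_mem hX hs ht.1.le ht.2.le
    rw [← S.ge _ hm, ff]
    linarith [H.add X hX _ hs t ⟨ht.1.le, ht.2.le⟩, H.dl_le (Y := Y) (w := w) hm hs,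
      H.tri X hX _ hm F hF]
  have down : dot (C.grad X) (Y - X) ≤ 0 := by
    refine C.slope_nonpos q0 ?_
    filter_upwards [Ioo_mem_nhdsGT hτ0] with t ht
    have e1 : F + τ • (X - Y) = X := by rw [hFd]; module
    have e2 : F + (τ - t) • (X - Y) = X + t • (Y - X) := by rw [hFd]; module
    have a := H.ff_mono (w := w) hY hF (v := X - Y) (s := τ - t) (t := τ) (by rwa [e1])
      (by linarith [ht.2]) (by linarith [ht.1])
    rw [e1, e2, f0] at a
    exact (S.le _ (H.seg_mem hX hY ht.1.le (by linarith [ht.2]))).1 a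
  have u1 := up s1 m1 d1
  have u2 := up s2 m2 d2
  rw [show Y + s1 • w - X = (Y - X) + s1 • w by abel, dot_add_r, dot_smul_r] at u1
  rw [show Y + s2 • w - X = (Y - X) + s2 • w by abel, dot_add_r, dot_smul_r] at u2
  have gw : dot (C.grad X) w = 0 := by
    rcases lt_trichotomy (dot (C.grad X) w) 0 with h | h | h
    · nlinarith
    · exact h
    · nlinarith
  rw [gw] at u1
  refine S.nd.grad_ne q0 (eq_zero_of_dot hc gw ?_)
  rw [← neg_sub, dot_neg_r]; linarith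

/-- Compact balls are convex. -/
lemma ball_convex {X : ℂ} {r : ℝ} (hX : X ∈ M) (hr : 0 < r)
    (hK : IsCompact {Z | Z ∈ M ∧ d X Z ≤ r}) {Y1 Y2 : ℂ} (m1 : Y1 ∈ M) (m2 : Y2 ∈ M)
    (d1 : d X Y1 ≤ r) (d2 : d X Y2 ≤ r) {θ : ℝ} (hθ : θ ∈ Icc (0 : ℝ) 1) :
    d X (Y1 + θ • (Y2 - Y1)) ≤ r := by
  by_contra hcon
  rw [not_le] at hcon
  obtain ⟨e, he⟩ : ∃ e, e = Y1 + θ • (Y2 - Y1) - X := ⟨_, rfl⟩
  have hXe : X + (1 : ℝ) • e = Y1 + θ • (Y2 - Y1) := by rw [he]; module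
  have he0 : e ≠ 0 := by
    intro h
    rw [← hXe, h] at hcon
    simp [H.refl X hX] at hcon; linarith
  have hee : 0 < dot e e := by rw [dot_self]; exact pow_pos (norm_pos_iff.2 he0) 2
  obtain ⟨⟨A, B, θ0⟩, ⟨⟨hA, hB, hθ0⟩, hcr⟩, hmax⟩ := ((hK.prod (hK.prod (isCompact_Icc
    (a := (0 : ℝ)) (b := 1)))).inter_right (t := {p : ℂ × ℂ × ℝ |
      cr e (p.1 + p.2.2 • (p.2.1 - p.1) - X) = 0})
      (isClosed_eq (by fun_prop) continuous_const)).exists_isMaxOn
    (f := fun p : ℂ × ℂ × ℝ => dot e (p.1 + p.2.2 • (p.2.1 - p.1) - X))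
    ⟨(Y1, Y2, θ), ⟨⟨m1, d1⟩, ⟨m2, d2⟩, hθ⟩, by simp only [mem_ofPred_eq, ← he, cr_self]⟩ (by fun_prop)
  simp only [mem_ofPred_eq] at hA hB hθ0 hcr
  obtain ⟨Y, hYd⟩ : ∃ Y, Y = A + θ0 • (B - A) := ⟨_, rfl⟩
  have hY : Y ∈ M := hYd ▸ H.seg_mem hA.1 hB.1 hθ0.1 hθ0.2
  rw [← hYd] at hcr
  have hm : ∀ U V : ℂ, ∀ τ : ℝ, U ∈ M → d X U ≤ r → V ∈ M → d X V ≤ r → τ ∈ Icc (0 : ℝ) 1 →
      cr e (U + τ • (V - U) - X) = 0 → dot e (U + τ • (V - U) - X) ≤ dot e (Y - X) := by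
    intro U V τ a1 a2 a3 a4 a5 a6
    have := hmax (a := (U, V, τ)) ⟨⟨⟨a1, a2⟩, ⟨a3, a4⟩, a5⟩, a6⟩
    rw [hYd]; exact this
  obtain ⟨t, ht⟩ := exists_smul_of_cr he0 hcr
  have ht1 : 1 ≤ t := by
    have := hm Y1 Y2 θ m1 d1 m2 d2 hθ (by rw [← he, cr_self])
    rw [← he, ht, dot_smul_r] at this
    nlinarith
  have hYe : X + t • e = Y := by rw [← ht]; abel
  have hlt : r < d X Y := by
    have := H.ray_mono hX (hYe ▸ hY) zero_le_one ht1
    rw [hXe, hYe] at this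
    linarith
  have h0 : 0 < θ0 := lt_of_le_of_ne hθ0.1 (by
    rintro rfl; rw [zero_smul, add_zero] at hYd; rw [hYd] at hlt; linarith [hA.2])
  have h1 : θ0 < 1 := lt_of_le_of_ne hθ0.2 (by
    rintro rfl; rw [one_smul, add_sub_cancel] at hYd; rw [hYd] at hlt; linarith [hB.2])
  obtain ⟨w, hw⟩ : ∃ w, w = B - A := ⟨_, rfl⟩
  have eA : A = Y + (-θ0) • w := by rw [hYd, hw]; module
  have eB : B = Y + (1 - θ0) • w := by rw [hYd, hw]; module
  have key : ∀ a b x y : ℝ, a < 0 → 0 < b → 0 ≤ x → 0 ≤ y → 0 < x + y →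
      Y + a • w + x • e ∈ M → d X (Y + a • w + x • e) ≤ r → Y + b • w + y • e ∈ M →
      d X (Y + b • w + y • e) ≤ r → False := by
    intro a b x y ha hb hx hy hxy a1 a2 a3 a4
    have hba : 0 < b - a := by linarith
    have t0 : 0 < -a / (b - a) := div_pos (by linarith) hba
    have t1 : -a / (b - a) < 1 := (div_lt_one hba).2 (by linarith)
    have t2 : -a / (b - a) * (b - a) = -a := div_mul_cancel₀ _ hba.ne'
    generalize -a / (b - a) = τ at t0 t1 t2
    have e1 : Y + a • w + x • e + τ • (Y + b • w + y • e - (Y + a • w + x • e)) - X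
        = (Y - X) + ((1 - τ) * x + τ * y) • e := by
      have : a = -(τ * (b - a)) := by linarith
      have e2 : a • w = -(τ * (b - a)) • w := by rw [← this]
      linear_combination (norm := module) e2
    have := hm _ _ τ a1 a2 a3 a4 ⟨t0.le, t1.le⟩ (by rw [e1, cr_add_r, hcr]; simp)
    rw [e1, dot_add_r, dot_smul_r] at this
    have p : 0 < (1 - τ) * x + τ * y := by
      rcases hx.eq_or_lt with h | h
      · rw [← h] at hxy ⊢; nlinarith
      · nlinarith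
    nlinarith
  have hge : ∀ s : ℝ, Y + s • w ∈ M → r ≤ d X (Y + s • w) := by
    intro s hs
    by_contra hc
    rw [not_le] at hc
    obtain ⟨ε, b1, b2, b3⟩ := ((H.eventually_mem hs (small_r _ e)).and
      (((H.tendsto hX hs tendsto_const_nhds (small_r _ e)).eventually (gt_mem_nhds hc)).and
        self_mem_nhdsWithin)).exists
    have hε : 0 < ε := b3
    rcases lt_trichotomy s 0 with h | h | h
    · exact key s (1 - θ0) ε 0 h (by linarith) hε.le le_rfl (by linarith) b1 b2.le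
        (by rw [zero_smul, add_zero, ← eB]; exact hB.1) (by rw [zero_smul, add_zero, ← eB]; exact hB.2)
    · rw [h, zero_smul, add_zero] at hc; linarith
    · exact key (-θ0) s 0 ε (by linarith) h le_rfl hε.le (by linarith)
        (by rw [zero_smul, add_zero, ← eA]; exact hA.1) (by rw [zero_smul, add_zero, ← eA]; exact hA.2)
        b1 b2.le
  have hw0 : w ≠ 0 := by
    intro h
    rw [h, smul_zero, add_zero] at eA
    rw [← eA] at hlt; linarith [hA.2]
  refine H.two_feet hX hY (w := w) (fun h => ?_) hr (s1 := -θ0) (s2 := 1 - θ0) (by linarith)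
    (by linarith) (eA ▸ hA.1) (eB ▸ hB.1) hge (eA ▸ hA.2) (eB ▸ hB.2) hlt
  obtain ⟨s, hs⟩ := exists_smul_of_cr hw0 h
  have e1 : Y + s • w = X := by rw [← hs]; abel
  have := hge s (e1 ▸ hX)
  rw [e1, H.refl X hX] at this
  linarith

end PG

end Pool.Agent.P.MP_ec5bc9_gt.H13
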