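import Pool.Agent.P.MP_ec5bc9_gt.G9

/-! The domain has no boundary point inside the model. -/

set_option autoImplicit false

namespace Pool.Agent.P.MP_ec5bc9_gt.H13

open Set Filter Topology

attribute [-simp] Complex.real_smul

/-- the point with coordinates `a`, `b` in the frame `E`, `i E` -/
def pt (E : ℂ) (a b : ℝ) : ℂ := ⟨a * E.re - b * E.im, a * E.im + b * E.re⟩

lemma pt_one (E : ℂ) : pt E 1 0 = E := by apply Complex.ext <;> simp [pt]
lemma pt_lin (E : ℂ) (a b a' b' s : ℝ) : pt E a b + s • pt E a' b' = pt E (a + s * a') (b + s * b') := by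
  apply Complex.ext <;> simp [pt, Complex.smul_re, Complex.smul_im] <;> ring
lemma pt_sub (E : ℂ) (a b a' b' : ℝ) : pt E a b - pt E a' b' = pt E (a - a') (b - b') := by
  apply Complex.ext <;> simp [pt] <;> ring
lemma pt_smul (E : ℂ) (a b s : ℝ) : s • pt E a b = pt E (s * a) (s * b) := by
  apply Complex.ext <;> simp [pt, Complex.smul_re, Complex.smul_im] <;> ring
lemma dot_pt (E : ℂ) (a b a' b' : ℝ) : dot (pt E a b) (pt E a' b') = dot E E * (a * a' + b * b') := by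
  simp only [pt, dot]; ring
lemma cr_pt (E : ℂ) (a b a' b' : ℝ) : cr (pt E a b) (pt E a' b') = dot E E * (a * b' - b * a') := by
  simp only [pt, dot, cr]; ring
lemma cr_pt' (p E : ℂ) (a b : ℝ) : cr p (pt E a b) = a * cr p E + b * dot p E := by
  simp only [pt, dot, cr]; ring
lemma be_pt (e : ℝ) (E : ℂ) (a b t a' b' t' : ℝ) :
    be e (pt E a b) t (pt E a' b') t' = t * t' + e * dot E E * (a * a' + b * b') := by
  rw [be, dot_pt]; ring
lemma Pb_pt (e : ℝ) (E : ℂ) (a b t a1 b1 t1 a2 b2 t2 : ℝ) :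
    Pb e (pt E a b) t (pt E a1 b1) t1 (pt E a2 b2) t2 = dot E E * ((t * a1 - t1 * a) * (t * a2 - t2 * a)
      + (t * b1 - t1 * b) * (t * b2 - t2 * b) + e * dot E E * ((a * b1 - b * a1) * (a * b2 - b * a2))) := by
  simp only [Pb, pt_smul, pt_sub, dot_pt, cr_pt]; ring

/-- the part of the domain seen in the chart centred at the origin -/
def Mp (M : Set ℂ) (p : ℂ) : Set ℂ := {y | 0 < 1 - cr p y ∧ (1 - cr p y)⁻¹ • y ∈ M}

lemma isOpen_Mp {M : Set ℂ} (h : IsOpen M) (p : ℂ) : IsOpen (Mp M p) := by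
  have h1 : IsOpen {y : ℂ | 0 < 1 - cr p y} := isOpen_lt continuous_const (by fun_prop)
  have h2 : ContinuousOn (fun y : ℂ => (1 - cr p y)⁻¹ • y) {y : ℂ | 0 < 1 - cr p y} :=
    (ContinuousOn.inv₀ (f := fun y : ℂ => 1 - cr p y) (Continuous.continuousOn (by fun_prop))
      fun y hy => ne_of_gt hy).smul continuousOn_id
  exact h2.isOpen_inter_preimage h1 h

namespace Nm
variable {M : Set ℂ} {d : ℂ → ℂ → ℝ} {k e : ℝ} {p : ℂ} (N : Nm M d k p e)
include N

lemma no_bdry {Ψ : ℝ → ℝ} (hΨ : Prim e Ψ) {E : ℂ} (hr : 0 < dot E E) (hB : 0 < 1 + e * dot E E)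
    (inM : ∀ a b : ℝ, a ^ 2 + b ^ 2 < 1 →
      ∃ α : ℝ, 0 < α ∧ α * (1 - (a * cr p E + b * dot p E)) = 1 ∧ pt E (α * a) (α * b) ∈ M)
    (notE : ∀ α : ℝ, α * (1 - cr p E) = 1 → 0 < α → pt E α 0 ∈ M → False) : False := by
  have H := N.pm
  obtain ⟨ρ, hρ⟩ : ∃ ρ, ρ = e * dot E E := ⟨_, rfl⟩
  obtain ⟨B, hBd⟩ : ∃ B, B = 1 + ρ := ⟨_, rfl⟩
  obtain ⟨A0, hA⟩ : ∃ A0, A0 = 1 - cr p E := ⟨_, rfl⟩
  obtain ⟨G0, hG⟩ : ∃ G0, G0 = dot p E - B * cr p E := ⟨_, rfl⟩
  rw [← hρ, ← hBd] at hB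
  have hA0 : 0 ≤ A0 := by
    by_contra hc
    have h1 : 1 < cr p E := by linarith
    obtain ⟨α, a1, a2, -⟩ := inM (cr p E)⁻¹ 0 (by
      have : (cr p E)⁻¹ < 1 := inv_lt_one_of_one_lt₀ h1
      have : 0 < (cr p E)⁻¹ := by positivity
      nlinarith)
    rw [inv_mul_cancel₀ (by linarith)] at a2
    simp at a2
  have lll : ∀ α γ : ℝ, α * A0 - γ * G0 = 1 → ll p (pt E (α - B * γ) γ) = α := by
    intro α γ h
    rw [ll, cr_pt']; rw [hA, hG] at h; linarith
  have disc : ∀ σ : ℝ, 0 < σ → σ ≤ B / (1 + B ^ 2) →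
      ∃ α : ℝ, 0 < α ∧ α * A0 - α * σ * G0 = 1 ∧ pt E (α - B * (α * σ)) (α * σ) ∈ M := by
    intro σ h0 h1
    rw [le_div_iff₀ (by positivity)] at h1
    obtain ⟨α, a1, a2, a3⟩ := inM (1 - σ * B) σ (by nlinarith [mul_pos h0 hB])
    refine ⟨α, a1, by rw [hA, hG]; linarith, ?_⟩
    rwa [show α - B * (α * σ) = α * (1 - σ * B) by ring]
  obtain ⟨α0, a0, c0, m0⟩ := disc (B / (1 + B ^ 2)) (by positivity) le_rfl
  have g0 : 0 < α0 * (B / (1 + B ^ 2)) := by positivity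
  generalize α0 * (B / (1 + B ^ 2)) = γ0 at *
  obtain ⟨Y, hY⟩ : ∃ Y, Y = pt E (α0 - B * γ0) γ0 := ⟨_, rfl⟩
  obtain ⟨w, hw⟩ : ∃ w, w = pt E (G0 - A0 * B) A0 := ⟨_, rfl⟩
  have line : ∀ s : ℝ, Y + s • w = pt E (α0 + s * G0 - B * (γ0 + s * A0)) (γ0 + s * A0) := by
    intro s; rw [hY, hw, pt_lin]; congr 1; ring
  have crw : ∀ a b : ℝ, cr w (pt E a b - Y) = dot E E * (1 - ((a + B * b) * A0 - b * G0)) := by
    intro a b; rw [hY, hw, pt_sub, cr_pt, ← c0]; ring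
  have hw0 : w ≠ 0 := by
    intro h
    have := crw 0 0
    rw [h] at this; simp at this; linarith
  rw [← hY] at m0
  have gpos : ∀ s : ℝ, Y + s • w ∈ M → 0 < γ0 + s * A0 := by
    intro s hs
    rcases hA0.eq_or_lt with h | h
    · rw [← h]; linarith
    by_contra hc
    have h1 : s ≤ -γ0 / A0 := by rw [le_div_iff₀ h]; linarith
    have h2 : -γ0 / A0 * A0 = -γ0 := div_mul_cancel₀ _ h.ne'
    have := H.line_mem (x := Y) (v := w) (r := s) (s := -γ0 / A0) (t := 0) hs (by simpa using m0) h1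
      (div_nonpos_of_nonpos_of_nonneg (by linarith) h.le)
    rw [line, h2, add_neg_cancel, mul_zero, sub_zero] at this
    have h3 : (α0 + -γ0 / A0 * G0) * A0 = 1 := by linear_combination c0 + G0 * h2
    refine notE _ (hA ▸ h3) ?_ this
    exact (pos_iff_pos_of_mul_pos (by rw [h3]; exact one_pos)).2 h
  -- the focus
  have r1 : 0 < 1 + ρ * (9 / 10) := by rcases le_total 0 ρ with h | h <;> nlinarith
  have r2 : 0 < 1 + ρ * (81 / 100) := by rcases le_total 0 ρ with h | h <;> nlinarith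
  have r3 : 0 < 1 + ρ * (99 / 100) := by rcases le_total 0 ρ with h | h <;> nlinarith
  obtain ⟨θ, hθ⟩ : ∃ θ, θ = (4 / 5 + ρ * (81 / 100)) / (1 + ρ * (99 / 100)) := ⟨_, rfl⟩
  have θ0 : θ * (1 + ρ * (99 / 100)) = 4 / 5 + ρ * (81 / 100) := by
    rw [hθ, div_mul_cancel₀ _ r3.ne']
  have θ1 : θ < 1 := by rw [hθ, div_lt_one r3]; linarith
  have θ2 : -1 < θ := by rw [hθ, lt_div_iff₀ r3]; linarith
  obtain ⟨β, b0, b1, mF⟩ := inM θ 0 (by nlinarith)
  have hcF : cr w (pt E (β * θ) (β * 0) - Y) ≠ 0 := by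
    have : 1 - ((β * θ + B * (β * 0)) * A0 - β * 0 * G0) = β * (1 - θ) := by
      rw [hA]; linear_combination -b1
    rw [crw, this]
    exact mul_ne_zero hr.ne' (mul_ne_zero b0.ne' (by linarith))
  have lF : ll p (pt E (β * θ) (β * 0)) = β * 1 := by rw [ll, cr_pt']; linarith
  have key : ∀ t s : ℝ, 0 < t → t / 10 < s → pt E (9 / 10 * t) (-s) ∈ M →
      ll p (pt E (9 / 10 * t) (-s)) = t →
      d (pt E (9 / 10 * t) (-s)) (pt E (β * θ) (β * 0)) = dl M d Y w (pt E (9 / 10 * t) (-s)) := by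
    intro t s ht hs hX lX
    have s0 : 0 < s := by linarith
    have hD := N.pos _ hX
    rw [lX] at hD
    have bE : 0 < be e (pt E (9 / 10 * t) (-s)) t (pt E 1 0) 1 := by
      rw [be_pt, ← hρ]; nlinarith [mul_pos ht r1]
    have hE : 0 < Hh e (pt E (9 / 10 * t) (-s)) t (pt E 1 0) 1 := by
      rw [Hh, Pb_pt, ← hρ]
      refine mul_pos hr ?_
      nlinarith [mul_pos hB (mul_pos s0 s0), sq_nonneg t]
    have cE : cc e (pt E (9 / 10 * t) (-s)) t (pt E 1 0) 1 ∈ II e :=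
      cc_mem hD (by rw [be_pt, ← hρ]; linarith) hE (Or.inr bE)
    have neq : ∀ a b : ℝ, 0 ≤ b → pt E (9 / 10 * t) (-s) ≠ pt E a b := by
      intro a b hb h
      have := congrArg (cr (pt E 1 0)) h
      rw [cr_pt, cr_pt] at this
      have := mul_left_cancel₀ hr.ne' this
      linarith
    have dF : d (pt E (9 / 10 * t) (-s)) (pt E (β * θ) (β * 0))
        = k * Ψ (cc e (pt E (9 / 10 * t) (-s)) t (pt E 1 0) 1) := by
      rw [N.dist_eq hΨ hX mF (neq _ _ (by simp)), lX, lF, ← pt_smul, cc_smul b0, ← cc_smul r3, pt_smul,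
        mul_comm _ θ, θ0, cc_of r2]
      · rw [be_pt, be_pt, ← hρ]; ring
      · rw [Hh, Hh, Pb_pt, Pb_pt, ← hρ]; ring
    rw [dF]
    apply le_antisymm
    · refine PM0.le_dl m0 fun s' hs' => ?_
      have g := gpos s' hs'
      rw [line] at hs' ⊢
      have l1 := lll (α0 + s' * G0) (γ0 + s' * A0) (by linear_combination c0)
      have ne := neq (α0 + s' * G0 - B * (γ0 + s' * A0)) _ g.le
      have i1 := N.mem_II hX hs' ne
      have i2 := N.Hh_pos hX ne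
      rw [N.dist_eq hΨ hX hs' ne]
      rw [lX, l1] at i1 i2 ⊢
      refine mul_le_mul_of_nonneg_left (hΨ.anti i1 cE (cc_le hD hE i2 bE ?_)) N.kpos.le
      rw [Pb_pt, ← hρ]
      generalize γ0 + s' * A0 = γ at *
      refine mul_nonpos_of_nonneg_of_nonpos hr.le ?_
      have := mul_pos (mul_pos g hB) (sub_pos.2 hs)
      rw [hBd] at this ⊢
      nlinarith
    · have T : Tendsto (fun σ : ℝ => cc e (pt E (9 / 10 * t) (-s)) t (pt E (1 - σ * B) σ) 1) (𝓝[>] 0)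
          (𝓝 (cc e (pt E (9 / 10 * t) (-s)) t (pt E 1 0) 1)) := by
        have c1 : Continuous fun σ : ℝ => be e (pt E (9 / 10 * t) (-s)) t (pt E (1 - σ * B) σ) 1 := by
          simp only [be_pt]; fun_prop
        have c2 : Continuous fun σ : ℝ => √(Hh e (pt E (9 / 10 * t) (-s)) t (pt E (1 - σ * B) σ) 1) := by
          simp only [Hh, Pb_pt]; fun_prop
        have := (c1.tendsto 0).div (c2.tendsto 0) (by simpa using (Real.sqrt_pos.2 hE).ne')
        simp only [zero_mul, sub_zero] at this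
        exact this.mono_left nhdsWithin_le_nhds
      refine ge_of_tendsto (((hΨ.der _ cE).continuousAt.tendsto.comp T).const_mul k) ?_
      filter_upwards [Ioo_mem_nhdsGT (show 0 < B / (1 + B ^ 2) by positivity)] with σ hσ
      obtain ⟨α, a1, a2, a3⟩ := disc σ hσ.1 hσ.2.le
      obtain ⟨s', hs'⟩ := exists_smul_of_cr hw0 (v := pt E (α - B * (α * σ)) (α * σ) - Y) (by
        rw [crw, ← a2]; ring)
      have e1 : Y + s' • w = pt E (α - B * (α * σ)) (α * σ) := by rw [← hs']; abel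
      have := H.dl_le (Y := Y) (w := w) hX (s := s') (e1 ▸ a3)
      rw [e1, N.dist_eq hΨ hX a3 (neq _ _ (mul_pos a1 hσ.1).le), lX, lll _ _ a2,
        show α - B * (α * σ) = α * (1 - σ * B) by ring, ← pt_smul] at this
      have e2 := cc_smul (e := e) (x := pt E (9 / 10 * t) (-s)) (t := t) (y := pt E (1 - σ * B) σ)
        (s := 1) a1
      rw [mul_one] at e2
      rwa [e2] at this
  obtain ⟨t1, p1, q1, m1⟩ := inM (9 / 10) (-(1 / 5)) (by norm_num)
  obtain ⟨t2, p2, q2, m2⟩ := inM (9 / 10) (-(3 / 10)) (by norm_num)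
  rw [mul_comm t1, mul_neg] at m1
  rw [mul_comm t2, mul_neg] at m2
  have l1 : ll p (pt E (9 / 10 * t1) (-(t1 * (1 / 5)))) = t1 := by rw [ll, cr_pt']; linarith
  have l2 : ll p (pt E (9 / 10 * t2) (-(t2 * (3 / 10)))) = t2 := by rw [ll, cr_pt']; linarith
  have mid : pt E (9 / 10 * t1) (-(t1 * (1 / 5))) + (1 / 2 : ℝ) • (pt E (9 / 10 * t2) (-(t2 * (3 / 10)))
      - pt E (9 / 10 * t1) (-(t1 * (1 / 5))))
      = pt E (9 / 10 * ((t1 + t2) / 2)) (-(t1 / 10 + 3 * t2 / 20)) := by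
    rw [pt_sub, pt_lin]; congr 1 <;> ring
  refine N.noseg Y m0 w _ mF hcF _ m1 _ m2 (fun h => ?_) (key t1 _ p1 (by linarith) m1 l1)
    (key t2 _ p2 (by linarith) m2 l2) ?_
  · have h1 : t1 = t2 := by rw [← l1, ← l2, h]
    have := congrArg (cr (pt E 1 0)) h
    rw [cr_pt, cr_pt] at this
    have := mul_left_cancel₀ hr.ne' this
    linarith
  · have m3 := H.seg_mem m1 m2 (t := 1 / 2) (by norm_num) (by norm_num)
    rw [mid] at m3 ⊢
    exact key _ _ (by linarith) (by linarith) m3 (by rw [ll, cr_pt']; linarith)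

/-- The chart of the domain contains the whole model. -/
lemma full {Ψ : ℝ → ℝ} (hΨ : Prim e Ψ) {E0 : ℂ} (h0 : 0 < 1 + e * dot E0 E0) : E0 ∈ Mp M p := by
  by_contra hE0
  obtain ⟨E, ⟨hE, hE'⟩, hmin⟩ := ((isCompact_closedBall (0 : ℂ) ‖E0‖).inter_left
    (isOpen_Mp N.pm.isOpen p).isClosed_compl).exists_isMinOn (f := fun Z => ‖Z‖)
    ⟨E0, hE0, by simp⟩ (by fun_prop)
  rw [mem_closedBall_zero_iff] at hE'
  have inM : ∀ Z : ℂ, ‖Z‖ < ‖E‖ → Z ∈ Mp M p := by
    intro Z hZ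
    by_contra hZM
    have : ‖E‖ ≤ ‖Z‖ := hmin ⟨hZM, by rw [mem_closedBall_zero_iff]; linarith⟩
    linarith
  have hE0' : E ≠ 0 := by
    rintro rfl
    exact hE ⟨by simp, by simpa using N.zero⟩
  have hr : 0 < dot E E := by rw [dot_self]; exact pow_pos (norm_pos_iff.2 hE0') 2
  refine N.no_bdry hΨ hr ?_ (fun a b hab => ?_) fun α h1 h2 h3 => hE ?_
  · rw [dot_self] at h0 ⊢
    have := pow_le_pow_left₀ (norm_nonneg _) hE' 2
    rcases le_total 0 e with h | h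
    · positivity
    · nlinarith
  · obtain ⟨h1, h2⟩ := inM (pt E a b) (by
      refine lt_of_pow_lt_pow_left₀ 2 (norm_nonneg _) ?_
      rw [← dot_self, ← dot_self, dot_pt]; nlinarith)
    rw [pt_smul] at h2
    rw [cr_pt'] at h1 h2
    exact ⟨_, inv_pos.2 h1, inv_mul_cancel₀ h1.ne', h2⟩
  · have h4 : 0 < 1 - cr p E := (pos_iff_pos_of_mul_pos (by rw [h1]; exact one_pos)).1 h2
    refine ⟨h4, ?_⟩
    rw [← eq_inv_of_mul_eq_one_left h1]
    have := pt_smul E 1 0 α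
    rw [pt_one, mul_one, mul_zero] at this
    rwa [this]

end Nm

end Pool.Agent.P.MP_ec5bc9_gt.H13
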