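import Pool.Agent.P.MP_ec5bc9_gt.G10

/-! The three signs of the curvature, and the theorem in the complex plane. -/

set_option autoImplicit false

namespace Pool.Agent.P.MP_ec5bc9_gt.H13

open Set Filter Topology

attribute [-simp] Complex.real_smul

lemma prim_zero : Prim 0 fun c => c⁻¹ := by
  refine ⟨fun c hc => ?_, tendsto_inv_atTop_zero⟩
  have h : 0 < c := by simpa [II] using hc
  simpa using hasDerivAt_inv h.ne'

lemma prim_pos {e : ℝ} (he : 0 < e) : Prim e fun c => (Real.pi / 2 - Real.arctan (c / √e)) / √e := by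
  have hκ := Real.sqrt_pos.2 he
  refine ⟨fun c _ => ?_, ?_⟩
  · have := ((((hasDerivAt_id c).div_const √e).arctan).const_sub (Real.pi / 2)).div_const √e
    refine this.congr_deriv ?_
    have q := Real.sq_sqrt he.le
    generalize √e = κ at *
    rw [← q]; simp only [id]; field_simp; ring
  · have T := (Real.tendsto_arctan_atTop.mono_right nhdsWithin_le_nhds).comp
      (tendsto_id.atTop_div_const hκ)
    simpa using (T.const_sub (Real.pi / 2)).div_const √e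

lemma prim_neg {e : ℝ} (he : e < 0) :
    Prim e fun c => Real.log (1 + 2 * √(-e) * (c - √(-e))⁻¹) / (2 * √(-e)) := by
  have hκ : 0 < √(-e) := Real.sqrt_pos.2 (by linarith)
  refine ⟨fun c hc => ?_, ?_⟩
  · have h : 0 < c - √(-e) := sub_pos.2 (hc.resolve_left he.not_gt)
    have := ((((((hasDerivAt_id c).sub_const √(-e)).fun_inv h.ne').const_mul (2 * √(-e))).const_add
      1).log (by simp only [id]; positivity)).div_const (2 * √(-e))
    refine this.congr_deriv ?_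
    have q : e = -√(-e) ^ 2 := by rw [Real.sq_sqrt (by linarith)]; ring
    generalize √(-e) = κ at *
    have h2 : c - κ + 2 * κ ≠ 0 := by positivity
    rw [q, show c ^ 2 + -κ ^ 2 = (c - κ) * (c - κ + 2 * κ) by ring]; simp only [id]; field_simp
  · have T := ((tendsto_inv_atTop_zero.comp (tendsto_atTop_add_const_right _ (-√(-e))
      tendsto_id)).const_mul (2 * √(-e))).const_add 1
    simpa [sub_eq_add_neg] using (T.log (by simp)).div_const (2 * √(-e))

lemma cosh_prim {κ c : ℝ} (hκ : 0 < κ) (h : κ < c) :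
    Real.cosh (κ * (Real.log (1 + 2 * κ * (c - κ)⁻¹) / (2 * κ))) ^ 2 = c ^ 2 / (c ^ 2 - κ ^ 2) := by
  have h1 : 0 < c - κ := sub_pos.2 h
  have a := Real.cosh_log (show 0 < 1 + 2 * κ * (c - κ)⁻¹ by positivity)
  obtain ⟨x, hx⟩ : ∃ x, x = κ * (Real.log (1 + 2 * κ * (c - κ)⁻¹) / (2 * κ)) := ⟨_, rfl⟩
  rw [← hx]
  rw [show Real.log (1 + 2 * κ * (c - κ)⁻¹) = 2 * x by rw [hx]; field_simp, Real.cosh_two_mul,
    Real.sinh_sq] at a
  have h2 : c - κ + 2 * κ ≠ 0 := by positivity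
  rw [show c ^ 2 - κ ^ 2 = (c - κ) * (c - κ + 2 * κ) by ring,
    show Real.cosh x ^ 2 = ((1 + 2 * κ * (c - κ)⁻¹ + (1 + 2 * κ * (c - κ)⁻¹)⁻¹) / 2 + 1) / 2 by linarith]
  field_simp; ring

/-- isometric to the Euclidean plane after scaling -/
def IsEuc (M : Set ℂ) (d : ℂ → ℂ → ℝ) : Prop :=
  ∃ c : ℝ, 0 < c ∧ ∃ f : ℂ → ℂ, BijOn f M univ ∧ ∀ x ∈ M, ∀ y ∈ M, c * d x y = ‖f x - f y‖

/-- isometric to the hyperbolic plane in the disc model of Klein after scaling -/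
def IsKl (M : Set ℂ) (d : ℂ → ℂ → ℝ) : Prop :=
  ∃ c : ℝ, 0 < c ∧ ∃ f : ℂ → ℂ, BijOn f M (Metric.ball 0 1) ∧ ∀ x ∈ M, ∀ y ∈ M,
    Real.cosh (c * d x y) = (1 - dot (f x) (f y)) / √((1 - ‖f x‖ ^ 2) * (1 - ‖f y‖ ^ 2))

lemma chart_inj {p X Y : ℂ} (hX : 0 < ll p X) (hY : 0 < ll p Y)
    (h : (ll p X)⁻¹ • X = (ll p Y)⁻¹ • Y) : X = Y := by
  have key : ∀ Z, 0 < ll p Z → 1 - cr p ((ll p Z)⁻¹ • Z) = (ll p Z)⁻¹ := fun Z hZ => by
    rw [cr_smul_r]; field_simp; simp [ll]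
  have e : (ll p X)⁻¹ = (ll p Y)⁻¹ := by rw [← key X hX, ← key Y hY, h]
  rw [e] at h
  exact smul_right_injective ℂ (inv_pos.2 hY).ne' h

lemma chart_surj {M : Set ℂ} {p y : ℂ} (h : y ∈ Mp M p) : ∃ X ∈ M, (ll p X)⁻¹ • X = y := by
  refine ⟨_, h.2, ?_⟩
  have h1 := h.1
  have : ll p ((1 - cr p y)⁻¹ • y) = (1 - cr p y)⁻¹ := by
    rw [ll, cr_smul_r]; field_simp; ring
  rw [this, inv_inv, smul_smul, mul_inv_cancel₀ h1.ne', one_smul]

namespace Nm
variable {M : Set ℂ} {d : ℂ → ℂ → ℝ} {k e : ℝ} {p : ℂ}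

lemma euc (N : Nm M d k p 0) : IsEuc M d := by
  refine ⟨k⁻¹, inv_pos.2 N.kpos, fun X => (ll p X)⁻¹ • X, ⟨fun _ _ => trivial,
    fun X hX Y hY h => chart_inj (N.ll_pos le_rfl hX) (N.ll_pos le_rfl hY) h,
    fun y _ => chart_surj (N.full prim_zero (by simp))⟩, fun X hX Y hY => ?_⟩
  by_cases hne : X = Y
  · simp [hne, N.pm.refl Y hY]
  have a := N.ll_pos le_rfl hX
  have b := N.ll_pos le_rfl hY
  rw [N.dist_eq prim_zero hX hY hne, inv_mul_cancel_left₀ N.kpos.ne']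
  simp only [cc, be, Hh, Pb, zero_mul, add_zero, dot_self, inv_div]
  generalize ll p X = t at *
  generalize ll p Y = s at *
  have : t⁻¹ • X - s⁻¹ • Y = (t * s)⁻¹ • -(t • Y - s • X) := by
    rw [neg_sub, smul_sub, smul_smul, smul_smul]
    congr 2 <;> field_simp
  rw [this, norm_smul, norm_neg, Real.sqrt_sq (norm_nonneg _), Real.norm_eq_abs,
    abs_of_pos (by positivity), div_eq_inv_mul]

lemma kl (N : Nm M d k p e) (he : e < 0) : IsKl M d := by
  have hκ : 0 < √(-e) := Real.sqrt_pos.2 (by linarith)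
  have q : √(-e) ^ 2 = -e := Real.sq_sqrt (by linarith)
  have form : ∀ X ∈ M, ∀ Y ∈ M, 1 - dot (√(-e) • (ll p X)⁻¹ • X) (√(-e) • (ll p Y)⁻¹ • Y)
      = be e X (ll p X) Y (ll p Y) / (ll p X * ll p Y) := by
    intro X hX Y hY
    have a := N.ll_pos he.le hX
    have b := N.ll_pos he.le hY
    simp only [dot_smul_l, dot_smul_r, be]
    field_simp
    rw [q]; ring
  have lt1 : ∀ X ∈ M, 0 < 1 - ‖√(-e) • (ll p X)⁻¹ • X‖ ^ 2 := by
    intro X hX
    have a := N.ll_pos he.le hX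
    rw [← dot_self, form X hX X hX]
    exact div_pos (N.pos X hX) (mul_pos a a)
  refine ⟨√(-e) / k, div_pos hκ N.kpos, fun X => √(-e) • (ll p X)⁻¹ • X, ⟨fun X hX => ?_,
    fun X hX Y hY h => chart_inj (N.ll_pos he.le hX) (N.ll_pos he.le hY)
      (smul_right_injective ℂ hκ.ne' h), fun z hz => ?_⟩, fun X hX Y hY => ?_⟩
  · rw [mem_ball_zero_iff]
    exact lt_of_pow_lt_pow_left₀ 2 zero_le_one (by linarith [lt1 X hX])
  · rw [mem_ball_zero_iff] at hz
    obtain ⟨X, hX, h⟩ := chart_surj (N.full (prim_neg he) (E0 := (√(-e))⁻¹ • z) (by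
      have : e * dot ((√(-e))⁻¹ • z) ((√(-e))⁻¹ • z) = -‖z‖ ^ 2 := by
        rw [dot_smul_l, dot_smul_r, dot_self]
        field_simp
        rw [q]; ring
      rw [this]; nlinarith [norm_nonneg z]))
    exact ⟨X, hX, by simp only [h, smul_smul, mul_inv_cancel₀ hκ.ne', one_smul]⟩
  by_cases hne : X = Y
  · rw [← hne, N.pm.refl X hX, mul_zero, Real.cosh_zero, Real.sqrt_mul_self (lt1 X hX).le, dot_self,
      div_self (lt1 X hX).ne']
  have a := N.ll_pos he.le hX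
  have b := N.ll_pos he.le hY
  have b1 := be_pos he.le a b (N.pos X hX) (N.pos Y hY)
  have b2 := N.pos X hX
  have b3 := N.pos Y hY
  have b4 := N.Hh_pos hX (Y := Y) hne
  have c1 := cosh_prim hκ ((N.mem_II hX hY hne).resolve_left he.not_gt)
  rw [q, sub_neg_eq_add, cc_sq b4] at c1
  rw [N.dist_eq (prim_neg he) hX hY hne, ← mul_assoc, div_mul_cancel₀ _ N.kpos.ne',
    ← sq_eq_sq₀ (Real.cosh_pos _).le (div_nonneg (by rw [form X hX Y hY]; positivity)
      (Real.sqrt_nonneg _)), c1, div_pow, Real.sq_sqrt (mul_pos (lt1 X hX) (lt1 Y hY)).le,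
    ← dot_self, ← dot_self, form X hX Y hY, form X hX X hX, form Y hY Y hY, cc, div_pow,
    Real.sq_sqrt b4.le]
  field_simp

lemma centre (N : Nm M d k p e) (he : 0 < e) : p = 0 := by
  by_contra hp
  have h1 : 0 < dot p p := by rw [dot_self]; exact pow_pos (norm_pos_iff.2 hp) 2
  have := (N.full (prim_pos he) (E0 := pt p 0 (dot p p)⁻¹) (by rw [dot_self]; positivity)).1
  rw [cr_pt', inv_mul_cancel₀ h1.ne'] at this
  simp at this

end Nm

end Pool.Agent.P.MP_ec5bc9_gt.H13
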