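import Pool.Agent.P.MP_ec5bc9_gt.G11

/-! Affine normalisation at a base point and the theorem in the complex plane. -/

set_option autoImplicit false

namespace Pool.Agent.P.MP_ec5bc9_gt.H13

open Set Filter Topology

attribute [-simp] Complex.real_smul

/-- pull-back of a form by a triangular map, times a constant -/
def QF.pull (A : QF) (f h κ : ℝ) : QF :=
  ⟨κ * A.a, κ * (A.a * f + A.b * h), κ * (A.a * f ^ 2 + 2 * A.b * f * h + A.c * h ^ 2)⟩

lemma QF.pull_ev (A : QF) (f h κ : ℝ) (v : ℂ) : (A.pull f h κ).ev v = κ * A.ev (TT f h v) := by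
  simp only [QF.pull, QF.ev, TT]; ring

lemma QF.pull_det (A : QF) (f h κ : ℝ) : (A.pull f h κ).det = κ ^ 2 * h ^ 2 * A.det := by
  simp only [QF.pull, QF.det]; ring

lemma QF.ev_pos {A : QF} (ha : 0 < A.a) (hd : 0 < A.det) {v : ℂ} (hv : v ≠ 0) : 0 < A.ev v := by
  have e : A.a * A.ev v = (A.a * v.re + A.b * v.im) ^ 2 + A.det * v.im ^ 2 := by
    simp only [QF.ev, QF.det]; ring
  refine (pos_iff_pos_of_mul_pos (a := A.a) ?_).1 ha
  rw [e]
  by_cases h : v.im = 0
  · have : v.re ≠ 0 := fun h' => hv (Complex.ext h' h)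
    rw [h]; simp only [mul_zero, add_zero]; positivity
  · positivity

lemma TT_inv {f h : ℝ} (hh : h ≠ 0) (v : ℂ) : TT f h (TT (-f / h) h⁻¹ v) = v := by
  apply Complex.ext <;> simp only [TT] <;> field_simp; ring

lemma TT_inv' {f h : ℝ} (hh : h ≠ 0) (v : ℂ) : TT (-f / h) h⁻¹ (TT f h v) = v := by
  apply Complex.ext <;> simp only [TT] <;> field_simp; ring

lemma PG.trich {M : Set ℂ} {d : ℂ → ℂ → ℝ} (H : PG M d) {Hq : ℂ → QF} (S : St2 M d Hq) {O : ℂ}
    (hO : O ∈ M) : IsEuc M d ∨ IsKl M d ∨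
      ∀ X ∈ M, ∀ u, cr (X - O) u ≠ 0 → (Hq O).ev u < (Hq X).ev u := by
  have ha := S.pa O hO
  have hδ := Real.sqrt_pos.2 (S.pd O hO)
  obtain ⟨f, hf⟩ : ∃ f, f = -(Hq O).b / √(Hq O).det := ⟨_, rfl⟩
  obtain ⟨h, hh⟩ : ∃ h, h = (Hq O).a / √(Hq O).det := ⟨_, rfl⟩
  have h0 : 0 < h := by rw [hh]; positivity
  have nrm : ∀ v, (Hq O).a⁻¹ * (Hq O).ev (TT f h v) = dot v v := by
    intro v
    have q := Real.sq_sqrt (S.pd O hO).le
    rw [hf, hh]
    generalize √(Hq O).det = δ at *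
    simp only [QF.ev, TT, dot, QF.det] at q ⊢
    field_simp
    linear_combination (-v.im ^ 2) * q
  generalize (Hq O).a = a at *
  obtain ⟨L, hL⟩ : ∃ L : ℂ → ℂ, ∀ x, L x = O + TT f h x := ⟨_, fun _ => rfl⟩
  obtain ⟨L', hL'⟩ : ∃ L' : ℂ → ℂ, ∀ X, L' X = TT (-f / h) h⁻¹ (X - O) := ⟨_, fun _ => rfl⟩
  have cL : Continuous L := by
    rw [continuous_iff_continuousAt]; intro x
    rw [funext hL]
    exact (tendsto_TT tendsto_const_nhds tendsto_const_nhds tendsto_id).const_add O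
  have LL' : ∀ X, L (L' X) = X := fun X => by rw [hL, hL', TT_inv h0.ne']; abel
  have L'L : ∀ x, L' (L x) = x := fun x => by rw [hL, hL', add_sub_cancel_left, TT_inv' h0.ne']
  have Linj : Function.Injective L := Function.LeftInverse.injective L'L
  have Lray : ∀ (x v : ℂ) (t : ℝ), L (x + t • v) = L x + t • TT f h v := fun x v t => by
    rw [hL, hL, TT_add, TT_smul, add_assoc]
  have Lsub : ∀ x y, L y - L x = TT f h (y - x) := fun x y => by rw [hL, hL, TT_sub]; abel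
  have L0 : L 0 = O := by simp [hL]
  have pm : PM0 (L ⁻¹' M) fun x y => d (L x) (L y) := by
    refine ⟨H.isOpen.preimage cL, ?_, fun x hx => H.refl _ hx,
      fun x hx y hy hne => H.pos _ hx _ hy fun e => hne (Linj e), fun x hx y hy => H.symm _ hx _ hy,
      fun x hx y hy z hz => H.tri _ hx _ hy _ hz, fun x hx z hz t ht => ?_,
      H.cont.comp (f := fun p : ℂ × ℂ => (L p.1, L p.2)) (by fun_prop) fun p hp => hp⟩
    · intro x hx y hy s t hs ht hst
      have := H.seg_mem hx hy ht (by linarith)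
      rw [Lsub, ← Lray] at this
      have e : s • x + t • y = x + t • (y - x) := by
        rw [show s = 1 - t by linarith]; module
      rw [e]; exact this
    · simp only [Lray, ← Lsub]; exact H.add _ hx _ hz t ht
  have z0 : (0 : ℂ) ∈ L ⁻¹' M := by simpa [L0] using hO
  obtain ⟨p, e, hK⟩ := interp (M := L ⁻¹' M) (Hq := fun x => (Hq (L x)).pull f h a⁻¹)
    (pm.isOpen.mem_nhds z0) (fun v => by rw [QF.pull_ev, L0, nrm]) (fun X hX Z hZ => by
      rw [QF.pull_ev, QF.pull_ev, ← Lsub, S.inv _ hX _ hZ])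
  have hD : ∀ X ∈ L ⁻¹' M, be e X (ll p X) X (ll p X) = a⁻¹ ^ 2 * h ^ 2 * (Hq (L X)).det :=
    fun X hX => by rw [← det_KK (hK X hX), QF.pull_det]
  have hK' : ∀ X ∈ L ⁻¹' M, ∀ u, KK p e X u = a⁻¹ * (Hq (L X)).ev (TT f h u) :=
    fun X hX u => by rw [← hK X hX, QF.pull_ev]
  have N : Nm (L ⁻¹' M) (fun x y => d (L x) (L y)) (√a * h ^ 2 / a ^ 2) p e := by
    have sa := Real.sqrt_pos.2 ha
    refine ⟨pm, z0, by positivity, fun X hX => ?_, fun X hX v hv => ?_, fun X hX v => ?_, ?_⟩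
    · rw [hD X hX]; have := S.pd _ hX; positivity
    · rw [hK' X hX]
      exact mul_pos (inv_pos.2 ha) (QF.ev_pos (S.pa _ hX) (S.pd _ hX) (TT_ne h0 hv))
    · have T := S.lim _ hX (TT f h v)
      simp only [Lray]
      convert T using 2
      have := S.pd _ hX
      rw [hD X hX, hK' X hX, Real.sqrt_mul (inv_pos.2 ha).le, Real.sqrt_inv]
      field_simp
    · intro Y hY w F hF hc P hP Q hQ hne h1 h2 h3
      have dle : ∀ X, dl (L ⁻¹' M) (fun x y => d (L x) (L y)) Y w X = dl M d (L Y) (TT f h w) (L X) := by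
        intro X; simp only [dl, mem_preimage, Lray]
      simp only [dle] at h1 h2 h3
      rw [Lray, ← Lsub] at h3
      exact H.noSeg (L Y) hY (TT f h w) (L F) hF (by rw [Lsub, cr_TT]; exact mul_ne_zero h0.ne' hc)
        (L P) hP (L Q) hQ (fun e => hne (Linj e)) h1 h2 h3
  have mL' : ∀ X ∈ M, L' X ∈ L ⁻¹' M := fun X hX => by rwa [mem_preimage, LL']
  have bij : BijOn L' M (L ⁻¹' M) :=
    ⟨mL', (Function.LeftInverse.injective LL').injOn, fun x hx => ⟨L x, hx, L'L x⟩⟩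
  rcases lt_trichotomy e 0 with he | rfl | he
  · obtain ⟨c, hc, g, hg, hd⟩ := N.kl he
    refine Or.inr (Or.inl ⟨c, hc, g ∘ L', hg.comp bij, fun x hx y hy => ?_⟩)
    simpa only [LL', Function.comp_apply] using hd _ (mL' x hx) _ (mL' y hy)
  · obtain ⟨c, hc, g, hg, hd⟩ := N.euc
    refine Or.inl ⟨c, hc, g ∘ L', hg.comp bij, fun x hx y hy => ?_⟩
    simpa only [LL', Function.comp_apply] using hd _ (mL' x hx) _ (mL' y hy)
  · refine Or.inr (Or.inr fun X hX u hu => ?_)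
    have p0 := N.centre he
    have k1 := hK' _ (mL' X hX) (TT (-f / h) h⁻¹ u)
    have k2 := nrm (TT (-f / h) h⁻¹ u)
    rw [TT_inv h0.ne'] at k1 k2
    rw [LL', p0, KK, smul_zero, sub_zero, ← k2, hL', cr_TT] at k1
    have : 0 < e * (h⁻¹ * cr (X - O) u) ^ 2 := by positivity
    exact lt_of_mul_lt_mul_left (a := a⁻¹) (by linarith) (inv_pos.2 ha).le

theorem PG.classical {M : Set ℂ} {d : ℂ → ℂ → ℝ} (H : PG M d) (hne : M.Nonempty) :
    IsEuc M d ∨ IsKl M d := by
  obtain ⟨O, hO⟩ := hne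
  obtain ⟨Hq, S⟩ := H.st1.st2 H.toPM0
  obtain ⟨δ, hO', hδ⟩ := ((H.toPM0.ev_mem hO 1).and UU_pos).exists
  rcases H.trich S hO with h | h | h
  · exact Or.inl h
  · exact Or.inr h
  rcases H.trich S hO' with h' | h' | h'
  · exact Or.inl h'
  · exact Or.inr h'
  have a1 := h _ hO' Complex.I (by rw [add_sub_cancel_left, cr_smul_l]; simp [cr, hδ.ne'])
  have a2 := h' _ hO Complex.I (by
    rw [sub_add_cancel_left, cr_neg_l, cr_smul_l]; simp [cr, hδ.ne'])
  linarith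

end Pool.Agent.P.MP_ec5bc9_gt.H13
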