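import Pool.Agent.P.MP_ec5bc9_gt.G12

/-! Transfer to the Euclidean plane of the statement: the affine case with arbitrary
nondegenerate conics. -/

set_option autoImplicit false

namespace Pool.Agent.P.MP_ec5bc9_gt.H13

open Set Filter Topology Matrix

attribute [-simp] Complex.real_smul

noncomputable def pg : ℂ ≃ₗᵢ[ℝ] EuclideanSpace ℝ (Fin 2) := Complex.orthonormalBasisOneI.repr

lemma pg_zero (X : ℂ) : pg X 0 = X.re := by simp [pg]
lemma pg_one (X : ℂ) : pg X 1 = X.im := by simp [pg]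

lemma pg_inner (a b : ℂ) : inner ℝ (pg a) (pg b) = dot a b := by
  rw [pg.inner_map_map, Complex.inner]; simp [dot]; ring

lemma con_of {A : Matrix (Fin 3) (Fin 3) ℝ} (hs : A.IsSymm) (hd : A.det ≠ 0) : ∃ C : Con, C.ND ∧
    ∀ X : ℂ, C.q X = ![X.re, X.im, 1] ⬝ᵥ (A *ᵥ ![X.re, X.im, 1]) := by
  have s1 : A 1 0 = A 0 1 := hs.apply 0 1
  have s2 : A 2 0 = A 0 2 := hs.apply 0 2
  have s3 : A 2 1 = A 1 2 := hs.apply 1 2
  refine ⟨⟨⟨A 0 0, A 0 1, A 1 1⟩, ⟨2 * A 0 2, 2 * A 1 2⟩, A 2 2⟩, fun e => hd ?_, fun X => ?_⟩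
  · rw [Matrix.det_fin_three, s1, s2, s3]
    simp only [QF.det] at e
    linear_combination e / 4
  · simp [Con.q, QF.ev, dot, dotProduct, Matrix.mulVec, Fin.sum_univ_three, s1, s2, s3]; ring

theorem affine_conics (M : Set (EuclideanSpace ℝ (Fin 2)))
    (d : EuclideanSpace ℝ (Fin 2) → EuclideanSpace ℝ (Fin 2) → ℝ)
    (hO : IsOpen M) (hC : Convex ℝ M) (hne : M.Nonempty)
    (h0 : ∀ x ∈ M, ∀ y ∈ M, (d x y = 0 ↔ x = y))
    (hs : ∀ x ∈ M, ∀ y ∈ M, d x y = d y x)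
    (ht : ∀ x ∈ M, ∀ y ∈ M, ∀ z ∈ M, d x z ≤ d x y + d y z)
    (hb : ∀ x ∈ M, Filter.HasBasis (nhdsWithin x M) (fun r : ℝ => 0 < r)
          (fun r => {y | y ∈ M ∧ d x y < r}))
    (ha : ∀ x ∈ M, ∀ y ∈ M, ∀ z ∈ M, y ∈ segment ℝ x z → d x z = d x y + d y z)
    (hst : ∀ x ∈ M, ∀ y ∈ M, ∀ z ∈ M,
          ¬ Collinear ℝ ({x, y, z} : Set (EuclideanSpace ℝ (Fin 2))) →
          d x z < d x y + d y z)
    (hp : ∀ p ∈ M, ∀ q ∈ M, p ≠ q → ∀ F ∈ M, F ∉ affineSpan ℝ {p, q} →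
          ∃ A : Matrix (Fin 3) (Fin 3) ℝ, A.IsSymm ∧ A.det ≠ 0 ∧
            {X | X ∈ M ∧ d X F = sInf ((fun Y => d X Y) ''
                ((affineSpan ℝ {p, q} : Set (EuclideanSpace ℝ (Fin 2))) ∩ M))}
              = M ∩ {X | ![X 0, X 1, 1] ⬝ᵥ (A *ᵥ ![X 0, X 1, 1]) = 0}) :
    ∃ c : ℝ, 0 < c ∧ ∃ f : EuclideanSpace ℝ (Fin 2) → EuclideanSpace ℝ (Fin 2),
        (Set.BijOn f M Set.univ ∧ ∀ x ∈ M, ∀ y ∈ M, c * d x y = dist (f x) (f y)) ∨
        (Set.BijOn f M (Metric.ball 0 1) ∧ ∀ x ∈ M, ∀ y ∈ M,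
          Real.cosh (c * d x y) = (1 - inner ℝ (f x) (f y)) /
            Real.sqrt ((1 - ‖f x‖ ^ 2) * (1 - ‖f y‖ ^ 2))) := by
  have hnn : ∀ x ∈ M, ∀ y ∈ M, 0 ≤ d x y := by
    intro x hx y hy
    have := ht x hx y hy x hx
    rw [(h0 x hx x hx).2 rfl, hs y hy x hx] at this
    linarith
  have hcont : ContinuousOn (fun p : EuclideanSpace ℝ (Fin 2) × EuclideanSpace ℝ (Fin 2) => d p.1 p.2)
      (M ×ˢ M) := by
    rintro ⟨x, y⟩ ⟨hx, hy⟩
    rw [ContinuousWithinAt, nhdsWithin_prod_eq, Metric.tendsto_nhds]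
    intro ε hε
    have a1 := (hb x hx).mem_of_mem (show 0 < ε / 2 by linarith)
    have a2 := (hb y hy).mem_of_mem (show 0 < ε / 2 by linarith)
    filter_upwards [prod_mem_prod a1 a2]
    rintro ⟨x', y'⟩ ⟨⟨b1, b2⟩, ⟨b3, b4⟩⟩
    simp only at *
    rw [Real.dist_eq, abs_lt]
    constructor
    · linarith [ht x hx x' b1 y hy, ht x' b1 y' b3 y hy, hs y' b3 y hy]
    · linarith [ht x' b1 x hx y' b3, ht x hx y hy y' b3, hs x' b1 x hx]
  have H : PG (pg ⁻¹' M) (fun a b => d (pg a) (pg b)) := by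
    refine ⟨⟨hO.preimage pg.continuous, hC.linear_preimage pg.toLinearEquiv.toLinearMap,
      fun x hx => (h0 _ hx _ hx).2 rfl, fun x hx y hy hxy => ?_, fun x hx y hy => hs _ hx _ hy,
      fun x hx y hy z hz => ht _ hx _ hy _ hz, fun x hx z hz t ht' => ?_, ?_⟩, fun x hx y hy z hz hc => ?_,
      fun Y hY w F hF hc => ?_⟩
    · exact lt_of_le_of_ne (hnn _ hx _ hy) fun e => hxy (pg.injective ((h0 _ hx _ hy).1 e.symm))
    · have hm : pg (x + t • (z - x)) ∈ segment ℝ (pg x) (pg z) := by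
        rw [segment_eq_image']
        exact ⟨t, ht', by simp⟩
      exact ha _ hx _ (hC.segment_subset hx hz hm) _ hz hm
    · exact hcont.comp (f := fun p : ℂ × ℂ => (pg p.1, pg p.2)) (by fun_prop) (fun p hp => hp)
    · apply hst _ hx _ hy _ hz
      rw [collinear_iff_of_mem (p₀ := pg x) (by simp)]
      rintro ⟨v, hv⟩
      obtain ⟨r1, e1⟩ := hv (pg y) (by simp)
      obtain ⟨r2, e2⟩ := hv (pg z) (by simp)
      apply hc
      have f1 : y - x = r1 • pg.symm v := by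
        apply pg.injective; rw [map_sub, e1]; simp
      have f2 : z - x = r2 • pg.symm v := by
        apply pg.injective; rw [map_sub, e2]; simp
      rw [f1, f2]; simp
    · have hw : w ≠ 0 := by rintro rfl; simp at hc
      obtain ⟨ε, e1, e2⟩ := (((small_r Y w).eventually ((hO.preimage pg.continuous).mem_nhds hY)).and
        self_mem_nhdsWithin).exists
      have hε : 0 < ε := e2
      have span : ∀ Z, Z ∈ affineSpan ℝ {pg Y, pg (Y + ε • w)} ↔ ∃ s : ℝ, pg (Y + s • w) = Z := by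
        intro Z
        rw [mem_affineSpan_pair_iff_exists_lineMap_eq]
        constructor
        · rintro ⟨r, rfl⟩
          exact ⟨r * ε, by simp [AffineMap.lineMap_apply, smul_smul, add_comm]⟩
        · rintro ⟨s, rfl⟩
          exact ⟨s / ε, by simp [AffineMap.lineMap_apply, smul_smul, add_comm, hε.ne']⟩
      obtain ⟨A, hA1, hA2, hset⟩ := hp _ hY _ e1 (fun e => by
        have := pg.injective e
        simp [hε.ne', hw] at this) _ hF (by
        rw [span]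
        rintro ⟨s, e⟩
        apply hc
        rw [← pg.injective e]; simp)
      obtain ⟨C, nd, hq⟩ := con_of hA1 hA2
      refine ⟨C, nd, fun X hX => ?_⟩
      have e3 : dl (pg ⁻¹' M) (fun a b => d (pg a) (pg b)) Y w X = sInf ((fun Z => d (pg X) Z) ''
          ((affineSpan ℝ {pg Y, pg (Y + ε • w)} : Set (EuclideanSpace ℝ (Fin 2))) ∩ M)) := by
        unfold dl
        congr 1
        ext r
        constructor
        · rintro ⟨s, hs', rfl⟩
          exact ⟨pg (Y + s • w), ⟨(span _).2 ⟨s, rfl⟩, hs'⟩, rfl⟩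
        · rintro ⟨Z, ⟨z1, z2⟩, rfl⟩
          obtain ⟨s, rfl⟩ := (span Z).1 z1
          exact ⟨s, z2, rfl⟩
      have e4 := Set.ext_iff.1 hset (pg X)
      rw [e3, hq, ← pg_zero, ← pg_one]
      exact ⟨fun h => (e4.1 ⟨hX, h⟩).2, fun h => (e4.2 ⟨hX, h⟩).2⟩
  obtain ⟨x0, hx0⟩ := hne
  have mem : ∀ x ∈ M, pg.symm x ∈ pg ⁻¹' M := fun x hx => by simpa using hx
  have bij : BijOn pg.symm M (pg ⁻¹' M) :=
    ⟨mem, pg.symm.injective.injOn, fun x hx => ⟨pg x, hx, by simp⟩⟩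
  rcases H.classical ⟨_, mem x0 hx0⟩ with ⟨c, hc, f, hf, hd⟩ | ⟨c, hc, f, hf, hd⟩
  · refine ⟨c, hc, pg ∘ f ∘ pg.symm, Or.inl ⟨(bijOn_univ.2 pg.bijective).comp (hf.comp bij),
      fun x hx y hy => ?_⟩⟩
    have := hd _ (mem x hx) _ (mem y hy)
    simp only [LinearIsometryEquiv.apply_symm_apply] at this
    rw [this, Function.comp_apply, Function.comp_apply, Function.comp_apply, Function.comp_apply,
      pg.dist_map, dist_eq_norm]
  · have b2 : BijOn pg (Metric.ball 0 1) (Metric.ball 0 1) :=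
      ⟨fun z hz => by simpa using hz, pg.injective.injOn,
        fun z hz => ⟨pg.symm z, by simpa using hz, by simp⟩⟩
    refine ⟨c, hc, pg ∘ f ∘ pg.symm, Or.inr ⟨b2.comp (hf.comp bij), fun x hx y hy => ?_⟩⟩
    have := hd _ (mem x hx) _ (mem y hy)
    simp only [LinearIsometryEquiv.apply_symm_apply] at this
    simp only [this, Function.comp_apply, pg_inner, pg.norm_map]

end Pool.Agent.P.MP_ec5bc9_gt.H13
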