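import Pool.Agent.P.MP_ec5bc9_gt.G1

/-! Small discs: strict convexity of balls, existence and uniqueness of perpendiculars. -/

set_option autoImplicit false

namespace Pool.Agent.P.MP_ec5bc9_gt.H13

open Set Filter Topology

attribute [-simp] Complex.real_smul

structure Loc (M : Set ℂ) (d : ℂ → ℂ → ℝ) (D : Set ℂ) : Prop where
  pm : PM0 D d
  sub : D ⊆ M
  sq : ∀ X ∈ D, ∀ Y ∈ D, ∀ Z ∈ M, Z ≠ Y → d X Z ≤ d X Y → ∀ θ : ℝ, 0 < θ → θ < 1 →
    d X (Y + θ • (Z - Y)) < d X Y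

structure PN (M : Set ℂ) (d : ℂ → ℂ → ℝ) : Prop extends PM0 M d where
  exists_perp : ∀ {Y w : ℂ}, Y ∈ M → w ≠ 0 → ∃ u : ℂ, ‖u‖ = 1 ∧ 0 < cr w u ∧ Perp M d Y w u
  perp_unique : ∀ {Y w u X : ℂ}, Y ∈ M → 0 < cr w u → Perp M d Y w u → X ∈ M →
    0 < cr w (X - Y) → Foot M d X Y w → cr u (X - Y) = 0

lemma PM0.restrict {M D : Set ℂ} {d : ℂ → ℂ → ℝ} (H : PM0 M d) (h : D ⊆ M) (ho : IsOpen D)
    (hc : Convex ℝ D) : PM0 D d :=
  ⟨ho, hc, fun x hx => H.refl x (h hx), fun x hx y hy => H.pos x (h hx) y (h hy),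
    fun x hx y hy => H.symm x (h hx) y (h hy),
    fun x hx y hy z hz => H.tri x (h hx) y (h hy) z (h hz),
    fun x hx z hz => H.add x (h hx) z (h hz), H.cont.mono (prod_mono h h)⟩

lemma PM0.foot_seg {M : Set ℂ} {d : ℂ → ℂ → ℝ} (H : PM0 M d) {Y Z w : ℂ} (hY : Y ∈ M)
    (hX : Y + Z ∈ M) (h : Foot M d (Y + Z) Y w) {t : ℝ} (h0 : 0 ≤ t) (h1 : t ≤ 1) :
    Foot M d (Y + t • Z) Y w := by
  intro s hs
  have hX' : Y + (1 : ℝ) • Z ∈ M := by simpa using hX
  have hP := H.ray_mem hY hX' h0 h1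
  have a1 := H.ray_add hY hX' h0 h1
  rw [one_smul] at a1
  linarith [h s hs, H.tri _ hX _ hP _ hs, H.symm _ hX _ hY, H.symm _ hP _ hY, H.symm _ hP _ hX]

lemma PG.exists_loc {M : Set ℂ} {d : ℂ → ℂ → ℝ} (H : PG M d) {O : ℂ} (hO : O ∈ M) :
    ∃ D, O ∈ D ∧ Loc M d D := by
  obtain ⟨R, hR, hb⟩ := Metric.nhds_basis_closedBall.mem_iff.1 (H.isOpen.mem_nhds hO)
  obtain ⟨m, hm, hfar⟩ := H.far hO hR
  have T := H.tendsto hO hO (tendsto_const_nhds (f := 𝓝 O)) tendsto_id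
  rw [H.refl O hO] at T
  obtain ⟨δ, hδ, hD⟩ := Metric.eventually_nhds_iff_ball.1
    ((T.eventually (gt_mem_nhds (show 0 < m / 8 by linarith))).and (H.isOpen.mem_nhds hO))
  have sub : Metric.ball O δ ⊆ M := fun X hX => (hD X hX).2
  have near : ∀ X ∈ Metric.ball O δ, d O X < m / 8 := fun X hX => (hD X hX).1
  have cpt : ∀ X ∈ Metric.ball O δ, ∀ r, r ≤ 3 * m / 4 → IsCompact {Z | Z ∈ M ∧ d X Z ≤ r} := by
    intro X hX r hr
    have e : {Z | Z ∈ M ∧ d X Z ≤ r} = {Z ∈ Metric.closedBall O R | d X Z ≤ r} := by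
      ext Z
      refine ⟨fun h => ⟨?_, h.2⟩, fun h => ⟨hb h.1, h.2⟩⟩
      rw [mem_closedBall_iff_norm]
      by_contra hc
      linarith [hfar Z h.1 (not_le.1 hc).le, H.tri O hO X (sub hX) Z h.1, near X hX, h.2]
    rw [e]
    exact (isCompact_closedBall O R).of_isClosed_subset (Metric.isClosed_closedBall.isClosed_le
      (H.continuousOn continuousOn_const continuousOn_id (fun _ _ => sub hX) hb)
      continuousOn_const) (sep_subset _ _)
  refine ⟨Metric.ball O δ, Metric.mem_ball_self hδ,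
    H.toPM0.restrict sub Metric.isOpen_ball (convex_ball O δ), sub, ?_⟩
  intro X hX Y hY Z hZ hZY hd θ h0 h1
  have hXM := sub hX
  have hYM := sub hY
  have hw : Z - Y ≠ 0 := sub_ne_zero.2 hZY
  have hP := H.seg_mem hYM hZ h0.le h1.le
  have hPY : Y + θ • (Z - Y) ≠ Y := by simp [h0.ne', hw]
  have hPZ : Y + θ • (Z - Y) ≠ Z := by
    intro e
    have : (1 - θ) • (Z - Y) = 0 := by
      rw [show (1 - θ) • (Z - Y) = Z - (Y + θ • (Z - Y)) by module, e, sub_self]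
    rcases smul_eq_zero.1 this with h | h
    · linarith
    · exact hw h
  by_cases hc : cr (Z - Y) (X - Y) = 0
  · obtain ⟨s, hs⟩ := exists_smul_of_cr hw hc
    have eX : X = Y + s • (Z - Y) := by rw [← hs]; abel
    rcases le_total θ s with h | h
    · have := H.ray_add hYM (eX ▸ hXM) h0.le h
      rw [← eX] at this
      linarith [H.pos _ hYM _ hP hPY.symm, H.symm _ hXM _ hYM, H.symm _ hXM _ hP]
    · have := H.line_add (x := Y) (v := Z - Y) (r := s) (s := θ) (t := 1) (eX ▸ hXM)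
        (by simpa using hZ) h h1.le
      rw [← eX, one_smul, add_sub_cancel] at this
      linarith [H.pos _ hP _ hZ hPZ]
  obtain ⟨P, hPd⟩ : ∃ P, P = Y + θ • (Z - Y) := ⟨_, rfl⟩
  rw [← hPd] at hP ⊢
  obtain ⟨ε, b1, b2⟩ := (((small_r X (X - P)).eventually (Metric.isOpen_ball.mem_nhds hX)).and
    self_mem_nhdsWithin).exists
  have hε : 0 < ε := b2
  obtain ⟨X2, hX2⟩ : ∃ X2, X2 = X + ε • (X - P) := ⟨_, rfl⟩
  rw [← hX2] at b1
  have m2 := sub b1
  have a0 : d X2 P = d X2 X + d X P := by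
    have e1 : X2 = P + (1 + ε) • (X - P) := by rw [hX2]; module
    have := H.ray_add hP (e1 ▸ m2) zero_le_one (by linarith : (1 : ℝ) ≤ 1 + ε)
    rw [← e1, one_smul, add_sub_cancel] at this
    linarith [H.symm _ m2 _ hP, H.symm _ m2 _ hXM, H.symm _ hXM _ hP]
  have a1 := H.strict X2 m2 X hXM Y hYM (by
    have e1 : X - X2 = (-ε) • ((X - Y) - θ • (Z - Y)) := by rw [hX2, hPd]; module
    have e2 : Y - X2 = (-(1 + ε)) • (X - Y) + (ε * θ) • (Z - Y) := by rw [hX2, hPd]; module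
    rw [e1, e2]
    generalize Z - Y = w at hc
    generalize X - Y = u at hc
    have : cr ((-ε) • (u - θ • w)) ((-(1 + ε)) • u + (ε * θ) • w) = -(ε * θ * cr w u) := by
      simp only [cr_smul_l, cr_sub_l, cr_add_r, cr_smul_r, cr_self, cr_comm u w]; ring
    rw [this]; exact neg_ne_zero.2 (mul_ne_zero (by positivity) hc))
  have a2 := H.strict X2 m2 X hXM Z hZ (by
    have e1 : X - X2 = (-ε) • ((X - Y) - θ • (Z - Y)) := by rw [hX2, hPd]; module
    have e2 : Z - X2 = (-(1 + ε)) • (X - Y) + (1 + ε * θ) • (Z - Y) := by rw [hX2, hPd]; module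
    rw [e1, e2]
    generalize Z - Y = w at hc
    generalize X - Y = u at hc
    have : cr ((-ε) • (u - θ • w)) ((-(1 + ε)) • u + (1 + ε * θ) • w) = ε * (1 - θ) * cr w u := by
      simp only [cr_smul_l, cr_sub_l, cr_add_r, cr_smul_r, cr_self, cr_comm u w]; ring
    rw [this]; exact mul_ne_zero (mul_ne_zero hε.ne' (by linarith)) hc)
  have n2 : d X2 X < m / 4 := by
    linarith [H.tri X2 m2 O hO X hXM, H.symm X2 m2 O hO, near X2 b1, near X hX]
  have n3 : d X Y < m / 4 := by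
    linarith [H.tri X hXM O hO Y hYM, H.symm X hXM O hO, near X hX, near Y hY]
  have hr : max (d X2 Y) (d X2 Z) < d X2 X + d X Y := max_lt a1 (by linarith)
  have hr0 : 0 < max (d X2 Y) (d X2 Z) := by
    by_cases h : X2 = Y
    · exact lt_max_of_lt_right (H.pos _ m2 _ hZ (by rw [h]; exact hZY.symm))
    · exact lt_max_of_lt_left (H.pos _ m2 _ hYM h)
  have := H.ball_convex m2 hr0 (cpt X2 b1 _ (by linarith)) hYM hZ (le_max_left _ _)
    (le_max_right _ _) ⟨h0.le, h1.le⟩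
  rw [← hPd] at this
  linarith

namespace Loc
variable {M D : Set ℂ} {d : ℂ → ℂ → ℝ} (L : Loc M d D)
include L

lemma foot_strict {X Y w : ℂ} (hX : X ∈ D) (hY : Y ∈ D) (hw : w ≠ 0) (h : Foot D d X Y w) {s : ℝ}
    (hs : s ≠ 0) (hm : Y + s • w ∈ M) : d X Y < d X (Y + s • w) := by
  by_contra hc
  obtain ⟨θ, b1, b2⟩ := ((L.pm.eventually_mem hY (small_r Y (s • w))).and
    (Ioo_mem_nhdsGT (zero_lt_one' ℝ))).exists
  have := L.sq X hX Y hY _ hm (by simp [hs, hw]) (not_lt.1 hc) θ b2.1 b2.2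
  rw [add_sub_cancel_left, smul_smul] at this
  rw [smul_smul] at b1
  linarith [h _ b1]

lemma foot_M {X Y w : ℂ} (hX : X ∈ D) (hY : Y ∈ D) (hw : w ≠ 0) (h : Foot D d X Y w) :
    Foot M d X Y w := by
  intro s hs
  by_cases h0 : s = 0
  · simp [h0]
  · exact (L.foot_strict hX hY hw h h0 hs).le

lemma path_mem {Y w v : ℂ} (h1 : Y + w ∈ D) (h2 : Y - w ∈ D) (hv : Y + v ∈ D) {p : ℝ}
    (hp : p ∈ Icc (-1 : ℝ) 1) : Y + (p • w + (1 - |p|) • v) ∈ D := by
  rcases le_total 0 p with h | h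
  · have := L.pm.seg_mem hv h1 h hp.2
    rw [abs_of_nonneg h]
    convert this using 1; module
  · have := L.pm.seg_mem hv h2 (t := -p) (by linarith) (by linarith [hp.1])
    rw [abs_of_nonpos h]
    convert this using 1; module

lemma path_lt {Y w v : ℂ} (hY : Y ∈ D) (hw : w ≠ 0) (h1 : Y + w ∈ D) (h2 : Y - w ∈ D) {p : ℝ}
    (hp : p ∈ Icc (-1 : ℝ) 1) (h : Foot D d (Y + (p • w + (1 - |p|) • v)) Y w) : |p| < 1 := by
  refine lt_of_le_of_ne (abs_le.2 hp) fun e => ?_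
  have hm : Y + p • w ∈ D := by
    have := L.path_mem h1 h2 (v := 0) (by simpa using hY) hp
    simpa using this
  have := h p hm
  rw [e, sub_self, zero_smul, add_zero, L.pm.refl _ hm] at this
  refine absurd this (not_le.2 (L.pm.pos _ hm _ hY ?_))
  have hp0 : p ≠ 0 := by rintro rfl; simp at e
  simp [hp0, hw]

/-- Every path around `Y` from one side of the line to the other meets a point with foot `Y`. -/
lemma path {Y w v : ℂ} (hY : Y ∈ D) (hw : w ≠ 0) (h1 : Y + w ∈ D) (h2 : Y - w ∈ D)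
    (hv : Y + v ∈ D) : ∃ p ∈ Icc (-1 : ℝ) 1, Foot D d (Y + (p • w + (1 - |p|) • v)) Y w := by
  obtain ⟨γ, hγ⟩ : ∃ γ : ℝ → ℂ, γ = fun p => Y + (p • w + (1 - |p|) • v) := ⟨_, rfl⟩
  have cγ : Continuous γ := by rw [hγ]; fun_prop
  have mγ : ∀ p ∈ Icc (-1 : ℝ) 1, γ p ∈ D := fun p hp => by
    rw [hγ]; exact L.path_mem h1 h2 hv hp
  have cl : ∀ S : Set ℝ, (∀ s ∈ S, Y + s • w ∈ D) →
      IsClosed (⋂ s ∈ S, {p ∈ Icc (-1 : ℝ) 1 | d (γ p) Y ≤ d (γ p) (Y + s • w)}) := fun S hS =>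
    isClosed_biInter fun s hs => isClosed_Icc.isClosed_le
      (L.pm.continuousOn cγ.continuousOn continuousOn_const mγ fun _ _ => hY)
      (L.pm.continuousOn cγ.continuousOn continuousOn_const mγ fun _ _ => hS s hs)
  have o1 : (1 : ℝ) ∈ Icc (-1 : ℝ) 1 := ⟨by norm_num, le_rfl⟩
  have o2 : (-1 : ℝ) ∈ Icc (-1 : ℝ) 1 := ⟨le_rfl, by norm_num⟩
  obtain ⟨p, hp, hp1, hp2⟩ := isPreconnected_closed_iff.1 (isPreconnected_Icc (a := (-1 : ℝ)) (b := 1))
    _ _ (cl {s | 0 < s ∧ Y + s • w ∈ D} fun s hs => hs.2) (cl {s | s < 0 ∧ Y + s • w ∈ D} fun s hs => hs.2)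
    (by
      intro p hp
      by_contra hc
      simp only [mem_union, mem_iInter, mem_ofPred_eq, not_or, not_forall, not_and, not_le] at hc
      obtain ⟨⟨s, ⟨s0, sm⟩, hs⟩, ⟨t, ⟨t0, tm⟩, ht⟩⟩ := hc
      have hs := hs hp
      have ht := ht hp
      have hne : Y + s • w ≠ Y + t • w := fun e =>
        absurd (smul_left_injective ℝ hw (add_left_cancel e)) (by linarith [s0, t0] : s > t).ne'
      have hst : 0 < s - t := by linarith
      rcases le_total (d (γ p) (Y + s • w)) (d (γ p) (Y + t • w)) with h | h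
      · have := L.sq _ (mγ p hp) _ tm _ (L.sub sm) hne h (-t / (s - t)) (div_pos (by linarith) hst)
          ((div_lt_one hst).2 (by linarith))
        rw [show Y + s • w - (Y + t • w) = (s - t) • w by module, smul_smul,
          div_mul_cancel₀ _ hst.ne', show Y + t • w + (-t) • w = Y by module] at this
        linarith
      · have := L.sq _ (mγ p hp) _ sm _ (L.sub tm) hne.symm h (s / (s - t)) (div_pos s0 hst)
          ((div_lt_one hst).2 (by linarith))
        rw [show Y + t • w - (Y + s • w) = (s - t) • (-w) by module, smul_smul,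
          div_mul_cancel₀ _ hst.ne', show Y + s • w + s • (-w) = Y by module] at this
        linarith)
    ⟨-1, o2, by
      simp only [mem_iInter, mem_ofPred_eq]
      rintro s ⟨s0, sm⟩
      have e : γ (-1) = Y - w := by rw [hγ]; simp [sub_eq_add_neg]
      have := L.pm.ray_mono h2 (v := w) (s := 1) (t := 1 + s)
        (by rwa [show Y - w + (1 + s) • w = Y + s • w by module]) zero_le_one (by linarith)
      rw [show Y - w + (1 + s) • w = Y + s • w by module, one_smul, sub_add_cancel] at this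
      exact ⟨o2, e ▸ this⟩⟩
    ⟨1, o1, by
      simp only [mem_iInter, mem_ofPred_eq]
      rintro s ⟨s0, sm⟩
      have e : γ 1 = Y + w := by rw [hγ]; simp
      have := L.pm.ray_mono h1 (v := -w) (s := 1) (t := 1 - s)
        (by rwa [show Y + w + (1 - s) • (-w) = Y + s • w by module]) zero_le_one (by linarith)
      rw [show Y + w + (1 - s) • (-w) = Y + s • w by module, one_smul, add_neg_cancel_right] at this
      exact ⟨o1, e ▸ this⟩⟩
  simp only [mem_iInter, mem_ofPred_eq] at hp1 hp2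
  refine ⟨p, hp, fun s hs => ?_⟩
  have e : Y + (p • w + (1 - |p|) • v) = γ p := by rw [hγ]
  rw [e]
  rcases lt_trichotomy s 0 with h | h | h
  · exact (hp2 s ⟨h, hs⟩).2
  · simp [h]
  · exact (hp1 s ⟨h, hs⟩).2

lemma exists_scale {Y : ℂ} (hY : Y ∈ D) (w : ℂ) : ∃ a : ℝ, 0 < a ∧ Y + a • w ∈ D ∧ Y - a • w ∈ D := by
  obtain ⟨a, b1, b2, b3⟩ := ((L.pm.eventually_mem hY (small_r Y w)).and
    ((L.pm.eventually_mem hY (small_r Y (-w))).and self_mem_nhdsWithin)).exists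
  exact ⟨a, b3, b1, by simpa [sub_eq_add_neg] using b2⟩

end Loc

lemma Foot.of_smul {M : Set ℂ} {d : ℂ → ℂ → ℝ} {X Y w : ℂ} {a : ℝ} (ha : a ≠ 0)
    (h : Foot M d X Y (a • w)) : Foot M d X Y w := by
  intro s hs
  have e : s • w = (s / a) • a • w := by rw [smul_smul, div_mul_cancel₀ _ ha]
  rw [e] at hs ⊢
  exact h _ hs

lemma Foot.smul {M : Set ℂ} {d : ℂ → ℂ → ℝ} {X Y w : ℂ} (h : Foot M d X Y w) (a : ℝ) :
    Foot M d X Y (a • w) := by
  intro s hs
  rw [smul_smul] at hs ⊢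
  exact h _ hs

end Pool.Agent.P.MP_ec5bc9_gt.H13
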