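import Pool.Agent.P.MP_ec5bc9_gt.G2

/-! Uniqueness and existence of perpendiculars in a small disc. -/

set_option autoImplicit false

namespace Pool.Agent.P.MP_ec5bc9_gt.H13

open Set Filter Topology

attribute [-simp] Complex.real_smul

instance : Nonempty Con := ⟨⟨⟨0, 0, 0⟩, 0, 0⟩⟩

namespace PG
variable {M D : Set ℂ} {d : ℂ → ℂ → ℝ} (H : PG M d)
include H

lemma choose_con {Y w u : ℂ} (hY : Y ∈ M) (hu : 0 < cr w u) : ∃ C : ℝ → Con,
    ∀ᶠ ε in (UU : Filter ℝ), Y + (-ε) • u ∈ M ∧ 0 < cr w (Y - (Y + (-ε) • u)) ∧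
      Side M d (Y + (-ε) • u) w Y (C ε) ∧ (C ε).q Y < 0 := by
  have : ∀ ε : ℝ, ∃ C : Con, Y + (-ε) • u ∈ M → cr w (Y - (Y + (-ε) • u)) ≠ 0 →
      Side M d (Y + (-ε) • u) w Y C := by
    intro ε
    by_cases h : Y + (-ε) • u ∈ M ∧ cr w (Y - (Y + (-ε) • u)) ≠ 0
    · obtain ⟨C, hC⟩ := H.side h.1 hY h.2
      exact ⟨C, fun _ _ => hC⟩
    · exact ⟨Classical.arbitrary _, fun h1 h2 => absurd ⟨h1, h2⟩ h⟩
  choose C hC using this
  refine ⟨C, ?_⟩
  filter_upwards [(H.eventually_mem hY (small_r Y (-u))).filter_mono UU_le, UU_pos] with ε h1 h2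
  have h3 : Y + (-ε) • u ∈ M := by simpa using h1
  have h4 : 0 < cr w (Y - (Y + (-ε) • u)) := by simpa using mul_pos h2 hu
  exact ⟨h3, h4, hC ε h3 h4.ne', ((hC ε h3 h4.ne').lt hY).1 (H.ff_focus h3 hY h4.ne')⟩

lemma uniq (L : Loc M d D) {Y w u v : ℂ} (hY : Y ∈ D) (h1 : Y + u ∈ D) (h2 : Y + v ∈ D)
    (hu : 0 < cr w u) (hv : 0 < cr w v) (f1 : Foot D d (Y + u) Y w) (f2 : Foot D d (Y + v) Y w) :
    cr u v = 0 := by
  have hw : w ≠ 0 := by rintro rfl; simp at hu
  have hYM := L.sub hY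
  obtain ⟨C, hC⟩ := H.choose_con hYM hu
  obtain ⟨Q, h0, hQ⟩ := con_limit UU C Y (fun _ => 1) (hC.mono fun ε h => h.2.2.2.ne)
  simp only [one_smul] at hQ
  have TZ : Tendsto (fun ε : ℝ => Y + (-ε) • u) UU (𝓝 Y) := by
    have := (small_r Y (-u)).mono_left UU_le
    simpa using this
  have fa : ∀ W : ℂ, Y + W ∈ M → 0 ≤ cr w W → Foot M d (Y + W) Y w → Q.q W ≤ 0 := by
    intro W hW hcW hfW
    apply (hQ W (fun _ => W) tendsto_const_nhds).1
    filter_upwards [hC, UU_pos] with ε ⟨h1, h2, h3, h4⟩ hε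
    rw [← h3.le _ hW, ff, sub_nonpos]
    apply PM0.le_dl h1
    intro s hs
    have hden : 0 < cr w W + ε * cr w u := by positivity
    set τ := cr w W / (cr w W + ε * cr w u) with hτ
    have hτ0 : 0 ≤ τ := div_nonneg hcW hden.le
    have hτ1 : τ ≤ 1 := (div_le_one hden).2 (by nlinarith)
    obtain ⟨r, hr⟩ := exists_smul_of_cr
      (v := Y + W + τ • (Y + (-ε) • u + s • w - (Y + W)) - Y) hw (by
        have : Y + W + τ • (Y + (-ε) • u + s • w - (Y + W)) - Y =
          W + τ • ((-ε) • u + s • w - W) := by module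
        rw [this]; simp only [cr_add_r, cr_smul_r, cr_sub_r, cr_self, hτ]
        field_simp; ring)
    have e : Y + W + τ • (Y + (-ε) • u + s • w - (Y + W)) = Y + r • w := by rw [← hr]; abel
    have hm := H.seg_mem hW hs hτ0 hτ1
    have a1 := H.add _ hW _ hs τ ⟨hτ0, hτ1⟩
    have a2 := H.nonneg hm hs
    rw [e] at hm a1 a2
    linarith [hfW r hm]
  have fb : ∀ W : ℂ, Y + W ∈ M → cr w W ≤ 0 → 0 ≤ Q.q W := by
    intro W hW hc
    have T : Tendsto (fun ε : ℝ => W + (-ε) • u) UU (𝓝 W) := by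
      have := (small_r W (-u)).mono_left UU_le
      simpa using this
    apply (hQ _ _ T).2
    filter_upwards [hC, H.eventually_mem hW (T.const_add Y)] with ε ⟨h1, h2, h3, h4⟩ h5
    refine (h3.ge _ h5).1 (H.ff_below h1 hYM h2 h5 ?_).le
    rwa [show Y + (W + (-ε) • u) - (Y + (-ε) • u) = W by abel]
  have hK : Q.q 0 = 0 := le_antisymm (fa 0 (by simpa using hYM) (by simp) (by
      intro s hs; simp only [add_zero]; rw [H.refl Y hYM]; exact H.nonneg hYM hs))
    (fb 0 (by simpa using hYM) (by simp))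
  have slope : ∀ z : ℂ, cr w z ≤ 0 → 0 ≤ dot Q.l z := by
    intro z hz
    rw [← Q.grad_zero]
    refine Q.slope_nonneg hK ?_
    filter_upwards [H.eventually_mem hYM (small_r Y z), self_mem_nhdsWithin] with t a1 a2
    rw [zero_add]
    exact fb _ a1 (by rw [cr_smul_r]; exact mul_nonpos_of_nonneg_of_nonpos (le_of_lt a2) hz)
  have hOw : dot Q.l w = 0 := by
    have a1 := slope w (by simp)
    have a2 := slope (-w) (by simp)
    rw [dot_neg_r] at a2; linarith
  have hOu : dot Q.l u ≤ 0 := by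
    have := slope (-u) (by simpa using hu.le)
    simpa using this
  rcases eq_or_lt_of_le hOu with hOu | hOu
  · have hO : Q.l = 0 := eq_zero_of_dot hu.ne' hOw hOu
    have hk : Q.k = 0 := by simpa using hK
    have hq : ∀ W, Q.q W = Q.A.ev W := fun W => by simp [Con.q, hO, hk]
    have half : ∀ z, cr w z ≤ 0 → 0 ≤ Q.A.ev z := by
      intro z hz
      obtain ⟨t, a1, a2⟩ := ((H.eventually_mem hYM (small_r Y z)).and self_mem_nhdsWithin).exists
      have ht : 0 < t := a2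
      have := fb _ a1 (by rw [cr_smul_r]; exact mul_nonpos_of_nonneg_of_nonpos ht.le hz)
      rw [hq, QF.ev_smul] at this
      exact le_of_mul_le_mul_left (by simpa using this) (pow_pos ht 2)
    have psd : ∀ z, 0 ≤ Q.A.ev z := by
      intro z
      rcases le_total (cr w z) 0 with h | h
      · exact half z h
      · simpa using half (-z) (by simpa using h)
    by_contra hne
    refine h0 ⟨Q.A.zero_of_psd hne psd (le_antisymm ?_ (psd _)) (le_antisymm ?_ (psd _)), hO, hk⟩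
    · rw [← hq]; exact fa u (L.sub h1) hu.le (L.foot_M h1 hY hw f1)
    · rw [← hq]; exact fa v (L.sub h2) hv.le (L.foot_M h2 hY hw f2)
  · exfalso
    have fc : ∀ W : ℂ, Y + W ∈ M → Q.q W < 0 → Foot M d (Y + W) Y w := by
      intro W hW hq
      have hev : ∀ᶠ ε in (UU : Filter ℝ), (C ε).q (Y + W) < 0 := by
        rcases UU.em (fun ε => (C ε).q (Y + W) < 0) with h | h
        · exact h
        · exact absurd ((hQ W (fun _ => W) tendsto_const_nhds).2 (h.mono fun ε h => not_lt.1 h))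
            (not_le.2 hq)
      apply H.foot_limit hW hYM tendsto_const_nhds tendsto_const_nhds TZ tendsto_const_nhds
      filter_upwards [hC, hev] with ε ⟨h1, h2, h3, h4⟩ h5 s hs
      have b1 := (h3.lt hW).2 h5
      have b2 := H.dl_le (Y := Y + (-ε) • u) (w := w) hW hs
      simp only [ff] at b1; linarith
    obtain ⟨a, ha, m1, m2⟩ := L.exists_scale hY w
    have hw' : a • w ≠ 0 := smul_ne_zero ha.ne' hw
    have hex : ∀ σ : ℝ, ∃ p ∈ Icc (-1 : ℝ) 1, Y + σ • w ∈ D → Y + σ • w + a • w ∈ D →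
        Y + σ • w - a • w ∈ D → Y + σ • w + u ∈ D →
        Foot D d (Y + σ • w + (p • a • w + (1 - |p|) • u)) (Y + σ • w) (a • w) := by
      intro σ
      by_cases h : Y + σ • w ∈ D ∧ Y + σ • w + a • w ∈ D ∧ Y + σ • w - a • w ∈ D ∧ Y + σ • w + u ∈ D
      · obtain ⟨p, hp, hf⟩ := L.path h.1 hw' h.2.1 h.2.2.1 h.2.2.2
        exact ⟨p, hp, fun _ _ _ _ => hf⟩
      · exact ⟨0, by simp, fun a1 a2 a3 a4 => absurd ⟨a1, a2, a3, a4⟩ h⟩
    choose p hp1 hp2 using hex
    obtain ⟨p0, hp0, T⟩ := ultra_lim UU isCompact_Icc (f := p) (Eventually.of_forall hp1)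
    have TY : Tendsto (fun σ : ℝ => Y + σ • w) UU (𝓝 Y) := (small_r Y w).mono_left UU_le
    have TZ' : Tendsto (fun σ : ℝ => p σ • a • w + (1 - |p σ|) • u) UU
        (𝓝 (p0 • a • w + (1 - |p0|) • u)) :=
      (T.smul_const _).add ((T.abs.const_sub 1).smul_const _)
    have hX0 := L.path_mem m1 m2 h1 hp0
    have ev : ∀ᶠ σ in (UU : Filter ℝ), Y + σ • w ∈ D ∧
        Y + σ • w + (p σ • a • w + (1 - |p σ|) • u) ∈ D ∧
        Foot D d (Y + σ • w + (p σ • a • w + (1 - |p σ|) • u)) (Y + σ • w) (a • w) := by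
      filter_upwards [L.pm.eventually_mem hY TY, L.pm.eventually_mem m1 (TY.add_const _),
        L.pm.eventually_mem m2 (TY.sub_const _), L.pm.eventually_mem h1 (TY.add_const _)]
        with σ a1 a2 a3 a4
      exact ⟨a1, L.path_mem a2 a3 a4 (hp1 σ), hp2 σ a1 a2 a3 a4⟩
    have f0 := L.pm.foot_limit hX0 hY (TY.add TZ') TY TY tendsto_const_nhds (ev.mono fun σ h => h.2.2)
    have hlt := L.path_lt hY hw' m1 m2 hp0 f0
    obtain ⟨Z, hZ⟩ : ∃ Z, Z = p0 • a • w + (1 - |p0|) • u := ⟨_, rfl⟩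
    have hOz : dot (Q.grad 0) Z < 0 := by
      rw [Q.grad_zero, hZ]
      simp only [dot_add_r, dot_smul_r, hOw, mul_zero, zero_add]
      exact mul_neg_of_pos_of_neg (by linarith) hOu
    rw [← hZ] at TZ'
    obtain ⟨t, hq, ht⟩ := ((Q.ev_neg_of_slope hK hOz).and (Ioo_mem_nhdsGT (zero_lt_one' ℝ))).exists
    rw [zero_add] at hq
    have TW : Tendsto (fun σ : ℝ => σ • w + t • (p σ • a • w + (1 - |p σ|) • u)) UU (𝓝 (t • Z)) := by
      have := ((small_r 0 w).mono_left UU_le).add (TZ'.const_smul t)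
      simpa using this
    obtain ⟨σ, ⟨s1, s2, s3⟩, s4, s5⟩ := (ev.and ((((Q.continuous_q.tendsto _).comp TW).eventually
      (gt_mem_nhds hq)).and UU_pos)).exists
    have s6 := L.pm.ray_mem s1 (t := 1) (by rwa [one_smul]) ht.1.le ht.2.le
    have b0 := (L.pm.foot_seg s1 s2 s3 ht.1.le ht.2.le).of_smul ha.ne'
    have b1 := fc _ (by rw [← add_assoc]; exact L.sub s6) s4 σ (L.sub s1)
    have e : Y + σ • w + (-σ) • w = Y := by module
    have b2 := L.foot_strict s6 s1 hw b0 (s := -σ) (by linarith) (by rwa [e])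
    rw [e] at b2
    rw [← add_assoc] at b1
    linarith

lemma pn (L : Loc M d D) : PN D d := by
  refine ⟨L.pm, fun {Y w} hY hw => ?_, fun {Y w u X} hY hu hp hX hc hf => ?_⟩
  · obtain ⟨a, ha, m1, m2⟩ := L.exists_scale hY w
    have hw' : a • w ≠ 0 := smul_ne_zero ha.ne' hw
    obtain ⟨η, hη, m3, -⟩ := L.exists_scale hY (Complex.I * w)
    have hc0 : 0 < cr w (Complex.I * w) := by
      have : cr w (Complex.I * w) = ‖w‖ ^ 2 := by rw [← dot_self]; simp [cr, dot]
      rw [this]; exact pow_pos (norm_pos_iff.2 hw) 2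
    obtain ⟨p, hp, hf⟩ := L.path hY hw' m1 m2 m3
    have hlt := L.path_lt hY hw' m1 m2 hp hf
    have hm := L.path_mem m1 m2 m3 hp
    obtain ⟨Z, hZ⟩ : ∃ Z, Z = p • a • w + (1 - |p|) • η • (Complex.I * w) := ⟨_, rfl⟩
    have hcZ : 0 < cr w Z := by
      rw [hZ]
      simp only [cr_add_r, cr_smul_r, cr_self, mul_zero, zero_add]
      exact mul_pos (by linarith) (mul_pos hη hc0)
    rw [← hZ] at hf hm
    have hn : 0 < ‖Z‖ := norm_pos_iff.2 (by rintro rfl; simp at hcZ)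
    refine ⟨‖Z‖⁻¹ • Z, by simp [norm_smul, hn.ne'], by rw [cr_smul_r]; positivity, fun t ht hX => ?_⟩
    rcases ht.eq_or_lt with rfl | ht
    · intro s hs
      rw [zero_smul, add_zero, L.pm.refl Y hY]; exact L.pm.nonneg hY hs
    obtain ⟨p', hp', hf'⟩ := L.path hY hw' m1 m2 hX
    have hlt' := L.path_lt hY hw' m1 m2 hp' hf'
    have := H.uniq L hY hm (L.path_mem m1 m2 hX hp') hcZ (by
      simp only [cr_add_r, cr_smul_r, cr_self, mul_zero, zero_add]
      exact mul_pos (by linarith) (by positivity)) (hf.of_smul ha.ne') (hf'.of_smul ha.ne')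
    simp only [cr_add_r, cr_smul_r, cr_self, mul_zero, add_zero] at this
    have hp0 : p' = 0 := by
      rw [cr_comm] at this
      rcases mul_eq_zero.1 this with h | h
      · exact h
      · exact absurd h (mul_ne_zero ha.ne' (neg_ne_zero.2 hcZ.ne'))
    rw [hp0] at hf'
    simpa using hf'.of_smul ha.ne'
  · obtain ⟨t, ht, m1, -⟩ := L.exists_scale hY u
    have := H.uniq L (u := t • u) (v := X - Y) hY m1 (by simpa using hX)
      (by rw [cr_smul_r]; positivity) hc (hp t ht.le m1) (by simpa using hf)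
    rw [cr_smul_l] at this
    exact (mul_eq_zero.1 this).resolve_left ht.ne'

end PG

end Pool.Agent.P.MP_ec5bc9_gt.H13
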