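import Pool.Agent.P.MP_ec5bc9_gt.G3

/-! Consequences of existence and uniqueness of perpendiculars: continuity of the perpendicular,
bounded eccentricity of small balls, the blow-up is a norm.  The proofs are those of the files
A2, A4, A5, with the two properties of perpendiculars as hypotheses. -/

set_option autoImplicit false

namespace Pool.Agent.P.MP_ec5bc9_gt.H13

open Set Filter Topology

attribute [-simp] Complex.real_smul

namespace PN
variable {M : Set ℂ} {d : ℂ → ℂ → ℝ} (H : PN M d)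
include H

lemma nu_cr {Y w : ℂ} (hY : Y ∈ M) (hw : w ≠ 0) : 0 < cr w (nu M d Y w) := by
  have h := H.exists_perp hY hw
  unfold nu; rw [dif_pos h]; exact h.choose_spec.2.1

lemma nu_perp {Y w : ℂ} (hY : Y ∈ M) (hw : w ≠ 0) : Perp M d Y w (nu M d Y w) := by
  have h := H.exists_perp hY hw
  unfold nu; rw [dif_pos h]; exact h.choose_spec.2.2

/-- a point with foot `Y` lies on the perpendicular ray -/
lemma foot_eq {Y w X : ℂ} (hY : Y ∈ M) (hX : X ∈ M) (hc : 0 < cr w (X - Y)) (hf : Foot M d X Y w) :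
    X = Y + ‖X - Y‖ • nu M d Y w := by
  have hw : w ≠ 0 := by rintro rfl; simp at hc
  have h1 := H.perp_unique hY (H.nu_cr hY hw) (H.nu_perp hY hw) hX hc hf
  have hn := nu_norm M d Y w
  obtain ⟨s, hs⟩ := exists_smul_of_cr (by rintro h; rw [h] at hn; simp at hn) h1
  have hs0 : 0 < s := by
    rw [hs, cr_smul_r] at hc
    exact (mul_pos_iff_of_pos_right (H.nu_cr hY hw)).1 hc
  rw [hs, norm_smul, hn, mul_one, Real.norm_eq_abs, abs_of_pos hs0, ← hs]; abel

lemma nu_unique {Y w u : ℂ} (hY : Y ∈ M) (h1 : ‖u‖ = 1) (hc : 0 < cr w u) (hp : Perp M d Y w u) :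
    u = nu M d Y w := by
  obtain ⟨t, ht1, ht2⟩ := ((H.eventually_mem hY (small_r Y u)).and self_mem_nhdsWithin).exists
  have ht : 0 < t := ht2
  have := H.foot_eq hY ht1 (by simp; positivity) (hp t ht.le ht1)
  rw [add_sub_cancel_left, norm_smul, h1, mul_one, Real.norm_eq_abs, abs_of_pos ht] at this
  exact smul_right_injective ℂ ht.ne' (add_left_cancel this)

lemma tendsto_nu {ι : Type*} {l : Filter ι} {Y w : ℂ} {Yi wi : ι → ℂ} (hY : Y ∈ M) (hw : w ≠ 0)
    (TY : Tendsto Yi l (𝓝 Y)) (Tw : Tendsto wi l (𝓝 w)) :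
    Tendsto (fun i => nu M d (Yi i) (wi i)) l (𝓝 (nu M d Y w)) := by
  rw [tendsto_iff_ultrafilter]
  intro U hU
  obtain ⟨z, hz, T⟩ := ultra_lim U (isCompact_sphere (0 : ℂ) 1) (f := fun i => nu M d (Yi i) (wi i))
    (Eventually.of_forall fun i => by simpa using nu_norm M d _ _)
  have hz1 : ‖z‖ = 1 := by simpa using hz
  have hz0 : z ≠ 0 := by rintro rfl; simp at hz1
  have hm := (H.eventually_mem hY TY).filter_mono hU
  have hw' := (Tw.eventually_ne hw).filter_mono hU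
  have hzp : Perp M d Y w z := H.perp_limit hY (TY.mono_left hU) (Tw.mono_left hU) T
    ((hm.and hw').mono fun i h => H.nu_perp h.1 h.2)
  have hzc : 0 < cr w z := by
    refine lt_of_le_of_ne ?_ (H.perp_cr_ne hY hw hz0 hzp).symm
    exact ge_of_tendsto (tendsto_cr (Tw.mono_left hU) T) ((hm.and hw').mono fun i h => (H.nu_cr h.1 h.2).le)
  rwa [← H.nu_unique hY hz1 hzc hzp]

lemma nu_smul {Y w : ℂ} (hY : Y ∈ M) (hw : w ≠ 0) {c : ℝ} (hc : 0 < c) :
    nu M d Y (c • w) = nu M d Y w := by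
  symm
  apply H.nu_unique hY (nu_norm _ _ _ _)
  · rw [cr_smul_l]; exact mul_pos hc (H.nu_cr hY hw)
  · exact (H.nu_perp hY hw).smul_w c

lemma nu_transversal {S : Set ℂ} (hS : IsCompact S) (hSM : S ⊆ M) :
    ∃ α : ℝ, 0 < α ∧ α ≤ 1 ∧ ∀ Y ∈ S, ∀ w : ℂ, w ≠ 0 → α * ‖w‖ ≤ cr w (nu M d Y w) := by
  rcases S.eq_empty_or_nonempty with rfl | hne
  · exact ⟨1, one_pos, le_rfl, fun Y hY => absurd hY (notMem_empty Y)⟩
  have hc : ContinuousOn (fun p : ℂ × ℂ => cr p.2 (nu M d p.1 p.2)) (S ×ˢ Metric.sphere (0 : ℂ) 1) := by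
    intro p hp
    have hw : p.2 ≠ 0 := by
      intro h; have := hp.2; rw [h] at this; simp at this
    have T2 : Tendsto (fun x : ℂ × ℂ => x.2) (𝓝 p) (𝓝 p.2) := continuous_snd.tendsto p
    exact (tendsto_cr T2 (H.tendsto_nu (hSM hp.1) hw (continuous_fst.tendsto p) T2)).mono_left
      nhdsWithin_le_nhds
  obtain ⟨p, hp, hmin⟩ := (hS.prod (isCompact_sphere (0 : ℂ) 1)).exists_isMinOn
    (hne.prod (NormedSpace.sphere_nonempty.2 zero_le_one)) hc
  have hw : p.2 ≠ 0 := by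
    intro h; have := hp.2; rw [h] at this; simp at this
  have hpos := H.nu_cr (hSM hp.1) hw
  refine ⟨min (cr p.2 (nu M d p.1 p.2)) 1, lt_min hpos one_pos, min_le_right _ _, fun Y hY w hw0 => ?_⟩
  have hn : 0 < ‖w‖ := norm_pos_iff.2 hw0
  have h1 : cr p.2 (nu M d p.1 p.2) ≤ cr (‖w‖⁻¹ • w) (nu M d Y (‖w‖⁻¹ • w)) :=
    hmin (a := (Y, ‖w‖⁻¹ • w)) ⟨hY, by simp [norm_smul, hn.ne']⟩
  rw [H.nu_smul (hSM hY) hw0 (inv_pos.2 hn), cr_smul_l, ← div_eq_inv_mul, le_div_iff₀ hn] at h1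
  exact (mul_le_mul_of_nonneg_right (min_le_left _ _) hn.le).trans h1

lemma nu_surj {Y e : ℂ} (hY : Y ∈ M) (he : ‖e‖ = 1) : ∃ w : ℂ, w ≠ 0 ∧ nu M d Y w = e := by
  obtain ⟨α, hα, -, hb⟩ := H.nu_transversal (isCompact_singleton (x := Y)) (by simpa using hY)
  set w : ℝ → ℂ := fun s => -(Complex.I * e) + s • e with hw
  have hee : dot e e = 1 := by rw [dot_self, he]; norm_num
  have hcr : ∀ s, cr (w s) e = 1 := fun s => by
    have : cr (Complex.I * e) e = -dot e e := by simp [cr, dot]; ring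
    simp [hw, this, hee]
  have hw0 : ∀ s, w s ≠ 0 := fun s h => by have := hcr s; rw [h] at this; simp at this
  have hdot : ∀ s, dot e (w s) = s := fun s => by
    have : dot e (Complex.I * e) = 0 := by simp [dot]; ring
    simp [hw, this, hee]
  have hbig : ∀ s, α * |s| ≤ 1 + s * cr e (nu M d Y (w s)) := fun s => by
    have a1 := hb Y rfl (w s) (hw0 s)
    have a2 := abs_dot_le e (w s)
    rw [hdot, he, one_mul] at a2
    have a3 := abs_cr_le (Complex.I * e) (nu M d Y (w s))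
    rw [norm_mul, he, nu_norm, Complex.norm_I] at a3
    have a4 : cr (w s) (nu M d Y (w s)) =
        -cr (Complex.I * e) (nu M d Y (w s)) + s * cr e (nu M d Y (w s)) := by
      conv_lhs => arg 1; rw [hw]
      simp
    have a5 := (abs_le.1 a3).1
    nlinarith
  have hcont : Continuous fun s => cr e (nu M d Y (w s)) := by
    rw [continuous_iff_continuousAt]; intro s
    have : Continuous w := by rw [hw]; fun_prop
    exact tendsto_cr tendsto_const_nhds (H.tendsto_nu hY (hw0 s) tendsto_const_nhds (this.tendsto s))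
  have hα2 : 0 < 2 / α := by positivity
  have b1 := hbig (2 / α)
  have b2 := hbig (-(2 / α))
  rw [abs_neg] at b2
  rw [abs_of_pos hα2, mul_div_cancel₀ _ hα.ne'] at b1 b2
  obtain ⟨s, -, hs⟩ := intermediate_value_Icc (show -(2 / α) ≤ 2 / α by linarith) hcont.continuousOn
    (show (0 : ℝ) ∈ Icc _ _ from ⟨by nlinarith, by nlinarith⟩)
  refine ⟨w s, hw0 s, ?_⟩
  obtain ⟨c, hc⟩ := exists_smul_of_cr (by rintro h; rw [h] at he; simp at he) hs
  have c1 := H.nu_cr hY (hw0 s)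
  have c2 := nu_norm M d Y (w s)
  rw [hc, cr_smul_r, hcr, mul_one] at c1
  rw [hc, norm_smul, he, mul_one, Real.norm_eq_abs, abs_of_pos c1] at c2
  rw [hc, c2, one_smul]

end PN

namespace PN
variable {M : Set ℂ} {d : ℂ → ℂ → ℝ} (H : PN M d)
include H

lemma support {S : Set ℂ} (hS : IsCompact S) (hSM : S ⊆ M) : ∃ α : ℝ, 0 < α ∧ ∀ Z ∈ M, ∀ x : ℂ,
    x ≠ 0 → Z + x ∈ S → ∃ w : ℂ, w ≠ 0 ∧ α * ‖w‖ * ‖x‖ ≤ |cr w x| ∧ Foot M d Z (Z + x) w := by
  obtain ⟨α, hα, -, h⟩ := H.nu_transversal hS hSM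
  refine ⟨α, hα, fun Z hZ x hx hW => ?_⟩
  have hn : 0 < ‖x‖ := norm_pos_iff.2 hx
  obtain ⟨w, hw, e⟩ := H.nu_surj (hSM hW) (e := -(‖x‖⁻¹ • x)) (by simp [norm_smul, hn.ne'])
  refine ⟨w, hw, ?_, ?_⟩
  · have := h _ hW w hw
    rw [e, cr_neg_r, cr_smul_r, ← mul_neg, ← div_eq_inv_mul, le_div_iff₀ hn] at this
    exact this.trans (neg_le_abs _)
  · have e2 : Z + x + ‖x‖ • nu M d (Z + x) w = Z := by
      rw [e, smul_neg, smul_smul, mul_inv_cancel₀ hn.ne', one_smul]; abel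
    have := H.nu_perp (hSM hW) hw ‖x‖ hn.le (by rwa [e2])
    rwa [e2] at this

lemma exists_ecc {X : ℂ} {r : ℝ} (hr : 0 < r) (hb : Metric.closedBall X (2 * r) ⊆ M) :
    ∃ Λ : ℝ, Ecc M d X r Λ := by
  obtain ⟨α, hα, hs⟩ := H.support (isCompact_closedBall X (2 * r)) hb
  obtain ⟨n, hn⟩ := exists_nat_ge (8 / α)
  have hn0 : (0 : ℝ) < n := lt_of_lt_of_le (by positivity) hn
  have memb : ∀ Z ∈ Metric.closedBall X r, ∀ x : ℂ, ‖x‖ ≤ r → Z + x ∈ Metric.closedBall X (2 * r) := by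
    intro Z hZ x hx
    rw [mem_closedBall_iff_norm] at hZ ⊢
    have : Z + x - X = (Z - X) + x := by abel
    rw [this]; linarith [norm_add_le (Z - X) x]
  have chord : ∀ Z ∈ Metric.closedBall X r, ∀ p p' : ℂ, ‖p‖ = 1 → ‖p'‖ = 1 → 0 ≤ dot p p' →
      ∀ a : ℝ, 0 < a → 2 ^ n * a ≤ r → d Z (Z + a • p) ≤ d Z (Z + (2 ^ n * a) • p') := by
    intro Z hZ p p' hp hp' hd a ha har
    have hZM : Z ∈ M := by simpa using hb (memb Z hZ 0 (by simpa using hr.le))
    have mem : ∀ (i j : ℕ), i ≤ n → j ≤ n →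
        Z + (2 ^ i * a) • (p + ((j : ℝ) / n) • (p' - p)) ∈ Metric.closedBall X (2 * r) := by
      intro i j hi hj
      apply memb Z hZ
      have a3 := chord_upper hp hp' (t := (j : ℝ) / n) (by positivity)
        ((div_le_one hn0).2 (by exact_mod_cast hj))
      rw [norm_smul, Real.norm_eq_abs, abs_of_pos (by positivity)]
      have : (2 : ℝ) ^ i ≤ 2 ^ n := pow_le_pow_right₀ (by norm_num) hi
      calc _ ≤ 2 ^ i * a * 1 := mul_le_mul_of_nonneg_left a3 (by positivity)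
        _ ≤ r := by nlinarith
    have ind : ∀ i : ℕ, i ≤ n →
        d Z (Z + a • p) ≤ d Z (Z + (2 ^ i * a) • (p + ((i : ℝ) / n) • (p' - p))) := by
      intro i
      induction i with
      | zero => intro _; simp
      | succ i ih =>
        intro hi
        refine (ih (by omega)).trans ?_
        have t0 : (0 : ℝ) ≤ (i : ℝ) / n := by positivity
        have t1 : (i : ℝ) / n ≤ 1 := (div_le_one hn0).2 (by exact_mod_cast (by omega : i ≤ n))
        have hx0 : p + ((i : ℝ) / n) • (p' - p) ≠ 0 := by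
          intro h; have := chord_lower hp hp' hd t0 t1; rw [h] at this; simp at this; linarith
        have hc : (0 : ℝ) < 2 ^ i * a := by positivity
        obtain ⟨w, hw, h1, h2⟩ := hs Z hZM _ (smul_ne_zero hc.ne' hx0) (mem i i (by omega) (by omega))
        rw [norm_smul, cr_smul_r, abs_mul, Real.norm_eq_abs, abs_of_pos hc, mul_left_comm] at h1
        obtain ⟨b1, b2⟩ := chord_k hα hp hp' hd t0 t1 hw (le_of_mul_le_mul_left h1 hc)
        have e : p + (((i + 1 : ℕ) : ℝ) / n) • (p' - p) =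
            (p + ((i : ℝ) / n) • (p' - p)) + ((1 : ℝ) / n) • (p' - p) := by
          push_cast; rw [add_div]; module
        have hm := hb (mem (i + 1) (i + 1) hi hi)
        set x := p + ((i : ℝ) / n) • (p' - p)
        set k := cr w (p' - p) / cr w x with hk
        have e2 : cr w (p' - p) = k * cr w x := by rw [hk, div_mul_cancel₀ _ b1]
        have hkn : |k / n| ≤ 1 / 2 := by
          rw [abs_div, abs_of_pos hn0, div_le_iff₀ hn0]
          have : 8 / α = 2 * (4 / α) := by ring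
          linarith
        obtain ⟨c1, c2⟩ := abs_le.1 hkn
        have c3 : 0 < 1 + k / n := by linarith
        have c4 : (1 + k / n)⁻¹ ≤ 2 := by rw [inv_le_comm₀ c3 (by norm_num)]; linarith
        have c5 : 2 ^ i * a * (1 + k / n)⁻¹ ≤ 2 ^ (i + 1) * a := by rw [pow_succ]; nlinarith
        have c6 : 0 ≤ 2 ^ i * a * (1 + k / n)⁻¹ := by positivity
        refine le_trans (foot_step h2 hw ?_ (H.ray_mem hZM hm c6 c5)) (H.ray_mono hZM hm c6 c5)
        rw [e, cr_smul_r, cr_smul_r, cr_add_r, cr_smul_r, e2]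
        have e4 : cr w x + 1 / n * (k * cr w x) = (1 + k / n) * cr w x := by ring
        rw [e4, mul_assoc, inv_mul_cancel_left₀ c3.ne']
    have := ind n le_rfl
    rwa [div_self hn0.ne', one_smul, add_sub_cancel] at this
  have h2n : (1 : ℝ) ≤ 2 ^ n := one_le_pow₀ (by norm_num)
  refine ⟨2 ^ n * 2 ^ n, hr, by nlinarith, hb, fun Z hZ v v' h1 h2 => ?_⟩
  have hZM : Z ∈ M := by simpa using hb (memb Z hZ 0 (by simpa using hr.le))
  have hm' : Z + v' ∈ M := hb (memb Z hZ v' h2)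
  by_cases hv : v = 0
  · rw [hv, add_zero, H.refl Z hZM]; exact H.nonneg hZM hm'
  have hvn : 0 < ‖v‖ := norm_pos_iff.2 hv
  have hvn' : 0 < ‖v'‖ := lt_of_lt_of_le (by positivity) h1
  have u1 : ‖‖v‖⁻¹ • v‖ = 1 := by simp [norm_smul, hvn.ne']
  have u1' : ‖‖v'‖⁻¹ • v'‖ = 1 := by simp [norm_smul, hvn'.ne']
  obtain ⟨m, hm, d1, d2⟩ := exists_mid (p' := ‖v'‖⁻¹ • v') u1
  have a1 := chord Z hZ _ _ u1 hm d1 ‖v‖ hvn (by nlinarith)
  have a2 := chord Z hZ _ _ hm u1' d2 (2 ^ n * ‖v‖) (by positivity) (by nlinarith)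
  rw [smul_smul, mul_inv_cancel₀ hvn.ne', one_smul] at a1
  have e : Z + v' = Z + ‖v'‖ • (‖v'‖⁻¹ • v') := by rw [smul_smul, mul_inv_cancel₀ hvn'.ne', one_smul]
  have a3 := H.ray_mono hZM (e ▸ hm') (s := 2 ^ n * (2 ^ n * ‖v‖)) (by positivity) (by linarith)
  rw [← e] at a3
  linarith

end PN

namespace PN
variable {M : Set ℂ} {d : ℂ → ℂ → ℝ} (H : PN M d) {X : ℂ} {r Λ : ℝ} (E : Ecc M d X r Λ)
include H E

lemma tendsto_nu_bl (Y : ℂ) {w : ℂ} (hw : w ≠ 0) :
    Tendsto (fun ρ : ℝ => nu M d (X + ρ • Y) w) UU (𝓝 (nu M d X w)) :=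
  H.tendsto_nu E.center_mem hw (UU_tendsto X tendsto_const_nhds) tendsto_const_nhds

lemma ev_foot (Y : ℂ) {w : ℂ} (hw : w ≠ 0) {t : ℝ} (ht : 0 ≤ t) : ∀ᶠ ρ in (UU : Filter ℝ),
    Foot M d (X + ρ • (Y + t • nu M d (X + ρ • Y) w)) (X + ρ • Y) w := by
  filter_upwards [E.ev_mem H.toPM0 (((H.tendsto_nu_bl E Y hw).const_smul t).const_add Y),
    E.ev_mem' H.toPM0 Y, UU_pos] with ρ h1 h2 h3
  have e : X + ρ • (Y + t • nu M d (X + ρ • Y) w) = X + ρ • Y + (ρ * t) • nu M d (X + ρ • Y) w := by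
    module
  rw [e] at h1 ⊢
  exact H.nu_perp h2 hw _ (by positivity) h1

lemma bl_foot (Y : ℂ) {w : ℂ} (hw : w ≠ 0) {t : ℝ} (ht : 0 ≤ t) (s : ℝ) :
    bl d X (Y + t • nu M d X w) Y ≤ bl d X (Y + t • nu M d X w) (Y + s • w) := by
  have T := ((H.tendsto_nu_bl E Y hw).const_smul t).const_add Y
  apply E.bl_le H.toPM0 T tendsto_const_nhds T tendsto_const_nhds
  filter_upwards [H.ev_foot E Y hw ht, E.ev_mem' H.toPM0 (Y + s • w)] with ρ h1 h2
  have e : X + ρ • (Y + s • w) = X + ρ • Y + (ρ * s) • w := by module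
  rw [e] at h2 ⊢
  exact h1 _ h2

lemma bl_norm : ∃ N : ℂ → ℝ, (∀ (c : ℝ) (v : ℂ), 0 ≤ c → N (c • v) = c * N v) ∧
    ∀ a b, bl d X a b = N (b - a) := by
  obtain ⟨α, hα, -, h⟩ := H.nu_transversal (isCompact_singleton (x := X)) (by simpa using E.center_mem)
  have hex : ∀ v : ℂ, ∃ w : ℂ, v ≠ 0 → w ≠ 0 ∧ nu M d X w = -(‖v‖⁻¹ • v) := by
    intro v
    by_cases hv : v = 0
    · exact ⟨0, fun h => absurd hv h⟩
    · obtain ⟨w, h1, h2⟩ := H.nu_surj E.center_mem (e := -(‖v‖⁻¹ • v))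
        (by simp [norm_smul, norm_ne_zero_iff.2 hv])
      exact ⟨w, fun _ => ⟨h1, h2⟩⟩
  choose W hW using hex
  have D : Dir univ (bl d X) α W := by
    refine ⟨hα, fun v hv => (hW v hv).1, fun v hv => ?_, fun Z _ v hv c hc _ s _ => ?_⟩
    · have hn : 0 < ‖v‖ := norm_pos_iff.2 hv
      have := h X rfl (W v) (hW v hv).1
      rw [(hW v hv).2, cr_neg_r, cr_smul_r, ← mul_neg, ← div_eq_inv_mul, le_div_iff₀ hn] at this
      exact this.trans (neg_le_abs _)
    · have hn : 0 < ‖v‖ := norm_pos_iff.2 hv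
      have := H.bl_foot E (Z + c • v) (hW v hv).1 (t := c * ‖v‖) (by positivity) s
      have e : Z + c • v + (c * ‖v‖) • nu M d X (W v) = Z := by
        rw [(hW v hv).2, smul_neg, smul_smul, mul_assoc, mul_inv_cancel₀ hn.ne', mul_one]; abel
      rwa [e] at this
  obtain ⟨N, h1, h2⟩ := D.minkowski (E.bl_pm0 H.toPM0) univ_nonempty
  exact ⟨N, h1, fun a b => h2 a trivial b trivial⟩

end PN

end Pool.Agent.P.MP_ec5bc9_gt.H13
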