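import Pool.Agent.P.MP_ec5bc9_gt.G4

/-! The blow-up norm is Euclidean and depends continuously on the point. -/

set_option autoImplicit false

namespace Pool.Agent.P.MP_ec5bc9_gt.H13

open Set Filter Topology

attribute [-simp] Complex.real_smul

/-- algebra: a norm whose parabolic conic lies on a nonzero conic is Euclidean -/
lemma euclid_of_con {N : ℂ → ℝ} (hN : ∀ (c : ℝ) (v : ℂ), 0 ≤ c → N (c • v) = c * N v)
    (hneg : ∀ v, N (-v) = N v) (hpos : ∀ v, v ≠ 0 → 0 < N v) (htri : ∀ a b, N (a + b) ≤ N a + N b)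
    {B w u : ℂ} {Q : Con} (hc : cr w u ≠ 0) (hBw : dot B w = 0) (hBu : dot B u = N u)
    (h0 : ¬ ((∀ v, Q.A.ev v = 0) ∧ Q.l = 0 ∧ Q.k = 0))
    (h1 : ∀ z, N z < dot B z + 1 → Q.q z ≤ 0)
    (h2 : ∀ z, 0 ≤ dot B z + 1 → dot B z + 1 < N z → 0 ≤ Q.q z) :
    ∃ A : QF, ∀ v, N v ^ 2 = A.ev v := by
  have hN0 : N 0 = 0 := by simpa using hN 0 0 le_rfl
  have hw : w ≠ 0 := by rintro rfl; simp at hc
  have hu : u ≠ 0 := by rintro rfl; simp at hc
  have curve : ∀ z, z ≠ 0 → 0 < N z - dot B z →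
      Q.A.ev z + dot Q.l z * (N z - dot B z) + Q.k * (N z - dot B z) ^ 2 = 0 := by
    intro z hz hn
    set n := N z - dot B z with hnd
    have hc' : Continuous fun t : ℝ => Q.q (t • z) := by
      have := Q.continuous_q
      fun_prop
    have a1 : Q.q (n⁻¹ • z) ≤ 0 := by
      apply le_of_tendsto ((hc'.tendsto n⁻¹).mono_left (nhdsWithin_le_nhds (s := Iio n⁻¹)))
      filter_upwards [self_mem_nhdsWithin, mem_nhdsWithin_of_mem_nhds (lt_mem_nhds (inv_pos.2 hn))]
        with t t1 t2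
      apply h1
      have t3 : t * n < 1 := by
        have := mul_lt_mul_of_pos_right (show t < n⁻¹ from t1) hn
        rwa [inv_mul_cancel₀ hn.ne'] at this
      rw [hN t z (le_of_lt t2), dot_smul_r]; rw [hnd] at t3; linarith
    have a2 : 0 ≤ Q.q (n⁻¹ • z) := by
      apply ge_of_tendsto ((hc'.tendsto n⁻¹).mono_left (nhdsWithin_le_nhds (s := Ioi n⁻¹)))
      have hc2 : Continuous fun t : ℝ => t * dot B z + 1 := by fun_prop
      have e : 0 < n⁻¹ * dot B z + 1 := by
        have : n⁻¹ * dot B z + 1 = n⁻¹ * N z := by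
          have : N z = n + dot B z := by rw [hnd]; ring
          rw [this]; field_simp; ring
        rw [this]; exact mul_pos (inv_pos.2 hn) (hpos z hz)
      filter_upwards [self_mem_nhdsWithin, mem_nhdsWithin_of_mem_nhds
        ((hc2.tendsto n⁻¹).eventually (lt_mem_nhds e))] with t t1 t2
      have t0 : 0 < t := (inv_pos.2 hn).trans t1
      have t3 : 1 < t * n := by
        have := mul_lt_mul_of_pos_right (show n⁻¹ < t from t1) hn
        rwa [inv_mul_cancel₀ hn.ne'] at this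
      apply h2
      · rw [dot_smul_r]; exact le_of_lt t2
      · rw [hN t z t0.le, dot_smul_r]; rw [hnd] at t3; linarith
    have a3 := le_antisymm a1 a2
    simp only [Con.q, dot_smul_r, QF.ev_smul] at a3
    have : Q.A.ev z + dot Q.l z * n + Q.k * n ^ 2 =
        n ^ 2 * (n⁻¹ ^ 2 * Q.A.ev z + n⁻¹ * dot Q.l z + Q.k) := by field_simp
    rw [this, a3, mul_zero]
  have both : ∀ z, z ≠ 0 → |dot B z| < N z → dot Q.l z = 2 * Q.k * dot B z := by
    intro z hz hb
    obtain ⟨b1, b2⟩ := abs_lt.1 hb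
    have c1 := curve z hz (by linarith)
    have c2 := curve (-z) (neg_ne_zero.2 hz) (by rw [hneg, dot_neg_r]; linarith)
    simp only [hneg, dot_neg_r, QF.ev_neg] at c2
    have : N z * (dot Q.l z - 2 * Q.k * dot B z) = 0 := by linear_combination (c1 - c2) / 2
    have := (mul_eq_zero.1 this).resolve_left (hpos z hz).ne'
    linarith
  have hOw : dot Q.l w = 0 := by
    have := both w hw (by rw [hBw]; simpa using hpos w hw)
    rw [this, hBw, mul_zero]
  have hOu : dot Q.l u = 2 * Q.k * N u := by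
    have hNu := hpos u hu
    have hNw := hpos w hw
    set η := N w / (4 * N u) with hη
    have hη0 : 0 < η := by positivity
    have e : η * N u = N w / 4 := by rw [hη]; field_simp
    have hz : w + η • u ≠ 0 := by
      intro h
      have : cr w (w + η • u) = 0 := by rw [h]; simp
      simp [hη0.ne', hc] at this
    have t := htri (w + η • u) (η • (-u))
    have e2 : w + η • u + η • (-u) = w := by module
    rw [e2, hN η _ hη0.le, hneg] at t
    have := both _ hz (by
      rw [dot_add_r, dot_smul_r, hBw, hBu, zero_add, abs_of_pos (by positivity)]; linarith)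
    simp only [dot_add_r, dot_smul_r, hBw, hBu, hOw, zero_add] at this
    apply mul_left_cancel₀ hη0.ne'
    linarith
  have hO : ∀ z, dot Q.l z = 2 * Q.k * dot B z := by
    intro z
    rw [decomp hc z]
    simp only [dot_add_r, dot_smul_r, hOw, hOu, hBw, hBu]; ring
  have half : ∀ z, dot B z ≤ 0 → Q.A.ev z + Q.k * (N z ^ 2 - dot B z ^ 2) = 0 := by
    intro z hz
    by_cases h : z = 0
    · simp [h, hN0]
    have c := curve z h (by linarith [hpos z h])
    rw [hO] at c
    linear_combination c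
  have full : ∀ z, Q.A.ev z + Q.k * (N z ^ 2 - dot B z ^ 2) = 0 := by
    intro z
    rcases le_total (dot B z) 0 with h | h
    · exact half z h
    · simpa [hneg] using half (-z) (by simpa using h)
  have hK : Q.k ≠ 0 := fun hk => h0 ⟨fun v => by simpa [hk] using full v,
    eq_zero_of_dot hc hOw (by rw [hOu, hk]; ring), hk⟩
  refine ⟨⟨B.re ^ 2 - Q.A.a / Q.k, B.re * B.im - Q.A.b / Q.k, B.im ^ 2 - Q.A.c / Q.k⟩, fun v => ?_⟩
  have := full v
  simp only [QF.ev, dot] at this ⊢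
  field_simp
  linear_combination this

/-- the triangular linear map with parameters `f`, `h` -/
def TT (f h : ℝ) (v : ℂ) : ℂ := ⟨v.re + f * v.im, h * v.im⟩

@[simp] lemma TT_add (f h : ℝ) (v v' : ℂ) : TT f h (v + v') = TT f h v + TT f h v' := by
  apply Complex.ext <;> simp [TT] <;> ring
@[simp] lemma TT_sub (f h : ℝ) (v v' : ℂ) : TT f h (v - v') = TT f h v - TT f h v' := by
  apply Complex.ext <;> simp [TT] <;> ring
@[simp] lemma TT_neg (f h : ℝ) (v : ℂ) : TT f h (-v) = -TT f h v := by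
  apply Complex.ext <;> simp [TT]; ring
@[simp] lemma TT_smul (f h : ℝ) (v : ℂ) (t : ℝ) : TT f h (t • v) = t • TT f h v := by
  apply Complex.ext <;> simp [TT, Complex.smul_re, Complex.smul_im] <;> ring
@[simp] lemma TT_zero (f h : ℝ) : TT f h 0 = 0 := by
  apply Complex.ext <;> simp [TT]
@[simp] lemma TT_one (f h : ℝ) : TT f h 1 = 1 := by
  apply Complex.ext <;> simp [TT]
lemma TT_sq (f h : ℝ) (v : ℂ) : ‖TT f h v‖ ^ 2 = (v.re + f * v.im) ^ 2 + (h * v.im) ^ 2 := by
  rw [← dot_self]; simp only [TT, dot]; ring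
lemma cr_TT (f h : ℝ) (a b : ℂ) : cr (TT f h a) (TT f h b) = h * cr a b := by
  simp only [TT, cr]; ring
lemma TT_ne {f h : ℝ} (hh : 0 < h) {v : ℂ} (hv : v ≠ 0) : TT f h v ≠ 0 := by
  intro e
  have h1 : v.re + f * v.im = 0 := congrArg Complex.re e
  have h2 : h * v.im = 0 := congrArg Complex.im e
  have h3 : v.im = 0 := (mul_eq_zero.1 h2).resolve_left hh.ne'
  exact hv (Complex.ext (by simpa [h3] using h1) h3)
lemma TT_eq (f h : ℝ) (v : ℂ) : TT f h v = (v.re + f * v.im) • (1 : ℂ) + (h * v.im) • Complex.I := by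
  apply Complex.ext <;> simp [TT, Complex.smul_re, Complex.smul_im]
lemma tendsto_TT {ι : Type*} {l : Filter ι} {f h : ι → ℝ} {v : ι → ℂ} {f0 h0 : ℝ} {v0 : ℂ}
    (hf : Tendsto f l (𝓝 f0)) (hh : Tendsto h l (𝓝 h0)) (hv : Tendsto v l (𝓝 v0)) :
    Tendsto (fun i => TT (f i) (h i) (v i)) l (𝓝 (TT f0 h0 v0)) := by
  simp only [TT_eq]
  have a := (Complex.continuous_re.tendsto _).comp hv
  have b := (Complex.continuous_im.tendsto _).comp hv
  exact ((a.add (hf.mul b)).smul_const _).add ((hh.mul b).smul_const _)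

noncomputable def fX (d : ℂ → ℂ → ℝ) (X : ℂ) : ℝ :=
  (bl d X 0 (1 + Complex.I) ^ 2 - 1 - bl d X 0 Complex.I ^ 2) / 2
noncomputable def hX (d : ℂ → ℂ → ℝ) (X : ℂ) : ℝ := √(bl d X 0 Complex.I ^ 2 - fX d X ^ 2)

namespace PG
variable {M D : Set ℂ} {d : ℂ → ℂ → ℝ} (H : PG M d) (L : Loc M d D) {X : ℂ} {r Λ : ℝ}
  (E : Ecc D d X r Λ)
include H L E

lemma bl_euclid : 0 < hX d X ∧ ∀ a b, bl d X a b = ‖TT (fX d X) (hX d X) (b - a)‖ := by
  have G := H.pn L
  obtain ⟨N, hN, hb⟩ := G.bl_norm E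
  have D' := E.bl_pm0 G.toPM0
  have hX' := E.center_mem
  have hXM := L.sub hX'
  have hneg : ∀ v, N (-v) = N v := fun v => by
    have := D'.symm 0 trivial v trivial
    rw [hb, hb] at this; simpa using this.symm
  have hpos : ∀ v, v ≠ 0 → 0 < N v := fun v hv => by
    have := D'.pos 0 trivial v trivial hv.symm
    rwa [hb, sub_zero] at this
  have htri : ∀ a b, N (a + b) ≤ N a + N b := fun a b => by
    have := D'.tri 0 trivial a trivial (a + b) trivial
    simpa [hb] using this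
  have hnn : ∀ z, 0 ≤ N z := fun z => by
    by_cases h : z = 0
    · rw [h]; simpa using (hN 0 0 le_rfl).ge
    · exact (hpos z h).le
  set ν := nu D d X 1 with hν
  have hc : 0 < cr 1 ν := G.nu_cr hX' one_ne_zero
  have hν0 : ν ≠ 0 := by rintro h; rw [h] at hc; simp at hc
  have hn0 := hpos ν hν0
  set B : ℂ := (N ν / cr 1 ν) • Complex.I with hB
  have hBz : ∀ z, dot B z = N ν / cr 1 ν * cr 1 z := fun z => by
    rw [hB, dot_smul_l]; simp [dot, cr]
  set u := (N ν)⁻¹ • ν with hu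
  have hcu : 0 < cr 1 u := by rw [hu, cr_smul_r]; positivity
  obtain ⟨C, hC⟩ := H.choose_con hXM hcu
  obtain ⟨Q, h0, hQ⟩ := con_limit UU C X (fun ρ => ρ) (hC.mono fun ε h => h.2.2.2.ne)
  have foot : ∀ z, ∃ s : ℝ, z - ((dot B z + 1) / N ν) • ν = -u + s • (1 : ℂ) := by
    intro z
    obtain ⟨s, hs⟩ := exists_smul_of_cr (w := 1) (v := z - ((dot B z + 1) / N ν) • ν + u) one_ne_zero (by
      rw [hu, hBz]; simp only [cr_add_r, cr_sub_r, cr_smul_r]; field_simp; ring)
    exact ⟨s, by rw [← hs]; abel⟩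
  obtain ⟨A, hA⟩ := euclid_of_con hN hneg hpos htri (B := B) (w := 1) (u := ν) hc.ne'
    (by rw [hBz]; simp) (by rw [hBz]; field_simp) h0 (by
      intro z hz
      obtain ⟨s, hs⟩ := foot z
      set t := (dot B z + 1) / N ν with ht
      have ht0 : 0 ≤ t := div_nonneg (by linarith [hnn z]) hn0.le
      set Y := z - t • ν with hY
      have T := ((G.tendsto_nu_bl E Y one_ne_zero).const_smul t).const_add Y
      have ez : Y + t • nu D d X 1 = z := by rw [hY, ← hν]; abel
      rw [ez] at T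
      apply (hQ z _ T).1
      have hlt : bl d X z 0 < bl d X z Y := by
        rw [hb, hb, zero_sub, hneg, hY, sub_sub_cancel_left, hneg, hN t ν ht0, ht,
          div_mul_cancel₀ _ hn0.ne']
        exact hz
      filter_upwards [hC, G.ev_foot E Y one_ne_zero ht0, E.ev_mem G.toPM0 T, E.ev_mem' G.toPM0 Y,
        E.lt_of_bl G.toPM0 T tendsto_const_nhds T tendsto_const_nhds hlt]
        with ρ ⟨a1, a2, a3, a4⟩ b1 b2 b4 b3
      rw [← a3.le _ (L.sub b2), ff, sub_nonpos]
      rw [smul_zero, add_zero] at b3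
      refine b3.le.trans (PM0.le_dl a1 fun s' hs' => ?_)
      have e : X + (-ρ) • u + s' • (1 : ℂ) = X + ρ • Y + (s' - ρ * s) • (1 : ℂ) := by
        rw [hs]; module
      rw [e] at hs' ⊢
      exact L.foot_M b2 b4 one_ne_zero b1 _ hs') (by
      intro z hz0 hz
      obtain ⟨s, hs⟩ := foot z
      set t := (dot B z + 1) / N ν with ht
      have ht0 : 0 ≤ t := div_nonneg hz0 hn0.le
      set Y := z - t • ν with hY
      apply (hQ z (fun _ => z) tendsto_const_nhds).2
      have hlt : bl d X z Y < bl d X z 0 := by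
        rw [hb, hb, zero_sub, hneg, hY, sub_sub_cancel_left, hneg, hN t ν ht0, ht,
          div_mul_cancel₀ _ hn0.ne']
        exact hz
      filter_upwards [hC, E.ev_mem' G.toPM0 z, E.ev_mem' G.toPM0 Y,
        E.lt_of_bl G.toPM0 tendsto_const_nhds tendsto_const_nhds tendsto_const_nhds
          tendsto_const_nhds hlt] with ρ ⟨a1, a2, a3, a4⟩ b1 b2 b3
      rw [← a3.ge _ (L.sub b1)]
      rw [smul_zero, add_zero] at b3
      have e : X + ρ • Y = X + (-ρ) • u + (ρ * s) • (1 : ℂ) := by rw [hs]; module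
      rw [e] at b2 b3
      exact (H.ff_pos_of_lt (L.sub b1) (L.sub b2) b3).le)
  have n1 : N 1 = 1 := by
    have := E.tendsto_sc G.toPM0 0 1
    rw [hb, sub_zero] at this
    refine tendsto_nhds_unique this (tendsto_const_nhds.congr' ?_)
    filter_upwards [E.m_pos G.toPM0] with ρ h
    rw [sc, smul_zero, add_zero, div_self h.ne']
  have ea : A.a = 1 := by simpa [QF.ev, n1] using (hA 1).symm
  have ec : bl d X 0 Complex.I ^ 2 = A.c := by simpa [QF.ev, hb] using hA Complex.I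
  have ef : fX d X = A.b := by
    have := hA (1 + Complex.I)
    simp only [QF.ev, Complex.add_re, Complex.add_im, Complex.one_re, Complex.one_im, Complex.I_re,
      Complex.I_im, ea] at this
    rw [fX, ec, hb, sub_zero, this]; ring
  have hp : 0 < A.c - A.b ^ 2 := by
    have h1 := hA ⟨-A.b, 1⟩
    have h2 := pow_pos (hpos ⟨-A.b, 1⟩ fun e => by simpa using congrArg Complex.im e) 2
    simp only [QF.ev, ea] at h1
    linarith
  have eh : hX d X ^ 2 = A.c - A.b ^ 2 := by rw [hX, ec, ef, Real.sq_sqrt hp.le]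
  refine ⟨by rw [hX, ec, ef]; exact Real.sqrt_pos.2 hp, fun a b => ?_⟩
  rw [hb, ← sq_eq_sq₀ (hnn _) (norm_nonneg _), hA, TT_sq, mul_pow, eh, ef, QF.ev, ea]
  ring

lemma bl_perp {w : ℂ} (hw : w ≠ 0) :
    dot (TT (fX d X) (hX d X) w) (TT (fX d X) (hX d X) (nu D d X w)) = 0 := by
  obtain ⟨hh, hb⟩ := H.bl_euclid L E
  have h := (H.pn L).bl_foot E 0 hw zero_le_one
  simp only [hb, one_smul, zero_add, zero_sub, TT_neg, norm_neg, TT_sub, TT_smul] at h
  have ha : 0 < ‖TT (fX d X) (hX d X) w‖ := norm_pos_iff.2 (TT_ne hh hw)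
  generalize TT (fX d X) (hX d X) w = a at *
  generalize TT (fX d X) (hX d X) (nu D d X w) = b at *
  have h2 := pow_le_pow_left₀ (norm_nonneg _) (h (dot a b / ‖a‖ ^ 2)) 2
  rw [sub_eq_add_neg, norm_sq_add, norm_neg, norm_smul, mul_pow, Real.norm_eq_abs, sq_abs, dot_neg_r,
    dot_smul_l] at h2
  have e : (dot a b / ‖a‖ ^ 2) ^ 2 * ‖a‖ ^ 2 + 2 * -(dot a b / ‖a‖ ^ 2 * dot a b) =
      -((dot a b) ^ 2 / ‖a‖ ^ 2) := by field_simp; ring
  have h3 : (dot a b) ^ 2 / ‖a‖ ^ 2 ≤ 0 := by linarith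
  rw [div_nonpos_iff] at h3
  rcases h3 with ⟨-, h4⟩ | ⟨h4, -⟩
  · exact absurd h4 (not_le.2 (by positivity))
  · exact pow_eq_zero_iff two_ne_zero |>.1 (le_antisymm h4 (sq_nonneg _))

end PG

/-- The blow-up of `d` at every point is Euclidean, with continuous coefficients. -/
structure St1 (M : Set ℂ) (d : ℂ → ℂ → ℝ) (f h : ℂ → ℝ) : Prop where
  pos : ∀ X ∈ M, 0 < h X
  lim : ∀ X ∈ M, ∀ a b, Tendsto (fun ρ => sc d X ρ a b) UU (𝓝 ‖TT (f X) (h X) (b - a)‖)
  cf : ∀ X ∈ M, ContinuousAt f X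
  ch : ∀ X ∈ M, ContinuousAt h X

theorem PG.st1 {M : Set ℂ} {d : ℂ → ℂ → ℝ} (H : PG M d) : St1 M d (fX d) (hX d) := by
  have ecc : ∀ {D : Set ℂ}, Loc M d D → ∀ X ∈ D, ∃ r Λ, Ecc D d X r Λ := by
    intro D L X hX
    obtain ⟨R, hR, hb⟩ := Metric.nhds_basis_closedBall.mem_iff.1 (L.pm.isOpen.mem_nhds hX)
    obtain ⟨Λ, E⟩ := (H.pn L).exists_ecc (X := X) (r := R / 2) (by linarith)
      (by rwa [show 2 * (R / 2) = R by ring])
    exact ⟨_, _, E⟩
  have cf : ∀ X ∈ M, ContinuousAt (fX d) X := by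
    intro O hO
    obtain ⟨D, hD, L⟩ := H.exists_loc hO
    have G := H.pn L
    have T := G.tendsto_nu (l := 𝓝 O) hD one_ne_zero tendsto_id tendsto_const_nhds
    have key : ∀ X ∈ D, fX d X = -(nu D d X 1).re / (nu D d X 1).im ∧ (nu D d X 1).im ≠ 0 := by
      intro X hX
      obtain ⟨r, Λ, E⟩ := ecc L X hX
      have h1 := H.bl_perp L E one_ne_zero
      have h2 := G.nu_cr hX one_ne_zero
      simp [cr] at h2
      simp [TT, dot] at h1
      exact ⟨by field_simp; linarith, h2.ne'⟩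
    have T2 := ((Complex.continuous_re.tendsto _).comp T).neg.div
      ((Complex.continuous_im.tendsto _).comp T) (key O hD).2
    rw [ContinuousAt, (key O hD).1]
    refine T2.congr' ?_
    filter_upwards [L.pm.isOpen.mem_nhds hD] with X hX
    exact (key X hX).1.symm
  refine ⟨fun X hX => ?_, fun X hX a b => ?_, cf, fun O hO => ?_⟩
  · obtain ⟨D, hD, L⟩ := H.exists_loc hX
    obtain ⟨r, Λ, E⟩ := ecc L X hD
    exact (H.bl_euclid L E).1
  · obtain ⟨D, hD, L⟩ := H.exists_loc hX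
    obtain ⟨r, Λ, E⟩ := ecc L X hD
    rw [← (H.bl_euclid L E).2]
    exact E.tendsto_sc L.pm a b
  · obtain ⟨D, hD, L⟩ := H.exists_loc hO
    have G := H.pn L
    obtain ⟨t, ht⟩ : ∃ t, t = 1 - fX d O := ⟨_, rfl⟩
    have hw : (⟨t, 1⟩ : ℂ) ≠ 0 := fun e => by simpa using congrArg Complex.im e
    have T := G.tendsto_nu (l := 𝓝 O) hD hw tendsto_id tendsto_const_nhds
    have T1 := (Complex.continuous_re.tendsto _).comp T
    have T2 := (Complex.continuous_im.tendsto _).comp T
    have key : ∀ X ∈ D, 0 < hX d X ∧ (t + fX d X) * ((nu D d X ⟨t, 1⟩).re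
        + fX d X * (nu D d X ⟨t, 1⟩).im) + hX d X ^ 2 * (nu D d X ⟨t, 1⟩).im = 0 := by
      intro X hX
      obtain ⟨r, Λ, E⟩ := ecc L X hX
      have h1 := H.bl_perp L E hw
      simp only [TT, dot] at h1
      exact ⟨(H.bl_euclid L E).1, by linear_combination h1⟩
    have h0 : (nu D d O ⟨t, 1⟩).im ≠ 0 := by
      intro e
      have h1 := (key O hD).2
      have h2 := nu_norm D d O ⟨t, 1⟩
      rw [e, show t + fX d O = 1 by rw [ht]; ring] at h1
      have : nu D d O ⟨t, 1⟩ = 0 := Complex.ext (by simpa using h1) e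
      rw [this] at h2; simp at h2
    have form : ∀ X ∈ D, (nu D d X ⟨t, 1⟩).im ≠ 0 → hX d X = √(-((t + fX d X) *
        ((nu D d X ⟨t, 1⟩).re + fX d X * (nu D d X ⟨t, 1⟩).im)) / (nu D d X ⟨t, 1⟩).im) := by
      intro X hX hne
      obtain ⟨a1, a2⟩ := key X hX
      rw [← Real.sqrt_sq a1.le]
      congr 1
      field_simp
      linarith
    have T3 := ((((cf O hO).tendsto.const_add t).mul (T1.add ((cf O hO).tendsto.mul T2))).neg.div
      T2 h0).sqrt
    rw [ContinuousAt, form O hD h0]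
    refine T3.congr' ?_
    filter_upwards [L.pm.isOpen.mem_nhds hD, T2.eventually_ne h0] with X hX hne
    exact (form X hX hne).symm

end Pool.Agent.P.MP_ec5bc9_gt.H13
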