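import Pool.Agent.P.MP_ec5bc9_gt.G5

/-! First variation, second differences, and the Riemannian structure. -/

set_option autoImplicit false

namespace Pool.Agent.P.MP_ec5bc9_gt.H13

open Set Filter Topology

attribute [-simp] Complex.real_smul

/-- Mean value inequality with right increments along the ultrafilter. -/
lemma mv_neg {ψ : ℝ → ℝ} {a b : ℝ} (hab : a ≤ b) (hc : ContinuousOn ψ (Icc a b))
    (h : ∀ s ∈ Ico a b, ∀ᶠ ρ in (UU : Filter ℝ), ψ (s + ρ) ≤ ψ s) : ψ b ≤ ψ a := by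
  have cl : IsClosed ({x | ψ x ≤ ψ a} ∩ Icc a b) := by
    rw [inter_comm]
    exact isClosed_Icc.isClosed_le hc continuousOn_const
  refine cl.Icc_subset_of_forall_exists_gt (show ψ a ≤ ψ a from le_rfl) ?_ ⟨hab, le_rfl⟩
  rintro x ⟨hx, hx'⟩ y hy
  have hy' : 0 < y - x := sub_pos.2 hy
  obtain ⟨ρ, h1, h2⟩ := ((h x hx').and (UU_le (Ioo_mem_nhdsGT hy'))).exists
  exact ⟨x + ρ, le_trans h1 hx, by linarith [h2.1], by linarith [h2.2]⟩

lemma cos_diff {W U : ℂ} {b : ℝ} (h0 : U ≠ 0) (h1 : U + b • W ≠ 0) (hW : W ≠ 0)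
    (hp : 0 < ‖U‖ * ‖U + b • W‖ + dot U (U + b • W)) :
    -dot W U / ‖U‖ - -dot W (U + b • W) / ‖U + b • W‖ = b * ‖W‖ * (cr W U ^ 2 * (‖U‖ + ‖U + b • W‖)
      / (‖U‖ * ‖U + b • W‖ * (‖U‖ * ‖U + b • W‖ + dot U (U + b • W)) * ‖W‖)) := by
  have n0 : 0 < ‖U‖ := norm_pos_iff.2 h0
  have n1 : 0 < ‖U + b • W‖ := norm_pos_iff.2 h1
  have nW : 0 < ‖W‖ := norm_pos_iff.2 hW
  have e1 := norm_sq_add U (b • W)
  have e2 := cr_sq_add_dot_sq W U
  rw [norm_smul, mul_pow, Real.norm_eq_abs, sq_abs, dot_smul_r, dot_comm U W] at e1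
  have e3 : dot W (U + b • W) = dot W U + b * ‖W‖ ^ 2 := by rw [dot_add_r, dot_smul_r, dot_self]
  have e4 : dot U (U + b • W) = ‖U‖ ^ 2 + b * dot W U := by
    rw [dot_add_r, dot_smul_r, dot_self, dot_comm U W]
  rw [e4] at hp ⊢
  rw [e3]
  generalize ‖U + b • W‖ = m at *
  generalize ‖U‖ = n at *
  generalize ‖W‖ = k at *
  generalize dot W U = a at *
  generalize cr W U = c at *
  have key : (-a * m + (a + b * k ^ 2) * n) * (n * m + (n ^ 2 + b * a)) = b * c ^ 2 * (n + m) := by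
    linear_combination (-a * n) * e1 - b * (n + m) * e2
  generalize n * m + (n ^ 2 + b * a) = P at *
  field_simp
  linear_combination key

noncomputable def c0 (f h : ℝ) (w u : ℂ) : ℝ := (h * cr w u) ^ 2 / (‖TT f h w‖ * ‖TT f h u‖ ^ 3)

lemma c0_pos {f h : ℝ} (hh : 0 < h) {w u : ℂ} (hc : cr w u ≠ 0) : 0 < c0 f h w u := by
  have hw : w ≠ 0 := by rintro rfl; simp at hc
  have hu : u ≠ 0 := by rintro rfl; simp at hc
  have := norm_pos_iff.2 (TT_ne (f := f) hh hw)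
  have := norm_pos_iff.2 (TT_ne (f := f) hh hu)
  unfold c0; positivity

lemma PM0.ev_mem {M : Set ℂ} {d : ℂ → ℂ → ℝ} (H : PM0 M d) {X : ℂ} (hX : X ∈ M) (a : ℂ) :
    ∀ᶠ ρ in (UU : Filter ℝ), X + ρ • a ∈ M :=
  H.eventually_mem hX (UU_tendsto X tendsto_const_nhds)

lemma PM0.m_pos {M : Set ℂ} {d : ℂ → ℂ → ℝ} (H : PM0 M d) {X : ℂ} (hX : X ∈ M) :
    ∀ᶠ ρ in (UU : Filter ℝ), 0 < d X (X + ρ • (1 : ℂ)) := by
  filter_upwards [H.ev_mem hX 1, UU_pos] with ρ h1 h2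
  have := H.ray_strict hX h1 le_rfl h2 one_ne_zero
  simpa [H.refl X hX] using this

namespace St1
variable {M : Set ℂ} {d : ℂ → ℂ → ℝ} {f h : ℂ → ℝ} (S : St1 M d f h) (H : PM0 M d)
include S H

lemma first_var {X Z : ℂ} (hX : X ∈ M) (hZ : Z ∈ M) (hne : Z - X ≠ 0) (w : ℂ) :
    Tendsto (fun ρ : ℝ => (d (X + ρ • w) Z - d X Z) / d X (X + ρ • (1 : ℂ))) UU
      (𝓝 (-dot (TT (f X) (h X) w) (TT (f X) (h X) (Z - X)) / ‖TT (f X) (h X) (Z - X)‖)) := by
  have hn : 0 < ‖TT (f X) (h X) (Z - X)‖ := norm_pos_iff.2 (TT_ne (S.pos X hX) hne)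
  obtain ⟨n, hnd⟩ : ∃ n, n = ‖TT (f X) (h X) (Z - X)‖ := ⟨_, rfl⟩
  obtain ⟨u, hu⟩ : ∃ u, u = n⁻¹ • (Z - X) := ⟨_, rfl⟩
  rw [← hnd] at hn
  have hu1 : ‖TT (f X) (h X) u‖ = 1 := by
    rw [hu, TT_smul, norm_smul, Real.norm_eq_abs, abs_of_pos (inv_pos.2 hn), ← hnd]
    exact inv_mul_cancel₀ hn.ne'
  have eZ : Z = X + n • u := by rw [hu, smul_smul, mul_inv_cancel₀ hn.ne', one_smul]; abel
  have eL : -dot (TT (f X) (h X) w) (TT (f X) (h X) (Z - X)) / ‖TT (f X) (h X) (Z - X)‖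
      = -dot (TT (f X) (h X) u) (TT (f X) (h X) w) := by
    rw [hu, TT_smul, dot_smul_l, ← hnd, dot_comm]; ring
  rw [eL, tendsto_order]
  constructor
  · intro b hb
    obtain ⟨R, R1, R3⟩ := ((big_R (z := TT (f X) (h X) w) hu1 (half_pos (sub_pos.2 hb))).and
      (eventually_gt_atTop 0)).exists
    have T := (S.lim X hX (-(R • u)) 0).sub (S.lim X hX (-(R • u)) w)
    simp only [sub_neg_eq_add, zero_add, TT_add, TT_smul, norm_smul, hu1, Real.norm_eq_abs,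
      abs_of_pos R3, mul_one] at T
    rw [add_comm (TT (f X) (h X) w)] at T
    filter_upwards [T.eventually (lt_mem_nhds (show b < _ by linarith)), H.m_pos hX, H.ev_mem hX w,
      H.ev_mem hX (-(R • u)), UU_pos] with ρ c1 c2 c3 c4 c5
    refine c1.trans_le ?_
    simp only [sc, smul_zero, add_zero]
    rw [← sub_div]
    refine div_le_div_of_nonneg_right ?_ c2.le
    have e : X + ρ • (-(R • u)) = X + (-(ρ * R)) • u := by module
    have a1 := H.line_add (x := X) (v := u) (r := -(ρ * R)) (s := 0) (t := n) (e ▸ c4) (eZ ▸ hZ)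
      (by nlinarith) hn.le
    rw [← e, ← eZ, zero_smul, add_zero] at a1
    linarith [H.tri _ c4 _ c3 _ hZ]
  · intro b hb
    obtain ⟨R, R1, R3⟩ := ((big_R (z := -TT (f X) (h X) w) hu1 (half_pos (sub_pos.2 hb))).and
      (eventually_gt_atTop 0)).exists
    have T := (S.lim X hX w (R • u)).sub (S.lim X hX 0 (R • u))
    simp only [sub_zero, TT_sub, TT_smul, norm_smul, hu1, Real.norm_eq_abs,
      abs_of_pos R3, mul_one] at T
    rw [sub_eq_add_neg (R • TT (f X) (h X) u)] at T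
    rw [dot_neg_r] at R1
    filter_upwards [T.eventually (gt_mem_nhds (show _ < b by linarith)), H.m_pos hX, H.ev_mem hX w,
      (Ecc.ev_small R hn).filter_mono UU_le] with ρ c1 c2 c3 ⟨c5, c6⟩
    refine lt_of_le_of_lt ?_ c1
    simp only [sc, smul_zero, add_zero]
    rw [← sub_div, smul_smul]
    refine div_le_div_of_nonneg_right ?_ c2.le
    have f1 := H.ray_add hX (v := u) (eZ ▸ hZ) (s := ρ * R) (by positivity) c6
    rw [← eZ] at f1
    have m1 := H.ray_mem hX (v := u) (eZ ▸ hZ) (s := ρ * R) (by positivity) c6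
    linarith [H.tri _ c3 _ m1 _ hZ]

/-- Second differences of the distance. -/
lemma second {X Z w : ℂ} (hX : X ∈ M) (hZ : Z ∈ M) (hc : cr w (Z - X) ≠ 0) {ε : ℝ} (hε : 0 < ε) :
    ∃ η : ℝ, 0 < η ∧ ∀ a b : ℝ, 0 < a → a < η → 0 < b → b < η → X + a • w ∈ M ∧ Z + b • w ∈ M ∧
      (c0 (f X) (h X) w (Z - X) - ε) * b * d X (X + a • w)
        ≤ d (X + a • w) Z - d (X + a • w) (Z + b • w) - (d X Z - d X (Z + b • w)) ∧
      d (X + a • w) Z - d (X + a • w) (Z + b • w) - (d X Z - d X (Z + b • w))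
        ≤ (c0 (f X) (h X) w (Z - X) + ε) * b * d X (X + a • w) := by
  have hw : w ≠ 0 := by rintro rfl; simp at hc
  have hu : Z - X ≠ 0 := by rintro e; rw [e] at hc; simp at hc
  obtain ⟨Y, hY⟩ : ∃ Y : ℝ × ℝ → ℂ, Y = fun p => X + p.1 • w := ⟨_, rfl⟩
  obtain ⟨W, hW⟩ : ∃ W : ℝ × ℝ → ℂ, W = fun p => TT (f (Y p)) (h (Y p)) w := ⟨_, rfl⟩
  obtain ⟨U, hU⟩ : ∃ U : ℝ × ℝ → ℂ, U = fun p => TT (f (Y p)) (h (Y p)) (Z - Y p) := ⟨_, rfl⟩
  obtain ⟨G, hG⟩ : ∃ G : ℝ × ℝ → ℝ, G = fun p => cr (W p) (U p) ^ 2 * (‖U p‖ + ‖U p + p.2 • W p‖)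
      / (‖U p‖ * ‖U p + p.2 • W p‖ * (‖U p‖ * ‖U p + p.2 • W p‖ + dot (U p) (U p + p.2 • W p))
        * ‖W p‖) := ⟨_, rfl⟩
  have TY : Tendsto Y (𝓝 0) (𝓝 X) := by
    have : Continuous Y := by rw [hY]; fun_prop
    simpa [hY] using this.tendsto 0
  have TZ : Tendsto (fun p : ℝ × ℝ => Z + p.2 • w) (𝓝 0) (𝓝 Z) := by
    have : Continuous fun p : ℝ × ℝ => Z + p.2 • w := by fun_prop
    simpa using this.tendsto 0
  have Tf := (S.cf X hX).tendsto.comp TY
  have Th := (S.ch X hX).tendsto.comp TY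
  have TW : Tendsto W (𝓝 0) (𝓝 (TT (f X) (h X) w)) := by
    rw [hW]; exact tendsto_TT Tf Th tendsto_const_nhds
  have TU : Tendsto U (𝓝 0) (𝓝 (TT (f X) (h X) (Z - X))) := by
    rw [hU]; exact tendsto_TT Tf Th (TY.const_sub Z)
  have TV : Tendsto (fun p : ℝ × ℝ => U p + p.2 • W p) (𝓝 0) (𝓝 (TT (f X) (h X) (Z - X))) := by
    simpa using TU.add ((continuous_snd.tendsto (0 : ℝ × ℝ)).smul TW)
  have nU : 0 < ‖TT (f X) (h X) (Z - X)‖ := norm_pos_iff.2 (TT_ne (S.pos X hX) hu)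
  have nW : 0 < ‖TT (f X) (h X) w‖ := norm_pos_iff.2 (TT_ne (S.pos X hX) hw)
  have TP := (TU.norm.mul TV.norm).add (tendsto_dot TU TV)
  rw [dot_self] at TP
  have TG : Tendsto G (𝓝 0) (𝓝 (c0 (f X) (h X) w (Z - X))) := by
    have := (((tendsto_cr TW TU).pow 2).mul (TU.norm.add TV.norm)).div
      (((TU.norm.mul TV.norm).mul TP).mul TW.norm) (by positivity)
    rw [hG]
    have e : c0 (f X) (h X) w (Z - X) = cr (TT (f X) (h X) w) (TT (f X) (h X) (Z - X)) ^ 2 *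
        (‖TT (f X) (h X) (Z - X)‖ + ‖TT (f X) (h X) (Z - X)‖) / (‖TT (f X) (h X) (Z - X)‖ *
        ‖TT (f X) (h X) (Z - X)‖ * (‖TT (f X) (h X) (Z - X)‖ * ‖TT (f X) (h X) (Z - X)‖ +
        ‖TT (f X) (h X) (Z - X)‖ ^ 2) * ‖TT (f X) (h X) w‖) := by
      rw [c0, cr_TT]; field_simp
    rw [e]; exact this
  obtain ⟨η, hη, hev⟩ := Metric.eventually_nhds_iff.1 ((H.eventually_mem hX TY).and
    ((H.eventually_mem hZ TZ).and ((TP.eventually (lt_mem_nhds (by positivity))).and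
      (Metric.tendsto_nhds.1 TG ε hε))))
  refine ⟨η, hη, fun a b a0 a1 b0 b1 => ?_⟩
  have hs : ∀ s ∈ Icc 0 a, dist ((s, b) : ℝ × ℝ) 0 < η := by
    intro s hs
    rw [dist_zero_right, Prod.norm_def, max_lt_iff, Real.norm_eq_abs, Real.norm_eq_abs,
      abs_of_nonneg hs.1, abs_of_pos b0]
    exact ⟨hs.2.trans_lt a1, b1⟩
  have mY : ∀ s ∈ Icc 0 a, X + s • w ∈ M := fun s h' => by simpa [hY] using (hev (hs s h')).1
  have mZ : Z + b • w ∈ M := (hev (hs 0 ⟨le_rfl, a0.le⟩)).2.1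
  have key : ∀ σ K : ℝ, (∀ s ∈ Icc 0 a, σ * (G (s, b) - K) < 0) →
      σ * (d (X + a • w) Z - d (X + a • w) (Z + b • w) - (d X Z - d X (Z + b • w))
        - K * b * d X (X + a • w)) ≤ 0 := by
    intro σ K hK
    have cw : ContinuousOn (fun s : ℝ => X + s • w) (Icc 0 a) := by fun_prop
    have := mv_neg (ψ := fun s => σ * (d (X + s • w) Z - d (X + s • w) (Z + b • w)
      - K * b * d X (X + s • w))) a0.le
      (continuousOn_const.mul (((H.continuousOn cw continuousOn_const mY fun _ _ => hZ).sub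
        (H.continuousOn cw continuousOn_const mY fun _ _ => mZ)).sub (continuousOn_const.mul
        (H.continuousOn continuousOn_const cw (fun _ _ => hX) mY)))) (by
      intro s hs'
      have hsI : s ∈ Icc 0 a := ⟨hs'.1, hs'.2.le⟩
      have m := mY s hsI
      have n0 : Z - (X + s • w) ≠ 0 := fun e => hc (by
        rw [show Z - X = Z - (X + s • w) + s • w by abel, e]; simp)
      have n1 : Z + b • w - (X + s • w) ≠ 0 := fun e => hc (by
        rw [show Z - X = Z + b • w - (X + s • w) + (s - b) • w by module, e]; simp)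
      have T := (((S.first_var H m hZ n0 w).sub (S.first_var H m mZ n1 w)).sub
        ((S.lim _ m 0 w).const_mul (K * b))).const_mul σ
      have eW : TT (f (X + s • w)) (h (X + s • w)) w = W (s, b) := by rw [hW, hY]
      have eU : TT (f (X + s • w)) (h (X + s • w)) (Z - (X + s • w)) = U (s, b) := by rw [hU, hY]
      have eV : TT (f (X + s • w)) (h (X + s • w)) (Z + b • w - (X + s • w))
          = U (s, b) + b • W (s, b) := by
        rw [show Z + b • w - (X + s • w) = Z - (X + s • w) + b • w by abel, TT_add, TT_smul, eU, eW]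
      have p := S.pos _ m
      have w0 : W (s, b) ≠ 0 := eW ▸ TT_ne p hw
      rw [sub_zero, eV, eU, eW, cos_diff (eU ▸ TT_ne p n0) (eV ▸ TT_ne p n1) w0
        (hev (hs s hsI)).2.2.1] at T
      have neg : σ * (b * ‖W (s, b)‖ * G (s, b) - K * b * ‖W (s, b)‖) < 0 := by
        have := mul_neg_of_pos_of_neg (mul_pos b0 (norm_pos_iff.2 w0)) (hK s hsI)
        linarith
      rw [hG] at neg
      filter_upwards [T.eventually (gt_mem_nhds neg), H.m_pos m, H.ev_mem m w, UU_pos]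
        with ρ c1 c2 c3 c4
      simp only [sc, smul_zero, add_zero] at c1
      rw [← sub_div, ← mul_div_assoc, ← sub_div, ← mul_div_assoc, div_neg_iff] at c1
      have c7 := (c1.resolve_left fun h => absurd h.2 (not_lt.2 c2.le)).1
      have e : X + (s + ρ) • w = X + s • w + ρ • w := by module
      have a2 := H.ray_add hX (e ▸ c3) hs'.1 (show s ≤ s + ρ by linarith)
      rw [a2, e]
      linarith)
    simp only [zero_smul, add_zero, H.refl X hX] at this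
    linarith
  refine ⟨mY a ⟨a0.le, le_rfl⟩, mZ, ?_, ?_⟩
  · have := key (-1) (c0 (f X) (h X) w (Z - X) - ε) fun s h' => by
      have := (hev (hs s h')).2.2.2
      rw [Real.dist_eq, abs_lt] at this
      linarith [this.1]
    linarith
  · have := key 1 (c0 (f X) (h X) w (Z - X) + ε) fun s h' => by
      have := (hev (hs s h')).2.2.2
      rw [Real.dist_eq, abs_lt] at this
      linarith [this.2]
    linarith

/-- The second difference computed from both ends. -/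
lemma both_ends {X Z w : ℂ} (hX : X ∈ M) (hZ : Z ∈ M) (hc : cr w (Z - X) ≠ 0) {ε ε' : ℝ}
    (hε : 0 < ε) (hε' : 0 < ε') : ∃ η : ℝ, 0 < η ∧ ∀ a b : ℝ, 0 < a → a < η → 0 < b → b < η →
      Z + b • w ∈ M ∧
      (c0 (f X) (h X) w (Z - X) - ε) * b * d X (X + a • w)
        ≤ (c0 (f Z) (h Z) w (X - Z) + ε') * a * d Z (Z + b • w) ∧
      (c0 (f Z) (h Z) w (X - Z) - ε') * a * d Z (Z + b • w)
        ≤ (c0 (f X) (h X) w (Z - X) + ε) * b * d X (X + a • w) := by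
  obtain ⟨η, hη, h1⟩ := S.second H hX hZ hc hε
  obtain ⟨η', hη', h2⟩ := S.second H (w := w) hZ hX (by rw [← neg_sub, cr_neg_r]; exact neg_ne_zero.2 hc) hε'
  refine ⟨min η η', lt_min hη hη', fun a b a0 a1 b0 b1 => ?_⟩
  obtain ⟨m1, m2, p1, p2⟩ := h1 a b a0 (a1.trans_le (min_le_left _ _)) b0 (b1.trans_le (min_le_left _ _))
  obtain ⟨-, -, p3, p4⟩ := h2 b a b0 (b1.trans_le (min_le_right _ _)) a0 (a1.trans_le (min_le_right _ _))
  rw [H.symm _ m2 _ hX, H.symm _ m2 _ m1, H.symm _ hZ _ hX, H.symm _ hZ _ m1] at p3 p4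
  exact ⟨m2, by linarith, by linarith⟩

end St1

end Pool.Agent.P.MP_ec5bc9_gt.H13
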