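import Pool.Agent.P.MP_ec5bc9_gt.G6

/-! The metric is Riemannian, and a multiple of it is constant along lines. -/

set_option autoImplicit false

namespace Pool.Agent.P.MP_ec5bc9_gt.H13

open Set Filter Topology

attribute [-simp] Complex.real_smul

/-- The length element is `√(H v) / det H` for a field `H` of positive forms with `H v` constant
along the lines of direction `v`. -/
structure St2 (M : Set ℂ) (d : ℂ → ℂ → ℝ) (Hq : ℂ → QF) : Prop where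
  pa : ∀ X ∈ M, 0 < (Hq X).a
  pd : ∀ X ∈ M, 0 < (Hq X).det
  inv : ∀ X ∈ M, ∀ Z ∈ M, (Hq X).ev (Z - X) = (Hq Z).ev (Z - X)
  lim : ∀ X ∈ M, ∀ v, Tendsto (fun ρ : ℝ => d X (X + ρ • v) / ρ) UU
    (𝓝 (√((Hq X).ev v) / (Hq X).det))

noncomputable def sg (d : ℂ → ℂ → ℝ) (X : ℂ) : ℝ :=
  limUnder (UU : Filter ℝ) fun ρ : ℝ => d X (X + ρ • (1 : ℂ)) / ρ

namespace St1
variable {M : Set ℂ} {d : ℂ → ℂ → ℝ} {f h : ℂ → ℝ} (S : St1 M d f h) (H : PM0 M d)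
include S H

lemma sg_spec {X : ℂ} (hX : X ∈ M) : 0 < sg d X ∧
    Tendsto (fun ρ : ℝ => d X (X + ρ • (1 : ℂ)) / ρ) UU (𝓝 (sg d X)) := by
  obtain ⟨δ, hZ, hδ⟩ := ((H.ev_mem hX Complex.I).and UU_pos).exists
  obtain ⟨Z, hZd⟩ : ∃ Z, Z = X + δ • Complex.I := ⟨_, rfl⟩
  have hc : cr 1 (Z - X) ≠ 0 := by
    rw [hZd, add_sub_cancel_left, cr_smul_r]; simp [cr, hδ.ne']
  rw [← hZd] at hZ
  have p1 := c0_pos (f := f X) (S.pos X hX) hc
  have p2 := c0_pos (f := f Z) (S.pos Z hZ) (w := 1) (u := X - Z)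
    (by rw [← neg_sub, cr_neg_r]; exact neg_ne_zero.2 hc)
  obtain ⟨η, hη, hb⟩ := S.both_ends H hX hZ hc (half_pos p1) (half_pos p2)
  generalize c0 (f X) (h X) 1 (Z - X) = c at *
  generalize c0 (f Z) (h Z) 1 (X - Z) = c' at *
  have b0 := half_pos hη
  have b1 := half_lt_self hη
  have lp : 0 < d Z (Z + (η / 2) • (1 : ℂ)) := by
    have := H.ray_strict hZ (hb _ _ b0 b1 b0 b1).1 le_rfl b0 one_ne_zero
    simpa [H.refl Z hZ] using this
  generalize η / 2 = b at *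
  obtain ⟨x, hx, T⟩ := ultra_lim UU (isCompact_Icc
    (a := c' * d Z (Z + b • (1 : ℂ)) / (3 * c * b)) (b := 3 * c' * d Z (Z + b • (1 : ℂ)) / (c * b)))
    (f := fun ρ : ℝ => d X (X + ρ • (1 : ℂ)) / ρ) (by
      filter_upwards [UU_le (Ioo_mem_nhdsGT hη)] with a ha
      obtain ⟨-, q1, q2⟩ := hb a b ha.1 ha.2 b0 b1
      constructor
      · rw [div_le_div_iff₀ (by positivity) ha.1]; linarith
      · rw [div_le_div_iff₀ ha.1 (by positivity)]; linarith)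
  have e : sg d X = x := T.limUnder_eq
  rw [e]
  exact ⟨lt_of_lt_of_le (by positivity) hx.1, T⟩

lemma lim_dir {X : ℂ} (hX : X ∈ M) (v : ℂ) : Tendsto (fun ρ : ℝ => d X (X + ρ • v) / ρ) UU
    (𝓝 (‖TT (f X) (h X) v‖ * sg d X)) := by
  have T := (S.lim X hX 0 v).mul (S.sg_spec H hX).2
  rw [sub_zero] at T
  refine T.congr' ?_
  filter_upwards [H.m_pos hX] with ρ h1
  simp only [sc, smul_zero, add_zero]
  field_simp

lemma rel_le {X Z w : ℂ} (hX : X ∈ M) (hZ : Z ∈ M) (hc : cr w (Z - X) ≠ 0) :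
    c0 (f X) (h X) w (Z - X) * (‖TT (f X) (h X) w‖ * sg d X)
      ≤ c0 (f Z) (h Z) w (X - Z) * (‖TT (f Z) (h Z) w‖ * sg d Z) := by
  have key : ∀ ε : ℝ, 0 < ε → (c0 (f X) (h X) w (Z - X) - ε) * (‖TT (f X) (h X) w‖ * sg d X)
      ≤ (c0 (f Z) (h Z) w (X - Z) + ε) * (‖TT (f Z) (h Z) w‖ * sg d Z) := by
    intro ε hε
    obtain ⟨η, hη, hb⟩ := S.both_ends H hX hZ hc hε hε
    refine le_of_tendsto_of_tendsto ((S.lim_dir H hX w).const_mul _) ((S.lim_dir H hZ w).const_mul _) ?_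
    filter_upwards [UU_le (Ioo_mem_nhdsGT hη)] with a ha
    obtain ⟨-, q1, -⟩ := hb a a ha.1 ha.2 ha.1 ha.2
    rw [← mul_div_assoc, ← mul_div_assoc]
    refine div_le_div_of_nonneg_right (le_of_mul_le_mul_left ?_ ha.1) ha.1.le
    linarith
  have T : Tendsto (fun ε : ℝ => ε) (𝓝[>] 0) (𝓝 0) := tendsto_id.mono_left nhdsWithin_le_nhds
  have := le_of_tendsto_of_tendsto ((T.const_sub _).mul_const _) ((T.const_add _).mul_const _)
    (eventually_nhdsWithin_of_forall key)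
  simpa using this

lemma rel {X Z : ℂ} (hX : X ∈ M) (hZ : Z ∈ M) :
    ‖TT (f X) (h X) (Z - X)‖ ^ 3 / (sg d X * h X ^ 2)
      = ‖TT (f Z) (h Z) (Z - X)‖ ^ 3 / (sg d Z * h Z ^ 2) := by
  by_cases hu : Z - X = 0
  · simp [hu]
  have hc : cr (Complex.I * (Z - X)) (Z - X) ≠ 0 := by
    have : cr (Complex.I * (Z - X)) (Z - X) = -‖Z - X‖ ^ 2 := by
      rw [← dot_self]; generalize Z - X = u; simp [cr, dot]; ring
    rw [this]; exact neg_ne_zero.2 (pow_pos (norm_pos_iff.2 hu) 2).ne'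
  generalize Complex.I * (Z - X) = w at hc
  have hw : w ≠ 0 := by rintro rfl; simp at hc
  have e := le_antisymm (S.rel_le H hX hZ hc)
    (S.rel_le H (w := w) hZ hX (by rw [← neg_sub, cr_neg_r]; exact neg_ne_zero.2 hc))
  rw [c0, c0, ← neg_sub Z X, cr_neg_r, TT_neg, norm_neg] at e
  have a1 := norm_pos_iff.2 (TT_ne (f := f X) (S.pos X hX) hw)
  have a2 := norm_pos_iff.2 (TT_ne (f := f Z) (S.pos Z hZ) hw)
  have a3 := norm_pos_iff.2 (TT_ne (f := f X) (S.pos X hX) hu)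
  have a4 := norm_pos_iff.2 (TT_ne (f := f Z) (S.pos Z hZ) hu)
  have a5 := (S.sg_spec H hX).1
  have a6 := (S.sg_spec H hZ).1
  have a7 := S.pos X hX
  have a8 := S.pos Z hZ
  field_simp at e ⊢
  linarith

theorem st2 : ∃ Hq : ℂ → QF, St2 M d Hq := by
  obtain ⟨μ, hμ⟩ : ∃ μ : ℂ → ℝ, ∀ X ∈ M, 0 < μ X ∧ μ X ^ 3 = sg d X * h X ^ 2 := by
    refine ⟨fun X => (sg d X * h X ^ 2) ^ ((3 : ℕ) : ℝ)⁻¹, fun X hX => ?_⟩
    have : 0 < sg d X * h X ^ 2 := mul_pos (S.sg_spec H hX).1 (pow_pos (S.pos X hX) 2)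
    exact ⟨Real.rpow_pos_of_pos this _, Real.rpow_inv_natCast_pow this.le (by norm_num)⟩
  obtain ⟨Hq, hH⟩ : ∃ Hq : ℂ → QF, ∀ X, Hq X =
    ⟨1 / μ X ^ 2, f X / μ X ^ 2, (f X ^ 2 + h X ^ 2) / μ X ^ 2⟩ := ⟨_, fun _ => rfl⟩
  have ev : ∀ X v, (Hq X).ev v = (‖TT (f X) (h X) v‖ / μ X) ^ 2 := fun X v => by
    rw [hH, div_pow, TT_sq, QF.ev]; ring
  have det : ∀ X, (Hq X).det = h X ^ 2 / μ X ^ 4 := fun X => by rw [hH, QF.det]; ring
  refine ⟨Hq, fun X hX => ?_, fun X hX => ?_, fun X hX Z hZ => ?_, fun X hX v => ?_⟩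
  · rw [hH]; have := (hμ X hX).1; positivity
  · rw [det]; have := (hμ X hX).1; have := S.pos X hX; positivity
  · have := S.rel H hX hZ
    rw [← (hμ X hX).2, ← (hμ Z hZ).2, ← div_pow, ← div_pow] at this
    rw [ev, ev, (pow_left_inj₀ (div_nonneg (norm_nonneg _) (hμ X hX).1.le)
      (div_nonneg (norm_nonneg _) (hμ Z hZ).1.le) three_ne_zero).1 this]
  · have a1 := (hμ X hX).1
    have a2 := S.pos X hX
    have e : √((Hq X).ev v) / (Hq X).det = ‖TT (f X) (h X) v‖ * sg d X := by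
      rw [ev, det, Real.sqrt_sq (by positivity)]
      have : sg d X = μ X ^ 3 / h X ^ 2 := by rw [(hμ X hX).2]; field_simp
      rw [this]; field_simp
    rw [e]; exact S.lim_dir H hX v

end St1

end Pool.Agent.P.MP_ec5bc9_gt.H13
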