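import Pool.Agent.P.MP_ec5bc9_gt.G7

/-! Homogeneous coordinates, interpolation of the field of forms, integration along lines. -/

set_option autoImplicit false

namespace Pool.Agent.P.MP_ec5bc9_gt.H13

open Set Filter Topology

attribute [-simp] Complex.real_smul

/-- the bilinear form of the model on homogeneous vectors `(x, t)` -/
def be (e : ℝ) (x : ℂ) (t : ℝ) (y : ℂ) (s : ℝ) : ℝ := t * s + e * dot x y
/-- the bilinear form induced on the quotient by `(x, t)` -/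
noncomputable def Pb (e : ℝ) (x : ℂ) (t : ℝ) (y : ℂ) (s : ℝ) (z : ℂ) (r : ℝ) : ℝ :=
  dot (t • y - s • x) (t • z - r • x) + e * (cr x y * cr x z)
noncomputable def Hh (e : ℝ) (x : ℂ) (t : ℝ) (y : ℂ) (s : ℝ) : ℝ := Pb e x t y s y s
/-- the generalised cotangent of the distance -/
noncomputable def cc (e : ℝ) (x : ℂ) (t : ℝ) (y : ℂ) (s : ℝ) : ℝ := be e x t y s / √(Hh e x t y s)
def II (e : ℝ) : Set ℝ := {c | 0 < e ∨ √(-e) < c}
def ll (p X : ℂ) : ℝ := 1 + cr p X

section alg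
variable (e : ℝ) (x : ℂ) (t : ℝ) (y : ℂ) (s : ℝ) (z : ℂ) (r : ℝ)

lemma gram : be e x t x t * be e y s y s = be e x t y s ^ 2 + e * Hh e x t y s := by
  simp only [be, Hh, Pb, dot, cr, Complex.sub_re, Complex.sub_im, Complex.smul_re, Complex.smul_im,
    smul_eq_mul]; ring

lemma cs_id : Hh e x t y s * Hh e x t z r - Pb e x t y s z r ^ 2
    = be e x t x t * (t * cr y z - s * cr x z + r * cr x y) ^ 2 := by
  simp only [be, Hh, Pb, dot, cr, Complex.sub_re, Complex.sub_im, Complex.smul_re, Complex.smul_im,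
    smul_eq_mul]; ring

lemma obt_id : be e x t y 1 * Pb e x t y 1 z r - be e x t z r * Hh e x t y 1
    = -(be e x t x t * Pb e y 1 x t z r) := by
  simp only [be, Hh, Pb, dot, cr, Complex.sub_re, Complex.sub_im, Complex.smul_re, Complex.smul_im,
    smul_eq_mul]; ring

lemma Hh_symm : Hh e x t y s = Hh e y s x t := by
  simp only [Hh, Pb, dot, cr, Complex.sub_re, Complex.sub_im, Complex.smul_re, Complex.smul_im,
    smul_eq_mul]; ring

lemma be_smul (a b : ℝ) : be e (a • x) (a * t) (b • y) (b * s) = a * b * be e x t y s := by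
  simp only [be, dot_smul_l, dot_smul_r]; ring

lemma Hh_smul (a b : ℝ) : Hh e (a • x) (a * t) (b • y) (b * s) = (a * b) ^ 2 * Hh e x t y s := by
  simp only [Hh, Pb, dot, cr, Complex.sub_re, Complex.sub_im, Complex.smul_re, Complex.smul_im,
    smul_eq_mul]; ring

variable {e x t y s z r}

lemma cc_of {x' y' : ℂ} {t' s' N : ℝ} (hN : 0 < N) (h1 : be e x' t' y' s' = N * be e x t y s)
    (h2 : Hh e x' t' y' s' = N ^ 2 * Hh e x t y s) : cc e x' t' y' s' = cc e x t y s := by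
  rw [cc, cc, h1, h2, Real.sqrt_mul (sq_nonneg N), Real.sqrt_sq hN.le, mul_div_mul_left _ _ hN.ne']

lemma cc_smul {b : ℝ} (hb : 0 < b) : cc e x t (b • y) (b * s) = cc e x t y s := by
  refine cc_of hb ?_ ?_
  · simpa using be_smul e x t y s 1 b
  · simpa using Hh_smul e x t y s 1 b

lemma Hh_pos (h : 0 < be e x t x t) (hz : t • y - s • x ≠ 0) : 0 < Hh e x t y s := by
  have h1 : 0 < dot (t • y - s • x) (t • y - s • x) := by
    rw [dot_self]; exact pow_pos (norm_pos_iff.2 hz) 2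
  rcases le_or_gt 0 e with he | he
  · exact add_pos_of_pos_of_nonneg h1 (mul_nonneg he (mul_self_nonneg _))
  · have h2 : t ^ 2 * Hh e x t y s = be e x t x t * dot (t • y - s • x) (t • y - s • x)
        + -e * dot x (t • y - s • x) ^ 2 := by
      simp only [be, Hh, Pb, dot, cr, Complex.sub_re, Complex.sub_im, Complex.smul_re,
        Complex.smul_im, smul_eq_mul]; ring
    have h3 : 0 < t ^ 2 * Hh e x t y s := by
      rw [h2]; exact add_pos_of_pos_of_nonneg (mul_pos h h1) (mul_nonneg (by linarith) (sq_nonneg _))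
    exact (pos_iff_pos_of_mul_pos h3).1 (by
      by_contra hc
      rw [le_antisymm (not_lt.1 hc) (sq_nonneg t), zero_mul] at h3
      exact lt_irrefl _ h3)

lemma cc_sq (h : 0 < Hh e x t y s) :
    cc e x t y s ^ 2 + e = be e x t x t * be e y s y s / Hh e x t y s := by
  rw [cc, div_pow, Real.sq_sqrt h.le, gram]; field_simp

lemma cc_mem (h1 : 0 < be e x t x t) (h2 : 0 < be e y s y s) (h : 0 < Hh e x t y s)
    (h3 : 0 < e ∨ 0 < be e x t y s) : cc e x t y s ∈ II e := by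
  refine h3.imp id fun h3 => ?_
  have hc : 0 < cc e x t y s := div_pos h3 (Real.sqrt_pos.2 h)
  rw [Real.sqrt_lt' hc]
  have := cc_sq h
  have := div_pos (mul_pos h1 h2) h
  linarith

/-- obtuse angle at `y`: the point `z` is farther from `x` than `y` -/
lemma cc_le (hx : 0 < be e x t x t) (h1 : 0 < Hh e x t y 1) (h2 : 0 < Hh e x t z r)
    (hb : 0 < be e x t y 1) (ho : Pb e y 1 x t z r ≤ 0) : cc e x t z r ≤ cc e x t y 1 := by
  have a1 := cs_id e x t y 1 z r
  have a2 := obt_id e x t y z r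
  have s1 := Real.sqrt_pos.2 h1
  have s2 := Real.sqrt_pos.2 h2
  have a3 : Pb e x t y 1 z r ≤ √(Hh e x t y 1) * √(Hh e x t z r) := by
    rw [← Real.sqrt_mul h1.le]
    refine Real.le_sqrt_of_sq_le ?_
    have := mul_nonneg hx.le (sq_nonneg (t * cr y z - 1 * cr x z + r * cr x y))
    linarith
  have a4 := mul_nonpos_of_nonneg_of_nonpos hx.le ho
  rw [cc, cc, div_le_div_iff₀ s2 s1]
  refine le_of_mul_le_mul_right ?_ s1
  rw [mul_assoc, Real.mul_self_sqrt h1.le]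
  nlinarith [mul_le_mul_of_nonneg_left a3 hb.le]

lemma be_pos (he : e ≤ 0) (ht : 0 < t) (hs : 0 < s) (h1 : 0 < be e x t x t) (h2 : 0 < be e y s y s) :
    0 < be e x t y s := by
  have a := cr_sq_add_dot_sq x y
  simp only [be, dot_self] at *
  have c1 : (-e * ‖x‖ ^ 2) * (-e * ‖y‖ ^ 2) < (t * t) * (s * s) :=
    mul_lt_mul'' (by linarith) (by linarith) (mul_nonneg (by linarith) (sq_nonneg _))
      (mul_nonneg (by linarith) (sq_nonneg _))
  have c2 : (-(e * dot x y)) ^ 2 < (t * s) ^ 2 := by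
    nlinarith [mul_nonneg (sq_nonneg e) (sq_nonneg (cr x y))]
  linarith [lt_of_pow_lt_pow_left₀ 2 (mul_pos ht hs).le c2]

end alg

lemma II_sq {e c : ℝ} (h : c ∈ II e) : 0 < c ^ 2 + e := by
  rcases h with h | h
  · positivity
  · have := (Real.sqrt_lt' ((Real.sqrt_nonneg _).trans_lt h)).1 h
    linarith

lemma II_convex (e : ℝ) : Convex ℝ (II e) := by
  by_cases h : 0 < e
  · rw [show II e = univ from eq_univ_of_forall fun _ => Or.inl h]; exact convex_univ
  · rw [show II e = Ioi √(-e) from Set.ext fun c => by simp [II, h]]; exact convex_Ioi _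

/-- the field of forms of the model in an affine chart -/
noncomputable def KK (p : ℂ) (e : ℝ) (X u : ℂ) : ℝ :=
  dot (u - cr X u • p) (u - cr X u • p) + e * cr X u ^ 2

lemma Hh_ll (p : ℂ) (e : ℝ) (X u : ℂ) (s : ℝ) :
    Hh e X (ll p X) (X + s • u) (ll p (X + s • u)) = s ^ 2 * KK p e X u := by
  simp only [Hh, Pb, KK, ll, dot, cr, Complex.sub_re, Complex.sub_im, Complex.add_re, Complex.add_im,
    Complex.smul_re, Complex.smul_im, smul_eq_mul]; ring

lemma det_KK {A : QF} {p : ℂ} {e : ℝ} {X : ℂ} (h : ∀ u, A.ev u = KK p e X u) :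
    A.det = be e X (ll p X) X (ll p X) := by
  have h1 := h 1
  have h2 := h Complex.I
  have h3 := h (1 + Complex.I)
  simp only [QF.ev, KK, dot, cr, Complex.sub_re, Complex.sub_im, Complex.add_re, Complex.add_im,
    Complex.smul_re, Complex.smul_im, smul_eq_mul, Complex.one_re, Complex.one_im, Complex.I_re,
    Complex.I_im] at h1 h2 h3
  have a1 : A.a = (1 + X.im * p.re) ^ 2 + (X.im * p.im) ^ 2 + e * X.im ^ 2 := by
    linear_combination h1
  have a2 : A.c = (X.re * p.re) ^ 2 + (1 - X.re * p.im) ^ 2 + e * X.re ^ 2 := by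
    linear_combination h2
  have a3 : A.b = -((1 + X.im * p.re) * (X.re * p.re)) + X.im * p.im * (1 - X.re * p.im)
      - e * (X.re * X.im) := by
    linear_combination (h3 - h1 - h2) / 2
  simp only [QF.det, be, ll, dot, cr, a1, a2, a3]; ring

/-- A field of forms that is constant along lines is a quadratic form in line coordinates. -/
lemma interp {M : Set ℂ} {Hq : ℂ → QF} (hM : M ∈ 𝓝 (0 : ℂ)) (h0 : ∀ v, (Hq 0).ev v = dot v v)
    (inv : ∀ X ∈ M, ∀ Z ∈ M, (Hq X).ev (Z - X) = (Hq Z).ev (Z - X)) :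
    ∃ (p : ℂ) (e : ℝ), ∀ X ∈ M, ∀ u, (Hq X).ev u = KK p e X u := by
  obtain ⟨R, hR, hb⟩ := Metric.mem_nhds_iff.1 hM
  obtain ⟨δ, hδ, mem⟩ : ∃ δ : ℝ, 0 < δ ∧ ∀ j k : ℝ, 0 ≤ j → j ≤ 8 → 0 ≤ k → k ≤ 8 →
      (⟨j * δ, k * δ⟩ : ℂ) ∈ M := by
    refine ⟨R / 32, by linarith, fun j k a1 a2 a3 a4 => hb ?_⟩
    rw [mem_ball_zero_iff]
    refine (Complex.norm_le_abs_re_add_abs_im _).trans_lt ?_
    rw [abs_of_nonneg (by positivity), abs_of_nonneg (by positivity)]
    nlinarith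
  obtain ⟨P, hP⟩ : ∃ P : ℂ, P = ⟨8 * δ, 0 * δ⟩ := ⟨_, rfl⟩
  obtain ⟨Q, hQ⟩ : ∃ Q : ℂ, Q = ⟨0 * δ, 8 * δ⟩ := ⟨_, rfl⟩
  have mP : P ∈ M := hP ▸ mem 8 0 (by norm_num) le_rfl le_rfl (by norm_num)
  have mQ : Q ∈ M := hQ ▸ mem 0 8 le_rfl (by norm_num) (by norm_num) le_rfl
  have m0 : (0 : ℂ) ∈ M := mem_of_mem_nhds hM
  obtain ⟨p, hp⟩ : ∃ p : ℂ, p = ⟨-(Hq P).b / (8 * δ), (Hq Q).b / (8 * δ)⟩ := ⟨_, rfl⟩
  obtain ⟨e, he⟩ : ∃ e : ℝ, e = ((Hq P).c - 1 + 2 * (Hq Q).b) / (8 * δ) ^ 2 - dot p p := ⟨_, rfl⟩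
  obtain ⟨G, hG⟩ : ∃ G : ℂ → QF, ∀ X u, (G X).ev u = (Hq X).ev u - KK p e X u := by
    refine ⟨fun X => ⟨(Hq X).a - ((1 + X.im * p.re) ^ 2 + (X.im * p.im) ^ 2 + e * X.im ^ 2),
      (Hq X).b - (-((1 + X.im * p.re) * (X.re * p.re)) + X.im * p.im * (1 - X.re * p.im)
        - e * (X.re * X.im)),
      (Hq X).c - ((X.re * p.re) ^ 2 + (1 - X.re * p.im) ^ 2 + e * X.re ^ 2)⟩, fun X u => ?_⟩
    simp only [QF.ev, KK, dot, cr, Complex.sub_re, Complex.sub_im, Complex.smul_re, Complex.smul_im,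
      smul_eq_mul]; ring
  have ginv : ∀ X ∈ M, ∀ Z ∈ M, (G X).ev (Z - X) = (G Z).ev (Z - X) := by
    intro X hX Z hZ
    have : cr X (Z - X) = cr Z (Z - X) := by simp [cr_comm X Z]
    rw [hG, hG, inv X hX Z hZ, KK, KK, this]
  have i1 := inv 0 m0 P mP
  have i2 := inv 0 m0 Q mQ
  have i3 := inv P mP Q mQ
  rw [h0] at i1 i2
  have d8 : (8 * δ) ^ 2 ≠ 0 := by positivity
  have rP : P.re = 8 * δ ∧ P.im = 0 := by rw [hP]; simp
  have rQ : Q.re = 0 ∧ Q.im = 8 * δ := by rw [hQ]; simp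
  simp only [QF.ev, dot, sub_zero, Complex.sub_re, Complex.sub_im, rP.1, rP.2, rQ.1, rQ.2] at i1 i2 i3
  have j1 : (Hq P).a = 1 := mul_right_cancel₀ d8 (by linarith)
  have j2 : (Hq Q).c = 1 := mul_right_cancel₀ d8 (by linarith)
  have j3 : (Hq Q).a = (Hq P).c - 2 * (Hq P).b + 2 * (Hq Q).b :=
    mul_right_cancel₀ d8 (by rw [j1, j2] at i3; linarith)
  have p1 : 8 * δ * p.re = -(Hq P).b := by rw [hp]; field_simp
  have p2 : 8 * δ * p.im = (Hq Q).b := by rw [hp]; field_simp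
  have p3 : (8 * δ) ^ 2 * (e + dot p p) = (Hq P).c - 1 + 2 * (Hq Q).b := by rw [he]; field_simp; ring
  have g0 : ∀ u, (G 0).ev u = 0 := fun u => by rw [hG, h0]; simp [KK]
  have gP : ∀ u, (G P).ev u = 0 := fun u => by
    rw [hG]
    simp only [QF.ev, KK, dot, cr, Complex.sub_re, Complex.sub_im, Complex.smul_re, Complex.smul_im,
      smul_eq_mul, rP.1, rP.2, j1] at p3 ⊢
    linear_combination (2 * u.re * u.im) * p1 + (2 * u.im ^ 2) * p2 - u.im ^ 2 * p3
  have gQ : ∀ u, (G Q).ev u = 0 := fun u => by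
    rw [hG]
    simp only [QF.ev, KK, dot, cr, Complex.sub_re, Complex.sub_im, Complex.smul_re, Complex.smul_im,
      smul_eq_mul, rQ.1, rQ.2, j2, j3] at p3 ⊢
    linear_combination (-2 * u.re ^ 2) * p1 - (2 * u.re * u.im) * p2 - u.re ^ 2 * p3
  have grid : ∀ j k : ℝ, 1 ≤ j → j ≤ 3 → 1 ≤ k → k ≤ 3 → ∀ X ∈ M,
      (G X).ev ((⟨j * δ, k * δ⟩ : ℂ) - X) = 0 := by
    intro j k a1 a2 a3 a4 X hX
    obtain ⟨Z, hZ⟩ : ∃ Z : ℂ, Z = ⟨j * δ, k * δ⟩ := ⟨_, rfl⟩
    have mZ : Z ∈ M := hZ ▸ mem j k (by linarith) (by linarith) (by linarith) (by linarith)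
    have rZ : Z.re = j * δ ∧ Z.im = k * δ := by rw [hZ]; simp
    rw [← hZ, ginv X hX Z mZ]
    refine (G Z).zero_of_three (u := 0 - Z) (v := P - Z) (w := Q - Z) ?_ ?_ ?_
      (by rw [ginv Z mZ 0 m0, g0]) (by rw [ginv Z mZ P mP, gP]) (by rw [ginv Z mZ Q mQ, gQ]) _
    · have : cr (0 - Z) (P - Z) = 8 * k * δ ^ 2 := by simp [cr, rP.1, rP.2, rZ.1, rZ.2]; ring
      rw [this]; positivity
    · have : cr (0 - Z) (Q - Z) = -(8 * j * δ ^ 2) := by simp [cr, rQ.1, rQ.2, rZ.1, rZ.2]; ring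
      rw [this]; exact neg_ne_zero.2 (by positivity)
    · have : cr (P - Z) (Q - Z) = 8 * (8 - j - k) * δ ^ 2 := by
        simp [cr, rP.1, rP.2, rQ.1, rQ.2, rZ.1, rZ.2]; ring
      have h8 : 0 < 8 - j - k := by linarith
      rw [this]; positivity
  refine ⟨p, e, fun X hX u => ?_⟩
  have k12 := grid 1 2 (by norm_num) (by norm_num) (by norm_num) (by norm_num) X hX
  have k22 := grid 2 2 (by norm_num) (by norm_num) (by norm_num) (by norm_num) X hX
  have k32 := grid 3 2 (by norm_num) (by norm_num) (by norm_num) (by norm_num) X hX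
  have k21 := grid 2 1 (by norm_num) (by norm_num) (by norm_num) (by norm_num) X hX
  have k23 := grid 2 3 (by norm_num) (by norm_num) (by norm_num) (by norm_num) X hX
  have k33 := grid 3 3 (by norm_num) (by norm_num) (by norm_num) (by norm_num) X hX
  simp only [QF.ev, Complex.sub_re, Complex.sub_im] at k12 k22 k32 k21 k23 k33
  have d2 : 2 * δ ^ 2 ≠ 0 := by positivity
  have l1 : (G X).a = 0 := mul_right_cancel₀ d2 (by linear_combination k12 - 2 * k22 + k32)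
  have l2 : (G X).c = 0 := mul_right_cancel₀ d2 (by linear_combination k21 - 2 * k22 + k23)
  have l3 : (G X).b = 0 := mul_right_cancel₀ d2 (by linear_combination k33 - k32 - k23 + k22)
  rw [← sub_eq_zero, ← hG, QF.ev, l1, l2, l3]; ring

lemma mv_eq {φ : ℝ → ℝ} {a b : ℝ} (hab : a ≤ b) (hc : ContinuousOn φ (Icc a b))
    (h : ∀ s ∈ Ico a b, Tendsto (fun ρ : ℝ => (φ (s + ρ) - φ s) / ρ) UU (𝓝 0)) : φ b = φ a := by
  have key : ∀ σ ε : ℝ, 0 < ε → σ * φ b - ε * b ≤ σ * φ a - ε * a := by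
    intro σ ε hε
    refine mv_neg (ψ := fun s => σ * φ s - ε * s) hab
      ((continuousOn_const.mul hc).sub (by fun_prop)) fun s hs => ?_
    have T := (h s hs).const_mul σ
    rw [mul_zero] at T
    filter_upwards [T.eventually (gt_mem_nhds hε), UU_pos] with ρ h1 h2
    rw [← mul_div_assoc, div_lt_iff₀ h2] at h1
    linarith
  have lim : ∀ σ : ℝ, σ * φ b ≤ σ * φ a := by
    intro σ
    refine le_of_forall_pos_le_add fun ε hε => ?_
    have hb : 0 < b - a + 1 := by linarith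
    have h1 := key σ (ε / (b - a + 1)) (by positivity)
    have h2 : ε / (b - a + 1) * (b - a + 1) = ε := div_mul_cancel₀ _ hb.ne'
    have h3 : 0 < ε / (b - a + 1) := by positivity
    linarith
  linarith [lim 1, lim (-1)]

end Pool.Agent.P.MP_ec5bc9_gt.H13
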