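import Pool.Agent.P.MP_ec5bc9_gt.G8

/-! The distance formula of the model, and the boundary of the domain. -/

set_option autoImplicit false

namespace Pool.Agent.P.MP_ec5bc9_gt.H13

open Set Filter Topology

attribute [-simp] Complex.real_smul

/-- No parabolic conic contains two points together with their midpoint. -/
def NoSeg (M : Set ℂ) (d : ℂ → ℂ → ℝ) : Prop :=
  ∀ Y ∈ M, ∀ w F : ℂ, F ∈ M → cr w (F - Y) ≠ 0 → ∀ P ∈ M, ∀ Q ∈ M, P ≠ Q →
    d P F = dl M d Y w P → d Q F = dl M d Y w Q →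
    d (P + (1 / 2 : ℝ) • (Q - P)) F = dl M d Y w (P + (1 / 2 : ℝ) • (Q - P)) → False

lemma PG.noSeg {M : Set ℂ} {d : ℂ → ℂ → ℝ} (H : PG M d) : NoSeg M d := by
  intro Y hY w F hF hc P hP Q hQ hne h1 h2 h3
  obtain ⟨C, nd, hC⟩ := H.con Y hY w F hF hc
  refine nd.no_three (P := P) (v := Q - P) (s := 1 / 2) (t := 1) (sub_ne_zero.2 hne.symm)
    (by norm_num) (by norm_num) ((hC P hP).1 h1)
    ((hC _ (H.seg_mem hP hQ (by norm_num) (by norm_num))).1 h3) ?_
  rw [one_smul, add_sub_cancel]; exact (hC Q hQ).1 h2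

/-- The normalised situation: the length element is the one of a model in an affine chart. -/
structure Nm (M : Set ℂ) (d : ℂ → ℂ → ℝ) (k : ℝ) (p : ℂ) (e : ℝ) : Prop where
  pm : PM0 M d
  zero : (0 : ℂ) ∈ M
  kpos : 0 < k
  pos : ∀ X ∈ M, 0 < be e X (ll p X) X (ll p X)
  kk : ∀ X ∈ M, ∀ v, v ≠ 0 → 0 < KK p e X v
  lim : ∀ X ∈ M, ∀ v, Tendsto (fun ρ : ℝ => d X (X + ρ • v) / ρ) UU
    (𝓝 (k * (√(KK p e X v) / be e X (ll p X) X (ll p X))))
  noseg : NoSeg M d

/-- The inverse of the generalised cotangent. -/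
structure Prim (e : ℝ) (Ψ : ℝ → ℝ) : Prop where
  der : ∀ c ∈ II e, HasDerivAt Ψ (-(c ^ 2 + e)⁻¹) c
  lim : Tendsto Ψ atTop (𝓝 0)

lemma Prim.anti {e : ℝ} {Ψ : ℝ → ℝ} (h : Prim e Ψ) : AntitoneOn Ψ (II e) :=
  antitoneOn_of_deriv_nonpos (II_convex e)
    (fun c hc => (h.der c hc).continuousAt.continuousWithinAt)
    (fun c hc => (h.der c (interior_subset hc)).differentiableAt.differentiableWithinAt)
    (fun c hc => by
      rw [(h.der c (interior_subset hc)).deriv]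
      exact neg_nonpos.2 (inv_pos.2 (II_sq (interior_subset hc))).le)

namespace Nm
variable {M : Set ℂ} {d : ℂ → ℂ → ℝ} {k e : ℝ} {p : ℂ} (N : Nm M d k p e)
include N

lemma ll_pos (he : e ≤ 0) {X : ℂ} (hX : X ∈ M) : 0 < ll p X := by
  by_contra hc
  have h1 : 1 ≤ -cr p X := by simp only [ll] at hc; linarith
  have hm := N.pm.seg_mem N.zero hX (t := (-cr p X)⁻¹) (by positivity) (inv_le_one_of_one_le₀ h1)
  have := N.pos _ hm
  have e0 : ll p (0 + (-cr p X)⁻¹ • (X - 0)) = 0 := by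
    have : cr p X ≠ 0 := by linarith
    simp only [ll, zero_add, sub_zero, cr_smul_r]; field_simp; ring
  rw [e0, be, dot_self] at this
  nlinarith [sq_nonneg ‖0 + (-cr p X)⁻¹ • (X - 0)‖]

lemma Hh_pos {X Y : ℂ} (hX : X ∈ M) (hne : X ≠ Y) : 0 < Hh e X (ll p X) Y (ll p Y) := by
  have := Hh_ll p e X (Y - X) 1
  rw [one_smul, add_sub_cancel, one_pow, one_mul] at this
  rw [this]; exact N.kk X hX _ (sub_ne_zero.2 hne.symm)

lemma mem_II {X Y : ℂ} (hX : X ∈ M) (hY : Y ∈ M) (hne : X ≠ Y) :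
    cc e X (ll p X) Y (ll p Y) ∈ II e := by
  refine cc_mem (N.pos X hX) (N.pos Y hY) (N.Hh_pos hX hne) ?_
  rcases lt_or_ge 0 e with h | h
  · exact Or.inl h
  · exact Or.inr (be_pos h (N.ll_pos h hX) (N.ll_pos h hY) (N.pos X hX) (N.pos Y hY))

lemma dist_eq {Ψ : ℝ → ℝ} (hΨ : Prim e Ψ) {X Y : ℂ} (hX : X ∈ M) (hY : Y ∈ M) (hne : X ≠ Y) :
    d X Y = k * Ψ (cc e X (ll p X) Y (ll p Y)) := by
  obtain ⟨u, rfl⟩ : ∃ u, Y = X + (1 : ℝ) • u := ⟨Y - X, by simp⟩
  have hu : u ≠ 0 := by rintro rfl; simp at hne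
  have hK := N.kk X hX u hu
  have sK := Real.sqrt_pos.2 hK
  have hD := N.pos X hX
  obtain ⟨c, hc⟩ : ∃ c : ℝ → ℝ, c = fun s =>
    (be e X (ll p X) X (ll p X) * s⁻¹ + be e X (ll p X) u (cr p u)) / √(KK p e X u) := ⟨_, rfl⟩
  have mem : ∀ s : ℝ, 0 ≤ s → s ≤ 1 → X + s • u ∈ M := fun s h0 h1 => N.pm.ray_mem hX hY h0 h1
  have ne : ∀ s : ℝ, 0 < s → X ≠ X + s • u := fun s hs => by simp [hs.ne', hu]
  have ce : ∀ s, 0 < s → cc e X (ll p X) (X + s • u) (ll p (X + s • u)) = c s := by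
    intro s hs
    rw [cc, Hh_ll, Real.sqrt_mul (sq_nonneg s), Real.sqrt_sq hs.le, hc]
    simp only [be, ll, cr_add_r, cr_smul_r, dot_add_r, dot_smul_r]
    field_simp; ring
  have der : ∀ s, 0 < s → s ≤ 1 → HasDerivAt (fun s => k * Ψ (c s))
      (k * (√(KK p e X u) / be e (X + s • u) (ll p (X + s • u)) (X + s • u) (ll p (X + s • u)))) s := by
    intro s hs h1
    have m := mem s hs.le h1
    have d1 : HasDerivAt c (be e X (ll p X) X (ll p X) * (-(s ^ 2)⁻¹) / √(KK p e X u)) s := by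
      rw [hc]; exact (((hasDerivAt_inv hs.ne').const_mul _).add_const _).div_const _
    have d2 := ((hΨ.der (c s) (ce s hs ▸ N.mem_II hX m (ne s hs))).comp s d1).const_mul k
    refine d2.congr_deriv ?_
    have q := cc_sq (N.Hh_pos hX (ne s hs))
    have q2 := N.pos _ m
    rw [ce s hs, Hh_ll] at q
    rw [q]
    have q3 := Real.sq_sqrt hK.le
    generalize √(KK p e X u) = r at *
    rw [← q3]; field_simp
  have const : ∀ a, 0 < a → a ≤ 1 → d X (X + (1 : ℝ) • u) - k * Ψ (c 1)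
      = d X (X + a • u) - k * Ψ (c a) := by
    intro a ha h1
    refine mv_eq (φ := fun s => d X (X + s • u) - k * Ψ (c s)) h1
      ((N.pm.continuousOn continuousOn_const (by fun_prop) (fun _ _ => hX)
        fun s hs => mem s (ha.le.trans hs.1) hs.2).sub fun s hs =>
          (der s (ha.trans_le hs.1) hs.2).continuousAt.continuousWithinAt) fun s hs => ?_
    have s0 := ha.trans_le hs.1
    have m := mem s s0.le hs.2.le
    have T1 := N.lim _ m u
    have eK : KK p e (X + s • u) u = KK p e X u := by simp [KK]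
    rw [eK] at T1
    have T := T1.sub ((der s s0 hs.2.le).tendsto_slope_zero_right.mono_left UU_le)
    rw [sub_self] at T
    refine T.congr' ?_
    filter_upwards [N.pm.ev_mem m u, UU_pos] with ρ h2 h3
    have e1 : X + (s + ρ) • u = X + s • u + ρ • u := by module
    rw [N.pm.ray_add hX (e1 ▸ h2) s0.le (show s ≤ s + ρ by linarith), e1, smul_eq_mul]
    field_simp; ring
  have T1 := N.pm.tendsto hX hX (tendsto_const_nhds (f := 𝓝[>] (0 : ℝ))) (small_r X u)
  have T2 : Tendsto c (𝓝[>] 0) atTop := by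
    rw [hc]
    exact (tendsto_atTop_add_const_right _ _ (tendsto_inv_nhdsGT_zero.const_mul_atTop hD)).atTop_div_const sK
  have T := T1.sub ((hΨ.lim.comp T2).const_mul k)
  rw [N.pm.refl X hX, mul_zero, sub_zero] at T
  have := tendsto_nhds_unique (tendsto_const_nhds.congr' (by
    filter_upwards [Ioo_mem_nhdsGT (zero_lt_one' ℝ)] with a ha
    exact const a ha.1 ha.2.le)) T
  rw [ce 1 one_pos]; linarith

end Nm

end Pool.Agent.P.MP_ec5bc9_gt.H13
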