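import Pool.Agent.P.MP_ec5bc9_gt.G12

/-! Local version: a small parabolic conic that lies on a quadric separates the two sides weakly,
and weak separation passes to limits. -/

set_option autoImplicit false

namespace Pool.Agent.P.MP_ec5bc9_gt.H13

open Set Filter Topology

attribute [-simp] Complex.real_smul

def Strict (M : Set ℂ) (d : ℂ → ℂ → ℝ) : Prop :=
  ∀ x ∈ M, ∀ y ∈ M, ∀ z ∈ M, cr (y - x) (z - x) ≠ 0 → d x z < d x y + d y z

/-- The quadric separates, inside `D`, the points nearer to the focus from those nearer to the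
line. -/
structure WS (M D : Set ℂ) (d : ℂ → ℂ → ℝ) (Y w F : ℂ) (C : Con) : Prop where
  foc : C.q F < 0
  le : ∀ X ∈ D, ff M d Y w F X ≤ 0 → C.q X ≤ 0
  ge : ∀ X ∈ D, 0 ≤ ff M d Y w F X → 0 ≤ C.q X

structure PW (M D : Set ℂ) (d : ℂ → ℂ → ℝ) : Prop extends PM0 M d where
  strict : Strict M d
  sub : D ⊆ M
  opn : IsOpen D
  cvx : Convex ℝ D
  ws : ∀ Y ∈ D, ∀ w F : ℂ, F ∈ D → cr w (F - Y) ≠ 0 → ∃ C : Con, WS M D d Y w F C

lemma Con.grad_add (C : Con) (X v : ℂ) : C.grad (X + v) = C.grad X + (2 : ℝ) • C.A.ap v := by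
  apply Complex.ext <;>
    simp [Con.grad, QF.ap, Complex.smul_re, Complex.smul_im] <;> ring

lemma Con.neg_of_sep {C : Con} (h0 : ¬ ((∀ v, C.A.ev v = 0) ∧ C.l = 0 ∧ C.k = 0)) {X Y : ℂ}
    (hX : ∀ᶠ Z in 𝓝 X, C.q Z ≤ 0) (hY : ∀ᶠ Z in 𝓝 Y, 0 ≤ C.q Z) : C.q X < 0 := by
  refine lt_of_le_of_ne hX.self_of_nhds fun e => h0 ?_
  have g0 : C.grad X = 0 := by
    have := C.slope_nonpos (v := C.grad X) e ((small_r X _).eventually hX)
    rw [dot_self] at this
    exact norm_eq_zero.1 (pow_eq_zero_iff two_ne_zero |>.1 (le_antisymm this (sq_nonneg _)))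
  have hq : ∀ v, C.q (X + v) = C.A.ev v := fun v => by rw [C.q_add, e, g0]; simp
  have np : ∀ v, C.A.ev v ≤ 0 := by
    intro v
    obtain ⟨t, h1, h2⟩ := (((small_r X v).eventually hX).and self_mem_nhdsWithin).exists
    have ht : 0 < t := h2
    rw [hq, QF.ev_smul] at h1
    exact le_of_mul_le_mul_left (by simpa using h1) (pow_pos ht 2)
  have np' : ∀ Z, C.q Z ≤ 0 := fun Z => by
    have := hq (Z - X)
    rw [add_sub_cancel] at this
    rw [this]; exact np _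
  have z : ∀ v, C.A.ev v = 0 := by
    intro v
    obtain ⟨t, h1, h2, h3⟩ := (((small_r Y v).eventually hY).and (((small_r Y (-v)).eventually hY).and
      self_mem_nhdsWithin)).exists
    have ht : 0 < t := h3
    have a0 := le_antisymm (np' Y) hY.self_of_nhds
    rw [C.q_ray, a0] at h1 h2
    rw [dot_neg_r, QF.ev_neg] at h2
    refine le_antisymm (np v) (le_of_mul_le_mul_left ?_ (pow_pos ht 2))
    linarith
  have all : ∀ Z, C.q Z = 0 := fun Z => by
    have := hq (Z - X)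
    rw [add_sub_cancel] at this
    rw [this, z]
  have k0 : C.k = 0 := by simpa using all 0
  refine ⟨z, ?_, k0⟩
  have := all C.l
  rw [Con.q, z, k0, dot_self] at this
  exact norm_eq_zero.1 (pow_eq_zero_iff two_ne_zero |>.1 (by linarith))

lemma Con.nz_of_ne {C : Con} {X : ℂ} (h : C.q X ≠ 0) :
    ¬ ((∀ v, C.A.ev v = 0) ∧ C.l = 0 ∧ C.k = 0) := by
  rintro ⟨h1, h2, h3⟩
  exact h (by simp [Con.q, h1, h2, h3])

lemma dl_smul (M : Set ℂ) (d : ℂ → ℂ → ℝ) (Y w X : ℂ) {a : ℝ} (ha : a ≠ 0) :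
    dl M d Y (a • w) X = dl M d Y w X := by
  unfold dl
  congr 1
  ext r
  constructor
  · rintro ⟨s, hs, rfl⟩
    refine ⟨s * a, ?_, ?_⟩
    · simpa only [mem_ofPred_eq, smul_smul] using hs
    · simp only [smul_smul]
  · rintro ⟨s, hs, rfl⟩
    have e : (s / a) • a • w = s • w := by rw [smul_smul, div_mul_cancel₀ _ ha]
    refine ⟨s / a, ?_, ?_⟩
    · simpa only [mem_ofPred_eq, e] using hs
    · simp only [e]

namespace PM0
variable {M D : Set ℂ} {d : ℂ → ℂ → ℝ} (H : PM0 M d) {Y w F : ℂ}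
include H

section eqn
variable {C : Con} (hD : D ⊆ M) (ho : IsOpen D) (hc : Convex ℝ D) (hY : Y ∈ M) (hF : F ∈ D)
  (h : cr w (F - Y) ≠ 0) (cut : ∀ X ∈ D, ff M d Y w F X = 0 ↔ C.q X = 0) (hin : C.q F < 0)
include hD ho hc hY hF h cut hin

lemma loc_neg : ∀ X ∈ D, ff M d Y w F X < 0 → C.q X < 0 := by
  have G := H.restrict hD ho hc
  have hcont : ∀ v : ℂ, Continuous fun τ : ℝ => C.q (F + τ • v) := fun v => by
    have := C.continuous_q
    fun_prop
  intro X hX hn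
  by_contra hc
  rw [not_lt] at hc
  obtain ⟨τ, hτ, e⟩ := intermediate_value_Icc (zero_le_one' ℝ) (hcont (X - F)).continuousOn
    (show (0 : ℝ) ∈ Icc _ _ from ⟨by simpa using hin.le, by simpa using hc⟩)
  have h1 : F + (1 : ℝ) • (X - F) ∈ M := by simpa using hD hX
  have := H.ff_mono (w := w) hY (hD hF) h1 hτ.1 hτ.2
  rw [(cut _ (G.seg_mem hF hX hτ.1 hτ.2)).2 e] at this
  simp only [one_smul, add_sub_cancel] at this
  linarith

lemma loc_sing {X0 : ℂ} (hX0 : X0 ∈ D) (hp : 0 < ff M d Y w F X0) (hq : C.q X0 < 0) :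
    ∃ τ : ℝ, 0 < τ ∧ C.q (F + τ • (X0 - F)) = 0 ∧ C.grad (F + τ • (X0 - F)) = 0 := by
  have G := H.restrict hD ho hc
  have hcont : ∀ v : ℂ, Continuous fun τ : ℝ => C.q (F + τ • v) := fun v => by
    have := C.continuous_q
    fun_prop
  have two : ∀ {v : ℂ} {s t : ℝ}, F + t • v ∈ D → 0 ≤ s → s < t → C.q (F + s • v) = 0 →
      C.q (F + t • v) = 0 → False := by
    intro v s t ht h0 hst hs0 ht0
    have hs := G.ray_mem hF ht h0 hst.le
    have hm := G.ray_mem hF ht (s := (s + t) / 2) (by linarith) (by linarith)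
    have a1 := H.ff_mono (w := w) hY (hD hF) (hD ht) (s := (s + t) / 2) (by linarith) (by linarith)
    have a2 := H.ff_mono (w := w) hY (hD hF) (hD hm) (s := s) h0 (by linarith)
    rw [(cut _ ht).2 ht0] at a1
    rw [(cut _ hs).2 hs0] at a2
    have hm0 := (cut _ hm).1 (le_antisymm a1 a2)
    rw [C.q_ray] at hs0 ht0 hm0
    generalize C.A.ev v = A at *
    generalize dot (C.grad F) v = B at *
    have hd : t - s ≠ 0 := by linarith
    have e1 : B + (s + t) * A = 0 := by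
      have : (t - s) * (B + (s + t) * A) = 0 := by linear_combination ht0 - hs0
      exact (mul_eq_zero.1 this).resolve_left hd
    have e2 : B + (s + (s + t) / 2) * A = 0 := by
      have : (t - s) * (B + (s + (s + t) / 2) * A) = 0 := by linear_combination 2 * hm0 - 2 * hs0
      exact (mul_eq_zero.1 this).resolve_left hd
    have e3 : A = 0 := by
      have : (t - s) * A = 0 := by linear_combination 2 * e1 - 2 * e2
      exact (mul_eq_zero.1 this).resolve_left hd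
    have e4 : B = 0 := by rw [e3] at e1; linarith
    rw [e3, e4] at hs0; linarith
  have hnn : ∀ X ∈ D, C.q X < 0 → ∀ τ ∈ Icc (0 : ℝ) 1, C.q (F + τ • (X - F)) ≤ 0 := by
    intro X hX hX' τ hτ
    have h1 : F + (1 : ℝ) • (X - F) ∈ D := by simpa using hX
    by_contra hc
    rw [not_le] at hc
    obtain ⟨s, hs, es⟩ := intermediate_value_Icc hτ.1 (hcont (X - F)).continuousOn
      (show (0 : ℝ) ∈ Icc _ _ from ⟨by simpa using hin.le, hc.le⟩)
    obtain ⟨t, ht, et⟩ := intermediate_value_Icc' hτ.2 (hcont (X - F)).continuousOn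
      (show (0 : ℝ) ∈ Icc _ _ from ⟨by simpa using hX'.le, hc.le⟩)
    have hsτ : s ≠ τ := by rintro rfl; exact hc.ne' es
    exact two (G.ray_mem hF h1 (hτ.1.trans ht.1) ht.2) hs.1
      (lt_of_lt_of_le (lt_of_le_of_ne hs.2 hsτ) ht.1) es et
  obtain ⟨τ, hτ, e⟩ := H.ff_exists_zero hY (hD hF) h (hD hX0) hp.le
  have e' := (cut _ (G.seg_mem hF hX0 hτ.1 hτ.2)).1 e
  have hτ0 : 0 < τ := lt_of_le_of_ne hτ.1 (by
    rintro rfl
    rw [zero_smul, add_zero] at e'
    exact hin.ne e')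
  refine ⟨τ, hτ0, e', ?_⟩
  obtain ⟨g, hg⟩ : ∃ g, g = C.grad (F + τ • (X0 - F)) := ⟨_, rfl⟩
  have := C.slope_nonpos (v := τ • g) e' (by
    filter_upwards [G.eventually_mem hX0 (small_r X0 g),
      ((C.continuous_q.tendsto X0).comp (small_r X0 g)).eventually (gt_mem_nhds hq)] with ε h1 h2
    have := hnn _ h1 h2 τ hτ
    rwa [show F + τ • (X0 + ε • g - F) = F + τ • (X0 - F) + ε • τ • g by module] at this)
  rw [← hg, dot_smul_r, dot_self] at this
  rw [← hg]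
  by_contra hg0
  have := mul_pos hτ0 (pow_pos (norm_pos_iff.2 hg0) 2)
  linarith

lemma ws_of_pos (pos : ∀ X ∈ D, 0 < ff M d Y w F X → 0 ≤ C.q X) : WS M D d Y w F C := by
  refine ⟨hin, fun X hX h1 => ?_, fun X hX h1 => ?_⟩
  · rcases h1.eq_or_lt with h2 | h2
    · exact ((cut X hX).1 h2).le
    · exact (H.loc_neg hD ho hc hY hF h cut hin X hX h2).le
  · rcases h1.eq_or_lt with h2 | h2
    · exact ((cut X hX).1 h2.symm).ge
    · exact pos X hX h2

lemma ws_of_neg : ∃ C', WS M D d Y w F C' := by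
  by_cases pos : ∀ X ∈ D, 0 < ff M d Y w F X → 0 ≤ C.q X
  · exact ⟨C, H.ws_of_pos hD ho hc hY hF h cut hin pos⟩
  simp only [not_forall, not_le] at pos
  obtain ⟨X0, hX0, hp, hq⟩ := pos
  have hne : X0 - F ≠ 0 := by
    intro e
    rw [sub_eq_zero.1 e] at hp
    linarith [H.ff_focus hY (hD hF) h]
  have T := small_r X0 (Complex.I * (X0 - F))
  have cf : ContinuousAt (ff M d Y w F) X0 :=
    (H.ff_continuousOn hY (hD hF)).continuousAt (H.isOpen.mem_nhds (hD hX0))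
  obtain ⟨ε, b1, b2, b3, b4⟩ := ((T.eventually (ho.mem_nhds hX0)).and (((cf.tendsto.comp T).eventually
    (lt_mem_nhds hp)).and ((((C.continuous_q.tendsto X0).comp T).eventually (gt_mem_nhds hq)).and
      self_mem_nhdsWithin))).exists
  have hε : 0 < ε := b4
  obtain ⟨τ0, t0, z0, g0⟩ := H.loc_sing hD ho hc hY hF h cut hin hX0 hp hq
  obtain ⟨τ1, t1, z1, g1⟩ := H.loc_sing hD ho hc hY hF h cut hin b1 b2 b3
  obtain ⟨Z, hZ⟩ : ∃ Z, Z = F + τ0 • (X0 - F) := ⟨_, rfl⟩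
  obtain ⟨v, hv⟩ : ∃ v, v = F + τ1 • (X0 + ε • (Complex.I * (X0 - F)) - F) - Z := ⟨_, rfl⟩
  have eZ : F + τ1 • (X0 + ε • (Complex.I * (X0 - F)) - F) = Z + v := by rw [hv]; abel
  rw [eZ] at z1 g1
  rw [← hZ] at z0 g0
  have hq' : ∀ u, C.q (Z + u) = C.A.ev u := fun u => by rw [C.q_add, z0, g0]; simp
  have av : C.A.ap v = 0 := by
    rw [C.grad_add, g0, zero_add] at g1
    exact (smul_eq_zero.1 g1).resolve_left two_ne_zero
  rw [hq'] at z1
  have hcr : cr v (F - Z) ≠ 0 := by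
    have e1 : v = (τ1 - τ0) • (X0 - F) + (τ1 * ε) • (Complex.I * (X0 - F)) := by
      rw [hv, hZ]; module
    have e2 : F - Z = (-τ0) • (X0 - F) := by rw [hZ]; module
    have e3 : cr (Complex.I * (X0 - F)) (X0 - F) = -‖X0 - F‖ ^ 2 := by
      rw [← dot_self]; generalize X0 - F = u; simp [cr, dot]; ring
    rw [e1, e2]
    simp only [cr_add_l, cr_smul_l, cr_smul_r, cr_self, e3, mul_zero, zero_add]
    have := norm_pos_iff.2 hne
    have : 0 < τ0 * (τ1 * ε * ‖X0 - F‖ ^ 2) := by positivity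
    intro e; linarith
  have qF : C.A.ev (F - Z) ≠ 0 := by rw [← hq', add_sub_cancel]; exact hin.ne
  have form : ∀ X, C.q X = (cr v (X - Z) / cr v (F - Z)) ^ 2 * C.A.ev (F - Z) := by
    intro X
    have e := decomp hcr (X - Z)
    have e2 : C.q X = C.A.ev (X - Z) := by rw [← hq', add_sub_cancel]
    have e3 : ∀ s : ℝ, C.A.ap (s • v) = 0 := fun s => by
      have : C.A.ap (s • v) = s • C.A.ap v := by
        apply Complex.ext <;> simp [QF.ap, Complex.smul_re, Complex.smul_im] <;> ring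
      rw [this, av, smul_zero]
    rw [e2]
    conv_lhs => rw [e]
    rw [QF.ev_add, e3, QF.ev_smul, QF.ev_smul, z1]; simp
  obtain ⟨C', hC', hg'⟩ : ∃ C' : Con, (∀ X, C'.q X = -(cr v (X - Z) / cr v (F - Z))) ∧
      ∀ X, C'.grad X ≠ 0 := by
    refine ⟨⟨⟨0, 0, 0⟩, (cr v (F - Z))⁻¹ • (⟨v.im, -v.re⟩ : ℂ), cr v Z / cr v (F - Z)⟩, fun X => ?_,
      fun X e => ?_⟩
    · simp only [Con.q, QF.ev, dot_smul_l, cr_sub_r v X Z]
      generalize cr v (F - Z) = c at hcr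
      simp only [dot, cr]; field_simp; ring
    · have e1 : (cr v (F - Z))⁻¹ • (⟨v.im, -v.re⟩ : ℂ) = 0 := by
        have : (⟨0, 0, 0⟩ : QF).ap X = 0 := by apply Complex.ext <;> simp [QF.ap]
        simpa [Con.grad, this] using e
      have e2 := (smul_eq_zero.1 e1).resolve_left (inv_ne_zero hcr)
      have e3 : v = 0 := Complex.ext (by simpa using congrArg Complex.im e2)
        (by simpa using congrArg Complex.re e2)
      rw [e3] at hcr; simp at hcr
  have cut' : ∀ X ∈ D, ff M d Y w F X = 0 ↔ C'.q X = 0 := fun X hX => by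
    rw [cut X hX, form, hC', neg_eq_zero, mul_eq_zero, pow_eq_zero_iff two_ne_zero]
    exact ⟨fun e => e.resolve_right qF, Or.inl⟩
  have hin' : C'.q F < 0 := by rw [hC', div_self hcr]; norm_num
  refine ⟨C', H.ws_of_pos hD ho hc hY hF h cut' hin' fun X hX hp' => ?_⟩
  by_contra hn
  obtain ⟨τ, -, -, g⟩ := H.loc_sing hD ho hc hY hF h cut' hin' hX hp' (not_le.1 hn)
  exact hg' _ g

end eqn

lemma ws_of_eq {C : Con} (hD : D ⊆ M) (ho : IsOpen D) (hc : Convex ℝ D) (hY : Y ∈ M) (hF : F ∈ D)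
    (h : cr w (F - Y) ≠ 0) (hC : ∀ X ∈ D, (d X F = dl M d Y w X ↔ C.q X = 0)) :
    ∃ C', WS M D d Y w F C' := by
  have cut : ∀ X ∈ D, ff M d Y w F X = 0 ↔ C.q X = 0 := fun X hX => by
    rw [← hC X hX, ff, sub_eq_zero]
  have hne : C.q F ≠ 0 := fun e => (H.ff_focus hY (hD hF) h).ne ((cut F hF).2 e)
  rcases lt_or_gt_of_ne hne with h1 | h1
  · exact H.ws_of_neg hD ho hc hY hF h cut h1
  · exact H.ws_of_neg (C := C.neg) hD ho hc hY hF h
      (fun X hX => by rw [cut X hX, C.neg_q, neg_eq_zero]) (by rw [C.neg_q]; linarith)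

lemma small {O : ℂ} (hO : O ∈ M) {U : Set ℂ} (hU : U ∈ 𝓝 O) : ∃ m δ : ℝ, 0 < m ∧ 0 < δ ∧
    Metric.ball O δ ⊆ U ∧ Metric.ball O δ ⊆ M ∧ (∀ X ∈ Metric.ball O δ, d O X < m / 8) ∧
    ∀ X ∈ Metric.ball O δ, ∀ r, r ≤ 3 * m / 4 → IsCompact {Z | Z ∈ M ∧ d X Z ≤ r} ∧
      {Z | Z ∈ M ∧ d X Z ≤ r} ⊆ U := by
  obtain ⟨R, hR, hb⟩ := Metric.nhds_basis_closedBall.mem_iff.1 (inter_mem (H.isOpen.mem_nhds hO) hU)
  obtain ⟨m, hm, hfar⟩ := H.far hO hR
  have T := H.tendsto hO hO (tendsto_const_nhds (f := 𝓝 O)) tendsto_id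
  rw [H.refl O hO] at T
  obtain ⟨δ, hδ, hD⟩ := Metric.eventually_nhds_iff_ball.1
    ((T.eventually (gt_mem_nhds (show 0 < m / 8 by linarith))).and
      (inter_mem (H.isOpen.mem_nhds hO) hU))
  refine ⟨m, δ, hm, hδ, fun X hX => (hD X hX).2.2, fun X hX => (hD X hX).2.1,
    fun X hX => (hD X hX).1, fun X hX r hr => ?_⟩
  have hXM := (hD X hX).2.1
  have e : {Z | Z ∈ M ∧ d X Z ≤ r} = {Z ∈ Metric.closedBall O R | d X Z ≤ r} := by
    ext Z
    refine ⟨fun h => ⟨?_, h.2⟩, fun h => ⟨(hb h.1).1, h.2⟩⟩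
    rw [mem_closedBall_iff_norm]
    by_contra hc
    have := (hD X hX).1
    simp only [id] at this
    linarith [hfar Z h.1 (not_le.1 hc).le, H.tri O hO X hXM Z h.1, h.2]
  rw [e]
  exact ⟨(isCompact_closedBall O R).of_isClosed_subset (Metric.isClosed_closedBall.isClosed_le
    (H.continuousOn continuousOn_const continuousOn_id (fun _ _ => hXM) fun _ hz => (hb hz).1)
    continuousOn_const) (sep_subset _ _), fun Z hZ => (hb hZ.1).2⟩

lemma exists_foot {X : ℂ} (hX : X ∈ M) (hY : Y ∈ M) (hw : w ≠ 0)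
    (hK : IsCompact {Z | Z ∈ M ∧ d X Z ≤ d X Y}) :
    ∃ s : ℝ, Y + s • w ∈ M ∧ d X (Y + s • w) = dl M d Y w X := by
  obtain ⟨Z, ⟨hZ, hc⟩, hmin⟩ := (hK.inter_right (t := {Z | cr w (Z - Y) = 0})
    (isClosed_eq (by fun_prop) continuous_const)).exists_isMinOn (f := fun Z => d X Z)
    ⟨Y, ⟨hY, le_rfl⟩, by simp⟩
    (H.continuousOn continuousOn_const continuousOn_id (fun _ _ => hX) fun _ hz => hz.1.1)
  obtain ⟨s, hs⟩ := exists_smul_of_cr hw hc
  have e : Y + s • w = Z := by rw [← hs]; abel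
  refine ⟨s, e ▸ hZ.1, le_antisymm (le_dl hY fun t ht => ?_) (H.dl_le hX (e ▸ hZ.1))⟩
  rw [e]
  rcases le_total (d X (Y + t • w)) (d X Y) with h1 | h1
  · exact hmin (a := Y + t • w) ⟨⟨ht, h1⟩, by simp⟩
  · exact hZ.2.trans h1

lemma dl_tendsto {ι : Type*} (U : Ultrafilter ι) {X : ℂ} {Yi wi : ι → ℂ} (hX : X ∈ M) (hY : Y ∈ M)
    (hw : w ≠ 0) (hK : IsCompact {Z | Z ∈ M ∧ d X Z ≤ d X Y}) (TY : Tendsto Yi U (𝓝 Y))
    (Tw : Tendsto wi U (𝓝 w)) :
    Tendsto (fun i => dl M d (Yi i) (wi i) X) U (𝓝 (dl M d Y w X)) := by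
  have hne : ∀ {Y' w' : ℂ}, Y' ∈ M →
      ((fun s : ℝ => d X (Y' + s • w')) '' {s | Y' + s • w' ∈ M}).Nonempty :=
    fun h => ⟨_, 0, by simpa using h, rfl⟩
  rw [tendsto_order]
  constructor
  · intro b hb
    obtain ⟨c, h1, h2⟩ := exists_between hb
    rcases U.em (fun i => c ≤ dl M d (Yi i) (wi i) X) with h | h
    · exact h.mono fun i hi => h1.trans_le hi
    exfalso
    have h3 : dl M d Y w X ≤ d X Y := by
      simpa using H.dl_le (Y := Y) (w := w) (s := 0) hX (by simpa using hY)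
    have hex : ∀ i, ∃ s : ℝ, Yi i ∈ M → dl M d (Yi i) (wi i) X < c →
        Yi i + s • wi i ∈ M ∧ d X (Yi i + s • wi i) < c := by
      intro i
      by_cases hi : Yi i ∈ M ∧ dl M d (Yi i) (wi i) X < c
      · obtain ⟨_, ⟨s, hs, rfl⟩, hlt⟩ := exists_lt_of_csInf_lt (hne hi.1) hi.2
        exact ⟨s, fun _ _ => ⟨hs, hlt⟩⟩
      · exact ⟨0, fun a b => absurd ⟨a, b⟩ hi⟩
    choose s hs using hex
    have ev : ∀ᶠ i in (U : Filter ι), Yi i + s i • wi i ∈ M ∧ d X (Yi i + s i • wi i) < c := by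
      filter_upwards [h, H.eventually_mem hY TY] with i a1 a2
      exact hs i a2 (not_le.1 a1)
    obtain ⟨Z, hZ, T⟩ := ultra_lim U hK (f := fun i => Yi i + s i • wi i)
      (ev.mono fun i hi => ⟨hi.1, by linarith [hi.2]⟩)
    have c1 : cr w (Z - Y) = 0 := by
      have := tendsto_cr Tw (T.sub TY)
      simp only [add_sub_cancel_left, cr_smul_r, cr_self, mul_zero] at this
      exact tendsto_nhds_unique this tendsto_const_nhds
    obtain ⟨t, ht⟩ := exists_smul_of_cr hw c1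
    have e : Y + t • w = Z := by rw [← ht]; abel
    have c2 : d X Z ≤ c := le_of_tendsto (H.tendsto hX hZ.1 tendsto_const_nhds T)
      (ev.mono fun i hi => hi.2.le)
    have := H.dl_le (Y := Y) (w := w) hX (e ▸ hZ.1)
    rw [e] at this
    linarith
  · intro b hb
    obtain ⟨_, ⟨s, hs, rfl⟩, hlt⟩ := exists_lt_of_csInf_lt (hne hY) hb
    have T := TY.add (Tw.const_smul s)
    filter_upwards [H.eventually_mem hs T,
      (H.tendsto hX hs tendsto_const_nhds T).eventually (gt_mem_nhds hlt)] with i a1 a2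
    exact (H.dl_le hX a1).trans_lt a2

/-- A ray from the focus crosses the conic. -/
lemma crossing (hs : Strict M d) (hY : Y ∈ M) (hF : F ∈ M) (h : cr w (F - Y) ≠ 0) {v : ℂ} {s t : ℝ}
    (ht : F + t • v ∈ M) (h0 : 0 ≤ s) (hst : s < t)
    (hK : IsCompact {Z | Z ∈ M ∧ d (F + s • v) Z ≤ d (F + s • v) Y})
    (hz : ff M d Y w F (F + s • v) = 0) : 0 < ff M d Y w F (F + t • v) := by
  have hw : w ≠ 0 := by rintro rfl; simp at h
  have hX := H.ray_mem hF ht h0 hst.le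
  have hv : v ≠ 0 := by
    rintro rfl
    rw [smul_zero, add_zero] at hz
    exact (H.ff_focus hY hF h).ne hz
  obtain ⟨r, hr, e⟩ := H.exists_foot hX hY hw hK
  apply H.ff_pos_of_lt ht hr
  obtain ⟨Z, hZ⟩ : ∃ Z, Z = Y + r • w := ⟨_, rfl⟩
  have hZF : Z ≠ F := by
    intro e'
    apply h
    rw [← e', hZ]; simp
  rw [← hZ] at hr e ⊢
  have a1 : d (F + s • v) Z = d (F + s • v) F := by rw [e]; simp only [ff] at hz; linarith
  have a2 := H.ray_add hF ht h0 hst.le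
  have a3 := H.symm _ ht _ hF
  have a4 := H.symm _ hX _ hF
  have a5 := H.symm _ ht _ hX
  by_cases hcr : cr (F + s • v - (F + t • v)) (Z - (F + t • v)) = 0
  · have e1 : F + s • v - (F + t • v) = (s - t) • v := by module
    rw [e1, cr_smul_l, mul_eq_zero] at hcr
    obtain ⟨a, ha⟩ := exists_smul_of_cr hv (hcr.resolve_left (by linarith))
    have eZ : Z = F + (t + a) • v := by rw [add_smul, ← add_assoc, ← ha]; abel
    generalize t + a = b at eZ
    have p1 : 0 < d (F + s • v) (F + t • v) := H.pos _ hX _ ht fun e =>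
      absurd (smul_left_injective ℝ hv (add_left_cancel e)) hst.ne
    have p0 : 0 < d (F + s • v) F := by
      have := H.dl_pos hY hF h
      have b1 := H.dl_lip (w := w) hY hF hX
      simp only [ff] at hz
      linarith
    rw [eZ] at hr a1 hZF ⊢
    rcases le_total b s with h1 | h1
    · exfalso
      rcases lt_trichotomy b 0 with h2 | h2 | h2
      · have := H.line_add (x := F) (v := v) (r := b) (s := 0) (t := s) hr hX h2.le h0
        rw [zero_smul, add_zero] at this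
        linarith [H.symm _ hr _ hX, H.pos _ hr _ hF hZF]
      · rw [h2] at hZF; simp at hZF
      · have := H.ray_add hF hX h2.le h1
        linarith [H.symm _ hr _ hX, H.pos _ hF _ hr hZF.symm]
    · rcases le_total b t with h2 | h2
      · have := H.line_add (x := F) (v := v) hX ht h1 h2
        linarith [H.symm _ hr _ ht, H.nonneg hX hr]
      · have := H.line_add (x := F) (v := v) hX hr hst.le h2
        linarith
  · linarith [hs _ ht _ hX _ hr hcr]

end PM0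

/-- The triples `(p, q, F)` whose conic agrees in `U` with a quadric. -/
def Good (M U : Set ℂ) (d : ℂ → ℂ → ℝ) : Set (ℂ × ℂ × ℂ) :=
  {t | ∃ C : Con, ∀ X ∈ U, (d X t.2.2 = dl M d t.1 (t.2.1 - t.1) X ↔ C.q X = 0)}

def LQ (M : Set ℂ) (d : ℂ → ℂ → ℝ) : Prop :=
  ∀ O ∈ M, ∃ U ∈ 𝓝 O, U ×ˢ U ×ˢ U ⊆ closure (Good M U d)

theorem PM0.pw {M : Set ℂ} {d : ℂ → ℂ → ℝ} (H : PM0 M d) (hs : Strict M d) (hq : LQ M d) {O : ℂ}
    (hO : O ∈ M) : ∃ D, O ∈ D ∧ PW M D d := by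
  obtain ⟨U, hU, hcl⟩ := hq O hO
  obtain ⟨m, δ, hm, hδ, s1, s2, near, cpt⟩ := H.small hO hU
  obtain ⟨D, hD⟩ : ∃ D, D = Metric.ball O δ := ⟨_, rfl⟩
  have ho : IsOpen D := hD ▸ Metric.isOpen_ball
  have hc : Convex ℝ D := hD ▸ convex_ball O δ
  have hOD : O ∈ D := hD ▸ Metric.mem_ball_self hδ
  rw [← hD] at s1 s2 near cpt
  have G := H.restrict s2 ho hc
  have K : ∀ X ∈ D, ∀ Y ∈ D, IsCompact {Z | Z ∈ M ∧ d X Z ≤ d X Y} := fun X hX Y hY =>
    (cpt X hX _ (by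
      linarith [H.tri X (s2 hX) O hO Y (s2 hY), H.symm X (s2 hX) O hO, near X hX, near Y hY])).1
  refine ⟨D, hOD, H, hs, s2, ho, hc, fun Y hY w0 F hF h0 => ?_⟩
  obtain ⟨ε, e1, e2⟩ := ((G.eventually_mem hY (small_r Y w0)).and self_mem_nhdsWithin).exists
  have hε : 0 < ε := e2
  obtain ⟨w, hw⟩ : ∃ w, w = ε • w0 := ⟨_, rfl⟩
  have h : cr w (F - Y) ≠ 0 := by rw [hw, cr_smul_l]; exact mul_ne_zero hε.ne' h0
  have hw0 : w ≠ 0 := by rintro rfl; simp at h
  suffices ∃ C, WS M D d Y w F C by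
    obtain ⟨C, hC⟩ := this
    have e : ∀ X, ff M d Y w F X = ff M d Y w0 F X := fun X => by rw [ff, ff, hw, dl_smul _ _ _ _ _ hε.ne']
    exact ⟨C, hC.foc, fun X hX a => hC.le X hX (e X ▸ a), fun X hX a => hC.ge X hX (e X ▸ a)⟩
  rw [← hw] at e1
  have hmem : (Y, Y + w, F) ∈ closure (Good M U d) := hcl ⟨s1 hY, s1 e1, s1 hF⟩
  have := mem_closure_iff_nhdsWithin_neBot.1 hmem
  obtain ⟨V, hV⟩ : ∃ V : Ultrafilter (ℂ × ℂ × ℂ), (V : Filter _) ≤ 𝓝[Good M U d] (Y, Y + w, F) :=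
    ⟨Ultrafilter.of _, Ultrafilter.of_le _⟩
  have T0 : Tendsto id (V : Filter _) (𝓝 (Y, Y + w, F)) := hV.trans nhdsWithin_le_nhds
  have TY : Tendsto (fun t : ℂ × ℂ × ℂ => t.1) V (𝓝 Y) := (continuous_fst.tendsto _).comp T0
  have TF : Tendsto (fun t : ℂ × ℂ × ℂ => t.2.2) V (𝓝 F) :=
    ((continuous_snd.comp continuous_snd).tendsto _).comp T0
  have Tw : Tendsto (fun t : ℂ × ℂ × ℂ => t.2.1 - t.1) V (𝓝 w) := by
    have := (((continuous_fst.comp continuous_snd).tendsto _).comp T0).sub TY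
    simpa using this
  have hex : ∀ t : ℂ × ℂ × ℂ, ∃ C : Con, t ∈ Good M U d → t.1 ∈ D → t.2.2 ∈ D →
      cr (t.2.1 - t.1) (t.2.2 - t.1) ≠ 0 → WS M D d t.1 (t.2.1 - t.1) t.2.2 C := by
    intro t
    by_cases ht : t ∈ Good M U d ∧ t.1 ∈ D ∧ t.2.2 ∈ D ∧ cr (t.2.1 - t.1) (t.2.2 - t.1) ≠ 0
    · obtain ⟨⟨C, hC⟩, a1, a2, a3⟩ := ht
      obtain ⟨C', hC'⟩ := H.ws_of_eq s2 ho hc (s2 a1) a2 a3 fun X hX => hC X (s1 hX)
      exact ⟨C', fun _ _ _ _ => hC'⟩
    · exact ⟨Classical.arbitrary _, fun a b c e => absurd ⟨a, b, c, e⟩ ht⟩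
  choose C hC using hex
  have ev : ∀ᶠ t in (V : Filter (ℂ × ℂ × ℂ)), t.1 ∈ D ∧ t.2.2 ∈ D ∧
      cr (t.2.1 - t.1) (t.2.2 - t.1) ≠ 0 ∧ WS M D d t.1 (t.2.1 - t.1) t.2.2 (C t) := by
    filter_upwards [hV self_mem_nhdsWithin, G.eventually_mem hY TY, G.eventually_mem hF TF,
      (tendsto_cr Tw (TF.sub TY)).eventually_ne h] with t a0 a1 a2 a3
    exact ⟨a1, a2, a3, hC t a0 a1 a2 a3⟩
  have Tff : ∀ X ∈ D, Tendsto (fun t : ℂ × ℂ × ℂ => ff M d t.1 (t.2.1 - t.1) t.2.2 X) V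
      (𝓝 (ff M d Y w F X)) := fun X hX =>
    (H.tendsto (s2 hX) (s2 hF) tendsto_const_nhds TF).sub
      (H.dl_tendsto V (s2 hX) (s2 hY) hw0 (K X hX Y hY) TY Tw)
  have cont : ∀ {Y' w' F' X : ℂ}, Y' ∈ D → F' ∈ D → X ∈ D → ContinuousAt (ff M d Y' w' F') X :=
    fun a b c => (H.ff_continuousOn (s2 a) (s2 b)).continuousAt (H.isOpen.mem_nhds (s2 c))
  have posY : ∀ {Y' w' F' : ℂ}, Y' ∈ D → F' ∈ D → cr w' (F' - Y') ≠ 0 →
      ∀ᶠ Z in 𝓝 Y', Z ∈ D ∧ 0 < ff M d Y' w' F' Z := by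
    intro Y' w' F' a b c
    have := H.ff_line (s2 b) c (s := 0) (by simpa using s2 a)
    rw [zero_smul, add_zero] at this
    exact (ho.eventually_mem a).and ((cont a b a).tendsto.eventually (lt_mem_nhds this))
  obtain ⟨Q, q0, hQ⟩ := con_limit V C F (fun _ => 1) (by
    filter_upwards [ev, (Tff F hF).eventually (gt_mem_nhds (H.ff_focus (s2 hY) (s2 hF) h))]
      with t ⟨a1, a2, a3, a4⟩ a5
    refine (Con.neg_of_sep (Y := t.1) (Con.nz_of_ne a4.foc.ne) ?_ ?_).ne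
    · filter_upwards [ho.eventually_mem hF, (cont a1 a2 hF).tendsto.eventually (gt_mem_nhds a5)]
        with Z b1 b2
      exact a4.le Z b1 b2.le
    · exact (posY a1 a2 a3).mono fun Z b => a4.ge Z b.1 b.2.le)
  simp only [one_smul] at hQ
  obtain ⟨Q', hQ'⟩ : ∃ Q' : Con, ∀ X, Q'.q X = Q.q (X - F) := by
    refine ⟨⟨Q.A, Q.grad (-F), Q.q (-F)⟩, fun X => ?_⟩
    rw [show X - F = -F + X by abel, Q.q_add]; simp only [Con.q]; ring
  have q0' : ¬ ((∀ v, Q'.A.ev v = 0) ∧ Q'.l = 0 ∧ Q'.k = 0) := by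
    rintro ⟨h1, h2, h3⟩
    have all : ∀ W, Q.q W = 0 := fun W => by
      have := hQ' (W + F)
      rw [add_sub_cancel_right] at this
      rw [← this]; simp [Con.q, h1, h2, h3]
    have := Con.neg_of_sep q0 (X := 0) (Y := 0) (Eventually.of_forall fun Z => (all Z).le)
      (Eventually.of_forall fun Z => (all Z).ge)
    exact this.ne (all 0)
  have lt : ∀ X ∈ D, ff M d Y w F X < 0 → Q'.q X ≤ 0 := by
    intro X hX hn
    rw [hQ']
    apply (hQ _ (fun _ => X - F) tendsto_const_nhds).1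
    filter_upwards [ev, (Tff X hX).eventually (gt_mem_nhds hn)] with t a b
    rw [add_sub_cancel]; exact a.2.2.2.le X hX b.le
  have gt : ∀ X ∈ D, 0 < ff M d Y w F X → 0 ≤ Q'.q X := by
    intro X hX hn
    rw [hQ']
    apply (hQ _ (fun _ => X - F) tendsto_const_nhds).2
    filter_upwards [ev, (Tff X hX).eventually (lt_mem_nhds hn)] with t a b
    rw [add_sub_cancel]; exact a.2.2.2.ge X hX b.le
  refine ⟨Q', Con.neg_of_sep (Y := Y) q0' ?_ ((posY hY hF h).mono fun Z b => gt Z b.1 b.2),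
    fun X hX h1 => ?_, fun X hX h1 => ?_⟩
  · filter_upwards [ho.eventually_mem hF, (cont hY hF hF).tendsto.eventually
      (gt_mem_nhds (H.ff_focus (s2 hY) (s2 hF) h))] with Z b1 b2
    exact lt Z b1 b2
  · rcases h1.eq_or_lt with h2 | h2
    · refine le_of_tendsto ((Q'.continuous_q.tendsto X).comp (small_r X (F - X))) ?_
      filter_upwards [Ioo_mem_nhdsGT (zero_lt_one' ℝ)] with t ht
      have e : X + t • (F - X) = F + (1 - t) • (X - F) := by module
      have m1 : F + (1 : ℝ) • (X - F) ∈ D := by simpa using hX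
      have m2 := G.ray_mem hF m1 (s := 1 - t) (by linarith [ht.2]) (by linarith [ht.1])
      simp only [Function.comp_apply, e]
      refine lt _ m2 (lt_of_le_of_ne ?_ fun e0 => ?_)
      · have := H.ff_mono (w := w) (s2 hY) (s2 hF) (s2 m1) (s := 1 - t) (by linarith [ht.2])
          (by linarith [ht.1])
        rwa [one_smul, add_sub_cancel, h2] at this
      · have := H.crossing hs (s2 hY) (s2 hF) h (s2 m1) (s := 1 - t) (by linarith [ht.2])
          (by linarith [ht.1]) (K _ m2 Y hY) e0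
        rw [one_smul, add_sub_cancel, h2] at this
        exact lt_irrefl _ this
    · exact lt X hX h2
  · rcases h1.eq_or_lt with h2 | h2
    · refine ge_of_tendsto ((Q'.continuous_q.tendsto X).comp (small_r X (X - F))) ?_
      filter_upwards [G.eventually_mem hX (small_r X (X - F)), self_mem_nhdsWithin] with t m2 ht
      have ht0 : 0 < t := ht
      have e : X + t • (X - F) = F + (1 + t) • (X - F) := by module
      have e1 : F + (1 : ℝ) • (X - F) = X := by simp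
      simp only [Function.comp_apply]
      refine gt _ m2 ?_
      rw [e] at m2 ⊢
      exact H.crossing hs (s2 hY) (s2 hF) h (s2 m2) zero_le_one (by linarith)
        (by rw [e1]; exact K X hX Y hY) (by rw [e1]; exact h2.symm)
    · exact gt X hX h2

end Pool.Agent.P.MP_ec5bc9_gt.H13
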