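import Pool.Agent.P.MP_ec5bc9_gt.L1

/-! Weak local separation by quadrics gives convex small balls, unique perpendiculars and a
Euclidean blow-up.  The proofs follow G1, G2, G3, G5. -/

set_option autoImplicit false

namespace Pool.Agent.P.MP_ec5bc9_gt.H13

open Set Filter Topology

attribute [-simp] Complex.real_smul

lemma WS.lt {M D : Set ℂ} {d : ℂ → ℂ → ℝ} {Y w F : ℂ} {C : Con} (S : WS M D d Y w F C) {X : ℂ}
    (hX : X ∈ D) (h : C.q X < 0) : ff M d Y w F X < 0 :=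
  not_le.1 fun h' => absurd (S.ge X hX h') (not_le.2 h)

namespace PW
variable {M D : Set ℂ} {d : ℂ → ℂ → ℝ} (H : PW M D d)
include H

lemma loc : PM0 D d := H.toPM0.restrict H.sub H.opn H.cvx

lemma mono {D' : Set ℂ} (h : D' ⊆ D) (ho : IsOpen D') (hc : Convex ℝ D') : PW M D' d :=
  ⟨H.toPM0, H.strict, h.trans H.sub, ho, hc, fun Y hY w F hF hcr => by
    obtain ⟨C, S⟩ := H.ws Y (h hY) w F (h hF) hcr
    exact ⟨C, S.foc, fun X hX => S.le X (h hX), fun X hX => S.ge X (h hX)⟩⟩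

/-- Between two nearest points of a line there is no farther point. -/
lemma two_feet {X Y w : ℂ} {r s1 s2 : ℝ} (hXD : X ∈ D) (hYD : Y ∈ D) (hc : cr w (X - Y) ≠ 0)
    (hr : 0 < r) (h1 : s1 < 0) (h2 : 0 < s2) (m1 : Y + s1 • w ∈ M) (m2 : Y + s2 • w ∈ M)
    (hge : ∀ s : ℝ, Y + s • w ∈ M → r ≤ d X (Y + s • w)) (d1 : d X (Y + s1 • w) ≤ r)
    (d2 : d X (Y + s2 • w) ≤ r) (hlt : r < d X Y) : False := by
  have hX := H.sub hXD
  have hY := H.sub hYD
  have hcont : ContinuousOn (fun τ : ℝ => d X (X + τ • (Y - X))) (Icc 0 1) :=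
    H.continuousOn continuousOn_const (by fun_prop) (fun _ _ => hX)
      (fun τ hτ => H.seg_mem hX hY hτ.1 hτ.2)
  obtain ⟨τ, hτ, e⟩ := intermediate_value_Icc (zero_le_one' ℝ) hcont
    (show r ∈ Icc _ _ from ⟨by simpa [H.refl X hX] using hr.le, by simpa using hlt.le⟩)
  simp only at e
  have hτ0 : 0 < τ := lt_of_le_of_ne hτ.1 (by
    rintro rfl; simp [H.refl X hX] at e; linarith)
  have hτ1 : τ < 1 := lt_of_le_of_ne hτ.2 (by rintro rfl; simp at e; linarith)
  obtain ⟨F, hFd⟩ : ∃ F, F = X + τ • (Y - X) := ⟨_, rfl⟩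
  have hFD : F ∈ D := hFd ▸ H.loc.seg_mem hXD hYD hτ.1 hτ.2
  have hF := H.sub hFD
  rw [← hFd] at e
  have hcF : cr w (F - Y) ≠ 0 := by
    rw [show F - Y = (1 - τ) • (X - Y) by rw [hFd]; module, cr_smul_r]
    exact mul_ne_zero (by linarith) hc
  obtain ⟨C, S⟩ := H.ws Y hYD w F hFD hcF
  have hdl : dl M d Y w X = r :=
    le_antisymm ((H.dl_le hX m1).trans d1) (PM0.le_dl hY hge)
  have f0 : ff M d Y w F X = 0 := by rw [ff, hdl, e, sub_self]
  have q0 : C.q X = 0 := le_antisymm (S.le X hXD f0.le) (S.ge X hXD f0.ge)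
  have up : ∀ s : ℝ, Y + s • w ∈ M → d X (Y + s • w) ≤ r →
      0 ≤ dot (C.grad X) (Y + s • w - X) := by
    intro s hs hd
    refine C.slope_nonneg q0 ?_
    filter_upwards [Ioo_mem_nhdsGT (zero_lt_one' ℝ),
      H.loc.eventually_mem hXD (small_r X (Y + s • w - X))] with t ht hmD
    have hm := H.seg_mem hX hs ht.1.le ht.2.le
    refine S.ge _ hmD ?_
    rw [ff]
    linarith [H.add X hX _ hs t ⟨ht.1.le, ht.2.le⟩, H.dl_le (Y := Y) (w := w) hm hs,
      H.tri X hX _ hm F hF]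
  have down : dot (C.grad X) (Y - X) ≤ 0 := by
    refine C.slope_nonpos q0 ?_
    filter_upwards [Ioo_mem_nhdsGT hτ0] with t ht
    have e1 : F + τ • (X - Y) = X := by rw [hFd]; module
    have e2 : F + (τ - t) • (X - Y) = X + t • (Y - X) := by rw [hFd]; module
    have a := H.ff_mono (w := w) hY hF (v := X - Y) (s := τ - t) (t := τ) (by rwa [e1])
      (by linarith [ht.2]) (by linarith [ht.1])
    rw [e1, e2, f0] at a
    exact S.le _ (H.loc.seg_mem hXD hYD ht.1.le (by linarith [ht.2])) a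
  have u1 := up s1 m1 d1
  have u2 := up s2 m2 d2
  rw [show Y + s1 • w - X = (Y - X) + s1 • w by abel, dot_add_r, dot_smul_r] at u1
  rw [show Y + s2 • w - X = (Y - X) + s2 • w by abel, dot_add_r, dot_smul_r] at u2
  have gw : dot (C.grad X) w = 0 := by
    rcases lt_trichotomy (dot (C.grad X) w) 0 with h | h | h
    · nlinarith
    · exact h
    · nlinarith
  rw [gw] at u1
  have g0 : C.grad X = 0 := eq_zero_of_dot hc gw (by rw [← neg_sub, dot_neg_r]; linarith)
  have a1 : C.q F = τ ^ 2 * C.A.ev (Y - X) := by rw [hFd, C.q_ray, q0, g0]; simp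
  have a2 : C.q Y = C.A.ev (Y - X) := by
    have := C.q_add X (Y - X)
    rw [add_sub_cancel, q0, g0] at this
    simpa using this
  have a3 : 0 ≤ C.q Y := by
    have := H.ff_line hF hcF (s := 0) (by simpa using hY)
    rw [zero_smul, add_zero] at this
    exact S.ge Y hYD this.le
  have a4 := S.foc
  rw [a1, ← a2] at a4
  exact absurd a4 (not_lt.2 (by positivity))

/-- Compact balls are convex. -/
lemma ball_convex {X : ℂ} {r : ℝ} (hXD : X ∈ D) (hr : 0 < r)
    (hK : IsCompact {Z | Z ∈ M ∧ d X Z ≤ r}) (hKD : {Z | Z ∈ M ∧ d X Z ≤ r} ⊆ D) {Y1 Y2 : ℂ} (m1 : Y1 ∈ M) (m2 : Y2 ∈ M)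
    (d1 : d X Y1 ≤ r) (d2 : d X Y2 ≤ r) {θ : ℝ} (hθ : θ ∈ Icc (0 : ℝ) 1) :
    d X (Y1 + θ • (Y2 - Y1)) ≤ r := by
  have hX := H.sub hXD
  by_contra hcon
  rw [not_le] at hcon
  obtain ⟨e, he⟩ : ∃ e, e = Y1 + θ • (Y2 - Y1) - X := ⟨_, rfl⟩
  have hXe : X + (1 : ℝ) • e = Y1 + θ • (Y2 - Y1) := by rw [he]; module
  have he0 : e ≠ 0 := by
    intro h
    rw [← hXe, h] at hcon
    simp [H.refl X hX] at hcon; linarith
  have hee : 0 < dot e e := by rw [dot_self]; exact pow_pos (norm_pos_iff.2 he0) 2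
  obtain ⟨⟨A, B, θ0⟩, ⟨⟨hA, hB, hθ0⟩, hcr⟩, hmax⟩ := ((hK.prod (hK.prod (isCompact_Icc
    (a := (0 : ℝ)) (b := 1)))).inter_right (t := {p : ℂ × ℂ × ℝ |
      cr e (p.1 + p.2.2 • (p.2.1 - p.1) - X) = 0})
      (isClosed_eq (by fun_prop) continuous_const)).exists_isMaxOn
    (f := fun p : ℂ × ℂ × ℝ => dot e (p.1 + p.2.2 • (p.2.1 - p.1) - X))
    ⟨(Y1, Y2, θ), ⟨⟨m1, d1⟩, ⟨m2, d2⟩, hθ⟩, by simp only [mem_ofPred_eq, ← he, cr_self]⟩ (by fun_prop)
  simp only [mem_ofPred_eq] at hA hB hθ0 hcr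
  obtain ⟨Y, hYd⟩ : ∃ Y, Y = A + θ0 • (B - A) := ⟨_, rfl⟩
  have hY : Y ∈ M := hYd ▸ H.seg_mem hA.1 hB.1 hθ0.1 hθ0.2
  rw [← hYd] at hcr
  have hm : ∀ U V : ℂ, ∀ τ : ℝ, U ∈ M → d X U ≤ r → V ∈ M → d X V ≤ r → τ ∈ Icc (0 : ℝ) 1 →
      cr e (U + τ • (V - U) - X) = 0 → dot e (U + τ • (V - U) - X) ≤ dot e (Y - X) := by
    intro U V τ a1 a2 a3 a4 a5 a6
    have := hmax (a := (U, V, τ)) ⟨⟨⟨a1, a2⟩, ⟨a3, a4⟩, a5⟩, a6⟩
    rw [hYd]; exact this
  obtain ⟨t, ht⟩ := exists_smul_of_cr he0 hcr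
  have ht1 : 1 ≤ t := by
    have := hm Y1 Y2 θ m1 d1 m2 d2 hθ (by rw [← he, cr_self])
    rw [← he, ht, dot_smul_r] at this
    nlinarith
  have hYe : X + t • e = Y := by rw [← ht]; abel
  have hlt : r < d X Y := by
    have := H.ray_mono hX (hYe ▸ hY) zero_le_one ht1
    rw [hXe, hYe] at this
    linarith
  have h0 : 0 < θ0 := lt_of_le_of_ne hθ0.1 (by
    rintro rfl; rw [zero_smul, add_zero] at hYd; rw [hYd] at hlt; linarith [hA.2])
  have h1 : θ0 < 1 := lt_of_le_of_ne hθ0.2 (by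
    rintro rfl; rw [one_smul, add_sub_cancel] at hYd; rw [hYd] at hlt; linarith [hB.2])
  obtain ⟨w, hw⟩ : ∃ w, w = B - A := ⟨_, rfl⟩
  have eA : A = Y + (-θ0) • w := by rw [hYd, hw]; module
  have eB : B = Y + (1 - θ0) • w := by rw [hYd, hw]; module
  have key : ∀ a b x y : ℝ, a < 0 → 0 < b → 0 ≤ x → 0 ≤ y → 0 < x + y →
      Y + a • w + x • e ∈ M → d X (Y + a • w + x • e) ≤ r → Y + b • w + y • e ∈ M →
      d X (Y + b • w + y • e) ≤ r → False := by
    intro a b x y ha hb hx hy hxy a1 a2 a3 a4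
    have hba : 0 < b - a := by linarith
    have t0 : 0 < -a / (b - a) := div_pos (by linarith) hba
    have t1 : -a / (b - a) < 1 := (div_lt_one hba).2 (by linarith)
    have t2 : -a / (b - a) * (b - a) = -a := div_mul_cancel₀ _ hba.ne'
    generalize -a / (b - a) = τ at t0 t1 t2
    have e1 : Y + a • w + x • e + τ • (Y + b • w + y • e - (Y + a • w + x • e)) - X
        = (Y - X) + ((1 - τ) * x + τ * y) • e := by
      have : a = -(τ * (b - a)) := by linarith
      have e2 : a • w = -(τ * (b - a)) • w := by rw [← this]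
      linear_combination (norm := module) e2
    have := hm _ _ τ a1 a2 a3 a4 ⟨t0.le, t1.le⟩ (by rw [e1, cr_add_r, hcr]; simp)
    rw [e1, dot_add_r, dot_smul_r] at this
    have p : 0 < (1 - τ) * x + τ * y := by
      rcases hx.eq_or_lt with h | h
      · rw [← h] at hxy ⊢; nlinarith
      · nlinarith
    nlinarith
  have hge : ∀ s : ℝ, Y + s • w ∈ M → r ≤ d X (Y + s • w) := by
    intro s hs
    by_contra hc
    rw [not_le] at hc
    obtain ⟨ε, b1, b2, b3⟩ := ((H.eventually_mem hs (small_r _ e)).and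
      (((H.tendsto hX hs tendsto_const_nhds (small_r _ e)).eventually (gt_mem_nhds hc)).and
        self_mem_nhdsWithin)).exists
    have hε : 0 < ε := b3
    rcases lt_trichotomy s 0 with h | h | h
    · exact key s (1 - θ0) ε 0 h (by linarith) hε.le le_rfl (by linarith) b1 b2.le
        (by rw [zero_smul, add_zero, ← eB]; exact hB.1) (by rw [zero_smul, add_zero, ← eB]; exact hB.2)
    · rw [h, zero_smul, add_zero] at hc; linarith
    · exact key (-θ0) s 0 ε (by linarith) h le_rfl hε.le (by linarith)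
        (by rw [zero_smul, add_zero, ← eA]; exact hA.1) (by rw [zero_smul, add_zero, ← eA]; exact hA.2)
        b1 b2.le
  have hw0 : w ≠ 0 := by
    intro h
    rw [h, smul_zero, add_zero] at eA
    rw [← eA] at hlt; linarith [hA.2]
  refine H.two_feet hXD (hYd ▸ H.loc.seg_mem (hKD hA) (hKD hB) hθ0.1 hθ0.2) (w := w) (fun h => ?_) hr (s1 := -θ0) (s2 := 1 - θ0) (by linarith)
    (by linarith) (eA ▸ hA.1) (eB ▸ hB.1) hge (eA ▸ hA.2) (eB ▸ hB.2) hlt
  obtain ⟨s, hs⟩ := exists_smul_of_cr hw0 h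
  have e1 : Y + s • w = X := by rw [← hs]; abel
  have := hge s (e1 ▸ hX)
  rw [e1, H.refl X hX] at this
  linarith

lemma exists_loc {O : ℂ} (hOD : O ∈ D) : ∃ D', O ∈ D' ∧ PW M D' d ∧ Loc M d D' := by
  have hO := H.sub hOD
  obtain ⟨m, δ, hm, hδ, subD, sub, near, cpt⟩ := H.small hO (H.opn.mem_nhds hOD)
  refine ⟨Metric.ball O δ, Metric.mem_ball_self hδ, H.mono subD Metric.isOpen_ball (convex_ball O δ),
    H.toPM0.restrict sub Metric.isOpen_ball (convex_ball O δ), sub, ?_⟩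
  intro X hX Y hY Z hZ hZY hd θ h0 h1
  have hXM := sub hX
  have hYM := sub hY
  have hw : Z - Y ≠ 0 := sub_ne_zero.2 hZY
  have hP := H.seg_mem hYM hZ h0.le h1.le
  have hPY : Y + θ • (Z - Y) ≠ Y := by simp [h0.ne', hw]
  have hPZ : Y + θ • (Z - Y) ≠ Z := by
    intro e
    have : (1 - θ) • (Z - Y) = 0 := by
      rw [show (1 - θ) • (Z - Y) = Z - (Y + θ • (Z - Y)) by module, e, sub_self]
    rcases smul_eq_zero.1 this with h | h
    · linarith
    · exact hw h
  by_cases hc : cr (Z - Y) (X - Y) = 0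
  · obtain ⟨s, hs⟩ := exists_smul_of_cr hw hc
    have eX : X = Y + s • (Z - Y) := by rw [← hs]; abel
    rcases le_total θ s with h | h
    · have := H.ray_add hYM (eX ▸ hXM) h0.le h
      rw [← eX] at this
      linarith [H.pos _ hYM _ hP hPY.symm, H.symm _ hXM _ hYM, H.symm _ hXM _ hP]
    · have := H.line_add (x := Y) (v := Z - Y) (r := s) (s := θ) (t := 1) (eX ▸ hXM)
        (by simpa using hZ) h h1.le
      rw [← eX, one_smul, add_sub_cancel] at this
      linarith [H.pos _ hP _ hZ hPZ]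
  obtain ⟨P, hPd⟩ : ∃ P, P = Y + θ • (Z - Y) := ⟨_, rfl⟩
  rw [← hPd] at hP ⊢
  obtain ⟨ε, b1, b2⟩ := (((small_r X (X - P)).eventually (Metric.isOpen_ball.mem_nhds hX)).and
    self_mem_nhdsWithin).exists
  have hε : 0 < ε := b2
  obtain ⟨X2, hX2⟩ : ∃ X2, X2 = X + ε • (X - P) := ⟨_, rfl⟩
  rw [← hX2] at b1
  have m2 := sub b1
  have a0 : d X2 P = d X2 X + d X P := by
    have e1 : X2 = P + (1 + ε) • (X - P) := by rw [hX2]; module
    have := H.ray_add hP (e1 ▸ m2) zero_le_one (by linarith : (1 : ℝ) ≤ 1 + ε)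
    rw [← e1, one_smul, add_sub_cancel] at this
    linarith [H.symm _ m2 _ hP, H.symm _ m2 _ hXM, H.symm _ hXM _ hP]
  have a1 := H.strict X2 m2 X hXM Y hYM (by
    have e1 : X - X2 = (-ε) • ((X - Y) - θ • (Z - Y)) := by rw [hX2, hPd]; module
    have e2 : Y - X2 = (-(1 + ε)) • (X - Y) + (ε * θ) • (Z - Y) := by rw [hX2, hPd]; module
    rw [e1, e2]
    generalize Z - Y = w at hc
    generalize X - Y = u at hc
    have : cr ((-ε) • (u - θ • w)) ((-(1 + ε)) • u + (ε * θ) • w) = -(ε * θ * cr w u) := by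
      simp only [cr_smul_l, cr_sub_l, cr_add_r, cr_smul_r, cr_self, cr_comm u w]; ring
    rw [this]; exact neg_ne_zero.2 (mul_ne_zero (by positivity) hc))
  have a2 := H.strict X2 m2 X hXM Z hZ (by
    have e1 : X - X2 = (-ε) • ((X - Y) - θ • (Z - Y)) := by rw [hX2, hPd]; module
    have e2 : Z - X2 = (-(1 + ε)) • (X - Y) + (1 + ε * θ) • (Z - Y) := by rw [hX2, hPd]; module
    rw [e1, e2]
    generalize Z - Y = w at hc
    generalize X - Y = u at hc
    have : cr ((-ε) • (u - θ • w)) ((-(1 + ε)) • u + (1 + ε * θ) • w) = ε * (1 - θ) * cr w u := by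
      simp only [cr_smul_l, cr_sub_l, cr_add_r, cr_smul_r, cr_self, cr_comm u w]; ring
    rw [this]; exact mul_ne_zero (mul_ne_zero hε.ne' (by linarith)) hc)
  have n2 : d X2 X < m / 4 := by
    linarith [H.tri X2 m2 O hO X hXM, H.symm X2 m2 O hO, near X2 b1, near X hX]
  have n3 : d X Y < m / 4 := by
    linarith [H.tri X hXM O hO Y hYM, H.symm X hXM O hO, near X hX, near Y hY]
  have hr : max (d X2 Y) (d X2 Z) < d X2 X + d X Y := max_lt a1 (by linarith)
  have hr0 : 0 < max (d X2 Y) (d X2 Z) := by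
    by_cases h : X2 = Y
    · exact lt_max_of_lt_right (H.pos _ m2 _ hZ (by rw [h]; exact hZY.symm))
    · exact lt_max_of_lt_left (H.pos _ m2 _ hYM h)
  have := H.ball_convex (subD b1) hr0 (cpt X2 b1 _ (by linarith)).1 (cpt X2 b1 _ (by linarith)).2 hYM hZ (le_max_left _ _)
    (le_max_right _ _) ⟨h0.le, h1.le⟩
  rw [← hPd] at this
  linarith

lemma choose_con {Y w u : ℂ} (hY : Y ∈ D) (hu : 0 < cr w u) : ∃ C : ℝ → Con,
    ∀ᶠ ε in (UU : Filter ℝ), Y + (-ε) • u ∈ M ∧ 0 < cr w (Y - (Y + (-ε) • u)) ∧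
      WS M D d (Y + (-ε) • u) w Y (C ε) ∧ (C ε).q Y < 0 := by
  have : ∀ ε : ℝ, ∃ C : Con, Y + (-ε) • u ∈ D → cr w (Y - (Y + (-ε) • u)) ≠ 0 →
      WS M D d (Y + (-ε) • u) w Y C := by
    intro ε
    by_cases h : Y + (-ε) • u ∈ D ∧ cr w (Y - (Y + (-ε) • u)) ≠ 0
    · obtain ⟨C, hC⟩ := H.ws _ h.1 w Y hY h.2
      exact ⟨C, fun _ _ => hC⟩
    · exact ⟨Classical.arbitrary _, fun h1 h2 => absurd ⟨h1, h2⟩ h⟩
  choose C hC using this
  refine ⟨C, ?_⟩
  filter_upwards [(H.loc.eventually_mem hY (small_r Y (-u))).filter_mono UU_le, UU_pos] with ε h1 h2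
  have h3 : Y + (-ε) • u ∈ D := by simpa using h1
  have h4 : 0 < cr w (Y - (Y + (-ε) • u)) := by simpa using mul_pos h2 hu
  exact ⟨H.sub h3, h4, hC ε h3 h4.ne', (hC ε h3 h4.ne').foc⟩

lemma uniq (L : Loc M d D) {Y w u v : ℂ} (hY : Y ∈ D) (h1 : Y + u ∈ D) (h2 : Y + v ∈ D)
    (hu : 0 < cr w u) (hv : 0 < cr w v) (f1 : Foot D d (Y + u) Y w) (f2 : Foot D d (Y + v) Y w) :
    cr u v = 0 := by
  have hw : w ≠ 0 := by rintro rfl; simp at hu
  have hYM := L.sub hY
  obtain ⟨C, hC⟩ := H.choose_con hY hu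
  obtain ⟨Q, h0, hQ⟩ := con_limit UU C Y (fun _ => 1) (hC.mono fun ε h => h.2.2.2.ne)
  simp only [one_smul] at hQ
  have TZ : Tendsto (fun ε : ℝ => Y + (-ε) • u) UU (𝓝 Y) := by
    have := (small_r Y (-u)).mono_left UU_le
    simpa using this
  have fa : ∀ W : ℂ, Y + W ∈ D → 0 ≤ cr w W → Foot M d (Y + W) Y w → Q.q W ≤ 0 := by
    intro W hWD hcW hfW
    have hW := L.sub hWD
    apply (hQ W (fun _ => W) tendsto_const_nhds).1
    filter_upwards [hC, UU_pos] with ε ⟨h1, h2, h3, h4⟩ hε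
    refine h3.le _ hWD ?_
    rw [ff, sub_nonpos]
    apply PM0.le_dl h1
    intro s hs
    have hden : 0 < cr w W + ε * cr w u := by positivity
    set τ := cr w W / (cr w W + ε * cr w u) with hτ
    have hτ0 : 0 ≤ τ := div_nonneg hcW hden.le
    have hτ1 : τ ≤ 1 := (div_le_one hden).2 (by nlinarith)
    obtain ⟨r, hr⟩ := exists_smul_of_cr
      (v := Y + W + τ • (Y + (-ε) • u + s • w - (Y + W)) - Y) hw (by
        have : Y + W + τ • (Y + (-ε) • u + s • w - (Y + W)) - Y =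
          W + τ • ((-ε) • u + s • w - W) := by module
        rw [this]; simp only [cr_add_r, cr_smul_r, cr_sub_r, cr_self, hτ]
        field_simp; ring)
    have e : Y + W + τ • (Y + (-ε) • u + s • w - (Y + W)) = Y + r • w := by rw [← hr]; abel
    have hm := H.seg_mem hW hs hτ0 hτ1
    have a1 := H.add _ hW _ hs τ ⟨hτ0, hτ1⟩
    have a2 := H.nonneg hm hs
    rw [e] at hm a1 a2
    linarith [hfW r hm]
  have fb : ∀ W : ℂ, Y + W ∈ D → cr w W ≤ 0 → 0 ≤ Q.q W := by
    intro W hW hc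
    have T : Tendsto (fun ε : ℝ => W + (-ε) • u) UU (𝓝 W) := by
      have := (small_r W (-u)).mono_left UU_le
      simpa using this
    apply (hQ _ _ T).2
    filter_upwards [hC, L.pm.eventually_mem hW (T.const_add Y)] with ε ⟨h1, h2, h3, h4⟩ h5
    refine h3.ge _ h5 (H.ff_below h1 hYM h2 (L.sub h5) ?_).le
    rwa [show Y + (W + (-ε) • u) - (Y + (-ε) • u) = W by abel]
  have hK : Q.q 0 = 0 := le_antisymm (fa 0 (by simpa using hY) (by simp) (by
      intro s hs; simp only [add_zero]; rw [H.refl Y hYM]; exact H.nonneg hYM hs))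
    (fb 0 (by simpa using hY) (by simp))
  have slope : ∀ z : ℂ, cr w z ≤ 0 → 0 ≤ dot Q.l z := by
    intro z hz
    rw [← Q.grad_zero]
    refine Q.slope_nonneg hK ?_
    filter_upwards [L.pm.eventually_mem hY (small_r Y z), self_mem_nhdsWithin] with t a1 a2
    rw [zero_add]
    exact fb _ a1 (by rw [cr_smul_r]; exact mul_nonpos_of_nonneg_of_nonpos (le_of_lt a2) hz)
  have hOw : dot Q.l w = 0 := by
    have a1 := slope w (by simp)
    have a2 := slope (-w) (by simp)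
    rw [dot_neg_r] at a2; linarith
  have hOu : dot Q.l u ≤ 0 := by
    have := slope (-u) (by simpa using hu.le)
    simpa using this
  rcases eq_or_lt_of_le hOu with hOu | hOu
  · have hO : Q.l = 0 := eq_zero_of_dot hu.ne' hOw hOu
    have hk : Q.k = 0 := by simpa using hK
    have hq : ∀ W, Q.q W = Q.A.ev W := fun W => by simp [Con.q, hO, hk]
    have half : ∀ z, cr w z ≤ 0 → 0 ≤ Q.A.ev z := by
      intro z hz
      obtain ⟨t, a1, a2⟩ := ((L.pm.eventually_mem hY (small_r Y z)).and self_mem_nhdsWithin).exists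
      have ht : 0 < t := a2
      have := fb _ a1 (by rw [cr_smul_r]; exact mul_nonpos_of_nonneg_of_nonpos ht.le hz)
      rw [hq, QF.ev_smul] at this
      exact le_of_mul_le_mul_left (by simpa using this) (pow_pos ht 2)
    have psd : ∀ z, 0 ≤ Q.A.ev z := by
      intro z
      rcases le_total (cr w z) 0 with h | h
      · exact half z h
      · simpa using half (-z) (by simpa using h)
    by_contra hne
    refine h0 ⟨Q.A.zero_of_psd hne psd (le_antisymm ?_ (psd _)) (le_antisymm ?_ (psd _)), hO, hk⟩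
    · rw [← hq]; exact fa u h1 hu.le (L.foot_M h1 hY hw f1)
    · rw [← hq]; exact fa v h2 hv.le (L.foot_M h2 hY hw f2)
  · exfalso
    have fc : ∀ W : ℂ, Y + W ∈ D → Q.q W < 0 → Foot M d (Y + W) Y w := by
      intro W hWD hq
      have hW := L.sub hWD
      have hev : ∀ᶠ ε in (UU : Filter ℝ), (C ε).q (Y + W) < 0 := by
        rcases UU.em (fun ε => (C ε).q (Y + W) < 0) with h | h
        · exact h
        · exact absurd ((hQ W (fun _ => W) tendsto_const_nhds).2 (h.mono fun ε h => not_lt.1 h))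
            (not_le.2 hq)
      apply H.foot_limit hW hYM tendsto_const_nhds tendsto_const_nhds TZ tendsto_const_nhds
      filter_upwards [hC, hev] with ε ⟨h1, h2, h3, h4⟩ h5 s hs
      have b1 := h3.lt hWD h5
      have b2 := H.dl_le (Y := Y + (-ε) • u) (w := w) hW hs
      simp only [ff] at b1; linarith
    obtain ⟨a, ha, m1, m2⟩ := L.exists_scale hY w
    have hw' : a • w ≠ 0 := smul_ne_zero ha.ne' hw
    have hex : ∀ σ : ℝ, ∃ p ∈ Icc (-1 : ℝ) 1, Y + σ • w ∈ D → Y + σ • w + a • w ∈ D →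
        Y + σ • w - a • w ∈ D → Y + σ • w + u ∈ D →
        Foot D d (Y + σ • w + (p • a • w + (1 - |p|) • u)) (Y + σ • w) (a • w) := by
      intro σ
      by_cases h : Y + σ • w ∈ D ∧ Y + σ • w + a • w ∈ D ∧ Y + σ • w - a • w ∈ D ∧ Y + σ • w + u ∈ D
      · obtain ⟨p, hp, hf⟩ := L.path h.1 hw' h.2.1 h.2.2.1 h.2.2.2
        exact ⟨p, hp, fun _ _ _ _ => hf⟩
      · exact ⟨0, by simp, fun a1 a2 a3 a4 => absurd ⟨a1, a2, a3, a4⟩ h⟩
    choose p hp1 hp2 using hex
    obtain ⟨p0, hp0, T⟩ := ultra_lim UU isCompact_Icc (f := p) (Eventually.of_forall hp1)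
    have TY : Tendsto (fun σ : ℝ => Y + σ • w) UU (𝓝 Y) := (small_r Y w).mono_left UU_le
    have TZ' : Tendsto (fun σ : ℝ => p σ • a • w + (1 - |p σ|) • u) UU
        (𝓝 (p0 • a • w + (1 - |p0|) • u)) :=
      (T.smul_const _).add ((T.abs.const_sub 1).smul_const _)
    have hX0 := L.path_mem m1 m2 h1 hp0
    have ev : ∀ᶠ σ in (UU : Filter ℝ), Y + σ • w ∈ D ∧
        Y + σ • w + (p σ • a • w + (1 - |p σ|) • u) ∈ D ∧
        Foot D d (Y + σ • w + (p σ • a • w + (1 - |p σ|) • u)) (Y + σ • w) (a • w) := by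
      filter_upwards [L.pm.eventually_mem hY TY, L.pm.eventually_mem m1 (TY.add_const _),
        L.pm.eventually_mem m2 (TY.sub_const _), L.pm.eventually_mem h1 (TY.add_const _)]
        with σ a1 a2 a3 a4
      exact ⟨a1, L.path_mem a2 a3 a4 (hp1 σ), hp2 σ a1 a2 a3 a4⟩
    have f0 := L.pm.foot_limit hX0 hY (TY.add TZ') TY TY tendsto_const_nhds (ev.mono fun σ h => h.2.2)
    have hlt := L.path_lt hY hw' m1 m2 hp0 f0
    obtain ⟨Z, hZ⟩ : ∃ Z, Z = p0 • a • w + (1 - |p0|) • u := ⟨_, rfl⟩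
    have hOz : dot (Q.grad 0) Z < 0 := by
      rw [Q.grad_zero, hZ]
      simp only [dot_add_r, dot_smul_r, hOw, mul_zero, zero_add]
      exact mul_neg_of_pos_of_neg (by linarith) hOu
    rw [← hZ] at TZ'
    obtain ⟨t, hq, ht⟩ := ((Q.ev_neg_of_slope hK hOz).and (Ioo_mem_nhdsGT (zero_lt_one' ℝ))).exists
    rw [zero_add] at hq
    have TW : Tendsto (fun σ : ℝ => σ • w + t • (p σ • a • w + (1 - |p σ|) • u)) UU (𝓝 (t • Z)) := by
      have := ((small_r 0 w).mono_left UU_le).add (TZ'.const_smul t)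
      simpa using this
    obtain ⟨σ, ⟨s1, s2, s3⟩, s4, s5⟩ := (ev.and ((((Q.continuous_q.tendsto _).comp TW).eventually
      (gt_mem_nhds hq)).and UU_pos)).exists
    have s6 := L.pm.ray_mem s1 (t := 1) (by rwa [one_smul]) ht.1.le ht.2.le
    have b0 := (L.pm.foot_seg s1 s2 s3 ht.1.le ht.2.le).of_smul ha.ne'
    have b1 := fc _ (by rw [← add_assoc]; exact s6) s4 σ (L.sub s1)
    have e : Y + σ • w + (-σ) • w = Y := by module
    have b2 := L.foot_strict s6 s1 hw b0 (s := -σ) (by linarith) (by rwa [e])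
    rw [e] at b2
    rw [← add_assoc] at b1
    linarith

lemma pn (L : Loc M d D) : PN D d := by
  refine ⟨L.pm, fun {Y w} hY hw => ?_, fun {Y w u X} hY hu hp hX hc hf => ?_⟩
  · obtain ⟨a, ha, m1, m2⟩ := L.exists_scale hY w
    have hw' : a • w ≠ 0 := smul_ne_zero ha.ne' hw
    obtain ⟨η, hη, m3, -⟩ := L.exists_scale hY (Complex.I * w)
    have hc0 : 0 < cr w (Complex.I * w) := by
      have : cr w (Complex.I * w) = ‖w‖ ^ 2 := by rw [← dot_self]; simp [cr, dot]
      rw [this]; exact pow_pos (norm_pos_iff.2 hw) 2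
    obtain ⟨p, hp, hf⟩ := L.path hY hw' m1 m2 m3
    have hlt := L.path_lt hY hw' m1 m2 hp hf
    have hm := L.path_mem m1 m2 m3 hp
    obtain ⟨Z, hZ⟩ : ∃ Z, Z = p • a • w + (1 - |p|) • η • (Complex.I * w) := ⟨_, rfl⟩
    have hcZ : 0 < cr w Z := by
      rw [hZ]
      simp only [cr_add_r, cr_smul_r, cr_self, mul_zero, zero_add]
      exact mul_pos (by linarith) (mul_pos hη hc0)
    rw [← hZ] at hf hm
    have hn : 0 < ‖Z‖ := norm_pos_iff.2 (by rintro rfl; simp at hcZ)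
    refine ⟨‖Z‖⁻¹ • Z, by simp [norm_smul, hn.ne'], by rw [cr_smul_r]; positivity, fun t ht hX => ?_⟩
    rcases ht.eq_or_lt with rfl | ht
    · intro s hs
      rw [zero_smul, add_zero, L.pm.refl Y hY]; exact L.pm.nonneg hY hs
    obtain ⟨p', hp', hf'⟩ := L.path hY hw' m1 m2 hX
    have hlt' := L.path_lt hY hw' m1 m2 hp' hf'
    have := H.uniq L hY hm (L.path_mem m1 m2 hX hp') hcZ (by
      simp only [cr_add_r, cr_smul_r, cr_self, mul_zero, zero_add]
      exact mul_pos (by linarith) (by positivity)) (hf.of_smul ha.ne') (hf'.of_smul ha.ne')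
    simp only [cr_add_r, cr_smul_r, cr_self, mul_zero, add_zero] at this
    have hp0 : p' = 0 := by
      rw [cr_comm] at this
      rcases mul_eq_zero.1 this with h | h
      · exact h
      · exact absurd h (mul_ne_zero ha.ne' (neg_ne_zero.2 hcZ.ne'))
    rw [hp0] at hf'
    simpa using hf'.of_smul ha.ne'
  · obtain ⟨t, ht, m1, -⟩ := L.exists_scale hY u
    have := H.uniq L (u := t • u) (v := X - Y) hY m1 (by simpa using hX)
      (by rw [cr_smul_r]; positivity) hc (hp t ht.le m1) (by simpa using hf)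
    rw [cr_smul_l] at this
    exact (mul_eq_zero.1 this).resolve_left ht.ne'

end PW

namespace PW
variable {M D : Set ℂ} {d : ℂ → ℂ → ℝ} (H : PW M D d) (L : Loc M d D) {X : ℂ} {r Λ : ℝ}
  (E : Ecc D d X r Λ)
include H L E

lemma bl_euclid : 0 < hX d X ∧ ∀ a b, bl d X a b = ‖TT (fX d X) (hX d X) (b - a)‖ := by
  have G := H.pn L
  obtain ⟨N, hN, hb⟩ := G.bl_norm E
  have D' := E.bl_pm0 G.toPM0
  have hX' := E.center_mem
  have hXM := L.sub hX'
  have hneg : ∀ v, N (-v) = N v := fun v => by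
    have := D'.symm 0 trivial v trivial
    rw [hb, hb] at this; simpa using this.symm
  have hpos : ∀ v, v ≠ 0 → 0 < N v := fun v hv => by
    have := D'.pos 0 trivial v trivial hv.symm
    rwa [hb, sub_zero] at this
  have htri : ∀ a b, N (a + b) ≤ N a + N b := fun a b => by
    have := D'.tri 0 trivial a trivial (a + b) trivial
    simpa [hb] using this
  have hnn : ∀ z, 0 ≤ N z := fun z => by
    by_cases h : z = 0
    · rw [h]; simpa using (hN 0 0 le_rfl).ge
    · exact (hpos z h).le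
  set ν := nu D d X 1 with hν
  have hc : 0 < cr 1 ν := G.nu_cr hX' one_ne_zero
  have hν0 : ν ≠ 0 := by rintro h; rw [h] at hc; simp at hc
  have hn0 := hpos ν hν0
  set B : ℂ := (N ν / cr 1 ν) • Complex.I with hB
  have hBz : ∀ z, dot B z = N ν / cr 1 ν * cr 1 z := fun z => by
    rw [hB, dot_smul_l]; simp [dot, cr]
  set u := (N ν)⁻¹ • ν with hu
  have hcu : 0 < cr 1 u := by rw [hu, cr_smul_r]; positivity
  obtain ⟨C, hC⟩ := H.choose_con hX' hcu
  obtain ⟨Q, h0, hQ⟩ := con_limit UU C X (fun ρ => ρ) (hC.mono fun ε h => h.2.2.2.ne)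
  have foot : ∀ z, ∃ s : ℝ, z - ((dot B z + 1) / N ν) • ν = -u + s • (1 : ℂ) := by
    intro z
    obtain ⟨s, hs⟩ := exists_smul_of_cr (w := 1) (v := z - ((dot B z + 1) / N ν) • ν + u) one_ne_zero (by
      rw [hu, hBz]; simp only [cr_add_r, cr_sub_r, cr_smul_r]; field_simp; ring)
    exact ⟨s, by rw [← hs]; abel⟩
  obtain ⟨A, hA⟩ := euclid_of_con hN hneg hpos htri (B := B) (w := 1) (u := ν) hc.ne'
    (by rw [hBz]; simp) (by rw [hBz]; field_simp) h0 (by
      intro z hz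
      obtain ⟨s, hs⟩ := foot z
      set t := (dot B z + 1) / N ν with ht
      have ht0 : 0 ≤ t := div_nonneg (by linarith [hnn z]) hn0.le
      set Y := z - t • ν with hY
      have T := ((G.tendsto_nu_bl E Y one_ne_zero).const_smul t).const_add Y
      have ez : Y + t • nu D d X 1 = z := by rw [hY, ← hν]; abel
      rw [ez] at T
      apply (hQ z _ T).1
      have hlt : bl d X z 0 < bl d X z Y := by
        rw [hb, hb, zero_sub, hneg, hY, sub_sub_cancel_left, hneg, hN t ν ht0, ht,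
          div_mul_cancel₀ _ hn0.ne']
        exact hz
      filter_upwards [hC, G.ev_foot E Y one_ne_zero ht0, E.ev_mem G.toPM0 T, E.ev_mem' G.toPM0 Y,
        E.lt_of_bl G.toPM0 T tendsto_const_nhds T tendsto_const_nhds hlt]
        with ρ ⟨a1, a2, a3, a4⟩ b1 b2 b4 b3
      refine a3.le _ b2 ?_
      rw [ff, sub_nonpos]
      rw [smul_zero, add_zero] at b3
      refine b3.le.trans (PM0.le_dl a1 fun s' hs' => ?_)
      have e : X + (-ρ) • u + s' • (1 : ℂ) = X + ρ • Y + (s' - ρ * s) • (1 : ℂ) := by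
        rw [hs]; module
      rw [e] at hs' ⊢
      exact L.foot_M b2 b4 one_ne_zero b1 _ hs') (by
      intro z hz0 hz
      obtain ⟨s, hs⟩ := foot z
      set t := (dot B z + 1) / N ν with ht
      have ht0 : 0 ≤ t := div_nonneg hz0 hn0.le
      set Y := z - t • ν with hY
      apply (hQ z (fun _ => z) tendsto_const_nhds).2
      have hlt : bl d X z Y < bl d X z 0 := by
        rw [hb, hb, zero_sub, hneg, hY, sub_sub_cancel_left, hneg, hN t ν ht0, ht,
          div_mul_cancel₀ _ hn0.ne']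
        exact hz
      filter_upwards [hC, E.ev_mem' G.toPM0 z, E.ev_mem' G.toPM0 Y,
        E.lt_of_bl G.toPM0 tendsto_const_nhds tendsto_const_nhds tendsto_const_nhds
          tendsto_const_nhds hlt] with ρ ⟨a1, a2, a3, a4⟩ b1 b2 b3
      refine a3.ge _ b1 ?_
      rw [smul_zero, add_zero] at b3
      have e : X + ρ • Y = X + (-ρ) • u + (ρ * s) • (1 : ℂ) := by rw [hs]; module
      rw [e] at b2 b3
      exact (H.ff_pos_of_lt (L.sub b1) (L.sub b2) b3).le)
  have n1 : N 1 = 1 := by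
    have := E.tendsto_sc G.toPM0 0 1
    rw [hb, sub_zero] at this
    refine tendsto_nhds_unique this (tendsto_const_nhds.congr' ?_)
    filter_upwards [E.m_pos G.toPM0] with ρ h
    rw [sc, smul_zero, add_zero, div_self h.ne']
  have ea : A.a = 1 := by simpa [QF.ev, n1] using (hA 1).symm
  have ec : bl d X 0 Complex.I ^ 2 = A.c := by simpa [QF.ev, hb] using hA Complex.I
  have ef : fX d X = A.b := by
    have := hA (1 + Complex.I)
    simp only [QF.ev, Complex.add_re, Complex.add_im, Complex.one_re, Complex.one_im, Complex.I_re,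
      Complex.I_im, ea] at this
    rw [fX, ec, hb, sub_zero, this]; ring
  have hp : 0 < A.c - A.b ^ 2 := by
    have h1 := hA ⟨-A.b, 1⟩
    have h2 := pow_pos (hpos ⟨-A.b, 1⟩ fun e => by simpa using congrArg Complex.im e) 2
    simp only [QF.ev, ea] at h1
    linarith
  have eh : hX d X ^ 2 = A.c - A.b ^ 2 := by rw [hX, ec, ef, Real.sq_sqrt hp.le]
  refine ⟨by rw [hX, ec, ef]; exact Real.sqrt_pos.2 hp, fun a b => ?_⟩
  rw [hb, ← sq_eq_sq₀ (hnn _) (norm_nonneg _), hA, TT_sq, mul_pow, eh, ef, QF.ev, ea]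
  ring

lemma bl_perp {w : ℂ} (hw : w ≠ 0) :
    dot (TT (fX d X) (hX d X) w) (TT (fX d X) (hX d X) (nu D d X w)) = 0 := by
  obtain ⟨hh, hb⟩ := H.bl_euclid L E
  have h := (H.pn L).bl_foot E 0 hw zero_le_one
  simp only [hb, one_smul, zero_add, zero_sub, TT_neg, norm_neg, TT_sub, TT_smul] at h
  have ha : 0 < ‖TT (fX d X) (hX d X) w‖ := norm_pos_iff.2 (TT_ne hh hw)
  generalize TT (fX d X) (hX d X) w = a at *
  generalize TT (fX d X) (hX d X) (nu D d X w) = b at *
  have h2 := pow_le_pow_left₀ (norm_nonneg _) (h (dot a b / ‖a‖ ^ 2)) 2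
  rw [sub_eq_add_neg, norm_sq_add, norm_neg, norm_smul, mul_pow, Real.norm_eq_abs, sq_abs, dot_neg_r,
    dot_smul_l] at h2
  have e : (dot a b / ‖a‖ ^ 2) ^ 2 * ‖a‖ ^ 2 + 2 * -(dot a b / ‖a‖ ^ 2 * dot a b) =
      -((dot a b) ^ 2 / ‖a‖ ^ 2) := by field_simp; ring
  have h3 : (dot a b) ^ 2 / ‖a‖ ^ 2 ≤ 0 := by linarith
  rw [div_nonpos_iff] at h3
  rcases h3 with ⟨-, h4⟩ | ⟨h4, -⟩
  · exact absurd h4 (not_le.2 (by positivity))
  · exact pow_eq_zero_iff two_ne_zero |>.1 (le_antisymm h4 (sq_nonneg _))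

end PW

theorem st1_of_loc {M : Set ℂ} {d : ℂ → ℂ → ℝ}
    (hl : ∀ O ∈ M, ∃ D, O ∈ D ∧ PW M D d ∧ Loc M d D) : St1 M d (fX d) (hX d) := by
  have ecc : ∀ {D : Set ℂ}, PW M D d → Loc M d D → ∀ X ∈ D, ∃ r Λ, Ecc D d X r Λ := by
    intro D H L X hX
    obtain ⟨R, hR, hb⟩ := Metric.nhds_basis_closedBall.mem_iff.1 (L.pm.isOpen.mem_nhds hX)
    obtain ⟨Λ, E⟩ := (H.pn L).exists_ecc (X := X) (r := R / 2) (by linarith)
      (by rwa [show 2 * (R / 2) = R by ring])
    exact ⟨_, _, E⟩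
  have cf : ∀ X ∈ M, ContinuousAt (fX d) X := by
    intro O hO
    obtain ⟨D, hD, H, L⟩ := hl O hO
    have G := H.pn L
    have T := G.tendsto_nu (l := 𝓝 O) hD one_ne_zero tendsto_id tendsto_const_nhds
    have key : ∀ X ∈ D, fX d X = -(nu D d X 1).re / (nu D d X 1).im ∧ (nu D d X 1).im ≠ 0 := by
      intro X hX
      obtain ⟨r, Λ, E⟩ := ecc H L X hX
      have h1 := H.bl_perp L E one_ne_zero
      have h2 := G.nu_cr hX one_ne_zero
      simp [cr] at h2
      simp [TT, dot] at h1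
      exact ⟨by field_simp; linarith, h2.ne'⟩
    have T2 := ((Complex.continuous_re.tendsto _).comp T).neg.div
      ((Complex.continuous_im.tendsto _).comp T) (key O hD).2
    rw [ContinuousAt, (key O hD).1]
    refine T2.congr' ?_
    filter_upwards [L.pm.isOpen.mem_nhds hD] with X hX
    exact (key X hX).1.symm
  refine ⟨fun X hX => ?_, fun X hX a b => ?_, cf, fun O hO => ?_⟩
  · obtain ⟨D, hD, H, L⟩ := hl X hX
    obtain ⟨r, Λ, E⟩ := ecc H L X hD
    exact (H.bl_euclid L E).1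
  · obtain ⟨D, hD, H, L⟩ := hl X hX
    obtain ⟨r, Λ, E⟩ := ecc H L X hD
    rw [← (H.bl_euclid L E).2]
    exact E.tendsto_sc L.pm a b
  · obtain ⟨D, hD, H, L⟩ := hl O hO
    have G := H.pn L
    obtain ⟨t, ht⟩ : ∃ t, t = 1 - fX d O := ⟨_, rfl⟩
    have hw : (⟨t, 1⟩ : ℂ) ≠ 0 := fun e => by simpa using congrArg Complex.im e
    have T := G.tendsto_nu (l := 𝓝 O) hD hw tendsto_id tendsto_const_nhds
    have T1 := (Complex.continuous_re.tendsto _).comp T
    have T2 := (Complex.continuous_im.tendsto _).comp T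
    have key : ∀ X ∈ D, 0 < hX d X ∧ (t + fX d X) * ((nu D d X ⟨t, 1⟩).re
        + fX d X * (nu D d X ⟨t, 1⟩).im) + hX d X ^ 2 * (nu D d X ⟨t, 1⟩).im = 0 := by
      intro X hX
      obtain ⟨r, Λ, E⟩ := ecc H L X hX
      have h1 := H.bl_perp L E hw
      simp only [TT, dot] at h1
      exact ⟨(H.bl_euclid L E).1, by linear_combination h1⟩
    have h0 : (nu D d O ⟨t, 1⟩).im ≠ 0 := by
      intro e
      have h1 := (key O hD).2
      have h2 := nu_norm D d O ⟨t, 1⟩
      rw [e, show t + fX d O = 1 by rw [ht]; ring] at h1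
      have : nu D d O ⟨t, 1⟩ = 0 := Complex.ext (by simpa using h1) e
      rw [this] at h2; simp at h2
    have form : ∀ X ∈ D, (nu D d X ⟨t, 1⟩).im ≠ 0 → hX d X = √(-((t + fX d X) *
        ((nu D d X ⟨t, 1⟩).re + fX d X * (nu D d X ⟨t, 1⟩).im)) / (nu D d X ⟨t, 1⟩).im) := by
      intro X hX hne
      obtain ⟨a1, a2⟩ := key X hX
      rw [← Real.sqrt_sq a1.le]
      congr 1
      field_simp
      linarith
    have T3 := ((((cf O hO).tendsto.const_add t).mul (T1.add ((cf O hO).tendsto.mul T2))).neg.div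
      T2 h0).sqrt
    rw [ContinuousAt, form O hD h0]
    refine T3.congr' ?_
    filter_upwards [L.pm.isOpen.mem_nhds hD, T2.eventually_ne h0] with X hX hne
    exact (form X hX hne).symm

theorem PM0.st2_of_lq {M : Set ℂ} {d : ℂ → ℂ → ℝ} (H : PM0 M d) (hs : Strict M d) (hq : LQ M d) :
    ∃ Hq : ℂ → QF, St2 M d Hq :=
  (st1_of_loc fun O hO => by
    obtain ⟨D, hD, W⟩ := H.pw hs hq hO
    exact W.exists_loc hD).st2 H

end Pool.Agent.P.MP_ec5bc9_gt.H13
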