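import Pool.Agent.P.MP_ec5bc9_gt.L2

/-! The distance formula of the models without any assumption on the boundary of the domain. -/

set_option autoImplicit false

namespace Pool.Agent.P.MP_ec5bc9_gt.H13

open Set Filter Topology

attribute [-simp] Complex.real_smul

/-- The normalised situation: the length element is the one of a model in an affine chart. -/
structure Nm0 (M : Set ℂ) (d : ℂ → ℂ → ℝ) (k : ℝ) (p : ℂ) (e : ℝ) : Prop where
  pm : PM0 M d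
  zero : (0 : ℂ) ∈ M
  kpos : 0 < k
  pos : ∀ X ∈ M, 0 < be e X (ll p X) X (ll p X)
  kk : ∀ X ∈ M, ∀ v, v ≠ 0 → 0 < KK p e X v
  lim : ∀ X ∈ M, ∀ v, Tendsto (fun ρ : ℝ => d X (X + ρ • v) / ρ) UU
    (𝓝 (k * (√(KK p e X v) / be e X (ll p X) X (ll p X))))

namespace Nm0
variable {M : Set ℂ} {d : ℂ → ℂ → ℝ} {k e : ℝ} {p : ℂ} (N : Nm0 M d k p e)
include N

lemma ll_pos (he : e ≤ 0) {X : ℂ} (hX : X ∈ M) : 0 < ll p X := by
  by_contra hc
  have h1 : 1 ≤ -cr p X := by simp only [ll] at hc; linarith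
  have hm := N.pm.seg_mem N.zero hX (t := (-cr p X)⁻¹) (by positivity) (inv_le_one_of_one_le₀ h1)
  have := N.pos _ hm
  have e0 : ll p (0 + (-cr p X)⁻¹ • (X - 0)) = 0 := by
    have : cr p X ≠ 0 := by linarith
    simp only [ll, zero_add, sub_zero, cr_smul_r]; field_simp; ring
  rw [e0, be, dot_self] at this
  nlinarith [sq_nonneg ‖0 + (-cr p X)⁻¹ • (X - 0)‖]

lemma Hh_pos {X Y : ℂ} (hX : X ∈ M) (hne : X ≠ Y) : 0 < Hh e X (ll p X) Y (ll p Y) := by
  have := Hh_ll p e X (Y - X) 1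
  rw [one_smul, add_sub_cancel, one_pow, one_mul] at this
  rw [this]; exact N.kk X hX _ (sub_ne_zero.2 hne.symm)

lemma mem_II {X Y : ℂ} (hX : X ∈ M) (hY : Y ∈ M) (hne : X ≠ Y) :
    cc e X (ll p X) Y (ll p Y) ∈ II e := by
  refine cc_mem (N.pos X hX) (N.pos Y hY) (N.Hh_pos hX hne) ?_
  rcases lt_or_ge 0 e with h | h
  · exact Or.inl h
  · exact Or.inr (be_pos h (N.ll_pos h hX) (N.ll_pos h hY) (N.pos X hX) (N.pos Y hY))

lemma dist_eq {Ψ : ℝ → ℝ} (hΨ : Prim e Ψ) {X Y : ℂ} (hX : X ∈ M) (hY : Y ∈ M) (hne : X ≠ Y) :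
    d X Y = k * Ψ (cc e X (ll p X) Y (ll p Y)) := by
  obtain ⟨u, rfl⟩ : ∃ u, Y = X + (1 : ℝ) • u := ⟨Y - X, by simp⟩
  have hu : u ≠ 0 := by rintro rfl; simp at hne
  have hK := N.kk X hX u hu
  have sK := Real.sqrt_pos.2 hK
  have hD := N.pos X hX
  obtain ⟨c, hc⟩ : ∃ c : ℝ → ℝ, c = fun s =>
    (be e X (ll p X) X (ll p X) * s⁻¹ + be e X (ll p X) u (cr p u)) / √(KK p e X u) := ⟨_, rfl⟩
  have mem : ∀ s : ℝ, 0 ≤ s → s ≤ 1 → X + s • u ∈ M := fun s h0 h1 => N.pm.ray_mem hX hY h0 h1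
  have ne : ∀ s : ℝ, 0 < s → X ≠ X + s • u := fun s hs => by simp [hs.ne', hu]
  have ce : ∀ s, 0 < s → cc e X (ll p X) (X + s • u) (ll p (X + s • u)) = c s := by
    intro s hs
    rw [cc, Hh_ll, Real.sqrt_mul (sq_nonneg s), Real.sqrt_sq hs.le, hc]
    simp only [be, ll, cr_add_r, cr_smul_r, dot_add_r, dot_smul_r]
    field_simp; ring
  have der : ∀ s, 0 < s → s ≤ 1 → HasDerivAt (fun s => k * Ψ (c s))
      (k * (√(KK p e X u) / be e (X + s • u) (ll p (X + s • u)) (X + s • u) (ll p (X + s • u)))) s := by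
    intro s hs h1
    have m := mem s hs.le h1
    have d1 : HasDerivAt c (be e X (ll p X) X (ll p X) * (-(s ^ 2)⁻¹) / √(KK p e X u)) s := by
      rw [hc]; exact (((hasDerivAt_inv hs.ne').const_mul _).add_const _).div_const _
    have d2 := ((hΨ.der (c s) (ce s hs ▸ N.mem_II hX m (ne s hs))).comp s d1).const_mul k
    refine d2.congr_deriv ?_
    have q := cc_sq (N.Hh_pos hX (ne s hs))
    have q2 := N.pos _ m
    rw [ce s hs, Hh_ll] at q
    rw [q]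
    have q3 := Real.sq_sqrt hK.le
    generalize √(KK p e X u) = r at *
    rw [← q3]; field_simp
  have const : ∀ a, 0 < a → a ≤ 1 → d X (X + (1 : ℝ) • u) - k * Ψ (c 1)
      = d X (X + a • u) - k * Ψ (c a) := by
    intro a ha h1
    refine mv_eq (φ := fun s => d X (X + s • u) - k * Ψ (c s)) h1
      ((N.pm.continuousOn continuousOn_const (by fun_prop) (fun _ _ => hX)
        fun s hs => mem s (ha.le.trans hs.1) hs.2).sub fun s hs =>
          (der s (ha.trans_le hs.1) hs.2).continuousAt.continuousWithinAt) fun s hs => ?_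
    have s0 := ha.trans_le hs.1
    have m := mem s s0.le hs.2.le
    have T1 := N.lim _ m u
    have eK : KK p e (X + s • u) u = KK p e X u := by simp [KK]
    rw [eK] at T1
    have T := T1.sub ((der s s0 hs.2.le).tendsto_slope_zero_right.mono_left UU_le)
    rw [sub_self] at T
    refine T.congr' ?_
    filter_upwards [N.pm.ev_mem m u, UU_pos] with ρ h2 h3
    have e1 : X + (s + ρ) • u = X + s • u + ρ • u := by module
    rw [N.pm.ray_add hX (e1 ▸ h2) s0.le (show s ≤ s + ρ by linarith), e1, smul_eq_mul]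
    field_simp; ring
  have T1 := N.pm.tendsto hX hX (tendsto_const_nhds (f := 𝓝[>] (0 : ℝ))) (small_r X u)
  have T2 : Tendsto c (𝓝[>] 0) atTop := by
    rw [hc]
    exact (tendsto_atTop_add_const_right _ _ (tendsto_inv_nhdsGT_zero.const_mul_atTop hD)).atTop_div_const sK
  have T := T1.sub ((hΨ.lim.comp T2).const_mul k)
  rw [N.pm.refl X hX, mul_zero, sub_zero] at T
  have := tendsto_nhds_unique (tendsto_const_nhds.congr' (by
    filter_upwards [Ioo_mem_nhdsGT (zero_lt_one' ℝ)] with a ha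
    exact const a ha.1 ha.2.le)) T
  rw [ce 1 one_pos]; linarith

end Nm0

lemma St2.normal {M : Set ℂ} {d : ℂ → ℂ → ℝ} (H : PM0 M d) {Hq : ℂ → QF} (S : St2 M d Hq) {O : ℂ}
    (hO : O ∈ M) : ∃ f h k : ℝ, ∃ p : ℂ, ∃ e : ℝ, 0 < h ∧
      Nm0 ((fun x => O + TT f h x) ⁻¹' M) (fun x y => d (O + TT f h x) (O + TT f h y)) k p e ∧
      (0 < e → p = 0 → ∀ X ∈ M, ∀ u, cr (X - O) u ≠ 0 → (Hq O).ev u < (Hq X).ev u) := by
  have ha := S.pa O hO
  have hδ := Real.sqrt_pos.2 (S.pd O hO)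
  obtain ⟨f, hf⟩ : ∃ f, f = -(Hq O).b / √(Hq O).det := ⟨_, rfl⟩
  obtain ⟨h, hh⟩ : ∃ h, h = (Hq O).a / √(Hq O).det := ⟨_, rfl⟩
  have h0 : 0 < h := by rw [hh]; positivity
  have nrm : ∀ v, (Hq O).a⁻¹ * (Hq O).ev (TT f h v) = dot v v := by
    intro v
    have q := Real.sq_sqrt (S.pd O hO).le
    rw [hf, hh]
    generalize √(Hq O).det = δ at *
    simp only [QF.ev, TT, dot, QF.det] at q ⊢
    field_simp
    linear_combination (-v.im ^ 2) * q
  generalize (Hq O).a = a at *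
  obtain ⟨L, hL⟩ : ∃ L : ℂ → ℂ, ∀ x, L x = O + TT f h x := ⟨_, fun _ => rfl⟩
  obtain ⟨L', hL'⟩ : ∃ L' : ℂ → ℂ, ∀ X, L' X = TT (-f / h) h⁻¹ (X - O) := ⟨_, fun _ => rfl⟩
  have cL : Continuous L := by
    rw [continuous_iff_continuousAt]; intro x
    rw [funext hL]
    exact (tendsto_TT tendsto_const_nhds tendsto_const_nhds tendsto_id).const_add O
  have LL' : ∀ X, L (L' X) = X := fun X => by rw [hL, hL', TT_inv h0.ne']; abel
  have L'L : ∀ x, L' (L x) = x := fun x => by rw [hL, hL', add_sub_cancel_left, TT_inv' h0.ne']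
  have Linj : Function.Injective L := Function.LeftInverse.injective L'L
  have Lray : ∀ (x v : ℂ) (t : ℝ), L (x + t • v) = L x + t • TT f h v := fun x v t => by
    rw [hL, hL, TT_add, TT_smul, add_assoc]
  have Lsub : ∀ x y, L y - L x = TT f h (y - x) := fun x y => by rw [hL, hL, TT_sub]; abel
  have L0 : L 0 = O := by simp [hL]
  have pm : PM0 (L ⁻¹' M) fun x y => d (L x) (L y) := by
    refine ⟨H.isOpen.preimage cL, ?_, fun x hx => H.refl _ hx,
      fun x hx y hy hne => H.pos _ hx _ hy fun e => hne (Linj e), fun x hx y hy => H.symm _ hx _ hy,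
      fun x hx y hy z hz => H.tri _ hx _ hy _ hz, fun x hx z hz t ht => ?_,
      H.cont.comp (f := fun p : ℂ × ℂ => (L p.1, L p.2)) (by fun_prop) fun p hp => hp⟩
    · intro x hx y hy s t hs ht hst
      have := H.seg_mem hx hy ht (by linarith)
      rw [Lsub, ← Lray] at this
      have e : s • x + t • y = x + t • (y - x) := by
        rw [show s = 1 - t by linarith]; module
      rw [e]; exact this
    · simp only [Lray, ← Lsub]; exact H.add _ hx _ hz t ht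
  have z0 : (0 : ℂ) ∈ L ⁻¹' M := by simpa [L0] using hO
  obtain ⟨p, e, hK⟩ := interp (M := L ⁻¹' M) (Hq := fun x => (Hq (L x)).pull f h a⁻¹)
    (pm.isOpen.mem_nhds z0) (fun v => by rw [QF.pull_ev, L0, nrm]) (fun X hX Z hZ => by
      rw [QF.pull_ev, QF.pull_ev, ← Lsub, S.inv _ hX _ hZ])
  have hD : ∀ X ∈ L ⁻¹' M, be e X (ll p X) X (ll p X) = a⁻¹ ^ 2 * h ^ 2 * (Hq (L X)).det :=
    fun X hX => by rw [← det_KK (hK X hX), QF.pull_det]
  have hK' : ∀ X ∈ L ⁻¹' M, ∀ u, KK p e X u = a⁻¹ * (Hq (L X)).ev (TT f h u) :=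
    fun X hX u => by rw [← hK X hX, QF.pull_ev]
  have N : Nm0 (L ⁻¹' M) (fun x y => d (L x) (L y)) (√a * h ^ 2 / a ^ 2) p e := by
    have sa := Real.sqrt_pos.2 ha
    refine ⟨pm, z0, by positivity, fun X hX => ?_, fun X hX v hv => ?_, fun X hX v => ?_⟩
    · rw [hD X hX]; have := S.pd _ hX; positivity
    · rw [hK' X hX]
      exact mul_pos (inv_pos.2 ha) (QF.ev_pos (S.pa _ hX) (S.pd _ hX) (TT_ne h0 hv))
    · have T := S.lim _ hX (TT f h v)
      simp only [Lray]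
      convert T using 2
      have := S.pd _ hX
      rw [hD X hX, hK' X hX, Real.sqrt_mul (inv_pos.2 ha).le, Real.sqrt_inv]
      field_simp
  have mL' : ∀ X ∈ M, L' X ∈ L ⁻¹' M := fun X hX => by rwa [mem_preimage, LL']
  refine ⟨f, h, _, p, e, h0, by simpa only [funext hL] using N, fun he p0 X hX u hu => ?_⟩
  have k1 := hK' _ (mL' X hX) (TT (-f / h) h⁻¹ u)
  have k2 := nrm (TT (-f / h) h⁻¹ u)
  rw [TT_inv h0.ne'] at k1 k2
  rw [LL', p0, KK, smul_zero, sub_zero, ← k2, hL', cr_TT] at k1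
  have : 0 < e * (h⁻¹ * cr (X - O) u) ^ 2 := by positivity
  exact lt_of_mul_lt_mul_left (a := a⁻¹) (by linarith) (inv_pos.2 ha).le

namespace Nm0
variable {M : Set ℂ} {d : ℂ → ℂ → ℝ} {k e : ℝ} {p : ℂ}

lemma euc_eq (N : Nm0 M d k p 0) {X Y : ℂ} (hX : X ∈ M) (hY : Y ∈ M) :
    k⁻¹ * d X Y = ‖(ll p X)⁻¹ • X - (ll p Y)⁻¹ • Y‖ := by
  by_cases hne : X = Y
  · simp [hne, N.pm.refl Y hY]
  have a := N.ll_pos le_rfl hX
  have b := N.ll_pos le_rfl hY
  rw [N.dist_eq prim_zero hX hY hne, inv_mul_cancel_left₀ N.kpos.ne']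
  simp only [cc, be, Hh, Pb, zero_mul, add_zero, dot_self, inv_div]
  generalize ll p X = t at *
  generalize ll p Y = s at *
  have : t⁻¹ • X - s⁻¹ • Y = (t * s)⁻¹ • -(t • Y - s • X) := by
    rw [neg_sub, smul_sub, smul_smul, smul_smul]
    congr 2 <;> field_simp
  rw [this, norm_smul, norm_neg, Real.sqrt_sq (norm_nonneg _), Real.norm_eq_abs,
    abs_of_pos (by positivity), div_eq_inv_mul]

lemma kl_eq (N : Nm0 M d k p e) (he : e < 0) {X Y : ℂ} (hX : X ∈ M) (hY : Y ∈ M) :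
    Real.cosh (√(-e) / k * d X Y) = be e X (ll p X) Y (ll p Y)
      / √(be e X (ll p X) X (ll p X) * be e Y (ll p Y) Y (ll p Y)) := by
  have hκ : 0 < √(-e) := Real.sqrt_pos.2 (by linarith)
  have q : √(-e) ^ 2 = -e := Real.sq_sqrt (by linarith)
  have b2 := N.pos X hX
  have b3 := N.pos Y hY
  by_cases hne : X = Y
  · rw [← hne, N.pm.refl X hX, mul_zero, Real.cosh_zero, Real.sqrt_mul_self b2.le, div_self b2.ne']
  have b1 := be_pos he.le (N.ll_pos he.le hX) (N.ll_pos he.le hY) b2 b3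
  have b4 := N.Hh_pos hX (Y := Y) hne
  have c1 := cosh_prim hκ ((N.mem_II hX hY hne).resolve_left he.not_gt)
  rw [q, sub_neg_eq_add, cc_sq b4] at c1
  rw [N.dist_eq (prim_neg he) hX hY hne, ← mul_assoc, div_mul_cancel₀ _ N.kpos.ne',
    ← sq_eq_sq₀ (Real.cosh_pos _).le (by positivity), c1, div_pow,
    Real.sq_sqrt (mul_pos b2 b3).le, cc, div_pow, Real.sq_sqrt b4.le]
  field_simp

lemma sph_eq (N : Nm0 M d k p e) (he : 0 < e) {X Y : ℂ} (hX : X ∈ M) (hY : Y ∈ M) :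
    √e / k * d X Y = Real.arccos (be e X (ll p X) Y (ll p Y)
      / √(be e X (ll p X) X (ll p X) * be e Y (ll p Y) Y (ll p Y))) := by
  have hκ : 0 < √e := Real.sqrt_pos.2 he
  have b2 := N.pos X hX
  have b3 := N.pos Y hY
  by_cases hne : X = Y
  · rw [← hne, N.pm.refl X hX, mul_zero, Real.sqrt_mul_self b2.le, div_self b2.ne', Real.arccos_one]
  have b4 := N.Hh_pos hX (Y := Y) hne
  have s4 := Real.sqrt_pos.2 b4
  rw [N.dist_eq (prim_pos he) hX hY hne, ← mul_assoc, div_mul_cancel₀ _ N.kpos.ne',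
    mul_div_cancel₀ _ hκ.ne', Real.arccos, Real.arctan_eq_arcsin]
  congr 2
  have e1 : 1 + (cc e X (ll p X) Y (ll p Y) / √e) ^ 2 = be e X (ll p X) X (ll p X)
      * be e Y (ll p Y) Y (ll p Y) / (√(Hh e X (ll p X) Y (ll p Y)) * √e) ^ 2 := by
    have := cc_sq b4
    rw [div_pow, mul_pow, Real.sq_sqrt he.le, Real.sq_sqrt b4.le, ← div_div, ← this]
    field_simp; ring
  rw [e1, Real.sqrt_div' _ (sq_nonneg _), Real.sqrt_sq (by positivity), cc]
  have := Real.sqrt_pos.2 (mul_pos b2 b3)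
  field_simp

end Nm0

/-- A projective map of the plane in homogeneous coordinates. -/
structure Pm where
  x0 : ℂ
  a : ℂ
  b : ℂ
  t0 : ℝ
  α : ℝ
  β : ℝ

namespace Pm
variable (P : Pm)
noncomputable def x (X : ℂ) : ℂ := P.x0 + X.re • P.a + X.im • P.b
def t (X : ℂ) : ℝ := P.t0 + X.re * P.α + X.im * P.β
def det : ℝ := P.t0 * cr P.a P.b - P.α * cr P.x0 P.b + P.β * cr P.x0 P.a
/-- the form of the model evaluated at the images of two points -/
noncomputable def B (e : ℝ) (X Y : ℂ) : ℝ := be e (P.x X) (P.t X) (P.x Y) (P.t Y)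
end Pm

/-- The metric is the pull-back of a model metric by a projective map. -/
def CKc (M : Set ℂ) (d : ℂ → ℂ → ℝ) : Prop :=
  ∃ c : ℝ, 0 < c ∧ ∃ P : Pm, P.det ≠ 0 ∧
    (((∀ X ∈ M, 0 < P.t X) ∧ ∀ X ∈ M, ∀ Y ∈ M,
        c * d X Y = ‖(P.t X)⁻¹ • P.x X - (P.t Y)⁻¹ • P.x Y‖) ∨
      ((∀ X ∈ M, 0 < P.t X ∧ 0 < P.B (-1) X X) ∧ ∀ X ∈ M, ∀ Y ∈ M,
        Real.cosh (c * d X Y) = P.B (-1) X Y / √(P.B (-1) X X * P.B (-1) Y Y)) ∨
      (∀ X ∈ M, ∀ Y ∈ M, c * d X Y = Real.arccos (P.B 1 X Y / √(P.B 1 X X * P.B 1 Y Y))))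

lemma exists_pm (O p : ℂ) (f : ℝ) {h κ : ℝ} (hh : 0 < h) (hκ : 0 < κ) : ∃ P : Pm, P.det ≠ 0 ∧
    ∀ X, P.x X = κ • TT (-f / h) h⁻¹ (X - O) ∧ P.t X = ll p (TT (-f / h) h⁻¹ (X - O)) := by
  refine ⟨⟨κ • TT (-f / h) h⁻¹ (-O), κ • TT (-f / h) h⁻¹ 1, κ • TT (-f / h) h⁻¹ Complex.I,
    ll p (TT (-f / h) h⁻¹ (-O)), cr p (TT (-f / h) h⁻¹ 1), cr p (TT (-f / h) h⁻¹ Complex.I)⟩, ?_,
    fun X => ⟨?_, ?_⟩⟩
  · have : Pm.det ⟨κ • TT (-f / h) h⁻¹ (-O), κ • TT (-f / h) h⁻¹ 1, κ • TT (-f / h) h⁻¹ Complex.I,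
        ll p (TT (-f / h) h⁻¹ (-O)), cr p (TT (-f / h) h⁻¹ 1), cr p (TT (-f / h) h⁻¹ Complex.I)⟩
        = κ ^ 2 * h⁻¹ := by
      simp only [Pm.det, ll, cr, TT, Complex.smul_re, Complex.smul_im, smul_eq_mul, Complex.one_re,
        Complex.one_im, Complex.I_re, Complex.I_im, Complex.neg_re, Complex.neg_im]
      ring
    rw [this]; positivity
  · apply Complex.ext <;> simp [Pm.x, TT, Complex.smul_re, Complex.smul_im] <;> ring
  · simp [Pm.t, ll, cr, TT]; ring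

theorem St2.ckc {M : Set ℂ} {d : ℂ → ℂ → ℝ} (H : PM0 M d) {Hq : ℂ → QF} (S : St2 M d Hq)
    (hne : M.Nonempty) : CKc M d := by
  obtain ⟨O, hO⟩ := hne
  obtain ⟨f, h, k, p, e, h0, N, -⟩ := S.normal H hO
  have LL : ∀ X, O + TT f h (TT (-f / h) h⁻¹ (X - O)) = X := fun X => by rw [TT_inv h0.ne']; abel
  have mem : ∀ X ∈ M, TT (-f / h) h⁻¹ (X - O) ∈ (fun x => O + TT f h x) ⁻¹' M := fun X hX => by
    rwa [mem_preimage, LL]
  rcases lt_trichotomy e 0 with he | rfl | he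
  · have hκ : 0 < √(-e) := Real.sqrt_pos.2 (by linarith)
    obtain ⟨P, hP, hx⟩ := exists_pm O p f h0 hκ
    have eB : ∀ X Y, P.B (-1) X Y = be e (TT (-f / h) h⁻¹ (X - O)) (ll p (TT (-f / h) h⁻¹ (X - O)))
        (TT (-f / h) h⁻¹ (Y - O)) (ll p (TT (-f / h) h⁻¹ (Y - O))) := fun X Y => by
      rw [Pm.B, (hx X).1, (hx X).2, (hx Y).1, (hx Y).2, be, be, dot_smul_l, dot_smul_r, ← mul_assoc √(-e),
        Real.mul_self_sqrt (by linarith)]; ring
    refine ⟨_, div_pos hκ N.kpos, P, hP, Or.inr (Or.inl ⟨fun X hX => ⟨?_, ?_⟩, fun X hX Y hY => ?_⟩)⟩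
    · rw [(hx X).2]; exact N.ll_pos he.le (mem X hX)
    · rw [eB]; exact N.pos _ (mem X hX)
    · have := N.kl_eq he (mem X hX) (mem Y hY)
      simp only [LL] at this
      rw [this, eB, eB, eB]
  · obtain ⟨P, hP, hx⟩ := exists_pm O p f h0 one_pos
    refine ⟨_, inv_pos.2 N.kpos, P, hP, Or.inl ⟨fun X hX => ?_, fun X hX Y hY => ?_⟩⟩
    · rw [(hx X).2]; exact N.ll_pos le_rfl (mem X hX)
    · have := N.euc_eq (mem X hX) (mem Y hY)
      simp only [LL] at this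
      rw [this, (hx X).1, (hx X).2, (hx Y).1, (hx Y).2, one_smul, one_smul]
  · have hκ : 0 < √e := Real.sqrt_pos.2 he
    obtain ⟨P, hP, hx⟩ := exists_pm O p f h0 hκ
    have eB : ∀ X Y, P.B 1 X Y = be e (TT (-f / h) h⁻¹ (X - O)) (ll p (TT (-f / h) h⁻¹ (X - O)))
        (TT (-f / h) h⁻¹ (Y - O)) (ll p (TT (-f / h) h⁻¹ (Y - O))) := fun X Y => by
      rw [Pm.B, (hx X).1, (hx X).2, (hx Y).1, (hx Y).2, be, be, dot_smul_l, dot_smul_r, ← mul_assoc √e,
        Real.mul_self_sqrt he.le]; ring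
    refine ⟨_, div_pos hκ N.kpos, P, hP, Or.inr (Or.inr fun X hX Y hY => ?_)⟩
    have := N.sph_eq he (mem X hX) (mem Y hY)
    simp only [LL] at this
    rw [this, eB, eB, eB]

theorem PM0.ckc_of_lq {M : Set ℂ} {d : ℂ → ℂ → ℝ} (H : PM0 M d) (hs : Strict M d) (hq : LQ M d)
    (hne : M.Nonempty) : CKc M d := by
  obtain ⟨Hq, S⟩ := H.st2_of_lq hs hq
  exact S.ckc H hne

end Pool.Agent.P.MP_ec5bc9_gt.H13
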