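import Pool.Agent.P.MP_ec5bc9_gt.L3

/-! The converse: in the models small parabolic conics are quadrics. -/

set_option autoImplicit false

namespace Pool.Agent.P.MP_ec5bc9_gt.H13

open Set Filter Topology

attribute [-simp] Complex.real_smul

def Aff (g : ℂ → ℝ) : Prop := ∃ (l : ℂ) (c : ℝ), ∀ X, g X = dot l X + c
def Quad (g : ℂ → ℝ) : Prop := ∃ C : Con, ∀ X, g X = C.q X

lemma Aff.sq {g : ℂ → ℝ} (h : Aff g) : Quad fun X => g X ^ 2 := by
  obtain ⟨l, c, h⟩ := h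
  refine ⟨⟨⟨l.re ^ 2, l.re * l.im, l.im ^ 2⟩, (2 * c) • l, c ^ 2⟩, fun X => ?_⟩
  simp only [h, Con.q, QF.ev, dot_smul_l]; simp only [dot]; ring

lemma Quad.add {g g' : ℂ → ℝ} (h : Quad g) (h' : Quad g') : Quad fun X => g X + g' X := by
  obtain ⟨C, h⟩ := h
  obtain ⟨C', h'⟩ := h'
  refine ⟨⟨⟨C.A.a + C'.A.a, C.A.b + C'.A.b, C.A.c + C'.A.c⟩, C.l + C'.l, C.k + C'.k⟩, fun X => ?_⟩
  simp only [h, h', Con.q, QF.ev, dot_add_l]; ring

lemma Quad.smul {g : ℂ → ℝ} (h : Quad g) (r : ℝ) : Quad fun X => r * g X := by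
  obtain ⟨C, h⟩ := h
  refine ⟨⟨⟨r * C.A.a, r * C.A.b, r * C.A.c⟩, r • C.l, r * C.k⟩, fun X => ?_⟩
  simp only [h, Con.q, QF.ev, dot_smul_l]; ring

namespace Pm
variable (P : Pm)

noncomputable def lx (w : ℂ) : ℂ := w.re • P.a + w.im • P.b
def lt (w : ℂ) : ℝ := w.re * P.α + w.im * P.β
noncomputable def H (e : ℝ) (X Y : ℂ) : ℝ := Hh e (P.x X) (P.t X) (P.x Y) (P.t Y)

lemma aff (r s u : ℝ) : Aff fun X => r * (P.x X).re + s * (P.x X).im + u * P.t X := by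
  refine ⟨⟨r * P.a.re + s * P.a.im + u * P.α, r * P.b.re + s * P.b.im + u * P.β⟩,
    r * P.x0.re + s * P.x0.im + u * P.t0, fun X => ?_⟩
  simp only [x, t, dot, Complex.add_re, Complex.add_im, Complex.smul_re, Complex.smul_im, smul_eq_mul]
  ring

lemma x_add (X w : ℂ) (τ : ℝ) : P.x (X + τ • w) = P.x X + τ • P.lx w := by
  apply Complex.ext <;> simp [x, lx, Complex.smul_re, Complex.smul_im] <;> ring

lemma t_add (X w : ℂ) (τ : ℝ) : P.t (X + τ • w) = P.t X + τ * P.lt w := by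
  simp [t, lt, Complex.smul_re, Complex.smul_im]; ring

lemma det3 (X w v : ℂ) : P.t X * cr (P.lx w) (P.lx v) - P.lt w * cr (P.x X) (P.lx v)
    + P.lt v * cr (P.x X) (P.lx w) = P.det * cr w v := by
  simp only [x, t, lx, lt, det, cr, Complex.add_re, Complex.add_im, Complex.smul_re, Complex.smul_im,
    smul_eq_mul]; ring

lemma continuous_x : Continuous P.x := by unfold x; fun_prop
lemma continuous_t : Continuous P.t := by unfold t; fun_prop

lemma B_one_pos (hP : P.det ≠ 0) (X : ℂ) : 0 < P.B 1 X X := by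
  rw [B, be, one_mul, dot_self]
  by_contra hc
  have h1 : P.t X = 0 := by nlinarith [sq_nonneg ‖P.x X‖, mul_self_nonneg (P.t X)]
  have h2 : P.x X = 0 := norm_eq_zero.1 (by nlinarith [norm_nonneg (P.x X), mul_self_nonneg (P.t X)])
  have := P.det3 X 1 Complex.I
  rw [h1, h2] at this
  simp [cr] at this
  exact hP this.symm

lemma line_ne (hP : P.det ≠ 0) {e : ℝ} {Y w : ℂ} (hY : 0 < P.B e Y Y) (hw : w ≠ 0) :
    Hh e (P.x Y) (P.t Y) (P.lx w) (P.lt w) ≠ 0 := by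
  intro h0
  have := cs_id e (P.x Y) (P.t Y) (P.lx w) (P.lt w) (P.lx (Complex.I * w)) (P.lt (Complex.I * w))
  rw [h0, P.det3] at this
  have c : cr w (Complex.I * w) = ‖w‖ ^ 2 := by rw [← dot_self]; simp [cr, dot]
  have p1 : 0 < (P.det * cr w (Complex.I * w)) ^ 2 := by
    rw [c]; have := norm_pos_iff.2 hw; positivity
  have p2 := mul_pos hY p1
  rw [B] at p2
  nlinarith [sq_nonneg (Pb e (P.x Y) (P.t Y) (P.lx w) (P.lt w) (P.lx (Complex.I * w))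
    (P.lt (Complex.I * w)))]

end Pm

lemma stat_id (e : ℝ) (x : ℂ) (t : ℝ) (y : ℂ) (s : ℝ) (z : ℂ) (r τ : ℝ) :
    Hh e x t (y + τ • z) (s + τ * r) * be e y s y s
      - Hh e x t y s * be e (y + τ • z) (s + τ * r) (y + τ • z) (s + τ * r)
    = τ * (-2 * (be e x t y s * Pb e y s x t z r))
      + τ ^ 2 * (Hh e x t z r * be e y s y s - Hh e x t y s * be e z r z r) := by
  simp only [be, Hh, Pb, dot, cr, Complex.sub_re, Complex.sub_im, Complex.add_re, Complex.add_im,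
    Complex.smul_re, Complex.smul_im, smul_eq_mul]; ring

lemma lin_zero {a b : ℝ} (h : ∀ᶠ τ in 𝓝 (0 : ℝ), 0 ≤ τ * a + τ ^ 2 * b) : a = 0 := by
  have key : ∀ σ : ℝ, 0 ≤ σ * a := by
    intro σ
    have T : Tendsto (fun t : ℝ => σ * a + t * (σ ^ 2 * b)) (𝓝[>] 0) (𝓝 (σ * a + 0 * (σ ^ 2 * b))) :=
      (((tendsto_id.mono_left nhdsWithin_le_nhds)).mul_const _).const_add _
    rw [zero_mul, add_zero] at T
    have T2 : Tendsto (fun t : ℝ => t * σ) (𝓝[>] 0) (𝓝 0) := by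
      simpa using ((tendsto_id (x := 𝓝 (0 : ℝ))).mono_left nhdsWithin_le_nhds).mul_const σ
    apply ge_of_tendsto T
    filter_upwards [T2.eventually h, self_mem_nhdsWithin] with t h1 h2
    have ht : 0 < t := h2
    refine le_of_mul_le_mul_left ?_ ht
    linarith
  linarith [key 1, key (-1)]

lemma PM0.conv {M : Set ℂ} {d : ℂ → ℂ → ℝ} (H : PM0 M d) {P : Pm} (hP : P.det ≠ 0) {e : ℝ} {O : ℂ}
    (hO : O ∈ M) {V : Set ℂ} (hV : V ∈ 𝓝 O) (hB : ∀ X ∈ V, ∀ Y ∈ V, 0 < P.B e X Y)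
    (mono : ∀ X ∈ V, ∀ Y ∈ V, ∀ Z ∈ V,
      (d X Y ≤ d X Z ↔ P.H e X Y / P.B e Y Y ≤ P.H e X Z / P.B e Z Z)) :
    ∃ U ∈ 𝓝 O, U ⊆ M ∧ ∀ p ∈ U, ∀ q ∈ U, ∀ F ∈ U, p ≠ q → (p, q, F) ∈ Good M U d := by
  obtain ⟨m, δ, hm, hδ, s1, s2, near, cpt⟩ := H.small hO (interior_mem_nhds.2 hV)
  refine ⟨Metric.ball O δ, Metric.ball_mem_nhds O hδ, s2, fun Y hY q hq F hF hne => ?_⟩
  obtain ⟨w, hw⟩ : ∃ w, w = q - Y := ⟨_, rfl⟩
  have hw0 : w ≠ 0 := hw ▸ sub_ne_zero.2 hne.symm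
  have iV : ∀ {X}, X ∈ Metric.ball O δ → X ∈ V := fun h => interior_subset (s1 h)
  obtain ⟨K, hK⟩ : ∃ K, K = Hh e (P.x Y) (P.t Y) (P.lx w) (P.lt w) := ⟨_, rfl⟩
  have K0 : K ≠ 0 := hK ▸ P.line_ne hP (hB Y (iV hY) Y (iV hY)) hw0
  obtain ⟨g, hg⟩ : ∃ g : ℂ → ℝ, ∀ X, g X = P.t Y * cr (P.x X) (P.lx w) - P.t X * cr (P.x Y) (P.lx w)
    + P.lt w * cr (P.x Y) (P.x X) := ⟨_, fun _ => rfl⟩
  have hquad : Quad fun X => K * P.H e X F + -P.B e F F * g X ^ 2 := by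
    refine Quad.add (Quad.smul ?_ _) (Quad.smul (Aff.sq ?_) _)
    · have := ((P.aff (-P.t F) 0 (P.x F).re).sq.add (P.aff 0 (-P.t F) (P.x F).im).sq).add
        ((P.aff (P.x F).im (-(P.x F).re) 0).sq.smul e)
      convert this using 2 with X
      simp only [Pm.H, Hh, Pb, dot, cr, Complex.sub_re, Complex.sub_im, Complex.smul_re,
        Complex.smul_im, smul_eq_mul]; ring
    · have := P.aff (P.t Y * (P.lx w).im - P.lt w * (P.x Y).im)
        (-(P.t Y * (P.lx w).re) + P.lt w * (P.x Y).re) (-cr (P.x Y) (P.lx w))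
      convert this using 2 with X
      rw [hg]; simp only [cr]; ring
  obtain ⟨C, hC⟩ := hquad
  refine ⟨C, fun X hX => ?_⟩
  simp only [← hw]
  have lt : d X Y < m / 4 := by
    linarith [H.tri X (s2 hX) O hO Y (s2 hY), H.symm X (s2 hX) O hO, near X hX, near Y hY]
  obtain ⟨k1, k2⟩ := cpt X hX (d X Y) (by linarith)
  obtain ⟨s, hs, e1⟩ := H.exists_foot (s2 hX) (s2 hY) hw0 k1
  have le1 : d X (Y + s • w) ≤ d X Y := by
    rw [e1]; simpa using H.dl_le (Y := Y) (w := w) (s := 0) (s2 hX) (by simpa using s2 hY)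
  obtain ⟨Z, hZ⟩ : ∃ Z, Z = Y + s • w := ⟨_, rfl⟩
  have zi : Z ∈ interior V := hZ ▸ k2 ⟨hs, le1⟩
  have zV : Z ∈ V := interior_subset zi
  rw [← hZ] at hs e1
  have T : Tendsto (fun τ : ℝ => Z + τ • w) (𝓝 0) (𝓝 Z) := by
    have : Continuous fun τ : ℝ => Z + τ • w := by fun_prop
    simpa using this.tendsto 0
  have st := lin_zero (a := -2 * (P.B e X Z * Pb e (P.x Z) (P.t Z) (P.x X) (P.t X) (P.lx w) (P.lt w)))
    (b := Hh e (P.x X) (P.t X) (P.lx w) (P.lt w) * P.B e Z Z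
      - P.H e X Z * be e (P.lx w) (P.lt w) (P.lx w) (P.lt w)) (by
    filter_upwards [T.eventually (isOpen_interior.mem_nhds zi), H.eventually_mem hs T] with τ a1 a2
    have a3 : Z + τ • w ∈ V := interior_subset a1
    have a4 : d X Z ≤ d X (Z + τ • w) := by
      have e2 : Z + τ • w = Y + (s + τ) • w := by rw [hZ]; module
      rw [e1, e2]; exact H.dl_le (s2 hX) (e2 ▸ a2)
    have a5 := (mono X (iV hX) Z zV _ a3).1 a4
    rw [div_le_div_iff₀ (hB Z zV Z zV) (hB _ a3 _ a3)] at a5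
    have a6 := stat_id e (P.x X) (P.t X) (P.x Z) (P.t Z) (P.lx w) (P.lt w) τ
    simp only [Pm.H, Pm.B, P.x_add, P.t_add] at a5 ⊢
    linarith)
  have pb : Pb e (P.x Z) (P.t Z) (P.x X) (P.t X) (P.lx w) (P.lt w) = 0 := by
    have := hB X (iV hX) Z zV
    have h2 : P.B e X Z * Pb e (P.x Z) (P.t Z) (P.x X) (P.t X) (P.lx w) (P.lt w) = 0 := by linarith
    exact (mul_eq_zero.1 h2).resolve_left this.ne'
  have cs := cs_id e (P.x Z) (P.t Z) (P.x X) (P.t X) (P.lx w) (P.lt w)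
  have eK : Hh e (P.x Z) (P.t Z) (P.lx w) (P.lt w) = K := by
    rw [hK, hZ, P.x_add, P.t_add]
    simp only [Hh, Pb, dot, cr, Complex.sub_re, Complex.sub_im, Complex.add_re, Complex.add_im,
      Complex.smul_re, Complex.smul_im, smul_eq_mul]; ring
  have eg : P.t Z * cr (P.x X) (P.lx w) - P.t X * cr (P.x Z) (P.lx w)
      + P.lt w * cr (P.x Z) (P.x X) = g X := by
    rw [hg, hZ, P.x_add, P.t_add]
    simp only [cr, Complex.add_re, Complex.add_im, Complex.smul_re, Complex.smul_im, smul_eq_mul]; ring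
  rw [pb, eK, eg, Hh_symm] at cs
  have val : P.H e X Z / P.B e Z Z = g X ^ 2 / K := by
    rw [div_eq_div_iff (hB Z zV Z zV).ne' K0, Pm.H, Pm.B]; linarith
  rw [← hC, ← e1, le_antisymm_iff, mono X (iV hX) F (iV hF) Z zV, mono X (iV hX) Z zV F (iV hF),
    ← le_antisymm_iff, val, div_eq_div_iff (hB F (iV hF) F (iV hF)).ne' K0]
  constructor <;> intro h <;> linarith

theorem CKc.good {M : Set ℂ} {d : ℂ → ℂ → ℝ} (H : PM0 M d) (h : CKc M d) {O : ℂ} (hO : O ∈ M) :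
    ∃ U ∈ 𝓝 O, U ⊆ M ∧ ∀ p ∈ U, ∀ q ∈ U, ∀ F ∈ U, p ≠ q → (p, q, F) ∈ Good M U d := by
  obtain ⟨c, hc, P, hP, ⟨h1, h2⟩ | ⟨h1, h2⟩ | h2⟩ := h
  · refine H.conv hP (e := 0) hO (H.isOpen.mem_nhds hO) (fun X hX Y hY => ?_) fun X hX Y hY Z hZ => ?_
    · simpa [Pm.B, be] using mul_pos (h1 X hX) (h1 Y hY)
    · have key : ∀ Y ∈ M, P.H 0 X Y / P.B 0 Y Y = (P.t X * (c * d X Y)) ^ 2 := by
        intro Y hY
        have a := h1 X hX
        have b := h1 Y hY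
        rw [h2 X hX Y hY, mul_pow, ← dot_self]
        simp only [Pm.H, Pm.B, Hh, Pb, be, dot, Complex.sub_re, Complex.sub_im, Complex.smul_re,
          Complex.smul_im, smul_eq_mul]
        field_simp; ring
      have a := h1 X hX
      have n1 := H.nonneg hX hY
      have n2 := H.nonneg hX hZ
      rw [key Y hY, key Z hZ, sq_le_sq₀ (by positivity) (by positivity), mul_le_mul_iff_right₀ a,
        mul_le_mul_iff_right₀ hc]
  · refine H.conv hP (e := -1) hO (H.isOpen.mem_nhds hO) (fun X hX Y hY => ?_) fun X hX Y hY Z hZ => ?_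
    · exact be_pos (by norm_num) (h1 X hX).1 (h1 Y hY).1 (h1 X hX).2 (h1 Y hY).2
    · have key : ∀ Y ∈ M, P.H (-1) X Y / P.B (-1) Y Y
          = P.B (-1) X X * (Real.cosh (c * d X Y) ^ 2 - 1) := by
        intro Y hY
        have a := (h1 X hX).2
        have b := (h1 Y hY).2
        have g := gram (-1) (P.x X) (P.t X) (P.x Y) (P.t Y)
        rw [h2 X hX Y hY, div_pow, Real.sq_sqrt (mul_pos a b).le]
        field_simp
        simp only [Pm.H, Pm.B]; linarith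
      have n1 := mul_nonneg hc.le (H.nonneg hX hY)
      have n2 := mul_nonneg hc.le (H.nonneg hX hZ)
      rw [key Y hY, key Z hZ, mul_le_mul_iff_right₀ (h1 X hX).2, sub_le_sub_iff_right,
        sq_le_sq₀ (Real.cosh_pos _).le (Real.cosh_pos _).le, Real.cosh_le_cosh, abs_of_nonneg n1,
        abs_of_nonneg n2, mul_le_mul_iff_right₀ hc]
  · have cB : Continuous fun p : ℂ × ℂ => P.B 1 p.1 p.2 := by
      have := P.continuous_x
      have := P.continuous_t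
      simp only [Pm.B, be]; fun_prop
    obtain ⟨V1, v1, V2, v2, hV⟩ := mem_nhds_prod_iff.1
      ((cB.tendsto (O, O)).eventually (lt_mem_nhds (P.B_one_pos hP O)))
    have pos : ∀ X ∈ V1 ∩ V2 ∩ M, ∀ Y ∈ V1 ∩ V2 ∩ M, 0 < P.B 1 X Y := fun X hX Y hY =>
      hV (a := (X, Y)) ⟨hX.1.1, hY.1.2⟩
    refine H.conv hP (e := 1) hO (inter_mem (inter_mem v1 v2) (H.isOpen.mem_nhds hO)) pos
      fun X hX Y hY Z hZ => ?_
    have a := P.B_one_pos hP X
    have key : ∀ Y, P.H 1 X Y / P.B 1 Y Y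
        = P.B 1 X X * (1 - (P.B 1 X Y / √(P.B 1 X X * P.B 1 Y Y)) ^ 2) := by
      intro Y
      have b := P.B_one_pos hP Y
      have g := gram 1 (P.x X) (P.t X) (P.x Y) (P.t Y)
      rw [div_pow, Real.sq_sqrt (mul_pos a b).le]
      field_simp
      simp only [Pm.H, Pm.B]; linarith
    have rng : ∀ Y ∈ V1 ∩ V2 ∩ M, 0 ≤ P.B 1 X Y / √(P.B 1 X X * P.B 1 Y Y) ∧
        P.B 1 X Y / √(P.B 1 X X * P.B 1 Y Y) ∈ Icc (-1 : ℝ) 1 := by
      intro Y hY
      have b := P.B_one_pos hP Y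
      have p0 : 0 ≤ P.B 1 X Y / √(P.B 1 X X * P.B 1 Y Y) :=
        div_nonneg (pos X hX Y hY).le (Real.sqrt_nonneg _)
      refine ⟨p0, by linarith, ?_⟩
      rw [div_le_one (Real.sqrt_pos.2 (mul_pos a b))]
      refine Real.le_sqrt_of_sq_le ?_
      have g := gram 1 (P.x X) (P.t X) (P.x Y) (P.t Y)
      have : 0 ≤ Hh 1 (P.x X) (P.t X) (P.x Y) (P.t Y) := by
        rw [Hh, Pb, dot_self]; nlinarith [mul_self_nonneg (cr (P.x X) (P.x Y))]
      simp only [Pm.B]; linarith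
    rw [key Y, key Z, mul_le_mul_iff_right₀ a, sub_le_sub_iff_left,
      sq_le_sq₀ (rng Z hZ).1 (rng Y hY).1, ← mul_le_mul_iff_right₀ hc, h2 X hX.2 Y hY.2,
      h2 X hX.2 Z hZ.2, Real.strictAntiOn_arccos.le_iff_ge (rng Y hY).2 (rng Z hZ).2]

theorem CKc.lq {M : Set ℂ} {d : ℂ → ℂ → ℝ} (H : PM0 M d) (h : CKc M d) {O : ℂ} (hO : O ∈ M) :
    ∃ U ∈ 𝓝 O, U ⊆ M ∧ U ×ˢ U ×ˢ U ⊆ closure (Good M U d) := by
  obtain ⟨U, hU, s, g⟩ := h.good H hO
  obtain ⟨W, w1, w2, w3⟩ := mem_nhds_iff.1 hU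
  have mono : Good M U d ⊆ Good M W d := fun t ⟨C, hC⟩ => ⟨C, fun X hX => hC X (w1 hX)⟩
  refine ⟨W, w2.mem_nhds w3, w1.trans s, ?_⟩
  rintro ⟨p, q, F⟩ ⟨hp, hq, hF⟩
  by_cases hne : p = q
  · subst hne
    have T := small_r p 1
    refine mem_closure_of_tendsto (f := fun ε : ℝ => (p, p + ε • (1 : ℂ), F)) (b := 𝓝[>] 0)
      (tendsto_const_nhds.prodMk_nhds (T.prodMk_nhds tendsto_const_nhds)) ?_
    filter_upwards [T.eventually (w2.mem_nhds hp), self_mem_nhdsWithin] with ε a1 a2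
    have : (0 : ℝ) < ε := a2
    exact mono (g p (w1 hp) _ (w1 a1) F (w1 hF) (by simp [this.ne']))
  · exact subset_closure (mono (g p (w1 hp) q (w1 hq) F (w1 hF) hne))

end Pool.Agent.P.MP_ec5bc9_gt.H13
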