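import Pool.Agent.P.MP_ec5bc9_gt.G13
import Pool.Agent.P.MP_ec5bc9_gt.L4

/-! Transfer of the local theorem to the Euclidean plane of the statement. -/

set_option autoImplicit false

namespace Pool.Agent.P.MP_ec5bc9_gt.H13

open Set Filter Topology Matrix

attribute [-simp] Complex.real_smul

abbrev E2 := EuclideanSpace ℝ (Fin 2)

/-- The axioms of a projective-metric plane of affine type. -/
def AffP (M : Set E2) (d : E2 → E2 → ℝ) : Prop :=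
  IsOpen M ∧ Convex ℝ M ∧ M.Nonempty ∧
  (∀ x ∈ M, ∀ y ∈ M, (d x y = 0 ↔ x = y)) ∧
  (∀ x ∈ M, ∀ y ∈ M, d x y = d y x) ∧
  (∀ x ∈ M, ∀ y ∈ M, ∀ z ∈ M, d x z ≤ d x y + d y z) ∧
  (∀ x ∈ M, Filter.HasBasis (nhdsWithin x M) (fun r : ℝ => 0 < r)
    (fun r => {y | y ∈ M ∧ d x y < r})) ∧
  (∀ x ∈ M, ∀ y ∈ M, ∀ z ∈ M, y ∈ segment ℝ x z → d x z = d x y + d y z) ∧
  (∀ x ∈ M, ∀ y ∈ M, ∀ z ∈ M, ¬ Collinear ℝ ({x, y, z} : Set E2) → d x z < d x y + d y z)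

lemma AffP.toC {M : Set E2} {d : E2 → E2 → ℝ} (h : AffP M d) :
    PM0 (pg ⁻¹' M) (fun a b => d (pg a) (pg b)) ∧ Strict (pg ⁻¹' M) (fun a b => d (pg a) (pg b)) := by
  obtain ⟨hO, hC, hne, h0, hs, ht, hb, ha, hst⟩ := h
  have hnn : ∀ x ∈ M, ∀ y ∈ M, 0 ≤ d x y := by
    intro x hx y hy
    have := ht x hx y hy x hx
    rw [(h0 x hx x hx).2 rfl, hs y hy x hx] at this
    linarith
  have hcont : ContinuousOn (fun p : EuclideanSpace ℝ (Fin 2) × EuclideanSpace ℝ (Fin 2) => d p.1 p.2)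
      (M ×ˢ M) := by
    rintro ⟨x, y⟩ ⟨hx, hy⟩
    rw [ContinuousWithinAt, nhdsWithin_prod_eq, Metric.tendsto_nhds]
    intro ε hε
    have a1 := (hb x hx).mem_of_mem (show 0 < ε / 2 by linarith)
    have a2 := (hb y hy).mem_of_mem (show 0 < ε / 2 by linarith)
    filter_upwards [prod_mem_prod a1 a2]
    rintro ⟨x', y'⟩ ⟨⟨b1, b2⟩, ⟨b3, b4⟩⟩
    simp only at *
    rw [Real.dist_eq, abs_lt]
    constructor
    · linarith [ht x hx x' b1 y hy, ht x' b1 y' b3 y hy, hs y' b3 y hy]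
    · linarith [ht x' b1 x hx y' b3, ht x hx y hy y' b3, hs x' b1 x hx]
  refine ⟨⟨hO.preimage pg.continuous, hC.linear_preimage pg.toLinearEquiv.toLinearMap,
    fun x hx => (h0 _ hx _ hx).2 rfl, fun x hx y hy hxy => ?_, fun x hx y hy => hs _ hx _ hy,
    fun x hx y hy z hz => ht _ hx _ hy _ hz, fun x hx z hz t ht' => ?_, ?_⟩, fun x hx y hy z hz hc => ?_⟩
  · exact lt_of_le_of_ne (hnn _ hx _ hy) fun e => hxy (pg.injective ((h0 _ hx _ hy).1 e.symm))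
  · have hm : pg (x + t • (z - x)) ∈ segment ℝ (pg x) (pg z) := by
      rw [segment_eq_image']
      exact ⟨t, ht', by simp⟩
    exact ha _ hx _ (hC.segment_subset hx hz hm) _ hz hm
  · exact hcont.comp (f := fun p : ℂ × ℂ => (pg p.1, pg p.2)) (by fun_prop) (fun p hp => hp)
  · apply hst _ hx _ hy _ hz
    rw [collinear_iff_of_mem (p₀ := pg x) (by simp)]
    rintro ⟨v, hv⟩
    obtain ⟨r1, e1⟩ := hv (pg y) (by simp)
    obtain ⟨r2, e2⟩ := hv (pg z) (by simp)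
    apply hc
    have f1 : y - x = r1 • pg.symm v := by
      apply pg.injective; rw [map_sub, e1]; simp
    have f2 : z - x = r2 • pg.symm v := by
      apply pg.injective; rw [map_sub, e2]; simp
    rw [f1, f2]; simp

lemma dl_eq (M : Set E2) (d : E2 → E2 → ℝ) (Y q X : ℂ) :
    dl (pg ⁻¹' M) (fun a b => d (pg a) (pg b)) Y (q - Y) X
      = sInf ((fun Z => d (pg X) Z) '' ((affineSpan ℝ {pg Y, pg q} : Set E2) ∩ M)) := by
  have span : ∀ Z, Z ∈ affineSpan ℝ {pg Y, pg q} ↔ ∃ s : ℝ, pg (Y + s • (q - Y)) = Z := by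
    intro Z
    rw [mem_affineSpan_pair_iff_exists_lineMap_eq]
    constructor
    · rintro ⟨r, rfl⟩
      exact ⟨r, by simp [AffineMap.lineMap_apply, add_comm]⟩
    · rintro ⟨s, rfl⟩
      exact ⟨s, by simp [AffineMap.lineMap_apply, add_comm]⟩
  unfold dl
  congr 1
  ext r
  constructor
  · rintro ⟨s, hs', rfl⟩
    exact ⟨pg (Y + s • (q - Y)), ⟨(span _).2 ⟨s, rfl⟩, hs'⟩, rfl⟩
  · rintro ⟨Z, ⟨z1, z2⟩, rfl⟩
    obtain ⟨s, rfl⟩ := (span Z).1 z1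
    exact ⟨s, z2, rfl⟩

/-- The triples whose conic agrees in `U` with a quadric. -/
def GoodE (M U : Set E2) (d : E2 → E2 → ℝ) : Set (E2 × E2 × E2) :=
  {t | ∃ A : Matrix (Fin 3) (Fin 3) ℝ, ∀ X ∈ U,
    (d X t.2.2 = sInf ((fun Y => d X Y) '' ((affineSpan ℝ {t.1, t.2.1} : Set E2) ∩ M)) ↔
      ![X 0, X 1, 1] ⬝ᵥ (A *ᵥ ![X 0, X 1, 1]) = 0)}

lemma good_iff (M U : Set E2) (d : E2 → E2 → ℝ) (p q F : ℂ) :
    (pg p, pg q, pg F) ∈ GoodE M U d ↔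
      (p, q, F) ∈ Good (pg ⁻¹' M) (pg ⁻¹' U) (fun a b => d (pg a) (pg b)) := by
  constructor
  · rintro ⟨A, hA⟩
    refine ⟨⟨⟨A 0 0, (A 0 1 + A 1 0) / 2, A 1 1⟩, ⟨A 0 2 + A 2 0, A 1 2 + A 2 1⟩, A 2 2⟩,
      fun X hX => ?_⟩
    simp only [dl_eq]
    rw [hA (pg X) hX, pg_zero, pg_one]
    refine Eq.congr_left ?_
    simp [Con.q, QF.ev, dot, dotProduct, Matrix.mulVec, Fin.sum_univ_three]; ring
  · rintro ⟨C, hC⟩
    refine ⟨!![C.A.a, C.A.b, C.l.re; C.A.b, C.A.c, C.l.im; 0, 0, C.k], fun X hX => ?_⟩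
    obtain ⟨X, rfl⟩ := pg.surjective X
    have := hC X hX
    simp only [dl_eq] at this
    rw [this, pg_zero, pg_one]
    refine Eq.congr_left ?_
    simp [Con.q, QF.ev, dot, dotProduct, Matrix.mulVec, Fin.sum_univ_three]; ring

lemma closure_iff (M U : Set E2) (d : E2 → E2 → ℝ) :
    U ×ˢ U ×ˢ U ⊆ closure (GoodE M U d) ↔ (pg ⁻¹' U) ×ˢ (pg ⁻¹' U) ×ˢ (pg ⁻¹' U) ⊆
      closure (Good (pg ⁻¹' M) (pg ⁻¹' U) (fun a b => d (pg a) (pg b))) := by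
  constructor
  · rintro h ⟨p, q, F⟩ ⟨h1, h2, h3⟩
    have := map_mem_closure (f := fun t : E2 × E2 × E2 => (pg.symm t.1, pg.symm t.2.1, pg.symm t.2.2))
      (by fun_prop) (h (a := (pg p, pg q, pg F)) ⟨h1, h2, h3⟩)
      (t := Good (pg ⁻¹' M) (pg ⁻¹' U) (fun a b => d (pg a) (pg b)))
      (fun t ht => (good_iff M U d _ _ _).1 (by simpa using ht))
    simpa using this
  · rintro h ⟨p, q, F⟩ ⟨h1, h2, h3⟩
    have := map_mem_closure (f := fun t : ℂ × ℂ × ℂ => (pg t.1, pg t.2.1, pg t.2.2))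
      (by fun_prop) (h (a := (pg.symm p, pg.symm q, pg.symm F))
        ⟨by simpa using h1, by simpa using h2, by simpa using h3⟩)
      (t := GoodE M U d) (fun t ht => (good_iff M U d _ _ _).2 ht)
    simpa using this

def frm (e : ℝ) (u v : Fin 3 → ℝ) : ℝ := u 2 * v 2 + e * (u 0 * v 0 + u 1 * v 1)

/-- The metric is the pull-back of a model metric by a projective map. -/
def CKE (M : Set E2) (d : E2 → E2 → ℝ) : Prop :=
  ∃ c : ℝ, 0 < c ∧ ∃ T : Matrix (Fin 3) (Fin 3) ℝ, T.det ≠ 0 ∧ ∃ u : E2 → Fin 3 → ℝ,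
    (∀ x, u x = T *ᵥ ![x 0, x 1, 1]) ∧
    (((∀ x ∈ M, 0 < u x 2) ∧ ∀ x ∈ M, ∀ y ∈ M, c * d x y =
        √((u x 0 / u x 2 - u y 0 / u y 2) ^ 2 + (u x 1 / u x 2 - u y 1 / u y 2) ^ 2)) ∨
      ((∀ x ∈ M, 0 < u x 2 ∧ 0 < frm (-1) (u x) (u x)) ∧ ∀ x ∈ M, ∀ y ∈ M,
        Real.cosh (c * d x y) = frm (-1) (u x) (u y)
          / √(frm (-1) (u x) (u x) * frm (-1) (u y) (u y))) ∨
      (∀ x ∈ M, ∀ y ∈ M, c * d x y =
        Real.arccos (frm 1 (u x) (u y) / √(frm 1 (u x) (u x) * frm 1 (u y) (u y)))))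

lemma ck_body {M : Set E2} {d : E2 → E2 → ℝ} {c : ℝ} {P : Pm} {u : E2 → Fin 3 → ℝ}
    (h : ∀ X, u (pg X) 0 = (P.x X).re ∧ u (pg X) 1 = (P.x X).im ∧ u (pg X) 2 = P.t X) :
    (((∀ x ∈ M, 0 < u x 2) ∧ ∀ x ∈ M, ∀ y ∈ M, c * d x y =
        √((u x 0 / u x 2 - u y 0 / u y 2) ^ 2 + (u x 1 / u x 2 - u y 1 / u y 2) ^ 2)) ∨
      ((∀ x ∈ M, 0 < u x 2 ∧ 0 < frm (-1) (u x) (u x)) ∧ ∀ x ∈ M, ∀ y ∈ M,
        Real.cosh (c * d x y) = frm (-1) (u x) (u y)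
          / √(frm (-1) (u x) (u x) * frm (-1) (u y) (u y))) ∨
      (∀ x ∈ M, ∀ y ∈ M, c * d x y =
        Real.arccos (frm 1 (u x) (u y) / √(frm 1 (u x) (u x) * frm 1 (u y) (u y))))) ↔
    (((∀ X ∈ pg ⁻¹' M, 0 < P.t X) ∧ ∀ X ∈ pg ⁻¹' M, ∀ Y ∈ pg ⁻¹' M,
        c * d (pg X) (pg Y) = ‖(P.t X)⁻¹ • P.x X - (P.t Y)⁻¹ • P.x Y‖) ∨
      ((∀ X ∈ pg ⁻¹' M, 0 < P.t X ∧ 0 < P.B (-1) X X) ∧ ∀ X ∈ pg ⁻¹' M, ∀ Y ∈ pg ⁻¹' M,
        Real.cosh (c * d (pg X) (pg Y)) = P.B (-1) X Y / √(P.B (-1) X X * P.B (-1) Y Y)) ∨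
      (∀ X ∈ pg ⁻¹' M, ∀ Y ∈ pg ⁻¹' M,
        c * d (pg X) (pg Y) = Real.arccos (P.B 1 X Y / √(P.B 1 X X * P.B 1 Y Y)))) := by
  have hB : ∀ e X Y, frm e (u (pg X)) (u (pg Y)) = P.B e X Y := fun e X Y => by
    rw [frm, (h X).1, (h X).2.1, (h X).2.2, (h Y).1, (h Y).2.1, (h Y).2.2, Pm.B, be, dot]
  have hE : ∀ X Y, √((u (pg X) 0 / u (pg X) 2 - u (pg Y) 0 / u (pg Y) 2) ^ 2
      + (u (pg X) 1 / u (pg X) 2 - u (pg Y) 1 / u (pg Y) 2) ^ 2)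
      = ‖(P.t X)⁻¹ • P.x X - (P.t Y)⁻¹ • P.x Y‖ := fun X Y => by
    rw [(h X).1, (h X).2.1, (h X).2.2, (h Y).1, (h Y).2.1, (h Y).2.2, ← Real.sqrt_sq (norm_nonneg _),
      ← dot_self]
    congr 1
    simp only [dot, Complex.sub_re, Complex.sub_im, Complex.smul_re, Complex.smul_im, smul_eq_mul]
    ring
  have h2 : ∀ X, u (pg X) 2 = P.t X := fun X => (h X).2.2
  simp only [pg.surjective.forall, mem_preimage, hB, hE]
  simp only [h2]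

lemma ck_iff (M : Set E2) (d : E2 → E2 → ℝ) :
    CKE M d ↔ CKc (pg ⁻¹' M) (fun a b => d (pg a) (pg b)) := by
  constructor
  · rintro ⟨c, hc, T, hT, u, hu, h⟩
    refine ⟨c, hc, ⟨⟨T 0 2, T 1 2⟩, ⟨T 0 0, T 1 0⟩, ⟨T 0 1, T 1 1⟩, T 2 2, T 2 0, T 2 1⟩,
      fun e => hT ?_, (ck_body fun X => ?_).1 h⟩
    · rw [Matrix.det_fin_three]
      simp only [Pm.det, cr] at e
      linear_combination e
    · rw [hu, pg_zero, pg_one]
      refine ⟨?_, ?_, ?_⟩ <;>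
        simp [Pm.x, Pm.t, Matrix.mulVec, dotProduct, Fin.sum_univ_three, Complex.smul_re,
          Complex.smul_im] <;> ring
  · rintro ⟨c, hc, P, hP, h⟩
    refine ⟨c, hc, !![P.a.re, P.b.re, P.x0.re; P.a.im, P.b.im, P.x0.im; P.α, P.β, P.t0],
      fun e => hP ?_, _, fun _ => rfl, (ck_body fun X => ?_).2 h⟩
    · rw [Matrix.det_fin_three] at e
      simp at e
      simp only [Pm.det, cr]
      linear_combination e
    · simp only [pg_zero, pg_one]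
      refine ⟨?_, ?_, ?_⟩ <;>
        simp [Pm.x, Pm.t, Matrix.mulVec, dotProduct, Fin.sum_univ_three, Complex.smul_re,
          Complex.smul_im] <;> ring

theorem local_iff {M : Set E2} {d : E2 → E2 → ℝ} (h : AffP M d) :
    (∀ O ∈ M, ∃ U ∈ 𝓝 O, U ⊆ M ∧ U ×ˢ U ×ˢ U ⊆ closure (GoodE M U d)) ↔ CKE M d := by
  obtain ⟨H, hs⟩ := h.toC
  rw [ck_iff]
  constructor
  · intro hq
    obtain ⟨x, hx⟩ := h.2.2.1
    refine H.ckc_of_lq hs (fun O hO => ?_) ⟨pg.symm x, by simpa using hx⟩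
    obtain ⟨U, hU, -, h2⟩ := hq _ hO
    exact ⟨_, pg.continuous.continuousAt.preimage_mem_nhds hU, (closure_iff M U d).1 h2⟩
  · intro hc O hO
    obtain ⟨U, hU, h1, h2⟩ := hc.lq H (O := pg.symm O) (by simpa using hO)
    have e : pg ⁻¹' (pg.symm ⁻¹' U) = U := by ext; simp
    refine ⟨pg.symm ⁻¹' U, pg.symm.continuous.continuousAt.preimage_mem_nhds hU, fun x hx => ?_, ?_⟩
    · simpa using h1 hx
    · rw [closure_iff, e]; exact h2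

end Pool.Agent.P.MP_ec5bc9_gt.H13
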