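import Pool.Agent.P.MP_ec5bc9_gt.ProjBase

/-! Every point has a polar line. -/

set_option autoImplicit false

namespace Pool.Agent.P.MP_ec5bc9_gt

open Set Filter Topology

/-- Every parabolic conic is the zero set of a quadratic form. -/
def Conic (D : E3 → E3 → ℝ) : Prop :=
  ∀ n F : E3, inner ℝ n F ≠ 0 → ∃ B : E3 →ₗ[ℝ] E3 →ₗ[ℝ] ℝ, (∀ x y, B x y = B y x) ∧
    ∀ X, X ≠ 0 → (D X F = lineDist D n X ↔ B X X = 0)

lemma exists_perp (n : E3) : ∃ y : E3, y ≠ 0 ∧ inner ℝ n y = 0 := by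
  by_cases h : n 0 = 0
  · refine ⟨WithLp.toLp 2 ![1, 0, 0], ?_, ?_⟩
    · intro h0
      have := congrArg (fun v : E3 => v 0) h0
      simp at this
    · simp [inner3, h]
  · refine ⟨WithLp.toLp 2 ![n 1, -n 0, 0], ?_, ?_⟩
    · intro h0
      have := congrArg (fun v : E3 => v 1) h0
      simp at this
      exact h this
    · simp [inner3]; ring

lemma Ind.neg_right {a b : E3} (h : Ind a b) : Ind a (-b) := by
  intro s t hst
  have := h s (-t) (by rw [neg_smul, ← smul_neg]; exact hst)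
  exact ⟨this.1, by linarith [this.2]⟩

lemma Ind.add_left {a b : E3} (h : Ind a b) (t : ℝ) : Ind (a + t • b) b := by
  intro u v huv
  have := h u (u * t + v) (by rw [← huv, smul_add, add_smul, smul_smul]; abel)
  refine ⟨this.1, ?_⟩
  have h2 := this.2
  rw [this.1] at h2
  simpa using h2

lemma quad_ne (a b p q u μ t s : ℝ) (hμ : 0 < μ) (m1 : μ ≤ a) (m2 : μ ≤ b) (ht : 0 < t)
    (htK : t * (|p| + 2 * |q| + |u|) ≤ μ) (hs0 : 0 ≤ s) (hs1 : s ≤ 1) :
    t * (2 * ((1 - s) * a + s * b)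
      + t * ((1 - s) ^ 2 * p + 2 * (s * (1 - s)) * q + s ^ 2 * u)) ≠ 0 := by
  have aux : ∀ c y : ℝ, 0 ≤ c → c ≤ 1 → -|y| ≤ c * y := by
    intro c y h0 h1
    nlinarith [neg_abs_le y, abs_nonneg y]
  have e1 : μ ≤ (1 - s) * a + s * b := by nlinarith
  have f1 := aux ((1 - s) ^ 2) p (sq_nonneg _) (by nlinarith)
  have f2 := aux (s * (1 - s)) q (by nlinarith) (by nlinarith)
  have f3 := aux (s ^ 2) u (sq_nonneg _) (by nlinarith)
  have e2 : -(|p| + 2 * |q| + |u|) ≤ (1 - s) ^ 2 * p + 2 * (s * (1 - s)) * q + s ^ 2 * u := by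
    linarith
  have e3 := mul_le_mul_of_nonneg_left e2 ht.le
  refine mul_ne_zero ht.ne' (ne_of_gt ?_)
  linarith

namespace PM

variable {D : E3 → E3 → ℝ} {L : ℝ}

lemma nonneg (h : PM D L) {x y : E3} (hx : x ≠ 0) (hy : y ≠ 0) : 0 ≤ D x y := by
  have := h.tri x y x hx hy hx
  rw [h.self x hx, h.symm y x hy hx] at this
  linarith

lemma smul_right (h : PM D L) {x y : E3} {c : ℝ} (hc : c ≠ 0) (hx : x ≠ 0) (hy : y ≠ 0) :
    D x (c • y) = D x y := by
  rw [h.symm x _ hx (smul_ne_zero hc hy), h.smul_left y x c hc hy hx, h.symm y x hy hx]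

lemma neg_right (h : PM D L) {x y : E3} (hx : x ≠ 0) (hy : y ≠ 0) : D x (-y) = D x y := by
  rw [← neg_one_smul ℝ y, h.smul_right (by norm_num) hx hy]

lemma pos (h : PM D L) {x y : E3} (hxy : Ind x y) : 0 < D x y := by
  obtain ⟨s, -, -, hs, -, -, hb⟩ := h.line y x hxy.symm
  have := hb 0
  rw [zero_smul, add_zero] at this
  rw [this]
  exact lt_min (hs 0).1 (by linarith [(hs 0).2])

lemma le_half (h : PM D L) {x y : E3} (hx : x ≠ 0) (hy : y ≠ 0) : D x y ≤ L / 2 := by
  rcases ind_or_smul hx y with hxy | ⟨c, hc⟩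
  · obtain ⟨s, -, -, hs, -, -, hb⟩ := h.line y x hxy.symm
    have := hb 0
    rw [zero_smul, add_zero] at this
    rw [this]
    rcases le_total (s 0) (L / 2) with h1 | h1
    · exact (min_le_left _ _).trans h1
    · exact (min_le_right _ _).trans (by linarith)
  · have hc0 : c ≠ 0 := by
      rintro rfl
      exact hy (by rw [hc, zero_smul])
    rw [hc, h.smul_right hc0 hx hx, h.self x hx]
    linarith [h.Lpos]

lemma cont_left (h : PM D L) {x y : E3} (hx : x ≠ 0) (hy : y ≠ 0) :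
    ContinuousAt (fun z => D z y) x := by
  refine (h.cont y x hy hx).congr ?_
  filter_upwards [isOpen_ne.mem_nhds hx] with z hz
  exact h.symm y z hy hz

lemma lineDist_le (h : PM D L) {n X Y : E3} (hX : X ≠ 0) (hY : Y ≠ 0) (hn : inner ℝ n Y = 0) :
    lineDist D n X ≤ D X Y :=
  csInf_le ⟨0, by rintro _ ⟨Z, hZ, rfl⟩; exact h.nonneg hX hZ.1⟩ ⟨Y, ⟨hY, hn⟩, rfl⟩

lemma le_lineDist {n X : E3} {c : ℝ} (hc : ∀ Y, Y ≠ 0 → inner ℝ n Y = 0 → c ≤ D X Y) :
    c ≤ lineDist D n X := by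
  obtain ⟨y, hy⟩ := exists_perp n
  exact le_csInf ⟨_, y, hy, rfl⟩ (by rintro _ ⟨Z, hZ, rfl⟩; exact hc Z hZ.1 hZ.2)

lemma lineDist_lip (h : PM D L) {n X X' : E3} (hX : X ≠ 0) (hX' : X' ≠ 0) :
    lineDist D n X ≤ D X X' + lineDist D n X' := by
  have : lineDist D n X - D X X' ≤ lineDist D n X' := le_lineDist fun Y hY hn => by
    linarith [h.lineDist_le hX hY hn, h.tri X X' Y hX hX' hY]
  linarith

lemma cont_lineDist (h : PM D L) (n : E3) {X : E3} (hX : X ≠ 0) :
    ContinuousAt (lineDist D n) X := by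
  rw [ContinuousAt, Metric.tendsto_nhds]
  intro ε hε
  have h1 : ∀ᶠ z in 𝓝 X, D X z < ε :=
    (h.cont X X hX hX).eventually_lt continuousAt_const (by rw [h.self X hX]; exact hε)
  filter_upwards [h1, isOpen_ne.mem_nhds hX] with z hz hz0
  have a1 := h.lineDist_lip (n := n) hX hz0
  have a2 := h.lineDist_lip (n := n) hz0 hX
  rw [h.symm z X hz0 hX] at a2
  rw [Real.dist_eq, abs_lt]
  constructor <;> linarith

lemma lineDist_attained (h : PM D L) (n : E3) {X : E3} (hX : X ≠ 0) :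
    ∃ Y, Y ≠ 0 ∧ inner ℝ n Y = 0 ∧ lineDist D n X = D X Y := by
  set K : Set E3 := Metric.sphere 0 1 ∩ {Y | inner ℝ n Y = 0}
  have hK : IsCompact K := (isCompact_sphere 0 1).inter_right
    (isClosed_eq (by fun_prop) continuous_const)
  have hmem : ∀ Y, Y ≠ 0 → inner ℝ n Y = 0 → nrm Y ∈ K := fun Y hY hn =>
    ⟨nrm_mem hY, by simp only [mem_ofPred_eq, nrm, inner_smul_right, hn, mul_zero]⟩
  obtain ⟨y, hy⟩ := exists_perp n
  obtain ⟨Y, hY, hmin⟩ := hK.exists_isMinOn ⟨_, hmem y hy.1 hy.2⟩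
    (f := D X) fun z hz => (h.cont X z hX (ne_of_mem_sphere hz.1)).continuousWithinAt
  refine ⟨Y, ne_of_mem_sphere hY.1, hY.2, le_antisymm
    (h.lineDist_le hX (ne_of_mem_sphere hY.1) hY.2) (le_lineDist fun Z hZ hn => ?_)⟩
  have := hmin (hmem Z hZ hn)
  rw [mem_ofPred_eq, nrm, h.smul_right (inv_ne_zero (norm_ne_zero_iff.2 hZ)) hX hZ] at this
  exact this

lemma lineDist_pos (h : PM D L) {n X : E3} (hX : inner ℝ n X ≠ 0) : 0 < lineDist D n X := by
  have hX0 : X ≠ 0 := by rintro rfl; exact hX (inner_zero_right _)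
  obtain ⟨Y, hY, hn, he⟩ := h.lineDist_attained n hX0
  rw [he]
  exact h.pos (ind_of_inner hX hn hY)

/-- A ray that stays in a ball of radius less than `L / 2` is a shortest segment. -/
lemma short_ray (h : PM D L) {x w : E3} (hxw : Ind x w) {r : ℝ} (hr : r < L / 2)
    (hw : ∀ t : ℝ, 0 ≤ t → D x (x + t • w) ≤ r) (t : ℝ) (ht : 0 ≤ t) :
    D x (x + t • w) + D (x + t • w) w ≤ r := by
  obtain ⟨s, hm, hc, hs, hsurj, hd, hb⟩ := h.line x w hxw
  have hd0 : ∀ t, 0 ≤ t → D x (x + t • w) = min (s t - s 0) (L - (s t - s 0)) := by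
    intro t ht
    have := hd 0 t
    rw [zero_smul, add_zero, abs_sub_comm, abs_of_nonneg (sub_nonneg.2 (hm.monotone ht))] at this
    exact this
  have hr0 : 0 ≤ r := by
    have := hw 0 le_rfl
    rwa [zero_smul, add_zero, h.self x hxw.left_ne] at this
  have key : L - s 0 ≤ r := by
    by_contra hlt
    push Not at hlt
    obtain ⟨ρ, h1, h2⟩ := exists_between (lt_min hr hlt)
    have h3 := h2.trans_le (min_le_left _ _)
    have h4 := h2.trans_le (min_le_right _ _)
    obtain ⟨u, hu⟩ := hsurj (s 0 + ρ) (by linarith [(hs 0).1]) (by linarith)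
    have hu0 : 0 ≤ u := hm.le_iff_le.1 (by linarith)
    have := hw u hu0
    rw [hd0 u hu0, hu, min_eq_left (by linarith)] at this
    linarith
  have a1 : D x (x + t • w) ≤ s t - s 0 := by rw [hd0 t ht]; exact min_le_left _ _
  have a2 : D (x + t • w) w ≤ L - s t := by
    rw [h.symm _ _ (hxw.add_smul_ne t) hxw.right_ne, hb]; exact min_le_right _ _
  linarith

lemma first_exit (h : PM D L) {x v : E3} (hxv : Ind x v) {r : ℝ} (hr0 : 0 < r) (hr : r < L / 2)
    {T : ℝ} (hT : 0 ≤ T) (hv : r < D x (x + T • v)) :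
    ∃ t0 : ℝ, 0 < t0 ∧ D x (x + t0 • v) = r ∧
      ∀ t, 0 ≤ t → t ≤ t0 → D x (x + t • v) + D (x + t • v) (x + t0 • v) ≤ r := by
  obtain ⟨s, hm, hc, hs, hsurj, hd, hb⟩ := h.line x v hxv
  have hd0 : ∀ t, 0 ≤ t → D x (x + t • v) = min (s t - s 0) (L - (s t - s 0)) := by
    intro t ht
    have := hd 0 t
    rw [zero_smul, add_zero, abs_sub_comm, abs_of_nonneg (sub_nonneg.2 (hm.monotone ht))] at this
    exact this
  have h1 : r < s T - s 0 := by rw [hd0 T hT] at hv; exact hv.trans_le (min_le_left _ _)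
  obtain ⟨t0, ht0⟩ := hsurj (s 0 + r) (by linarith [(hs 0).1]) (by linarith [(hs T).2])
  have ht0' : 0 < t0 := hm.lt_iff_lt.1 (by linarith)
  refine ⟨t0, ht0', by rw [hd0 t0 ht0'.le, ht0, min_eq_left (by linarith)]; ring, ?_⟩
  intro t ht htt
  have a1 : D x (x + t • v) ≤ s t - s 0 := by rw [hd0 t ht]; exact min_le_left _ _
  have a2 : D (x + t • v) (x + t0 • v) ≤ s t0 - s t := by
    rw [hd, abs_sub_comm, abs_of_nonneg (sub_nonneg.2 (hm.monotone htt))]; exact min_le_left _ _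
  linarith

lemma ray_or (h : PM D L) {x z : E3} (hxz : Ind x z) {r : ℝ} (hz : D x z ≤ r) :
    (∀ t : ℝ, 0 ≤ t → D x (x + t • z) ≤ r) ∨ (∀ t : ℝ, 0 ≤ t → D x (x + t • (-z)) ≤ r) := by
  obtain ⟨s, hm, hc, hs, hsurj, hd, hb⟩ := h.line x z hxz
  have hd0 : ∀ t, D x (x + t • z) ≤ |s 0 - s t| := by
    intro t
    have := hd 0 t
    rw [zero_smul, add_zero] at this
    rw [this]; exact min_le_left _ _
  have e := hb 0
  rw [zero_smul, add_zero, h.symm _ _ hxz.right_ne hxz.left_ne] at e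
  rw [e] at hz
  rcases min_le_iff.1 hz with h1 | h1
  · right
    intro t ht
    rw [smul_neg, ← neg_smul]
    refine (hd0 _).trans ?_
    rw [abs_of_nonneg (sub_nonneg.2 (hm.monotone (by linarith)))]
    linarith [(hs (-t)).1]
  · left
    intro t ht
    refine (hd0 _).trans ?_
    rw [abs_sub_comm, abs_of_nonneg (sub_nonneg.2 (hm.monotone ht))]
    linarith [(hs t).2]

lemma not_both (h : PM D L) {x w : E3} (hxw : Ind x w) {r : ℝ} (hr0 : 0 ≤ r) (hr : r < L / 2)
    (hw : ∀ t : ℝ, 0 ≤ t → D x (x + t • w) ≤ r) : ∃ T : ℝ, 0 ≤ T ∧ r < D x (x + T • (-w)) := by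
  by_contra hcon
  push Not at hcon
  obtain ⟨s, hm, hc, hs, hsurj, hd, hb⟩ := h.line x w hxw
  obtain ⟨ρ, h1, h2⟩ := exists_between hr
  have hd0 : ∀ t, D x (x + t • w) = min |s 0 - s t| (L - |s 0 - s t|) := by
    intro t
    have := hd 0 t
    rwa [zero_smul, add_zero] at this
  rcases le_total (s 0) (L / 2) with h3 | h3
  · obtain ⟨u, hu⟩ := hsurj (s 0 + ρ) (by linarith [(hs 0).1]) (by linarith)
    have hu0 : 0 ≤ u := hm.le_iff_le.1 (by linarith)
    have := hw u hu0
    rw [hd0, hu, abs_sub_comm, abs_of_nonneg (by linarith), min_eq_left (by linarith)] at this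
    linarith
  · obtain ⟨u, hu⟩ := hsurj (s 0 - ρ) (by linarith) (by linarith [(hs 0).2])
    have hu0 : u ≤ 0 := hm.le_iff_le.1 (by linarith)
    have := hcon (-u) (by linarith)
    rw [smul_neg, neg_smul, neg_neg, hd0, hu, abs_of_nonneg (by linarith),
      min_eq_left (by linarith)] at this
    linarith

/-- The tangent of a parabolic conic separates the direction of the focus from the
directions of the feet. -/
lemma tangent (h : PM D L) (hC : Conic D) {n x v : E3} (hx : inner ℝ n x ≠ 0)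
    (hr : lineDist D n x < L / 2) (hv : inner ℝ n v = 0) (hv0 : v ≠ 0)
    {T : ℝ} (hT : 0 ≤ T) (hTv : lineDist D n x < D x (x + T • v)) :
    ∃ τ : E3 →ₗ[ℝ] ℝ, τ v < 0 ∧ ∀ w, inner ℝ n w = 0 → w ≠ 0 →
      (∀ t : ℝ, 0 ≤ t → D x (x + t • w) ≤ lineDist D n x) → 0 ≤ τ w := by
  set r := lineDist D n x with hrdef
  have hxv : Ind x v := ind_of_inner hx hv hv0
  have hx0 := hxv.left_ne
  obtain ⟨t0, ht0, hF, hseg⟩ := h.first_exit hxv (h.lineDist_pos hx) hr hT hTv
  set F := x + t0 • v with hFdef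
  have hnF : inner ℝ n F ≠ 0 := by
    rw [hFdef, inner_add_right, inner_smul_right, hv, mul_zero, add_zero]; exact hx
  have hF0 : F ≠ 0 := hxv.add_smul_ne t0
  obtain ⟨B, hBs, hB⟩ := hC n F hnF
  set g : E3 → ℝ := fun X => D X F - lineDist D n X with hg
  have hgB : ∀ X, X ≠ 0 → B X X ≠ 0 → g X ≠ 0 := fun X hX hne h0 =>
    hne ((hB X hX).1 (sub_eq_zero.1 h0))
  have path : ∀ p : ℝ → E3, Continuous p → (∀ s, 0 ≤ s → s ≤ 1 → p s ≠ 0 ∧ B (p s) (p s) ≠ 0) →
      g (p 0) < 0 → g (p 1) < 0 := by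
    intro p hp hne h0
    by_contra h1
    push Not at h1
    have hc : ContinuousOn (fun s => g (p s)) (Icc 0 1) := by
      intro s hs
      have h2 := (hne s hs.1 hs.2).1
      exact (((h.cont_left h2 hF0).sub (h.cont_lineDist n h2)).comp
        hp.continuousAt).continuousWithinAt
    obtain ⟨s, hs, hs0⟩ := intermediate_value_Icc zero_le_one hc ⟨h0.le, h1⟩
    exact hgB _ (hne s hs.1 hs.2).1 (hne s hs.1 hs.2).2 hs0
  have hxx : B x x = 0 := (hB x hx0).1 hF
  have hgF : g F < 0 := by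
    simp only [hg, h.self F hF0]
    linarith [h.lineDist_pos hnF]
  have hτ : B x v ≠ 0 := by
    intro hxv0
    have hvx : B v x = 0 := by rw [hBs]; exact hxv0
    have hvv : B v v ≠ 0 := by
      intro hvv
      have : B F F = 0 := by simp [hFdef, hxx, hxv0, hvx, hvv]
      exact hgF.ne (sub_eq_zero.2 ((hB F hF0).2 this))
    have := path (fun s => (1 - s) • x + ((1 - s) * t0 + s) • v) (by fun_prop) (by
      intro s hs0 hs1
      have hpos : 0 < (1 - s) * t0 + s := by
        rcases hs0.lt_or_eq with h1 | h1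
        · nlinarith
        · rw [← h1]; linarith
      refine ⟨fun h0 => hpos.ne' (hxv _ _ h0).2, ?_⟩
      simp only [map_add, map_smul, LinearMap.add_apply, LinearMap.smul_apply, smul_eq_mul, hxx,
        hxv0, hvx, mul_zero, zero_add, add_zero]
      exact mul_ne_zero hpos.ne' (mul_ne_zero hpos.ne' hvv)) (by simpa [hFdef] using hgF)
    simp only [sub_self, zero_smul, zero_mul, zero_add, one_smul, hg] at this
    have a1 := h.lineDist_le hv0 hv0 hv
    rw [h.self v hv0] at a1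
    linarith [h.nonneg hv0 hF0]
  refine ⟨-(B x v) • B x, by
    simp only [LinearMap.smul_apply, smul_eq_mul]; nlinarith [mul_self_pos.2 hτ], ?_⟩
  intro w hw hw0 hwr
  by_contra hneg
  push Not at hneg
  simp only [LinearMap.smul_apply, smul_eq_mul] at hneg
  have hxw : Ind x w := ind_of_inner hx hw hw0
  set μ := min (B x v * B x v) (B x v * B x w) with hμ
  have hμ0 : 0 < μ := lt_min (mul_self_pos.2 hτ) (by linarith)
  set K := |B x v * B v v| + 2 * |B x v * B v w| + |B x v * B w w| with hK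
  have hK0 : 0 ≤ K := by positivity
  set t := min t0 (μ / (K + 1)) with ht
  have htpos : 0 < t := lt_min ht0 (by positivity)
  have htK : t * K ≤ μ := by
    have : t ≤ μ / (K + 1) := min_le_right _ _
    rw [le_div_iff₀ (by positivity)] at this
    nlinarith
  have hq : ∀ s : ℝ, 0 ≤ s → s ≤ 1 → x + t • ((1 - s) • v + s • w) ≠ 0 ∧
      B (x + t • ((1 - s) • v + s • w)) (x + t • ((1 - s) • v + s • w)) ≠ 0 := by
    intro s hs0 hs1
    constructor
    · intro h0
      have : inner ℝ n (x + t • ((1 - s) • v + s • w)) = 0 := by rw [h0, inner_zero_right]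
      simp only [inner_add_right, inner_smul_right, hv, hw, mul_zero, add_zero] at this
      exact hx this
    · intro h0
      simp only [map_add, map_smul, LinearMap.add_apply, LinearMap.smul_apply, smul_eq_mul, hxx,
        hBs v x, hBs w x, hBs w v] at h0
      refine quad_ne (B x v * B x v) (B x v * B x w) (B x v * B v v) (B x v * B v w)
        (B x v * B w w) μ t s hμ0 (min_le_left _ _) (min_le_right _ _) htpos htK hs0 hs1 ?_
      linear_combination (B x v) * h0
  have hstart : g (x + t • v) < 0 := by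
    have a0 := hq 0 le_rfl zero_le_one
    simp only [sub_zero, one_smul, zero_smul, add_zero] at a0
    refine lt_of_le_of_ne ?_ (hgB _ a0.1 a0.2)
    have a1 := hseg t htpos.le (min_le_left _ _)
    have a2 := h.lineDist_lip (n := n) hx0 a0.1
    simp only [hg]
    linarith
  have hend := path (fun s => x + t • ((1 - s) • v + s • w)) (by fun_prop) hq
    (by simpa using hstart)
  simp only [sub_self, zero_smul, zero_add, one_smul, hg] at hend
  have a1 := h.short_ray hxw hr hwr t htpos.le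
  have a2 := h.lineDist_le (hxw.add_smul_ne t) hw0 hw
  have a3 := h.tri x (x + t • w) F hx0 (hxw.add_smul_ne t) hF0
  linarith

/-- A line at distance less than `L / 2` can be pushed further away. -/
lemma improve (h : PM D L) (hC : Conic D) {n x : E3} (hx : 0 < inner ℝ n x)
    (hr : lineDist D n x < L / 2) : ∃ n' : E3, n' ≠ 0 ∧ lineDist D n x < lineDist D n' x := by
  set r := lineDist D n x with hrdef
  have hr0 : 0 < r := h.lineDist_pos hx.ne'
  have hx0 : x ≠ 0 := by rintro rfl; simp at hx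
  set T : Set E3 := {y | y ∈ Metric.sphere (0 : E3) 1 ∧ 0 ≤ inner ℝ n y ∧
    ∀ t : ℝ, 0 ≤ t → D x (x + t • y) ≤ r} with hT
  have hne : ∀ (y : E3) (t : ℝ), 0 ≤ inner ℝ n y → 0 ≤ t → x + t • y ≠ 0 := by
    intro y t hy ht h0
    have : inner ℝ n (x + t • y) = 0 := by rw [h0, inner_zero_right]
    rw [inner_add_right, inner_smul_right] at this
    nlinarith [mul_nonneg ht hy]
  have hTc : IsCompact T := by
    refine (isCompact_sphere (0 : E3) 1).of_isClosed_subset ?_ fun y hy => hy.1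
    rw [isClosed_iff_clusterPt]
    intro y hy
    have hcl : y ∈ closure T := mem_closure_iff_clusterPt.2 hy
    have h1 : y ∈ Metric.sphere (0 : E3) 1 :=
      closure_minimal (fun z hz => hz.1) Metric.isClosed_sphere hcl
    have h2 : 0 ≤ inner ℝ n y :=
      closure_minimal (t := {z : E3 | 0 ≤ inner ℝ n z}) (fun z hz => hz.2.1)
        (isClosed_le continuous_const (by fun_prop)) hcl
    refine ⟨h1, h2, fun t ht => ?_⟩
    have hc : ContinuousAt (fun z : E3 => D x (x + t • z)) y :=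
      ContinuousAt.comp (f := fun z : E3 => x + t • z) (h.cont x _ hx0 (hne y t h2 ht))
        (by fun_prop)
    by_contra hlt
    push Not at hlt
    obtain ⟨z, hz1, hz2⟩ := mem_closure_iff_nhds.1 hcl _
      (continuousAt_const.eventually_lt hc hlt)
    exact absurd (hz2.2.2 t ht) (not_le.2 hz1)
  have main : ∃ m : E3 →ₗ[ℝ] ℝ, (∀ y ∈ T, inner ℝ n y = 0 → 0 ≤ m y) ∧
      ∀ y ∈ T ∩ {y | inner ℝ n y = 0}, 0 < m y := by
    have hW : IsCompact (T ∩ {y | inner ℝ n y = 0}) :=
      hTc.inter_right (isClosed_eq (by fun_prop) continuous_const)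
    refine hW.induction_on (p := fun S => ∃ m : E3 →ₗ[ℝ] ℝ,
      (∀ y ∈ T, inner ℝ n y = 0 → 0 ≤ m y) ∧ ∀ y ∈ S, y ∈ T → inner ℝ n y = 0 → 0 < m y)
      ?_ ?_ ?_ ?_ |>.imp fun m hm => ⟨hm.1, fun y hy => hm.2 y hy hy.1 hy.2⟩
    · exact ⟨0, by simp, by simp⟩
    · rintro S S' hS ⟨m, hm1, hm2⟩
      exact ⟨m, hm1, fun y hy => hm2 y (hS hy)⟩
    · rintro S S' ⟨m, hm1, hm2⟩ ⟨m', hm1', hm2'⟩
      refine ⟨m + m', fun y hy hn => add_nonneg (hm1 y hy hn) (hm1' y hy hn), ?_⟩
      rintro y (hy | hy) hyT hn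
      · exact add_pos_of_pos_of_nonneg (hm2 y hy hyT hn) (hm1' y hyT hn)
      · exact add_pos_of_nonneg_of_pos (hm1 y hyT hn) (hm2' y hy hyT hn)
    · rintro w ⟨hwT, hwn⟩
      have hw0 := ne_of_mem_sphere hwT.1
      have hwn' : inner ℝ n w = 0 := hwn
      obtain ⟨T0, hT0, hT1⟩ := h.not_both (ind_of_inner hx.ne' hwn' hw0) hr0.le hr hwT.2.2
      obtain ⟨τ, hτ1, hτ2⟩ := h.tangent hC hx.ne' hr (v := -w)
        (by rw [inner_neg_right, hwn', neg_zero]) (neg_ne_zero.2 hw0) hT0 hT1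
      rw [map_neg] at hτ1
      have hc : Continuous τ := τ.continuous_of_finiteDimensional
      refine ⟨{y | 0 < τ y}, mem_nhdsWithin_of_mem_nhds
        ((isOpen_lt continuous_const hc).mem_nhds (by simpa using hτ1)), τ,
        fun y hy hn => hτ2 y hn (ne_of_mem_sphere hy.1) hy.2.2, fun y hy _ _ => hy⟩
  obtain ⟨m, -, hm⟩ := main
  have hmc : Continuous m := m.continuous_of_finiteDimensional
  have main2 : ∃ C : ℝ, ∀ y ∈ T, y ∈ T → 0 < C * inner ℝ n y + m y := by
    refine hTc.induction_on (p := fun S => ∃ C : ℝ, ∀ y ∈ S, y ∈ T →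
      0 < C * inner ℝ n y + m y) ?_ ?_ ?_ ?_
    · exact ⟨0, by simp⟩
    · rintro S S' hS ⟨C, hC⟩
      exact ⟨C, fun y hy => hC y (hS hy)⟩
    · rintro S S' ⟨C, hC⟩ ⟨C', hC'⟩
      refine ⟨max C C', ?_⟩
      rintro y (hy | hy) hyT
      · have := mul_le_mul_of_nonneg_right (le_max_left C C') hyT.2.1
        linarith [hC y hy hyT]
      · have := mul_le_mul_of_nonneg_right (le_max_right C C') hyT.2.1
        linarith [hC' y hy hyT]
    · intro w hw
      have : ∃ C : ℝ, 0 < C * inner ℝ n w + m w := by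
        rcases hw.2.1.lt_or_eq with h1 | h1
        · refine ⟨(|m w| + 1) / inner ℝ n w, ?_⟩
          rw [div_mul_cancel₀ _ h1.ne']
          linarith [neg_abs_le (m w)]
        · exact ⟨0, by simpa using hm w ⟨hw, h1.symm⟩⟩
      obtain ⟨C, hC⟩ := this
      exact ⟨{y | 0 < C * inner ℝ n y + m y}, mem_nhdsWithin_of_mem_nhds
        ((isOpen_lt continuous_const (by fun_prop)).mem_nhds hC), C, fun y hy _ => hy⟩
  obtain ⟨C, hCm⟩ := main2
  set n' : E3 := C • n + (InnerProductSpace.toDual ℝ E3).symm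
    (LinearMap.toContinuousLinearMap m) with hn'
  have hn'e : ∀ y, inner ℝ n' y = C * inner ℝ n y + m y := by
    intro y
    rw [hn', inner_add_left, inner_smul_left, InnerProductSpace.toDual_symm_apply]
    simp
  have hscale : ∀ y, y ≠ 0 → 0 ≤ inner ℝ n y → (∀ t : ℝ, 0 ≤ t → D x (x + t • y) ≤ r) →
      inner ℝ n' y ≠ 0 := by
    intro y hy h1 h2 h0
    have hp : 0 < ‖y‖⁻¹ := inv_pos.2 (norm_pos_iff.2 hy)
    have hmem : nrm y ∈ T := ⟨nrm_mem hy, by
      rw [nrm, inner_smul_right]; exact mul_nonneg hp.le h1, fun t ht => by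
      rw [nrm, smul_smul]; exact h2 _ (mul_nonneg ht hp.le)⟩
    have := hCm _ hmem hmem
    rw [← hn'e, nrm, inner_smul_right, h0, mul_zero] at this
    exact lt_irrefl _ this
  have hxx : inner ℝ n' x ≠ 0 := by
    refine hscale x hx0 hx.le fun t ht => ?_
    have : x + t • x = (1 + t) • x := by rw [add_smul, one_smul]
    rw [this, h.smul_right (by linarith) hx0 hx0, h.self x hx0]
    exact hr0.le
  have hray : ∀ y, Ind x y → (∀ t : ℝ, 0 ≤ t → D x (x + t • y) ≤ r) → inner ℝ n' y ≠ 0 := by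
    intro y hxy hy
    refine hscale y hxy.right_ne ?_ hy
    by_contra hneg
    push Not at hneg
    set t := -(inner ℝ n x / inner ℝ n y) with ht
    have ht0 : 0 ≤ t := neg_nonneg.2 (div_nonpos_of_nonneg_of_nonpos hx.le hneg.le)
    have a1 := h.short_ray hxy hr hy t ht0
    have a2 := h.pos (hxy.add_left t)
    have a3 : r ≤ D x (x + t • y) := h.lineDist_le hx0 (hxy.add_smul_ne t) (by
      rw [inner_add_right, inner_smul_right, ht, neg_mul, div_mul_cancel₀ _ hneg.ne]; ring)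
    linarith
  refine ⟨n', fun h0 => hxx (by rw [h0, inner_zero_left]), ?_⟩
  obtain ⟨Y, hY, hYn, hYe⟩ := h.lineDist_attained n' hx0
  rw [hYe]
  by_contra hle
  push Not at hle
  have hxY : Ind x Y := ind_of_inner hxx hYn hY
  rcases h.ray_or hxY hle with h1 | h1
  · exact hray Y hxY h1 hYn
  · exact hray (-Y) hxY.neg_right h1 (by rw [inner_neg_right, hYn, neg_zero])

lemma lineDist_smul (D : E3 → E3 → ℝ) (n x : E3) {c : ℝ} (hc : c ≠ 0) :
    lineDist D (c • n) x = lineDist D n x := by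
  unfold lineDist
  congr 2
  ext y
  simp [inner_smul_left, hc]

/-- Every point has a polar line. -/
theorem exists_polar (h : PM D L) (hC : Conic D) {x : E3} (hx : x ≠ 0) :
    ∃ n : E3, inner ℝ n x ≠ 0 ∧ ∀ y, y ≠ 0 → (D x y = L / 2 ↔ inner ℝ n y = 0) := by
  have husc : UpperSemicontinuousOn (fun n => lineDist D n x) (Metric.sphere (0 : E3) 1) := by
    intro n hn c hc
    obtain ⟨Y, hY, hYn, hYe⟩ := h.lineDist_attained n hx
    simp only at hc
    rw [hYe] at hc
    have hp : ContinuousAt (fun n' : E3 => Y - (inner ℝ n' Y : ℝ) • n') n := by fun_prop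
    have hp0 : Y - (inner ℝ n Y : ℝ) • n = Y := by rw [hYn, zero_smul, sub_zero]
    have h1 : ∀ᶠ z in 𝓝 Y, z ≠ 0 ∧ D x z < c :=
      Filter.Eventually.and (isOpen_ne.mem_nhds hY)
        ((h.cont x Y hx hY).eventually_lt continuousAt_const hc)
    rw [ContinuousAt, hp0] at hp
    filter_upwards [mem_nhdsWithin_of_mem_nhds (hp.eventually h1), self_mem_nhdsWithin]
      with n' h2 hn'
    refine (h.lineDist_le hx h2.1 ?_).trans_lt h2.2
    have : ‖n'‖ = 1 := by simpa using hn'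
    rw [inner_sub_right, inner_smul_right, real_inner_self_eq_norm_sq, this]
    ring
  obtain ⟨n, hn, hmax⟩ := husc.exists_isMaxOn ⟨_, nrm_mem hx⟩ (isCompact_sphere 0 1)
  have hmax' : ∀ n', n' ≠ 0 → lineDist D n' x ≤ lineDist D n x := by
    intro n' hn'
    have := hmax (nrm_mem hn')
    simp only [mem_ofPred_eq, nrm] at this
    rwa [lineDist_smul D n' x (inv_ne_zero (norm_ne_zero_iff.2 hn'))] at this
  have hnx : inner ℝ n x ≠ 0 := by
    intro h0
    have a1 := h.lineDist_le hx hx h0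
    have a2 := h.lineDist_pos (n := x) (X := x) (inner_self_ne_zero.2 hx)
    rw [h.self x hx] at a1
    linarith [hmax' x hx]
  have hfull : L / 2 ≤ lineDist D n x := by
    by_contra hlt
    push Not at hlt
    rcases lt_or_gt_of_ne hnx with h1 | h1
    · have e : lineDist D ((-1 : ℝ) • n) x = lineDist D n x := lineDist_smul D n x (by norm_num)
      obtain ⟨n', hn', h2⟩ := h.improve hC (n := (-1 : ℝ) • n) (x := x)
        (by rw [inner_smul_left]; simpa using h1) (by rw [e]; exact hlt)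
      rw [e] at h2
      linarith [hmax' n' hn']
    · obtain ⟨n', hn', h2⟩ := h.improve hC h1 hlt
      linarith [hmax' n' hn']
  have hperp : ∀ y, y ≠ 0 → inner ℝ n y = 0 → D x y = L / 2 := fun y hy hny =>
    le_antisymm (h.le_half hx hy) (hfull.trans (h.lineDist_le hx hy hny))
  refine ⟨n, hnx, fun y hy => ⟨fun hd => ?_, hperp y hy⟩⟩
  rcases ind_or_smul hx y with hxy | ⟨c, hc⟩
  · obtain ⟨s, hm, -, -, -, -, hb⟩ := h.line y x hxy.symm
    set t := -(inner ℝ n y / inner ℝ n x) with ht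
    have a1 := hperp (y + t • x) (hxy.symm.add_smul_ne t) (by
      rw [inner_add_right, inner_smul_right, ht, neg_mul, div_mul_cancel₀ _ hnx]; ring)
    have a2 := hb 0
    rw [zero_smul, add_zero, hd] at a2
    rw [hb] at a1
    have aux : ∀ u : ℝ, min u (L - u) = L / 2 → u = L / 2 := by
      intro u hu
      rcases min_eq_iff.1 hu with h1 | h1 <;> linarith [h1.1]
    have := hm.injective ((aux _ a1).trans (aux _ a2.symm).symm)
    rw [ht, neg_eq_zero, div_eq_zero_iff] at this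
    exact this.resolve_right hnx
  · exfalso
    have hc0 : c ≠ 0 := by
      rintro rfl
      exact hy (by rw [hc, zero_smul])
    rw [hc, h.smul_right hc0 hx hx, h.self x hx] at hd
    linarith [h.Lpos]

end PM

end Pool.Agent.P.MP_ec5bc9_gt
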