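import Pool.Agent.P.MP_ec5bc9_gt.L5
import Pool.Agent.P.MP_ec5bc9_gt.ProjPole

/-! The length of affine segments in a chart of a projective-metric projective plane is a metric of
affine type. -/

set_option autoImplicit false

namespace Pool.Agent.P.MP_ec5bc9_gt.H13

open Set Filter Topology

attribute [-simp] Complex.real_smul

abbrev PP := Pool.Agent.P.MP_ec5bc9_gt.PM

noncomputable def hat (X : ℂ) : E3 := WithLp.toLp 2 ![X.re, X.im, 1]
noncomputable def vec (v : ℂ) : E3 := WithLp.toLp 2 ![v.re, v.im, 0]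

@[simp] lemma hat0 (X : ℂ) : hat X 0 = X.re := rfl
@[simp] lemma hat1 (X : ℂ) : hat X 1 = X.im := rfl
@[simp] lemma hat2 (X : ℂ) : hat X 2 = 1 := rfl
@[simp] lemma vec0 (X : ℂ) : vec X 0 = X.re := rfl
@[simp] lemma vec1 (X : ℂ) : vec X 1 = X.im := rfl
@[simp] lemma vec2 (X : ℂ) : vec X 2 = 0 := rfl

lemma hat_ne (X : ℂ) : hat X ≠ 0 := fun e => by simpa using congrArg (fun v : E3 => v 2) e

lemma hat_add (X v : ℂ) (t : ℝ) : hat (X + t • v) = hat X + t • vec v :=
  ext3 (by simp [Complex.smul_re]) (by simp [Complex.smul_im]) (by simp)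

lemma continuous_hat : Continuous hat := by
  have : hat = fun X : ℂ => hat 0 + X.re • vec 1 + X.im • vec Complex.I :=
    funext fun X => ext3 (by simp) (by simp) (by simp)
  rw [this]; fun_prop

lemma ind_hat (X : ℂ) {v : ℂ} (hv : v ≠ 0) : Ind (hat X) (vec v) := by
  intro s t h
  have h2 : s = 0 := by simpa using congrArg (fun v : E3 => v 2) h
  refine ⟨h2, ?_⟩
  by_contra ht
  have h0 := congrArg (fun v : E3 => v 0) h
  have h1 := congrArg (fun v : E3 => v 1) h
  simp [h2, ht] at h0 h1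
  exact hv (Complex.ext h0 h1)

def Short (D : E3 → E3 → ℝ) (L : ℝ) (X Y : ℂ) : Prop :=
  ∀ t ∈ Icc (0 : ℝ) 1, D (hat X) (hat (X + t • (Y - X))) < L / 2

open Classical in
/-- the length of the affine segment -/
noncomputable def len (D : E3 → E3 → ℝ) (L : ℝ) (X Y : ℂ) : ℝ :=
  if Short D L X Y then D (hat X) (hat Y) else L - D (hat X) (hat Y)

section
variable {D : E3 → E3 → ℝ} {L : ℝ} (h : PP D L)
include h

lemma contD {x y : E3} (hx : x ≠ 0) (hy : y ≠ 0) : ContinuousAt (fun p : E3 × E3 => D p.1 p.2) (x, y) := by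
  rw [ContinuousAt, nhds_prod_eq, Metric.tendsto_nhds]
  intro ε hε
  have a1 := (h.cont x x hx hx).tendsto
  have a2 := (h.cont y y hy hy).tendsto
  rw [h.self x hx] at a1
  rw [h.self y hy] at a2
  filter_upwards [prod_mem_prod ((a1.eventually (gt_mem_nhds (half_pos hε))).and (isOpen_ne.mem_nhds hx))
    ((a2.eventually (gt_mem_nhds (half_pos hε))).and (isOpen_ne.mem_nhds hy))]
  rintro ⟨x', y'⟩ ⟨⟨b1, b2⟩, ⟨b3, b4⟩⟩
  simp only at *
  rw [Real.dist_eq, abs_lt]
  constructor
  · linarith [h.tri x x' y hx b2 hy, h.tri x' y' y b2 b4 hy, h.symm y' y b4 hy]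
  · linarith [h.tri x' x y' b2 hx b4, h.tri x y y' hx hy b4, h.symm x' x b2 hx]

lemma contDh : Continuous fun p : ℂ × ℂ => D (hat p.1) (hat p.2) := by
  rw [continuous_iff_continuousAt]
  intro p
  exact (contD h (hat_ne _) (hat_ne _)).comp (f := fun p : ℂ × ℂ => (hat p.1, hat p.2))
    (((continuous_hat.comp continuous_fst).prodMk (continuous_hat.comp continuous_snd)).continuousAt)

lemma short_self (X : ℂ) : Short D L X X := fun t _ => by
  simp only [sub_self, smul_zero, add_zero, h.self _ (hat_ne X)]; linarith [h.Lpos]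

lemma short_ev {X Y : ℂ} (hs : Short D L X Y) : ∀ᶠ p : ℂ × ℂ in 𝓝 (X, Y), Short D L p.1 p.2 := by
  refine isCompact_Icc.eventually_forall_of_forall_eventually
    (P := fun (p : ℂ × ℂ) (t : ℝ) => D (hat p.1) (hat (p.1 + t • (p.2 - p.1))) < L / 2) fun t ht => ?_
  have c : Continuous fun z : (ℂ × ℂ) × ℝ => D (hat z.1.1) (hat (z.1.1 + z.2 • (z.1.2 - z.1.1))) :=
    (contDh h).comp (f := fun z : (ℂ × ℂ) × ℝ => (z.1.1, z.1.1 + z.2 • (z.1.2 - z.1.1))) (by fun_prop)
  exact (c.tendsto _).eventually (gt_mem_nhds (hs t ht))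

omit h in
lemma len_short {X Y : ℂ} (hs : Short D L X Y) : len D L X Y = D (hat X) (hat Y) := if_pos hs

lemma len_line (X : ℂ) {v : ℂ} (hv : v ≠ 0) : ∃ s : ℝ → ℝ, StrictMono s ∧ Continuous s ∧
    (∀ t, 0 < s t ∧ s t < L) ∧ (∀ u, 0 < u → u < L → ∃ t, s t = u) ∧
    (∀ t, D (vec v) (hat (X + t • v)) ≤ s t) ∧
    ∀ t1 t2, len D L (X + t1 • v) (X + t2 • v) = |s t1 - s t2| ∧
      (|s t1 - s t2| < L / 2 → Short D L (X + t1 • v) (X + t2 • v)) := by
  obtain ⟨s, hm, hc, hs, hsurj, hd, hb⟩ := h.line _ _ (ind_hat X hv)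
  refine ⟨s, hm, hc, hs, hsurj, fun t => by rw [hat_add, hb]; exact min_le_left _ _, fun t1 t2 => ?_⟩
  have e : ∀ t : ℝ, X + t1 • v + t • (X + t2 • v - (X + t1 • v)) = X + (t1 + t * (t2 - t1)) • v :=
    fun t => by module
  have sh : |s t1 - s t2| < L / 2 → Short D L (X + t1 • v) (X + t2 • v) := by
    intro hlt t ht
    rw [e, hat_add, hat_add, hd]
    refine (min_le_left _ _).trans_lt (lt_of_le_of_lt ?_ hlt)
    rcases le_total t1 t2 with h12 | h12
    · have a1 := hm.monotone (show t1 ≤ t1 + t * (t2 - t1) by nlinarith [ht.1])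
      have a2 := hm.monotone (show t1 + t * (t2 - t1) ≤ t2 by nlinarith [ht.2])
      rw [abs_of_nonpos (by linarith), abs_of_nonpos (by linarith)]; linarith
    · have a1 := hm.monotone (show t1 + t * (t2 - t1) ≤ t1 by nlinarith [ht.1])
      have a2 := hm.monotone (show t2 ≤ t1 + t * (t2 - t1) by nlinarith [ht.2])
      rw [abs_of_nonneg (by linarith), abs_of_nonneg (by linarith)]; linarith
  refine ⟨?_, sh⟩
  rcases lt_or_ge |s t1 - s t2| (L / 2) with hlt | hge
  · rw [len_short (sh hlt), hat_add, hat_add, hd, min_eq_left (by linarith)]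
  · have ns : ¬ Short D L (X + t1 • v) (X + t2 • v) := by
      intro hs'
      have c : Continuous fun t : ℝ => |s t1 - s (t1 + t * (t2 - t1))| := by fun_prop
      obtain ⟨t, ht, et⟩ := intermediate_value_Icc (zero_le_one' ℝ) c.continuousOn
        (show L / 2 ∈ Icc _ _ from ⟨by simpa using (half_pos h.Lpos).le, by simpa using hge⟩)
      have := hs' t ht
      simp only at et
      rw [e, hat_add, hat_add, hd, et, min_eq_left (by linarith)] at this
      exact lt_irrefl _ this
    rw [len, if_neg ns, hat_add, hat_add, hd, min_eq_right (by linarith)]; ring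

lemma le_len (X Y : ℂ) : D (hat X) (hat Y) ≤ len D L X Y ∧ len D L X Y ≤ L - D (hat X) (hat Y) ∧
    D (hat X) (hat Y) = min (len D L X Y) (L - len D L X Y) := by
  have := h.le_half (hat_ne X) (hat_ne Y)
  unfold len
  split_ifs
  · exact ⟨le_rfl, by linarith, (min_eq_left (by linarith)).symm⟩
  · exact ⟨by linarith, le_rfl, by rw [min_eq_right (by linarith)]; ring⟩

lemma len_add (x z : ℂ) {t : ℝ} (ht : t ∈ Icc (0 : ℝ) 1) :
    len D L x z = len D L x (x + t • (z - x)) + len D L (x + t • (z - x)) z := by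
  by_cases e : z - x = 0
  · rw [e, sub_eq_zero.1 e, smul_zero, add_zero, len_short (short_self h x), h.self _ (hat_ne x)]; ring
  obtain ⟨s, hm, -, -, -, -, hl⟩ := len_line h x e
  have a1 := (hl 0 1).1
  have a2 := (hl 0 t).1
  have a3 := (hl t 1).1
  simp only [zero_smul, add_zero, one_smul, add_sub_cancel] at a1 a2 a3
  have b1 := hm.monotone ht.1
  have b2 := hm.monotone ht.2
  rw [a1, a2, a3, abs_of_nonpos (by linarith), abs_of_nonpos (by linarith), abs_of_nonpos (by linarith)]
  ring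

lemma len_cont : Continuous fun p : ℂ × ℂ => len D L p.1 p.2 := by
  rw [continuous_iff_continuousAt]
  rintro ⟨X, Y⟩
  obtain ⟨τ, hτ, s1, s2⟩ : ∃ τ ∈ Icc (0 : ℝ) 1, Short D L X (X + τ • (Y - X)) ∧
      Short D L (X + τ • (Y - X)) Y := by
    by_cases e : Y - X = 0
    · refine ⟨0, ⟨le_rfl, zero_le_one⟩, ?_, ?_⟩ <;> simpa [sub_eq_zero.1 e] using short_self h X
    obtain ⟨s, hm, hc, hs, -, -, hl⟩ := len_line h X e
    have m := hm.monotone (zero_le_one' ℝ)
    obtain ⟨τ, hτ, et⟩ := intermediate_value_Icc (zero_le_one' ℝ) hc.continuousOn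
      (show (s 0 + s 1) / 2 ∈ Icc _ _ from ⟨by linarith, by linarith⟩)
    have a1 := (hl 0 τ).2 (by rw [et, abs_lt]; constructor <;> linarith [hs 0, hs 1])
    have a2 := (hl τ 1).2 (by rw [et, abs_lt]; constructor <;> linarith [hs 0, hs 1])
    simp only [zero_smul, add_zero, one_smul, add_sub_cancel] at a1 a2
    exact ⟨τ, hτ, a1, a2⟩
  have c1 : Continuous fun p : ℂ × ℂ => (p.1, p.1 + τ • (p.2 - p.1)) := by fun_prop
  have c2 : Continuous fun p : ℂ × ℂ => (p.1 + τ • (p.2 - p.1), p.2) := by fun_prop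
  refine (((contDh h).comp c1).add ((contDh h).comp c2)).continuousAt.congr ?_
  filter_upwards [(c1.tendsto (X, Y)).eventually (short_ev h s1),
    (c2.tendsto (X, Y)).eventually (short_ev h s2)] with p a1 a2
  rw [len_add h p.1 p.2 hτ, len_short a1, len_short a2]; rfl

lemma len_tri (X Y Z : ℂ) : len D L X Z ≤ len D L X Y + len D L Y Z := by
  have c1 : Continuous fun t : ℝ => len D L X (Y + t • (Z - Y)) :=
    (len_cont h).comp (f := fun t : ℝ => (X, Y + t • (Z - Y))) (by fun_prop)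
  have c2 : Continuous fun t : ℝ => len D L Y (Y + t • (Z - Y)) :=
    (len_cont h).comp (f := fun t : ℝ => (Y, Y + t • (Z - Y))) (by fun_prop)
  have := mv_neg (ψ := fun t => len D L X (Y + t • (Z - Y)) - len D L Y (Y + t • (Z - Y))) zero_le_one
    (c1.sub c2).continuousOn (by
    intro s hs
    obtain ⟨W, hW⟩ : ∃ W, W = Y + s • (Z - Y) := ⟨_, rfl⟩
    have T : Tendsto (fun ρ : ℝ => W + ρ • (Z - Y)) UU (𝓝 W) := (small_r W _).mono_left UU_le
    have loc : ∀ᶠ ρ in (UU : Filter ℝ), len D L X (W + ρ • (Z - Y))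
        ≤ len D L X W + D (hat W) (hat (W + ρ • (Z - Y))) := by
      by_cases sh : Short D L X W
      · filter_upwards [(tendsto_const_nhds.prodMk_nhds T).eventually (short_ev h sh)] with ρ a
        rw [len_short a, len_short sh]
        exact h.tri _ _ _ (hat_ne _) (hat_ne _) (hat_ne _)
      · refine Eventually.of_forall fun ρ => ?_
        have a1 := (le_len h X (W + ρ • (Z - Y))).2.1
        have a2 : len D L X W = L - D (hat X) (hat W) := if_neg sh
        linarith [h.tri _ _ _ (hat_ne X) (hat_ne (W + ρ • (Z - Y))) (hat_ne W),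
          h.symm _ _ (hat_ne (W + ρ • (Z - Y))) (hat_ne W)]
    filter_upwards [loc, UU_pos] with ρ a1 a2
    have e : Y + (s + ρ) • (Z - Y) = W + ρ • (Z - Y) := by rw [hW]; module
    have p : 0 < s + ρ := by linarith [hs.1]
    have a3 := len_add h Y (Y + (s + ρ) • (Z - Y)) (t := s / (s + ρ))
      ⟨div_nonneg hs.1 p.le, (div_le_one p).2 (by linarith)⟩
    rw [add_sub_cancel_left, smul_smul, div_mul_cancel₀ _ p.ne', ← hW, e] at a3
    rw [e, ← hW]
    linarith [(le_len h W (W + ρ • (Z - Y))).1])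
  simp only [one_smul, add_sub_cancel, zero_smul, add_zero] at this
  rw [len_short (short_self h Y), h.self _ (hat_ne Y)] at this
  linarith

theorem len_pm0 : PM0 univ (len D L) := by
  have two : ∀ x y : ℂ, x ≠ y → 0 < len D L x y ∧ len D L x y = len D L y x := by
    intro x y hne
    obtain ⟨s, hm, -, -, -, -, hl⟩ := len_line h x (sub_ne_zero.2 hne.symm)
    have a1 := (hl 0 1).1
    have a2 := (hl 1 0).1
    simp only [zero_smul, add_zero, one_smul, add_sub_cancel] at a1 a2
    rw [a1, a2]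
    exact ⟨abs_pos.2 (sub_ne_zero.2 (hm zero_lt_one).ne), abs_sub_comm _ _⟩
  refine ⟨isOpen_univ, convex_univ, fun x _ => by rw [len_short (short_self h x), h.self _ (hat_ne x)],
    fun x _ y _ hne => (two x y hne).1, fun x _ y _ => ?_, fun x _ y _ z _ => len_tri h x y z,
    fun x _ z _ t ht => len_add h x z ht, (len_cont h).continuousOn⟩
  by_cases e : x = y
  · rw [e]
  · exact (two x y e).2

theorem len_strict (hs : ∀ x y z : E3, LinearIndependent ℝ ![x, y, z] → D x z < D x y + D y z) :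
    Strict univ (len D L) := by
  intro X _ Y _ Z _ hc
  have H := len_pm0 h
  have T1 := small_r Y (X - Y)
  have T2 := small_r Y (Z - Y)
  obtain ⟨ε, ⟨a1, a2⟩, a3, a4⟩ := ((((T1.prodMk_nhds tendsto_const_nhds).eventually
    (short_ev h (short_self h Y))).and ((tendsto_const_nhds.prodMk_nhds T2).eventually
      (short_ev h (short_self h Y)))).and (((T1.prodMk_nhds T2).eventually
        (short_ev h (short_self h Y))).and (Ioo_mem_nhdsGT (zero_lt_one' ℝ)))).exists
  simp only at a1 a2 a3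
  have b := hs (hat (Y + ε • (X - Y))) (hat Y) (hat (Y + ε • (Z - Y))) (by
    rw [Fintype.linearIndependent_iff]
    intro g hg
    simp only [Fin.sum_univ_three, Matrix.cons_val_zero, Matrix.cons_val_one, Matrix.cons_val] at hg
    have e0 := congrArg (fun v : E3 => v 0) hg
    have e1 := congrArg (fun v : E3 => v 1) hg
    have e2 := congrArg (fun v : E3 => v 2) hg
    simp [Complex.smul_re, Complex.smul_im] at e0 e1 e2
    have hε : ε ≠ 0 := a4.1.ne'
    simp only [cr, Complex.sub_re, Complex.sub_im] at hc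
    have k0 : g 0 = 0 := by
      refine (mul_eq_zero.1 (?_ : g 0 * (ε * ((Y.re - X.re) * (Z.im - X.im)
        - (Y.im - X.im) * (Z.re - X.re))) = 0)).resolve_right (mul_ne_zero hε hc)
      linear_combination (-(Z.im - Y.im)) * (e0 - Y.re * e2) + (Z.re - Y.re) * (e1 - Y.im * e2)
    have k2 : g 2 = 0 := by
      refine (mul_eq_zero.1 (?_ : g 2 * (ε * ((Y.re - X.re) * (Z.im - X.im)
        - (Y.im - X.im) * (Z.re - X.re))) = 0)).resolve_right (mul_ne_zero hε hc)
      linear_combination (X.im - Y.im) * (e0 - Y.re * e2) - (X.re - Y.re) * (e1 - Y.im * e2)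
    intro i
    fin_cases i
    · exact k0
    · show g 1 = 0
      linarith
    · exact k2)
  rw [← len_short a1, ← len_short a2, ← len_short a3] at b
  have c1 := len_add h Y X ⟨a4.1.le, a4.2.le⟩
  have c2 := len_add h Y Z ⟨a4.1.le, a4.2.le⟩
  linarith [len_tri h X (Y + ε • (X - Y)) Z, len_tri h (Y + ε • (X - Y)) (Y + ε • (Z - Y)) Z,
    H.symm X trivial Y trivial, H.symm X trivial (Y + ε • (X - Y)) trivial,
    H.symm Y trivial (Y + ε • (X - Y)) trivial]

end

end Pool.Agent.P.MP_ec5bc9_gt.H13
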