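import Pool.Agent.P.MP_ec5bc9_gt.L6

/-! The local theorem for projective-metric planes of projective type. -/

set_option autoImplicit false

namespace Pool.Agent.P.MP_ec5bc9_gt.H13

open Set Filter Topology Matrix

attribute [-simp] Complex.real_smul

noncomputable def ch (x : E3) : ℂ := ⟨x 0 / x 2, x 1 / x 2⟩

lemma ch_hat (X : ℂ) : ch (hat X) = X := by apply Complex.ext <;> simp [ch]

lemma ch_smul {c : ℝ} (hc : c ≠ 0) (x : E3) : ch (c • x) = ch x := by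
  apply Complex.ext <;> simp [ch, mul_div_mul_left _ _ hc]

lemma hat_ch {x : E3} (hx : x 2 ≠ 0) : hat (ch x) = (x 2)⁻¹ • x :=
  ext3 (by simp [ch, div_eq_inv_mul]) (by simp [ch, div_eq_inv_mul]) (by simp [hx])

lemma continuousAt_ch {x : E3} (hx : x 2 ≠ 0) : ContinuousAt ch x := by
  have : ch = fun x : E3 => (x 0 / x 2) • (1 : ℂ) + (x 1 / x 2) • Complex.I := funext fun x => by
    apply Complex.ext <;> simp [ch, Complex.smul_re, Complex.smul_im]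
  rw [this]
  fun_prop (disch := exact hx)

lemma ch_nrm_hat (X : ℂ) : ch (nrm (hat X)) = X := by
  rw [nrm, ch_smul (inv_ne_zero (norm_ne_zero_iff.2 (hat_ne X))), ch_hat]

lemma nrm_hat2 (X : ℂ) : nrm (hat X) 2 ≠ 0 := by
  simp [nrm, hat_ne X]

/-- The triples of unit vectors whose conic agrees in `U` with a quadric. -/
def GoodP (U : Set E3) (d : E3 → E3 → ℝ) : Set (E3 × E3 × E3) :=
  {t | t.1 ∈ Metric.sphere (0 : E3) 1 ∧ t.2.1 ∈ Metric.sphere (0 : E3) 1 ∧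
    t.2.2 ∈ Metric.sphere (0 : E3) 1 ∧ ∃ A : Matrix (Fin 3) (Fin 3) ℝ,
      ∀ X ∈ U ∩ Metric.sphere (0 : E3) 1,
        (d X t.2.2 = sInf ((fun Y => d X Y) ''
            (Metric.sphere (0 : E3) 1 ∩ (Submodule.span ℝ {t.1, t.2.1} : Submodule ℝ E3))) ↔
          ![X 0, X 1, X 2] ⬝ᵥ (A *ᵥ ![X 0, X 1, X 2]) = 0)}

/-- The metric is the elliptic metric in some projective coordinates. -/
def EllE (d : E3 → E3 → ℝ) : Prop :=
  ∃ c : ℝ, 0 < c ∧ ∃ T : Matrix (Fin 3) (Fin 3) ℝ, T.det ≠ 0 ∧ ∃ u : E3 → Fin 3 → ℝ,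
    (∀ x, u x = T *ᵥ ![x 0, x 1, x 2]) ∧
    ∀ x ∈ Metric.sphere (0 : E3) 1, ∀ y ∈ Metric.sphere (0 : E3) 1, c * d x y =
      Real.arccos (|frm 1 (u x) (u y)| / √(frm 1 (u x) (u x) * frm 1 (u y) (u y)))

section
variable {d : E3 → E3 → ℝ} {L : ℝ} (h : PP (ext d) L)
include h

lemma ext_hat_ch {x y : E3} (hx : x 2 ≠ 0) (hy : y 2 ≠ 0) :
    ext d (hat (ch x)) (hat (ch y)) = ext d x y := by
  have x0 : x ≠ 0 := by rintro rfl; simp at hx
  have y0 : y ≠ 0 := by rintro rfl; simp at hy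
  rw [hat_ch hx, hat_ch hy, h.smul_left _ _ _ (inv_ne_zero hx) x0 (smul_ne_zero (inv_ne_zero hy) y0),
    h.smul_right (inv_ne_zero hy) x0 y0]

lemma dl_proj {X : ℂ} {p q : E3} (hp : p ∈ Metric.sphere (0 : E3) 1) (p2 : p 2 ≠ 0) (q2 : q 2 ≠ 0)
    (sh : Short (ext d) L X (ch p))
    (far : ext d (hat X) (hat (ch p)) < lineDist (ext d) (hat 0) (hat X)) :
    dl univ (len (ext d) L) (ch p) (ch q - ch p) X = sInf ((fun Y => d (nrm (hat X)) Y) ''
      (Metric.sphere (0 : E3) 1 ∩ (Submodule.span ℝ {p, q} : Submodule ℝ E3))) := by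
  have H := len_pm0 h
  have e0 : ∀ Y ∈ Metric.sphere (0 : E3) 1, d (nrm (hat X)) Y = ext d (hat X) Y := fun Y hY => by
    rw [ext, nrm_of_mem hY]
  have inf : ∀ Y : E3, inner ℝ (hat 0) Y = Y 2 := fun Y => by simp [inner3]
  apply le_antisymm
  · refine le_csInf ⟨_, p, ⟨hp, Submodule.subset_span (by simp)⟩, rfl⟩ ?_
    rintro _ ⟨Y, ⟨hY, hs⟩, rfl⟩
    have Y0 := ne_of_mem_sphere hY
    have a0 : dl univ (len (ext d) L) (ch p) (ch q - ch p) X ≤ ext d (hat X) (hat (ch p)) := by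
      have := H.dl_le (Y := ch p) (w := ch q - ch p) (X := X) (s := 0) trivial trivial
      rwa [zero_smul, add_zero, len_short sh] at this
    simp only [e0 Y hY]
    rcases le_or_gt (ext d (hat X) (hat (ch p))) (ext d (hat X) Y) with hc | hc
    · exact a0.trans hc
    have Y2 : Y 2 ≠ 0 := fun e => by
      linarith [h.lineDist_le (n := hat 0) (hat_ne X) Y0 (by rw [inf, e])]
    have eY : ext d (hat X) (hat (ch Y)) = ext d (hat X) Y := by
      rw [hat_ch Y2, h.smul_right (inv_ne_zero Y2) (hat_ne X) Y0]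
    have sY : Short (ext d) L X (ch Y) := by
      by_contra ns
      have hv : ch Y - X ≠ 0 := fun e => ns (sub_eq_zero.1 e ▸ short_self h _)
      obtain ⟨s, hm, -, hs', -, hb, hl⟩ := len_line h X hv
      have a1 := (hl 0 1).1
      have a2 := hb 0
      simp only [zero_smul, add_zero, one_smul, add_sub_cancel] at a1 a2
      rw [len, if_neg ns, eY, abs_of_nonpos (by linarith [hm.monotone (zero_le_one' ℝ)])] at a1
      have v0 := (ind_hat X hv).right_ne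
      linarith [h.lineDist_le (n := hat 0) (hat_ne X) v0 (by rw [inf]; rfl), h.symm _ _ v0 (hat_ne X),
        (hs' 1).2]
    obtain ⟨a, b, rfl⟩ := Submodule.mem_span_pair.1 hs
    have e1 : ch p + (b * q 2 / (a • p + b • q) 2) • (ch q - ch p) = ch (a • p + b • q) := by
      have Y2' : a * p 2 + b * q 2 ≠ 0 := by simpa using Y2
      have key : ∀ x y : ℝ, x / p 2 + b * q 2 / (a * p 2 + b * q 2) * (y / q 2 - x / p 2)
          = (a * x + b * y) / (a * p 2 + b * q 2) := by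
        intro x y
        obtain ⟨n, hn⟩ : ∃ n, n = a * p 2 + b * q 2 := ⟨_, rfl⟩
        rw [← hn] at Y2' ⊢
        field_simp
        rw [hn]; ring
      apply Complex.ext <;>
        simp only [ch, Complex.add_re, Complex.add_im, Complex.smul_re, Complex.smul_im, Complex.sub_re,
          Complex.sub_im, smul_eq_mul, PiLp.add_apply, PiLp.smul_apply] <;> exact key _ _
    have := H.dl_le (Y := ch p) (w := ch q - ch p) (X := X) (s := b * q 2 / (a • p + b • q) 2)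
      trivial trivial
    rwa [e1, len_short sY, eY] at this
  · refine PM0.le_dl (mem_univ _) fun s _ => le_trans (csInf_le ⟨0, ?_⟩ ⟨nrm (hat (ch p + s • (ch q - ch p))),
      ⟨nrm_mem (hat_ne _), ?_⟩, rfl⟩) (le_len h _ _).1
    · rintro _ ⟨Y, ⟨hY, -⟩, rfl⟩
      simp only [e0 Y hY]
      exact h.nonneg (hat_ne X) (ne_of_mem_sphere hY)
    · have e1 : hat (ch p + s • (ch q - ch p)) = (1 - s) • hat (ch p) + s • hat (ch q) :=
        ext3 (by simp [Complex.smul_re]; ring) (by simp [Complex.smul_im]; ring) (by simp)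
      rw [nrm, e1, hat_ch p2, hat_ch q2]
      refine Submodule.smul_mem _ _ (Submodule.add_mem _ ?_ ?_) <;>
        exact Submodule.smul_mem _ _ (Submodule.smul_mem _ _ (Submodule.subset_span (by simp)))

lemma lq_of_proj (hq : ∀ O ∈ Metric.sphere (0 : E3) 1, ∃ U ∈ 𝓝 O,
    (U ∩ Metric.sphere (0 : E3) 1) ×ˢ (U ∩ Metric.sphere (0 : E3) 1) ×ˢ (U ∩ Metric.sphere (0 : E3) 1)
      ⊆ closure (GoodP U d)) : LQ univ (len (ext d) L) := by
  intro O _
  obtain ⟨U, hU, hcl⟩ := hq _ (nrm_mem (hat_ne O))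
  have cn : ∀ X, ContinuousAt (fun X => nrm (hat X)) X := fun X =>
    (continuousAt_nrm (hat_ne X)).comp continuous_hat.continuousAt
  have c1 : ContinuousAt (fun p : ℂ × ℂ => lineDist (ext d) (hat 0) (hat p.1) - ext d (hat p.1) (hat p.2))
      (O, O) :=
    (ContinuousAt.comp (x := (O, O)) (f := fun p : ℂ × ℂ => hat p.1) (h.cont_lineDist (hat 0) (hat_ne O))
      (continuous_hat.comp continuous_fst).continuousAt).sub (contDh h).continuousAt
  have p0 : 0 < lineDist (ext d) (hat 0) (hat O) - ext d (hat O) (hat O) := by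
    rw [h.self _ (hat_ne O), sub_zero]
    exact h.lineDist_pos (by simp [inner3])
  obtain ⟨V1, v1, V2, v2, hV⟩ := mem_nhds_prod_iff.1
    ((short_ev h (short_self h O)).and (c1.tendsto.eventually (lt_mem_nhds p0)))
  obtain ⟨W, w1, w2, w3⟩ := mem_nhds_iff.1 (inter_mem (inter_mem v1 v2) ((cn O).preimage_mem_nhds hU))
  have pr : ∀ X ∈ W, ∀ Y ∈ W, Short (ext d) L X Y ∧
      ext d (hat X) (hat Y) < lineDist (ext d) (hat 0) (hat X) := fun X hX Y hY => by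
    have := hV (a := (X, Y)) ⟨(w1 hX).1.1, (w1 hY).1.2⟩
    exact ⟨this.1, sub_pos.1 this.2⟩
  refine ⟨W, w2.mem_nhds w3, ?_⟩
  rintro ⟨P, Q, F⟩ ⟨hP, hQ, hF⟩
  have m := hcl (a := (nrm (hat P), nrm (hat Q), nrm (hat F)))
    ⟨⟨(w1 hP).2, nrm_mem (hat_ne _)⟩, ⟨(w1 hQ).2, nrm_mem (hat_ne _)⟩, ⟨(w1 hF).2, nrm_mem (hat_ne _)⟩⟩
  have T : ∀ {g : E3 × E3 × E3 → E3} {X : ℂ}, Continuous g →
      g (nrm (hat P), nrm (hat Q), nrm (hat F)) = nrm (hat X) →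
      Tendsto (fun t => ch (g t)) (𝓝 (nrm (hat P), nrm (hat Q), nrm (hat F))) (𝓝 X) ∧
      ∀ᶠ t in 𝓝 (nrm (hat P), nrm (hat Q), nrm (hat F)), g t 2 ≠ 0 := by
    intro g X hg e
    have t1 := hg.tendsto (nrm (hat P), nrm (hat Q), nrm (hat F))
    rw [e] at t1
    have t2 := (continuousAt_ch (nrm_hat2 X)).tendsto.comp t1
    rw [ch_nrm_hat] at t2
    have c2 : Continuous fun x : E3 => x 2 := by fun_prop
    exact ⟨t2, ((c2.tendsto _).comp t1).eventually_ne (nrm_hat2 X)⟩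
  obtain ⟨T1, n1⟩ := T (g := fun t => t.1) (X := P) (by fun_prop) rfl
  obtain ⟨T2, n2⟩ := T (g := fun t => t.2.1) (X := Q) (by fun_prop) rfl
  obtain ⟨T3, n3⟩ := T (g := fun t => t.2.2) (X := F) (by fun_prop) rfl
  refine mem_closure_of_frequently_of_tendsto (((mem_closure_iff_frequently.1 m).and_eventually
    (n1.and (n2.and (n3.and ((T1.eventually (w2.mem_nhds hP)).and
      (T3.eventually (w2.mem_nhds hF))))))).mono ?_) (T1.prodMk_nhds (T2.prodMk_nhds T3))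
  rintro ⟨p, q, f⟩ ⟨⟨s1, -, s3, A, hA⟩, a1, a2, a3, a4, a5⟩
  simp only at *
  refine ⟨⟨⟨A 0 0, (A 0 1 + A 1 0) / 2, A 1 1⟩, ⟨A 0 2 + A 2 0, A 1 2 + A 2 1⟩, A 2 2⟩,
    fun X hX => ?_⟩
  have e1 : len (ext d) L X (ch f) = d (nrm (hat X)) f := by
    have f0 := ne_of_mem_sphere s3
    rw [len_short (pr X hX _ a5).1, hat_ch a3, h.smul_right (inv_ne_zero a3) (hat_ne X) f0, ext,
      nrm_of_mem s3]
  simp only
  rw [dl_proj h s1 a1 a2 (pr X hX _ a4).1 (pr X hX _ a4).2, e1,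
    hA _ ⟨(w1 hX).2, nrm_mem (hat_ne X)⟩]
  have n0 : ‖hat X‖⁻¹ ^ 2 ≠ 0 := pow_ne_zero _ (inv_ne_zero (norm_ne_zero_iff.2 (hat_ne X)))
  rw [← mul_eq_zero_iff_left n0 (b := Con.q _ X)]
  refine Eq.congr_left ?_
  simp [nrm, Con.q, QF.ev, dot, dotProduct, Matrix.mulVec, Fin.sum_univ_three]; ring

end

lemma Pm.t_const {P : Pm} (h : ∀ X, 0 < P.t X) : P.α = 0 ∧ P.β = 0 := by
  constructor
  · by_contra e
    have := h ⟨-P.t0 / P.α, 0⟩
    simp [Pm.t, div_mul_cancel₀ _ e] at this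
  · by_contra e
    have := h ⟨0, -P.t0 / P.β⟩
    simp [Pm.t, div_mul_cancel₀ _ e] at this

lemma Pm.x_big {P : Pm} (hP : P.det ≠ 0) (h : P.α = 0 ∧ P.β = 0) (R : ℝ) :
    ∃ X, R ≤ ‖P.x X - P.x 0‖ := by
  have ha : P.a ≠ 0 := fun e => hP (by simp [Pm.det, h.1, h.2, e])
  refine ⟨⟨|R| / ‖P.a‖, 0⟩, ?_⟩
  have : P.x ⟨|R| / ‖P.a‖, 0⟩ - P.x 0 = (|R| / ‖P.a‖) • P.a := by simp [Pm.x]
  rw [this, norm_smul, Real.norm_eq_abs, abs_of_nonneg (by positivity),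
    div_mul_cancel₀ _ (norm_ne_zero_iff.2 ha)]
  exact le_abs_self R

lemma Pm.antipode {P : Pm} (hP : P.det ≠ 0) : Tendsto (fun ε : ℝ =>
    P.B 1 (0 + (-ε⁻¹) • (1 : ℂ)) (0 + ε⁻¹ • (1 : ℂ)) / √(P.B 1 (0 + (-ε⁻¹) • (1 : ℂ)) (0 + (-ε⁻¹) • (1 : ℂ))
      * P.B 1 (0 + ε⁻¹ • (1 : ℂ)) (0 + ε⁻¹ • (1 : ℂ)))) (𝓝[>] 0) (𝓝 (-1)) := by
  obtain ⟨n0, h0⟩ : ∃ n0, n0 = be 1 (P.x 0) (P.t 0) (P.x 0) (P.t 0) := ⟨_, rfl⟩
  obtain ⟨k, hk⟩ : ∃ k, k = be 1 (P.x 0) (P.t 0) (P.lx 1) (P.lt 1) := ⟨_, rfl⟩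
  obtain ⟨n1, h1⟩ : ∃ n1, n1 = be 1 (P.lx 1) (P.lt 1) (P.lx 1) (P.lt 1) := ⟨_, rfl⟩
  have p1 : 0 < n1 := by
    rw [h1, be, one_mul, dot_self]
    by_contra hc
    have a1 : P.lt 1 = 0 := by nlinarith [sq_nonneg ‖P.lx 1‖, mul_self_nonneg (P.lt 1)]
    have a2 : P.lx 1 = 0 := norm_eq_zero.1 (by nlinarith [norm_nonneg (P.lx 1), mul_self_nonneg (P.lt 1)])
    have := P.det3 0 1 Complex.I
    rw [a1, a2] at this
    simp [cr] at this
    exact hP this.symm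
  have eB : ∀ s t : ℝ, P.B 1 (0 + s • (1 : ℂ)) (0 + t • (1 : ℂ)) = n0 + (s + t) * k + s * t * n1 := by
    intro s t
    rw [Pm.B, P.x_add, P.x_add, P.t_add, P.t_add, h0, hk, h1]
    simp only [be, dot_add_l, dot_add_r, dot_smul_l, dot_smul_r, dot_comm (P.lx 1) (P.x 0)]; ring
  have c : ContinuousAt (fun ε : ℝ => (ε ^ 2 * n0 - n1)
      / √((ε ^ 2 * n0 - 2 * ε * k + n1) * (ε ^ 2 * n0 + 2 * ε * k + n1))) 0 := by
    refine ContinuousAt.div (by fun_prop) (by fun_prop) ?_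
    simpa [Real.sqrt_mul_self p1.le] using p1.ne'
  have T := c.tendsto.mono_left (nhdsWithin_le_nhds (s := Ioi 0))
  have e : ((0 : ℝ) ^ 2 * n0 - n1) / √((0 ^ 2 * n0 - 2 * 0 * k + n1) * (0 ^ 2 * n0 + 2 * 0 * k + n1))
      = -1 := by
    simp [Real.sqrt_mul_self p1.le, p1.ne']
  rw [e] at T
  refine T.congr' ?_
  filter_upwards [self_mem_nhdsWithin] with ε hε
  have hε' : 0 < ε := hε
  rw [eB, eB, eB]
  have e2 : (ε ^ 2 * n0 - 2 * ε * k + n1) * (ε ^ 2 * n0 + 2 * ε * k + n1) = (ε ^ 2) ^ 2 *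
      ((n0 + (-ε⁻¹ + -ε⁻¹) * k + -ε⁻¹ * -ε⁻¹ * n1) * (n0 + (ε⁻¹ + ε⁻¹) * k + ε⁻¹ * ε⁻¹ * n1)) := by
    field_simp; ring
  have e3 : ε ^ 2 * n0 - n1 = ε ^ 2 * (n0 + (-ε⁻¹ + ε⁻¹) * k + -ε⁻¹ * ε⁻¹ * n1) := by
    field_simp; ring
  rw [e2, e3, Real.sqrt_mul (sq_nonneg _), Real.sqrt_sq (sq_nonneg _),
    mul_div_mul_left _ _ (pow_pos hε' 2).ne']

lemma min_arccos (x : ℝ) : min (Real.arccos x) (Real.pi - Real.arccos x) = Real.arccos |x| := by
  rcases le_total 0 x with h | h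
  · rw [abs_of_nonneg h, min_eq_left (by linarith [Real.arccos_le_pi_div_two.2 h])]
  · have := Real.arccos_le_pi_div_two.2 (neg_nonneg.2 h)
    rw [abs_of_nonpos h, Real.arccos_neg] at *
    exact min_eq_right (by linarith)

noncomputable def lin (T : Matrix (Fin 3) (Fin 3) ℝ) : E3 →ₗ[ℝ] E3 := Matrix.toLpLin 2 2 T

lemma lin_frm (T : Matrix (Fin 3) (Fin 3) ℝ) (x y : E3) :
    frm 1 (T *ᵥ ![x 0, x 1, x 2]) (T *ᵥ ![y 0, y 1, y 2]) = inner ℝ (lin T x) (lin T y) := by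
  simp [frm, lin, inner3, Matrix.toLpLin_apply, Matrix.mulVec, dotProduct, Fin.sum_univ_three]; ring

lemma lin_ne {T : Matrix (Fin 3) (Fin 3) ℝ} (hT : T.det ≠ 0) {x : E3} (hx : x ≠ 0) : lin T x ≠ 0 := by
  intro e
  have : T *ᵥ x.ofLp = 0 := congrArg WithLp.ofLp e
  exact hx (by simpa using Matrix.eq_zero_of_mulVec_eq_zero hT this)

lemma ratio_eq (a b : E3) : |inner ℝ a b| / √(inner ℝ a a * inner ℝ b b) = |inner ℝ a b| / (‖a‖ * ‖b‖) := by
  rw [real_inner_self_eq_norm_sq, real_inner_self_eq_norm_sq, ← mul_pow, Real.sqrt_sq (by positivity)]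

theorem ell_of_ckc {d : E3 → E3 → ℝ} {L : ℝ} (h : PP (ext d) L) (hc : CKc univ (len (ext d) L)) :
    EllE d := by
  have bd : ∀ X Y, len (ext d) L X Y ≤ L := fun X Y => by
    linarith [(le_len h X Y).2.1, h.nonneg (hat_ne X) (hat_ne Y)]
  obtain ⟨c, hc, P, hP, ⟨h1, h2⟩ | ⟨h1, h2⟩ | h2⟩ := hc
  · exfalso
    have k := Pm.t_const fun X => h1 X trivial
    have t0 := h1 0 trivial
    have et : ∀ X, P.t X = P.t 0 := fun X => by simp [Pm.t, k.1, k.2]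
    obtain ⟨X, hX⟩ := Pm.x_big hP k (P.t 0 * (c * L + 1))
    have := h2 X trivial 0 trivial
    rw [et X, ← smul_sub, norm_smul, Real.norm_eq_abs, abs_of_pos (inv_pos.2 t0), ← div_eq_inv_mul,
      eq_div_iff t0.ne'] at this
    have := mul_le_mul_of_nonneg_left (mul_le_mul_of_nonneg_left (bd X 0) hc.le) t0.le
    linarith
  · exfalso
    have k := Pm.t_const fun X => (h1 X trivial).1
    have t0 := (h1 0 trivial).1
    have et : ∀ X, P.t X = P.t 0 := fun X => by simp [Pm.t, k.1, k.2]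
    have lt : ∀ X, ‖P.x X‖ < P.t 0 := fun X => by
      have := (h1 X trivial).2
      rw [Pm.B, be, dot_self, et X] at this
      exact lt_of_pow_lt_pow_left₀ 2 t0.le (by linarith)
    obtain ⟨X, hX⟩ := Pm.x_big hP k (2 * P.t 0)
    linarith [norm_sub_le (P.x X) (P.x 0), lt X, lt 0]
  have cL : c * L = Real.pi := by
    apply le_antisymm
    · obtain ⟨s, -, -, -, hsurj, -, hl⟩ := len_line h 0 one_ne_zero
      have T : Tendsto (fun ε : ℝ => c * (L - 2 * ε)) (𝓝[>] 0) (𝓝 (c * (L - 2 * 0))) :=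
        (((tendsto_id.mono_left nhdsWithin_le_nhds).const_mul 2).const_sub L).const_mul c
      rw [mul_zero, sub_zero] at T
      refine le_of_tendsto T ?_
      filter_upwards [Ioo_mem_nhdsGT (half_pos h.Lpos)] with ε hε
      obtain ⟨t1, e1⟩ := hsurj ε hε.1 (by linarith [hε.1, hε.2])
      obtain ⟨t2, e2⟩ := hsurj (L - ε) (by linarith [hε.1, hε.2]) (by linarith [hε.1])
      have := h2 (0 + t1 • (1 : ℂ)) trivial (0 + t2 • (1 : ℂ)) trivial
      rw [(hl t1 t2).1, e1, e2, abs_of_nonpos (by linarith [hε.2])] at this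
      linarith [Real.arccos_le_pi (P.B 1 (0 + t1 • (1 : ℂ)) (0 + t2 • (1 : ℂ)) /
        √(P.B 1 (0 + t1 • (1 : ℂ)) (0 + t1 • (1 : ℂ)) * P.B 1 (0 + t2 • (1 : ℂ)) (0 + t2 • (1 : ℂ))))]
    · have T := (Real.continuous_arccos.tendsto _).comp (Pm.antipode hP)
      rw [Real.arccos_neg_one] at T
      refine le_of_tendsto T (Eventually.of_forall fun ε => ?_)
      rw [Function.comp_apply, ← h2 _ trivial _ trivial]
      exact mul_le_mul_of_nonneg_left (bd _ _) hc.le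
  obtain ⟨T, hT⟩ : ∃ T : Matrix (Fin 3) (Fin 3) ℝ,
    T = !![P.a.re, P.b.re, P.x0.re; P.a.im, P.b.im, P.x0.im; P.α, P.β, P.t0] := ⟨_, rfl⟩
  have dT : T.det ≠ 0 := fun e => hP (by
    rw [hT, Matrix.det_fin_three] at e
    simp at e
    simp only [Pm.det, cr]
    linear_combination e)
  have eB : ∀ X Y, P.B 1 X Y = inner ℝ (lin T (hat X)) (lin T (hat Y)) := fun X Y => by
    rw [← lin_frm, hT]
    simp [frm, Pm.B, be, dot, Pm.x, Pm.t, Matrix.mulVec, dotProduct, Fin.sum_univ_three,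
      Complex.smul_re, Complex.smul_im]
    ring
  have gen : ∀ x y : E3, x 2 ≠ 0 → y 2 ≠ 0 → c * ext d x y =
      Real.arccos (|inner ℝ (lin T x) (lin T y)| / (‖lin T x‖ * ‖lin T y‖)) := by
    intro x y hx hy
    rw [← ext_hat_ch h hx hy, (le_len h _ _).2.2, mul_min_of_nonneg _ _ hc.le, mul_sub, cL,
      h2 _ trivial _ trivial, min_arccos, abs_div, abs_of_nonneg (Real.sqrt_nonneg _), eB, eB, eB,
      ratio_eq, hat_ch hx, hat_ch hy]
    simp only [map_smul, inner_smul_left, inner_smul_right, norm_smul, abs_mul, Real.norm_eq_abs,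
      conj_trivial]
    have a := abs_pos.2 (inv_ne_zero hx)
    have b := abs_pos.2 (inv_ne_zero hy)
    congr 1
    rw [show |(y 2)⁻¹| * (|(x 2)⁻¹| * |inner ℝ (lin T x) (lin T y)|)
      = |(x 2)⁻¹| * |(y 2)⁻¹| * |inner ℝ (lin T x) (lin T y)| by ring,
      show |(x 2)⁻¹| * ‖lin T x‖ * (|(y 2)⁻¹| * ‖lin T y‖)
        = |(x 2)⁻¹| * |(y 2)⁻¹| * (‖lin T x‖ * ‖lin T y‖) by ring, mul_div_mul_left _ _ (mul_pos a b).ne']
  refine ⟨c, hc, T, dT, _, fun _ => rfl, fun x hx y hy => ?_⟩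
  have x0 := ne_of_mem_sphere hx
  have y0 := ne_of_mem_sphere hy
  simp only [lin_frm, ratio_eq]
  have e0 : d x y = ext d x y := by rw [ext, nrm_of_mem hx, nrm_of_mem hy]
  have Tp : ∀ z : E3, Tendsto (fun ε : ℝ => z + ε • hat 0) (𝓝[>] 0) (𝓝 z) ∧
      ∀ᶠ ε : ℝ in 𝓝[>] 0, (z + ε • hat 0) 2 ≠ 0 := by
    intro z
    have c1 : Continuous fun ε : ℝ => z + ε • hat 0 := by fun_prop
    have t1 : Tendsto (fun ε : ℝ => z + ε • hat 0) (𝓝[>] 0) (𝓝 z) := by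
      simpa using (c1.tendsto 0).mono_left (nhdsWithin_le_nhds (s := Ioi 0))
    refine ⟨t1, ?_⟩
    by_cases e : z 2 = 0
    · filter_upwards [self_mem_nhdsWithin] with ε hε
      have : (0 : ℝ) < ε := hε
      simpa [e] using this.ne'
    · have c2 : Continuous fun x : E3 => x 2 := by fun_prop
      exact ((c2.tendsto _).comp t1).eventually_ne e
  have cl : Continuous (lin T) := (lin T).continuous_of_finiteDimensional
  have T1 := ((contD h x0 y0).tendsto.comp ((Tp x).1.prodMk_nhds (Tp y).1)).const_mul c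
  have a1 := (cl.tendsto x).comp (Tp x).1
  have a2 := (cl.tendsto y).comp (Tp y).1
  have T2 := (Real.continuous_arccos.tendsto _).comp (((a1.inner a2 (𝕜 := ℝ)).abs).div (a1.norm.mul a2.norm)
    (mul_ne_zero (norm_ne_zero_iff.2 (lin_ne dT x0)) (norm_ne_zero_iff.2 (lin_ne dT y0))))
  rw [e0]
  refine tendsto_nhds_unique T1 (T2.congr' ?_)
  filter_upwards [(Tp x).2, (Tp y).2] with ε b1 b2
  exact (gen _ _ b1 b2).symm

lemma exists_mat (β : E3 →ₗ[ℝ] E3 →ₗ[ℝ] ℝ) : ∃ A : Matrix (Fin 3) (Fin 3) ℝ, ∀ X : E3,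
    ![X 0, X 1, X 2] ⬝ᵥ (A *ᵥ ![X 0, X 1, X 2]) = β X X := by
  obtain ⟨e, he⟩ : ∃ e : Fin 3 → E3, e = ![vec 1, vec Complex.I, hat 0] := ⟨_, rfl⟩
  refine ⟨Matrix.of fun i j => β (e i) (e j), fun X => ?_⟩
  have eX : X = X 0 • e 0 + X 1 • e 1 + X 2 • e 2 := by
    rw [he]; exact ext3 (by simp) (by simp) (by simp)
  conv_rhs => rw [eX]
  simp [Matrix.mulVec, dotProduct, Fin.sum_univ_three]; ring

theorem EllE.good {d : E3 → E3 → ℝ} (h : EllE d) {p q F : E3} (hp : p ∈ Metric.sphere (0 : E3) 1)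
    (hq : q ∈ Metric.sphere (0 : E3) 1) (hF : F ∈ Metric.sphere (0 : E3) 1) :
    (p, q, F) ∈ GoodP univ d := by
  obtain ⟨c, hc, T, hT, u, hu, h⟩ := h
  simp only [hu, lin_frm, ratio_eq] at h
  obtain ⟨W, hW⟩ : ∃ W : Submodule ℝ E3, W = (Submodule.span ℝ {p, q}).map (lin T) := ⟨_, rfl⟩
  obtain ⟨π, hπ⟩ : ∃ π : E3 →ₗ[ℝ] E3, π = W.starProjection.toLinearMap ∘ₗ lin T := ⟨_, rfl⟩
  obtain ⟨A, hA⟩ := exists_mat
    ((((innerₗ E3 (lin T F)) ∘ₗ lin T).smulRight ((innerₗ E3 (lin T F)) ∘ₗ lin T))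
      - ‖lin T F‖ ^ 2 • (innerₗ E3).compl₁₂ π π)
  refine ⟨hp, hq, hF, A, fun X hX => ?_⟩
  have X0 := ne_of_mem_sphere hX.2
  have nu := norm_pos_iff.2 (lin_ne hT X0)
  have nf := norm_pos_iff.2 (lin_ne hT (ne_of_mem_sphere hF))
  have pr : ∀ w ∈ W, inner ℝ (lin T X) w = inner ℝ (π X) w := fun w hw => by
    have := W.starProjection_inner_eq_zero (lin T X) w hw
    rw [inner_sub_left, sub_eq_zero] at this
    rw [this, hπ]; rfl
  have pm : π X ∈ W := by rw [hπ]; exact W.starProjection_apply_mem _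
  have ple : ‖π X‖ ≤ ‖lin T X‖ := by rw [hπ]; exact W.norm_starProjection_apply_le _
  have least : IsLeast ((fun Y => d X Y) '' (Metric.sphere (0 : E3) 1 ∩
      (Submodule.span ℝ {p, q} : Submodule ℝ E3))) (Real.arccos (‖π X‖ / ‖lin T X‖) / c) := by
    constructor
    · by_cases e : π X = 0
      · refine ⟨p, ⟨hp, Submodule.subset_span (by simp)⟩, ?_⟩
        rw [eq_div_iff hc.ne', mul_comm, h X hX.2 p hp,
          pr _ (hW ▸ Submodule.mem_map_of_mem (Submodule.subset_span (by simp))), e]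
        simp
      · obtain ⟨Y, hY, eY⟩ := Submodule.mem_map.1 (hW ▸ pm)
        have Y0 : Y ≠ 0 := by rintro rfl; exact e (by rw [← eY, map_zero])
        have nY := norm_pos_iff.2 Y0
        have nπ := norm_pos_iff.2 e
        refine ⟨nrm Y, ⟨nrm_mem Y0, Submodule.smul_mem _ _ hY⟩, ?_⟩
        rw [eq_div_iff hc.ne', mul_comm, h X hX.2 _ (nrm_mem Y0), nrm, map_smul, eY, inner_smul_right,
          pr _ pm, real_inner_self_eq_norm_sq, norm_smul, norm_inv, norm_norm, abs_of_pos (by positivity)]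
        congr 1
        field_simp
    · rintro _ ⟨Y, ⟨hY, hs⟩, rfl⟩
      have nY := norm_pos_iff.2 (lin_ne hT (ne_of_mem_sphere hY))
      rw [div_le_iff₀ hc, mul_comm, h X hX.2 Y hY, pr _ (hW ▸ Submodule.mem_map_of_mem hs)]
      refine Real.arccos_le_arccos ?_
      rw [div_le_div_iff₀ (by positivity) nu]
      nlinarith [abs_real_inner_le_norm (π X) (lin T Y)]
  have r1 : |inner ℝ (lin T X) (lin T F)| / (‖lin T X‖ * ‖lin T F‖) ∈ Icc (-1 : ℝ) 1 :=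
    ⟨le_trans (by norm_num) (by positivity : (0 : ℝ) ≤ _),
      (div_le_one (by positivity)).2 (abs_real_inner_le_norm _ _)⟩
  have r2 : ‖π X‖ / ‖lin T X‖ ∈ Icc (-1 : ℝ) 1 :=
    ⟨le_trans (by norm_num) (by positivity : (0 : ℝ) ≤ _), (div_le_one nu).2 ple⟩
  simp only
  rw [least.csInf_eq, eq_div_iff hc.ne', mul_comm, h X hX.2 F hF, Real.arccos_injOn.eq_iff r1 r2, hA,
    div_eq_div_iff (by positivity) nu.ne', show ‖π X‖ * (‖lin T X‖ * ‖lin T F‖)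
      = ‖lin T F‖ * ‖π X‖ * ‖lin T X‖ by ring, mul_left_inj' nu.ne',
    ← sq_eq_sq₀ (abs_nonneg _) (by positivity), sq_abs, mul_pow, real_inner_comm]
  simp only [LinearMap.sub_apply, LinearMap.smul_apply, LinearMap.smulRight_apply, LinearMap.comp_apply,
    LinearMap.compl₁₂_apply, innerₗ_apply_apply, smul_eq_mul, real_inner_self_eq_norm_sq]
  constructor <;> intro e <;> linarith

theorem proj_local_iff {d : E3 → E3 → ℝ}
    (h0 : ∀ x ∈ Metric.sphere (0 : E3) 1, ∀ y ∈ Metric.sphere (0 : E3) 1,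
      (d x y = 0 ↔ (x = y ∨ x = -y)))
    (hs : ∀ x ∈ Metric.sphere (0 : E3) 1, ∀ y ∈ Metric.sphere (0 : E3) 1, d x y = d y x)
    (hn : ∀ x ∈ Metric.sphere (0 : E3) 1, ∀ y ∈ Metric.sphere (0 : E3) 1, d (-x) y = d x y)
    (ht : ∀ x ∈ Metric.sphere (0 : E3) 1, ∀ y ∈ Metric.sphere (0 : E3) 1,
      ∀ z ∈ Metric.sphere (0 : E3) 1, d x z ≤ d x y + d y z)
    (hc : ∀ x ∈ Metric.sphere (0 : E3) 1,
        Filter.HasBasis
          (nhdsWithin x (Metric.sphere (0 : E3) 1) ⊔ nhdsWithin (-x) (Metric.sphere (0 : E3) 1))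
          (fun r : ℝ => 0 < r)
          (fun r => {y | y ∈ Metric.sphere (0 : E3) 1 ∧ d x y < r}))
    (hL : ∃ L : ℝ, 0 < L ∧ ∀ n : E3, n ≠ 0 → ∃ γ : ℝ → E3,
          (∀ t, γ t ∈ Metric.sphere (0 : E3) 1 ∧ inner ℝ n (γ t) = 0) ∧
          (∀ x ∈ Metric.sphere (0 : E3) 1, inner ℝ n x = 0 → ∃ t, γ t = x ∨ γ t = -x) ∧
          ∀ s t : ℝ, d (γ s) (γ t) = ⨅ k : ℤ, |s - t - (k : ℝ) * L|)
    (hst : ∀ x ∈ Metric.sphere (0 : E3) 1, ∀ y ∈ Metric.sphere (0 : E3) 1,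
      ∀ z ∈ Metric.sphere (0 : E3) 1, LinearIndependent ℝ ![x, y, z] → d x z < d x y + d y z) :
    (∀ O ∈ Metric.sphere (0 : E3) 1, ∃ U ∈ 𝓝 O,
      (U ∩ Metric.sphere (0 : E3) 1) ×ˢ (U ∩ Metric.sphere (0 : E3) 1) ×ˢ (U ∩ Metric.sphere (0 : E3) 1)
        ⊆ closure (GoodP U d)) ↔ EllE d := by
  refine ⟨fun hq => ?_, fun he O _ => ⟨univ, univ_mem, ?_⟩⟩
  · obtain ⟨L, hL, hγ⟩ := hL
    have h : PP (ext d) L := pm_of_sphere h0 hs hn ht hc hL hγ
    have hinv : ∀ x : E3, x ≠ 0 → ‖x‖⁻¹ ≠ 0 := fun x hx => inv_ne_zero (norm_ne_zero_iff.2 hx)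
    refine ell_of_ckc h ((len_pm0 h).ckc_of_lq (len_strict h ?_) (lq_of_proj h hq) univ_nonempty)
    intro x y z hli
    have hx : x ≠ 0 := hli.ne_zero 0
    have hy : y ≠ 0 := hli.ne_zero 1
    have hz : z ≠ 0 := hli.ne_zero 2
    refine hst _ (nrm_mem hx) _ (nrm_mem hy) _ (nrm_mem hz) ?_
    rw [Fintype.linearIndependent_iff] at hli ⊢
    intro g hg
    have := hli ![g 0 * ‖x‖⁻¹, g 1 * ‖y‖⁻¹, g 2 * ‖z‖⁻¹] (by
      simpa only [Fin.sum_univ_three, Matrix.cons_val_zero, Matrix.cons_val_one,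
        Matrix.cons_val, nrm, smul_smul] using hg)
    intro i
    fin_cases i
    · exact (mul_eq_zero.1 (this 0)).resolve_right (hinv x hx)
    · exact (mul_eq_zero.1 (this 1)).resolve_right (hinv y hy)
    · exact (mul_eq_zero.1 (this 2)).resolve_right (hinv z hz)
  · rintro ⟨p, q, F⟩ ⟨a, b, c⟩
    exact subset_closure (he.good a.2 b.2 c.2)

end Pool.Agent.P.MP_ec5bc9_gt.H13
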