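import Pool.Agent.P.MP_ec5bc9_gt.L5

/-! A dense family of global quadratic conics: the domain is the whole model. -/

set_option autoImplicit false

namespace Pool.Agent.P.MP_ec5bc9_gt.H13

open Set Filter Topology

attribute [-simp] Complex.real_smul

lemma Prim.strict {e : ℝ} {Ψ : ℝ → ℝ} (h : Prim e Ψ) : StrictAntiOn Ψ (II e) :=
  strictAntiOn_of_deriv_neg (II_convex e)
    (fun c hc => (h.der c hc).continuousAt.continuousWithinAt)
    (fun c hc => by
      rw [(h.der c (interior_subset hc)).deriv]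
      exact neg_neg_of_pos (inv_pos.2 (II_sq (interior_subset hc))))

lemma exists_prim (e : ℝ) : ∃ Ψ, Prim e Ψ := by
  rcases lt_trichotomy e 0 with h | rfl | h
  · exact ⟨_, prim_neg h⟩
  · exact ⟨_, prim_zero⟩
  · exact ⟨_, prim_pos h⟩

namespace PM0
variable {M : Set ℂ} {d : ℂ → ℂ → ℝ} (H : PM0 M d) {Y w F : ℂ}
include H

lemma dl_usc {ι : Type*} {l : Filter ι} {X : ℂ} {Yi wi : ι → ℂ} (hX : X ∈ M) (hY : Y ∈ M)
    (TY : Tendsto Yi l (𝓝 Y)) (Tw : Tendsto wi l (𝓝 w)) {b : ℝ} (hb : dl M d Y w X < b) :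
    ∀ᶠ i in l, dl M d (Yi i) (wi i) X < b := by
  obtain ⟨_, ⟨s, hs, rfl⟩, hlt⟩ := exists_lt_of_csInf_lt (s := (fun s : ℝ => d X (Y + s • w)) ''
    {s | Y + s • w ∈ M}) ⟨_, 0, by simpa using hY, rfl⟩ hb
  have T := TY.add (Tw.const_smul s)
  filter_upwards [H.eventually_mem hs T,
    (H.tendsto hX hs tendsto_const_nhds T).eventually (gt_mem_nhds hlt)] with i a1 a2
  exact (H.dl_le hX a1).trans_lt a2

/-- A ray from the focus crosses the conic; no compactness is needed. -/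
lemma crossing' (hs : Strict M d) (hY : Y ∈ M) (hF : F ∈ M) (h : cr w (F - Y) ≠ 0) {v : ℂ} {s t : ℝ}
    (ht : F + t • v ∈ M) (h0 : 0 ≤ s) (hst : s < t)
    (hz : ff M d Y w F (F + s • v) = 0) : 0 < ff M d Y w F (F + t • v) := by
  have hw : w ≠ 0 := by rintro rfl; simp at h
  have hXM := H.ray_mem hF ht h0 hst.le
  have hv : v ≠ 0 := by
    rintro rfl
    rw [smul_zero, add_zero] at hz
    exact (H.ff_focus hY hF h).ne hz
  have s0 : 0 < s := lt_of_le_of_ne h0 (by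
    rintro rfl
    rw [zero_smul, add_zero] at hz
    exact (H.ff_focus hY hF h).ne hz)
  refine lt_of_le_of_ne (hz ▸ H.ff_mono hY hF ht h0 hst.le) fun hz' => ?_
  have a2 := H.ray_add hF ht h0 hst.le
  obtain ⟨X, hX⟩ : ∃ X, X = F + s • v := ⟨_, rfl⟩
  obtain ⟨X', hX'⟩ : ∃ X', X' = F + t • v := ⟨_, rfl⟩
  have eX' : X' = X + (t - s) • v := by rw [hX, hX']; module
  have eF : F = X + s • (-v) := by rw [hX]; module
  rw [← hX] at hXM hz a2
  rw [← hX'] at ht hz' a2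
  simp only [ff] at hz hz'
  have hcX : cr w (X - Y) ≠ 0 := by
    intro e
    obtain ⟨r, hr⟩ := exists_smul_of_cr hw e
    have e1 : Y + r • w = X := by rw [← hr]; abel
    have := H.ff_line hF h (s := r) (e1 ▸ hXM)
    rw [e1, ff] at this
    linarith
  have hex : ∀ ε : ℝ, ∃ r : ℝ, 0 < ε → Y + r • w ∈ M ∧ d X (Y + r • w) < dl M d Y w X + ε := by
    intro ε
    by_cases hε : 0 < ε
    · obtain ⟨_, ⟨r, hr, rfl⟩, hlt⟩ := exists_lt_of_csInf_lt (s := (fun s : ℝ => d X (Y + s • w)) ''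
        {s | Y + s • w ∈ M}) ⟨_, 0, by simpa using hY, rfl⟩ (lt_add_of_pos_right _ hε)
      exact ⟨r, fun _ => ⟨hr, hlt⟩⟩
    · exact ⟨0, fun a => absurd a hε⟩
  choose r hr using hex
  obtain ⟨Z, hZ⟩ : ∃ Z : ℝ → ℂ, ∀ ε, Z ε = Y + r ε • w - X := ⟨_, fun _ => rfl⟩
  have eZ : ∀ ε, Y + r ε • w = X + ‖Z ε‖ • (‖Z ε‖⁻¹ • Z ε) ∧ |cr w (X - Y)| / ‖w‖ ≤ ‖Z ε‖ := by
    intro ε
    have c : cr w (Z ε) = -cr w (X - Y) := by rw [hZ]; simp
    have n : ‖Z ε‖ ≠ 0 := norm_ne_zero_iff.2 fun e => hcX (by rw [e, cr_zero_r] at c; linarith)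
    refine ⟨by rw [smul_smul, mul_inv_cancel₀ n, one_smul, hZ]; abel, ?_⟩
    rw [div_le_iff₀ (norm_pos_iff.2 hw), mul_comm, ← abs_neg, ← c]
    exact abs_cr_le _ _
  have ρ0 : 0 < |cr w (X - Y)| / ‖w‖ := div_pos (abs_pos.2 hcX) (norm_pos_iff.2 hw)
  obtain ⟨u, hu, Tu⟩ := ultra_lim UU (isCompact_sphere (0 : ℂ) 1) (f := fun ε => ‖Z ε‖⁻¹ • Z ε)
    (Eventually.of_forall fun ε => by
      have := ρ0.trans_le (eZ ε).2
      simp [norm_smul, this.ne'])
  have T0 : Tendsto (fun ε : ℝ => ε) UU (𝓝 0) := UU_le.trans nhdsWithin_le_nhds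
  have seg : ∀ a : ℝ, 0 ≤ a → X + a • u ∈ M → (∀ᶠ ε in (UU : Filter ℝ), a ≤ ‖Z ε‖) →
      d X (X + a • u) ≤ dl M d Y w X ∧ d X' X + d X (X + a • u) ≤ d X' (X + a • u) := by
    intro a ha hm ev
    have T := (Tu.const_smul a).const_add X
    have T1 := H.tendsto hXM hm tendsto_const_nhds T
    have T2 := H.tendsto ht hm tendsto_const_nhds T
    have ev2 : ∀ᶠ ε in (UU : Filter ℝ), d X (X + a • ‖Z ε‖⁻¹ • Z ε) ≤ dl M d Y w X + ε ∧
        d X' X + d X (X + a • ‖Z ε‖⁻¹ • Z ε) ≤ d X' (X + a • ‖Z ε‖⁻¹ • Z ε) + ε := by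
      filter_upwards [ev, UU_pos] with ε b1 b2
      obtain ⟨c1, c2⟩ := hr ε b2
      have c3 := H.dl_le (Y := Y) (w := w) ht c1
      rw [(eZ ε).1] at c1 c2 c3
      have c4 := H.ray_add hXM c1 ha b1
      have m := H.ray_mem hXM c1 ha b1
      constructor
      · linarith [H.nonneg m c1]
      · linarith [H.tri _ ht _ m _ c1, H.symm _ ht _ hF, H.symm _ hXM _ hF, H.symm _ ht _ hXM]
    constructor
    · simpa using le_of_tendsto_of_tendsto T1 (T0.const_add _) (ev2.mono fun ε b => b.1)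
    · simpa using le_of_tendsto_of_tendsto (T1.const_add _) (T2.add T0) (ev2.mono fun ε b => b.2)
  have u0 : u ≠ 0 := by rintro rfl; simp at hu
  obtain ⟨a, a1, a3⟩ := ((H.eventually_mem hXM (small_r X u)).and (Ioo_mem_nhdsGT ρ0)).exists
  have b1 := (seg a a3.1.le a1 (Eventually.of_forall fun ε => a3.2.le.trans (eZ ε).2)).2
  have col : cr v u = 0 := by
    by_contra hc
    have := hs _ ht _ hXM _ a1 (by
      have e1 : X - X' = (s - t) • v := by rw [eX']; module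
      have e2 : X + a • u - X' = (s - t) • v + a • u := by rw [eX']; module
      rw [e1, e2]
      simp only [cr_smul_l, cr_add_r, cr_smul_r, cr_self, zero_add]
      exact mul_ne_zero a3.1.ne' (mul_ne_zero (by linarith) hc))
    linarith
  obtain ⟨l, hl⟩ := exists_smul_of_cr hv col
  have lneg : l < 0 := by
    rcases lt_trichotomy l 0 with c | c | c
    · exact c
    · rw [c, zero_smul] at hl; exact absurd hl u0
    exfalso
    have p1 : 0 < d X (X + a • u) := H.pos _ hXM _ a1 (by simp [a3.1.ne', u0])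
    have p2 : 0 < d X X' := H.pos _ hXM _ ht (by rw [eX']; simp [hv, sub_eq_zero, hst.ne'])
    have p3 := H.symm _ ht _ hXM
    rw [hl, smul_smul] at a1 b1 p1
    have al : 0 ≤ a * l := (mul_pos a3.1 c).le
    rcases le_total (a * l) (t - s) with c2 | c2
    · have := H.ray_add hXM (eX' ▸ ht) al c2
      rw [← eX'] at this
      linarith [H.symm _ ht _ a1]
    · have := H.ray_add hXM a1 (by linarith : 0 ≤ t - s) c2
      rw [← eX'] at this
      linarith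
  obtain ⟨η, e1, e2⟩ := ((H.eventually_mem hF (small_r F (-v))).and self_mem_nhdsWithin).exists
  have hη : 0 < η := e2
  have e3 : F + η • (-v) = X + (s + η) • (-v) := by rw [hX]; module
  have eu : ∀ a : ℝ, X + a • u = X + (a * -l) • (-v) := fun a => by rw [hl]; module
  have hl0 : 0 < -l := by linarith
  have R0 : (s + η) / -l * -l = s + η := div_mul_cancel₀ _ hl0.ne'
  rw [e3] at e1
  rcases UU.em (fun ε => (s + η) / -l ≤ ‖Z ε‖) with ev | ev
  · have := (seg _ (by positivity) (by rwa [eu, R0]) ev).1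
    have c := H.ray_strict hXM e1 h0 (by linarith) (neg_ne_zero.2 hv)
    rw [eu, R0] at this
    rw [← eF] at c
    linarith
  · obtain ⟨ρ, hρ, Tρ⟩ := ultra_lim UU (isCompact_Icc (a := 0) (b := (s + η) / -l)) (f := fun ε => ‖Z ε‖)
      (ev.mono fun ε b => ⟨norm_nonneg _, (not_le.1 b).le⟩)
    have T := (Tρ.smul Tu).const_add X
    have q0 : 0 ≤ ρ * -l := mul_nonneg hρ.1 hl0.le
    have m : X + ρ • u ∈ M := by
      rw [eu]; exact H.ray_mem hXM e1 q0 (by rw [← R0]; exact mul_le_mul_of_nonneg_right hρ.2 hl0.le)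
    have c1 : cr w (X + ρ • u - Y) = 0 := by
      have := tendsto_cr (tendsto_const_nhds (x := w)) (T.sub_const Y)
      simp only [← (eZ _).1, add_sub_cancel_left, cr_smul_r, cr_self, mul_zero] at this
      exact tendsto_nhds_unique this tendsto_const_nhds
    have c2 : d X (X + ρ • u) ≤ dl M d Y w X := by
      have := le_of_tendsto_of_tendsto (H.tendsto hXM m tendsto_const_nhds T)
        (T0.const_add (dl M d Y w X))
        (UU_pos.mono fun ε b => by simp only [← (eZ ε).1]; exact (hr ε b).2.le)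
      simpa using this
    obtain ⟨x, hx⟩ := exists_smul_of_cr hw c1
    have e4 : Y + x • w = X + ρ • u := by rw [← hx]; abel
    have c3 := H.dl_le (Y := Y) (w := w) hXM (e4 ▸ m)
    rw [e4] at c3
    rw [eu] at m c1 c2 c3
    rcases lt_trichotomy (ρ * -l) s with c | c | c
    · have := H.ray_strict hXM (eF ▸ hF) q0 c (neg_ne_zero.2 hv)
      rw [← eF] at this; linarith
    · rw [c, ← eF] at c1; exact h c1
    · have := H.ray_strict hXM m h0 c (neg_ne_zero.2 hv)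
      rw [← eF] at this; linarith

end PM0

lemma Nm0.dl_lsc {M : Set ℂ} {d : ℂ → ℂ → ℝ} {k e : ℝ} {p : ℂ} (N : Nm0 M d k p e) {ι : Type*}
    (U : Ultrafilter ι) {X Y w : ℂ} {Yi wi : ι → ℂ} (hX : X ∈ M) (hY : Y ∈ M)
    (hc : cr w (X - Y) ≠ 0) (TY : Tendsto Yi U (𝓝 Y)) (Tw : Tendsto wi U (𝓝 w)) {b : ℝ}
    (hb : b < dl M d Y w X) : ∀ᶠ i in (U : Filter ι), b ≤ dl M d (Yi i) (wi i) X := by
  obtain ⟨Ψ, hΨ⟩ := exists_prim e
  have H := N.pm
  have half : ∀ {w : ℂ} {wi : ι → ℂ} {s : ι → ℝ}, cr w (X - Y) ≠ 0 → Tendsto wi U (𝓝 w) →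
      b < dl M d Y w X → (∀ᶠ i in (U : Filter ι), 0 ≤ s i ∧ Yi i + s i • wi i ∈ M ∧
        d X (Yi i + s i • wi i) < b) → False := by
    intro w wi s hc Tw hb ev
    have neq : ∀ {Y' w' : ℂ} (r : ℝ), cr w' (X - Y') ≠ 0 → X ≠ Y' + r • w' := fun r h e =>
      h (by rw [e]; simp)
    obtain ⟨τ, hτ, Tτ⟩ := ultra_lim U (isCompact_Icc (a := (0 : ℝ)) (b := 1))
      (f := fun i => (1 + s i)⁻¹) (ev.mono fun i h =>
        ⟨inv_nonneg.2 (by linarith [h.1]), inv_le_one_of_one_le₀ (by linarith [h.1])⟩)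
    obtain ⟨G, hG⟩ : ∃ G : ℝ × ℂ × ℂ → ℝ, G = fun z => cc e X (ll p X)
      (z.1 • z.2.1 + (1 - z.1) • z.2.2) (z.1 * ll p z.2.1 + (1 - z.1) * cr p z.2.2) := ⟨_, rfl⟩
    have eG : ∀ (r : ℝ) (Y' w' : ℂ), 0 ≤ r →
        G ((1 + r)⁻¹, Y', w') = cc e X (ll p X) (Y' + r • w') (ll p (Y' + r • w')) := by
      intro r Y' w' hr
      have h1 : (1 + r) ≠ 0 := by linarith
      have h2 : 1 - (1 + r)⁻¹ = (1 + r)⁻¹ * r := by field_simp; ring
      rw [← cc_smul (b := (1 + r)⁻¹) (by positivity), hG]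
      simp only [h2, ll, cr_add_r, cr_smul_r, smul_add, smul_smul]
      congr 1; ring
    have cG : ContinuousAt G (τ, Y, w) := by
      rw [hG]
      refine ContinuousAt.div (by simp only [be, ll]; fun_prop) (by simp only [Hh, Pb, ll]; fun_prop)
        (Real.sqrt_pos.2 ?_).ne'
      obtain ⟨u, hu⟩ : ∃ u, u = τ • (Y - X) + (1 - τ) • w := ⟨_, rfl⟩
      have u0 : u ≠ 0 := by
        intro e0
        have c : cr w u = -(τ * cr w (X - Y)) := by rw [hu]; simp; ring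
        rw [e0] at c
        have t0 : τ = 0 := (mul_eq_zero.1 (by rw [cr_zero_r] at c; linarith)).resolve_right hc
        rw [hu, t0] at e0
        simp at e0
        rw [e0] at hc; simp at hc
      convert N.kk X hX u u0 using 1
      rw [hu]
      simp only [Hh, Pb, KK, ll, dot, cr, Complex.sub_re, Complex.sub_im, Complex.add_re,
        Complex.add_im, Complex.smul_re, Complex.smul_im, smul_eq_mul]; ring
    have T1 := cG.tendsto.comp (Tτ.prodMk_nhds (TY.prodMk_nhds Tw))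
    have ne0 : X ≠ Y := by simpa using neq 0 hc
    have i0 := N.mem_II hX hY ne0
    have d0 : b < k * Ψ (cc e X (ll p X) Y (ll p Y)) := by
      have := H.dl_le (Y := Y) (w := w) (s := 0) hX (by simpa using hY)
      rw [zero_smul, add_zero, N.dist_eq hΨ hX hY ne0] at this
      linarith
    have ev2 : ∀ᶠ i in (U : Filter ι), cc e X (ll p X) Y (ll p Y) ≤ G ((1 + s i)⁻¹, Yi i, wi i) ∧
        k * Ψ (G ((1 + s i)⁻¹, Yi i, wi i)) ≤ b := by
      filter_upwards [ev, (tendsto_cr Tw (TY.const_sub X)).eventually_ne hc] with i ⟨a1, a2, a3⟩ a4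
      rw [N.dist_eq hΨ hX a2 (neq _ a4)] at a3
      rw [eG _ _ _ a1]
      refine ⟨not_lt.1 fun c => ?_, a3.le⟩
      have := mul_le_mul_of_nonneg_left (hΨ.anti (N.mem_II hX a2 (neq _ a4)) i0 c.le) N.kpos.le
      linarith
    have i1 : G (τ, Y, w) ∈ II e := by
      have := ge_of_tendsto T1 (ev2.mono fun i h => h.1)
      exact i0.imp id fun h => h.trans_le this
    have cΨ := (hΨ.der _ i1).continuousAt.tendsto
    have up : k * Ψ (G (τ, Y, w)) ≤ b :=
      le_of_tendsto ((cΨ.comp T1).const_mul k) (ev2.mono fun i h => h.2)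
    have low : ∀ r : ℝ, 0 ≤ r → Y + r • w ∈ M → dl M d Y w X ≤ k * Ψ (G ((1 + r)⁻¹, Y, w)) := by
      intro r hr hm
      rw [eG _ _ _ hr, ← N.dist_eq hΨ hX hm (neq _ hc)]
      exact H.dl_le hX hm
    rcases hτ.2.eq_or_lt with t1 | t1
    · have := low 0 le_rfl (by simpa using hY)
      rw [add_zero, inv_one, ← t1] at this
      linarith
    have T2 : Tendsto (fun θ : ℝ => (θ, Y, w)) (𝓝[>] τ) (𝓝 (τ, Y, w)) :=
      (tendsto_id.mono_left nhdsWithin_le_nhds).prodMk_nhds tendsto_const_nhds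
    have := ge_of_tendsto ((cΨ.comp (cG.tendsto.comp T2)).const_mul k) (b := dl M d Y w X) (by
      filter_upwards [Ioo_mem_nhdsGT t1] with θ hθ
      have θ0 : 0 < θ := hτ.1.trans_lt hθ.1
      obtain ⟨θ', c1, c2⟩ := exists_between hθ.1
      have θ1 : 0 < θ' := hτ.1.trans_lt c1
      have r0 : 0 < θ⁻¹ - 1 := sub_pos.2 (one_lt_inv₀ θ0 |>.2 hθ.2)
      have r1 : θ⁻¹ - 1 < θ'⁻¹ - 1 := sub_lt_sub_right ((inv_lt_inv₀ θ0 θ1).2 c2) 1
      have cl : Y + (θ'⁻¹ - 1) • w ∈ closure M := by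
        refine mem_closure_of_tendsto (TY.add (Tw.const_smul _)) ?_
        filter_upwards [ev, Tτ.eventually (gt_mem_nhds c1), H.eventually_mem hY TY] with i a1 a2 a3
        refine H.ray_mem a3 a1.2.1 (by linarith) ?_
        have := (inv_lt_comm₀ (by linarith [a1.1]) θ1).1 a2
        linarith
      have r2 : 0 < θ'⁻¹ - 1 := r0.trans r1
      have := H.convex.add_smul_sub_mem_interior' (x := Y + (θ'⁻¹ - 1) • w) (y := Y) cl
        (H.isOpen.interior_eq.symm ▸ hY) (t := 1 - (θ⁻¹ - 1) / (θ'⁻¹ - 1))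
        ⟨sub_pos.2 ((div_lt_one r2).2 r1), sub_le_self _ (div_pos r0 r2).le⟩
      have e2 : Y + (θ'⁻¹ - 1) • w + (1 - (θ⁻¹ - 1) / (θ'⁻¹ - 1)) • (Y - (Y + (θ'⁻¹ - 1) • w))
          = Y + ((θ⁻¹ - 1) / (θ'⁻¹ - 1) * (θ'⁻¹ - 1)) • w := by module
      rw [e2, div_mul_cancel₀ _ r2.ne', H.isOpen.interior_eq] at this
      have := low _ r0.le this
      rwa [add_sub_cancel, inv_inv] at this)
    linarith
  obtain ⟨c, h1, h2⟩ := exists_between hb
  rcases U.em (fun i => b ≤ dl M d (Yi i) (wi i) X) with h | h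
  · exact h
  exfalso
  have hex : ∀ i, ∃ s : ℝ, Yi i ∈ M → dl M d (Yi i) (wi i) X < b →
      Yi i + s • wi i ∈ M ∧ d X (Yi i + s • wi i) < b := by
    intro i
    by_cases hi : Yi i ∈ M ∧ dl M d (Yi i) (wi i) X < b
    · obtain ⟨_, ⟨s, hs, rfl⟩, hlt⟩ := exists_lt_of_csInf_lt (s := (fun s : ℝ => d X (Yi i + s • wi i)) ''
        {s | Yi i + s • wi i ∈ M}) ⟨_, 0, by simpa using hi.1, rfl⟩ hi.2
      exact ⟨s, fun _ _ => ⟨hs, hlt⟩⟩
    · exact ⟨0, fun a b => absurd ⟨a, b⟩ hi⟩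
  choose s hs using hex
  have ev : ∀ᶠ i in (U : Filter ι), Yi i + s i • wi i ∈ M ∧ d X (Yi i + s i • wi i) < b := by
    filter_upwards [h, H.eventually_mem hY TY] with i a1 a2
    exact hs i a2 (not_le.1 a1)
  rcases U.em (fun i => 0 ≤ s i) with g | g
  · exact half hc Tw hb (g.and ev)
  · refine half (w := -w) (wi := fun i => -wi i) (s := fun i => -s i) (by rw [cr_neg_l]; exact neg_ne_zero.2 hc) Tw.neg ?_ ?_
    · rwa [← neg_one_smul ℝ w, dl_smul _ _ _ _ _ (by norm_num)]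
    · filter_upwards [g, ev] with i a1 a2
      simpa using ⟨(not_le.1 a1).le, a2⟩

theorem Nm0.ws {M : Set ℂ} {d : ℂ → ℂ → ℝ} {k e : ℝ} {p : ℂ} (N : Nm0 M d k p e) (hs : Strict M d)
    (hcl : M ×ˢ M ×ˢ M ⊆ closure (Good M M d)) {Y w0 F : ℂ} (hY : Y ∈ M) (hF : F ∈ M)
    (h0 : cr w0 (F - Y) ≠ 0) : ∃ C, WS M M d Y w0 F C := by
  have H := N.pm
  have G := N.pm
  have ho := H.isOpen
  have hc := H.convex
  have s1 : M ⊆ M := subset_rfl
  have s2 : M ⊆ M := subset_rfl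
  obtain ⟨ε, e1, e2⟩ := ((G.eventually_mem hY (small_r Y w0)).and self_mem_nhdsWithin).exists
  have hε : 0 < ε := e2
  obtain ⟨w, hw⟩ : ∃ w, w = ε • w0 := ⟨_, rfl⟩
  have h : cr w (F - Y) ≠ 0 := by rw [hw, cr_smul_l]; exact mul_ne_zero hε.ne' h0
  have hw0 : w ≠ 0 := by rintro rfl; simp at h
  suffices ∃ C, WS M M d Y w F C by
    obtain ⟨C, hC⟩ := this
    have e : ∀ X, ff M d Y w F X = ff M d Y w0 F X := fun X => by rw [ff, ff, hw, dl_smul _ _ _ _ _ hε.ne']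
    exact ⟨C, hC.foc, fun X hX a => hC.le X hX (e X ▸ a), fun X hX a => hC.ge X hX (e X ▸ a)⟩
  rw [← hw] at e1
  have hmem : (Y, Y + w, F) ∈ closure (Good M M d) := hcl ⟨s1 hY, s1 e1, s1 hF⟩
  have := mem_closure_iff_nhdsWithin_neBot.1 hmem
  obtain ⟨V, hV⟩ : ∃ V : Ultrafilter (ℂ × ℂ × ℂ), (V : Filter _) ≤ 𝓝[Good M M d] (Y, Y + w, F) :=
    ⟨Ultrafilter.of _, Ultrafilter.of_le _⟩
  have T0 : Tendsto id (V : Filter _) (𝓝 (Y, Y + w, F)) := hV.trans nhdsWithin_le_nhds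
  have TY : Tendsto (fun t : ℂ × ℂ × ℂ => t.1) V (𝓝 Y) := (continuous_fst.tendsto _).comp T0
  have TF : Tendsto (fun t : ℂ × ℂ × ℂ => t.2.2) V (𝓝 F) :=
    ((continuous_snd.comp continuous_snd).tendsto _).comp T0
  have Tw : Tendsto (fun t : ℂ × ℂ × ℂ => t.2.1 - t.1) V (𝓝 w) := by
    have := (((continuous_fst.comp continuous_snd).tendsto _).comp T0).sub TY
    simpa using this
  have hex : ∀ t : ℂ × ℂ × ℂ, ∃ C : Con, t ∈ Good M M d → t.1 ∈ M → t.2.2 ∈ M →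
      cr (t.2.1 - t.1) (t.2.2 - t.1) ≠ 0 → WS M M d t.1 (t.2.1 - t.1) t.2.2 C := by
    intro t
    by_cases ht : t ∈ Good M M d ∧ t.1 ∈ M ∧ t.2.2 ∈ M ∧ cr (t.2.1 - t.1) (t.2.2 - t.1) ≠ 0
    · obtain ⟨⟨C, hC⟩, a1, a2, a3⟩ := ht
      obtain ⟨C', hC'⟩ := H.ws_of_eq s2 ho hc (s2 a1) a2 a3 fun X hX => hC X (s1 hX)
      exact ⟨C', fun _ _ _ _ => hC'⟩
    · exact ⟨Classical.arbitrary _, fun a b c e => absurd ⟨a, b, c, e⟩ ht⟩
  choose C hC using hex
  have ev : ∀ᶠ t in (V : Filter (ℂ × ℂ × ℂ)), t.1 ∈ M ∧ t.2.2 ∈ M ∧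
      cr (t.2.1 - t.1) (t.2.2 - t.1) ≠ 0 ∧ WS M M d t.1 (t.2.1 - t.1) t.2.2 (C t) := by
    filter_upwards [hV self_mem_nhdsWithin, G.eventually_mem hY TY, G.eventually_mem hF TF,
      (tendsto_cr Tw (TF.sub TY)).eventually_ne h] with t a0 a1 a2 a3
    exact ⟨a1, a2, a3, hC t a0 a1 a2 a3⟩
  have Tlt : ∀ X ∈ M, ff M d Y w F X < 0 → ∀ᶠ t in (V : Filter (ℂ × ℂ × ℂ)),
      ff M d t.1 (t.2.1 - t.1) t.2.2 X < 0 := by
    intro X hX hn
    obtain ⟨b, b1, b2⟩ := exists_between (sub_neg.1 hn)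
    have hcX : cr w (X - Y) ≠ 0 := by
      intro e
      obtain ⟨r, hr⟩ := exists_smul_of_cr hw0 e
      have e1 : Y + r • w = X := by rw [← hr]; abel
      have := H.ff_line hF h (s := r) (e1 ▸ hX)
      rw [e1] at this
      linarith
    filter_upwards [N.dl_lsc V hX hY hcX TY Tw b2,
      (H.tendsto hX hF tendsto_const_nhds TF).eventually (gt_mem_nhds b1)] with t a1 a2
    exact sub_neg.2 (a2.trans_le a1)
  have Tgt : ∀ X ∈ M, 0 < ff M d Y w F X → ∀ᶠ t in (V : Filter (ℂ × ℂ × ℂ)),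
      0 < ff M d t.1 (t.2.1 - t.1) t.2.2 X := by
    intro X hX hn
    obtain ⟨b, b1, b2⟩ := exists_between (sub_pos.1 hn)
    filter_upwards [H.dl_usc hX hY TY Tw b1,
      (H.tendsto hX hF tendsto_const_nhds TF).eventually (lt_mem_nhds b2)] with t a1 a2
    exact sub_pos.2 (a1.trans a2)
  have cont : ∀ {Y' w' F' X : ℂ}, Y' ∈ M → F' ∈ M → X ∈ M → ContinuousAt (ff M d Y' w' F') X :=
    fun a b c => (H.ff_continuousOn (s2 a) (s2 b)).continuousAt (H.isOpen.mem_nhds (s2 c))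
  have posY : ∀ {Y' w' F' : ℂ}, Y' ∈ M → F' ∈ M → cr w' (F' - Y') ≠ 0 →
      ∀ᶠ Z in 𝓝 Y', Z ∈ M ∧ 0 < ff M d Y' w' F' Z := by
    intro Y' w' F' a b c
    have := H.ff_line (s2 b) c (s := 0) (by simpa using s2 a)
    rw [zero_smul, add_zero] at this
    exact (ho.eventually_mem a).and ((cont a b a).tendsto.eventually (lt_mem_nhds this))
  obtain ⟨Q, q0, hQ⟩ := con_limit V C F (fun _ => 1) (by
    filter_upwards [ev, Tlt F hF (H.ff_focus hY hF h)]
      with t ⟨a1, a2, a3, a4⟩ a5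
    refine (Con.neg_of_sep (Y := t.1) (Con.nz_of_ne a4.foc.ne) ?_ ?_).ne
    · filter_upwards [ho.eventually_mem hF, (cont a1 a2 hF).tendsto.eventually (gt_mem_nhds a5)]
        with Z b1 b2
      exact a4.le Z b1 b2.le
    · exact (posY a1 a2 a3).mono fun Z b => a4.ge Z b.1 b.2.le)
  simp only [one_smul] at hQ
  obtain ⟨Q', hQ'⟩ : ∃ Q' : Con, ∀ X, Q'.q X = Q.q (X - F) := by
    refine ⟨⟨Q.A, Q.grad (-F), Q.q (-F)⟩, fun X => ?_⟩
    rw [show X - F = -F + X by abel, Q.q_add]; simp only [Con.q]; ring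
  have q0' : ¬ ((∀ v, Q'.A.ev v = 0) ∧ Q'.l = 0 ∧ Q'.k = 0) := by
    rintro ⟨h1, h2, h3⟩
    have all : ∀ W, Q.q W = 0 := fun W => by
      have := hQ' (W + F)
      rw [add_sub_cancel_right] at this
      rw [← this]; simp [Con.q, h1, h2, h3]
    have := Con.neg_of_sep q0 (X := 0) (Y := 0) (Eventually.of_forall fun Z => (all Z).le)
      (Eventually.of_forall fun Z => (all Z).ge)
    exact this.ne (all 0)
  have lt : ∀ X ∈ M, ff M d Y w F X < 0 → Q'.q X ≤ 0 := by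
    intro X hX hn
    rw [hQ']
    apply (hQ _ (fun _ => X - F) tendsto_const_nhds).1
    filter_upwards [ev, Tlt X hX hn] with t a b
    rw [add_sub_cancel]; exact a.2.2.2.le X hX b.le
  have gt : ∀ X ∈ M, 0 < ff M d Y w F X → 0 ≤ Q'.q X := by
    intro X hX hn
    rw [hQ']
    apply (hQ _ (fun _ => X - F) tendsto_const_nhds).2
    filter_upwards [ev, Tgt X hX hn] with t a b
    rw [add_sub_cancel]; exact a.2.2.2.ge X hX b.le
  refine ⟨Q', Con.neg_of_sep (Y := Y) q0' ?_ ((posY hY hF h).mono fun Z b => gt Z b.1 b.2),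
    fun X hX h1 => ?_, fun X hX h1 => ?_⟩
  · filter_upwards [ho.eventually_mem hF, (cont hY hF hF).tendsto.eventually
      (gt_mem_nhds (H.ff_focus (s2 hY) (s2 hF) h))] with Z b1 b2
    exact lt Z b1 b2
  · rcases h1.eq_or_lt with h2 | h2
    · refine le_of_tendsto ((Q'.continuous_q.tendsto X).comp (small_r X (F - X))) ?_
      filter_upwards [Ioo_mem_nhdsGT (zero_lt_one' ℝ)] with t ht
      have e : X + t • (F - X) = F + (1 - t) • (X - F) := by module
      have m1 : F + (1 : ℝ) • (X - F) ∈ M := by simpa using hX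
      have m2 := G.ray_mem hF m1 (s := 1 - t) (by linarith [ht.2]) (by linarith [ht.1])
      simp only [Function.comp_apply, e]
      refine lt _ m2 (lt_of_le_of_ne ?_ fun e0 => ?_)
      · have := H.ff_mono (w := w) (s2 hY) (s2 hF) (s2 m1) (s := 1 - t) (by linarith [ht.2])
          (by linarith [ht.1])
        rwa [one_smul, add_sub_cancel, h2] at this
      · have := H.crossing' hs (s2 hY) (s2 hF) h (s2 m1) (s := 1 - t) (by linarith [ht.2])
          (by linarith [ht.1]) e0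
        rw [one_smul, add_sub_cancel, h2] at this
        exact lt_irrefl _ this
    · exact lt X hX h2
  · rcases h1.eq_or_lt with h2 | h2
    · refine ge_of_tendsto ((Q'.continuous_q.tendsto X).comp (small_r X (X - F))) ?_
      filter_upwards [G.eventually_mem hX (small_r X (X - F)), self_mem_nhdsWithin] with t m2 ht
      have ht0 : 0 < t := ht
      have e : X + t • (X - F) = F + (1 + t) • (X - F) := by module
      have e1 : F + (1 : ℝ) • (X - F) = X := by simp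
      simp only [Function.comp_apply]
      refine gt _ m2 ?_
      rw [e] at m2 ⊢
      exact H.crossing' hs (s2 hY) (s2 hF) h (s2 m2) zero_le_one (by linarith)
        (by rw [e1]; exact h2.symm)
    · exact gt X hX h2

/-- A conic that contains two points and their midpoint contains the whole chord. -/
def Chord (M : Set ℂ) (d : ℂ → ℂ → ℝ) : Prop :=
  ∀ Y ∈ M, ∀ w F : ℂ, F ∈ M → cr w (F - Y) ≠ 0 → ∀ P ∈ M, ∀ Q ∈ M,
    d P F = dl M d Y w P → d Q F = dl M d Y w Q →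
    d (P + (1 / 2 : ℝ) • (Q - P)) F = dl M d Y w (P + (1 / 2 : ℝ) • (Q - P)) →
    ∀ s : ℝ, P + s • (Q - P) ∈ M → d (P + s • (Q - P)) F ≤ dl M d Y w (P + s • (Q - P))

theorem Nm0.chord {M : Set ℂ} {d : ℂ → ℂ → ℝ} {k e : ℝ} {p : ℂ} (N : Nm0 M d k p e) (hs : Strict M d)
    (hcl : M ×ˢ M ×ˢ M ⊆ closure (Good M M d)) : Chord M d := by
  intro Y hY w F hF hc P hP Q hQ h1 h2 h3 s hm
  obtain ⟨C, S⟩ := N.ws hs hcl hY hF hc
  have z : ∀ X ∈ M, d X F = dl M d Y w X → C.q X = 0 := fun X hX e =>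
    le_antisymm (S.le X hX (sub_nonpos.2 e.le)) (S.ge X hX (sub_nonneg.2 e.ge))
  have a1 := z P hP h1
  have a2 := z Q hQ h2
  have a3 := z _ (N.pm.seg_mem hP hQ (by norm_num) (by norm_num)) h3
  rw [show Q = P + (1 : ℝ) • (Q - P) by simp, C.q_ray, a1] at a2
  rw [C.q_ray, a1] at a3
  have a4 : C.q (P + s • (Q - P)) = 0 := by
    rw [C.q_ray, a1, show C.A.ev (Q - P) = 0 by linarith, show dot (C.grad P) (Q - P) = 0 by linarith]
    ring
  by_contra hn
  have cf : ContinuousAt (ff M d Y w F) (P + s • (Q - P)) :=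
    (N.pm.ff_continuousOn hY hF).continuousAt (N.pm.isOpen.mem_nhds hm)
  have := Con.neg_of_sep (C := C.neg) (X := P + s • (Q - P)) (Y := F)
    (Con.nz_of_ne (X := F) (by rw [C.neg_q]; linarith [S.foc])) (by
      filter_upwards [N.pm.isOpen.eventually_mem hm,
        cf.tendsto.eventually (lt_mem_nhds (sub_pos.2 (not_le.1 hn)))] with Z b1 b2
      rw [C.neg_q]; linarith [S.ge Z b1 b2.le]) (by
      filter_upwards [(C.continuous_q.tendsto F).eventually (gt_mem_nhds S.foc)] with Z b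
      rw [C.neg_q]; linarith)
  rw [C.neg_q, a4] at this
  simp at this

namespace Nm0
variable {M : Set ℂ} {d : ℂ → ℂ → ℝ} {k e : ℝ} {p : ℂ} (N : Nm0 M d k p e) (hch : Chord M d)
include N hch

lemma no_bdry {Ψ : ℝ → ℝ} (hΨ : Prim e Ψ) {E : ℂ} (hr : 0 < dot E E) (hB : 0 < 1 + e * dot E E)
    (inM : ∀ a b : ℝ, a ^ 2 + b ^ 2 < 1 →
      ∃ α : ℝ, 0 < α ∧ α * (1 - (a * cr p E + b * dot p E)) = 1 ∧ pt E (α * a) (α * b) ∈ M)
    (notE : ∀ α : ℝ, α * (1 - cr p E) = 1 → 0 < α → pt E α 0 ∈ M → False) : False := by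
  have H := N.pm
  obtain ⟨ρ, hρ⟩ : ∃ ρ, ρ = e * dot E E := ⟨_, rfl⟩
  obtain ⟨B, hBd⟩ : ∃ B, B = 1 + ρ := ⟨_, rfl⟩
  obtain ⟨A0, hA⟩ : ∃ A0, A0 = 1 - cr p E := ⟨_, rfl⟩
  obtain ⟨G0, hG⟩ : ∃ G0, G0 = dot p E - B * cr p E := ⟨_, rfl⟩
  rw [← hρ, ← hBd] at hB
  have hA0 : 0 ≤ A0 := by
    by_contra hc
    have h1 : 1 < cr p E := by linarith
    obtain ⟨α, a1, a2, -⟩ := inM (cr p E)⁻¹ 0 (by
      have : (cr p E)⁻¹ < 1 := inv_lt_one_of_one_lt₀ h1
      have : 0 < (cr p E)⁻¹ := by positivity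
      nlinarith)
    rw [inv_mul_cancel₀ (by linarith)] at a2
    simp at a2
  have lll : ∀ α γ : ℝ, α * A0 - γ * G0 = 1 → ll p (pt E (α - B * γ) γ) = α := by
    intro α γ h
    rw [ll, cr_pt']; rw [hA, hG] at h; linarith
  have disc : ∀ σ : ℝ, 0 < σ → σ ≤ B / (1 + B ^ 2) →
      ∃ α : ℝ, 0 < α ∧ α * A0 - α * σ * G0 = 1 ∧ pt E (α - B * (α * σ)) (α * σ) ∈ M := by
    intro σ h0 h1
    rw [le_div_iff₀ (by positivity)] at h1
    obtain ⟨α, a1, a2, a3⟩ := inM (1 - σ * B) σ (by nlinarith [mul_pos h0 hB])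
    refine ⟨α, a1, by rw [hA, hG]; linarith, ?_⟩
    rwa [show α - B * (α * σ) = α * (1 - σ * B) by ring]
  obtain ⟨α0, a0, c0, m0⟩ := disc (B / (1 + B ^ 2)) (by positivity) le_rfl
  have g0 : 0 < α0 * (B / (1 + B ^ 2)) := by positivity
  generalize α0 * (B / (1 + B ^ 2)) = γ0 at *
  obtain ⟨Y, hY⟩ : ∃ Y, Y = pt E (α0 - B * γ0) γ0 := ⟨_, rfl⟩
  obtain ⟨w, hw⟩ : ∃ w, w = pt E (G0 - A0 * B) A0 := ⟨_, rfl⟩
  have line : ∀ s : ℝ, Y + s • w = pt E (α0 + s * G0 - B * (γ0 + s * A0)) (γ0 + s * A0) := by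
    intro s; rw [hY, hw, pt_lin]; congr 1; ring
  have crw : ∀ a b : ℝ, cr w (pt E a b - Y) = dot E E * (1 - ((a + B * b) * A0 - b * G0)) := by
    intro a b; rw [hY, hw, pt_sub, cr_pt, ← c0]; ring
  have hw0 : w ≠ 0 := by
    intro h
    have := crw 0 0
    rw [h] at this; simp at this; linarith
  rw [← hY] at m0
  have gpos : ∀ s : ℝ, Y + s • w ∈ M → 0 < γ0 + s * A0 := by
    intro s hs
    rcases hA0.eq_or_lt with h | h
    · rw [← h]; linarith
    by_contra hc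
    have h1 : s ≤ -γ0 / A0 := by rw [le_div_iff₀ h]; linarith
    have h2 : -γ0 / A0 * A0 = -γ0 := div_mul_cancel₀ _ h.ne'
    have := H.line_mem (x := Y) (v := w) (r := s) (s := -γ0 / A0) (t := 0) hs (by simpa using m0) h1
      (div_nonpos_of_nonpos_of_nonneg (by linarith) h.le)
    rw [line, h2, add_neg_cancel, mul_zero, sub_zero] at this
    have h3 : (α0 + -γ0 / A0 * G0) * A0 = 1 := by linear_combination c0 + G0 * h2
    refine notE _ (hA ▸ h3) ?_ this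
    exact (pos_iff_pos_of_mul_pos (by rw [h3]; exact one_pos)).2 h
  -- the focus
  have r1 : 0 < 1 + ρ * (9 / 10) := by rcases le_total 0 ρ with h | h <;> nlinarith
  have r2 : 0 < 1 + ρ * (81 / 100) := by rcases le_total 0 ρ with h | h <;> nlinarith
  have r3 : 0 < 1 + ρ * (99 / 100) := by rcases le_total 0 ρ with h | h <;> nlinarith
  obtain ⟨θ, hθ⟩ : ∃ θ, θ = (4 / 5 + ρ * (81 / 100)) / (1 + ρ * (99 / 100)) := ⟨_, rfl⟩
  have θ0 : θ * (1 + ρ * (99 / 100)) = 4 / 5 + ρ * (81 / 100) := by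
    rw [hθ, div_mul_cancel₀ _ r3.ne']
  have θ1 : θ < 1 := by rw [hθ, div_lt_one r3]; linarith
  have θ2 : -1 < θ := by rw [hθ, lt_div_iff₀ r3]; linarith
  obtain ⟨β, b0, b1, mF⟩ := inM θ 0 (by nlinarith)
  have hcF : cr w (pt E (β * θ) (β * 0) - Y) ≠ 0 := by
    have : 1 - ((β * θ + B * (β * 0)) * A0 - β * 0 * G0) = β * (1 - θ) := by
      rw [hA]; linear_combination -b1
    rw [crw, this]
    exact mul_ne_zero hr.ne' (mul_ne_zero b0.ne' (by linarith))
  have lF : ll p (pt E (β * θ) (β * 0)) = β * 1 := by rw [ll, cr_pt']; linarith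
  have key : ∀ t s : ℝ, 0 < t → t / 10 < s → pt E (9 / 10 * t) (-s) ∈ M →
      ll p (pt E (9 / 10 * t) (-s)) = t →
      d (pt E (9 / 10 * t) (-s)) (pt E (β * θ) (β * 0)) = dl M d Y w (pt E (9 / 10 * t) (-s)) := by
    intro t s ht hs hX lX
    have s0 : 0 < s := by linarith
    have hD := N.pos _ hX
    rw [lX] at hD
    have bE : 0 < be e (pt E (9 / 10 * t) (-s)) t (pt E 1 0) 1 := by
      rw [be_pt, ← hρ]; nlinarith [mul_pos ht r1]
    have hE : 0 < Hh e (pt E (9 / 10 * t) (-s)) t (pt E 1 0) 1 := by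
      rw [Hh, Pb_pt, ← hρ]
      refine mul_pos hr ?_
      nlinarith [mul_pos hB (mul_pos s0 s0), sq_nonneg t]
    have cE : cc e (pt E (9 / 10 * t) (-s)) t (pt E 1 0) 1 ∈ II e :=
      cc_mem hD (by rw [be_pt, ← hρ]; linarith) hE (Or.inr bE)
    have neq : ∀ a b : ℝ, 0 ≤ b → pt E (9 / 10 * t) (-s) ≠ pt E a b := by
      intro a b hb h
      have := congrArg (cr (pt E 1 0)) h
      rw [cr_pt, cr_pt] at this
      have := mul_left_cancel₀ hr.ne' this
      linarith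
    have dF : d (pt E (9 / 10 * t) (-s)) (pt E (β * θ) (β * 0))
        = k * Ψ (cc e (pt E (9 / 10 * t) (-s)) t (pt E 1 0) 1) := by
      rw [N.dist_eq hΨ hX mF (neq _ _ (by simp)), lX, lF, ← pt_smul, cc_smul b0, ← cc_smul r3, pt_smul,
        mul_comm _ θ, θ0, cc_of r2]
      · rw [be_pt, be_pt, ← hρ]; ring
      · rw [Hh, Hh, Pb_pt, Pb_pt, ← hρ]; ring
    rw [dF]
    apply le_antisymm
    · refine PM0.le_dl m0 fun s' hs' => ?_
      have g := gpos s' hs'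
      rw [line] at hs' ⊢
      have l1 := lll (α0 + s' * G0) (γ0 + s' * A0) (by linear_combination c0)
      have ne := neq (α0 + s' * G0 - B * (γ0 + s' * A0)) _ g.le
      have i1 := N.mem_II hX hs' ne
      have i2 := N.Hh_pos hX ne
      rw [N.dist_eq hΨ hX hs' ne]
      rw [lX, l1] at i1 i2 ⊢
      refine mul_le_mul_of_nonneg_left (hΨ.anti i1 cE (cc_le hD hE i2 bE ?_)) N.kpos.le
      rw [Pb_pt, ← hρ]
      generalize γ0 + s' * A0 = γ at *
      refine mul_nonpos_of_nonneg_of_nonpos hr.le ?_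
      have := mul_pos (mul_pos g hB) (sub_pos.2 hs)
      rw [hBd] at this ⊢
      nlinarith
    · have T : Tendsto (fun σ : ℝ => cc e (pt E (9 / 10 * t) (-s)) t (pt E (1 - σ * B) σ) 1) (𝓝[>] 0)
          (𝓝 (cc e (pt E (9 / 10 * t) (-s)) t (pt E 1 0) 1)) := by
        have c1 : Continuous fun σ : ℝ => be e (pt E (9 / 10 * t) (-s)) t (pt E (1 - σ * B) σ) 1 := by
          simp only [be_pt]; fun_prop
        have c2 : Continuous fun σ : ℝ => √(Hh e (pt E (9 / 10 * t) (-s)) t (pt E (1 - σ * B) σ) 1) := by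
          simp only [Hh, Pb_pt]; fun_prop
        have := (c1.tendsto 0).div (c2.tendsto 0) (by simpa using (Real.sqrt_pos.2 hE).ne')
        simp only [zero_mul, sub_zero] at this
        exact this.mono_left nhdsWithin_le_nhds
      refine ge_of_tendsto (((hΨ.der _ cE).continuousAt.tendsto.comp T).const_mul k) ?_
      filter_upwards [Ioo_mem_nhdsGT (show 0 < B / (1 + B ^ 2) by positivity)] with σ hσ
      obtain ⟨α, a1, a2, a3⟩ := disc σ hσ.1 hσ.2.le
      obtain ⟨s', hs'⟩ := exists_smul_of_cr hw0 (v := pt E (α - B * (α * σ)) (α * σ) - Y) (by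
        rw [crw, ← a2]; ring)
      have e1 : Y + s' • w = pt E (α - B * (α * σ)) (α * σ) := by rw [← hs']; abel
      have := H.dl_le (Y := Y) (w := w) hX (s := s') (e1 ▸ a3)
      rw [e1, N.dist_eq hΨ hX a3 (neq _ _ (mul_pos a1 hσ.1).le), lX, lll _ _ a2,
        show α - B * (α * σ) = α * (1 - σ * B) by ring, ← pt_smul] at this
      have e2 := cc_smul (e := e) (x := pt E (9 / 10 * t) (-s)) (t := t) (y := pt E (1 - σ * B) σ)
        (s := 1) a1
      rw [mul_one] at e2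
      rwa [e2] at this
  obtain ⟨t1, p1, q1, m1⟩ := inM (9 / 10) (-(1 / 5)) (by norm_num)
  obtain ⟨t2, p2, q2, m2⟩ := inM (9 / 10) (-(3 / 10)) (by norm_num)
  rw [mul_comm t1, mul_neg] at m1
  rw [mul_comm t2, mul_neg] at m2
  have l1 : ll p (pt E (9 / 10 * t1) (-(t1 * (1 / 5)))) = t1 := by rw [ll, cr_pt']; linarith
  have l2 : ll p (pt E (9 / 10 * t2) (-(t2 * (3 / 10)))) = t2 := by rw [ll, cr_pt']; linarith
  have mid : pt E (9 / 10 * t1) (-(t1 * (1 / 5))) + (1 / 2 : ℝ) • (pt E (9 / 10 * t2) (-(t2 * (3 / 10)))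
      - pt E (9 / 10 * t1) (-(t1 * (1 / 5))))
      = pt E (9 / 10 * ((t1 + t2) / 2)) (-(t1 / 10 + 3 * t2 / 20)) := by
    rw [pt_sub, pt_lin]; congr 1 <;> ring
  have m3 := H.seg_mem m1 m2 (t := 1 / 2) (by norm_num) (by norm_num)
  have k3 := key _ _ (by linarith) (by linarith) (mid ▸ m3) (by rw [ll, cr_pt']; linarith)
  rw [← mid] at k3
  obtain ⟨t, ht, q3, hX⟩ := inM (9 / 10) 0 (by norm_num)
  rw [mul_comm t, mul_zero, ← neg_zero] at hX
  have lX : ll p (pt E (9 / 10 * t) (-0)) = t := by rw [ll, cr_pt']; linarith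
  have hPQ : pt E (9 / 10 * t2) (-(t2 * (3 / 10))) - pt E (9 / 10 * t1) (-(t1 * (1 / 5))) ≠ 0 := by
    intro h
    have h := (sub_eq_zero.1 h).symm
    have h1 : t1 = t2 := by rw [← l1, ← l2, h]
    have := congrArg (cr (pt E 1 0)) h
    rw [cr_pt, cr_pt] at this
    have := mul_left_cancel₀ hr.ne' this
    linarith
  obtain ⟨s, hs⟩ := exists_smul_of_cr hPQ (v := pt E (9 / 10 * t) (-0)
      - pt E (9 / 10 * t1) (-(t1 * (1 / 5)))) (by
    rw [pt_sub, pt_sub, cr_pt]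
    refine mul_eq_zero_of_right _ ?_
    linear_combination (9 / 10 * t * (t1 * (1 / 5))) * (q2 - q1)
      - (9 / 10 * t * (t1 * (1 / 5) - t2 * (3 / 10))) * (q3 - q1)
      - (9 / 10 * (t2 - t1) * (t1 * (1 / 5)) - (t1 * (1 / 5) - t2 * (3 / 10)) * (9 / 10 * (t - t1))) * q3)
  have eX : pt E (9 / 10 * t1) (-(t1 * (1 / 5))) + s • (pt E (9 / 10 * t2) (-(t2 * (3 / 10)))
      - pt E (9 / 10 * t1) (-(t1 * (1 / 5)))) = pt E (9 / 10 * t) (-0) := by rw [← hs]; abel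
  have fin := hch Y m0 w _ mF hcF _ m1 _ m2 (key t1 _ p1 (by linarith) m1 l1)
    (key t2 _ p2 (by linarith) m2 l2) k3 s (eX ▸ hX)
  rw [eX] at fin
  have hD := N.pos _ hX
  rw [lX] at hD
  have bE : 0 < be e (pt E (9 / 10 * t) (-0)) t (pt E 1 0) 1 := by
    rw [be_pt, ← hρ]; nlinarith [mul_pos ht r1]
  have vE : Hh e (pt E (9 / 10 * t) (-0)) t (pt E 1 0) 1 = dot E E * (t ^ 2 / 100) := by
    rw [Hh, Pb_pt]; ring
  have hE : 0 < Hh e (pt E (9 / 10 * t) (-0)) t (pt E 1 0) 1 := by rw [vE]; positivity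
  have cE : cc e (pt E (9 / 10 * t) (-0)) t (pt E 1 0) 1 ∈ II e :=
    cc_mem hD (by rw [be_pt, ← hρ]; linarith) hE (Or.inr bE)
  have neF : pt E (9 / 10 * t) (-0) ≠ pt E (β * θ) (β * 0) := by
    intro h
    have h1 : t = β * 1 := by rw [← lX, h, lF]
    have := congrArg (dot (pt E 1 0)) h
    rw [dot_pt, dot_pt] at this
    have h2 := mul_left_cancel₀ hr.ne' this
    have h3 : θ = 9 / 10 := mul_left_cancel₀ b0.ne' (by linarith)
    rw [h3] at θ0
    linarith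
  have dF : d (pt E (9 / 10 * t) (-0)) (pt E (β * θ) (β * 0))
      = k * Ψ (cc e (pt E (9 / 10 * t) (-0)) t (pt E 1 0) 1) := by
    rw [N.dist_eq hΨ hX mF neF, lX, lF, ← pt_smul, cc_smul b0, ← cc_smul r3, pt_smul,
      mul_comm _ θ, θ0, cc_of r2]
    · rw [be_pt, be_pt, ← hρ]; ring
    · rw [Hh, Hh, Pb_pt, Pb_pt, ← hρ]; ring
  have T0 : Tendsto (fun σ : ℝ => σ) (𝓝[>] 0) (𝓝 0) := tendsto_id.mono_left nhdsWithin_le_nhds
  have T1 := (T0.mul_const (ρ * (B ^ 2 + 1) / 100 - B * (B ^ 2 + 1 + ρ * (81 / 100)))).const_add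
    (B * (1 + ρ * (9 / 10)) / 5)
  have T2 := (T0.mul_const (ρ * (9 / 10) * B)).const_sub (1 + ρ * (9 / 10))
  rw [zero_mul, add_zero] at T1
  rw [zero_mul, sub_zero] at T2
  obtain ⟨σ, ⟨c1, c2⟩, hσ⟩ := (((T1.eventually (lt_mem_nhds (by positivity))).and
    (T2.eventually (lt_mem_nhds r1))).and
      (Ioo_mem_nhdsGT (show 0 < B / (1 + B ^ 2) by positivity))).exists
  obtain ⟨α, a1, a2, a3⟩ := disc σ hσ.1 hσ.2.le
  obtain ⟨s', hs'⟩ := exists_smul_of_cr hw0 (v := pt E (α - B * (α * σ)) (α * σ) - Y) (by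
    rw [crw, ← a2]; ring)
  have e1 : Y + s' • w = pt E (α - B * (α * σ)) (α * σ) := by rw [← hs']; abel
  have neZ : pt E (9 / 10 * t) (-0) ≠ pt E (α - B * (α * σ)) (α * σ) := by
    intro h
    have := congrArg (cr (pt E 1 0)) h
    rw [cr_pt, cr_pt] at this
    have := mul_left_cancel₀ hr.ne' this
    linarith [mul_pos a1 hσ.1]
  have le := H.dl_le (Y := Y) (w := w) hX (s := s') (e1 ▸ a3)
  have i1 := N.mem_II hX a3 neZ
  have e2 := cc_smul (e := e) (x := pt E (9 / 10 * t) (-0)) (t := t) (y := pt E (1 - σ * B) σ)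
    (s := 1) a1
  rw [mul_one] at e2
  rw [e1, N.dist_eq hΨ hX a3 neZ] at le
  rw [lX, lll _ _ a2, show α - B * (α * σ) = α * (1 - σ * B) by ring, ← pt_smul, e2] at le i1
  have vZ : Hh e (pt E (9 / 10 * t) (-0)) t (pt E (1 - σ * B) σ) 1
      = dot E E * (t ^ 2 * ((1 / 10 - σ * B) ^ 2 + σ ^ 2 * (1 + ρ * (81 / 100)))) := by
    rw [Hh, Pb_pt, ← hρ]; ring
  have σ0 := hσ.1
  have hZ : 0 < Hh e (pt E (9 / 10 * t) (-0)) t (pt E (1 - σ * B) σ) 1 := by rw [vZ]; positivity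
  have lt : cc e (pt E (9 / 10 * t) (-0)) t (pt E 1 0) 1
      < cc e (pt E (9 / 10 * t) (-0)) t (pt E (1 - σ * B) σ) 1 := by
    refine lt_of_pow_lt_pow_left₀ 2 (div_nonneg ?_ (Real.sqrt_nonneg _)) ?_
    · rw [be_pt, ← hρ]; nlinarith [mul_pos ht c2]
    rw [← add_lt_add_iff_right e, cc_sq hE, cc_sq hZ, div_lt_div_iff₀ hE hZ, mul_assoc, mul_assoc,
      mul_lt_mul_iff_right₀ hD, vE, vZ, be_pt, be_pt, ← hρ]
    have := mul_pos (mul_pos hr (pow_pos ht 2)) (mul_pos σ0 c1)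
    rw [hBd] at this ⊢
    linarith
  have := mul_lt_mul_of_pos_left (hΨ.strict cE i1 lt) N.kpos
  linarith

/-- The chart of the domain contains the whole model. -/
lemma full {Ψ : ℝ → ℝ} (hΨ : Prim e Ψ) {E0 : ℂ} (h0 : 0 < 1 + e * dot E0 E0) : E0 ∈ Mp M p := by
  by_contra hE0
  obtain ⟨E, ⟨hE, hE'⟩, hmin⟩ := ((isCompact_closedBall (0 : ℂ) ‖E0‖).inter_left
    (isOpen_Mp N.pm.isOpen p).isClosed_compl).exists_isMinOn (f := fun Z => ‖Z‖)
    ⟨E0, hE0, by simp⟩ (by fun_prop)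
  rw [mem_closedBall_zero_iff] at hE'
  have inM : ∀ Z : ℂ, ‖Z‖ < ‖E‖ → Z ∈ Mp M p := by
    intro Z hZ
    by_contra hZM
    have : ‖E‖ ≤ ‖Z‖ := hmin ⟨hZM, by rw [mem_closedBall_zero_iff]; linarith⟩
    linarith
  have hE0' : E ≠ 0 := by
    rintro rfl
    exact hE ⟨by simp, by simpa using N.zero⟩
  have hr : 0 < dot E E := by rw [dot_self]; exact pow_pos (norm_pos_iff.2 hE0') 2
  refine N.no_bdry hch hΨ hr ?_ (fun a b hab => ?_) fun α h1 h2 h3 => hE ?_
  · rw [dot_self] at h0 ⊢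
    have := pow_le_pow_left₀ (norm_nonneg _) hE' 2
    rcases le_total 0 e with h | h
    · positivity
    · nlinarith
  · obtain ⟨h1, h2⟩ := inM (pt E a b) (by
      refine lt_of_pow_lt_pow_left₀ 2 (norm_nonneg _) ?_
      rw [← dot_self, ← dot_self, dot_pt]; nlinarith)
    rw [pt_smul] at h2
    rw [cr_pt'] at h1 h2
    exact ⟨_, inv_pos.2 h1, inv_mul_cancel₀ h1.ne', h2⟩
  · have h4 : 0 < 1 - cr p E := (pos_iff_pos_of_mul_pos (by rw [h1]; exact one_pos)).1 h2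
    refine ⟨h4, ?_⟩
    rw [← eq_inv_of_mul_eq_one_left h1]
    have := pt_smul E 1 0 α
    rw [pt_one, mul_one, mul_zero] at this
    rwa [this]

omit N in
lemma euc (N : Nm0 M d k p 0) : IsEuc M d := by
  refine ⟨k⁻¹, inv_pos.2 N.kpos, fun X => (ll p X)⁻¹ • X, ⟨fun _ _ => trivial,
    fun X hX Y hY h => chart_inj (N.ll_pos le_rfl hX) (N.ll_pos le_rfl hY) h,
    fun y _ => chart_surj (N.full hch prim_zero (by simp))⟩, fun X hX Y hY => ?_⟩
  by_cases hne : X = Y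
  · simp [hne, N.pm.refl Y hY]
  have a := N.ll_pos le_rfl hX
  have b := N.ll_pos le_rfl hY
  rw [N.dist_eq prim_zero hX hY hne, inv_mul_cancel_left₀ N.kpos.ne']
  simp only [cc, be, Hh, Pb, zero_mul, add_zero, dot_self, inv_div]
  generalize ll p X = t at *
  generalize ll p Y = s at *
  have : t⁻¹ • X - s⁻¹ • Y = (t * s)⁻¹ • -(t • Y - s • X) := by
    rw [neg_sub, smul_sub, smul_smul, smul_smul]
    congr 2 <;> field_simp
  rw [this, norm_smul, norm_neg, Real.sqrt_sq (norm_nonneg _), Real.norm_eq_abs,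
    abs_of_pos (by positivity), div_eq_inv_mul]

lemma kl (he : e < 0) : IsKl M d := by
  have hκ : 0 < √(-e) := Real.sqrt_pos.2 (by linarith)
  have q : √(-e) ^ 2 = -e := Real.sq_sqrt (by linarith)
  have form : ∀ X ∈ M, ∀ Y ∈ M, 1 - dot (√(-e) • (ll p X)⁻¹ • X) (√(-e) • (ll p Y)⁻¹ • Y)
      = be e X (ll p X) Y (ll p Y) / (ll p X * ll p Y) := by
    intro X hX Y hY
    have a := N.ll_pos he.le hX
    have b := N.ll_pos he.le hY
    simp only [dot_smul_l, dot_smul_r, be]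
    field_simp
    rw [q]; ring
  have lt1 : ∀ X ∈ M, 0 < 1 - ‖√(-e) • (ll p X)⁻¹ • X‖ ^ 2 := by
    intro X hX
    have a := N.ll_pos he.le hX
    rw [← dot_self, form X hX X hX]
    exact div_pos (N.pos X hX) (mul_pos a a)
  refine ⟨√(-e) / k, div_pos hκ N.kpos, fun X => √(-e) • (ll p X)⁻¹ • X, ⟨fun X hX => ?_,
    fun X hX Y hY h => chart_inj (N.ll_pos he.le hX) (N.ll_pos he.le hY)
      (smul_right_injective ℂ hκ.ne' h), fun z hz => ?_⟩, fun X hX Y hY => ?_⟩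
  · rw [mem_ball_zero_iff]
    exact lt_of_pow_lt_pow_left₀ 2 zero_le_one (by linarith [lt1 X hX])
  · rw [mem_ball_zero_iff] at hz
    obtain ⟨X, hX, h⟩ := chart_surj (N.full hch (prim_neg he) (E0 := (√(-e))⁻¹ • z) (by
      have : e * dot ((√(-e))⁻¹ • z) ((√(-e))⁻¹ • z) = -‖z‖ ^ 2 := by
        rw [dot_smul_l, dot_smul_r, dot_self]
        field_simp
        rw [q]; ring
      rw [this]; nlinarith [norm_nonneg z]))
    exact ⟨X, hX, by simp only [h, smul_smul, mul_inv_cancel₀ hκ.ne', one_smul]⟩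
  by_cases hne : X = Y
  · rw [← hne, N.pm.refl X hX, mul_zero, Real.cosh_zero, Real.sqrt_mul_self (lt1 X hX).le, dot_self,
      div_self (lt1 X hX).ne']
  have a := N.ll_pos he.le hX
  have b := N.ll_pos he.le hY
  have b1 := be_pos he.le a b (N.pos X hX) (N.pos Y hY)
  have b2 := N.pos X hX
  have b3 := N.pos Y hY
  have b4 := N.Hh_pos hX (Y := Y) hne
  have c1 := cosh_prim hκ ((N.mem_II hX hY hne).resolve_left he.not_gt)
  rw [q, sub_neg_eq_add, cc_sq b4] at c1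
  rw [N.dist_eq (prim_neg he) hX hY hne, ← mul_assoc, div_mul_cancel₀ _ N.kpos.ne',
    ← sq_eq_sq₀ (Real.cosh_pos _).le (div_nonneg (by rw [form X hX Y hY]; positivity)
      (Real.sqrt_nonneg _)), c1, div_pow, Real.sq_sqrt (mul_pos (lt1 X hX) (lt1 Y hY)).le,
    ← dot_self, ← dot_self, form X hX Y hY, form X hX X hX, form Y hY Y hY, cc, div_pow,
    Real.sq_sqrt b4.le]
  field_simp

lemma centre (he : 0 < e) : p = 0 := by
  by_contra hp
  have h1 : 0 < dot p p := by rw [dot_self]; exact pow_pos (norm_pos_iff.2 hp) 2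
  have := (N.full hch (prim_pos he) (E0 := pt p 0 (dot p p)⁻¹) (by rw [dot_self]; positivity)).1
  rw [cr_pt', inv_mul_cancel₀ h1.ne'] at this
  simp at this

end Nm0

lemma PM0.trich {M : Set ℂ} {d : ℂ → ℂ → ℝ} (H : PM0 M d) (hs : Strict M d)
    (hcl : M ×ˢ M ×ˢ M ⊆ closure (Good M M d)) {Hq : ℂ → QF} (S : St2 M d Hq) {O : ℂ} (hO : O ∈ M) :
    IsEuc M d ∨ IsKl M d ∨ ∀ X ∈ M, ∀ u, cr (X - O) u ≠ 0 → (Hq O).ev u < (Hq X).ev u := by
  obtain ⟨f, h, k, p, e, h0, N, hp⟩ := S.normal H hO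
  obtain ⟨L, hL⟩ : ∃ L : ℂ → ℂ, L = fun x => O + TT f h x := ⟨_, rfl⟩
  obtain ⟨L', hL'⟩ : ∃ L' : ℂ → ℂ, L' = fun X => TT (-f / h) h⁻¹ (X - O) := ⟨_, rfl⟩
  have N' : Nm0 (L ⁻¹' M) (fun x y => d (L x) (L y)) k p e := by rw [hL]; exact N
  have LL' : ∀ X, L (L' X) = X := fun X => by simp only [hL, hL', TT_inv h0.ne']; abel
  have L'L : ∀ x, L' (L x) = x := fun x => by simp only [hL, hL', add_sub_cancel_left, TT_inv' h0.ne']
  have Lray : ∀ (x v : ℂ) (t : ℝ), L (x + t • v) = L x + t • TT f h v := fun x v t => by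
    simp only [hL, TT_add, TT_smul, add_assoc]
  have Lsub : ∀ x y, L y - L x = TT f h (y - x) := fun x y => by simp only [hL, TT_sub]; abel
  have cL' : Continuous L' := by
    rw [continuous_iff_continuousAt, hL']; intro x
    exact tendsto_TT tendsto_const_nhds tendsto_const_nhds (tendsto_id.sub_const O)
  have ch : Chord (L ⁻¹' M) fun x y => d (L x) (L y) := by
    refine N'.chord (fun x hx y hy z hz hc => hs _ hx _ hy _ hz ?_) ?_
    · rw [Lsub, Lsub, cr_TT]; exact mul_ne_zero h0.ne' hc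
    · rintro ⟨x, y, z⟩ ⟨a1, a2, a3⟩
      have := map_mem_closure (f := fun t : ℂ × ℂ × ℂ => (L' t.1, L' t.2.1, L' t.2.2)) (by fun_prop)
        (hcl (a := (L x, L y, L z)) ⟨a1, a2, a3⟩)
        (t := Good (L ⁻¹' M) (L ⁻¹' M) fun x y => d (L x) (L y)) (by
          rintro ⟨P, Q, F⟩ ⟨C, hC⟩
          refine ⟨⟨C.A.pull f h 1, ⟨(C.grad O).re, f * (C.grad O).re + h * (C.grad O).im⟩, C.q O⟩,
            fun X hX => ?_⟩
          have e1 : dl (L ⁻¹' M) (fun x y => d (L x) (L y)) (L' P) (L' Q - L' P) X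
              = dl M d P (Q - P) (L X) := by
            simp only [dl, mem_preimage, Lray, ← Lsub, LL']
          simp only [e1, LL']
          rw [hC _ hX]
          refine Eq.congr_left ?_
          rw [hL]
          simp only [C.q_add]
          rw [Con.q, Con.q, QF.pull_ev]
          simp only [dot, TT]; ring)
      simpa only [L'L] using this
  have mL' : ∀ X ∈ M, L' X ∈ L ⁻¹' M := fun X hX => by rwa [mem_preimage, LL']
  have bij : BijOn L' M (L ⁻¹' M) :=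
    ⟨mL', (Function.LeftInverse.injective LL').injOn, fun x hx => ⟨L x, hx, L'L x⟩⟩
  rcases lt_trichotomy e 0 with he | rfl | he
  · obtain ⟨c, hc, g, hg, hd⟩ := N'.kl ch he
    refine Or.inr (Or.inl ⟨c, hc, g ∘ L', hg.comp bij, fun x hx y hy => ?_⟩)
    simpa only [LL', Function.comp_apply] using hd _ (mL' x hx) _ (mL' y hy)
  · obtain ⟨c, hc, g, hg, hd⟩ := Nm0.euc ch N'
    refine Or.inl ⟨c, hc, g ∘ L', hg.comp bij, fun x hx y hy => ?_⟩
    simpa only [LL', Function.comp_apply] using hd _ (mL' x hx) _ (mL' y hy)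
  · exact Or.inr (Or.inr (hp he (N'.centre ch he)))

theorem PM0.classical_dense {M : Set ℂ} {d : ℂ → ℂ → ℝ} (H : PM0 M d) (hs : Strict M d)
    (hcl : M ×ˢ M ×ˢ M ⊆ closure (Good M M d)) (hne : M.Nonempty) : IsEuc M d ∨ IsKl M d := by
  obtain ⟨O, hO⟩ := hne
  obtain ⟨Hq, S⟩ := H.st2_of_lq hs fun X hX => ⟨M, H.isOpen.mem_nhds hX, hcl⟩
  obtain ⟨δ, hO', hδ⟩ := ((H.ev_mem hO 1).and UU_pos).exists
  rcases H.trich hs hcl S hO with h | h | h
  · exact Or.inl h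
  · exact Or.inr h
  rcases H.trich hs hcl S hO' with h' | h' | h'
  · exact Or.inl h'
  · exact Or.inr h'
  have a1 := h _ hO' Complex.I (by rw [add_sub_cancel_left, cr_smul_l]; simp [cr, hδ.ne'])
  have a2 := h' _ hO Complex.I (by
    rw [sub_add_cancel_left, cr_neg_l, cr_smul_l]; simp [cr, hδ.ne'])
  linarith

end Pool.Agent.P.MP_ec5bc9_gt.H13
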