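import Pool.Agent.P.MP_ec5bc9_gt.L7
import Pool.Agent.P.MP_ec5bc9_gt.L8

/-! Transfer of the theorem on dense families of conics. -/

set_option autoImplicit false

namespace Pool.Agent.P.MP_ec5bc9_gt.H13

open Set Filter Topology Matrix

attribute [-simp] Complex.real_smul

theorem affine_dense {M : Set E2} {d : E2 → E2 → ℝ} (h : AffP M d)
    (hq : M ×ˢ M ×ˢ M ⊆ closure (GoodE M M d)) :
    ∃ c : ℝ, 0 < c ∧ ∃ f : E2 → E2,
        (Set.BijOn f M Set.univ ∧ ∀ x ∈ M, ∀ y ∈ M, c * d x y = dist (f x) (f y)) ∨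
        (Set.BijOn f M (Metric.ball 0 1) ∧ ∀ x ∈ M, ∀ y ∈ M,
          Real.cosh (c * d x y) = (1 - inner ℝ (f x) (f y)) /
            Real.sqrt ((1 - ‖f x‖ ^ 2) * (1 - ‖f y‖ ^ 2))) := by
  obtain ⟨H, hs⟩ := h.toC
  obtain ⟨x0, hx0⟩ := h.2.2.1
  have mem : ∀ x ∈ M, pg.symm x ∈ pg ⁻¹' M := fun x hx => by simpa using hx
  have bij : BijOn pg.symm M (pg ⁻¹' M) :=
    ⟨mem, pg.symm.injective.injOn, fun x hx => ⟨pg x, hx, by simp⟩⟩
  rcases H.classical_dense hs ((closure_iff M M d).1 hq) ⟨_, mem x0 hx0⟩ with ⟨c, hc, f, hf, hd⟩ | ⟨c, hc, f, hf, hd⟩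
  · refine ⟨c, hc, pg ∘ f ∘ pg.symm, Or.inl ⟨(bijOn_univ.2 pg.bijective).comp (hf.comp bij),
      fun x hx y hy => ?_⟩⟩
    have := hd _ (mem x hx) _ (mem y hy)
    simp only [LinearIsometryEquiv.apply_symm_apply] at this
    rw [this, Function.comp_apply, Function.comp_apply, Function.comp_apply, Function.comp_apply,
      pg.dist_map, dist_eq_norm]
  · have b2 : BijOn pg (Metric.ball 0 1) (Metric.ball 0 1) :=
      ⟨fun z hz => by simpa using hz, pg.injective.injOn,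
        fun z hz => ⟨pg.symm z, by simpa using hz, by simp⟩⟩
    refine ⟨c, hc, pg ∘ f ∘ pg.symm, Or.inr ⟨b2.comp (hf.comp bij), fun x hx y hy => ?_⟩⟩
    have := hd _ (mem x hx) _ (mem y hy)
    simp only [LinearIsometryEquiv.apply_symm_apply] at this
    simp only [this, Function.comp_apply, pg_inner, pg.norm_map]

theorem EllE.isometry {d : E3 → E3 → ℝ} (h : EllE d) : ∃ c : ℝ, 0 < c ∧ ∃ f : E3 → E3,
    (∀ x ∈ Metric.sphere (0 : E3) 1, f x ∈ Metric.sphere (0 : E3) 1) ∧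
    (∀ z ∈ Metric.sphere (0 : E3) 1, ∃ x ∈ Metric.sphere (0 : E3) 1, f x = z ∨ f x = -z) ∧
    ∀ x ∈ Metric.sphere (0 : E3) 1, ∀ y ∈ Metric.sphere (0 : E3) 1,
      c * d x y = Real.arccos |inner ℝ (f x) (f y)| := by
  obtain ⟨c, hc, T, hT, u, hu, h⟩ := h
  simp only [hu, lin_frm, ratio_eq] at h
  refine ⟨c, hc, fun x => nrm (lin T x), fun x hx => nrm_mem (lin_ne hT (ne_of_mem_sphere hx)),
    fun z hz => ?_, fun x hx y hy => ?_⟩
  · have inj : Function.Injective (lin T) :=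
      (injective_iff_map_eq_zero _).2 fun x e => by_contra fun hx => lin_ne hT hx e
    obtain ⟨x, rfl⟩ := LinearMap.injective_iff_surjective.1 inj z
    have z0 := ne_of_mem_sphere hz
    have x0 : x ≠ 0 := by rintro rfl; exact z0 (map_zero _)
    refine ⟨nrm x, nrm_mem x0, ?_⟩
    have := nrm_smul z0 (inv_ne_zero (norm_ne_zero_iff.2 x0))
    rw [nrm_of_mem hz] at this
    show nrm (lin T (nrm x)) = _ ∨ nrm (lin T (nrm x)) = _
    rwa [show lin T (nrm x) = ‖x‖⁻¹ • lin T x from map_smul _ _ _]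
  · rw [h x hx y hy]
    congr 1
    simp only [nrm, inner_smul_left, inner_smul_right, conj_trivial, abs_mul, abs_inv, abs_norm]
    ring

end Pool.Agent.P.MP_ec5bc9_gt.H13
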