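import Pool.Agent.P.MP_ec5bc9_gt.ProjDefs

/-! From the axioms on the unit sphere to the structure `PM`. -/

set_option autoImplicit false

namespace Pool.Agent.P.MP_ec5bc9_gt

open Set Filter Topology

/-- Normalisation of a vector. -/
noncomputable def nrm (x : E3) : E3 := ‖x‖⁻¹ • x

lemma nrm_mem {x : E3} (hx : x ≠ 0) : nrm x ∈ Metric.sphere (0 : E3) 1 := by
  have : ‖x‖ ≠ 0 := norm_ne_zero_iff.2 hx
  simp [nrm, norm_smul, this]

lemma nrm_of_mem {x : E3} (hx : x ∈ Metric.sphere (0 : E3) 1) : nrm x = x := by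
  have : ‖x‖ = 1 := by simpa using hx
  simp [nrm, this]

lemma ne_of_mem_sphere {x : E3} (hx : x ∈ Metric.sphere (0 : E3) 1) : x ≠ 0 := by
  intro h
  rw [h] at hx
  simp at hx

lemma nrm_smul {x : E3} (hx : x ≠ 0) {c : ℝ} (hc : c ≠ 0) :
    nrm (c • x) = nrm x ∨ nrm (c • x) = -nrm x := by
  have hx' : ‖x‖ ≠ 0 := norm_ne_zero_iff.2 hx
  rcases lt_or_gt_of_ne hc with h | h
  · right
    simp only [nrm, norm_smul, Real.norm_eq_abs, abs_of_neg h, smul_smul, ← neg_smul]
    congr 1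
    field_simp
  · left
    simp only [nrm, norm_smul, Real.norm_eq_abs, abs_of_pos h, smul_smul]
    congr 1
    field_simp

lemma continuousAt_nrm {x : E3} (hx : x ≠ 0) : ContinuousAt nrm x := by
  unfold nrm
  exact ((continuous_norm.continuousAt).inv₀ (norm_ne_zero_iff.2 hx)).smul continuousAt_id

lemma iInf_abs_eq {L : ℝ} (hL : 0 < L) (x y : ℝ) (j : ℤ) (hy : y = x - j * L) (hyL : |y| ≤ L) :
    (⨅ k : ℤ, |x - (k : ℝ) * L|) = min |y| (L - |y|) := by
  have hb : BddBelow (Set.range fun k : ℤ => |x - (k : ℝ) * L|) :=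
    ⟨0, by rintro _ ⟨k, rfl⟩; exact abs_nonneg _⟩
  apply le_antisymm
  · apply le_min
    · have := ciInf_le hb j
      rwa [← hy] at this
    · rcases le_total 0 y with h | h
      · have := ciInf_le hb (j + 1)
        have e : x - ((j + 1 : ℤ) : ℝ) * L = y - L := by rw [hy]; push_cast; ring
        rw [e] at this
        rw [abs_of_nonneg h] at hyL ⊢
        rw [abs_of_nonpos (by linarith)] at this
        linarith
      · have := ciInf_le hb (j - 1)
        have e : x - ((j - 1 : ℤ) : ℝ) * L = y + L := by rw [hy]; push_cast; ring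
        rw [e] at this
        rw [abs_of_nonpos h] at hyL ⊢
        rw [abs_of_nonneg (by linarith)] at this
        linarith
  · apply le_ciInf
    intro k
    have e : x - (k : ℝ) * L = y - ((k - j : ℤ) : ℝ) * L := by rw [hy]; push_cast; ring
    rw [e]
    by_cases hk : k - j = 0
    · rw [hk]; simp
    · have h1 : (1 : ℝ) ≤ |((k - j : ℤ) : ℝ)| := by
        rw [← Int.cast_abs]; exact_mod_cast Int.one_le_abs hk
      have h2 : L ≤ |((k - j : ℤ) : ℝ) * L| := by
        rw [abs_mul, abs_of_pos hL]; nlinarith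
      have h3 := abs_sub_abs_le_abs_sub (((k - j : ℤ) : ℝ) * L) y
      rw [abs_sub_comm] at h3
      exact (min_le_right _ _).trans (by linarith)

section
variable {d : E3 → E3 → ℝ}

/-- The metric on nonzero vectors. -/
noncomputable def ext (d : E3 → E3 → ℝ) (x y : E3) : ℝ := d (nrm x) (nrm y)

theorem pm_of_sphere
    (h0 : ∀ x ∈ Metric.sphere (0 : E3) 1, ∀ y ∈ Metric.sphere (0 : E3) 1,
      (d x y = 0 ↔ (x = y ∨ x = -y)))
    (hs : ∀ x ∈ Metric.sphere (0 : E3) 1, ∀ y ∈ Metric.sphere (0 : E3) 1, d x y = d y x)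
    (hn : ∀ x ∈ Metric.sphere (0 : E3) 1, ∀ y ∈ Metric.sphere (0 : E3) 1, d (-x) y = d x y)
    (ht : ∀ x ∈ Metric.sphere (0 : E3) 1, ∀ y ∈ Metric.sphere (0 : E3) 1,
      ∀ z ∈ Metric.sphere (0 : E3) 1, d x z ≤ d x y + d y z)
    (hc : ∀ x ∈ Metric.sphere (0 : E3) 1,
        Filter.HasBasis
          (nhdsWithin x (Metric.sphere (0 : E3) 1) ⊔ nhdsWithin (-x) (Metric.sphere (0 : E3) 1))
          (fun r : ℝ => 0 < r)
          (fun r => {y | y ∈ Metric.sphere (0 : E3) 1 ∧ d x y < r}))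
    {L : ℝ} (hL : 0 < L)
    (hγ : ∀ n : E3, n ≠ 0 → ∃ γ : ℝ → E3,
          (∀ t, γ t ∈ Metric.sphere (0 : E3) 1 ∧ inner ℝ n (γ t) = 0) ∧
          (∀ x ∈ Metric.sphere (0 : E3) 1, inner ℝ n x = 0 → ∃ t, γ t = x ∨ γ t = -x) ∧
          ∀ s t : ℝ, d (γ s) (γ t) = ⨅ k : ℤ, |s - t - (k : ℝ) * L|) :
    PM (ext d) L := by
  have symm : ∀ x y, x ≠ 0 → y ≠ 0 → ext d x y = ext d y x :=
    fun x y hx hy => hs _ (nrm_mem hx) _ (nrm_mem hy)
  have smul_left : ∀ x y (c : ℝ), c ≠ 0 → x ≠ 0 → y ≠ 0 → ext d (c • x) y = ext d x y := by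
    intro x y c hc hx hy
    unfold ext
    rcases nrm_smul hx hc with h | h
    · rw [h]
    · rw [h, hn _ (nrm_mem hx) _ (nrm_mem hy)]
  have self : ∀ x, x ≠ 0 → ext d x x = 0 :=
    fun x hx => (h0 _ (nrm_mem hx) _ (nrm_mem hx)).2 (Or.inl rfl)
  have tri : ∀ x y z, x ≠ 0 → y ≠ 0 → z ≠ 0 → ext d x z ≤ ext d x y + ext d y z :=
    fun x y z hx hy hz => ht _ (nrm_mem hx) _ (nrm_mem hy) _ (nrm_mem hz)
  have small : ∀ y, y ≠ 0 → ∀ ε > 0, ∀ᶠ z in 𝓝 y, z ≠ 0 ∧ ext d y z < ε := by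
    intro y hy ε hε
    have h1 := (hc _ (nrm_mem hy)).mem_of_mem hε
    have h2 := (Filter.mem_sup.1 h1).1
    have h3 : ∀ᶠ z in 𝓝 y, z ≠ 0 := isOpen_ne.mem_nhds hy
    have h4 : Tendsto nrm (𝓝 y) (nhdsWithin (nrm y) (Metric.sphere (0 : E3) 1)) :=
      tendsto_nhdsWithin_iff.2 ⟨continuousAt_nrm hy, h3.mono fun z hz => nrm_mem hz⟩
    filter_upwards [h3, h4 h2] with z hz hz2
    exact ⟨hz, hz2.2⟩
  have cont : ∀ x y, x ≠ 0 → y ≠ 0 → ContinuousAt (ext d x) y := by
    intro x y hx hy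
    rw [ContinuousAt, Metric.tendsto_nhds]
    intro ε hε
    filter_upwards [small y hy ε hε] with z hz
    have a1 := tri x y z hx hy hz.1
    have a2 := tri x z y hx hz.1 hy
    rw [symm z y hz.1 hy] at a2
    rw [Real.dist_eq, abs_lt]
    constructor <;> linarith [hz.2]
  have sep : ∀ x y, Ind x y → ext d x y ≠ 0 := by
    intro x y hxy h
    have hx := hxy.left_ne
    have hy := hxy.right_ne
    have hx' : ‖x‖⁻¹ ≠ 0 := inv_ne_zero (norm_ne_zero_iff.2 hx)
    rcases (h0 _ (nrm_mem hx) _ (nrm_mem hy)).1 h with h1 | h1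
    · exact hx' (hxy ‖x‖⁻¹ (-‖y‖⁻¹) (by
        rw [neg_smul, ← sub_eq_add_neg, sub_eq_zero]; exact h1)).1
    · exact hx' (hxy ‖x‖⁻¹ ‖y‖⁻¹ (by
        rw [← eq_neg_iff_add_eq_zero]; exact h1)).1
  refine ⟨hL, symm, smul_left, self, tri, cont, ?_⟩
  intro a b hab
  obtain ⟨γ, hγ1, hγ2, hγ3⟩ := hγ _ hab.crs_ne
  have hγne : ∀ t, γ t ≠ 0 := fun t => ne_of_mem_sphere (hγ1 t).1
  have hγd : ∀ s t, ext d (γ s) (γ t) = ⨅ k : ℤ, |s - t - (k : ℝ) * L| := by
    intro s t
    unfold ext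
    rw [nrm_of_mem (hγ1 s).1, nrm_of_mem (hγ1 t).1, hγ3]
  have par : ∀ x, x ≠ 0 → inner ℝ (crs a b) x = 0 → ∃ t, ∃ c : ℝ, c ≠ 0 ∧ γ t = c • x := by
    intro x hx hxn
    have hx' : ‖x‖⁻¹ ≠ 0 := inv_ne_zero (norm_ne_zero_iff.2 hx)
    obtain ⟨t, ht | ht⟩ := hγ2 _ (nrm_mem hx) (by rw [nrm, inner_smul_right, hxn, mul_zero])
    · exact ⟨t, _, hx', ht⟩
    · exact ⟨t, -‖x‖⁻¹, neg_ne_zero.2 hx', by rw [ht, nrm, neg_smul]⟩
  have smul_both : ∀ x y (c e : ℝ), c ≠ 0 → e ≠ 0 → x ≠ 0 → y ≠ 0 →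
      ext d (c • x) (e • y) = ext d x y := by
    intro x y c e hc he hx hy
    rw [smul_left x _ c hc hx (smul_ne_zero he hy), symm x _ hx (smul_ne_zero he hy),
      smul_left y x e he hy hx, symm y x hy hx]
  have hline : ∀ t : ℝ, inner ℝ (crs a b) (a + t • b) = 0 := by
    intro t
    rw [inner_add_right, inner_smul_right, inner_crs_left, inner_crs_right]; ring
  obtain ⟨τb, cb, hcb, hτb⟩ := par b hab.right_ne (inner_crs_right a b)
  choose τ c hc hτ using fun t => par (a + t • b) (hab.add_smul_ne t) (hline t)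
  set s0 : ℝ → ℝ := fun t => toIcoMod hL 0 (τ t - τb) with hs0
  have s0mem : ∀ t, 0 ≤ s0 t ∧ s0 t < L := by
    intro t
    have := toIcoMod_mem_Ico hL 0 (τ t - τb)
    rw [zero_add] at this
    exact this
  have s0eq : ∀ t, s0 t = τ t - τb - (toIcoDiv hL 0 (τ t - τb) : ℝ) * L := by
    intro t
    have := self_sub_toIcoDiv_zsmul hL 0 (τ t - τb)
    rw [zsmul_eq_mul] at this
    exact this.symm
  have dγ : ∀ t u, 0 ≤ u → u ≤ L →
      ext d (a + t • b) (γ (τb + u)) = min |s0 t - u| (L - |s0 t - u|) := by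
    intro t u hu0 huL
    have e1 : ext d (a + t • b) (γ (τb + u)) = ext d (γ (τ t)) (γ (τb + u)) := by
      rw [hτ t, smul_left _ _ _ (hc t) (hab.add_smul_ne t) (hγne _)]
    rw [e1, hγd]
    apply iInf_abs_eq hL _ _ (toIcoDiv hL 0 (τ t - τb))
    · rw [s0eq t]; ring
    · have := s0mem t
      rw [abs_le]; constructor <;> linarith [this.1, this.2]
  have db : ∀ t, ext d b (a + t • b) = min (s0 t) (L - s0 t) := by
    intro t
    have := dγ t 0 le_rfl hL.le
    rw [add_zero, sub_zero, abs_of_nonneg (s0mem t).1, hτb] at this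
    rw [← this, symm b _ hab.right_ne (hab.add_smul_ne t)]
    have := smul_both (a + t • b) b 1 cb one_ne_zero hcb (hab.add_smul_ne t) hab.right_ne
    rw [one_smul] at this
    exact this.symm
  have dd : ∀ t1 t2, ext d (a + t1 • b) (a + t2 • b)
      = min |s0 t1 - s0 t2| (L - |s0 t1 - s0 t2|) := by
    intro t1 t2
    have e1 : ext d (a + t1 • b) (a + t2 • b) = ext d (γ (τ t1)) (γ (τ t2)) := by
      rw [hτ t1, hτ t2, smul_both _ _ _ _ (hc t1) (hc t2) (hab.add_smul_ne t1)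
        (hab.add_smul_ne t2)]
    rw [e1, hγd]
    apply iInf_abs_eq hL _ _ (toIcoDiv hL 0 (τ t1 - τb) - toIcoDiv hL 0 (τ t2 - τb))
    · rw [s0eq t1, s0eq t2]; push_cast; ring
    · have h1 := s0mem t1
      have h2 := s0mem t2
      rw [abs_le]; constructor <;> linarith [h1.1, h1.2, h2.1, h2.2]
  have s0pos : ∀ t, 0 < s0 t := by
    intro t
    rcases (s0mem t).1.lt_or_eq with h | h
    · exact h
    · exfalso
      have hi : Ind b (a + t • b) := by
        intro u v huv
        have := hab v (u + v * t) (by rw [← huv, smul_add, add_smul, smul_smul]; abel)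
        refine ⟨?_, this.1⟩
        have h2 := this.2
        rw [this.1] at h2
        simpa using h2
      apply sep _ _ hi
      rw [db, ← h, sub_zero, min_eq_left hL.le]
  have s0inj : Function.Injective s0 := by
    intro t1 t2 h12
    by_contra hne
    have hi : Ind (a + t1 • b) (a + t2 • b) := by
      intro u v huv
      have := hab (u + v) (u * t1 + v * t2) (by
        rw [← huv]; simp only [smul_add, add_smul, smul_smul]; abel)
      have h1 := this.1
      have h2 := this.2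
      have hu : u * (t1 - t2) = 0 := by linear_combination h2 - t2 * h1
      have hu0 : u = 0 := (mul_eq_zero.1 hu).resolve_right (sub_ne_zero.2 hne)
      exact ⟨hu0, by linarith⟩
    apply sep _ _ hi
    rw [dd, h12, sub_self, abs_zero, sub_zero, min_eq_left hL.le]
  have s0cont : Continuous s0 := by
    rw [continuous_iff_continuousAt]
    intro t0
    rw [ContinuousAt, Metric.tendsto_nhds]
    intro ε hε
    set M := min (s0 t0) (L - s0 t0) with hM
    have hMpos : 0 < M := lt_min (s0pos t0) (by linarith [(s0mem t0).2])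
    have hcl : ContinuousAt (fun t : ℝ => a + t • b) t0 := by fun_prop
    have := hcl.eventually (small _ (hab.add_smul_ne t0) (min ε M) (lt_min hε hMpos))
    filter_upwards [this] with t ht
    have h1 := ht.2
    rw [dd] at h1
    have h2 : M ≤ L - |s0 t0 - s0 t| := by
      have a1 := s0mem t
      have a2 : M ≤ s0 t0 := min_le_left _ _
      have a3 : M ≤ L - s0 t0 := min_le_right _ _
      have : |s0 t0 - s0 t| ≤ L - M := by
        rw [abs_le]; constructor <;> linarith [a1.1, a1.2]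
      linarith
    rw [Real.dist_eq, abs_sub_comm]
    rcases min_lt_iff.1 h1 with h | h
    · exact h.trans_le (min_le_left _ _)
    · exact absurd (h.trans_le (min_le_right _ _)) (not_lt.2 h2)
  have s0surj : ∀ u, 0 < u → u < L → ∃ t, s0 t = u := by
    intro u hu0 huL
    obtain ⟨α, β, hαβ⟩ := hab.span_of_inner (hγ1 (τb + u)).2
    have hα : α ≠ 0 := by
      intro hα
      rw [hα, zero_smul, zero_add] at hαβ
      have hβ : β ≠ 0 := by
        intro hβ
        rw [hβ, zero_smul] at hαβ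
        exact hγne _ hαβ
      have e1 : ext d (γ (τb + u)) (γ τb) = 0 := by
        rw [hαβ, hτb, smul_both _ _ _ _ hβ hcb hab.right_ne hab.right_ne, self _ hab.right_ne]
      rw [hγd, iInf_abs_eq hL _ u 0 (by simp) (by rw [abs_of_pos hu0]; exact huL.le),
        abs_of_pos hu0] at e1
      have : 0 < min u (L - u) := lt_min hu0 (by linarith)
      linarith
    refine ⟨β / α, ?_⟩
    have e0 : γ (τb + u) = α • (a + (β / α) • b) := by
      rw [hαβ, smul_add, smul_smul, mul_div_cancel₀ _ hα]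
    have e1 := dγ (β / α) u hu0.le huL.le
    have e2 := smul_both (a + (β / α) • b) (a + (β / α) • b) 1 α one_ne_zero hα
      (hab.add_smul_ne _) (hab.add_smul_ne _)
    rw [one_smul, ← e0, self _ (hab.add_smul_ne _), e1] at e2
    have a1 := s0mem (β / α)
    have : |s0 (β / α) - u| < L := by
      rw [abs_lt]; constructor <;> linarith [a1.1, a1.2]
    rcases min_eq_iff.1 e2 with h | h
    · have := abs_eq_zero.1 h.1
      linarith
    · linarith [h.1]
  rcases s0cont.strictMono_of_inj s0inj with hm | hm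
  · exact ⟨s0, hm, s0cont, fun t => ⟨s0pos t, (s0mem t).2⟩, s0surj, dd, db⟩
  · refine ⟨fun t => L - s0 t, fun t1 t2 h => by have := hm h; dsimp only; linarith,
      continuous_const.sub s0cont,
      fun t => ⟨by linarith [(s0mem t).2], by linarith [s0pos t]⟩, ?_, ?_, ?_⟩
    · intro u hu0 huL
      obtain ⟨t, ht⟩ := s0surj (L - u) (by linarith) (by linarith)
      exact ⟨t, by dsimp only; rw [ht]; ring⟩
    · intro t1 t2
      have : L - s0 t1 - (L - s0 t2) = -(s0 t1 - s0 t2) := by ring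
      rw [this, abs_neg, dd]
    · intro t
      rw [db, min_comm]; congr 1; ring

end

end Pool.Agent.P.MP_ec5bc9_gt
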