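import Mathlib

/-! Projective metrics on the real projective plane, written on nonzero vectors of `ℝ³`. -/

set_option autoImplicit false

namespace Pool.Agent.P.MP_ec5bc9_gt

open Set Filter Topology

abbrev E3 := EuclideanSpace ℝ (Fin 3)

/-- Two vectors are independent. -/
def Ind (a b : E3) : Prop := ∀ s t : ℝ, s • a + t • b = 0 → s = 0 ∧ t = 0

/-- Cross product. -/
noncomputable def crs (a b : E3) : E3 :=
  WithLp.toLp 2 ![a 1 * b 2 - a 2 * b 1, a 2 * b 0 - a 0 * b 2, a 0 * b 1 - a 1 * b 0]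

lemma inner3 (x y : E3) : inner ℝ x y = x 0 * y 0 + x 1 * y 1 + x 2 * y 2 := by
  simp [PiLp.inner_apply, Fin.sum_univ_three]; ring

@[simp] lemma crs0 (a b : E3) : crs a b 0 = a 1 * b 2 - a 2 * b 1 := rfl
@[simp] lemma crs1 (a b : E3) : crs a b 1 = a 2 * b 0 - a 0 * b 2 := rfl
@[simp] lemma crs2 (a b : E3) : crs a b 2 = a 0 * b 1 - a 1 * b 0 := rfl

lemma ext3 {x y : E3} (h0 : x 0 = y 0) (h1 : x 1 = y 1) (h2 : x 2 = y 2) : x = y := by
  ext i; fin_cases i <;> assumption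

lemma inner_crs_left (a b : E3) : inner ℝ (crs a b) a = 0 := by
  simp only [inner3, crs0, crs1, crs2]; ring

lemma inner_crs_right (a b : E3) : inner ℝ (crs a b) b = 0 := by
  simp only [inner3, crs0, crs1, crs2]; ring

lemma Ind.left_ne {a b : E3} (h : Ind a b) : a ≠ 0 := by
  intro ha
  have := (h 1 0 (by simp [ha])).1
  norm_num at this

lemma Ind.symm {a b : E3} (h : Ind a b) : Ind b a := by
  intro s t hst
  have := h t s (by rw [add_comm]; exact hst)
  exact ⟨this.2, this.1⟩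

lemma Ind.right_ne {a b : E3} (h : Ind a b) : b ≠ 0 := h.symm.left_ne

lemma Ind.add_smul_ne {a b : E3} (h : Ind a b) (t : ℝ) : a + t • b ≠ 0 := by
  intro h0
  have := (h 1 t (by simpa using h0)).1
  norm_num at this

lemma Ind.crs_ne {a b : E3} (h : Ind a b) : crs a b ≠ 0 := by
  intro h0
  have e0 : a 1 * b 2 - a 2 * b 1 = 0 := by rw [← crs0, h0]; rfl
  have e1 : a 2 * b 0 - a 0 * b 2 = 0 := by rw [← crs1, h0]; rfl
  have e2 : a 0 * b 1 - a 1 * b 0 = 0 := by rw [← crs2, h0]; rfl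
  have k0 := h (b 0) (-(a 0)) (ext3 (by simp; ring) (by simp; linarith) (by simp; linarith))
  have k1 := h (b 1) (-(a 1)) (ext3 (by simp; linarith) (by simp; ring) (by simp; linarith))
  have k2 := h (b 2) (-(a 2)) (ext3 (by simp; linarith) (by simp; linarith) (by simp; ring))
  exact h.right_ne (ext3 k0.1 k1.1 k2.1)

/-- A vector orthogonal to the cross product lies in the span. -/
lemma Ind.span_of_inner {a b : E3} (h : Ind a b) {y : E3} (hy : inner ℝ (crs a b) y = 0) :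
    ∃ s t : ℝ, y = s • a + t • b := by
  have hn : inner ℝ (crs a b) (crs a b) ≠ 0 := inner_self_ne_zero.2 h.crs_ne
  set N : ℝ := inner ℝ (crs a b) (crs a b) with hN
  refine ⟨inner ℝ (crs y b) (crs a b) / N, inner ℝ (crs a y) (crs a b) / N, ?_⟩
  have hy' := hy
  simp only [inner3, crs0, crs1, crs2] at hy' hN
  apply ext3
  · simp only [PiLp.add_apply, PiLp.smul_apply, smul_eq_mul, inner3, crs0, crs1, crs2]
    field_simp
    rw [hN]
    linear_combination (a 1 * b 2 - a 2 * b 1) * hy'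
  · simp only [PiLp.add_apply, PiLp.smul_apply, smul_eq_mul, inner3, crs0, crs1, crs2]
    field_simp
    rw [hN]
    linear_combination (a 2 * b 0 - a 0 * b 2) * hy'
  · simp only [PiLp.add_apply, PiLp.smul_apply, smul_eq_mul, inner3, crs0, crs1, crs2]
    field_simp
    rw [hN]
    linear_combination (a 0 * b 1 - a 1 * b 0) * hy'

/-- Two independent vectors of a plane `n^⊥` span it. -/
lemma Ind.span_of_perp {a b n : E3} (h : Ind a b) (hn : n ≠ 0) (ha : inner ℝ n a = 0)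
    (hb : inner ℝ n b = 0) {y : E3} (hy : inner ℝ n y = 0) :
    ∃ s t : ℝ, y = s • a + t • b := by
  apply h.span_of_inner
  have hnn : inner ℝ n n ≠ 0 := inner_self_ne_zero.2 hn
  apply mul_left_cancel₀ hnn
  simp only [inner3, crs0, crs1, crs2] at ha hb hy ⊢
  linear_combination ((a 1 * b 2 - a 2 * b 1) * n 0 + (a 2 * b 0 - a 0 * b 2) * n 1
    + (a 0 * b 1 - a 1 * b 0) * n 2) * hy
    + ((b 1 * y 2 - b 2 * y 1) * n 0 + (b 2 * y 0 - b 0 * y 2) * n 1
    + (b 0 * y 1 - b 1 * y 0) * n 2) * ha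
    + ((y 1 * a 2 - y 2 * a 1) * n 0 + (y 2 * a 0 - y 0 * a 2) * n 1
    + (y 0 * a 1 - y 1 * a 0) * n 2) * hb

lemma ind_or_smul {a : E3} (ha : a ≠ 0) (b : E3) : Ind a b ∨ ∃ c : ℝ, b = c • a := by
  by_cases h : Ind a b
  · exact Or.inl h
  · right
    simp only [Ind, not_forall] at h
    obtain ⟨s, t, hst, hne⟩ := h
    have ht : t ≠ 0 := by
      intro ht
      rw [ht, zero_smul, add_zero] at hst
      exact hne ⟨(smul_eq_zero.1 hst).resolve_right ha, ht⟩
    refine ⟨-(s / t), ?_⟩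
    have : t • b = -(s • a) := by rw [eq_neg_iff_add_eq_zero, add_comm]; exact hst
    calc b = t⁻¹ • (t • b) := by rw [smul_smul, inv_mul_cancel₀ ht, one_smul]
      _ = -(s / t) • a := by rw [this, smul_neg, smul_smul, neg_smul, div_eq_inv_mul]

lemma ind_of_inner {n a b : E3} (ha : inner ℝ n a ≠ 0) (hb : inner ℝ n b = 0) (hb0 : b ≠ 0) :
    Ind a b := by
  intro s t hst
  have h1 : inner ℝ n (s • a + t • b) = 0 := by rw [hst, inner_zero_right]
  rw [inner_add_right, inner_smul_right, inner_smul_right, hb, mul_zero, add_zero] at h1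
  have hs : s = 0 := (mul_eq_zero.1 h1).resolve_right ha
  rw [hs, zero_smul, zero_add] at hst
  exact ⟨hs, (smul_eq_zero.1 hst).resolve_right hb0⟩

/-- Distance from a point to the line `n^⊥`. -/
noncomputable def lineDist (D : E3 → E3 → ℝ) (n X : E3) : ℝ :=
  sInf ((fun Y => D X Y) '' {Y | Y ≠ 0 ∧ inner ℝ n Y = 0})

/-- The axioms of a projective metric on the projective plane with lines of length `L`. -/
structure PM (D : E3 → E3 → ℝ) (L : ℝ) : Prop where
  Lpos : 0 < L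
  symm : ∀ x y, x ≠ 0 → y ≠ 0 → D x y = D y x
  smul_left : ∀ x y (c : ℝ), c ≠ 0 → x ≠ 0 → y ≠ 0 → D (c • x) y = D x y
  self : ∀ x, x ≠ 0 → D x x = 0
  tri : ∀ x y z, x ≠ 0 → y ≠ 0 → z ≠ 0 → D x z ≤ D x y + D y z
  cont : ∀ x y, x ≠ 0 → y ≠ 0 → ContinuousAt (D x) y
  line : ∀ a b, Ind a b → ∃ s : ℝ → ℝ, StrictMono s ∧ Continuous s ∧
    (∀ t, 0 < s t ∧ s t < L) ∧ (∀ u, 0 < u → u < L → ∃ t, s t = u) ∧
    (∀ t1 t2, D (a + t1 • b) (a + t2 • b) = min |s t1 - s t2| (L - |s t1 - s t2|)) ∧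
    (∀ t, D b (a + t • b) = min (s t) (L - s t))

end Pool.Agent.P.MP_ec5bc9_gt
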