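import Pool.Agent.P.MP_ec5bc9_gt.ProjMetric

/-! The projective case: a projective metric on the projective plane whose parabolic conics
are conics is elliptic. -/

set_option autoImplicit false

namespace Pool.Agent.P.MP_ec5bc9_gt

open Set Filter Topology

lemma nrm_eq_smul (x : E3) : nrm x = ‖x‖⁻¹ • x := rfl

theorem proj_case :
    (∀ d : EuclideanSpace ℝ (Fin 3) → EuclideanSpace ℝ (Fin 3) → ℝ,
      (∀ x ∈ Metric.sphere (0 : EuclideanSpace ℝ (Fin 3)) 1,
        ∀ y ∈ Metric.sphere (0 : EuclideanSpace ℝ (Fin 3)) 1, (d x y = 0 ↔ (x = y ∨ x = -y))) →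
      (∀ x ∈ Metric.sphere (0 : EuclideanSpace ℝ (Fin 3)) 1,
        ∀ y ∈ Metric.sphere (0 : EuclideanSpace ℝ (Fin 3)) 1, d x y = d y x) →
      (∀ x ∈ Metric.sphere (0 : EuclideanSpace ℝ (Fin 3)) 1,
        ∀ y ∈ Metric.sphere (0 : EuclideanSpace ℝ (Fin 3)) 1, d (-x) y = d x y) →
      (∀ x ∈ Metric.sphere (0 : EuclideanSpace ℝ (Fin 3)) 1,
        ∀ y ∈ Metric.sphere (0 : EuclideanSpace ℝ (Fin 3)) 1,
        ∀ z ∈ Metric.sphere (0 : EuclideanSpace ℝ (Fin 3)) 1, d x z ≤ d x y + d y z) →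
      (∀ x ∈ Metric.sphere (0 : EuclideanSpace ℝ (Fin 3)) 1,
        Filter.HasBasis
          (nhdsWithin x (Metric.sphere (0 : EuclideanSpace ℝ (Fin 3)) 1) ⊔
            nhdsWithin (-x) (Metric.sphere (0 : EuclideanSpace ℝ (Fin 3)) 1))
          (fun r : ℝ => 0 < r)
          (fun r => {y | y ∈ Metric.sphere (0 : EuclideanSpace ℝ (Fin 3)) 1 ∧ d x y < r})) →
      (∃ L : ℝ, 0 < L ∧ ∀ n : EuclideanSpace ℝ (Fin 3), n ≠ 0 →
        ∃ γ : ℝ → EuclideanSpace ℝ (Fin 3),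
          (∀ t, γ t ∈ Metric.sphere (0 : EuclideanSpace ℝ (Fin 3)) 1 ∧ inner ℝ n (γ t) = 0) ∧
          (∀ x ∈ Metric.sphere (0 : EuclideanSpace ℝ (Fin 3)) 1, inner ℝ n x = 0 →
            ∃ t, γ t = x ∨ γ t = -x) ∧
          ∀ s t : ℝ, d (γ s) (γ t) = ⨅ k : ℤ, |s - t - (k : ℝ) * L|) →
      (∀ x ∈ Metric.sphere (0 : EuclideanSpace ℝ (Fin 3)) 1,
        ∀ y ∈ Metric.sphere (0 : EuclideanSpace ℝ (Fin 3)) 1,
        ∀ z ∈ Metric.sphere (0 : EuclideanSpace ℝ (Fin 3)) 1,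
          LinearIndependent ℝ ![x, y, z] → d x z < d x y + d y z) →
      (∀ n : EuclideanSpace ℝ (Fin 3), n ≠ 0 →
        ∀ F ∈ Metric.sphere (0 : EuclideanSpace ℝ (Fin 3)) 1, inner ℝ n F ≠ 0 →
          ∃ u v w : EuclideanSpace ℝ (Fin 3), LinearIndependent ℝ ![u, v, w] ∧
            {X | X ∈ Metric.sphere (0 : EuclideanSpace ℝ (Fin 3)) 1 ∧
                d X F = sInf ((fun Y => d X Y) ''
                  {Y | Y ∈ Metric.sphere (0 : EuclideanSpace ℝ (Fin 3)) 1 ∧ inner ℝ n Y = 0})}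
              = {x | x ∈ Metric.sphere (0 : EuclideanSpace ℝ (Fin 3)) 1 ∧
                  inner ℝ u x * inner ℝ w x = (inner ℝ v x) ^ 2}) →
      ∃ c : ℝ, 0 < c ∧ ∃ f : EuclideanSpace ℝ (Fin 3) → EuclideanSpace ℝ (Fin 3),
        (∀ x ∈ Metric.sphere (0 : EuclideanSpace ℝ (Fin 3)) 1,
          f x ∈ Metric.sphere (0 : EuclideanSpace ℝ (Fin 3)) 1) ∧
        (∀ z ∈ Metric.sphere (0 : EuclideanSpace ℝ (Fin 3)) 1,
          ∃ x ∈ Metric.sphere (0 : EuclideanSpace ℝ (Fin 3)) 1, f x = z ∨ f x = -z) ∧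
        ∀ x ∈ Metric.sphere (0 : EuclideanSpace ℝ (Fin 3)) 1,
          ∀ y ∈ Metric.sphere (0 : EuclideanSpace ℝ (Fin 3)) 1,
            c * d x y = Real.arccos |inner ℝ (f x) (f y)|) := by
  intro d h0 hs hn ht hc hL hst hcon
  obtain ⟨L, hL, hγ⟩ := hL
  have h : PM (ext d) L := pm_of_sphere h0 hs hn ht hc hL hγ
  have hinv : ∀ x : E3, x ≠ 0 → ‖x‖⁻¹ ≠ 0 := fun x hx => inv_ne_zero (norm_ne_zero_iff.2 hx)
  have hS : Strict (ext d) := by
    intro x y z hli
    have hx : x ≠ 0 := hli.ne_zero 0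
    have hy : y ≠ 0 := hli.ne_zero 1
    have hz : z ≠ 0 := hli.ne_zero 2
    refine hst _ (nrm_mem hx) _ (nrm_mem hy) _ (nrm_mem hz) ?_
    rw [Fintype.linearIndependent_iff] at hli ⊢
    intro g hg
    have := hli ![g 0 * ‖x‖⁻¹, g 1 * ‖y‖⁻¹, g 2 * ‖z‖⁻¹] (by
      simpa only [Fin.sum_univ_three, Matrix.cons_val_zero, Matrix.cons_val_one,
        Matrix.cons_val, nrm_eq_smul, smul_smul] using hg)
    intro i
    fin_cases i
    · exact (mul_eq_zero.1 (this 0)).resolve_right (hinv x hx)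
    · exact (mul_eq_zero.1 (this 1)).resolve_right (hinv y hy)
    · exact (mul_eq_zero.1 (this 2)).resolve_right (hinv z hz)
  have hC : Conic (ext d) := by
    intro n F hF
    have hF0 : F ≠ 0 := by rintro rfl; exact hF (inner_zero_right _)
    obtain ⟨u, v, w, -, he⟩ := hcon n (ne_of_inner_ne hF) (nrm F) (nrm_mem hF0)
      (by rw [nrm_eq_smul, inner_smul_right]; exact mul_ne_zero (hinv F hF0) hF)
    refine ⟨LinearMap.mk₂ ℝ (fun x y => (inner ℝ u x * inner ℝ w y + inner ℝ u y * inner ℝ w x) / 2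
      - inner ℝ v x * inner ℝ v y) ?_ ?_ ?_ ?_, ?_, ?_⟩
    · intro a b c; simp only [inner_add_right]; ring
    · intro a b c; simp only [inner_smul_right, smul_eq_mul]; ring
    · intro a b c; simp only [inner_add_right]; ring
    · intro a b c; simp only [inner_smul_right, smul_eq_mul]; ring
    · intro x y; simp only [LinearMap.mk₂_apply]; ring
    · intro X hX
      have e1 : lineDist (ext d) n X = sInf ((fun Y => d (nrm X) Y) ''
          {Y | Y ∈ Metric.sphere (0 : E3) 1 ∧ inner ℝ n Y = 0}) := by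
        unfold lineDist
        congr 1
        ext r
        constructor
        · rintro ⟨Y, hY, rfl⟩
          exact ⟨nrm Y, ⟨nrm_mem hY.1, by
            rw [nrm_eq_smul, inner_smul_right, hY.2, mul_zero]⟩, rfl⟩
        · rintro ⟨Y, hY, rfl⟩
          exact ⟨Y, ⟨ne_of_mem_sphere hY.1, hY.2⟩, by simp only [ext, nrm_of_mem hY.1]⟩
      have e2 := Set.ext_iff.1 he (nrm X)
      simp only [mem_ofPred_eq, nrm_mem hX, true_and] at e2
      rw [e1, ext, e2, LinearMap.mk₂_apply]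
      simp only [nrm_eq_smul, inner_smul_right]
      have := hinv X hX
      constructor
      · intro h1
        apply mul_left_cancel₀ (pow_ne_zero 2 this)
        linear_combination h1
      · intro h1
        linear_combination ‖X‖⁻¹ ^ 2 * h1
  obtain ⟨P, G0, G2, G3⟩ := h.exists_coords hC hS
  have h' := h.comp P
  have H := h'.std_polarity (PM.polar_comp (fun x hx => h.exists_polar hC hx) P) G0 G2 G3
  have hne : ∀ x : E3, x ≠ 0 → P.symm x ≠ 0 := fun x hx => by simpa using hx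
  refine ⟨Real.pi / L, div_pos Real.pi_pos hL, fun x => nrm (P.symm x),
    fun x hx => nrm_mem (hne x (ne_of_mem_sphere hx)), fun z hz => ?_, fun x hx y hy => ?_⟩
  · have hz0 := ne_of_mem_sphere hz
    have hPz : P z ≠ 0 := by simpa using hz0
    refine ⟨nrm (P z), nrm_mem hPz, ?_⟩
    have := nrm_smul hz0 (hinv _ hPz)
    rw [nrm_of_mem hz] at this
    simpa only [nrm_eq_smul (P z), map_smul, LinearEquiv.symm_apply_apply] using this
  · have hx0 := ne_of_mem_sphere hx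
    have hy0 := ne_of_mem_sphere hy
    rw [← h'.elliptic H (nrm_mem (hne x hx0)) (nrm_mem (hne y hy0))]
    congr 1
    simp only [nrm_eq_smul, map_smul, LinearEquiv.apply_symm_apply]
    rw [h.smul_left _ _ _ (hinv _ (hne x hx0)) hx0 (smul_ne_zero (hinv _ (hne y hy0)) hy0),
      h.smul_right (hinv _ (hne y hy0)) hx0 hy0, ext, nrm_of_mem hx, nrm_of_mem hy]

end Pool.Agent.P.MP_ec5bc9_gt
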