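import Pool.Agent.P.MP_ec5bc9_gt.ProjPolarity

/-! A projective metric whose polarity is the standard one is the elliptic metric. -/

set_option autoImplicit false

namespace Pool.Agent.P.MP_ec5bc9_gt

open Set Filter Topology

lemma tendsto_cos_pow :
    Tendsto (fun k : ℕ => Real.cos (Real.pi / k) ^ k) atTop (𝓝 1) := by
  have h1 : Tendsto (fun k : ℕ => 1 - Real.pi ^ 2 / 2 / (k : ℝ)) atTop (𝓝 1) := by
    have := (tendsto_const_div_atTop_nhds_zero_nat (Real.pi ^ 2 / 2)).const_sub 1
    simpa using this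
  refine tendsto_of_tendsto_of_tendsto_of_le_of_le' h1 tendsto_const_nhds ?_ ?_
  · filter_upwards [eventually_ge_atTop 3] with k hk
    have hk3 : (3 : ℝ) ≤ k := by exact_mod_cast hk
    have hx0 : 0 ≤ Real.pi / k := by positivity
    have hx1 : Real.pi / k ≤ 4 / 3 := by
      rw [div_le_iff₀ (by linarith)]; linarith [Real.pi_lt_four]
    have a1 : 0 ≤ 1 + -((Real.pi / k) ^ 2 / 2) := by nlinarith
    have a2 := one_add_mul_le_pow (a := -((Real.pi / k) ^ 2 / 2)) (by nlinarith) k
    have a3 : (1 + -((Real.pi / k) ^ 2 / 2)) ^ k ≤ Real.cos (Real.pi / k) ^ k :=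
      pow_le_pow_left₀ a1 (by linarith [Real.one_sub_sq_div_two_le_cos (x := Real.pi / k)]) k
    have e : 1 + (k : ℝ) * -((Real.pi / k) ^ 2 / 2) = 1 - Real.pi ^ 2 / 2 / (k : ℝ) := by
      field_simp
      ring
    linarith
  · filter_upwards with k
    exact (le_abs_self _).trans (by rw [abs_pow]; exact pow_le_one₀ (abs_nonneg _) (Real.abs_cos_le_one _))

lemma midpoint_le {f : ℝ → ℝ} {p q : ℝ} (hc : ContinuousOn f (Icc p q)) (hp : f p = 0)
    (hq : f q = 0) (hm : ∀ x y, p ≤ x → x < y → y ≤ q → f x + f y = 2 * f ((x + y) / 2))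
    {x : ℝ} (hx : x ∈ Icc p q) : f x ≤ 0 := by
  obtain ⟨z, hz, hmax⟩ := isCompact_Icc.exists_isMaxOn ⟨x, hx⟩ hc
  refine le_trans (hmax hx) ?_
  by_contra hpos
  push Not at hpos
  have h1 : p < z := lt_of_le_of_ne hz.1 (by rintro rfl; linarith)
  have h2 : z < q := lt_of_le_of_ne hz.2 (by rintro rfl; linarith)
  rcases le_total (z - p) (q - z) with h | h
  · have a := hm p (2 * z - p) le_rfl (by linarith) (by linarith)
    have b : f (2 * z - p) ≤ f z := hmax ⟨by linarith, by linarith⟩
    rw [show (p + (2 * z - p)) / 2 = z by ring] at a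
    linarith
  · have a := hm (2 * z - q) q (by linarith) (by linarith) le_rfl
    have b : f (2 * z - q) ≤ f z := hmax ⟨by linarith, by linarith⟩
    rw [show (2 * z - q + q) / 2 = z by ring] at a
    linarith

lemma midpoint_affine {f : ℝ → ℝ} {q : ℝ} (hc : ContinuousOn f (Icc 0 q))
    (hm : ∀ x y, 0 ≤ x → x < y → y ≤ q → f x + f y = 2 * f ((x + y) / 2))
    {x : ℝ} (hx : x ∈ Icc 0 q) : (f x - f 0) * q = (f q - f 0) * x := by
  have a := midpoint_le (f := fun t => (f t - f 0) * q - (f q - f 0) * t)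
    (by fun_prop) (by ring) (by ring)
    (fun x y h1 h2 h3 => by linear_combination q * hm x y h1 h2 h3) hx
  have b := midpoint_le (f := fun t => (f q - f 0) * t - (f t - f 0) * q)
    (by fun_prop) (by ring) (by ring)
    (fun x y h1 h2 h3 => by linear_combination -q * hm x y h1 h2 h3) hx
  linarith

namespace PM

variable {D : E3 → E3 → ℝ} {L : ℝ}

lemma reflect_le (h : PM D L)
    (H : ∀ x y, x ≠ 0 → y ≠ 0 → (D x y = L / 2 ↔ inner ℝ x y = 0))
    {N z : E3} (hN : N ≠ 0) (hz : inner ℝ N z = 0) : D N (N + z) ≤ D N (N - z) := by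
  by_cases hz0 : z = 0
  · simp [hz0]
  have hP : Polar D L := fun x hx => ⟨x, inner_self_ne_zero.2 hx, fun y hy => H x y hx hy⟩
  have hNN : inner ℝ N N ≠ 0 := inner_self_ne_zero.2 hN
  have hNn : ‖N‖ ≠ 0 := norm_ne_zero_iff.2 hN
  set w : E3 := ‖N‖⁻¹ • crs N z with hw
  have w1 : inner ℝ N w = 0 := by
    rw [hw, inner_smul_right, real_inner_comm, inner_crs_left, mul_zero]
  have w2 : inner ℝ z w = 0 := by
    rw [hw, inner_smul_right, real_inner_comm, inner_crs_right, mul_zero]
  have w2' : inner ℝ w z = 0 := by rw [real_inner_comm]; exact w2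
  have w3 : inner ℝ w w = inner ℝ z z := by
    have e : inner ℝ (crs N z) (crs N z) = inner ℝ N N * inner ℝ z z - inner ℝ N z ^ 2 := by
      simp only [inner3, crs0, crs1, crs2]; ring
    rw [hw, inner_smul_right, inner_smul_left, e, hz, real_inner_self_eq_norm_sq N]
    simp only [conj_trivial]
    field_simp
    ring
  have hzz : inner ℝ z z ≠ 0 := inner_self_ne_zero.2 hz0
  set u : ℝ → E3 := fun θ => Real.cos θ • z + Real.sin θ • w with hu
  have hNu : ∀ θ, inner ℝ N (u θ) = 0 := fun θ => by
    simp only [hu, inner_add_right, inner_smul_right, hz, w1]; ring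
  have hne : ∀ (ρ : ℝ) (v : E3), inner ℝ N v = 0 → N + ρ • v ≠ 0 := by
    intro ρ v hv h0
    have : inner ℝ N (N + ρ • v) = 0 := by rw [h0, inner_zero_right]
    rw [inner_add_right, inner_smul_right, hv, mul_zero, add_zero] at this
    exact hNN this
  have step : ∀ ρ θ φ : ℝ, Real.cos φ ≠ 0 →
      D N (N + ρ • u θ) ≤ D N (N + (ρ / Real.cos φ) • u (θ + φ)) := by
    intro ρ θ φ hφ
    set Z : E3 := -Real.sin θ • z + Real.cos θ • w with hZ
    have hZZ : inner ℝ Z Z = inner ℝ z z := by
      simp only [hZ, inner_add_right, inner_add_left, inner_smul_right, inner_smul_left,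
        conj_trivial, w2, w2', w3]
      linear_combination (inner ℝ z z) * Real.sin_sq_add_cos_sq θ
    have hZ0 : Z ≠ 0 := by
      intro h0
      rw [h0, inner_zero_left] at hZZ
      exact hzz hZZ.symm
    have a1 : inner ℝ Z N = 0 := by
      rw [real_inner_comm]
      simp only [hZ, inner_add_right, inner_smul_right, hz, w1]; ring
    have a2 : inner ℝ Z (N + ρ • u θ) = 0 := by
      rw [inner_add_right, a1]
      simp only [hZ, hu, inner_add_right, inner_add_left, inner_smul_right, inner_smul_left,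
        conj_trivial, w2, w2', w3]
      ring
    have e : (1 : ℝ) • (N + ρ • u θ) + (ρ * Real.sin φ / Real.cos φ) • Z
        = N + (ρ / Real.cos φ) • u (θ + φ) := by
      simp only [hZ, hu, Real.cos_add, Real.sin_add, one_smul, smul_add, smul_smul]
      have c1 : ρ / Real.cos φ * (Real.cos θ * Real.cos φ - Real.sin θ * Real.sin φ)
          = ρ * Real.cos θ + ρ * Real.sin φ / Real.cos φ * -Real.sin θ := by
        field_simp; ring
      have c2 : ρ / Real.cos φ * (Real.sin θ * Real.cos φ + Real.cos θ * Real.sin φ)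
          = ρ * Real.sin θ + ρ * Real.sin φ / Real.cos φ * Real.cos θ := by
        field_simp
      rw [c1, c2]
      module
    have hX := hne ρ _ (hNu θ)
    have := h.foot_le hP hN hX hZ0 ((H _ _ hZ0 hN).2 a1) ((H _ _ hZ0 hX).2 a2)
      (a := 1) (b := ρ * Real.sin φ / Real.cos φ) (by rw [e]; exact hne _ _ (hNu _))
    rwa [e] at this
  have iter : ∀ φ : ℝ, Real.cos φ ≠ 0 → ∀ j : ℕ,
      D N (N + z) ≤ D N (N + (Real.cos φ ^ j)⁻¹ • u (j * φ)) := by
    intro φ hφ j
    induction j with
    | zero => simp [hu]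
    | succ j ih =>
      refine ih.trans ((step _ _ φ hφ).trans_eq ?_)
      congr 3
      · rw [pow_succ]; field_simp
      · push_cast; ring_nf
  have lim : Tendsto (fun k : ℕ => D N (N + (Real.cos (Real.pi / k) ^ k)⁻¹ • (-z))) atTop
      (𝓝 (D N (N - z))) := by
    have a1 : ContinuousAt (fun c : ℝ => D N (N + c • (-z))) 1 :=
      ContinuousAt.comp (f := fun c : ℝ => N + c • (-z))
        (h.cont _ _ hN (hne 1 _ (by rw [inner_neg_right, hz, neg_zero]))) (by fun_prop)
    have a2 := tendsto_cos_pow.inv₀ one_ne_zero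
    rw [inv_one] at a2
    have a3 := a1.tendsto.comp a2
    simpa [sub_eq_add_neg, Function.comp_def] using a3
  refine ge_of_tendsto lim ?_
  filter_upwards [eventually_ge_atTop 3] with k hk
  have hk3 : (3 : ℝ) ≤ k := by exact_mod_cast hk
  have hcos : Real.cos (Real.pi / k) ≠ 0 := by
    refine (Real.cos_pos_of_mem_Ioo ⟨?_, ?_⟩).ne'
    · have : 0 ≤ Real.pi / k := by positivity
      linarith [Real.pi_pos]
    · exact div_lt_div_of_pos_left Real.pi_pos (by norm_num) (by linarith)
  have := iter _ hcos k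
  rw [mul_div_cancel₀ _ (by linarith : (k : ℝ) ≠ 0)] at this
  simpa [hu] using this

lemma reflect (h : PM D L)
    (H : ∀ x y, x ≠ 0 → y ≠ 0 → (D x y = L / 2 ↔ inner ℝ x y = 0))
    {N z : E3} (hN : N ≠ 0) (hz : inner ℝ N z = 0) : D N (N + z) = D N (N - z) := by
  refine le_antisymm (h.reflect_le H hN hz) ?_
  have := h.reflect_le H hN (z := -z) (by rw [inner_neg_right, hz, neg_zero])
  rwa [← sub_eq_add_neg, sub_neg_eq_add] at this

lemma on_line_pos (h : PM D L)
    (H : ∀ x y, x ≠ 0 → y ≠ 0 → (D x y = L / 2 ↔ inner ℝ x y = 0))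
    {a b : E3} (ha : inner ℝ a a = 1) (hb : inner ℝ b b = 1) (hab : inner ℝ a b = 0)
    {t : ℝ} (ht : 0 < t) : D a (a + t • b) = L / Real.pi * Real.arctan t := by
  have hba : inner ℝ b a = 0 := by rw [real_inner_comm]; exact hab
  have hb0 : b ≠ 0 := by rintro rfl; simp at hb
  have hi : Ind a b := ind_of_inner (n := a) (by rw [ha]; norm_num) hab hb0
  have ha0 := hi.left_ne
  have hL := h.Lpos
  have hpi := Real.pi_pos
  obtain ⟨s, hm, hc, hs, hsurj, hdd, hdb⟩ := h.line a b hi
  have s0 : s 0 = L / 2 := by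
    have := hdb 0
    rw [zero_smul, add_zero, (H b a hb0 ha0).2 hba] at this
    exact half_of_min this.symm
  set c : ℝ → E3 := fun θ => Real.cos θ • a + Real.sin θ • b with hcdef
  have cpos : ∀ θ, 0 ≤ θ → θ < Real.pi / 2 → 0 < Real.cos θ := fun θ h1 h2 =>
    Real.cos_pos_of_mem_Ioo ⟨by linarith, h2⟩
  have ce : ∀ θ, 0 < Real.cos θ → c θ = Real.cos θ • (a + Real.tan θ • b) := by
    intro θ hθ
    simp only [hcdef, smul_add, smul_smul, Real.tan_eq_sin_div_cos]
    rw [mul_div_cancel₀ _ hθ.ne']
  have cd : ∀ x y, 0 < Real.cos x → 0 < Real.cos y → D (c x) (c y) =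
      min |s (Real.tan x) - s (Real.tan y)| (L - |s (Real.tan x) - s (Real.tan y)|) := by
    intro x y hx hy
    rw [ce x hx, ce y hy, h.smul_left _ _ _ hx.ne' (hi.add_smul_ne _)
      (smul_ne_zero hy.ne' (hi.add_smul_ne _)),
      h.smul_right hy.ne' (hi.add_smul_ne _) (hi.add_smul_ne _), hdd]
  have mid : ∀ x y, 0 ≤ x → x < y → y < Real.pi / 2 →
      s (Real.tan x) + s (Real.tan y) = 2 * s (Real.tan ((x + y) / 2)) := by
    intro x y hx hxy hy
    set m := (x + y) / 2 with hmdef
    set α := (y - x) / 2 with hα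
    have hm0 := cpos m (by linarith) (by linarith)
    have hα0 := cpos α (by linarith) (by linarith)
    have hx0 := cpos x hx (by linarith)
    have hy0 := cpos y (by linarith) hy
    have hcm : c m ≠ 0 := by rw [ce m hm0]; exact smul_ne_zero hm0.ne' (hi.add_smul_ne _)
    have hcx : c x ≠ 0 := by rw [ce x hx0]; exact smul_ne_zero hx0.ne' (hi.add_smul_ne _)
    have hcy : c y ≠ 0 := by rw [ce y hy0]; exact smul_ne_zero hy0.ne' (hi.add_smul_ne _)
    have r := h.reflect H (N := Real.cos α • c m)
      (z := Real.sin α • (-Real.sin m • a + Real.cos m • b)) (smul_ne_zero hα0.ne' hcm) (by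
        simp only [hcdef, inner_add_right, inner_add_left, inner_smul_right, inner_smul_left,
          conj_trivial, ha, hb, hab, hba]
        ring)
    have e1 : Real.cos α • c m + Real.sin α • (-Real.sin m • a + Real.cos m • b) = c y := by
      have : y = m + α := by rw [hmdef, hα]; ring
      rw [this]
      simp only [hcdef, Real.cos_add, Real.sin_add]
      module
    have e2 : Real.cos α • c m - Real.sin α • (-Real.sin m • a + Real.cos m • b) = c x := by
      have : x = m - α := by rw [hmdef, hα]; ring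
      rw [this]
      simp only [hcdef, Real.cos_sub, Real.sin_sub]
      module
    rw [e1, e2, h.smul_left _ _ _ hα0.ne' hcm hcy, h.smul_left _ _ _ hα0.ne' hcm hcx,
      cd m y hm0 hy0, cd m x hm0 hx0] at r
    have t1 : s (Real.tan x) < s (Real.tan m) :=
      hm (Real.tan_lt_tan_of_nonneg_of_lt_pi_div_two hx (by linarith) (by linarith))
    have t2 : s (Real.tan m) < s (Real.tan y) :=
      hm (Real.tan_lt_tan_of_nonneg_of_lt_pi_div_two (by linarith) hy (by linarith))
    rw [abs_of_neg (by linarith), abs_of_pos (by linarith)] at r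
    have b1 := (hs (Real.tan x)).1
    have b2 := (hs (Real.tan y)).2
    rcases min_eq_iff.1 r with r1 | r1 <;> rcases min_cases (s (Real.tan m) - s (Real.tan x))
      (L - (s (Real.tan m) - s (Real.tan x))) with r2 | r2 <;> linarith [r1.1, r1.2, r2.1, r2.2]
  have aff : ∀ x q, 0 < x → x ≤ q → q < Real.pi / 2 →
      (s (Real.tan x) - L / 2) * q = (s (Real.tan q) - L / 2) * x := by
    intro x q hx hxq hq
    have := midpoint_affine (f := fun θ => s (Real.tan θ)) (q := q)
      (fun θ hθ => (hc.continuousAt.comp (Real.continuousAt_tan.2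
        (cpos θ hθ.1 (by linarith [hθ.2])).ne')).continuousWithinAt)
      (fun x y h1 h2 h3 => mid x y h1 h2 (by linarith)) (x := x) ⟨hx.le, hxq⟩
    simpa only [Real.tan_zero, s0] using this
  set θ := Real.arctan t with hθ
  have θ0 : 0 < θ := Real.arctan_pos.2 ht
  have θ1 : θ < Real.pi / 2 := Real.arctan_lt_pi_div_two t
  set k := (s t - L / 2) / θ with hk
  have lin : ∀ q, 0 < q → q < Real.pi / 2 → s (Real.tan q) - L / 2 = k * q := by
    intro q h1 h2
    rw [hk, div_mul_eq_mul_div, eq_div_iff θ0.ne']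
    rcases le_total θ q with h3 | h3
    · have := aff θ q θ0 h3 h2
      rw [hθ, Real.tan_arctan] at this
      rw [hθ]
      linarith
    · have := aff q θ h1 h3 θ1
      rw [hθ, Real.tan_arctan] at this
      rw [hθ]
      linarith
  have st : L / 2 < s t := by rw [← s0]; exact hm ht
  have k0 : 0 < k := div_pos (by linarith) θ0
  have k1 : k * (Real.pi / 2) ≤ L / 2 := by
    by_contra hlt
    push Not at hlt
    have a1 : L / 2 / k < Real.pi / 2 := by rw [div_lt_iff₀ k0]; linarith
    have a2 := lin (L / 2 / k) (by positivity) a1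
    rw [mul_div_cancel₀ _ k0.ne'] at a2
    linarith [(hs (Real.tan (L / 2 / k))).2]
  have k2 : L / 2 ≤ k * (Real.pi / 2) := by
    by_contra hlt
    push Not at hlt
    have hk0 : 0 < k * (Real.pi / 2) := by positivity
    obtain ⟨u, hu⟩ := hsurj (L / 2 + k * (Real.pi / 2)) (by linarith) (by linarith)
    have hu0 : 0 < u := hm.lt_iff_lt.1 (by linarith)
    have a1 := lin (Real.arctan u) (Real.arctan_pos.2 hu0) (Real.arctan_lt_pi_div_two u)
    rw [Real.tan_arctan, hu] at a1
    have a2 := mul_lt_mul_of_pos_left (Real.arctan_lt_pi_div_two u) k0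
    linarith
  have ke : k = L / Real.pi := by
    rw [eq_div_iff hpi.ne']; linarith
  have := hdd 0 t
  rw [zero_smul, add_zero, s0, abs_of_neg (by linarith),
    min_eq_left (by linarith [(hs t).2])] at this
  rw [this, ← ke, hk, div_mul_cancel₀ _ θ0.ne']
  ring

theorem elliptic (h : PM D L)
    (H : ∀ x y, x ≠ 0 → y ≠ 0 → (D x y = L / 2 ↔ inner ℝ x y = 0))
    {x y : E3} (hx : x ∈ Metric.sphere (0 : E3) 1) (hy : y ∈ Metric.sphere (0 : E3) 1) :
    Real.pi / L * D x y = Real.arccos |inner ℝ x y| := by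
  have hL := h.Lpos
  have hpi := Real.pi_pos
  have hx0 := ne_of_mem_sphere hx
  have hy0 := ne_of_mem_sphere hy
  have hx1 : ‖x‖ = 1 := by simpa using hx
  have hy1 : ‖y‖ = 1 := by simpa using hy
  have hxx : inner ℝ x x = 1 := by rw [real_inner_self_eq_norm_sq, hx1]; norm_num
  have hyy : inner ℝ y y = 1 := by rw [real_inner_self_eq_norm_sq, hy1]; norm_num
  have key : ∀ y : E3, ‖y‖ = 1 → 0 < inner ℝ x y →
      Real.pi / L * D x y = Real.arccos (inner ℝ x y) := by
    intro y hy1 hc
    have hyy : inner ℝ y y = 1 := by rw [real_inner_self_eq_norm_sq, hy1]; norm_num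
    set c : ℝ := inner ℝ x y with hcdef
    set w := y - c • x with hw
    have hyx : inner ℝ y x = c := real_inner_comm _ _
    have hxw : inner ℝ x w = 0 := by
      rw [hw, inner_sub_right, inner_smul_right, hxx]; ring
    have hww : ‖w‖ ^ 2 = 1 - c ^ 2 := by
      rw [← real_inner_self_eq_norm_sq, hw]
      simp only [inner_sub_right, inner_sub_left, inner_smul_right, inner_smul_left,
        conj_trivial, hxx, hyy, hyx, ← hcdef]
      ring
    by_cases hw0 : w = 0
    · have e : y = c • x := sub_eq_zero.1 hw0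
      rw [hw0, norm_zero] at hww
      have c1 : c = 1 := by nlinarith
      rw [e, h.smul_right hc.ne' hx0 hx0, h.self x hx0, c1, Real.arccos_one, mul_zero]
    · have hwn : 0 < ‖w‖ := norm_pos_iff.2 hw0
      have hb : ‖nrm w‖ = 1 := by simpa using nrm_mem hw0
      have a1 := h.on_line_pos H (a := x) (b := nrm w) hxx
        (by rw [real_inner_self_eq_norm_sq, hb]; norm_num)
        (by rw [nrm, inner_smul_right, hxw, mul_zero]) (t := ‖w‖ / c) (by positivity)
      have e : y = c • (x + (‖w‖ / c) • nrm w) := by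
        rw [nrm, smul_add, smul_smul, smul_smul]
        have : c * (‖w‖ / c) * ‖w‖⁻¹ = 1 := by field_simp
        rw [this, one_smul, hw]; abel
      have hne : x + (‖w‖ / c) • nrm w ≠ 0 := by
        intro h0
        rw [h0, smul_zero] at e
        rw [e, norm_zero] at hy1
        norm_num at hy1
      have a2 : D x y = L / Real.pi * Real.arctan (‖w‖ / c) := by
        rw [← a1]
        conv_lhs => rw [e]
        exact h.smul_right hc.ne' hx0 hne
      rw [a2, Real.arccos_eq_arctan hc, ← hww, Real.sqrt_sq hwn.le]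
      field_simp
  rcases lt_trichotomy (inner ℝ x y) 0 with hc | hc | hc
  · have := key (-y) (by rw [norm_neg, hy1]) (by rw [inner_neg_right]; linarith)
    rw [h.neg_right hx0 hy0, inner_neg_right] at this
    rw [this, abs_of_neg hc]
  · rw [hc, abs_zero, Real.arccos_zero, (H x y hx0 hy0).2 hc]
    field_simp
  · rw [key y hy1 hc, abs_of_pos hc]

end PM

end Pool.Agent.P.MP_ec5bc9_gt
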