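import Pool.Agent.P.MP_ec5bc9_gt.ProjPole

/-! The polarity is given by a Euclidean form. -/

set_option autoImplicit false

namespace Pool.Agent.P.MP_ec5bc9_gt

open Set Filter Topology

/-- Every point has a polar line. -/
def Polar (D : E3 → E3 → ℝ) (L : ℝ) : Prop :=
  ∀ x : E3, x ≠ 0 → ∃ n : E3, inner ℝ n x ≠ 0 ∧ ∀ y, y ≠ 0 → (D x y = L / 2 ↔ inner ℝ n y = 0)

/-- Strict triangle inequality. -/
def Strict (D : E3 → E3 → ℝ) : Prop :=
  ∀ x y z : E3, LinearIndependent ℝ ![x, y, z] → D x z < D x y + D y z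

lemma ne_of_inner_ne {n x : E3} (h : inner ℝ n x ≠ 0) : n ≠ 0 := by
  rintro rfl; exact h (inner_zero_left _)

lemma ind_dual {p q x z : E3} (h1 : inner ℝ p x ≠ 0) (h2 : inner ℝ q x = 0)
    (h3 : inner ℝ p z = 0) (h4 : inner ℝ q z ≠ 0) : Ind p q := by
  intro s t hst
  have a1 : inner ℝ (s • p + t • q) x = 0 := by rw [hst, inner_zero_left]
  have a2 : inner ℝ (s • p + t • q) z = 0 := by rw [hst, inner_zero_left]
  simp only [inner_add_left, inner_smul_left, h2, h3, conj_trivial, mul_zero, add_zero,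
    zero_add] at a1 a2
  exact ⟨(mul_eq_zero.1 a1).resolve_right h1, (mul_eq_zero.1 a2).resolve_right h4⟩

/-- Standard basis vector `e₀`. -/
noncomputable def e0 : E3 := WithLp.toLp 2 ![1, 0, 0]

lemma inner_e0 (y : E3) : inner ℝ e0 y = y 0 := by simp [inner3, e0]

lemma e0_ne : e0 ≠ 0 := by
  intro h0
  have := congrArg (fun v : E3 => v 0) h0
  simp [e0] at this

namespace PM

variable {D : E3 → E3 → ℝ} {L : ℝ}

lemma ind_of_pos (h : PM D L) {x y : E3} (hx : x ≠ 0) (hy : y ≠ 0) (hd : 0 < D x y) :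
    Ind x y := by
  rcases ind_or_smul hx y with hxy | ⟨c, hc⟩
  · exact hxy
  · have hc0 : c ≠ 0 := by
      rintro rfl
      exact hy (by rw [hc, zero_smul])
    rw [hc, h.smul_right hc0 hx hx, h.self x hx] at hd
    exact absurd hd (lt_irrefl _)

lemma half_of_min {L u : ℝ} (hu : min u (L - u) = L / 2) : u = L / 2 := by
  rcases min_eq_iff.1 hu with h1 | h1 <;> linarith [h1.1]

lemma antipodal (h : PM D L) {N Y : E3} (hN : N ≠ 0) (hY : Y ≠ 0) (hd : D N Y = L / 2)
    {α β : ℝ} (hX : α • N + β • Y ≠ 0) :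
    D N (α • N + β • Y) + D (α • N + β • Y) Y = L / 2 := by
  have hi : Ind N Y := h.ind_of_pos hN hY (by linarith [h.Lpos])
  by_cases hβ : β = 0
  · rw [hβ, zero_smul, add_zero] at hX ⊢
    have hα : α ≠ 0 := by rintro rfl; exact hX (zero_smul _ _)
    rw [h.smul_right hα hN hN, h.smul_left _ _ _ hα hN hY, h.self N hN, hd, zero_add]
  · have e : α • N + β • Y = β • (Y + (α / β) • N) := by
      rw [smul_add, smul_smul, mul_div_cancel₀ _ hβ, add_comm]
    have hne := hi.symm.add_smul_ne (α / β)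
    rw [e, h.smul_right hβ hN hne, h.smul_left _ _ _ hβ hne hY]
    obtain ⟨s, -, -, hs, -, hdd, hb⟩ := h.line Y N hi.symm
    have a0 := hb 0
    have a1 := hdd (α / β) 0
    rw [zero_smul, add_zero] at a0 a1
    rw [hd] at a0
    rw [a1, hb, half_of_min a0.symm]
    have := hs (α / β)
    rcases le_total (s (α / β)) (L / 2) with h1 | h1
    · rw [abs_of_nonpos (by linarith), min_eq_left (by linarith), min_eq_left (by linarith)]
      ring
    · rw [abs_of_nonneg (by linarith), min_eq_right (by linarith), min_eq_left (by linarith)]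
      ring

/-- The pole of the line `XZ`. -/
lemma foot_aux (h : PM D L) (hP : Polar D L) {N X Z : E3} (hN : N ≠ 0) (hX : X ≠ 0) (hZ : Z ≠ 0)
    (hZN : D Z N = L / 2) (hZX : D Z X = L / 2) :
    ∃ R p : E3, R ≠ 0 ∧ D R N + D N X = L / 2 ∧
      (∀ a b : ℝ, a • X + b • Z ≠ 0 → D R (a • X + b • Z) = L / 2) ∧
      inner ℝ p R = 0 ∧ inner ℝ p N = 0 ∧ inner ℝ p X = 0 ∧ inner ℝ p Z ≠ 0 := by
  obtain ⟨pX, hpX, hpX'⟩ := hP X hX
  obtain ⟨pZ, hpZ, hpZ'⟩ := hP Z hZ
  have a1 : inner ℝ pX Z = 0 := (hpX' Z hZ).1 (by rw [h.symm X Z hX hZ, hZX])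
  have a2 : inner ℝ pZ X = 0 := (hpZ' X hX).1 hZX
  have a3 : inner ℝ pZ N = 0 := (hpZ' N hN).1 hZN
  have hi : Ind pX pZ := ind_dual hpX a2 a1 hpZ
  set R := crs pX pZ with hR
  have hR0 : R ≠ 0 := hi.crs_ne
  have b1 : inner ℝ pX R = 0 := by rw [real_inner_comm]; exact inner_crs_left _ _
  have b2 : inner ℝ pZ R = 0 := by rw [real_inner_comm]; exact inner_crs_right _ _
  have c1 : D R X = L / 2 := by rw [h.symm R X hR0 hX]; exact (hpX' R hR0).2 b1
  have c2 : D R Z = L / 2 := by rw [h.symm R Z hR0 hZ]; exact (hpZ' R hR0).2 b2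
  obtain ⟨pR, hpR, hpR'⟩ := hP R hR0
  have hRX : Ind R X := h.ind_of_pos hR0 hX (by linarith [h.Lpos])
  obtain ⟨α, β, hαβ⟩ := hRX.span_of_perp (ne_of_inner_ne hpZ) b2 a2 a3
  refine ⟨R, pZ, hR0, ?_, fun a b hab => (hpR' _ hab).2 ?_, b2, a3, a2, hpZ⟩
  · have := h.antipodal hR0 hX c1 (α := α) (β := β) (by rw [← hαβ]; exact hN)
    rwa [← hαβ] at this
  · rw [inner_add_right, inner_smul_right, inner_smul_right, (hpR' X hX).1 c1, (hpR' Z hZ).1 c2]
    ring

lemma foot_le (h : PM D L) (hP : Polar D L) {N X Z : E3} (hN : N ≠ 0) (hX : X ≠ 0) (hZ : Z ≠ 0)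
    (hZN : D Z N = L / 2) (hZX : D Z X = L / 2) {a b : ℝ} (hab : a • X + b • Z ≠ 0) :
    D N X ≤ D N (a • X + b • Z) := by
  obtain ⟨R, p, hR, h1, h2, -⟩ := h.foot_aux hP hN hX hZ hZN hZX
  have := h.tri R N _ hR hN hab
  rw [h2 a b hab] at this
  linarith

lemma foot_lt (h : PM D L) (hP : Polar D L) (hS : Strict D) {N X Z : E3} (hN : N ≠ 0)
    (hX : X ≠ 0) (hZ : Z ≠ 0) (hZN : D Z N = L / 2) (hZX : D Z X = L / 2) (hNX : D N X < L / 2)
    {a b : ℝ} (hb : b ≠ 0) (hab : a • X + b • Z ≠ 0) : D N X < D N (a • X + b • Z) := by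
  obtain ⟨R, p, hR, h1, h2, p1, p2, p3, p4⟩ := h.foot_aux hP hN hX hZ hZN hZX
  have hRN : Ind R N := h.ind_of_pos hR hN (by linarith)
  have hli : LinearIndependent ℝ ![R, N, a • X + b • Z] := by
    rw [Fintype.linearIndependent_iff]
    intro g hg
    simp only [Fin.sum_univ_three, Matrix.cons_val_zero, Matrix.cons_val_one,
      Matrix.cons_val] at hg
    have e : inner ℝ p (g 0 • R + g 1 • N + g 2 • (a • X + b • Z)) = 0 := by
      rw [hg, inner_zero_right]
    simp only [inner_add_right, inner_smul_right, p1, p2, p3, mul_zero, zero_add] at e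
    have g2 : g 2 = 0 := (mul_eq_zero.1 e).resolve_right (mul_ne_zero hb p4)
    rw [g2, zero_smul, add_zero] at hg
    have := hRN _ _ hg
    intro i
    fin_cases i
    · exact this.1
    · exact this.2
    · exact g2
  have := hS _ _ _ hli
  rw [h2 a b hab] at this
  linarith

/-- Coordinates in which the polarity is standard on one line and on one circle. -/
theorem exists_coords (h : PM D L) (hC : Conic D) (hS : Strict D) :
    ∃ P : E3 ≃ₗ[ℝ] E3,
      (∀ y, y ≠ 0 → (D (P e0) (P y) = L / 2 ↔ y 0 = 0)) ∧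
      (∀ z z', z ≠ 0 → z' ≠ 0 → z 0 = 0 → z' 0 = 0 → D (P z) (P z') = L / 2 →
        inner ℝ z z' = 0) ∧
      (∀ z : E3, z 0 = 0 → z 1 ^ 2 + z 2 ^ 2 = 1 → D (P (e0 + z)) (P (e0 - z)) = L / 2) := by
  have hP : Polar D L := fun x hx => h.exists_polar hC hx
  have hL := h.Lpos
  set N := e0 with hNdef
  have hN : N ≠ 0 := e0_ne
  obtain ⟨n, hnN, hn⟩ := hP N hN
  obtain ⟨B, hBs, hB⟩ := hC n N hnN
  have hq : ∀ X, X ≠ 0 → (B X X = 0 ↔ D N X = L / 4) := by
    intro X hX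
    have e : lineDist D n X = L / 2 - D N X := by
      apply le_antisymm
      · have : ∃ (Y : E3) (α β : ℝ), Y ≠ 0 ∧ inner ℝ n Y = 0 ∧ X = α • N + β • Y := by
          by_cases h0 : X - (inner ℝ n X / inner ℝ n N : ℝ) • N = 0
          · obtain ⟨Y, hY⟩ := exists_perp n
            exact ⟨Y, inner ℝ n X / inner ℝ n N, 0, hY.1, hY.2, by
              rw [zero_smul, add_zero]; exact sub_eq_zero.1 h0⟩
          · refine ⟨_, inner ℝ n X / inner ℝ n N, 1, h0, ?_, by simp⟩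
            rw [inner_sub_right, inner_smul_right, div_mul_cancel₀ _ hnN, sub_self]
        obtain ⟨Y, α, β, hY, hnY, hXe⟩ := this
        have a1 := h.antipodal hN hY ((hn Y hY).2 hnY) (α := α) (β := β)
          (by rw [← hXe]; exact hX)
        rw [← hXe] at a1
        linarith [h.lineDist_le hX hY hnY]
      · refine le_lineDist fun Y hY hnY => ?_
        linarith [h.tri N X Y hN hX hY, (hn Y hY).2 hnY]
    rw [← hB X hX, e, h.symm X N hX hN]
    constructor <;> intro h1 <;> linarith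
  have hqN : B N N ≠ 0 := by
    intro h0
    have := (hq N hN).1 h0
    rw [h.self N hN] at this
    linarith
  have hqZ : ∀ Z, Z ≠ 0 → D N Z = L / 2 → B Z Z ≠ 0 := by
    intro Z hZ hd h0
    have := (hq Z hZ).1 h0
    linarith
  have hT : ∀ X Z, X ≠ 0 → Z ≠ 0 → B X X = 0 → D Z N = L / 2 → D Z X = L / 2 → B X Z = 0 := by
    intro X Z hX hZ hXX hZN hZX
    by_contra hne
    have hZZ := hqZ Z hZ (by rw [h.symm N Z hN hZ, hZN])
    have hi : Ind X Z := (h.ind_of_pos hZ hX (by linarith)).symm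
    set t := -2 * B X Z / B Z Z with ht
    have ht0 : t ≠ 0 := div_ne_zero (mul_ne_zero (by norm_num) hne) hZZ
    have hY := hi.add_smul_ne t
    have a0 := (hq X hX).1 hXX
    have a1 := h.foot_lt hP hS hN hX hZ hZN hZX (by linarith) (a := 1) ht0
      (by rw [one_smul]; exact hY)
    rw [one_smul] at a1
    have a2 : B (X + t • Z) (X + t • Z) = 0 := by
      simp only [map_add, map_smul, LinearMap.add_apply, LinearMap.smul_apply, smul_eq_mul, hXX,
        hBs Z X]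
      rw [ht]
      field_simp
      ring
    linarith [(hq _ hY).1 a2]
  have hQ : ∀ Z, Z ≠ 0 → inner ℝ n Z = 0 → ∃ t1 t2 : ℝ, t1 < 0 ∧ 0 < t2 ∧
      B (N + t1 • Z) (N + t1 • Z) = 0 ∧ B (N + t2 • Z) (N + t2 • Z) = 0 ∧
      D (N + t1 • Z) (N + t2 • Z) = L / 2 := by
    intro Z hZ hnZ
    have hi : Ind N Z := ind_of_inner hnN hnZ hZ
    obtain ⟨s, hm, -, -, hsurj, hdd, hb⟩ := h.line N Z hi
    have a0 := hb 0
    rw [zero_smul, add_zero, h.symm Z N hZ hN, (hn Z hZ).2 hnZ] at a0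
    have a1 := half_of_min a0.symm
    obtain ⟨t1, ht1⟩ := hsurj (L / 4) (by linarith) (by linarith)
    obtain ⟨t2, ht2⟩ := hsurj (3 * L / 4) (by linarith) (by linarith)
    refine ⟨t1, t2, hm.lt_iff_lt.1 (by linarith), hm.lt_iff_lt.1 (by linarith),
      (hq _ (hi.add_smul_ne t1)).2 ?_, (hq _ (hi.add_smul_ne t2)).2 ?_, ?_⟩
    · have := hdd 0 t1
      rw [zero_smul, add_zero] at this
      rw [this, a1, ht1, abs_of_nonneg (by linarith), min_eq_left (by linarith)]; ring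
    · have := hdd 0 t2
      rw [zero_smul, add_zero] at this
      rw [this, a1, ht2, abs_of_nonpos (by linarith), min_eq_left (by linarith)]; ring
    · rw [hdd, ht1, ht2, abs_of_nonpos (by linarith), min_eq_left (by linarith)]; ring
  have hO : ∀ Z Z', Z ≠ 0 → Z' ≠ 0 → inner ℝ n Z = 0 → inner ℝ n Z' = 0 → D Z Z' = L / 2 →
      B N Z = 0 ∧ B Z' Z = 0 := by
    intro Z Z' hZ hZ' hnZ hnZ' hd
    obtain ⟨t1, t2, ht1, ht2, b1, b2, -⟩ := hQ Z' hZ' hnZ'
    have hi : Ind N Z' := ind_of_inner hnN hnZ' hZ'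
    obtain ⟨p, -, hp⟩ := hP Z hZ
    have hZN : D Z N = L / 2 := by rw [h.symm Z N hZ hN]; exact (hn Z hZ).2 hnZ
    have c : ∀ t : ℝ, D Z (N + t • Z') = L / 2 := fun t => (hp _ (hi.add_smul_ne t)).2 (by
      rw [inner_add_right, inner_smul_right, (hp N hN).1 hZN, (hp Z' hZ').1 hd]; ring)
    have d1 := hT _ Z (hi.add_smul_ne t1) hZ b1 hZN (c t1)
    have d2 := hT _ Z (hi.add_smul_ne t2) hZ b2 hZN (c t2)
    simp only [map_add, map_smul, LinearMap.add_apply, LinearMap.smul_apply, smul_eq_mul] at d1 d2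
    have e : (t2 - t1) * B Z' Z = 0 := by linarith
    have e' : B Z' Z = 0 := (mul_eq_zero.1 e).resolve_left (by linarith)
    rw [e', mul_zero, add_zero] at d1
    exact ⟨d1, e'⟩
  have hpart : ∀ Z, Z ≠ 0 → inner ℝ n Z = 0 →
      ∃ Z', Z' ≠ 0 ∧ inner ℝ n Z' = 0 ∧ D Z Z' = L / 2 := by
    intro Z hZ hnZ
    obtain ⟨p, hpZ, hp⟩ := hP Z hZ
    have hZN : D Z N = L / 2 := by rw [h.symm Z N hZ hN]; exact (hn Z hZ).2 hnZ
    have hi : Ind n p := ind_dual hnN ((hp N hN).1 hZN) hnZ hpZ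
    exact ⟨crs n p, hi.crs_ne, by rw [real_inner_comm]; exact inner_crs_left _ _,
      (hp _ hi.crs_ne).2 (by rw [real_inner_comm]; exact inner_crs_right _ _)⟩
  have F1 : ∀ Z, Z ≠ 0 → inner ℝ n Z = 0 → B N Z = 0 := by
    intro Z hZ hnZ
    obtain ⟨Z', h1, h2, h3⟩ := hpart Z hZ hnZ
    exact (hO Z Z' hZ h1 hnZ h2 h3).1
  have F3 : ∀ Z, Z ≠ 0 → inner ℝ n Z = 0 → ∃ t : ℝ, 0 < t ∧ B N N + t ^ 2 * B Z Z = 0 ∧
      D (N + t • Z) (N - t • Z) = L / 2 := by
    intro Z hZ hnZ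
    obtain ⟨t1, t2, ht1, ht2, b1, b2, hd⟩ := hQ Z hZ hnZ
    have hi : Ind N Z := ind_of_inner hnN hnZ hZ
    have hZZ := hqZ Z hZ ((hn Z hZ).2 hnZ)
    simp only [map_add, map_smul, LinearMap.add_apply, LinearMap.smul_apply, smul_eq_mul,
      hBs Z N, F1 Z hZ hnZ, mul_zero, add_zero, zero_add] at b1 b2
    have e : (t2 - t1) * ((t1 + t2) * B Z Z) = 0 := by linear_combination b2 - b1
    have e' : t1 = -t2 := by
      have := (mul_eq_zero.1 ((mul_eq_zero.1 e).resolve_left (by linarith))).resolve_right hZZ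
      linarith
    refine ⟨t2, ht2, by linear_combination b2, ?_⟩
    rw [h.symm _ _ (hi.add_smul_ne t1) (hi.add_smul_ne t2), e', neg_smul, ← sub_eq_add_neg] at hd
    exact hd
  obtain ⟨W1, hW1, hnW1⟩ := exists_perp n
  obtain ⟨W2, hW2, hnW2, hW12⟩ := hpart W1 hW1 hnW1
  obtain ⟨t1, -, q1, -⟩ := F3 W1 hW1 hnW1
  obtain ⟨t2, -, q2, -⟩ := F3 W2 hW2 hnW2
  have o12 := (hO W1 W2 hW1 hW2 hnW1 hnW2 hW12).2
  set P0 : E3 →ₗ[ℝ] E3 :=
    { toFun := fun x => x 0 • N + x 1 • (t1 • W1) + x 2 • (t2 • W2)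
      map_add' := fun x y => by simp only [PiLp.add_apply, add_smul]; abel
      map_smul' := fun c x => by
        simp only [PiLp.smul_apply, smul_eq_mul, RingHom.id_apply, smul_add, mul_smul] } with hP0
  have P0e : ∀ x, P0 x = x 0 • N + x 1 • (t1 • W1) + x 2 • (t2 • W2) := fun x => rfl
  have hBP : ∀ x y, B (P0 x) (P0 y) = B N N * (x 0 * y 0 - x 1 * y 1 - x 2 * y 2) := by
    intro x y
    simp only [P0e, map_add, map_smul, LinearMap.add_apply, LinearMap.smul_apply, smul_eq_mul,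
      hBs W1 N, hBs W2 N, hBs W1 W2, F1 W1 hW1 hnW1, F1 W2 hW2 hnW2, o12]
    linear_combination (x 1 * y 1) * q1 + (x 2 * y 2) * q2
  have hnP : ∀ x, inner ℝ n (P0 x) = x 0 * inner ℝ n N := by
    intro x
    simp only [P0e, inner_add_right, inner_smul_right, hnW1, hnW2]; ring
  have hinj : Function.Injective P0 := by
    rw [injective_iff_map_eq_zero]
    intro x hx
    have := hBP x (WithLp.toLp 2 ![x 0, -x 1, -x 2])
    rw [hx, map_zero, LinearMap.zero_apply] at this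
    have e := (mul_eq_zero.1 this.symm).resolve_left hqN
    simp at e
    apply ext3 <;> simp <;> nlinarith [mul_self_nonneg (x 0), mul_self_nonneg (x 1),
      mul_self_nonneg (x 2)]
  have hP0ne : ∀ x, x ≠ 0 → P0 x ≠ 0 := fun x hx h0 => hx (hinj (by rw [h0, map_zero]))
  have hPe0 : P0 e0 = N := by simp [P0e, e0]
  refine ⟨LinearEquiv.ofInjectiveEndo P0 hinj, ?_, ?_, ?_⟩
  · intro y hy
    simp only [LinearEquiv.coe_ofInjectiveEndo]
    rw [hPe0, hn _ (hP0ne y hy), hnP, mul_eq_zero, or_iff_left hnN]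
  · intro z z' hz hz' h0 h0' hd
    simp only [LinearEquiv.coe_ofInjectiveEndo] at hd
    have := (hO _ _ (hP0ne z hz) (hP0ne z' hz') (by rw [hnP, h0, zero_mul])
      (by rw [hnP, h0', zero_mul]) hd).2
    rw [hBP] at this
    have e := (mul_eq_zero.1 this).resolve_left hqN
    rw [inner3, h0]
    rw [h0] at e
    linarith
  · intro z h0 h1
    simp only [LinearEquiv.coe_ofInjectiveEndo]
    have hz : z ≠ 0 := by
      rintro rfl
      simp at h1
    obtain ⟨t, ht, a1, a2⟩ := F3 _ (hP0ne z hz) (by rw [hnP, h0, zero_mul])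
    rw [hBP, h0] at a1
    have e : B N N * (1 - t ^ 2) = 0 := by linear_combination a1 + B N N * t ^ 2 * h1
    have e' : t = 1 := by
      have := (mul_eq_zero.1 e).resolve_left hqN
      nlinarith
    rw [e', one_smul] at a2
    rw [map_add, map_sub, hPe0]
    exact a2

lemma comp (h : PM D L) (P : E3 ≃ₗ[ℝ] E3) : PM (fun x y => D (P x) (P y)) L := by
  have hne : ∀ x, x ≠ 0 → P x ≠ 0 := fun x hx => by simpa using hx
  have hc : Continuous P := P.toLinearMap.continuous_of_finiteDimensional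
  refine ⟨h.Lpos, fun x y hx hy => h.symm _ _ (hne x hx) (hne y hy), fun x y c hc hx hy => ?_,
    fun x hx => h.self _ (hne x hx),
    fun x y z hx hy hz => h.tri _ _ _ (hne x hx) (hne y hy) (hne z hz),
    fun x y hx hy => (h.cont _ _ (hne x hx) (hne y hy)).comp hc.continuousAt, ?_⟩
  · simp only [map_smul]
    exact h.smul_left _ _ c hc (hne x hx) (hne y hy)
  · intro a b hab
    have : Ind (P a) (P b) := fun s t hst => hab s t (P.injective (by simpa using hst))
    simpa only [map_add, map_smul] using h.line _ _ this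

lemma polar_comp (hP : Polar D L) (P : E3 ≃ₗ[ℝ] E3) :
    Polar (fun x y => D (P x) (P y)) L := by
  intro x hx
  obtain ⟨n, h1, h2⟩ := hP (P x) (by simpa using hx)
  refine ⟨LinearMap.adjoint P.toLinearMap n, ?_, fun y hy => ?_⟩
  · rw [LinearMap.adjoint_inner_left]; exact h1
  · rw [LinearMap.adjoint_inner_left]; exact h2 (P y) (by simpa using hy)

/-- The polarity is the standard one. -/
theorem std_polarity (h : PM D L) (hP : Polar D L)
    (G0 : ∀ y, y ≠ 0 → (D e0 y = L / 2 ↔ y 0 = 0))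
    (G2 : ∀ z z', z ≠ 0 → z' ≠ 0 → z 0 = 0 → z' 0 = 0 → D z z' = L / 2 → inner ℝ z z' = 0)
    (G3 : ∀ z : E3, z 0 = 0 → z 1 ^ 2 + z 2 ^ 2 = 1 → D (e0 + z) (e0 - z) = L / 2) :
    ∀ x y, x ≠ 0 → y ≠ 0 → (D x y = L / 2 ↔ inner ℝ x y = 0) := by
  have two : ∀ x u v, x ≠ 0 → Ind u v → D x u = L / 2 → D x v = L / 2 → inner ℝ x u = 0 →
      inner ℝ x v = 0 → ∀ y, y ≠ 0 → (D x y = L / 2 ↔ inner ℝ x y = 0) := by
    intro x u v hx hi h1 h2 h3 h4 y hy
    obtain ⟨p, hp, hp'⟩ := hP x hx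
    have a1 := (hp' u hi.left_ne).1 h1
    have a2 := (hp' v hi.right_ne).1 h2
    rw [hp' y hy]
    constructor
    · intro h5
      obtain ⟨s, t, rfl⟩ := hi.span_of_perp (ne_of_inner_ne hp) a1 a2 h5
      rw [inner_add_right, inner_smul_right, inner_smul_right, h3, h4]; ring
    · intro h5
      obtain ⟨s, t, rfl⟩ := hi.span_of_perp hx h3 h4 h5
      rw [inner_add_right, inner_smul_right, inner_smul_right, a1, a2]; ring
  have e00 : inner ℝ e0 e0 ≠ 0 := inner_self_ne_zero.2 e0_ne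
  have S1 : ∀ z, z ≠ 0 → z 0 = 0 → ∀ y, y ≠ 0 → (D z y = L / 2 ↔ inner ℝ z y = 0) := by
    intro z hz hz0
    obtain ⟨p, hp, hp'⟩ := hP z hz
    have a1 : D z e0 = L / 2 := by rw [h.symm z e0 hz e0_ne]; exact (G0 z hz).2 hz0
    have hi : Ind e0 p := ind_dual e00 ((hp' e0 e0_ne).1 a1) (by rw [inner_e0, hz0]) hp
    have b1 : inner ℝ e0 (crs e0 p) = 0 := by rw [real_inner_comm]; exact inner_crs_left _ _
    have b2 : D z (crs e0 p) = L / 2 :=
      (hp' _ hi.crs_ne).2 (by rw [real_inner_comm]; exact inner_crs_right _ _)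
    exact two z e0 (crs e0 p) hz (ind_of_inner e00 b1 hi.crs_ne) a1 b2
      (by rw [real_inner_comm, inner_e0, hz0])
      (G2 _ _ hz hi.crs_ne hz0 (by rw [← inner_e0]; exact b1) b2)
  have S2 : ∀ a b : ℝ, a ^ 2 + b ^ 2 = 1 → ∀ y, y ≠ 0 →
      (D (WithLp.toLp 2 ![1, a, b]) y = L / 2 ↔ inner ℝ (WithLp.toLp 2 ![1, a, b] : E3) y = 0) := by
    intro a b hab
    set z : E3 := WithLp.toLp 2 ![0, a, b] with hz
    set v : E3 := WithLp.toLp 2 ![0, -b, a] with hv
    have e1 : (WithLp.toLp 2 ![1, a, b] : E3) = e0 + z := ext3 (by simp [e0, hz])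
      (by simp [e0, hz]) (by simp [e0, hz])
    have hv0 : v ≠ 0 := by
      intro h0
      have c1 := congrArg (fun v : E3 => v 1) h0
      have c2 := congrArg (fun v : E3 => v 2) h0
      simp [hv] at c1 c2
      rw [c1, c2] at hab
      norm_num at hab
    have hX : e0 + z ≠ 0 := by
      intro h0
      have c1 := congrArg (fun v : E3 => v 0) h0
      simp [hz, e0] at c1
    have i1 : inner ℝ (e0 + z) v = 0 := by simp [inner3, e0, hz, hv]; ring
    rw [e1]
    refine two _ (e0 - z) v hX (ind_of_inner (n := e0) (by rw [inner_e0]; simp [e0, hz])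
      (by simp [inner_e0, hv]) hv0) (G3 z (by simp [hz]) (by simpa [hz] using hab)) ?_ ?_ i1
    · rw [h.symm _ _ hX hv0]
      exact (S1 v hv0 (by simp [hv]) _ hX).2 (by rw [real_inner_comm]; exact i1)
    · simp [inner3, e0, hz]; linarith
  have S3 : ∀ X Y : E3, X 0 = 1 → (∀ y, y ≠ 0 → (D X y = L / 2 ↔ inner ℝ X y = 0)) →
      Y ≠ 0 → crs X Y ≠ 0 → D Y (crs X Y) = L / 2 := by
    intro X Y hX0 hX hY hR
    have hXne : X ≠ 0 := by
      intro h0
      rw [h0] at hX0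
      simp at hX0
    have a1 : D X (crs X Y) = L / 2 :=
      (hX _ hR).2 (by rw [real_inner_comm]; exact inner_crs_left _ _)
    set Z := Y - Y 0 • X with hZ
    have hZ0 : Z ≠ 0 := by
      intro h0
      apply hR
      rw [sub_eq_zero.1 h0]
      apply ext3 <;> simp <;> ring
    have a2 : D Z (crs X Y) = L / 2 := (S1 Z hZ0 (by simp [hZ, hX0]) _ hR).2 (by
      rw [real_inner_comm, hZ, inner_sub_right, inner_smul_right, inner_crs_left,
        inner_crs_right]; ring)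
    obtain ⟨p, -, hp⟩ := hP _ hR
    rw [h.symm _ _ hY hR]
    refine (hp Y hY).2 ?_
    have b1 := (hp X hXne).1 (by rw [h.symm _ _ hR hXne]; exact a1)
    have b2 := (hp Z hZ0).1 (by rw [h.symm _ _ hR hZ0]; exact a2)
    rw [hZ, inner_sub_right, inner_smul_right, b1] at b2
    linarith
  have S4 : ∀ X1 X2 Y : E3, X1 0 = 1 → X2 0 = 1 →
      (∀ y, y ≠ 0 → (D X1 y = L / 2 ↔ inner ℝ X1 y = 0)) →
      (∀ y, y ≠ 0 → (D X2 y = L / 2 ↔ inner ℝ X2 y = 0)) → inner ℝ (crs X1 X2) Y ≠ 0 →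
      ∀ y, y ≠ 0 → (D Y y = L / 2 ↔ inner ℝ Y y = 0) := by
    intro X1 X2 Y h1 h2 s1 s2 hdet
    have hY : Y ≠ 0 := by rintro rfl; exact hdet (inner_zero_right _)
    have hi : Ind (crs X1 Y) (crs X2 Y) := by
      refine ind_dual (x := X2) (z := X1) ?_ (inner_crs_left _ _) (inner_crs_left _ _) ?_
      · intro h0
        apply hdet
        simp only [inner3, crs0, crs1, crs2] at h0 ⊢
        linarith
      · intro h0
        apply hdet
        simp only [inner3, crs0, crs1, crs2] at h0 ⊢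
        linarith
    exact two Y _ _ hY hi (S3 X1 Y h1 s1 hY hi.left_ne) (S3 X2 Y h2 s2 hY hi.right_ne)
      (by rw [real_inner_comm]; exact inner_crs_right _ _)
      (by rw [real_inner_comm]; exact inner_crs_right _ _)
  intro x y hx hy
  have sA := S2 1 0 (by norm_num)
  have sB := S2 (-1) 0 (by norm_num)
  have sC := S2 0 1 (by norm_num)
  by_cases d1 : x 2 = 0
  · by_cases d2 : x 0 + x 1 = 0
    · refine S4 _ _ x (by simp) (by simp) sA sC ?_ y hy
      intro h0
      simp [inner3, d1] at h0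
      exact hx (ext3 (by simp; linarith) (by simp; linarith) d1)
    · refine S4 _ _ x (by simp) (by simp) sB sC ?_ y hy
      intro h0
      simp [inner3, d1] at h0
      exact d2 (by linarith)
  · refine S4 _ _ x (by simp) (by simp) sA sB ?_ y hy
    intro h0
    simp [inner3] at h0
    rcases h0 with h0 | h0
    · norm_num at h0
    · exact d1 h0

end PM

end Pool.Agent.P.MP_ec5bc9_gt
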